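import Pool.Agent.Lib.MP_a51fee_ag.SG.NMert
import Pool.Agent.Lib.MP_dd84fd_nt.SW.SWPsi

/-!
# SG-PAP: Mertens' estimates in a fixed progression

Library: `Pool.Agent.Lib.MP_dd84fd_nt...`, file `SW/SWPsi.lean`, theorem `sw_theta` (Siegel-Walfisz for
`θ(x; r, c)`); here `r = m` is fixed, so for `X ≥ X0`: `|θ(X; m, c) - X/φ(m)| ≤ X / (log X)^2`.
PROOF of `mert_ap_log`.  Abel summation: `∑_{q ≤ X} log q / q = θ(X)/X + ∑_{n<X} θ(n) (1/n - 1/(n+1))`,
main term `(1/φ(m)) (1 + ∑ 1/(n+1)) = log X / φ(m) + O(1)`, error `∑ 1/(n (log n)^2) + O(1) = O(1)`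
(dyadically, or compare with `1/log n - 1/log (n+1)`).
PROOF of `mert_ap_inv`.  Abel summation again with the weight `1/log n`, from `mert_ap_log`
(`∑ (1/log n - 1/log(n+1)) log n = log log X + O(1)`), or directly from `sw_theta` with
`1/(n log n)`.
-/

set_option autoImplicit false

open Finset

namespace Pool.SG

private theorem abel (b w : ℕ → ℝ) (n : ℕ) :
    ∑ k ∈ range n, b k * w k = (∑ k ∈ range n, b k) * w n +
      ∑ k ∈ range n, (∑ j ∈ range (k + 1), b j) * (w k - w (k + 1)) := by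
  induction n with
  | zero => simp
  | succ n ih =>
    rw [sum_range_succ, ih, sum_range_succ (fun k => (∑ j ∈ range (k + 1), b j) * (w k - w (k + 1))),
      sum_range_succ b n]
    ring

private theorem sum_conv (P : ℕ → Prop) [DecidablePred P] (hP : ¬ P 0) (f : ℕ → ℝ) (X : ℕ) :
    ∑ q ∈ (Icc 1 X).filter P, f q = ∑ n ∈ range (X + 1), if P n then f n else 0 := by
  rw [← sum_filter]
  apply sum_congr _ fun _ _ => rfl
  ext n
  simp only [mem_filter, mem_Icc, mem_range]
  constructor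
  · rintro ⟨⟨_, h2⟩, h3⟩
    exact ⟨by omega, h3⟩
  · rintro ⟨h1, h2⟩
    refine ⟨⟨?_, by omega⟩, h2⟩
    rcases Nat.eq_zero_or_pos n with h | h
    · exact absurd (h ▸ h2) hP
    · exact h

private theorem log_step (n : ℕ) (hn : 1 ≤ n) :
    1 / (((n : ℝ) + 1) * Real.log (n + 2) ^ 2) ≤
      2 * (1 / Real.log (n + 1) - 1 / Real.log (n + 2)) := by
  have hn1 : (1 : ℝ) ≤ n := by exact_mod_cast hn
  have h1 : 0 < Real.log ((n : ℝ) + 1) := Real.log_pos (by linarith)
  have h2 : 0 < Real.log ((n : ℝ) + 2) := Real.log_pos (by linarith)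
  have h3 : Real.log ((n : ℝ) + 1) ≤ Real.log ((n : ℝ) + 2) :=
    Real.log_le_log (by linarith) (by linarith)
  have h4 : 1 / ((n : ℝ) + 2) ≤ Real.log ((n : ℝ) + 2) - Real.log ((n : ℝ) + 1) := by
    have h5 := Real.log_le_sub_one_of_pos (x := ((n : ℝ) + 1) / ((n : ℝ) + 2)) (by positivity)
    rw [Real.log_div (by positivity) (by positivity)] at h5
    have h6 : ((n : ℝ) + 1) / ((n : ℝ) + 2) - 1 = -(1 / ((n : ℝ) + 2)) := by
      field_simp
      ring
    rw [h6] at h5
    linarith
  have h7 : 1 / Real.log ((n : ℝ) + 1) - 1 / Real.log ((n : ℝ) + 2) =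
      (Real.log ((n : ℝ) + 2) - Real.log ((n : ℝ) + 1)) /
        (Real.log ((n : ℝ) + 1) * Real.log ((n : ℝ) + 2)) := by
    field_simp
  have h8 : 1 / ((n : ℝ) + 2) / Real.log ((n : ℝ) + 2) ^ 2 ≤
      (Real.log ((n : ℝ) + 2) - Real.log ((n : ℝ) + 1)) /
        (Real.log ((n : ℝ) + 1) * Real.log ((n : ℝ) + 2)) := by
    apply div_le_div₀ (by linarith [show (0 : ℝ) ≤ 1 / ((n : ℝ) + 2) by positivity]) h4
      (by positivity)
    rw [sq]
    exact mul_le_mul_of_nonneg_right h3 h2.le
  rw [h7]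
  have h9 : 1 / (((n : ℝ) + 1) * Real.log (n + 2) ^ 2) ≤
      2 * (1 / ((n : ℝ) + 2) / Real.log ((n : ℝ) + 2) ^ 2) := by
    rw [div_div, ← mul_div_assoc, mul_one, div_le_div_iff₀ (by positivity) (by positivity)]
    have h10 : 0 < Real.log ((n : ℝ) + 2) ^ 2 := by positivity
    nlinarith
  linarith

private theorem sum_log_step (X : ℕ) :
    ∑ k ∈ range (X + 1), (if k = 0 then 0 else 1 / (((k : ℝ) + 1) * Real.log (k + 2) ^ 2)) ≤
      2 * (1 / Real.log 2) := by
  have h : ∀ X : ℕ, ∑ k ∈ range (X + 1),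
      (if k = 0 then 0 else 1 / (((k : ℝ) + 1) * Real.log (k + 2) ^ 2)) ≤
      2 * (1 / Real.log 2 - 1 / Real.log ((X : ℝ) + 2)) := by
    intro X
    induction X with
    | zero => simp
    | succ X ih =>
      rw [sum_range_succ, if_neg (Nat.succ_ne_zero X)]
      have h1 := log_step (X + 1) (by omega)
      have h2 : ((X + 1 : ℕ) : ℝ) + 1 = (X : ℝ) + 2 := by push_cast; ring
      rw [h2] at h1 ⊢
      linarith
  have h1 := h X
  have h2 : 0 ≤ 1 / Real.log ((X : ℝ) + 2) := by
    apply div_nonneg zero_le_one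
    apply Real.log_nonneg
    have : (0 : ℝ) ≤ X := Nat.cast_nonneg X
    linarith
  linarith

private theorem theta_bound (m c : ℕ) (hm : 1 ≤ m) (hc : Nat.Coprime c m) :
    ∃ K : ℝ, 0 < K ∧ ∀ X : ℕ,
      |∑ p ∈ (Icc 1 X).filter (fun n => n.Prime ∧ n ≡ c [MOD m]), Real.log p -
        X / (Nat.totient m : ℝ)| ≤ K * (X / Real.log (X + 2) ^ 2) := by
  obtain ⟨X0, h0⟩ := Pool.MP_dd84fd_nt.SW.sw_theta 2 1
  set E : ℕ → ℝ := fun X => ∑ p ∈ (Icc 1 X).filter (fun n => n.Prime ∧ n ≡ c [MOD m]),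
    Real.log p - X / (Nat.totient m : ℝ) with hE
  have hlogev : ∀ᶠ X : ℕ in Filter.atTop, (m : ℝ) ≤ Real.log X :=
    (Real.tendsto_log_atTop.comp tendsto_natCast_atTop_atTop).eventually_ge_atTop _
  obtain ⟨X1, h1⟩ := Filter.eventually_atTop.1 hlogev
  set X2 := max (max X0 X1) 2 with hX2
  have hbig : ∀ X : ℕ, X2 ≤ X → |E X| ≤ 4 * (X / Real.log (X + 2) ^ 2) := by
    intro X hX
    have hX0 : X0 ≤ X := ((le_max_left _ _).trans (le_max_left _ _)).trans hX
    have hX1 : X1 ≤ X := ((le_max_right _ _).trans (le_max_left _ _)).trans hX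
    have hX3 : 2 ≤ X := (le_max_right _ _).trans hX
    have h3 := h0 X hX0 m c hm (by rw [pow_one]; exact h1 X hX1) hc
    refine h3.trans ?_
    have h4 : (2 : ℝ) ≤ X := by exact_mod_cast hX3
    have h5 : 0 < Real.log X := Real.log_pos (by linarith)
    have h6 : Real.log ((X : ℝ) + 2) ≤ 2 * Real.log X := by
      rw [← Real.log_rpow (by linarith)]
      apply Real.log_le_log (by linarith)
      have h7 : (X : ℝ) ^ (2 : ℝ) = (X : ℝ) ^ 2 := by
        exact_mod_cast Real.rpow_natCast (X : ℝ) 2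
      rw [h7]
      nlinarith
    have h8 : 0 < Real.log ((X : ℝ) + 2) := Real.log_pos (by linarith)
    have h9 : Real.log ((X : ℝ) + 2) ^ 2 ≤ 4 * Real.log X ^ 2 := by nlinarith
    rw [← mul_div_assoc, div_le_div_iff₀ (by positivity) (by positivity)]
    nlinarith
  set K1 : ℝ := ∑ k ∈ range X2, |E k| with hK1
  have hK1' : 0 ≤ K1 := sum_nonneg fun _ _ => abs_nonneg _
  have hL : 0 < Real.log ((X2 : ℝ) + 2) := by
    apply Real.log_pos
    have : (0 : ℝ) ≤ X2 := Nat.cast_nonneg _
    linarith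
  refine ⟨4 + K1 * Real.log ((X2 : ℝ) + 2) ^ 2, by positivity, fun X => ?_⟩
  have hXn : (0 : ℝ) ≤ X := Nat.cast_nonneg X
  have hLX : 0 < Real.log ((X : ℝ) + 2) := Real.log_pos (by linarith)
  change |E X| ≤ _
  rcases le_or_gt X2 X with hX | hX
  · refine (hbig X hX).trans ?_
    apply mul_le_mul_of_nonneg_right _ (by positivity)
    have : 0 ≤ K1 * Real.log ((X2 : ℝ) + 2) ^ 2 := by positivity
    linarith
  · rcases Nat.eq_zero_or_pos X with h | h
    · have h2 : E X = 0 := by
        rw [h, hE]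
        simp
      rw [h2, abs_zero]
      positivity
    · have h2 : |E X| ≤ K1 :=
        single_le_sum (f := fun k => |E k|) (fun _ _ => abs_nonneg _) (mem_range.2 hX)
      have h3 : (1 : ℝ) ≤ X := by exact_mod_cast h
      have h4 : Real.log ((X : ℝ) + 2) ≤ Real.log ((X2 : ℝ) + 2) := by
        apply Real.log_le_log (by linarith)
        have : (X : ℝ) ≤ X2 := by exact_mod_cast hX.le
        linarith
      have h5 : Real.log ((X : ℝ) + 2) ^ 2 ≤ Real.log ((X2 : ℝ) + 2) ^ 2 :=
        pow_le_pow_left₀ hLX.le h4 2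
      have h6 : 1 ≤ Real.log ((X2 : ℝ) + 2) ^ 2 * (X / Real.log ((X : ℝ) + 2) ^ 2) := by
        rw [← mul_div_assoc, one_le_div (by positivity)]
        nlinarith [sq_nonneg (Real.log ((X2 : ℝ) + 2))]
      have h7 : 0 ≤ (X : ℝ) / Real.log ((X : ℝ) + 2) ^ 2 := by positivity
      nlinarith

theorem mert_ap_log (m c : ℕ) (hm : 1 ≤ m) (hc : Nat.Coprime c m) :
    ∃ C : ℝ, 0 < C ∧ ∀ X : ℕ, 1 ≤ X →
      |∑ q ∈ (Icc 1 X).filter (fun q => q.Prime ∧ q ≡ c [MOD m]), Real.log q / q -
        Real.log X / (Nat.totient m : ℝ)| ≤ C := by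
  obtain ⟨K, hK, hE⟩ := theta_bound m c hm hc
  set φ : ℝ := (Nat.totient m : ℝ) with hφ
  have hφ1 : 1 ≤ φ := by
    rw [hφ]
    exact_mod_cast Nat.totient_pos.2 hm
  have hP0 : ¬ (Nat.Prime 0 ∧ 0 ≡ c [MOD m]) := fun h => Nat.not_prime_zero h.1
  set a : ℕ → ℝ := fun n => if n.Prime ∧ n ≡ c [MOD m] then Real.log n else 0 with ha
  set b : ℕ → ℝ := fun n => a n - (if n = 0 then 0 else 1 / φ) with hb
  have hB : ∀ k : ℕ, ∑ j ∈ range (k + 1), b j =
      ∑ p ∈ (Icc 1 k).filter (fun n => n.Prime ∧ n ≡ c [MOD m]), Real.log p - k / φ := by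
    intro k
    rw [hb, sum_sub_distrib, sum_conv _ hP0]
    congr 1
    induction k with
    | zero => simp
    | succ k ih =>
      rw [sum_range_succ, ih, if_neg (Nat.succ_ne_zero k)]
      push_cast
      ring
  refine ⟨8 * K + 1, by positivity, fun X hX => ?_⟩
  have hX1 : (1 : ℝ) ≤ X := by exact_mod_cast hX
  have hl2 : (1 : ℝ) / 2 < Real.log 2 := by
    have := Real.log_two_gt_d9
    linarith
  have hA := abel b (fun n => 1 / (n : ℝ)) (X + 1)
  have hS : ∑ q ∈ (Icc 1 X).filter (fun q => q.Prime ∧ q ≡ c [MOD m]), Real.log q / q =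
      ∑ k ∈ range (X + 1), a k * (1 / (k : ℝ)) := by
    rw [sum_conv _ hP0]
    apply sum_congr rfl
    intro k _
    simp only [ha]
    split_ifs
    · ring
    · ring
  have hH : ∑ k ∈ range (X + 1), (if k = 0 then 0 else 1 / φ) * (1 / (k : ℝ)) =
      (harmonic X : ℝ) / φ := by
    rw [sum_range_succ', harmonic]
    push_cast
    rw [sum_div]
    simp only [zero_mul, add_zero]
    apply sum_congr rfl
    intro k _
    field_simp
  have hbk : ∑ k ∈ range (X + 1), b k * (1 / (k : ℝ)) =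
      ∑ k ∈ range (X + 1), a k * (1 / (k : ℝ)) - (harmonic X : ℝ) / φ := by
    rw [← hH, ← sum_sub_distrib]
    apply sum_congr rfl
    intro k _
    rw [hb]
    ring
  have hL : 0 < Real.log ((X : ℝ) + 2) := Real.log_pos (by linarith)
  have hl2L : Real.log 2 ≤ Real.log ((X : ℝ) + 2) := Real.log_le_log (by norm_num) (by linarith)
  have hT1 : |(∑ k ∈ range (X + 1), b k) * (1 / ((X + 1 : ℕ) : ℝ))| ≤ 4 * K := by
    rw [hB, abs_mul, abs_of_nonneg (by positivity : (0 : ℝ) ≤ 1 / ((X + 1 : ℕ) : ℝ))]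
    have h1 := hE X
    have h2 : (X : ℝ) / Real.log (X + 2) ^ 2 ≤ 4 * X := by
      rw [div_le_iff₀ (by positivity)]
      have h3 : 1 ≤ 4 * Real.log ((X : ℝ) + 2) ^ 2 := by nlinarith
      nlinarith
    have h4 : (1 : ℝ) / ((X + 1 : ℕ) : ℝ) = 1 / ((X : ℝ) + 1) := by push_cast; ring
    rw [h4]
    have h5 : 4 * (X : ℝ) * (1 / ((X : ℝ) + 1)) ≤ 4 := by
      rw [mul_one_div, div_le_iff₀ (by positivity)]
      linarith
    have h6 : 0 ≤ 1 / ((X : ℝ) + 1) := by positivity
    calc _ ≤ K * (4 * X) * (1 / ((X : ℝ) + 1)) := by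
          apply mul_le_mul_of_nonneg_right _ h6
          exact h1.trans (mul_le_mul_of_nonneg_left h2 hK.le)
      _ = K * (4 * (X : ℝ) * (1 / ((X : ℝ) + 1))) := by ring
      _ ≤ K * 4 := mul_le_mul_of_nonneg_left h5 hK.le
      _ = 4 * K := by ring
  have hT2 : |∑ k ∈ range (X + 1), (∑ j ∈ range (k + 1), b j) *
      (1 / (k : ℝ) - 1 / ((k + 1 : ℕ) : ℝ))| ≤ 4 * K := by
    refine (abs_sum_le_sum_abs _ _).trans ?_
    have h1 : ∀ k ∈ range (X + 1), |(∑ j ∈ range (k + 1), b j) *
        (1 / (k : ℝ) - 1 / ((k + 1 : ℕ) : ℝ))| ≤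
        K * (if k = 0 then 0 else 1 / (((k : ℝ) + 1) * Real.log (k + 2) ^ 2)) := by
      intro k _
      rcases Nat.eq_zero_or_pos k with h | h
      · rw [hB, h]
        simp
      · rw [if_neg h.ne', hB, abs_mul]
        have hk1 : (1 : ℝ) ≤ k := by exact_mod_cast h
        have h2 : 1 / (k : ℝ) - 1 / ((k + 1 : ℕ) : ℝ) = 1 / ((k : ℝ) * (k + 1)) := by
          push_cast
          field_simp
          ring
        have hLk : 0 < Real.log ((k : ℝ) + 2) := Real.log_pos (by linarith)
        rw [h2, abs_of_nonneg (by positivity : (0 : ℝ) ≤ 1 / ((k : ℝ) * (k + 1)))]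
        calc _ ≤ K * (k / Real.log (k + 2) ^ 2) * (1 / ((k : ℝ) * (k + 1))) :=
              mul_le_mul_of_nonneg_right (hE k) (by positivity)
          _ = K * (1 / (((k : ℝ) + 1) * Real.log (k + 2) ^ 2)) := by
              field_simp
    refine (sum_le_sum h1).trans ?_
    rw [← mul_sum]
    have h2 := sum_log_step X
    have h3 : 1 / Real.log 2 ≤ 2 := by
      rw [div_le_iff₀ (by linarith)]
      linarith
    nlinarith
  have hmain : |∑ k ∈ range (X + 1), a k * (1 / (k : ℝ)) - (harmonic X : ℝ) / φ| ≤ 8 * K := by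
    rw [← hbk, hA]
    refine (abs_add_le _ _).trans ?_
    linarith
  have hh1 : Real.log X ≤ (harmonic X : ℝ) := by
    refine le_trans ?_ (log_add_one_le_harmonic X)
    apply Real.log_le_log (by linarith)
    push_cast
    linarith
  have hh2 : (harmonic X : ℝ) ≤ 1 + Real.log X := harmonic_le_one_add_log X
  have hh3 : |(harmonic X : ℝ) / φ - Real.log X / φ| ≤ 1 := by
    rw [← sub_div, abs_le]
    constructor
    · have : 0 ≤ ((harmonic X : ℝ) - Real.log X) / φ := div_nonneg (by linarith) (by linarith)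
      linarith
    · rw [div_le_iff₀ (by linarith)]
      linarith
  rw [hS]
  have h1 := abs_sub_le (∑ k ∈ range (X + 1), a k * (1 / (k : ℝ))) ((harmonic X : ℝ) / φ)
    (Real.log X / φ)
  linarith

private theorem main_term (X : ℕ) (hX : 2 ≤ X) :
    |∑ k ∈ range (X + 1), (if k < 2 then 0 else
      (Real.log k - Real.log ((k : ℝ) - 1)) * (1 / Real.log k)) - Real.log (Real.log X)| ≤ 4 := by
  have hl2 : (1 : ℝ) / 2 < Real.log 2 := by
    have := Real.log_two_gt_d9
    linarith
  have hl2' : Real.log 2 < 1 := by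
    have := Real.log_two_lt_d9
    linarith
  have hll : -1 ≤ Real.log (Real.log 2) := by
    rw [Real.le_log_iff_exp_le (by linarith)]
    refine le_trans ?_ hl2.le
    rw [Real.exp_neg, ← one_div]
    apply one_div_le_one_div_of_le (by norm_num)
    have := Real.add_one_le_exp (1 : ℝ)
    linarith
  have hll' : Real.log (Real.log 2) ≤ 0 := Real.log_nonpos (by linarith) hl2'.le
  have key : ∀ X : ℕ, 2 ≤ X →
      (∑ k ∈ range (X + 1), (if k < 2 then 0 else
        (Real.log k - Real.log ((k : ℝ) - 1)) * (1 / Real.log k)) ≤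
          1 + (Real.log (Real.log X) - Real.log (Real.log 2))) ∧
      (1 + (Real.log (Real.log X) - Real.log (Real.log 2)) - (1 / Real.log 2 - 1 / Real.log X) ≤
        ∑ k ∈ range (X + 1), (if k < 2 then 0 else
        (Real.log k - Real.log ((k : ℝ) - 1)) * (1 / Real.log k))) := by
    intro X hX
    induction X, hX using Nat.le_induction with
    | base =>
      have h1 : ∑ k ∈ range (2 + 1), (if k < 2 then (0 : ℝ) else
        (Real.log k - Real.log ((k : ℝ) - 1)) * (1 / Real.log k)) = 1 := by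
        rw [sum_range_succ, sum_range_succ, sum_range_succ]
        simp only [range_zero, sum_empty]
        rw [if_pos (by norm_num), if_pos (by norm_num), if_neg (by norm_num)]
        have h2 : ((2 : ℕ) : ℝ) - 1 = 1 := by norm_num
        rw [h2, Real.log_one, sub_zero, mul_one_div, Nat.cast_ofNat, div_self (by linarith)]
        norm_num
      rw [h1]
      constructor
      · rw [Nat.cast_ofNat]
        linarith
      · rw [Nat.cast_ofNat]
        linarith
    | succ n hn ih =>
      obtain ⟨ih1, ih2⟩ := ih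
      have hn2 : (2 : ℝ) ≤ n := by exact_mod_cast hn
      rw [sum_range_succ, if_neg (by omega)]
      have h1 : ((n + 1 : ℕ) : ℝ) - 1 = n := by push_cast; ring
      rw [h1]
      have hc : ((n + 1 : ℕ) : ℝ) = (n : ℝ) + 1 := by push_cast; ring
      rw [hc]
      have hln : 0 < Real.log n := Real.log_pos (by linarith)
      have hln1 : 0 < Real.log ((n : ℝ) + 1) := Real.log_pos (by linarith)
      have hle : Real.log n ≤ Real.log ((n : ℝ) + 1) := Real.log_le_log (by linarith) (by linarith)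
      have h2 : Real.log (Real.log ((n : ℝ) + 1)) - Real.log (Real.log n) ≤
          (Real.log ((n : ℝ) + 1) - Real.log n) * (1 / Real.log n) := by
        rw [← Real.log_div hln1.ne' hln.ne']
        refine (Real.log_le_sub_one_of_pos (by positivity)).trans (le_of_eq ?_)
        field_simp
      have h3 : (Real.log ((n : ℝ) + 1) - Real.log n) * (1 / Real.log ((n : ℝ) + 1)) ≤
          Real.log (Real.log ((n : ℝ) + 1)) - Real.log (Real.log n) := by
        have h4 := Real.log_le_sub_one_of_pos (x := Real.log n / Real.log ((n : ℝ) + 1))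
          (by positivity)
        rw [Real.log_div hln.ne' hln1.ne'] at h4
        have h5 : (Real.log ((n : ℝ) + 1) - Real.log n) * (1 / Real.log ((n : ℝ) + 1)) =
            -(Real.log n / Real.log ((n : ℝ) + 1) - 1) := by
          field_simp
          ring
        rw [h5]
        linarith
      have h6 : Real.log ((n : ℝ) + 1) - Real.log n ≤ 1 := by
        rw [← Real.log_div (by linarith) (by linarith)]
        refine (Real.log_le_sub_one_of_pos (by positivity)).trans ?_
        have h7 : ((n : ℝ) + 1) / n - 1 = 1 / n := by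
          field_simp
          ring
        rw [h7, div_le_one (by linarith)]
        linarith
      have h8 : (Real.log ((n : ℝ) + 1) - Real.log n) * (1 / Real.log n) -
          (Real.log ((n : ℝ) + 1) - Real.log n) * (1 / Real.log ((n : ℝ) + 1)) ≤
          1 / Real.log n - 1 / Real.log ((n : ℝ) + 1) := by
        rw [← mul_sub]
        have h9 : 0 ≤ 1 / Real.log n - 1 / Real.log ((n : ℝ) + 1) := by
          rw [sub_nonneg]
          exact one_div_le_one_div_of_le hln hle
        nlinarith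
      constructor
      · linarith
      · linarith
  obtain ⟨h1, h2⟩ := key X hX
  have hX2 : (2 : ℝ) ≤ X := by exact_mod_cast hX
  have h3 : 0 ≤ 1 / Real.log X := by
    apply div_nonneg zero_le_one
    apply Real.log_nonneg
    linarith
  have h4 : 1 / Real.log 2 ≤ 2 := by
    rw [div_le_iff₀ (by linarith)]
    linarith
  rw [abs_le]
  constructor
  · linarith
  · linarith

theorem mert_ap_inv (m c : ℕ) (hm : 1 ≤ m) (hc : Nat.Coprime c m) :
    ∃ C : ℝ, 0 < C ∧ ∀ X : ℕ, 3 ≤ X →
      |∑ q ∈ (Icc 1 X).filter (fun q => q.Prime ∧ q ≡ c [MOD m]), 1 / (q : ℝ) -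
        Real.log (Real.log X) / (Nat.totient m : ℝ)| ≤ C := by
  obtain ⟨C, hC, hlog⟩ := mert_ap_log m c hm hc
  set φ : ℝ := (Nat.totient m : ℝ) with hφ
  have hφ1 : 1 ≤ φ := by
    rw [hφ]
    exact_mod_cast Nat.totient_pos.2 hm
  have hl2 : (1 : ℝ) / 2 < Real.log 2 := by
    have := Real.log_two_gt_d9
    linarith
  have hP0 : ¬ (Nat.Prime 0 ∧ 0 ≡ c [MOD m]) := fun h => Nat.not_prime_zero h.1
  set s : ℕ → ℝ := fun n => if n.Prime ∧ n ≡ c [MOD m] then Real.log n / n else 0 with hs
  set g : ℕ → ℝ := fun n => if n < 2 then 0 else Real.log n - Real.log ((n : ℝ) - 1) with hg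
  have hs0 : s 0 = 0 := by
    rw [hs]
    simp only
    rw [if_neg hP0]
  have hs1 : s 1 = 0 := by
    rw [hs]
    simp only
    rw [if_neg (fun h => Nat.not_prime_one h.1)]
  set b : ℕ → ℝ := fun n => s n - g n / φ with hb
  have hG : ∀ k : ℕ, ∑ j ∈ range (k + 1), g j = Real.log k := by
    intro k
    induction k with
    | zero => simp [hg]
    | succ k ih =>
      rw [sum_range_succ, ih, hg]
      simp only
      rcases Nat.eq_zero_or_pos k with h | h
      · subst h
        simp
      · rw [if_neg (by omega)]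
        push_cast
        rw [add_sub_cancel_right]
        ring
  have hB : ∀ k : ℕ, 1 ≤ k → |∑ j ∈ range (k + 1), b j| ≤ C := by
    intro k hk
    have h1 : ∑ j ∈ range (k + 1), b j =
        ∑ q ∈ (Icc 1 k).filter (fun q => q.Prime ∧ q ≡ c [MOD m]), Real.log q / q -
          Real.log k / φ := by
      rw [hb, sum_sub_distrib, ← sum_div, hG, sum_conv _ hP0]
    rw [h1]
    exact hlog k hk
  have hb0 : b 0 = 0 := by
    simp only [hb, hs0, hg]
    simp
  have hb1 : b 1 = 0 := by
    simp only [hb, hs1, hg]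
    simp
  refine ⟨4 * C + 4, by positivity, fun X hX => ?_⟩
  have hX3 : (3 : ℝ) ≤ X := by exact_mod_cast hX
  have hA := abel b (fun n => 1 / Real.log n) (X + 1)
  have hS : ∑ q ∈ (Icc 1 X).filter (fun q => q.Prime ∧ q ≡ c [MOD m]), 1 / (q : ℝ) =
      ∑ k ∈ range (X + 1), s k * (1 / Real.log k) := by
    rw [sum_conv _ hP0]
    apply sum_congr rfl
    intro k _
    simp only [hs]
    split_ifs with h
    · have h1 : (1 : ℝ) < k := by exact_mod_cast h.1.one_lt
      have h2 : Real.log k ≠ 0 := (Real.log_pos h1).ne'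
      field_simp
    · ring
  have hgk : ∀ k : ℕ, g k * (1 / Real.log k) = if k < 2 then 0 else
      (Real.log k - Real.log ((k : ℝ) - 1)) * (1 / Real.log k) := by
    intro k
    simp only [hg]
    split_ifs
    · ring
    · rfl
  have hbk : ∑ k ∈ range (X + 1), b k * (1 / Real.log k) =
      ∑ k ∈ range (X + 1), s k * (1 / Real.log k) -
        (∑ k ∈ range (X + 1), (if k < 2 then 0 else
      (Real.log k - Real.log ((k : ℝ) - 1)) * (1 / Real.log k))) / φ := by
    rw [sum_div, ← sum_sub_distrib]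
    apply sum_congr rfl
    intro k _
    rw [← hgk k, hb]
    ring
  have hinv2 : 1 / Real.log 2 ≤ 2 := by
    rw [div_le_iff₀ (by linarith)]
    linarith
  have hT1 : |(∑ k ∈ range (X + 1), b k) * (1 / Real.log ((X + 1 : ℕ) : ℝ))| ≤ 2 * C := by
    have h1 : (2 : ℝ) ≤ ((X + 1 : ℕ) : ℝ) := by push_cast; linarith
    have h2 : Real.log 2 ≤ Real.log ((X + 1 : ℕ) : ℝ) := Real.log_le_log (by norm_num) h1
    have h3 : 0 ≤ 1 / Real.log ((X + 1 : ℕ) : ℝ) := div_nonneg zero_le_one (by linarith)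
    have h4 : 1 / Real.log ((X + 1 : ℕ) : ℝ) ≤ 2 :=
      (one_div_le_one_div_of_le (by linarith) h2).trans hinv2
    rw [abs_mul, abs_of_nonneg h3]
    have h5 := hB X (by omega)
    have h6 : 0 ≤ |∑ k ∈ range (X + 1), b k| := abs_nonneg _
    nlinarith
  have hT2 : |∑ k ∈ range (X + 1), (∑ j ∈ range (k + 1), b j) *
      (1 / Real.log k - 1 / Real.log ((k + 1 : ℕ) : ℝ))| ≤ 2 * C := by
    refine (abs_sum_le_sum_abs _ _).trans ?_
    have h1 : ∀ Y : ℕ, 1 ≤ Y → ∑ k ∈ range (Y + 1), |(∑ j ∈ range (k + 1), b j) *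
        (1 / Real.log k - 1 / Real.log ((k + 1 : ℕ) : ℝ))| ≤
        C * (1 / Real.log 2 - 1 / Real.log ((Y + 1 : ℕ) : ℝ)) := by
      intro Y hY
      induction Y, hY using Nat.le_induction with
      | base =>
        rw [sum_range_succ, sum_range_succ]
        simp only [range_zero, sum_empty, sum_range_succ, hb0, hb1]
        norm_num
      | succ n hn ih =>
        rw [sum_range_succ]
        have hn1 : (1 : ℝ) ≤ n := by exact_mod_cast hn
        have h2 : (1 : ℝ) < ((n + 1 : ℕ) : ℝ) := by push_cast; linarith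
        have h3 : 0 < Real.log ((n + 1 : ℕ) : ℝ) := Real.log_pos h2
        have h4 : Real.log ((n + 1 : ℕ) : ℝ) ≤ Real.log ((n + 1 + 1 : ℕ) : ℝ) := by
          apply Real.log_le_log (by linarith)
          push_cast
          linarith
        have h5 : 0 ≤ 1 / Real.log ((n + 1 : ℕ) : ℝ) - 1 / Real.log ((n + 1 + 1 : ℕ) : ℝ) := by
          rw [sub_nonneg]
          exact one_div_le_one_div_of_le h3 h4
        rw [abs_mul, abs_of_nonneg h5]
        have h6 := mul_le_mul_of_nonneg_right (hB (n + 1) (by omega)) h5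
        linarith
    refine (h1 X (by omega)).trans ?_
    have h2 : 0 ≤ 1 / Real.log ((X + 1 : ℕ) : ℝ) := by
      apply div_nonneg zero_le_one
      apply Real.log_nonneg
      push_cast
      linarith
    nlinarith
  have hmain : |∑ k ∈ range (X + 1), s k * (1 / Real.log k) -
        (∑ k ∈ range (X + 1), (if k < 2 then 0 else
      (Real.log k - Real.log ((k : ℝ) - 1)) * (1 / Real.log k))) / φ| ≤ 4 * C := by
    rw [← hbk, hA]
    refine (abs_add_le _ _).trans ?_
    linarith
  have hm2 := main_term X (by omega)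
  have hm3 : |(∑ k ∈ range (X + 1), (if k < 2 then 0 else
      (Real.log k - Real.log ((k : ℝ) - 1)) * (1 / Real.log k))) / φ -
        Real.log (Real.log X) / φ| ≤ 4 := by
    rw [← sub_div, abs_div, abs_of_pos (by linarith : (0 : ℝ) < φ), div_le_iff₀ (by linarith)]
    linarith
  rw [hS]
  have h1 := abs_sub_le (∑ k ∈ range (X + 1), s k * (1 / Real.log k))
    ((∑ k ∈ range (X + 1), (if k < 2 then 0 else
      (Real.log k - Real.log ((k : ℝ) - 1)) * (1 / Real.log k))) / φ)
    (Real.log (Real.log X) / φ)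
  linarith

end Pool.SG
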