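import Pool.Agent.Lib.MP_a51fee_ag.SG.Defs

/-!
# SG-BOrd: few primes have small order; a prime factor of an order

PROOF of `small_order`.  For `l ∈ S`: `p` is a unit mod `l` (`l ≠ p` prime), so `n := od p l ≥ 1`
(`orderOf_pos`, finite group; `od` is the order of an element of `ZMod l`, use
`orderOf_units`/`isOfFinOrder`), `n ≤ N` and `l ∣ p^n - 1` (`p^n = 1` in `ZMod l`).  For fixed `n ≥ 1` the set `T` of
primes dividing `p^n - 1 > 0` satisfies `2^{|T|} ≤ ∏_{l ∈ T} l ≤ p^n - 1 < p^n ≤ 2^{p n}` (`p < 2^p`), so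
`|T| ≤ p n ≤ p N`.  Sum over `1 ≤ n ≤ N`: `|S| ≤ N * p N`.

PROOF of `prime_dvd_od`.  `p` is a unit mod `w`; `od p w` divides the order of the unit group, `φ(w)`
(`orderOf_dvd_card`, `ZMod.card_units_eq_totient`).  `r ∣ φ(w)`: `φ(w) = ∏_{l ∣ w} l^{a_l - 1} (l - 1)`
(`Nat.totient_eq_prod_factorization`), so `r ∣ l^{a_l - 1}` (then `r = l`, `a_l ≥ 2`, `r^2 ∣ w`) or
`r ∣ l - 1` for a prime `l ∣ w`.
-/

set_option autoImplicit false

open Finset

namespace Pool.SG

private theorem od_pos_dvd {p w : ℕ} (hw : 0 < w) (hpw : Nat.Coprime p w) :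
    0 < od p w ∧ od p w ∣ Nat.totient w := by
  have : NeZero w := ⟨by omega⟩
  have h1 : od p w = orderOf (ZMod.unitOfCoprime p hpw) := by
    unfold od
    rw [← orderOf_units, ZMod.coe_unitOfCoprime]
  rw [h1]
  refine ⟨orderOf_pos _, ?_⟩
  rw [← ZMod.card_units_eq_totient]
  exact orderOf_dvd_card

theorem small_order {p : ℕ} (hp : p.Prime) (N : ℕ) (S : Finset ℕ)
    (hS : ∀ l ∈ S, l.Prime ∧ l ≠ p ∧ od p l ≤ N) : S.card ≤ p * N ^ 2 := by
  classical
  have hcop : ∀ l ∈ S, Nat.Coprime p l := fun l hl =>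
    (Nat.coprime_primes hp (hS l hl).1).2 (fun h => (hS l hl).2.1 h.symm)
  have hpos : ∀ l ∈ S, 0 < od p l := fun l hl => (od_pos_dvd (hS l hl).1.pos (hcop l hl)).1
  have hdvd : ∀ l ∈ S, l ∣ p ^ od p l - 1 := by
    intro l hl
    have h1 : (p : ZMod l) ^ od p l = 1 := pow_orderOf_eq_one _
    have h2 : ((p ^ od p l - 1 : ℕ) : ZMod l) = 0 := by
      rw [Nat.cast_sub (Nat.one_le_pow _ _ hp.pos)]
      push_cast
      rw [h1, sub_self]
    exact (ZMod.natCast_eq_zero_iff _ _).1 h2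
  -- for fixed n
  have hfix : ∀ n ∈ Finset.Icc 1 N, (S.filter (fun l => od p l = n)).card ≤ p * N := by
    intro n hn
    rw [Finset.mem_Icc] at hn
    set T := S.filter (fun l => od p l = n) with hT
    have hpn : 1 < p ^ n := Nat.one_lt_pow (by omega) hp.one_lt
    have h1 : ∏ l ∈ T, l ∣ p ^ n - 1 := by
      refine Finset.prod_primes_dvd _ (fun l hl => ?_) (fun l hl => ?_)
      · exact (hS l (Finset.mem_filter.1 hl).1).1.prime
      · have := hdvd l (Finset.mem_filter.1 hl).1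
        rwa [(Finset.mem_filter.1 hl).2] at this
    have h2 : ∏ l ∈ T, l ≤ p ^ n - 1 := Nat.le_of_dvd (by omega) h1
    have h3 : 2 ^ T.card ≤ ∏ l ∈ T, l := by
      rw [← Finset.prod_const]
      exact Finset.prod_le_prod' fun l hl => (hS l (Finset.mem_filter.1 hl).1).1.two_le
    have h4 : 2 ^ T.card < 2 ^ (p * n) := by
      calc 2 ^ T.card ≤ p ^ n - 1 := h3.trans h2
        _ < p ^ n := by omega
        _ ≤ (2 ^ p) ^ n := Nat.pow_le_pow_left (Nat.lt_two_pow_self).le n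
        _ = 2 ^ (p * n) := by rw [pow_mul]
    have h5 : T.card < p * n := (Nat.pow_lt_pow_iff_right (by norm_num)).1 h4
    exact h5.le.trans (Nat.mul_le_mul_left _ hn.2)
  have hcov : S.card = ∑ n ∈ Finset.Icc 1 N, (S.filter (fun l => od p l = n)).card := by
    refine Finset.card_eq_sum_card_fiberwise (fun l hl => ?_)
    rw [Finset.mem_coe, Finset.mem_Icc]
    exact ⟨hpos l hl, (hS l hl).2.2⟩
  rw [hcov]
  calc ∑ n ∈ Finset.Icc 1 N, (S.filter (fun l => od p l = n)).card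
      ≤ ∑ _n ∈ Finset.Icc 1 N, p * N := Finset.sum_le_sum hfix
    _ = p * N ^ 2 := by
        rw [Finset.sum_const, Nat.card_Icc, smul_eq_mul]
        have : N + 1 - 1 = N := by omega
        rw [this]
        ring

theorem prime_dvd_od {p w r : ℕ} (hw : 0 < w) (hpw : Nat.Coprime w p) (hr : r.Prime)
    (h : r ∣ od p w) : r ^ 2 ∣ w ∨ ∃ l : ℕ, l.Prime ∧ l ∣ w ∧ r ∣ l - 1 := by
  have h1 := (od_pos_dvd hw hpw.symm).2
  have h2 : r ∣ Nat.totient w := h.trans h1
  rw [Nat.totient_eq_prod_factorization (by omega), Finsupp.prod] at h2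
  obtain ⟨l, hl, h3⟩ := (hr.prime.dvd_finsetProd_iff _).1 h2
  rw [Nat.support_factorization, Nat.mem_primeFactors] at hl
  rcases (Nat.Prime.dvd_mul hr).1 h3 with h4 | h4
  · left
    have h5 : r ∣ l := hr.dvd_of_dvd_pow h4
    have h6 : r = l := (Nat.prime_dvd_prime_iff_eq hr hl.1).1 h5
    have h7 : 2 ≤ w.factorization l := by
      by_contra hlt
      push Not at hlt
      have h8 : w.factorization l - 1 = 0 := by omega
      rw [h8, pow_zero] at h4
      exact hr.one_lt.ne' (Nat.dvd_one.1 h4)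
    rw [h6]
    exact (pow_dvd_pow l h7).trans (Nat.ordProj_dvd w l)
  · right
    exact ⟨l, hl.1, hl.2.1, h4⟩

theorem od_dvd_sub {p l : ℕ} (hp : p.Prime) (hl : l.Prime) (hlp : l ≠ p) :
    0 < od p l ∧ od p l ∣ l - 1 := by
  have hc : Nat.Coprime p l := (Nat.coprime_primes hp hl).2 (fun h => hlp h.symm)
  have h := od_pos_dvd hl.pos hc
  rwa [Nat.totient_prime hl] at h

end Pool.SG
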