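import Pool.Agent.Lib.MP_a51fee_ag.SG.BSm
import Pool.Agent.Lib.MP_a51fee_ag.SG.BOrd

/-!
# SG-BAp: primes `l` for which the order of `p` is smooth, in a progression

PROOF of `bad_ap`.  Let `l` be counted, `n := od p l`, `n ∣ l - 1` (`od_dvd_sub`), all prime factors of `n`
are `< Y`.
(i) `n ≤ y^{1/3}`: at most `p (y^{1/3})^2` primes (`small_order` with `N = ⌊y^{1/3}⌋`).
(ii) `n > y^{1/3}`: `n` has a divisor `d` with `y^{1/3} < d ≤ y^{1/3} Y`: multiply the prime factors of `n`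
(with multiplicity, each `< Y`) one by one; take the first partial product exceeding `y^{1/3}` (induction;
e.g. the least divisor of `n` which is `> y^{1/3}`: call it `d`, `d > 1`, `q` a prime factor of `d`, then
`d / q` is a divisor `≤ y^{1/3}`, so `d ≤ q y^{1/3} < Y y^{1/3}`).
`d` is prime to `a` (primes of `a` are `≥ Y`, those of `d` are `< Y`), `l ≡ 1 mod d`, `l ≡ c mod a`: one residue
class mod `a d` (CRT), at most `y/(a d) + 1` numbers in `Ioc y (2 y)`, and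
`a d ≤ y^{1/6} y^{1/3} Y ≤ y^{2/3} ≤ y` (`Y ≤ y^{1/6}`), so at most `2 y/(a d)`.
Sum over the `Y`-smooth `d ≤ 2 y` with `d ≥ y^{1/3}`: `smooth_tail` with `D0 = y^{1/3}`:
`≤ 2 (y/a) C (1 + log Y)^4 exp(-log y/(3 log Y))`.
-/

set_option autoImplicit false

open Finset

namespace Pool.SG

private theorem ba_count {a d : ℕ} (c y : ℕ) (ha : 0 < a) (hd : 0 < d) (hcop : Nat.Coprime a d) :
    (((Ioc y (2 * y)).filter (fun l => l ≡ c [MOD a] ∧ l ≡ 1 [MOD d])).card : ℝ) ≤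
      (y : ℝ) / ((a : ℝ) * d) + 1 := by
  obtain ⟨k, hk1, hk2⟩ := Nat.chineseRemainder hcop c 1
  have h1 : (Ioc y (2 * y)).filter (fun l => l ≡ c [MOD a] ∧ l ≡ 1 [MOD d]) =
      (Ioc y (2 * y)).filter (fun l => l ≡ k [MOD (a * d)]) := by
    apply Finset.filter_congr
    intro l _
    rw [← Nat.modEq_and_modEq_iff_modEq_mul hcop]
    constructor
    · rintro ⟨h2, h3⟩
      exact ⟨h2.trans hk1.symm, h3.trans hk2.symm⟩
    · rintro ⟨h2, h3⟩
      exact ⟨h2.trans hk1, h3.trans hk2⟩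
  rw [h1]
  have had : 0 < a * d := Nat.mul_pos ha hd
  have h2 := Nat.Ioc_filter_modEq_card y (2 * y) had k
  have hR : (0 : ℝ) < (a : ℝ) * d := by exact_mod_cast had
  have h3 : (((Ioc y (2 * y)).filter (fun l => l ≡ k [MOD (a * d)])).card : ℝ) =
      ((((Ioc y (2 * y)).filter (fun l => l ≡ k [MOD (a * d)])).card : ℤ) : ℝ) := by
    push_cast; rfl
  rw [h3, h2]
  push_cast
  apply max_le
  · have hQ : (0 : ℚ) < (a : ℚ) * d := by exact_mod_cast had
    have h4 := Int.floor_le ((((2 * y : ℕ) : ℚ) - (k : ℚ)) / ((a * d : ℕ) : ℚ))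
    have h5 := Int.lt_floor_add_one ((((y : ℕ) : ℚ) - (k : ℚ)) / ((a * d : ℕ) : ℚ))
    push_cast at h4 h5
    have h6 : ((⌊(2 * (y : ℚ) - k) / ((a : ℚ) * d)⌋ : ℤ) : ℚ) - (⌊((y : ℚ) - k) / ((a : ℚ) * d)⌋ : ℤ) ≤
        (y : ℚ) / ((a : ℚ) * d) + 1 := by
      have h7 : (2 * (y : ℚ) - k) / ((a : ℚ) * d) = ((y : ℚ) - k) / ((a : ℚ) * d) +
        (y : ℚ) / ((a : ℚ) * d) := by ring
      linarith
    generalize ⌊(2 * (y : ℚ) - k) / ((a : ℚ) * d)⌋ = A at h6 ⊢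
    generalize ⌊((y : ℚ) - k) / ((a : ℚ) * d)⌋ = B at h6 ⊢
    have h8 := (Rat.cast_le (K := ℝ)).2 h6
    push_cast at h8
    exact h8
  · positivity

open scoped Classical in
theorem bad_ap {p : ℕ} (hp : p.Prime) : ∃ C : ℝ, 0 < C ∧ ∀ Y : ℝ, 8 ≤ Y → ∀ y a c : ℕ,
    Y ^ 6 ≤ (y : ℝ) → 1 ≤ a → a ^ 6 ≤ y → (∀ q : ℕ, q.Prime → q ∣ a → Y ≤ (q : ℝ)) →
    (((Ioc y (2 * y)).filter (fun l => l.Prime ∧ l ≠ p ∧ l ≡ c [MOD a] ∧
        ∀ r : ℕ, r.Prime → r ∣ od p l → (r : ℝ) < Y)).card : ℝ) ≤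
      C * ((y : ℝ) / a) * (1 + Real.log Y) ^ 4 * Real.exp (-(Real.log y / (3 * Real.log Y))) +
        C * (y : ℝ) ^ (2 / 3 : ℝ) := by
  obtain ⟨C1, hC1, hst⟩ := smooth_tail
  refine ⟨2 * C1 + p, by positivity, ?_⟩
  intro Y hY y a c hYy ha hay haY
  have hY0 : (0 : ℝ) ≤ Y := by linarith
  have hy1 : (1 : ℝ) ≤ y := (one_le_pow₀ (by linarith : (1 : ℝ) ≤ Y)).trans hYy
  have hy0 : (0 : ℝ) < y := by linarith
  have ha0 : (0 : ℝ) < a := by exact_mod_cast ha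
  obtain ⟨t, ht⟩ : ∃ t : ℝ, t = (y : ℝ) ^ (1 / 3 : ℝ) := ⟨_, rfl⟩
  have ht1 : 1 ≤ t := by
    rw [ht]
    exact Real.one_le_rpow hy1 (by norm_num)
  have ht0 : 0 < t := by linarith
  have ht3 : t ^ 3 = y := by
    rw [ht, ← Real.rpow_natCast, ← Real.rpow_mul hy0.le]
    norm_num
  have ht2 : t ^ 2 = (y : ℝ) ^ (2 / 3 : ℝ) := by
    rw [ht, ← Real.rpow_natCast, ← Real.rpow_mul hy0.le]
    norm_num
  have hYt : Y ^ 2 ≤ t := by
    have h1 : (Y ^ 2) ^ 3 ≤ t ^ 3 := by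
      rw [ht3, ← pow_mul]
      exact hYy
    exact le_of_pow_le_pow_left₀ (by norm_num) ht0.le h1
  have hat : (a : ℝ) ^ 2 ≤ t := by
    have h1 : ((a : ℝ) ^ 2) ^ 3 ≤ t ^ 3 := by
      rw [ht3, ← pow_mul]
      exact_mod_cast hay
    exact le_of_pow_le_pow_left₀ (by norm_num) ht0.le h1
  set S := (Ioc y (2 * y)).filter (fun l => l.Prime ∧ l ≠ p ∧ l ≡ c [MOD a] ∧
        ∀ r : ℕ, r.Prime → r ∣ od p l → (r : ℝ) < Y) with hS
  have hSmem : ∀ l ∈ S, (y < l ∧ l ≤ 2 * y) ∧ l.Prime ∧ l ≠ p ∧ l ≡ c [MOD a] ∧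
        ∀ r : ℕ, r.Prime → r ∣ od p l → (r : ℝ) < Y := by
    intro l hl
    rwa [hS, mem_filter, mem_Ioc] at hl
  obtain ⟨N, hN⟩ : ∃ N : ℕ, N = ⌊t⌋₊ := ⟨_, rfl⟩
  have hNt : (N : ℝ) ≤ t := by rw [hN]; exact Nat.floor_le ht0.le
  have hN1 : 1 ≤ N := by
    rw [hN]
    exact Nat.le_floor (by exact_mod_cast ht1)
  -- small orders
  have hA : ((S.filter (fun l => od p l ≤ N)).card : ℝ) ≤ p * (y : ℝ) ^ (2 / 3 : ℝ) := by
    have h1 := small_order hp N (S.filter (fun l => od p l ≤ N)) (by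
      intro l hl
      rw [mem_filter] at hl
      obtain ⟨h2, h3⟩ := hl
      have h4 := hSmem l h2
      exact ⟨h4.2.1, h4.2.2.1, h3⟩)
    calc ((S.filter (fun l => od p l ≤ N)).card : ℝ) ≤ ((p * N ^ 2 : ℕ) : ℝ) := by
          exact_mod_cast h1
      _ = p * (N : ℝ) ^ 2 := by push_cast; ring
      _ ≤ p * t ^ 2 := by
          apply mul_le_mul_of_nonneg_left _ (Nat.cast_nonneg _)
          exact pow_le_pow_left₀ (Nat.cast_nonneg _) hNt 2
      _ = _ := by rw [ht2]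
  -- large orders
  set T := (Icc 1 (2 * y)).filter (fun d : ℕ =>
        (∀ q : ℕ, q.Prime → q ∣ d → (q : ℝ) < Y) ∧ t ≤ (d : ℝ)) with hT
  have hsub : S.filter (fun l => ¬ od p l ≤ N) ⊆
      (T.filter (fun d : ℕ => (d : ℝ) ≤ Y * t)).biUnion
        (fun d => (Ioc y (2 * y)).filter (fun l => l ≡ c [MOD a] ∧ l ≡ 1 [MOD d])) := by
    intro l hl
    rw [mem_filter] at hl
    obtain ⟨hlS, hlN⟩ := hl
    obtain ⟨hly, hlp, hlnp, hlc, hlr⟩ := hSmem l hlS
    obtain ⟨hn0, hnd⟩ := od_dvd_sub hp hlp hlnp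
    have hex : ∃ d : ℕ, N < d ∧ d ∣ od p l := ⟨od p l, not_le.1 hlN, dvd_rfl⟩
    obtain ⟨hd1, hd2⟩ := Nat.find_spec hex
    have hmin : ∀ m : ℕ, m < Nat.find hex → m ∣ od p l → m ≤ N := by
      intro m hm hm2
      by_contra h
      exact Nat.find_min hex hm ⟨not_le.1 h, hm2⟩
    generalize Nat.find hex = d at hd1 hd2 hmin
    have hdgt1 : 1 < d := by omega
    have hl1 : 0 < l - 1 := by have := hlp.two_le; omega
    have hdl : d ≤ l - 1 := Nat.le_of_dvd hl1 (hd2.trans hnd)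
    rw [mem_biUnion]
    refine ⟨d, ?_, ?_⟩
    · rw [mem_filter, hT, mem_filter, mem_Icc]
      refine ⟨⟨⟨by omega, by omega⟩, ?_, ?_⟩, ?_⟩
      · intro q hq hqd
        exact hlr q hq (hqd.trans hd2)
      · have h3 : t < (N : ℝ) + 1 := by rw [hN]; exact Nat.lt_floor_add_one t
        have h4 : (N : ℝ) + 1 ≤ d := by exact_mod_cast hd1
        linarith
      · have hq := Nat.minFac_prime (n := d) (by omega)
        have hqd := Nat.minFac_dvd d
        have h5 : d / d.minFac ≤ N := by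
          apply hmin
          · exact Nat.div_lt_self (by omega) hq.one_lt
          · exact (Nat.div_dvd_of_dvd hqd).trans hd2
        have h6 : (d.minFac : ℝ) < Y := hlr _ hq (hqd.trans hd2)
        have h7 : d = d.minFac * (d / d.minFac) := (Nat.mul_div_cancel' hqd).symm
        have h8 : ((d / d.minFac : ℕ) : ℝ) ≤ t := by
          have : ((d / d.minFac : ℕ) : ℝ) ≤ (N : ℝ) := by exact_mod_cast h5
          linarith
        calc (d : ℝ) = (d.minFac : ℝ) * ((d / d.minFac : ℕ) : ℝ) := by exact_mod_cast h7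
          _ ≤ Y * t := mul_le_mul h6.le h8 (Nat.cast_nonneg _) hY0
    · rw [mem_filter, mem_Ioc]
      refine ⟨hly, hlc, ?_⟩
      exact ((Nat.modEq_iff_dvd' hlp.one_lt.le).2 (hd2.trans hnd)).symm
  have hB : ((S.filter (fun l => ¬ od p l ≤ N)).card : ℝ) ≤
      2 * C1 * ((y : ℝ) / a) * (1 + Real.log Y) ^ 4 *
        Real.exp (-(Real.log y / (3 * Real.log Y))) := by
    have h1 := (Finset.card_le_card hsub).trans Finset.card_biUnion_le
    have h2 : ((S.filter (fun l => ¬ od p l ≤ N)).card : ℝ) ≤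
        ∑ d ∈ T.filter (fun d : ℕ => (d : ℝ) ≤ Y * t),
          (((Ioc y (2 * y)).filter (fun l => l ≡ c [MOD a] ∧ l ≡ 1 [MOD d])).card : ℝ) := by
      exact_mod_cast h1
    refine h2.trans ?_
    have h3 : ∀ d ∈ T.filter (fun d : ℕ => (d : ℝ) ≤ Y * t),
        (((Ioc y (2 * y)).filter (fun l => l ≡ c [MOD a] ∧ l ≡ 1 [MOD d])).card : ℝ) ≤
          2 * ((y : ℝ) / a) * (1 / (d : ℝ)) := by
      intro d hd
      rw [mem_filter, hT, mem_filter, mem_Icc] at hd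
      obtain ⟨⟨⟨hd1, _⟩, hd2, hd3⟩, hd4⟩ := hd
      have hd0 : (0 : ℝ) < d := by exact_mod_cast hd1
      have hcop : Nat.Coprime a d := by
        apply Nat.Coprime.symm
        apply Nat.coprime_of_dvd
        intro k hk hkd hka
        exact absurd (hd2 k hk hkd) (not_lt.2 (haY k hk hka))
      have h4 := ba_count (a := a) (d := d) c y ha hd1 hcop
      have h5 : (a : ℝ) * d ≤ y := by
        have h6 : (a : ℝ) * Y ≤ t := by nlinarith [sq_nonneg ((a : ℝ) - Y)]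
        calc (a : ℝ) * d ≤ a * (Y * t) := mul_le_mul_of_nonneg_left hd4 ha0.le
          _ = (a * Y) * t := by ring
          _ ≤ t * t := mul_le_mul_of_nonneg_right h6 ht0.le
          _ ≤ t ^ 3 := by nlinarith [mul_pos ht0 ht0]
          _ = y := ht3
      have h7 : 1 ≤ (y : ℝ) / ((a : ℝ) * d) := by
        rw [le_div_iff₀ (mul_pos ha0 hd0)]
        linarith
      calc _ ≤ (y : ℝ) / ((a : ℝ) * d) + 1 := h4
        _ ≤ (y : ℝ) / ((a : ℝ) * d) + (y : ℝ) / ((a : ℝ) * d) := by linarith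
        _ = _ := by field_simp; ring
    refine (Finset.sum_le_sum h3).trans ?_
    rw [← Finset.mul_sum]
    have h8 : ∑ d ∈ T.filter (fun d : ℕ => (d : ℝ) ≤ Y * t), 1 / (d : ℝ) ≤
        C1 * (1 + Real.log Y) ^ 4 * Real.exp (-(Real.log t / Real.log Y)) := by
      refine le_trans ?_ (hst Y hY t ht1 (2 * y))
      apply Finset.sum_le_sum_of_subset_of_nonneg
      · intro d hd
        exact (mem_filter.1 hd).1
      · intro d _ _
        positivity
    have h9 : Real.log t / Real.log Y = Real.log y / (3 * Real.log Y) := by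
      rw [ht, Real.log_rpow hy0]
      rw [div_eq_div_iff_comm]
      field_simp
    calc _ ≤ 2 * ((y : ℝ) / a) *
          (C1 * (1 + Real.log Y) ^ 4 * Real.exp (-(Real.log t / Real.log Y))) :=
          mul_le_mul_of_nonneg_left h8 (by positivity)
      _ = _ := by rw [h9]; ring
  have hcard : (S.card : ℝ) = ((S.filter (fun l => od p l ≤ N)).card : ℝ) +
      ((S.filter (fun l => ¬ od p l ≤ N)).card : ℝ) := by
    have h1 := Finset.card_filter_add_card_filter_not (s := S) (fun l => od p l ≤ N)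
    exact_mod_cast h1.symm
  rw [hcard]
  have hE : 0 ≤ ((y : ℝ) / a) * (1 + Real.log Y) ^ 4 *
      Real.exp (-(Real.log y / (3 * Real.log Y))) := by positivity
  have hF : 0 ≤ (y : ℝ) ^ (2 / 3 : ℝ) := by positivity
  have hp0 : (0 : ℝ) ≤ p := Nat.cast_nonneg _
  nlinarith [mul_nonneg hp0 hE, mul_nonneg hC1.le hF]

end Pool.SG
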