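import Pool.Agent.Lib.MP_a51fee_ag.SG.QT
import Pool.Agent.Lib.MP_a3a416_nt.QS.Gauss4

/-!
# SG-QRes: the quartic residue symbol of `p` modulo `l ≡ 5 mod 8`

PROOF of `quartic_res`.  Let `l ≡ 5 mod 8` be a prime, `l ≠ p` (adapt `dat4_prime` in
`MP_a3a416_nt/QS/Dat4.lean`, whose private lemmas `dat4_rho, dat4_jac, dat4_order, dat4_neg` may be copied).
Let `g` be a generator of `(ZMod l)^*`, `l0(x)` the discrete logarithm, for a field `k'` and `t ∈ k'`, `t^4 = 1`,
`ρ_t(x) = t^(l0 x)`.  There are integers `a, b` with `jacobiSum ρ_t ρ_t = a + b t` for every `t` with `t^2 = -1`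
(all fields): `a = m0 - m2`, `b = m1 - m3`, `m_r = #{x ≠ 0, 1 | l0(x) + l0(1-x) ≡ r mod 4}`.
`a^2 + b^2 = l` (norm of a Jacobi sum in `ℂ`).
`a` is odd, `b` even: the involution `x ↦ 1 - x` of `{x ≠ 0, 1}` has the only fixed point `1/2`, with
`r = 2 l0(1/2)` even: so `m1, m3` are even and `m0 + m2` is odd.
`quartic_gauss` (library, `Pool.QS.quartic_gauss`) in `k = AlgebraicClosure (ZMod p)` with `χ = ρ_{I0}`
(order 4, `χ(-1) = -1` since `l ≡ 5 mod 8`), `J = a + b I0`, `J^2 l = α^2 N`: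
`p ≡ 1 mod 4`: `TT a b * χ(p) = 1`; `p ≡ 3 mod 4`: `TT a b * N = - χ(p) N`, so `TT a b = - χ(p)`.
`χ(p) = I0^(l0 p)`; `p^((l-1)/4) = g^(l0(p) (l-1)/4)` in `ZMod l`: it is `1` iff `4 ∣ l0 p` iff `χ(p) = 1`,
`-1` iff `l0 p ≡ 2 mod 4` iff `χ(p) = -1`, otherwise `l0 p` odd, `χ(p) = ± I0`.
So with `ε = 1` (`p ≡ 1`) or `-1` (`p ≡ 3 mod 4`): `Re (psi a b) = ε s`, `s = 1, -1, 0` in the three cases.
-/

set_option autoImplicit false

open Finset

namespace Pool.SG

/-- discrete logarithms and the characters of order dividing `4` -/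
private theorem qres_rho {p : ℕ} [Fact p.Prime] (h4 : 4 ∣ p - 1) :
    ∃ (l : ZMod p → ℕ) (g : ZMod p), g ≠ 0 ∧ orderOf g = p - 1 ∧ (∀ x : ZMod p, x ≠ 0 →
      g ^ (l x) = x) ∧ ∀ (K : Type) [Field K] (t : K), t ^ 4 = 1 →
      ∃ ρ : MulChar (ZMod p) K, ρ g = t ∧ ∀ x : ZMod p, x ≠ 0 → ρ x = t ^ (l x) := by
  classical
  obtain ⟨g, hg⟩ := IsCyclic.exists_generator (α := (ZMod p)ˣ)
  have h1 : ∀ x : (ZMod p)ˣ, ∃ k : ℕ, g ^ k = x := by
    intro x
    have := hg x
    rw [← mem_powers_iff_mem_zpowers] at this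
    obtain ⟨k, hk⟩ := this
    exact ⟨k, hk⟩
  choose L hL using h1
  refine ⟨fun x => if h : IsUnit x then L h.unit else 0, (g : ZMod p), g.ne_zero, ?_, ?_, ?_⟩
  · rw [orderOf_units, orderOf_eq_card_of_forall_mem_zpowers hg, Nat.card_eq_fintype_card,
      ZMod.card_units]
  · intro x hx
    have hx' : IsUnit x := isUnit_iff_ne_zero.2 hx
    simp only [hx', dif_pos]
    rw [← Units.val_pow_eq_pow_val, hL]
    rfl
  intro K _ t ht
  have ht0 : t ≠ 0 := by
    rintro rfl
    norm_num at ht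
  set u : Kˣ := Units.mk0 t ht0 with hu
  have hmem : u ∈ rootsOfUnity (Fintype.card (ZMod p)ˣ) K := by
    rw [mem_rootsOfUnity, ZMod.card_units]
    obtain ⟨k, hk⟩ := h4
    rw [hk, pow_mul]
    have : u ^ 4 = 1 := by
      ext
      simp [hu, ht]
    rw [this, one_pow]
  refine ⟨MulChar.ofRootOfUnity hmem hg, ?_, ?_⟩
  · rw [MulChar.ofRootOfUnity_spec]
    rfl
  · intro x hx
    have hx' : IsUnit x := isUnit_iff_ne_zero.2 hx
    simp only [hx', dif_pos]
    have h2 : (x : ZMod p) = ((g ^ (L hx'.unit) : (ZMod p)ˣ) : ZMod p) := by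
      rw [hL]
      rfl
    conv_lhs => rw [h2]
    rw [Units.val_pow_eq_pow_val, map_pow, MulChar.ofRootOfUnity_spec]
    rfl

/-- order of a quartic character -/
private theorem qres_order {p : ℕ} [Fact p.Prime] {K : Type} [Field K] {t : K}
    (ht : t ^ 2 = -1) (h2 : (2 : K) ≠ 0) {ρ : MulChar (ZMod p) K} {l : ZMod p → ℕ} {g : ZMod p}
    (hg : ρ g = t) (hρ : ∀ x : ZMod p, x ≠ 0 → ρ x = t ^ (l x)) :
    orderOf ρ = 4 := by
  have : Fact (Nat.Prime 2) := ⟨Nat.prime_two⟩
  have ht4 : t ^ 4 = 1 := by linear_combination (t ^ 2 - 1) * ht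
  have h4 : orderOf ρ = 2 ^ (1 + 1) := by
    apply orderOf_eq_prime_pow
    · intro h
      apply h2
      have h3 : (ρ ^ 2 ^ 1) g = t ^ 2 := by
        have : (2 : ℕ) ^ 1 = 2 := rfl
        rw [this, pow_two, MulChar.mul_apply, hg, sq]
      rw [h, ht] at h3
      have h5 : (1 : MulChar (ZMod p) K) g = 1 := by
        by_cases hg1 : IsUnit g
        · exact MulChar.one_apply hg1
        · exfalso
          rw [MulChar.map_nonunit _ hg1] at hg
          rw [← hg] at ht4
          norm_num at ht4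
      rw [h5] at h3
      linear_combination h3
    · ext x
      have : (2 : ℕ) ^ (1 + 1) = 4 := rfl
      rw [this, MulChar.pow_apply_coe, hρ _ x.ne_zero, MulChar.one_apply_coe, ← pow_mul, mul_comm,
        pow_mul, ht4, one_pow]
  rw [h4]
  norm_num

/-- the discrete logarithm of `-1` -/
private theorem qres_neg {p : ℕ} [Fact p.Prime] (hp : p % 8 = 5) {l : ZMod p → ℕ} {g : ZMod p}
    (hg : orderOf g = p - 1) (hl : ∀ x : ZMod p, x ≠ 0 → g ^ (l x) = x) : l (-1) % 4 = 2 := by
  have hp1 : p.Prime := Fact.out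
  have h1 := hl (-1) (neg_ne_zero.2 one_ne_zero)
  have h2 : (p - 1) ∣ 2 * l (-1) := by
    rw [← hg]
    apply orderOf_dvd_of_pow_eq_one
    rw [mul_comm, pow_mul, h1]
    norm_num
  have h3 : ¬ (p - 1) ∣ l (-1) := by
    intro h
    rw [← hg] at h
    have h4 := orderOf_dvd_iff_pow_eq_one.1 h
    rw [h1] at h4
    have h5 : (2 : ZMod p) = 0 := by linear_combination -h4
    have h6 : ((2 : ℕ) : ZMod p) = 0 := by exact_mod_cast h5
    rw [ZMod.natCast_eq_zero_iff] at h6
    have := Nat.le_of_dvd (by norm_num) h6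
    omega
  obtain ⟨m, hm⟩ : ∃ m, p - 1 = 4 * m := ⟨(p - 1) / 4, by omega⟩
  have hmodd : m % 2 = 1 := by omega
  rw [hm] at h2 h3
  obtain ⟨k, hk⟩ := h2
  have hk2 : l (-1) = 2 * (m * k) := by
    have : 2 * l (-1) = 2 * (2 * (m * k)) := by rw [hk]; ring
    omega
  have hkodd : k % 2 = 1 := by
    by_contra hne
    apply h3
    obtain ⟨j, hj⟩ : ∃ j, k = 2 * j := ⟨k / 2, by omega⟩
    refine ⟨j, ?_⟩
    rw [hk2, hj]
    ring
  have hmk : (m * k) % 2 = 1 := by
    rw [Nat.mul_mod, hmodd, hkodd]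
  omega

/-- the coordinates of the Jacobi sum do not depend on the field -/
private theorem qres_jac {p : ℕ} [Fact p.Prime] (h2 : (2 : ZMod p) ≠ 0) (l : ZMod p → ℕ) :
    ∃ a b : ℤ, Even b ∧ ∀ (K : Type) [Field K] (t : K), t ^ 2 = -1 →
      ∀ ρ : MulChar (ZMod p) K, (∀ x : ZMod p, x ≠ 0 → ρ x = t ^ (l x)) →
        jacobiSum ρ ρ = (a : K) + (b : K) * t := by
  classical
  set S : Finset (ZMod p) := univ.filter (fun x => x ≠ 0 ∧ x ≠ 1) with hS
  set m : ℕ → ℕ := fun r => (S.filter (fun x => (l x + l (1 - x)) % 4 = r)).card with hm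
  have heven : ∀ r : ℕ, r % 2 = 1 → Even (m r) := by
    intro r hr
    have h1 : ((m r : ℕ) : ZMod 2) = 0 := by
      have h3 : ∑ x ∈ S.filter (fun x => (l x + l (1 - x)) % 4 = r), (1 : ZMod 2) = 0 := by
        refine Finset.sum_involution (fun x _ => 1 - x) ?_ ?_ ?_ ?_
        · intro x _
          decide
        · intro x hx _ h
          have hx2 := (mem_filter.1 hx).2
          rw [h] at hx2
          omega
        · intro x hx
          obtain ⟨hx1, hx2⟩ := mem_filter.1 hx
          obtain ⟨-, hx3, hx4⟩ := mem_filter.1 hx1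
          refine mem_filter.2 ⟨mem_filter.2 ⟨mem_univ _, sub_ne_zero.2 (Ne.symm hx4), ?_⟩, ?_⟩
          · intro h
            exact hx3 (by linear_combination -h)
          · rw [sub_sub_cancel, add_comm]
            exact hx2
        · intro x _
          ring
      rw [Finset.sum_const, nsmul_eq_mul, mul_one] at h3
      exact h3
    rw [ZMod.natCast_eq_zero_iff] at h1
    exact even_iff_two_dvd.2 h1
  refine ⟨(m 0 : ℤ) - m 2, (m 1 : ℤ) - m 3, ?_, ?_⟩
  · exact ((Int.even_coe_nat _).2 (heven 1 rfl)).sub ((Int.even_coe_nat _).2 (heven 3 rfl))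
  intro K _ t ht ρ hρ
  have ht4 : t ^ 4 = 1 := by linear_combination (t ^ 2 - 1) * ht
  have h1 : jacobiSum ρ ρ = ∑ x ∈ S, t ^ ((l x + l (1 - x)) % 4) := by
    rw [jacobiSum, ← Finset.sum_subset (Finset.subset_univ S)]
    · refine Finset.sum_congr rfl fun x hx => ?_
      rw [hS, mem_filter] at hx
      rw [hρ x hx.2.1, hρ (1 - x) (sub_ne_zero.2 (Ne.symm hx.2.2)), ← pow_add]
      conv_lhs => rw [← Nat.div_add_mod (l x + l (1 - x)) 4]
      rw [pow_add, pow_mul, ht4, one_pow, one_mul]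
    · intro x _ hx
      rw [hS, mem_filter] at hx
      simp only [mem_univ, true_and, not_and_or, not_not] at hx
      rcases hx with rfl | rfl
      · rw [MulChar.map_zero, zero_mul]
      · rw [sub_self, MulChar.map_zero, mul_zero]
  have h2 : ∑ x ∈ S, t ^ ((l x + l (1 - x)) % 4) = ∑ r ∈ range 4, (m r : K) * t ^ r := by
    rw [← Finset.sum_fiberwise_of_maps_to (s := S) (t := range 4)
      (g := fun x => (l x + l (1 - x)) % 4)
      (fun x _ => mem_range.2 (Nat.mod_lt _ (by norm_num)))]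
    refine Finset.sum_congr rfl fun r _ => ?_
    rw [Finset.sum_congr rfl (g := fun _ => t ^ r)]
    · rw [Finset.sum_const, nsmul_eq_mul]
    · intro x hx
      rw [(mem_filter.1 hx).2]
  rw [h1, h2]
  simp only [Finset.sum_range_succ, Finset.sum_range_zero]
  push_cast
  linear_combination ((m 2 : K) + (m 3 : K) * t) * ht

open scoped Classical in
/-- the real part of the quartic symbol of `p` modulo `l` -/
noncomputable def sq4 (p l : ℕ) : ℝ :=
  if (p : ZMod l) ^ ((l - 1) / 4) = 1 then 1 else if (p : ZMod l) ^ ((l - 1) / 4) = -1 then -1 else 0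

theorem quartic_res (p : ℕ) [Fact p.Prime] (hp2 : p ≠ 2) {l : ℕ} (hl : l.Prime) (h8 : l % 8 = 5)
    (hlp : l ≠ p) : ∃ a b : ℤ, Odd a ∧ Even b ∧ a ^ 2 + b ^ 2 = (l : ℤ) ∧
      (psi p a b).re = (if p % 4 = 1 then 1 else -1) * sq4 p l := by
  classical
  have hpp : p.Prime := Fact.out
  have : Fact l.Prime := ⟨hl⟩
  have h4 : 4 ∣ l - 1 := by omega
  have h2l : (2 : ZMod l) ≠ 0 := by
    intro h
    have h20 : ((2 : ℕ) : ZMod l) = 0 := by exact_mod_cast h
    rw [ZMod.natCast_eq_zero_iff] at h20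
    have := Nat.le_of_dvd (by norm_num) h20
    omega
  obtain ⟨L, g, hg0, hgo, hgl, hrho⟩ := qres_rho (p := l) h4
  obtain ⟨a, b, hbe, hab⟩ := qres_jac (p := l) h2l L
  have hneg := qres_neg h8 hgo hgl
  have hz : (Complex.I) ^ 2 = -1 := Complex.I_sq
  have hz4 : (Complex.I) ^ 4 = 1 := by linear_combination (Complex.I ^ 2 - 1) * hz
  obtain ⟨ρ, hρg, hρ⟩ := hrho ℂ Complex.I hz4
  have hord4 : orderOf ρ = 4 := qres_order hz two_ne_zero hρg hρ
  -- the norm
  have hJ : jacobiSum ρ ρ = (a : ℂ) + b * Complex.I := hab ℂ Complex.I hz ρ hρ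
  have hJ' : jacobiSum ρ⁻¹ ρ⁻¹ = (a : ℂ) + b * (-Complex.I) := by
    refine hab ℂ (-Complex.I) (by rw [neg_sq, hz]) ρ⁻¹ fun x hx => ?_
    rw [MulChar.inv_apply_eq_inv, hρ x hx, Ring.inverse_eq_inv, ← inv_pow, Complex.inv_I]
  have hρ1 : ρ ≠ 1 := by
    intro h
    rw [h, orderOf_one] at hord4
    norm_num at hord4
  have hρρ : ρ * ρ ≠ 1 := by
    intro h
    have : orderOf ρ ∣ 2 := orderOf_dvd_of_pow_eq_one (by rw [pow_two, h])
    rw [hord4] at this
    norm_num at this
  have hnorm : (a : ℂ) ^ 2 + b ^ 2 = l := by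
    have h := jacobiSum_mul_jacobiSum_inv (F := ZMod l) (F' := ℂ)
      (by rw [ringChar.eq_zero, ZMod.ringChar_zmod_n]; exact hl.ne_zero.symm) hρ1 hρ1 hρρ
    rw [hJ, hJ', ZMod.card] at h
    linear_combination h + (b : ℂ) ^ 2 * hz
  have hnormZ : a ^ 2 + b ^ 2 = (l : ℤ) := by exact_mod_cast hnorm
  have haodd : Odd a := by
    by_contra ha
    rw [Int.not_odd_iff_even] at ha
    have h1 : Even (a ^ 2 + b ^ 2) := (ha.pow_of_ne_zero two_ne_zero).add (hbe.pow_of_ne_zero two_ne_zero)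
    rw [hnormZ, Int.even_coe_nat] at h1
    have h3 := Nat.even_iff.1 h1
    omega
  refine ⟨a, b, haodd, hbe, hnormZ, ?_⟩
  have := ch_qt p
  have hw := I0_sq p
  have hw4 : I0 p ^ 4 = 1 := I0_four_qt p
  have h2F := two_ne_qt p hp2
  obtain ⟨σ, hσg, hσ⟩ := hrho (AlgebraicClosure (ZMod p)) (I0 p) hw4
  have hσ4 : orderOf σ = 4 := qres_order hw h2F hσg hσ
  have hJσ := hab (AlgebraicClosure (ZMod p)) (I0 p) hw σ hσ
  have hσneg : σ (-1) = -1 := by
    rw [hσ _ (neg_ne_zero.2 one_ne_zero), ← Nat.div_add_mod (L (-1)) 4, hneg, pow_add, pow_mul,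
      hw4, one_pow, one_mul, hw]
  have hql0 : (p : ZMod l) ≠ 0 := by
    intro h
    rw [ZMod.natCast_eq_zero_iff] at h
    exact hlp ((Nat.prime_dvd_prime_iff_eq hl hpp).1 h)
  have hNF : (a : AlgebraicClosure (ZMod p)) ^ 2 + (b : AlgebraicClosure (ZMod p)) ^ 2 = l := by
    have := congrArg (fun n : ℤ => (n : AlgebraicClosure (ZMod p))) hnormZ
    push_cast at this
    exact this
  have hl0 : (l : AlgebraicClosure (ZMod p)) ≠ 0 := by
    intro h
    rw [CharP.cast_eq_zero_iff _ p] at h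
    exact hlp ((Nat.prime_dvd_prime_iff_eq hpp hl).1 h).symm
  have hN0 : (a : AlgebraicClosure (ZMod p)) ^ 2 + (b : AlgebraicClosure (ZMod p)) ^ 2 ≠ 0 := by
    rw [hNF]
    exact hl0
  obtain ⟨hG1, hG2⟩ := Pool.QS.quartic_gauss (Ne.symm hlp) hp2 σ hσ4 hσneg
  rw [hσ _ hql0, hJσ] at hG1 hG2
  -- the value of `TT`
  obtain ⟨r, hr⟩ : ∃ r : ℕ, r = L (p : ZMod l) := ⟨_, rfl⟩
  rw [← hr] at hG1 hG2
  have hT1 : p % 4 = 1 → TT p a b * I0 p ^ r = 1 := by
    intro h
    have h1 := hG1 h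
    unfold TT
    rw [if_pos h, hNF]
    exact h1
  have hT2 : p % 4 ≠ 1 → TT p a b = -I0 p ^ r := by
    intro h
    have h3 : p % 4 = 3 := by
      have : p % 2 = 1 := (Nat.Prime.mod_two_eq_one_iff_ne_two hpp).2 hp2
      omega
    have h1 := hG2 h3
    unfold TT
    rw [if_neg h, hNF, div_eq_iff hl0]
    exact h1
  have hrr : I0 p ^ r = I0 p ^ (r % 4) := by
    conv_lhs => rw [← Nat.div_add_mod r 4, pow_add, pow_mul, hw4, one_pow, one_mul]
  rw [hrr] at hT1 hT2
  -- the power residue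
  obtain ⟨m, hm⟩ : ∃ m, l - 1 = 4 * m := ⟨(l - 1) / 4, by omega⟩
  have hmpos : 0 < m := by
    have := hl.two_le
    omega
  have hdiv : (l - 1) / 4 = m := by omega
  have hpow : (p : ZMod l) ^ ((l - 1) / 4) = g ^ (r * m) := by
    have h1 := hgl _ hql0
    rw [← hr] at h1
    rw [hdiv, pow_mul, h1]
  have hpow1 : (p : ZMod l) ^ ((l - 1) / 4) = 1 ↔ r % 4 = 0 := by
    rw [hpow, ← orderOf_dvd_iff_pow_eq_one, hgo, hm]
    constructor
    · intro h
      have := Nat.dvd_of_mul_dvd_mul_right hmpos h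
      omega
    · intro h
      exact Nat.mul_dvd_mul_right (Nat.dvd_of_mod_eq_zero h) m
  have hg2m : g ^ (2 * m) = -1 := by
    have h1 : (g ^ (2 * m) - 1) * (g ^ (2 * m) + 1) = 0 := by
      have h3 : g ^ (2 * m) * g ^ (2 * m) = 1 := by
        rw [← pow_add]
        have h5 : 2 * m + 2 * m = l - 1 := by omega
        rw [h5, ← hgo, pow_orderOf_eq_one]
      linear_combination h3
    rcases mul_eq_zero.1 h1 with h3 | h3
    · exfalso
      have h5 : g ^ (2 * m) = 1 := by linear_combination h3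
      rw [← orderOf_dvd_iff_pow_eq_one, hgo, hm] at h5
      have := Nat.le_of_dvd (by omega) h5
      omega
    · linear_combination h3
  have hpow2 : (p : ZMod l) ^ ((l - 1) / 4) = -1 ↔ r % 4 = 2 := by
    rw [hpow]
    constructor
    · intro h
      have h1 : g ^ (r * m + 2 * m) = 1 := by
        rw [pow_add, h, hg2m]
        norm_num
      rw [← orderOf_dvd_iff_pow_eq_one, hgo, hm, ← add_mul] at h1
      have := Nat.dvd_of_mul_dvd_mul_right hmpos h1
      omega
    · intro h
      have h1 : r * m = (4 * m) * (r / 4) + 2 * m := by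
        conv_lhs => rw [← Nat.div_add_mod r 4, h]
        ring
      rw [h1, pow_add, hg2m, pow_mul, ← hm, ← hgo, pow_orderOf_eq_one, one_pow, one_mul]
  have hne1 := I0_ne_one_qt p hp2
  have hne2 := I0_ne_neg_one_qt p hp2
  have hne3 := one_ne_qt p hp2
  have hsq : sq4 p l = if r % 4 = 0 then 1 else if r % 4 = 2 then -1 else 0 := by
    unfold sq4
    by_cases h1 : r % 4 = 0
    · rw [if_pos (hpow1.2 h1), if_pos h1]
    · rw [if_neg (fun h => h1 (hpow1.1 h)), if_neg h1]
      by_cases h3 : r % 4 = 2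
      · rw [if_pos (hpow2.2 h3), if_pos h3]
      · rw [if_neg (fun h => h3 (hpow2.1 h)), if_neg h3]
  have hp1 : TT p a b = 1 → (psi p a b).re = 1 := by
    intro h
    unfold psi
    rw [if_neg hN0, if_pos h, Complex.one_re]
  have hp2' : TT p a b = -1 → (psi p a b).re = -1 := by
    intro h
    unfold psi
    rw [if_neg hN0, if_neg (by rw [h]; exact Ne.symm hne3), if_pos h, Complex.neg_re, Complex.one_re]
  have hp3 : TT p a b ≠ 1 → TT p a b ≠ -1 → (psi p a b).re = 0 := by
    intro h h'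
    unfold psi
    rw [if_neg hN0, if_neg h, if_neg h']
    split_ifs <;> simp
  rw [hsq]
  have hr4 : r % 4 < 4 := Nat.mod_lt _ (by norm_num)
  have hc : r % 4 = 0 ∨ r % 4 = 1 ∨ r % 4 = 2 ∨ r % 4 = 3 := by omega
  rcases hc with hc | hc | hc | hc
  · rw [if_pos hc]
    by_cases h : p % 4 = 1
    · have hT : TT p a b = 1 := by
        have := hT1 h
        rw [hc, pow_zero, mul_one] at this
        exact this
      rw [hp1 hT, if_pos h]
      norm_num
    · have hT : TT p a b = -1 := by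
        have := hT2 h
        rw [hc, pow_zero] at this
        exact this
      rw [hp2' hT, if_neg h]
      norm_num
  · rw [if_neg (show ¬ (r % 4 = 0) by omega), if_neg (show ¬ (r % 4 = 2) by omega), mul_zero]
    have hT : TT p a b ≠ 1 ∧ TT p a b ≠ -1 := by
      by_cases h : p % 4 = 1
      · have h1 := hT1 h
        rw [hc, pow_one] at h1
        constructor
        · intro h3
          rw [h3, one_mul] at h1
          exact hne1 h1
        · intro h3
          rw [h3] at h1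
          exact hne2 (by linear_combination -h1)
      · have h1 := hT2 h
        rw [hc, pow_one] at h1
        constructor
        · intro h3
          rw [h3] at h1
          exact hne2 (by linear_combination h1)
        · intro h3
          rw [h3] at h1
          exact hne1 (by linear_combination h1)
    exact hp3 hT.1 hT.2
  · rw [if_neg (show ¬ (r % 4 = 0) by omega), if_pos hc]
    by_cases h : p % 4 = 1
    · have hT : TT p a b = -1 := by
        have h1 := hT1 h
        rw [hc, hw] at h1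
        linear_combination -h1
      rw [hp2' hT, if_pos h]
      norm_num
    · have hT : TT p a b = 1 := by
        have h1 := hT2 h
        rw [hc, hw, neg_neg] at h1
        exact h1
      rw [hp1 hT, if_neg h]
      norm_num
  · rw [if_neg (show ¬ (r % 4 = 0) by omega), if_neg (show ¬ (r % 4 = 2) by omega), mul_zero]
    have hT : TT p a b ≠ 1 ∧ TT p a b ≠ -1 := by
      by_cases h : p % 4 = 1
      · have h1 := hT1 h
        rw [hc, I0_cube_qt] at h1
        constructor
        · intro h3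
          rw [h3, one_mul] at h1
          exact hne2 (by linear_combination -h1)
        · intro h3
          rw [h3] at h1
          exact hne1 (by linear_combination h1)
      · have h1 := hT2 h
        rw [hc, I0_cube_qt, neg_neg] at h1
        constructor
        · intro h3
          exact hne1 (h1 ▸ h3)
        · intro h3
          exact hne2 (h1 ▸ h3)
    exact hp3 hT.1 hT.2

end Pool.SG
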