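import Pool.Agent.Lib.MP_a51fee_ag.SG.QNon
import Pool.Agent.Lib.MP_a51fee_ag.SG.QRes

/-!
# SG-QFin: the quartic symbol of `p` has mean value zero

PROOF.  `quart_sum` for `j = 0` and `j = 1`: with `c l = chj p j a b`, `a^2 + b^2 = l`, `a` odd, `b` even; the
representation is unique up to signs, so `Re (chj p j a b)` depends only on `l` (`neg`, `conj`):
`Re (chj p 1 a b) = η Re (chj p 0 a b)`, `η = 1` if `l ≡ 1 mod 8` (`4 ∣ b`), `-1` if `l ≡ 5 mod 8` (`b ≡ 2 mod 4`).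
Subtracting: `∑_{l ≤ x, l ≡ 5 (8)} 4 Re (psi a b) log l / l = O(1)`, and `Re (psi a b) = ± sq4 p l`
(`quartic_res`, the sign depends on `p` only; one prime `l = p` may be excluded).
Then Abel summation with the weight `1/log l`: `|∑_{l ≤ x, l ≡ 5 (8)} sq4 p l / l| ≤ C`.
-/

set_option autoImplicit false

open Finset

namespace Pool.SG

private theorem rabel_id (f w : ℕ → ℝ) (y : ℕ) :
    ∑ n ∈ Icc 1 y, f n * w n = (∑ n ∈ Icc 1 y, f n) * w (y + 1) +
      ∑ n ∈ Icc 1 y, (∑ k ∈ Icc 1 n, f k) * (w n - w (n + 1)) := by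
  induction y with
  | zero => simp
  | succ y ih =>
    rw [Finset.sum_Icc_succ_top (by omega), ih, Finset.sum_Icc_succ_top (by omega),
      Finset.sum_Icc_succ_top (by omega), Finset.sum_Icc_succ_top (by omega)]
    ring

private theorem rabel_tele (w : ℕ → ℝ) (y : ℕ) :
    ∑ n ∈ Icc 1 y, (w n - w (n + 1)) = w 1 - w (y + 1) := by
  induction y with
  | zero => simp
  | succ y ih =>
    rw [Finset.sum_Icc_succ_top (by omega), ih]
    ring

private theorem rabel (f w : ℕ → ℝ) (C : ℝ) (hf : ∀ n, |∑ k ∈ Icc 1 n, f k| ≤ C)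
    (hw : ∀ n, 1 ≤ n → w (n + 1) ≤ w n) (hw0 : ∀ n, 0 ≤ w n) (y : ℕ) :
    |∑ n ∈ Icc 1 y, f n * w n| ≤ C * w 1 := by
  rw [rabel_id]
  have h1 : |(∑ n ∈ Icc 1 y, f n) * w (y + 1)| ≤ C * w (y + 1) := by
    rw [abs_mul, abs_of_nonneg (hw0 _)]
    exact mul_le_mul_of_nonneg_right (hf y) (hw0 _)
  have h2 : |∑ n ∈ Icc 1 y, (∑ k ∈ Icc 1 n, f k) * (w n - w (n + 1))| ≤
      ∑ n ∈ Icc 1 y, C * (w n - w (n + 1)) := by
    refine (abs_sum_le_sum_abs _ _).trans (sum_le_sum fun n hn => ?_)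
    rw [mem_Icc] at hn
    have h3 : 0 ≤ w n - w (n + 1) := sub_nonneg.2 (hw n hn.1)
    rw [abs_mul, abs_of_nonneg h3]
    exact mul_le_mul_of_nonneg_right (hf n) h3
  rw [← mul_sum, rabel_tele] at h2
  have h3 := abs_add_le ((∑ n ∈ Icc 1 y, f n) * w (y + 1))
    (∑ n ∈ Icc 1 y, (∑ k ∈ Icc 1 n, f k) * (w n - w (n + 1)))
  nlinarith

private theorem rep_aux {l : ℕ} (hl : l.Prime) (hl2 : l ≠ 2) {a b c d : ℤ} (hb : Even b)
    (hd : Even d) (h1 : a ^ 2 + b ^ 2 = (l : ℤ)) (h2 : c ^ 2 + d ^ 2 = (l : ℤ))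
    (h : (l : ℤ) ∣ a * d - b * c) : c ^ 2 = a ^ 2 := by
  obtain ⟨k, hk⟩ := h
  have hl0 : (0 : ℤ) < l := by exact_mod_cast hl.pos
  have hev : Even ((l : ℤ) * k) := by
    rw [← hk]
    exact (hd.mul_left a).sub (hb.mul_right c)
  have hk2 : Even k := by
    rcases Int.even_mul.1 hev with h3 | h3
    · exfalso
      have h4 : Even l := by exact_mod_cast h3
      rcases hl.eq_two_or_odd' with h5 | h5
      · exact hl2 h5
      · exact (Nat.not_even_iff_odd.2 h5) h4
    · exact h3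
  have h5 : (a * c + b * d) ^ 2 + (a * d - b * c) ^ 2 = (l : ℤ) ^ 2 := by
    have : (a * c + b * d) ^ 2 + (a * d - b * c) ^ 2 = (a ^ 2 + b ^ 2) * (c ^ 2 + d ^ 2) := by ring
    rw [this, h1, h2]
    ring
  have h6 : k = 0 := by
    rw [hk] at h5
    have h7 : (l : ℤ) ^ 2 * k ^ 2 ≤ (l : ℤ) ^ 2 * 1 := by nlinarith [sq_nonneg (a * c + b * d)]
    have h8 : k ^ 2 ≤ 1 := le_of_mul_le_mul_left h7 (by positivity)
    obtain ⟨t, rfl⟩ := hk2
    have h9 : (t + t) ^ 2 = 4 * t ^ 2 := by ring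
    rw [h9] at h8
    have h10 : t ^ 2 = 0 := by
      have := sq_nonneg t
      omega
    have h11 : t = 0 := by simpa using h10
    rw [h11]
    rfl
  rw [h6, mul_zero] at hk
  rw [hk] at h5
  have h7 : (l : ℤ) * c = a * (a * c + b * d) := by
    rw [← h1]
    linear_combination (-b) * hk
  have h8 : ((l : ℤ) * c) ^ 2 = (l : ℤ) ^ 2 * a ^ 2 := by
    rw [h7]
    linear_combination a ^ 2 * h5
  have h9 : (l : ℤ) ^ 2 * c ^ 2 = (l : ℤ) ^ 2 * a ^ 2 := by
    rw [← h8]
    ring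
  exact mul_left_cancel₀ (by positivity) h9

private theorem rep_unique {l : ℕ} (hl : l.Prime) (hl2 : l ≠ 2) {a b c d : ℤ} (hb : Even b)
    (hd : Even d) (h1 : a ^ 2 + b ^ 2 = (l : ℤ)) (h2 : c ^ 2 + d ^ 2 = (l : ℤ)) :
    (c = a ∨ c = -a) ∧ (d = b ∨ d = -b) := by
  have hp : Prime (l : ℤ) := Nat.prime_iff_prime_int.1 hl
  have h3 : (l : ℤ) ∣ (a * d - b * c) * (a * d + b * c) := by
    refine ⟨a ^ 2 - c ^ 2, ?_⟩
    linear_combination a ^ 2 * h2 - c ^ 2 * h1
  have h4 : c ^ 2 = a ^ 2 := by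
    rcases hp.dvd_or_dvd h3 with h | h
    · exact rep_aux hl hl2 hb hd h1 h2 h
    · refine rep_aux hl hl2 (d := -d) hb hd.neg h1 (by rw [neg_sq]; exact h2) ?_
      have h5 : a * -d - b * c = -(a * d + b * c) := by ring
      rw [h5]
      exact h.neg_right
  have h5 : d ^ 2 = b ^ 2 := by linarith
  exact ⟨sq_eq_sq_iff_eq_or_eq_neg.1 h4, sq_eq_sq_iff_eq_or_eq_neg.1 h5⟩

private theorem psi_re (p : ℕ) [Fact p.Prime] (hp2 : p ≠ 2) {l : ℕ} (hl : l.Prime) (hl2 : l ≠ 2)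
    {a b c d : ℤ} (hb : Even b) (hd : Even d) (h1 : a ^ 2 + b ^ 2 = (l : ℤ))
    (h2 : c ^ 2 + d ^ 2 = (l : ℤ)) : (psi p c d).re = (psi p a b).re := by
  obtain ⟨h3, h4⟩ := rep_unique hl hl2 hb hd h1 h2
  have hc : (psi p a (-b)).re = (psi p a b).re := by
    rw [psi_conj p hp2, Complex.conj_re]
  rcases h3 with rfl | rfl <;> rcases h4 with rfl | rfl
  · rfl
  · exact hc
  · have h5 := psi_neg p a (-d)
    rw [neg_neg] at h5
    rw [h5, hc]
  · rw [psi_neg]

private theorem chj_re0 (p : ℕ) [Fact p.Prime] {a b : ℤ} (ha : Odd a) (hb : Even b) :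
    (chj p 0 a b).re = (psi p a b).re := by
  unfold chj
  rw [if_pos ⟨ha, hb⟩]
  simp

private theorem chj_re1 (p : ℕ) [Fact p.Prime] {a b : ℤ} (ha : Odd a) (hb : Even b) {l : ℕ}
    (h : a ^ 2 + b ^ 2 = (l : ℤ)) :
    (chj p 1 a b).re = if l % 8 = 5 then -(psi p a b).re else (psi p a b).re := by
  unfold chj
  rw [if_pos ⟨ha, hb⟩]
  obtain ⟨m, hm⟩ := ha
  obtain ⟨n, hn⟩ := hb
  obtain ⟨s, hs⟩ := Int.even_mul_succ_self m
  have h1 : (l : ℤ) = 8 * s + 1 + 4 * n ^ 2 := by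
    rw [← h, hm, hn]
    linear_combination 4 * hs
  rcases Int.even_or_odd n with ⟨t, ht⟩ | ⟨t, ht⟩
  · have h2 : (l : ℤ) = 8 * s + 1 + 16 * (t * t) := by
      rw [h1, ht]
      ring
    have h3 : ¬ l % 8 = 5 := by omega
    have h4 : b % 4 = 0 := by omega
    rw [if_neg h3, if_pos h4, mul_one]
  · have h2 : (l : ℤ) = 8 * s + 5 + 16 * (t * t + t) := by
      rw [h1, ht]
      ring
    have h3 : l % 8 = 5 := by omega
    have h4 : ¬ b % 4 = 0 := by omega
    rw [if_pos h3, if_neg h4]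
    simp

theorem sq4_sum (p : ℕ) [Fact p.Prime] (hp2 : p ≠ 2) : ∃ C : ℝ, 0 < C ∧ ∀ x : ℕ,
    |∑ l ∈ (Icc 1 x).filter (fun l => l.Prime ∧ l % 8 = 5), sq4 p l / l| ≤ C := by
  classical
  obtain ⟨c0, C0, hC0, h0, h0'⟩ := quart_sum p hp2 0
  obtain ⟨c1, C1, hC1, h1, h1'⟩ := quart_sum p hp2 1
  obtain ⟨ε, hε, hεr⟩ : ∃ ε : ℝ, ε * ε = 1 ∧ ε = if p % 4 = 1 then 1 else -1 := by
    refine ⟨if p % 4 = 1 then 1 else -1, ?_, rfl⟩
    split_ifs <;> norm_num
  have hεa : |ε| = 1 := by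
    rw [hεr]
    split_ifs <;> norm_num
  have key : ∀ l : ℕ, l.Prime → l % 4 = 1 →
      (c0 l).re - (c1 l).re = if l % 8 = 5 then 2 * ε * sq4 p l else 0 := by
    intro l hl hl4
    have hl2 : l ≠ 2 := by
      rintro rfl
      omega
    obtain ⟨a, b, ha, hb, hab, hc⟩ := h0 l hl hl4
    obtain ⟨a', b', ha', hb', hab', hc'⟩ := h1 l hl hl4
    rw [hc, hc', chj_re0 p ha hb, chj_re1 p ha' hb' hab', psi_re p hp2 hl hl2 hb hb' hab hab']
    by_cases h8 : l % 8 = 5
    · rw [if_pos h8, if_pos h8]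
      by_cases hlp : l = p
      · have h2 : psi p a b = 0 := by
          rcases psi_norm p hp2 a b with h3 | h3
          · exact h3.1
          · exact absurd (by rw [hab, hlp]) h3.2
        have h3 : sq4 p l = 0 := by
          unfold sq4
          have h4 : (p : ZMod l) = 0 := by
            rw [hlp]
            exact ZMod.natCast_self p
          have h5 : (l - 1) / 4 ≠ 0 := by omega
          haveI : Fact l.Prime := ⟨hl⟩
          rw [h4, zero_pow h5, if_neg zero_ne_one, if_neg]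
          intro h6
          have h7 : (1 : ZMod l) = 0 := by
            have := congrArg Neg.neg h6
            rw [neg_neg, neg_zero] at this
            exact this.symm
          exact one_ne_zero h7
        rw [h2, h3]
        simp
      · obtain ⟨u, v, hu, hv, huv, hs⟩ := quartic_res p hp2 hl h8 hlp
        rw [← hεr] at hs
        rw [psi_re p hp2 hl hl2 hb hv hab huv] at hs
        rw [hs]
        linear_combination 2 * ε * sq4 p l * 0
    · rw [if_neg h8, if_neg h8, sub_self]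
  set f : ℕ → ℝ := fun n => if n.Prime ∧ n % 8 = 5 then sq4 p n * Real.log n / n else 0 with hf
  have hS : ∀ x : ℕ, |∑ n ∈ Icc 1 x, f n| ≤ (C0 + C1) / 4 := by
    intro x
    have h2 : 4 * ε * ∑ n ∈ Icc 1 x, f n =
        ∑ l ∈ (Icc 1 x).filter (fun l => l.Prime ∧ l % 4 = 1), 2 * (c0 l).re * Real.log l / l -
        ∑ l ∈ (Icc 1 x).filter (fun l => l.Prime ∧ l % 4 = 1), 2 * (c1 l).re * Real.log l / l := by
      rw [← sum_sub_distrib, mul_sum, sum_filter]
      refine sum_congr rfl fun n _ => ?_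
      simp only [hf]
      by_cases hn : n.Prime ∧ n % 4 = 1
      · have h3 := key n hn.1 hn.2
        rw [if_pos hn]
        have h4 : 2 * (c0 n).re * Real.log n / n - 2 * (c1 n).re * Real.log n / n =
            2 * ((c0 n).re - (c1 n).re) * Real.log n / n := by ring
        rw [h4, h3]
        by_cases h8 : n % 8 = 5
        · rw [if_pos ⟨hn.1, h8⟩, if_pos h8]
          ring
        · rw [if_neg (fun h => h8 h.2), if_neg h8]
          ring
      · rw [if_neg hn, if_neg, mul_zero]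
        rintro ⟨h3, h4⟩
        exact hn ⟨h3, by omega⟩
    have h3 := h0' x
    have h4 := h1' x
    have h5 : |4 * ε * ∑ n ∈ Icc 1 x, f n| ≤ C0 + C1 := by
      rw [h2]
      exact (abs_sub _ _).trans (add_le_add h3 h4)
    rw [abs_mul, abs_mul, hεa] at h5
    have h6 : |(4 : ℝ)| = 4 := by norm_num
    rw [h6] at h5
    linarith
  set w : ℕ → ℝ := fun n => 1 / Real.log (max (n : ℝ) 2) with hw
  have hl2 : 0 < Real.log 2 := Real.log_pos (by norm_num)
  have hwp : ∀ n : ℕ, 0 < Real.log (max (n : ℝ) 2) := fun n =>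
    Real.log_pos (lt_of_lt_of_le (by norm_num) (le_max_right _ _))
  have hmain := rabel f w ((C0 + C1) / 4) hS (by
      intro n _
      simp only [hw]
      refine one_div_le_one_div_of_le (hwp n) ?_
      refine Real.log_le_log (lt_of_lt_of_le (by norm_num) (le_max_right _ _)) ?_
      refine max_le_max ?_ le_rfl
      push_cast
      linarith) (by
      intro n
      simp only [hw]
      exact (div_pos one_pos (hwp n)).le)
  refine ⟨(C0 + C1) / 4 * w 1, ?_, ?_⟩
  · refine mul_pos (by linarith) ?_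
    simp only [hw]
    exact div_pos one_pos (hwp 1)
  · intro x
    have h2 : ∑ l ∈ (Icc 1 x).filter (fun l => l.Prime ∧ l % 8 = 5), sq4 p l / l =
        ∑ n ∈ Icc 1 x, f n * w n := by
      rw [sum_filter]
      refine sum_congr rfl fun n _ => ?_
      simp only [hf, hw]
      by_cases hn : n.Prime ∧ n % 8 = 5
      · rw [if_pos hn, if_pos hn]
        have h5 : 5 ≤ n := by omega
        have h5' : (5 : ℝ) ≤ n := by exact_mod_cast h5
        rw [max_eq_left (by linarith)]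
        have h6 : Real.log n ≠ 0 := (Real.log_pos (by linarith)).ne'
        have h7 : (n : ℝ) ≠ 0 := by linarith
        field_simp
      · rw [if_neg hn, if_neg hn, zero_mul]
    rw [h2]
    exact hmain x

end Pool.SG
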