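import Pool.Agent.Lib.MP_a51fee_ag.SG.PJac
import Pool.Agent.Lib.MP_a51fee_ag.SG.PAP
import Pool.Agent.Lib.MP_a51fee_ag.SG.QFin

/-!
# SG-PLow: the density of `PP` is at least 5/16

PROOF.  Class 1: primes `l ≡ 3 mod 4`, `l ≠ p`, `jacobiSym (-p) l = 1` are in `PP` (`PP_of_class1`).  The condition
depends on `l mod 4p` only: `(-p/l) = (-1/l)(p/l)`, quadratic reciprocity: for `l ≡ 3 mod 4` it is `(l/p) = -1` if
`p ≡ 1 mod 4` and `(l/p) = 1` if `p ≡ 3 mod 4`; there are `(p-1)/2` classes mod `4p`, `φ(4p) = 2 (p-1)`: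
`∑ 1/l ≥ (1/4) log log v - C` (`mert_ap_inv`).
Class 2: `l ≡ 5 mod 8`, `p^((l-1)/4) = -1` are in `PP` (`PP_of_class2`).  For `l ≡ 5 mod 8`, `l ≠ p`, the indicator of
the class is `(1/2) (1[(p/l) = 1] - sq4 p l)`: `p^((l-1)/4)` is a 4th root of unity, `p^((l-1)/2) = (p/l)`.
`(p/l) = (l/p)` (as `l ≡ 1 mod 4`): `(p-1)/2` classes mod `8p`, `φ(8p) = 4 (p-1)`: `∑ 1[..]/l ≥ (1/8) log log v - C`.
With `sq4_sum`: `≥ (1/16) log log v - C`.
-/

set_option autoImplicit false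

open Finset

namespace Pool.SG

private theorem sum_zmod (p : ℕ) [NeZero p] (f : ZMod p → ℤ) :
    ∑ k ∈ range p, f (k : ZMod p) = ∑ a : ZMod p, f a := by
  refine sum_nbij' (fun k => (k : ZMod p)) (fun a => a.val) ?_ ?_ ?_ ?_ ?_
  · intro k _
    exact mem_univ _
  · intro a _
    exact mem_range.2 (ZMod.val_lt a)
  · intro k hk
    exact ZMod.val_cast_of_lt (mem_range.1 hk)
  · intro a _
    exact ZMod.natCast_zmod_val a
  · intro k _
    rfl

private theorem chi_count (p : ℕ) [Fact p.Prime] (hp2 : p ≠ 2) (m c : ℕ) (hm : Nat.Coprime m p)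
    (η : ℤ) (hη : η = 1 ∨ η = -1) :
    2 * (((range p).filter fun k : ℕ =>
      η * jacobiSym ((m * k + c : ℕ) : ℤ) p = 1).card : ℤ) = p - 1 := by
  have h1 : ∀ k : ℕ, jacobiSym ((m * k + c : ℕ) : ℤ) p =
      quadraticChar (ZMod p) ((m : ZMod p) * k + c) := by
    intro k
    rw [← jacobiSym.legendreSym.to_jacobiSym, legendreSym]
    push_cast
    rfl
  have h2 : ∀ k : ℕ, 2 * (if η * jacobiSym ((m * k + c : ℕ) : ℤ) p = 1 then 1 else 0 : ℤ) =
      quadraticChar (ZMod p) ((m : ZMod p) * k + c) ^ 2 +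
        η * quadraticChar (ZMod p) ((m : ZMod p) * k + c) := by
    intro k
    rw [h1]
    rcases eq_or_ne ((m : ZMod p) * k + c) 0 with h | h
    · rw [h, quadraticChar_zero]
      simp
    · rcases quadraticChar_dichotomy h with h' | h' <;> rcases hη with h'' | h'' <;>
        rw [h', h''] <;> norm_num
  rw [card_filter]
  push_cast
  rw [mul_sum]
  have h3 : ∑ k ∈ range p, 2 * (if η * jacobiSym ((m : ℤ) * k + c) p = 1 then 1 else 0 : ℤ) =
      ∑ k ∈ range p, (quadraticChar (ZMod p) ((m : ZMod p) * k + c) ^ 2 +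
        η * quadraticChar (ZMod p) ((m : ZMod p) * k + c)) := by
    refine sum_congr rfl fun k _ => ?_
    rw [← h2 k]
    push_cast
    rfl
  rw [h3, sum_zmod p (fun a => quadraticChar (ZMod p) ((m : ZMod p) * a + c) ^ 2 +
    η * quadraticChar (ZMod p) ((m : ZMod p) * a + c))]
  have hm0 : (m : ZMod p) ≠ 0 := by
    intro h
    rw [ZMod.natCast_eq_zero_iff] at h
    have := Nat.Coprime.eq_one_of_dvd hm.symm h
    exact (Fact.out : p.Prime).one_lt.ne' this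
  have hb : Function.Bijective fun a : ZMod p => (m : ZMod p) * a + c := by
    rw [← Finite.injective_iff_bijective]
    intro a b hab
    exact mul_left_cancel₀ hm0 (add_right_cancel hab)
  rw [hb.sum_comp (fun b => quadraticChar (ZMod p) b ^ 2 + η * quadraticChar (ZMod p) b),
    sum_add_distrib, ← mul_sum, quadraticChar_sum_zero (by rw [ZMod.ringChar_zmod_n]; exact hp2),
    mul_zero, add_zero]
  have h4 : ∀ a : ZMod p, quadraticChar (ZMod p) a ^ 2 = 1 - (if a = 0 then 1 else 0 : ℤ) := by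
    intro a
    split_ifs with h
    · rw [h, quadraticChar_zero]
      norm_num
    · rw [quadraticChar_sq_one h, sub_zero]
  rw [sum_congr rfl fun a _ => h4 a, sum_sub_distrib, sum_const, card_univ, ZMod.card,
    sum_ite_eq' univ (0 : ZMod p) fun _ => (1 : ℤ)]
  simp

private theorem classes_inv (m : ℕ) (hm : 1 ≤ m) (R : Finset ℕ)
    (hR : ∀ c ∈ R, Nat.Coprime c m ∧ c < m) :
    ∃ C : ℝ, 0 < C ∧ ∀ X : ℕ, 3 ≤ X →
      (R.card : ℝ) * (Real.log (Real.log X) / (Nat.totient m : ℝ)) - C ≤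
      ∑ q ∈ (Icc 1 X).filter (fun q => q.Prime ∧ q % m ∈ R), 1 / (q : ℝ) := by
  classical
  choose! C hC using fun c (hc : c ∈ R) => mert_ap_inv m c hm (hR c hc).1
  refine ⟨1 + ∑ c ∈ R, C c, ?_, ?_⟩
  · have : 0 ≤ ∑ c ∈ R, C c := sum_nonneg fun c hc => (hC c hc).1.le
    linarith
  intro X hX
  rw [← sum_fiberwise_of_maps_to (s := (Icc 1 X).filter (fun q => q.Prime ∧ q % m ∈ R)) (t := R)
    (g := fun q => q % m) (fun q hq => (mem_filter.1 hq).2.2)]
  have h1 : ∀ c ∈ R, Real.log (Real.log X) / (Nat.totient m : ℝ) - C c ≤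
      ∑ q ∈ ((Icc 1 X).filter (fun q => q.Prime ∧ q % m ∈ R)).filter (fun q => q % m = c),
        1 / (q : ℝ) := by
    intro c hc
    have h2 := (hC c hc).2 X hX
    have h3 : ((Icc 1 X).filter (fun q => q.Prime ∧ q % m ∈ R)).filter (fun q => q % m = c) =
        (Icc 1 X).filter (fun q => q.Prime ∧ q ≡ c [MOD m]) := by
      ext q
      rw [mem_filter, mem_filter, mem_filter]
      unfold Nat.ModEq
      rw [Nat.mod_eq_of_lt (hR c hc).2]
      constructor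
      · rintro ⟨⟨h4, h5, _⟩, h7⟩
        exact ⟨h4, h5, h7⟩
      · rintro ⟨h4, h5, h6⟩
        exact ⟨⟨h4, h5, h6 ▸ hc⟩, h6⟩
    rw [h3]
    have := (abs_le.1 h2).1
    linarith
  refine le_trans ?_ (sum_le_sum h1)
  rw [sum_sub_distrib, sum_const, nsmul_eq_mul]
  linarith

private theorem loglog_floor {v : ℝ} (hv : 3 ≤ v) :
    3 ≤ ⌊v⌋₊ ∧ Real.log (Real.log v) ≤ Real.log (Real.log (⌊v⌋₊ : ℝ)) + 1 := by
  have h1 : 3 ≤ ⌊v⌋₊ := Nat.le_floor (by exact_mod_cast hv)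
  refine ⟨h1, ?_⟩
  have h2 : (3 : ℝ) ≤ (⌊v⌋₊ : ℝ) := by exact_mod_cast h1
  have h3 : v ≤ (⌊v⌋₊ : ℝ) ^ 2 := by
    have := (Nat.lt_floor_add_one v).le
    nlinarith
  have h4 : 0 < Real.log (⌊v⌋₊ : ℝ) := Real.log_pos (by linarith)
  have h5 : Real.log v ≤ 2 * Real.log (⌊v⌋₊ : ℝ) := by
    have := Real.log_le_log (by linarith) h3
    rwa [Real.log_pow] at this
  have h6 : 0 < Real.log v := Real.log_pos (by linarith)
  have h7 := Real.log_le_log h6 h5
  rw [Real.log_mul (by norm_num) h4.ne'] at h7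
  have h8 := Real.log_two_lt_d9
  linarith

/-- the class 1 -/
private theorem jac1 {p c : ℕ} (hp : p.Prime) (hp2 : p ≠ 2) (hc : c % 4 = 3) :
    jacobiSym (-(p : ℤ)) c = (if p % 4 = 1 then -1 else 1) * jacobiSym (c : ℤ) p := by
  have hodd : Odd c := Nat.odd_iff.2 (by omega)
  have hpo : p % 2 = 1 := Nat.odd_iff.1 (hp.odd_of_ne_two hp2)
  rw [jacobiSym.neg _ hodd, ZMod.χ₄_nat_three_mod_four hc]
  rcases (by omega : p % 4 = 1 ∨ p % 4 = 3) with h | h
  · rw [if_pos h, jacobiSym.quadratic_reciprocity_one_mod_four h hodd]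
  · rw [if_neg (by omega), jacobiSym.quadratic_reciprocity_three_mod_four h hc]
    ring

private theorem cop_of_jac {p c : ℕ} (hp : p.Prime) (h : jacobiSym (c : ℤ) p ≠ 0) :
    Nat.Coprime c p := by
  have : NeZero p := ⟨hp.ne_zero⟩
  by_contra h1
  apply h
  rw [jacobiSym.eq_zero_iff_not_coprime]
  intro h2
  apply h1
  rw [Int.gcd_natCast_natCast] at h2
  exact h2

open scoped Classical in
/-- the primes `l ≡ 3 mod 4` alone -/
theorem PP3_low (p : ℕ) (hp : p.Prime) (hp2 : p ≠ 2) : ∃ C : ℝ, 0 < C ∧ ∀ v : ℝ, 3 ≤ v →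
    1 / 4 * Real.log (Real.log v) - C ≤
      ∑ q ∈ (pr 1 v).filter (fun q => PP p q ∧ q % 4 = 3), 1 / (q : ℝ) := by
  have : Fact p.Prime := ⟨hp⟩
  have hpo : p % 2 = 1 := Nat.odd_iff.1 (hp.odd_of_ne_two hp2)
  set η : ℤ := if p % 4 = 1 then -1 else 1 with hη
  have hη1 : η = 1 ∨ η = -1 := by
    rw [hη]
    split_ifs
    · exact Or.inr rfl
    · exact Or.inl rfl
  have hc4 : Nat.Coprime 4 p := by
    rw [show (4 : ℕ) = 2 ^ 2 by norm_num]
    exact Nat.Coprime.pow_left 2 ((Nat.coprime_primes Nat.prime_two hp).2 (Ne.symm hp2))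
  set R : Finset ℕ := ((range p).filter fun k : ℕ =>
    η * jacobiSym ((4 * k + 3 : ℕ) : ℤ) p = 1).image (fun k => 4 * k + 3) with hRdef
  have hRcard : 2 * (R.card : ℤ) = p - 1 := by
    rw [hRdef, card_image_of_injective _ (fun a b hab => by
      have : 4 * a + 3 = 4 * b + 3 := hab
      omega)]
    exact chi_count p hp2 4 3 hc4 η hη1
  have hRmem : ∀ c, c ∈ R → c % 4 = 3 ∧ c < 4 * p ∧ η * jacobiSym (c : ℤ) p = 1 := by
    intro c hc
    rw [hRdef, mem_image] at hc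
    obtain ⟨k, hk, rfl⟩ := hc
    rw [mem_filter, mem_range] at hk
    exact ⟨by omega, by omega, hk.2⟩
  have hRcop : ∀ c ∈ R, Nat.Coprime c (4 * p) ∧ c < 4 * p := by
    intro c hc
    obtain ⟨h1, h2, h3⟩ := hRmem c hc
    refine ⟨?_, h2⟩
    have h4 : jacobiSym (c : ℤ) p ≠ 0 := by
      intro h
      rw [h, mul_zero] at h3
      exact zero_ne_one h3
    refine Nat.Coprime.mul_right ?_ (cop_of_jac hp h4)
    rw [show (4 : ℕ) = 2 ^ 2 by norm_num]
    refine Nat.Coprime.pow_right 2 ?_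
    rw [Nat.coprime_comm, Nat.coprime_two_left]
    exact Nat.odd_iff.2 (by omega)
  obtain ⟨C, hC, hC'⟩ := classes_inv (4 * p) (by have := hp.pos; omega) R hRcop
  refine ⟨C + 1, by linarith, fun v hv => ?_⟩
  obtain ⟨hX, hll⟩ := loglog_floor hv
  have h1 := hC' ⌊v⌋₊ hX
  have hv0 : (0 : ℝ) ≤ v := by linarith
  have h2 : ∑ q ∈ (Icc 1 ⌊v⌋₊).filter (fun q => q.Prime ∧ q % (4 * p) ∈ R), 1 / (q : ℝ) ≤
      ∑ q ∈ (pr 1 v).filter (fun q => PP p q ∧ q % 4 = 3), 1 / (q : ℝ) := by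
    refine sum_le_sum_of_subset_of_nonneg ?_ fun q _ _ => by positivity
    intro q hq
    rw [mem_filter, mem_Icc] at hq
    obtain ⟨⟨h3, h4⟩, h5, h6⟩ := hq
    obtain ⟨h7, h8, h9⟩ := hRmem _ h6
    have h10 : q % 4 = 3 := by
      have : q % (4 * p) % 4 = q % 4 := Nat.mod_mul_right_mod q 4 p
      omega
    have h11 : jacobiSym ((q % (4 * p) : ℕ) : ℤ) p = jacobiSym (q : ℤ) p := by
      rw [jacobiSym.mod_left ((q % (4 * p) : ℕ) : ℤ), jacobiSym.mod_left (q : ℤ)]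
      congr 1
      have : q % (4 * p) % p = q % p := Nat.mod_mul_left_mod q 4 p
      exact_mod_cast this
    rw [h11] at h9
    have h12 : jacobiSym (-(p : ℤ)) q = 1 := by
      rw [jac1 hp hp2 h10]
      exact h9
    have h13 : q ≠ p := by
      rintro rfl
      have : jacobiSym (q : ℤ) q = 0 := by
        have : NeZero q := ⟨h5.ne_zero⟩
        rw [jacobiSym.eq_zero_iff_not_coprime, Int.gcd_natCast_natCast, Nat.gcd_self]
        exact h5.one_lt.ne'
      rw [this, mul_zero] at h9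
      exact zero_ne_one h9
    rw [mem_filter, mem_pr hv0]
    refine ⟨⟨h5, by exact_mod_cast h5.one_lt, (Nat.le_floor_iff hv0).1 h4⟩,
      PP_of_class1 hp hp2 h5 h10 h13 h12, h10⟩
  have h3 : Nat.totient (4 * p) = 2 * (p - 1) := by
    rw [Nat.totient_mul hc4, Nat.totient_prime hp]
    rfl
  have hp3 : 3 ≤ p := by
    have := hp.two_le
    omega
  have h4 : (R.card : ℝ) * (Real.log (Real.log (⌊v⌋₊ : ℝ)) / (Nat.totient (4 * p) : ℝ)) =
      1 / 4 * Real.log (Real.log (⌊v⌋₊ : ℝ)) := by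
    have h5 : 2 * (R.card : ℝ) = p - 1 := by exact_mod_cast hRcard
    have h6 : (Nat.totient (4 * p) : ℝ) = 2 * ((p : ℝ) - 1) := by
      rw [h3]
      push_cast [Nat.cast_sub (show 1 ≤ p by omega)]
      ring
    have h7 : (0 : ℝ) < (p : ℝ) - 1 := by
      have : (3 : ℝ) ≤ p := by exact_mod_cast hp3
      linarith
    rw [h6, show (R.card : ℝ) = (p - 1) / 2 by linarith]
    field_simp
    ring
  rw [h4] at h1
  linarith

/-- the identity for the indicator of the class 2 -/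
private theorem ind2 {p l : ℕ} (hp : p.Prime) (hp2 : p ≠ 2) (hl : l.Prime) (h8 : l % 8 = 5) :
    (if (p : ZMod l) ^ ((l - 1) / 4) = -1 then 1 else 0 : ℝ) =
      1 / 2 * ((if jacobiSym (l : ℤ) p = 1 then 1 else 0) - sq4 p l) := by
  classical
  have : Fact l.Prime := ⟨hl⟩
  have : Fact (2 < l) := ⟨by omega⟩
  have : NeZero p := ⟨hp.ne_zero⟩
  have hne : (1 : ZMod l) ≠ -1 := (ZMod.neg_one_ne_one).symm
  unfold sq4
  rcases eq_or_ne l p with rfl | hlp
  · have h1 : jacobiSym (l : ℤ) l = 0 := by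
      rw [jacobiSym.eq_zero_iff_not_coprime, Int.gcd_natCast_natCast, Nat.gcd_self]
      exact hl.one_lt.ne'
    have h2 : ((l : ℕ) : ZMod l) ^ ((l - 1) / 4) = 0 := by
      rw [CharP.cast_eq_zero, zero_pow (by omega)]
    rw [h1, h2, if_neg (by intro h; have := neg_eq_zero.1 h.symm; exact one_ne_zero this),
      if_neg (by norm_num), if_neg (by exact zero_ne_one),
      if_neg (by intro h; have := neg_eq_zero.1 h.symm; exact one_ne_zero this)]
    norm_num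
  · have hjac : jacobiSym (l : ℤ) p = legendreSym l (p : ℤ) := by
      rw [jacobiSym.legendreSym.to_jacobiSym]
      exact jacobiSym.quadratic_reciprocity_one_mod_four (by omega) (hp.odd_of_ne_two hp2)
    have hp0 : ((p : ℤ) : ZMod l) ≠ 0 := by
      rw [Int.cast_natCast]
      intro h
      rw [ZMod.natCast_eq_zero_iff] at h
      exact hlp ((Nat.prime_dvd_prime_iff_eq hl hp).1 h)
    have hpow : ((legendreSym l (p : ℤ) : ℤ) : ZMod l) = ((p : ZMod l) ^ ((l - 1) / 4)) ^ 2 := by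
      rw [legendreSym.eq_pow, Int.cast_natCast, ← pow_mul]
      congr 1
      omega
    rw [hjac]
    rcases legendreSym.eq_one_or_neg_one l hp0 with h | h
    · rw [h] at hpow ⊢
      rw [Int.cast_one] at hpow
      rcases sq_eq_sq_iff_eq_or_eq_neg.1 (hpow.symm.trans (one_pow 2).symm) with h1 | h1
      · rw [h1, if_neg hne, if_pos rfl, if_pos rfl]
        norm_num
      · rw [h1, if_pos rfl, if_pos rfl, if_neg hne.symm, if_pos rfl]
        norm_num
    · rw [h] at hpow ⊢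
      rw [Int.cast_neg, Int.cast_one] at hpow
      have h1 : (p : ZMod l) ^ ((l - 1) / 4) ≠ 1 := by
        intro h1
        rw [h1, one_pow] at hpow
        exact hne hpow.symm
      have h2 : (p : ZMod l) ^ ((l - 1) / 4) ≠ -1 := by
        intro h2
        rw [h2, neg_one_sq] at hpow
        exact hne hpow.symm
      rw [if_neg h2, if_neg h1, if_neg h2, if_neg (by norm_num)]
      norm_num

open scoped Classical in
/-- the primes `l ≡ 5 mod 8` alone -/
private theorem PP5_low (p : ℕ) (hp : p.Prime) (hp2 : p ≠ 2) : ∃ C : ℝ, 0 < C ∧ ∀ v : ℝ, 3 ≤ v →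
    1 / 16 * Real.log (Real.log v) - C ≤
      ∑ q ∈ (pr 1 v).filter (fun q => PP p q ∧ q % 8 = 5), 1 / (q : ℝ) := by
  have : Fact p.Prime := ⟨hp⟩
  have hpo : p % 2 = 1 := Nat.odd_iff.1 (hp.odd_of_ne_two hp2)
  have hc8 : Nat.Coprime 8 p := by
    rw [show (8 : ℕ) = 2 ^ 3 by norm_num]
    exact Nat.Coprime.pow_left 3 ((Nat.coprime_primes Nat.prime_two hp).2 (Ne.symm hp2))
  set R : Finset ℕ := ((range p).filter fun k : ℕ =>
    (1 : ℤ) * jacobiSym ((8 * k + 5 : ℕ) : ℤ) p = 1).image (fun k => 8 * k + 5) with hRdef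
  have hRcard : 2 * (R.card : ℤ) = p - 1 := by
    rw [hRdef, card_image_of_injective _ (fun a b hab => by
      have : 8 * a + 5 = 8 * b + 5 := hab
      omega)]
    exact chi_count p hp2 8 5 hc8 1 (Or.inl rfl)
  have hRmem : ∀ c, c ∈ R → c % 8 = 5 ∧ c < 8 * p ∧ jacobiSym (c : ℤ) p = 1 := by
    intro c hc
    rw [hRdef, mem_image] at hc
    obtain ⟨k, hk, rfl⟩ := hc
    rw [mem_filter, mem_range, one_mul] at hk
    exact ⟨by omega, by omega, hk.2⟩
  have hRcop : ∀ c ∈ R, Nat.Coprime c (8 * p) ∧ c < 8 * p := by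
    intro c hc
    obtain ⟨h1, h2, h3⟩ := hRmem c hc
    refine ⟨?_, h2⟩
    have h4 : jacobiSym (c : ℤ) p ≠ 0 := by
      rw [h3]
      exact one_ne_zero
    refine Nat.Coprime.mul_right ?_ (cop_of_jac hp h4)
    rw [show (8 : ℕ) = 2 ^ 3 by norm_num]
    refine Nat.Coprime.pow_right 3 ?_
    rw [Nat.coprime_comm, Nat.coprime_two_left]
    exact Nat.odd_iff.2 (by omega)
  obtain ⟨C, hC, hC'⟩ := classes_inv (8 * p) (by have := hp.pos; omega) R hRcop
  obtain ⟨C1, hC1, hC1'⟩ := sq4_sum p hp2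
  refine ⟨C + C1 + 1, by linarith, fun v hv => ?_⟩
  obtain ⟨hX, hll⟩ := loglog_floor hv
  have h1 := hC' ⌊v⌋₊ hX
  have hs := (abs_le.1 (hC1' ⌊v⌋₊)).2
  have hv0 : (0 : ℝ) ≤ v := by linarith
  -- the class sum
  have h2 : ∑ q ∈ (Icc 1 ⌊v⌋₊).filter (fun q => q.Prime ∧ q % (8 * p) ∈ R), 1 / (q : ℝ) ≤
      ∑ q ∈ (Icc 1 ⌊v⌋₊).filter (fun q => q.Prime ∧ q % 8 = 5),
        (if jacobiSym (q : ℤ) p = 1 then 1 else 0) / (q : ℝ) := by
    have h3 : ∑ q ∈ (Icc 1 ⌊v⌋₊).filter (fun q => q.Prime ∧ q % (8 * p) ∈ R), 1 / (q : ℝ) ≤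
        ∑ q ∈ (Icc 1 ⌊v⌋₊).filter (fun q => q.Prime ∧ q % (8 * p) ∈ R),
          (if jacobiSym (q : ℤ) p = 1 then 1 else 0) / (q : ℝ) := by
      refine sum_le_sum fun q hq => ?_
      rw [mem_filter, mem_Icc] at hq
      obtain ⟨⟨h3, h4⟩, h5, h6⟩ := hq
      obtain ⟨h7, h8, h9⟩ := hRmem _ h6
      have h11 : jacobiSym ((q % (8 * p) : ℕ) : ℤ) p = jacobiSym (q : ℤ) p := by
        rw [jacobiSym.mod_left ((q % (8 * p) : ℕ) : ℤ), jacobiSym.mod_left (q : ℤ)]
        congr 1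
        have : q % (8 * p) % p = q % p := Nat.mod_mul_left_mod q 8 p
        exact_mod_cast this
      rw [h11] at h9
      rw [if_pos h9]
    refine h3.trans (sum_le_sum_of_subset_of_nonneg ?_ ?_)
    · intro q hq
      rw [mem_filter] at hq ⊢
      obtain ⟨h7, h8, h9⟩ := hRmem _ hq.2.2
      refine ⟨hq.1, hq.2.1, ?_⟩
      have : q % (8 * p) % 8 = q % 8 := Nat.mod_mul_right_mod q 8 p
      omega
    · intro q _ _
      split_ifs <;> positivity
  have h4 : ∑ q ∈ (Icc 1 ⌊v⌋₊).filter (fun q => q.Prime ∧ q % 8 = 5),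
        (if (p : ZMod q) ^ ((q - 1) / 4) = -1 then 1 else 0) / (q : ℝ) =
      1 / 2 * (∑ q ∈ (Icc 1 ⌊v⌋₊).filter (fun q => q.Prime ∧ q % 8 = 5),
        (if jacobiSym (q : ℤ) p = 1 then 1 else 0) / (q : ℝ) -
        ∑ q ∈ (Icc 1 ⌊v⌋₊).filter (fun q => q.Prime ∧ q % 8 = 5), sq4 p q / q) := by
    rw [← sum_sub_distrib, mul_sum]
    refine sum_congr rfl fun q hq => ?_
    rw [mem_filter] at hq
    rw [ind2 hp hp2 hq.2.1 hq.2.2]
    ring
  have h5 : ∑ q ∈ (Icc 1 ⌊v⌋₊).filter (fun q => q.Prime ∧ q % 8 = 5),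
        (if (p : ZMod q) ^ ((q - 1) / 4) = -1 then 1 else 0) / (q : ℝ) ≤
      ∑ q ∈ (pr 1 v).filter (fun q => PP p q ∧ q % 8 = 5), 1 / (q : ℝ) := by
    rw [← sum_filter_add_sum_filter_not ((Icc 1 ⌊v⌋₊).filter (fun q => q.Prime ∧ q % 8 = 5))
      (fun q => (p : ZMod q) ^ ((q - 1) / 4) = -1)]
    have h6 : ∑ q ∈ ((Icc 1 ⌊v⌋₊).filter (fun q => q.Prime ∧ q % 8 = 5)).filter
        (fun q => ¬ (p : ZMod q) ^ ((q - 1) / 4) = -1),
        (if (p : ZMod q) ^ ((q - 1) / 4) = -1 then 1 else 0) / (q : ℝ) = 0 := by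
      refine sum_eq_zero fun q hq => ?_
      rw [mem_filter] at hq
      rw [if_neg hq.2, zero_div]
    rw [h6, add_zero]
    have h7 : ∑ q ∈ ((Icc 1 ⌊v⌋₊).filter (fun q => q.Prime ∧ q % 8 = 5)).filter
        (fun q => (p : ZMod q) ^ ((q - 1) / 4) = -1),
        (if (p : ZMod q) ^ ((q - 1) / 4) = -1 then 1 else 0) / (q : ℝ) =
        ∑ q ∈ ((Icc 1 ⌊v⌋₊).filter (fun q => q.Prime ∧ q % 8 = 5)).filter
        (fun q => (p : ZMod q) ^ ((q - 1) / 4) = -1), 1 / (q : ℝ) := by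
      refine sum_congr rfl fun q hq => ?_
      rw [mem_filter] at hq
      rw [if_pos hq.2]
    rw [h7]
    refine sum_le_sum_of_subset_of_nonneg ?_ fun q _ _ => by positivity
    intro q hq
    rw [mem_filter, mem_filter, mem_Icc] at hq
    obtain ⟨⟨⟨h8, h9⟩, h10, h11⟩, h12⟩ := hq
    rw [mem_filter, mem_pr hv0]
    exact ⟨⟨h10, by exact_mod_cast h10.one_lt, (Nat.le_floor_iff hv0).1 h9⟩,
      PP_of_class2 hp hp2 h10 h11 h12, h11⟩
  have h3 : Nat.totient (8 * p) = 4 * (p - 1) := by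
    rw [Nat.totient_mul hc8, Nat.totient_prime hp]
    rfl
  have hp3 : 3 ≤ p := by
    have := hp.two_le
    omega
  have h6 : (R.card : ℝ) * (Real.log (Real.log (⌊v⌋₊ : ℝ)) / (Nat.totient (8 * p) : ℝ)) =
      1 / 8 * Real.log (Real.log (⌊v⌋₊ : ℝ)) := by
    have h5 : 2 * (R.card : ℝ) = p - 1 := by exact_mod_cast hRcard
    have h6 : (Nat.totient (8 * p) : ℝ) = 4 * ((p : ℝ) - 1) := by
      rw [h3]
      push_cast [Nat.cast_sub (show 1 ≤ p by omega)]
      ring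
    have h7 : (0 : ℝ) < (p : ℝ) - 1 := by
      have : (3 : ℝ) ≤ p := by exact_mod_cast hp3
      linarith
    rw [h6, show (R.card : ℝ) = (p - 1) / 2 by linarith]
    field_simp
    ring
  rw [h6] at h1
  linarith

open scoped Classical in
theorem PP_low (p : ℕ) (hp : p.Prime) (hp2 : p ≠ 2) : ∃ C : ℝ, 0 < C ∧ ∀ v : ℝ, 3 ≤ v →
    5 / 16 * Real.log (Real.log v) - C ≤ ∑ q ∈ (pr 1 v).filter (PP p), 1 / (q : ℝ) := by
  obtain ⟨C, hC, h1⟩ := PP3_low p hp hp2
  obtain ⟨D, hD, h2⟩ := PP5_low p hp hp2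
  refine ⟨C + D, by linarith, fun v hv => ?_⟩
  have h3 := h1 v hv
  have h4 := h2 v hv
  have h5 : ∑ q ∈ (pr 1 v).filter (fun q => PP p q ∧ q % 4 = 3), 1 / (q : ℝ) +
      ∑ q ∈ (pr 1 v).filter (fun q => PP p q ∧ q % 8 = 5), 1 / (q : ℝ) ≤
      ∑ q ∈ (pr 1 v).filter (PP p), 1 / (q : ℝ) := by
    rw [← sum_union]
    · refine sum_le_sum_of_subset_of_nonneg ?_ fun q _ _ => by positivity
      intro q hq
      rw [mem_union, mem_filter, mem_filter] at hq
      rw [mem_filter]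
      rcases hq with hq | hq
      · exact ⟨hq.1, hq.2.1⟩
      · exact ⟨hq.1, hq.2.1⟩
    · rw [disjoint_left]
      intro q h6 h7
      rw [mem_filter] at h6 h7
      have := h6.2.2
      have := h7.2.2
      omega
  linarith

end Pool.SG
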