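import Pool.Agent.Lib.MP_a51fee_ag.SG.NEv
import Pool.Agent.Lib.MP_a51fee_ag.SG.PLow
import Pool.Agent.Lib.MP_a51fee_ag.SG.BAp

/-!
# SG-BPQ: the density of `PQ`

`z = zz ℓ = exp (ℓ^3)`, `Y = YY ℓ = exp (4 ℓ)`, `v = vv κ ℓ`.
PROOF of `PQ_loss`.  The primes `q ∈ (z, v]` with `PP p q` but not `PQ` have no prime `r ≥ Y` dividing
`od p q`, and `q ≠ p` (`PP_basic`).  Cover `(z, v]` by the dyadic intervals `(y, 2y]`, `y = 2^j`, `2 y > z`.
For such `y`: `Y^6 = exp (24 ℓ) ≤ y` for large `ℓ`, `bad_ap` with `a = 1` (`c = 0`, `MOD 1`) gives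
`∑_{q ∈ (y, 2y]} 1/q ≤ C (1 + 4 ℓ)^4 exp(-log y/(12 ℓ)) + C y^{-1/3}`.
Sum over `y = 2^j > z/2`: geometric series.
PROOF of `PQ_low`.  `∑_{q ≤ v, PQ} 1/q ≥ ∑_{q ≤ v, PP} 1/q - ∑_{q ≤ z} 1/q - PQ_loss`; `PP_low` at `v`
(`log log v = κ ℓ`), `mert_inv` at `z` (`log log z = 3 log ℓ`).  `PQ3_low` in the same way from `PP3_low`.
-/

set_option autoImplicit false

open Finset

namespace Pool.SG

private theorem geom_exp {t : ℝ} (ht : 0 < t) (M : ℕ) :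
    ∑ j ∈ range M, Real.exp (-(j * t)) ≤ 1 + 1 / t := by
  have h1 : ∀ j : ℕ, Real.exp (-(j * t)) = Real.exp (-t) ^ j := by
    intro j
    rw [← Real.exp_nat_mul]
    congr 1
    ring
  rw [sum_congr rfl fun j _ => h1 j]
  have h2 : Real.exp (-t) < 1 := by
    rw [← Real.exp_zero]
    exact Real.exp_lt_exp.2 (by linarith)
  have h3 : ∑ j ∈ range M, Real.exp (-t) ^ j ≤ (1 - Real.exp (-t))⁻¹ := by
    rw [← tsum_geometric_of_lt_one (Real.exp_pos _).le h2]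
    exact Summable.sum_le_tsum _ (fun _ _ => pow_nonneg (Real.exp_pos _).le _)
      (summable_geometric_of_lt_one (Real.exp_pos _).le h2)
  refine h3.trans ?_
  have h4 : 1 + t ≤ Real.exp t := by linarith [Real.add_one_le_exp t]
  have h5 : Real.exp (-t) ≤ 1 / (1 + t) := by
    rw [Real.exp_neg, ← one_div]
    exact one_div_le_one_div_of_le (by linarith) h4
  have h6 : t / (1 + t) ≤ 1 - Real.exp (-t) := by
    have : t / (1 + t) = 1 - 1 / (1 + t) := by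
      field_simp
      ring
    linarith
  have h7 : (1 - Real.exp (-t))⁻¹ ≤ (t / (1 + t))⁻¹ :=
    inv_anti₀ (by positivity) h6
  refine h7.trans (le_of_eq ?_)
  field_simp
  ring

private theorem log_two_half : 1 / 2 < Real.log 2 := by
  linarith [Real.log_two_gt_d9]

private theorem log_two_le_one : Real.log 2 ≤ 1 := by
  linarith [Real.log_two_lt_d9]

open scoped Classical in
/-- one dyadic interval -/
private theorem block {p : ℕ} {C : ℝ} (hC : 0 < C)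
    (h : ∀ Y : ℝ, 8 ≤ Y → ∀ y a c : ℕ,
    Y ^ 6 ≤ (y : ℝ) → 1 ≤ a → a ^ 6 ≤ y → (∀ q : ℕ, q.Prime → q ∣ a → Y ≤ (q : ℝ)) →
    (((Ioc y (2 * y)).filter (fun l => l.Prime ∧ l ≠ p ∧ l ≡ c [MOD a] ∧
        ∀ r : ℕ, r.Prime → r ∣ od p l → (r : ℝ) < Y)).card : ℝ) ≤
      C * ((y : ℝ) / a) * (1 + Real.log Y) ^ 4 * Real.exp (-(Real.log y / (3 * Real.log Y))) +
        C * (y : ℝ) ^ (2 / 3 : ℝ))
    {ℓ : ℝ} (hℓ : 6 ≤ ℓ) (j : ℕ) (hj : ℓ ^ 3 < (j + 1) * Real.log 2) :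
    ∑ q ∈ (Ioc (2 ^ j) (2 * 2 ^ j)).filter (fun l => l.Prime ∧ l ≠ p ∧
        ∀ r : ℕ, r.Prime → r ∣ od p l → (r : ℝ) < YY ℓ), 1 / (q : ℝ) ≤
      2 * C * (1 + 4 * ℓ) ^ 4 * Real.exp (-(j * (Real.log 2 / (12 * ℓ)))) := by
  have hl2 := log_two_half
  have hl2' := log_two_le_one
  have hY : Real.log (YY ℓ) = 4 * ℓ := Real.log_exp _
  have hY8 : 8 ≤ YY ℓ := by
    unfold YY
    linarith [Real.add_one_le_exp (4 * ℓ)]
  have hjl : 24 * ℓ ≤ j * Real.log 2 := by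
    nlinarith [mul_nonneg (by linarith : (0:ℝ) ≤ ℓ - 6) (by linarith : (0:ℝ) ≤ ℓ),
      mul_nonneg (mul_nonneg (by linarith : (0:ℝ) ≤ ℓ - 6) (by linarith : (0:ℝ) ≤ ℓ))
      (by linarith : (0:ℝ) ≤ ℓ)]
  have hlogy : Real.log ((2 ^ j : ℕ) : ℝ) = j * Real.log 2 := by
    push_cast
    rw [Real.log_pow]
  have hypos : (0 : ℝ) < ((2 ^ j : ℕ) : ℝ) := by positivity
  have hY6 : YY ℓ ^ 6 ≤ ((2 ^ j : ℕ) : ℝ) := by
    unfold YY
    rw [← Real.exp_nat_mul, ← Real.exp_log hypos, hlogy]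
    apply Real.exp_le_exp.2
    push_cast
    linarith
  have h1 := h (YY ℓ) hY8 (2 ^ j) 1 0 hY6 le_rfl (by
    rw [one_pow]
    exact Nat.one_le_two_pow) (by
    intro q hq hq1
    exact absurd (Nat.dvd_one.1 hq1) hq.one_lt.ne')
  rw [hY, hlogy] at h1
  set S := (Ioc (2 ^ j) (2 * 2 ^ j)).filter (fun l => l.Prime ∧ l ≠ p ∧
        ∀ r : ℕ, r.Prime → r ∣ od p l → (r : ℝ) < YY ℓ) with hS
  have hSeq : (Ioc (2 ^ j) (2 * 2 ^ j)).filter (fun l => l.Prime ∧ l ≠ p ∧ l ≡ 0 [MOD 1] ∧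
        ∀ r : ℕ, r.Prime → r ∣ od p l → (r : ℝ) < YY ℓ) = S := by
    rw [hS]
    refine filter_congr fun l _ => ?_
    constructor
    · rintro ⟨a1, a2, _, a4⟩
      exact ⟨a1, a2, a4⟩
    · rintro ⟨a1, a2, a4⟩
      exact ⟨a1, a2, Nat.modEq_one, a4⟩
  rw [hSeq] at h1
  have h2 : ∑ q ∈ S, 1 / (q : ℝ) ≤ S.card * (1 / ((2 ^ j : ℕ) : ℝ)) := by
    rw [← nsmul_eq_mul]
    refine sum_le_card_nsmul _ _ _ fun q hq => ?_
    rw [hS, mem_filter, mem_Ioc] at hq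
    apply one_div_le_one_div_of_le hypos
    exact_mod_cast hq.1.1.le
  refine h2.trans ?_
  have h3 : ((2 ^ j : ℕ) : ℝ) ^ (2 / 3 : ℝ) =
      ((2 ^ j : ℕ) : ℝ) * Real.exp (-(j * Real.log 2 / 3)) := by
    nth_rewrite 2 [← Real.exp_log hypos]
    rw [Real.rpow_def_of_pos hypos, hlogy, ← Real.exp_add]
    congr 1
    ring
  rw [h3] at h1
  have h4 : (S.card : ℝ) * (1 / ((2 ^ j : ℕ) : ℝ)) ≤
      C * (1 + 4 * ℓ) ^ 4 * Real.exp (-(j * Real.log 2 / (3 * (4 * ℓ)))) +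
        C * Real.exp (-(j * Real.log 2 / 3)) := by
    rw [mul_one_div, div_le_iff₀ hypos]
    refine h1.trans (le_of_eq ?_)
    push_cast
    ring
  refine h4.trans ?_
  have h5 : Real.exp (-(j * Real.log 2 / (3 * (4 * ℓ)))) =
      Real.exp (-(j * (Real.log 2 / (12 * ℓ)))) := by
    congr 2
    rw [mul_div_assoc]
    congr 2
    ring
  have h6 : Real.exp (-(j * Real.log 2 / 3)) ≤ Real.exp (-(j * (Real.log 2 / (12 * ℓ)))) := by
    apply Real.exp_le_exp.2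
    rw [neg_le_neg_iff, mul_div_assoc]
    apply mul_le_mul_of_nonneg_left _ (Nat.cast_nonneg j)
    apply div_le_div_of_nonneg_left (by linarith) (by norm_num) (by linarith)
  rw [h5]
  have h7 : (1 : ℝ) ≤ (1 + 4 * ℓ) ^ 4 := one_le_pow₀ (by linarith)
  have h8 : C * Real.exp (-(j * Real.log 2 / 3)) ≤
      C * (1 + 4 * ℓ) ^ 4 * Real.exp (-(j * (Real.log 2 / (12 * ℓ)))) := by
    have := (Real.exp_pos (-(j * (Real.log 2 / (12 * ℓ))))).le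
    calc C * Real.exp (-(j * Real.log 2 / 3))
        ≤ C * Real.exp (-(j * (Real.log 2 / (12 * ℓ)))) := mul_le_mul_of_nonneg_left h6 hC.le
      _ = C * 1 * Real.exp (-(j * (Real.log 2 / (12 * ℓ)))) := by ring
      _ ≤ C * (1 + 4 * ℓ) ^ 4 * Real.exp (-(j * (Real.log 2 / (12 * ℓ)))) := by
        apply mul_le_mul_of_nonneg_right _ this
        exact mul_le_mul_of_nonneg_left h7 hC.le
  linarith

private theorem growth (K : ℝ) : ∃ ℓ0 : ℝ, ∀ ℓ : ℝ, ℓ0 ≤ ℓ → K * ℓ ^ 5 ≤ Real.exp ℓ := by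
  have h1 := (isLittleO_pow_exp_pos_mul_atTop (k := 5) (b := 1) one_pos).bound
    (c := 1 / (|K| + 1)) (by positivity)
  obtain ⟨ℓ0, h2⟩ := Filter.eventually_atTop.1 h1
  refine ⟨max ℓ0 0, fun ℓ hℓ => ?_⟩
  have h3 := h2 ℓ ((le_max_left _ _).trans hℓ)
  have h4 : 0 ≤ ℓ := (le_max_right _ _).trans hℓ
  rw [Real.norm_eq_abs, Real.norm_eq_abs, abs_of_nonneg (pow_nonneg h4 5),
    abs_of_pos (Real.exp_pos _), one_mul] at h3
  have h5 : K * ℓ ^ 5 ≤ |K| * ℓ ^ 5 := mul_le_mul_of_nonneg_right (le_abs_self K) (pow_nonneg h4 5)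
  have h6 : |K| * ℓ ^ 5 ≤ |K| * (1 / (|K| + 1) * Real.exp ℓ) :=
    mul_le_mul_of_nonneg_left h3 (abs_nonneg K)
  have h7 : |K| * (1 / (|K| + 1) * Real.exp ℓ) ≤ Real.exp ℓ := by
    rw [← mul_assoc]
    have h8 : |K| * (1 / (|K| + 1)) ≤ 1 := by
      rw [mul_one_div, div_le_one (by positivity)]
      linarith
    calc |K| * (1 / (|K| + 1)) * Real.exp ℓ ≤ 1 * Real.exp ℓ :=
          mul_le_mul_of_nonneg_right h8 (Real.exp_pos _).le
      _ = _ := one_mul _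
  linarith

open scoped Classical in
theorem PQ_loss {p : ℕ} (hp : p.Prime) (hp2 : p ≠ 2) : Ev fun κ ℓ =>
    ∑ q ∈ (pr (zz ℓ) (vv κ ℓ)).filter (fun q => PP p q ∧ ¬ PQ p (zz ℓ) (YY ℓ) q),
      1 / (q : ℝ) ≤ 1 := by
  obtain ⟨C, hC, h⟩ := bad_ap hp
  obtain ⟨ℓ1, hg⟩ := growth (2 * C * 625 * 49 * Real.exp 1)
  intro κ0 _
  refine ⟨max ℓ1 24, fun ℓ hℓ κ _ _ => ?_⟩
  have hℓ1 : ℓ1 ≤ ℓ := (le_max_left _ _).trans hℓ
  have hℓ24 : 24 ≤ ℓ := (le_max_right _ _).trans hℓ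
  have hl2 := log_two_half
  have hl2' := log_two_le_one
  have hv0 : 0 ≤ vv κ ℓ := (Real.exp_pos _).le
  have hz2 : 2 < zz ℓ := by
    unfold zz
    have h1 := Real.add_one_le_exp (ℓ ^ 3)
    have h2 : (24 : ℝ) ^ 3 ≤ ℓ ^ 3 := pow_le_pow_left₀ (by norm_num) hℓ24 3
    linarith
  set S := (pr (zz ℓ) (vv κ ℓ)).filter (fun q => PP p q ∧ ¬ PQ p (zz ℓ) (YY ℓ) q) with hS
  set M := ⌊vv κ ℓ⌋₊ + 1 with hM
  set T : ℕ → Finset ℕ := fun j => (Ioc (2 ^ j) (2 * 2 ^ j)).filter (fun l => l.Prime ∧ l ≠ p ∧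
        ∀ r : ℕ, r.Prime → r ∣ od p l → (r : ℝ) < YY ℓ) with hT
  set J := (range M).filter (fun j : ℕ => ℓ ^ 3 < (j + 1) * Real.log 2) with hJ
  have hcov : ∀ q ∈ S, Nat.log 2 q ∈ J ∧ q ∈ T (Nat.log 2 q) := by
    intro q hq
    rw [hS, mem_filter, mem_pr hv0] at hq
    obtain ⟨⟨hqp, hzq, hqv⟩, hPP, hPQ⟩ := hq
    have hq0 : q ≠ 0 := hqp.ne_zero
    have hlo : 2 ^ Nat.log 2 q ≤ q := Nat.pow_log_le_self 2 hq0
    have hhi : q < 2 ^ (Nat.log 2 q + 1) := Nat.lt_pow_succ_log_self (by norm_num) q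
    have hq2 : 2 < q := by
      have : (2 : ℝ) < q := hz2.trans hzq
      exact_mod_cast this
    have hne : 2 ^ Nat.log 2 q ≠ q := by
      intro he
      have hk : Nat.log 2 q ≠ 0 := by
        intro h0
        rw [h0, pow_zero] at he
        omega
      have h2q : 2 ∣ q := by
        rw [← he]
        exact dvd_pow_self 2 hk
      have := (Nat.prime_dvd_prime_iff_eq Nat.prime_two hqp).1 h2q
      omega
    refine ⟨?_, ?_⟩
    · rw [hJ, mem_filter, mem_range]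
      refine ⟨?_, ?_⟩
      · have h1 : Nat.log 2 q < q := Nat.log_lt_self 2 hq0
        have h2 : q ≤ ⌊vv κ ℓ⌋₊ := (Nat.le_floor_iff hv0).2 hqv
        omega
      · have h1 : zz ℓ < 2 ^ (Nat.log 2 q + 1) := by
          refine hzq.trans_le ?_
          exact_mod_cast hhi.le
        have h2 := Real.log_lt_log (Real.exp_pos _) h1
        rw [Real.log_exp, Real.log_pow] at h2
        push_cast at h2
        exact h2
    · rw [hT, mem_filter, mem_Ioc]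
      refine ⟨⟨lt_of_le_of_ne hlo hne, ?_⟩, hqp, (PP_basic hp hp2 hPP).2, ?_⟩
      · rw [pow_succ] at hhi
        omega
      · intro r hr hrd
        by_contra hcon
        push Not at hcon
        exact hPQ ⟨hPP, hzq, r, hr, hcon, hrd⟩
  have h1 : ∑ q ∈ S, 1 / (q : ℝ) ≤ ∑ j ∈ J, ∑ q ∈ T j, 1 / (q : ℝ) := by
    rw [← sum_fiberwise_of_maps_to (s := S) (t := J) (g := Nat.log 2) fun q hq => (hcov q hq).1]
    refine sum_le_sum fun j _ => ?_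
    refine sum_le_sum_of_subset_of_nonneg ?_ fun q _ _ => by positivity
    intro q hq
    rw [mem_filter] at hq
    rw [← hq.2]
    exact (hcov q hq.1).2
  refine h1.trans ?_
  set t := Real.log 2 / (24 * ℓ) with ht
  have htpos : 0 < t := by
    rw [ht]
    have : 0 < Real.log 2 := by linarith
    positivity
  have h2 : ∀ j ∈ J, ∑ q ∈ T j, 1 / (q : ℝ) ≤
      2 * C * (1 + 4 * ℓ) ^ 4 * (Real.exp (1 - ℓ ^ 2 / 24) * Real.exp (-(j * t))) := by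
    intro j hj
    rw [hJ, mem_filter] at hj
    refine (block hC h (by linarith) j hj.2).trans ?_
    apply mul_le_mul_of_nonneg_left _ (by positivity)
    rw [← Real.exp_add]
    apply Real.exp_le_exp.2
    have h3 : (j : ℝ) * (Real.log 2 / (12 * ℓ)) = j * t + j * t := by
      rw [ht]
      field_simp
      ring
    have h4 : ℓ ^ 2 / 24 - 1 ≤ j * t := by
      rw [ht, mul_div_assoc', le_div_iff₀ (by linarith)]
      have := hj.2
      nlinarith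
    linarith
  refine (sum_le_sum h2).trans ?_
  rw [← mul_sum, ← mul_sum]
  have h3 : ∑ j ∈ J, Real.exp (-(j * t)) ≤ 49 * ℓ := by
    have h4 : ∑ j ∈ J, Real.exp (-(j * t)) ≤ ∑ j ∈ range M, Real.exp (-(j * t)) :=
      sum_le_sum_of_subset_of_nonneg (filter_subset _ _) fun _ _ _ => (Real.exp_pos _).le
    refine (h4.trans (geom_exp htpos M)).trans ?_
    have h5 : 1 / t ≤ 48 * ℓ := by
      rw [ht, one_div_div, div_le_iff₀ (by linarith)]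
      nlinarith
    linarith
  have h4 : (1 + 4 * ℓ) ^ 4 ≤ 625 * ℓ ^ 4 := by
    have : (1 + 4 * ℓ) ^ 4 ≤ (5 * ℓ) ^ 4 := pow_le_pow_left₀ (by linarith) (by linarith) 4
    calc (1 + 4 * ℓ) ^ 4 ≤ (5 * ℓ) ^ 4 := this
      _ = 625 * ℓ ^ 4 := by ring
  have h5 : Real.exp (1 - ℓ ^ 2 / 24) ≤ Real.exp 1 * Real.exp (-ℓ) := by
    rw [← Real.exp_add]
    apply Real.exp_le_exp.2
    nlinarith
  have h6 := hg ℓ hℓ1
  calc 2 * C * (1 + 4 * ℓ) ^ 4 * (Real.exp (1 - ℓ ^ 2 / 24) * ∑ j ∈ J, Real.exp (-(j * t)))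
      ≤ 2 * C * (625 * ℓ ^ 4) * ((Real.exp 1 * Real.exp (-ℓ)) * (49 * ℓ)) := by
        apply mul_le_mul
        · exact mul_le_mul_of_nonneg_left h4 (by positivity)
        · exact mul_le_mul h5 h3 (sum_nonneg fun _ _ => (Real.exp_pos _).le) (by positivity)
        · exact mul_nonneg (Real.exp_pos _).le (sum_nonneg fun _ _ => (Real.exp_pos _).le)
        · positivity
    _ = (2 * C * 625 * 49 * Real.exp 1 * ℓ ^ 5) * Real.exp (-ℓ) := by ring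
    _ ≤ Real.exp ℓ * Real.exp (-ℓ) := mul_le_mul_of_nonneg_right h6 (Real.exp_pos _).le
    _ = 1 := by rw [← Real.exp_add, add_neg_cancel, Real.exp_zero]

open scoped Classical in
private theorem split {p : ℕ} {z v Y : ℝ} (hv : 0 ≤ v) (hz : 0 ≤ z) (S : ℕ → Prop)
    [DecidablePred S] :
    ∑ q ∈ (pr 1 v).filter (fun q => PP p q ∧ S q), 1 / (q : ℝ) ≤
      ∑ q ∈ (pr 1 v).filter (fun q => PQ p z Y q ∧ S q), 1 / (q : ℝ) +
      (∑ q ∈ pr 1 z, 1 / (q : ℝ) +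
      ∑ q ∈ (pr z v).filter (fun q => PP p q ∧ ¬ PQ p z Y q), 1 / (q : ℝ)) := by
  have hnn : ∀ A : Finset ℕ, 0 ≤ ∑ q ∈ A, 1 / (q : ℝ) := fun A =>
    sum_nonneg fun _ _ => by positivity
  have hun : ∀ A B : Finset ℕ, ∑ q ∈ A ∪ B, 1 / (q : ℝ) ≤
      ∑ q ∈ A, 1 / (q : ℝ) + ∑ q ∈ B, 1 / (q : ℝ) := by
    intro A B
    rw [← sum_union_inter]
    linarith [hnn (A ∩ B)]
  have hsub : (pr 1 v).filter (fun q => PP p q ∧ S q) ⊆
      (pr 1 v).filter (fun q => PQ p z Y q ∧ S q) ∪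
      (pr 1 z ∪ (pr z v).filter (fun q => PP p q ∧ ¬ PQ p z Y q)) := by
    intro q hq
    rw [mem_filter, mem_pr hv] at hq
    obtain ⟨⟨h1, h2, h3⟩, h4, h5⟩ := hq
    rw [mem_union, mem_union, mem_filter, mem_filter, mem_pr hv, mem_pr hz, mem_pr hv]
    by_cases h6 : (q : ℝ) ≤ z
    · exact Or.inr (Or.inl ⟨h1, h2, h6⟩)
    · push Not at h6
      by_cases h7 : PQ p z Y q
      · exact Or.inl ⟨⟨h1, h2, h3⟩, h7, h5⟩
      · exact Or.inr (Or.inr ⟨⟨h1, h6, h3⟩, h4, h7⟩)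
  calc _ ≤ _ := sum_le_sum_of_subset_of_nonneg hsub fun q _ _ => by positivity
    _ ≤ _ := hun _ _
    _ ≤ _ := by linarith [hun (pr 1 z) ((pr z v).filter (fun q => PP p q ∧ ¬ PQ p z Y q))]

private theorem ev_v3 : Ev fun κ ℓ => 3 ≤ vv κ ℓ := by
  refine (ev_lv_const 2).mono ?_
  intro κ ℓ h
  unfold vv
  linarith [Real.add_one_le_exp (lv κ ℓ)]

private theorem loglog_v (κ ℓ : ℝ) : Real.log (Real.log (vv κ ℓ)) = κ * ℓ := by
  unfold vv lv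
  rw [Real.log_exp, Real.log_exp]

private theorem z_bound : ∃ C : ℝ, 0 < C ∧ ∀ ℓ : ℝ, 1 ≤ ℓ →
    ∑ q ∈ pr 1 (zz ℓ), 1 / (q : ℝ) ≤ 3 * Real.log ℓ + C := by
  obtain ⟨C, hC, h1, _⟩ := mert_inv
  refine ⟨C, hC, fun ℓ hℓ => ?_⟩
  have hz2 : 2 ≤ zz ℓ := by
    unfold zz
    have h3 := Real.add_one_le_exp (ℓ ^ 3)
    have h4 : (1 : ℝ) ^ 3 ≤ ℓ ^ 3 := pow_le_pow_left₀ (by norm_num) hℓ 3
    linarith
  have h2 := (abs_le.1 (h1 (zz ℓ) hz2)).2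
  have h3 : Real.log (Real.log (zz ℓ)) = 3 * Real.log ℓ := by
    unfold zz
    rw [Real.log_exp, Real.log_pow]
    norm_num
  linarith

open scoped Classical in
theorem PQ_low {p : ℕ} (hp : p.Prime) (hp2 : p ≠ 2) : ∃ C : ℝ, 0 < C ∧ Ev fun κ ℓ =>
    5 / 16 * (κ * ℓ) - 3 * Real.log ℓ - C ≤
      ∑ q ∈ (pr 1 (vv κ ℓ)).filter (PQ p (zz ℓ) (YY ℓ)), 1 / (q : ℝ) := by
  obtain ⟨C1, hC1, h1⟩ := PP_low p hp hp2
  obtain ⟨C2, hC2, h2⟩ := z_bound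
  refine ⟨C1 + C2 + 1, by linarith, ?_⟩
  refine (((PQ_loss hp hp2).and ev_v3).and (ev_ell 1)).mono ?_
  rintro κ ℓ ⟨⟨h3, h4⟩, h5⟩
  have h6 := h1 (vv κ ℓ) h4
  rw [loglog_v] at h6
  have h7 := h2 ℓ h5
  have h8 := split (p := p) (z := zz ℓ) (v := vv κ ℓ) (Y := YY ℓ) (by linarith)
    (Real.exp_pos _).le (fun _ => True)
  simp only [and_true] at h8
  linarith

open scoped Classical in
theorem PQ3_low {p : ℕ} (hp : p.Prime) (hp2 : p ≠ 2) : ∃ C : ℝ, 0 < C ∧ Ev fun κ ℓ =>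
    1 / 4 * (κ * ℓ) - 3 * Real.log ℓ - C ≤
      ∑ q ∈ (pr 1 (vv κ ℓ)).filter (fun q => PQ p (zz ℓ) (YY ℓ) q ∧ q % 4 = 3), 1 / (q : ℝ) := by
  obtain ⟨C1, hC1, h1⟩ := PP3_low p hp hp2
  obtain ⟨C2, hC2, h2⟩ := z_bound
  refine ⟨C1 + C2 + 1, by linarith, ?_⟩
  refine (((PQ_loss hp hp2).and ev_v3).and (ev_ell 1)).mono ?_
  rintro κ ℓ ⟨⟨h3, h4⟩, h5⟩
  have h6 := h1 (vv κ ℓ) h4
  rw [loglog_v] at h6
  have h7 := h2 ℓ h5
  have h8 := split (p := p) (z := zz ℓ) (v := vv κ ℓ) (Y := YY ℓ) (by linarith)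
    (Real.exp_pos _).le (fun q => q % 4 = 3)
  linarith

end Pool.SG
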