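import Pool.Agent.Lib.MP_a51fee_ag.SG.NMert

/-!
# SG-BSm: Rankin's bound for smooth numbers

PROOF of `smooth_tail`.  Let `δ = 1 / log Y ≤ 1 / log 8 < 0.481` (`log 8 = 3 log 2 > 2.079`).
For `d ≥ D0`: `1/d ≤ D0^{-δ} d^{δ-1}`, and `D0^{-δ} = exp(-log D0 / log Y)`.
`∑ d^{δ-1}` over the `Y`-smooth `d` is at most `∏_{q < Y} (1 - q^{δ-1})^{-1}` (Mathlib
`EulerProduct.summable_and_hasSum_smoothNumbers_prod_primesBelow_tsum` / `..._geometric`, or by hand: expand the
product of finite geometric sums; completely multiplicative `d ↦ d^{δ-1}`; a finite partial sum of nonnegative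
terms is at most the total).
`x = q^{δ-1} ≤ 2^{-0.519} < 0.7`, so `-log (1 - x) ≤ x / (1 - x) ≤ (10/3) x`.
For `q < Y`: `q^δ = exp (δ log q)`, `0 ≤ δ log q ≤ 1`, `exp t ≤ 1 + 2 t` on `[0,1]`: `q^δ ≤ 1 + 2 δ log q`.
So `∑_{q < Y} q^{δ-1} ≤ ∑ 1/q + 2 δ ∑ log q/q ≤ log log Y + C + 2 δ (log Y + C) ≤ log log Y + C'`
(`mert_inv`, `mert_log`).  The product is at most
`exp ((10/3)(log log Y + C')) ≤ C'' (log Y)^{10/3} ≤ C'' (1 + log Y)^4`.
-/

set_option autoImplicit false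

open Finset

namespace Pool.SG

private theorem bs_exp {t : ℝ} (h0 : 0 ≤ t) (h1 : t ≤ 1) : Real.exp t ≤ 1 + 2 * t := by
  have h := Real.exp_bound' h0 h1 (n := 1) one_pos
  simp at h
  linarith

private noncomputable def bsf (s : ℝ) : ℕ →* ℝ where
  toFun n := (n : ℝ) ^ s
  map_one' := by simp
  map_mul' m n := by
    push_cast
    exact Real.mul_rpow (Nat.cast_nonneg _) (Nat.cast_nonneg _)

private theorem bsf_apply (s : ℝ) (n : ℕ) : bsf s n = (n : ℝ) ^ s := rfl

private theorem bs_logY {Y : ℝ} (hY : 8 ≤ Y) : 2 ≤ Real.log Y := by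
  have h1 : Real.log 8 ≤ Real.log Y := Real.log_le_log (by norm_num) hY
  have h2 : Real.log 8 = 3 * Real.log 2 := by
    rw [show (8 : ℝ) = 2 ^ 3 by norm_num, Real.log_pow]
    norm_num
  have h3 := Real.log_two_gt_d9
  linarith

private theorem bs_small {δ : ℝ} (hδ : δ ≤ 1 / 2) {q : ℕ} (hq : 2 ≤ q) :
    (q : ℝ) ^ (δ - 1) ≤ 3 / 4 := by
  have hq1 : (1 : ℝ) ≤ q := by exact_mod_cast (by omega : 1 ≤ q)
  have hq2 : (2 : ℝ) ≤ q := by exact_mod_cast hq
  have h1 : (q : ℝ) ^ (δ - 1) ≤ (q : ℝ) ^ (-(1 / 2) : ℝ) :=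
    Real.rpow_le_rpow_of_exponent_le hq1 (by linarith)
  have h2 : (q : ℝ) ^ (-(1 / 2) : ℝ) ≤ (2 : ℝ) ^ (-(1 / 2) : ℝ) :=
    Real.rpow_le_rpow_of_nonpos (by norm_num) hq2 (by norm_num)
  have h3 : (2 : ℝ) ^ (-(1 / 2) : ℝ) ≤ 3 / 4 := by
    rw [Real.rpow_neg (by norm_num), ← Real.sqrt_eq_rpow]
    rw [inv_le_comm₀ (Real.sqrt_pos.2 (by norm_num)) (by norm_num)]
    apply Real.le_sqrt_of_sq_le
    norm_num
  linarith

private theorem bs_inv {x : ℝ} (h0 : 0 ≤ x) (h1 : x ≤ 3 / 4) : (1 - x)⁻¹ ≤ Real.exp (4 * x) := by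
  have h2 : (1 - x)⁻¹ ≤ 1 + 4 * x := by
    rw [inv_le_comm₀ (by linarith) (by linarith), ← one_div, div_le_iff₀ (by linarith)]
    nlinarith
  have h3 := Real.add_one_le_exp (4 * x)
  linarith

open scoped Classical in
theorem smooth_tail : ∃ C : ℝ, 0 < C ∧ ∀ Y : ℝ, 8 ≤ Y → ∀ D0 : ℝ, 1 ≤ D0 → ∀ X : ℕ,
    ∑ d ∈ (Icc 1 X).filter (fun d : ℕ =>
        (∀ q : ℕ, q.Prime → q ∣ d → (q : ℝ) < Y) ∧ D0 ≤ (d : ℝ)), 1 / (d : ℝ) ≤
      C * (1 + Real.log Y) ^ 4 * Real.exp (-(Real.log D0 / Real.log Y)) := by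
  obtain ⟨C1, hC1, h1, -⟩ := mert_inv
  obtain ⟨C2, hC2, h2⟩ := mert_log
  refine ⟨Real.exp (4 * (C1 + 2 + C2)), Real.exp_pos _, ?_⟩
  intro Y hY D0 hD0 X
  have hY0 : (0 : ℝ) ≤ Y := by linarith
  have hlog := bs_logY hY
  have hlog0 : 0 < Real.log Y := by linarith
  obtain ⟨δ, hδ⟩ : ∃ δ : ℝ, δ = 1 / Real.log Y := ⟨_, rfl⟩
  have hδ0 : 0 < δ := by rw [hδ]; positivity
  have hδ1 : δ ≤ 1 / 2 := by
    rw [hδ]
    exact one_div_le_one_div_of_le (by norm_num) hlog
  have hδY : δ * Real.log Y = 1 := by rw [hδ]; field_simp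
  -- the product
  obtain ⟨-, hsum⟩ := EulerProduct.summable_and_hasSum_smoothNumbers_prod_primesBelow_geometric
    (f := bsf (δ - 1)) (by
      intro q hq
      rw [bsf_apply, Real.norm_of_nonneg (Real.rpow_nonneg (Nat.cast_nonneg _) _)]
      exact (bs_small hδ1 hq.two_le).trans_lt (by norm_num)) ⌈Y⌉₊
  have hpr : ∀ q ∈ (⌈Y⌉₊).primesBelow, q.Prime ∧ (q : ℝ) < Y := by
    intro q hq
    rw [Nat.mem_primesBelow] at hq
    exact ⟨hq.2, Nat.lt_ceil.1 hq.1⟩
  have hprod : ∏ q ∈ (⌈Y⌉₊).primesBelow, (1 - bsf (δ - 1) q)⁻¹ ≤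
      Real.exp (4 * (C1 + 2 + C2)) * (1 + Real.log Y) ^ 4 := by
    calc ∏ q ∈ (⌈Y⌉₊).primesBelow, (1 - bsf (δ - 1) q)⁻¹
        ≤ ∏ q ∈ (⌈Y⌉₊).primesBelow, Real.exp (4 * (q : ℝ) ^ (δ - 1)) := by
          apply Finset.prod_le_prod
          · intro q hq
            rw [bsf_apply]
            have := bs_small hδ1 (hpr q hq).1.two_le
            exact inv_nonneg.2 (by linarith)
          · intro q hq
            rw [bsf_apply]
            exact bs_inv (Real.rpow_nonneg (Nat.cast_nonneg _) _)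
              (bs_small hδ1 (hpr q hq).1.two_le)
      _ = Real.exp (4 * ∑ q ∈ (⌈Y⌉₊).primesBelow, (q : ℝ) ^ (δ - 1)) := by
          rw [← Real.exp_sum, Finset.mul_sum]
      _ ≤ Real.exp (4 * (Real.log (Real.log Y) + (C1 + 2 + C2))) := by
          apply Real.exp_le_exp.2
          apply mul_le_mul_of_nonneg_left _ (by norm_num)
          calc ∑ q ∈ (⌈Y⌉₊).primesBelow, (q : ℝ) ^ (δ - 1)
              ≤ ∑ q ∈ (⌈Y⌉₊).primesBelow, (1 / (q : ℝ) + 2 * δ * (Real.log q / q)) := by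
                apply Finset.sum_le_sum
                intro q hq
                obtain ⟨hq1, hq2⟩ := hpr q hq
                have hq0 : (0 : ℝ) < q := by exact_mod_cast hq1.pos
                have hq01 : (1 : ℝ) ≤ q := by exact_mod_cast hq1.one_lt.le
                rw [Real.rpow_sub_one hq0.ne', Real.rpow_def_of_pos hq0]
                have h5 : Real.exp (Real.log q * δ) ≤ 1 + 2 * (Real.log q * δ) := by
                  apply bs_exp
                  · exact mul_nonneg (Real.log_nonneg hq01) hδ0.le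
                  · calc Real.log q * δ ≤ Real.log Y * δ :=
                        mul_le_mul_of_nonneg_right (Real.log_le_log hq0 hq2.le) hδ0.le
                      _ = 1 := by rw [mul_comm]; exact hδY
                calc Real.exp (Real.log q * δ) / (q : ℝ) ≤ (1 + 2 * (Real.log q * δ)) / q :=
                      div_le_div_of_nonneg_right h5 hq0.le
                  _ = _ := by ring
            _ ≤ ∑ q ∈ pr 1 Y, (1 / (q : ℝ) + 2 * δ * (Real.log q / q)) := by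
                apply Finset.sum_le_sum_of_subset_of_nonneg
                · intro q hq
                  obtain ⟨hq1, hq2⟩ := hpr q hq
                  rw [mem_pr hY0]
                  exact ⟨hq1, by exact_mod_cast hq1.one_lt, hq2.le⟩
                · intro q hq _
                  rw [mem_pr hY0] at hq
                  have hq01 : (1 : ℝ) ≤ q := by exact_mod_cast hq.1.one_lt.le
                  have := Real.log_nonneg hq01
                  positivity
            _ = ∑ q ∈ pr 1 Y, 1 / (q : ℝ) + 2 * δ * ∑ q ∈ pr 1 Y, (Real.log q / q) := by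
                rw [Finset.sum_add_distrib, Finset.mul_sum]
            _ ≤ (Real.log (Real.log Y) + C1) + 2 * δ * (Real.log Y + C2) := by
                have h6 := (abs_le.1 (h1 Y (by linarith))).2
                have h7 := h2 Y (by linarith)
                have h8 : 2 * δ * ∑ q ∈ pr 1 Y, (Real.log q / q) ≤ 2 * δ * (Real.log Y + C2) :=
                  mul_le_mul_of_nonneg_left h7 (by positivity)
                linarith
            _ ≤ Real.log (Real.log Y) + (C1 + 2 + C2) := by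
                have h9 : 2 * δ * C2 ≤ C2 := by nlinarith
                have h10 : 2 * δ * (Real.log Y + C2) = 2 * (δ * Real.log Y) + 2 * δ * C2 := by ring
                rw [h10, hδY]
                linarith
      _ = Real.exp (4 * (C1 + 2 + C2)) * (Real.log Y) ^ 4 := by
          rw [mul_add, Real.exp_add, mul_comm]
          congr 1
          have h11 : (4 : ℝ) * Real.log (Real.log Y) = ((4 : ℕ) : ℝ) * Real.log (Real.log Y) := by
            norm_num
          rw [h11, Real.exp_nat_mul, Real.exp_log hlog0]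
      _ ≤ Real.exp (4 * (C1 + 2 + C2)) * (1 + Real.log Y) ^ 4 := by
          apply mul_le_mul_of_nonneg_left _ (Real.exp_pos _).le
          exact pow_le_pow_left₀ hlog0.le (by linarith) 4
  -- the sum
  have hD00 : 0 < D0 := by linarith
  set S := (Icc 1 X).filter (fun d : ℕ =>
        (∀ q : ℕ, q.Prime → q ∣ d → (q : ℝ) < Y) ∧ D0 ≤ (d : ℝ)) with hS
  have hmem : ∀ d ∈ S, d ∈ (⌈Y⌉₊).smoothNumbers ∧ D0 ≤ (d : ℝ) := by
    intro d hd
    rw [hS, mem_filter, mem_Icc] at hd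
    refine ⟨?_, hd.2.2⟩
    rw [Nat.mem_smoothNumbers']
    intro q hq hqd
    exact Nat.lt_ceil.2 (hd.2.1 q hq hqd)
  have hsum2 : ∑ d ∈ S, (d : ℝ) ^ (δ - 1) ≤ ∏ q ∈ (⌈Y⌉₊).primesBelow, (1 - bsf (δ - 1) q)⁻¹ := by
    have h12 : ∑ d ∈ S, (d : ℝ) ^ (δ - 1) =
        ∑ m ∈ S.subtype (fun d => d ∈ (⌈Y⌉₊).smoothNumbers), bsf (δ - 1) (m : ℕ) := by
      rw [← Finset.sum_subtype_of_mem (fun d : ℕ => (d : ℝ) ^ (δ - 1)) (fun d hd => (hmem d hd).1)]
      rfl
    rw [h12]
    apply sum_le_hasSum _ _ hsum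
    intro m _
    rw [bsf_apply]
    exact Real.rpow_nonneg (Nat.cast_nonneg _) _
  have hexp : Real.exp (-(Real.log D0 / Real.log Y)) = D0 ^ (-δ) := by
    rw [Real.rpow_def_of_pos hD00, hδ]
    congr 1
    ring
  calc ∑ d ∈ S, 1 / (d : ℝ) ≤ ∑ d ∈ S, D0 ^ (-δ) * (d : ℝ) ^ (δ - 1) := by
        apply Finset.sum_le_sum
        intro d hd
        have hd1 := (hmem d hd).2
        have hd0 : (0 : ℝ) < d := by linarith
        have h13 : (d : ℝ) ^ (-δ) ≤ D0 ^ (-δ) :=
          Real.rpow_le_rpow_of_nonpos hD00 hd1 (by linarith)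
        calc 1 / (d : ℝ) = (d : ℝ) ^ (-δ) * (d : ℝ) ^ (δ - 1) := by
              rw [← Real.rpow_add hd0, show -δ + (δ - 1) = -1 by ring, Real.rpow_neg_one, one_div]
          _ ≤ D0 ^ (-δ) * (d : ℝ) ^ (δ - 1) :=
              mul_le_mul_of_nonneg_right h13 (Real.rpow_nonneg hd0.le _)
    _ = D0 ^ (-δ) * ∑ d ∈ S, (d : ℝ) ^ (δ - 1) := by rw [Finset.mul_sum]
    _ ≤ D0 ^ (-δ) * (Real.exp (4 * (C1 + 2 + C2)) * (1 + Real.log Y) ^ 4) :=
        mul_le_mul_of_nonneg_left (hsum2.trans hprod) (Real.rpow_nonneg hD00.le _)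
    _ = _ := by rw [hexp]; ring

end Pool.SG
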