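import Mathlib

/-!
# SG-CsA: Artin-Schreier fibres and additive characters

Let `L` be a finite field of characteristic `p`, `ψ` a primitive additive character with `ψ (y^p) = ψ y`
(so `ψ (y^Q) = ψ y` for `Q = p^k`).

PROOF of `card_AS`.  `#{s | s^Q - s = y} = (1/q) ∑_s ∑_c ψ(c (s^Q - s - y))` (orthogonality,
`AddChar.sum_mulShift` or `AddChar.sum_eq_ite`).  For fixed `c` let `c'` be the unique element with
`c'^Q = c` (Frobenius is bijective): `ψ(c s^Q) = ψ((c' s)^Q) = ψ(c' s)`.  So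
`∑_s ψ(c s^Q - c s) = ∑_s ψ((c' - c) s) = q [c' = c] = q [c^Q = c]`.  Hence
`#{s | s^Q - s = y} = ∑_{c^Q = c} ψ(-c y)`.

PROOF of `sum_AS`.  `∑_s χ(s^Q - s) = ∑_y χ(y) #{s | s^Q - s = y} = ∑_{c^Q=c} ∑_y χ(y) ψ(-c y)`.
`c = 0`: `∑_y χ(y) = 0`.  `c ≠ 0`: `∑_y χ(y) ψ(-c y) = χ⁻¹(-c) gaussSum χ ψ` and `χ(-c) = 1`:
`(-c)^(Q-1) = 1` (`Q - 1` even), so `χ(-c)` is killed by `Q - 1` and by `e`, coprime.  There are `Q - 1` such `c`
(`hk`).
-/

set_option autoImplicit false

open Finset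

namespace Pool.SG

private theorem csA_inj {L : Type} [Field L] (p : ℕ) [Fact p.Prime] [CharP L p] (k : ℕ) :
    Function.Injective fun x : L => x ^ (p ^ k) := by
  intro x y h
  have h1 := iterateFrobenius_inj L p k
  exact h1 (by simpa [iterateFrobenius_def] using h)

private theorem csA_psi {L : Type} [Field L] (p : ℕ) (ψ : AddChar L ℂ)
    (hF : ∀ y, ψ (y ^ p) = ψ y) (k : ℕ) (y : L) : ψ (y ^ (p ^ k)) = ψ y := by
  induction k with
  | zero => rw [pow_zero, pow_one]
  | succ k ih => rw [pow_succ, pow_mul, hF, ih]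

theorem card_AS {L : Type} [Field L] [Fintype L] [DecidableEq L] (p : ℕ) [Fact p.Prime]
    [CharP L p] (ψ : AddChar L ℂ) (hψ : ψ.IsPrimitive) (hF : ∀ y, ψ (y ^ p) = ψ y) (k : ℕ) (y : L) :
    ((univ.filter fun s : L => s ^ (p ^ k) - s = y).card : ℂ) =
      ∑ c ∈ univ.filter (fun c : L => c ^ (p ^ k) = c), ψ (-(c * y)) := by
  have hq : (Fintype.card L : ℂ) ≠ 0 := by
    exact_mod_cast Fintype.card_ne_zero
  have hinj := csA_inj (L := L) p k
  have hsurj : Function.Surjective fun x : L => x ^ (p ^ k) :=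
    Finite.surjective_of_injective hinj
  have h1 : (Fintype.card L : ℂ) * ((univ.filter fun s : L => s ^ (p ^ k) - s = y).card : ℂ) =
      ∑ s : L, ∑ c : L, ψ (c * (s ^ (p ^ k) - s - y)) := by
    rw [Finset.card_filter, Nat.cast_sum, Finset.mul_sum]
    refine Finset.sum_congr rfl fun s _ => ?_
    rw [AddChar.sum_mulShift _ hψ]
    by_cases h : s ^ (p ^ k) - s = y
    · rw [if_pos h, if_pos (sub_eq_zero.2 h)]
      simp
    · rw [if_neg h, if_neg (sub_ne_zero.2 h)]
      simp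
  have h2 : ∀ c : L, ∑ s : L, ψ (c * (s ^ (p ^ k) - s - y)) =
      (if c ^ (p ^ k) = c then (Fintype.card L : ℂ) else 0) * ψ (-(c * y)) := by
    intro c
    obtain ⟨c', hc'⟩ := hsurj c
    have hc'' : c' ^ (p ^ k) = c := hc'
    have h3 : ∀ s : L, ψ (c * (s ^ (p ^ k) - s - y)) = ψ (s * (c' - c)) * ψ (-(c * y)) := by
      intro s
      have e1 : c * (s ^ (p ^ k) - s - y) = (c' * s) ^ (p ^ k) + (-(c * s)) + (-(c * y)) := by
        rw [mul_pow, hc'']
        ring
      have e2 : s * (c' - c) = c' * s + (-(c * s)) := by ring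
      rw [e1, e2, AddChar.map_add_eq_mul, AddChar.map_add_eq_mul, AddChar.map_add_eq_mul,
        csA_psi p ψ hF k]
    rw [Finset.sum_congr rfl fun s _ => h3 s, ← Finset.sum_mul, AddChar.sum_mulShift _ hψ]
    congr 1
    by_cases h : c ^ (p ^ k) = c
    · have h4 : c' = c := hinj (by
        show c' ^ (p ^ k) = c ^ (p ^ k)
        rw [hc'', h])
      rw [if_pos h, if_pos (sub_eq_zero.2 h4)]
    · have h4 : c' ≠ c := by
        intro h5
        apply h
        rw [h5] at hc''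
        exact hc''
      rw [if_neg h, if_neg (sub_ne_zero.2 h4)]
      simp
  rw [Finset.sum_comm, Finset.sum_congr rfl fun c _ => h2 c] at h1
  have h5 : ∑ c : L, (if c ^ (p ^ k) = c then (Fintype.card L : ℂ) else 0) * ψ (-(c * y)) =
      (Fintype.card L : ℂ) * ∑ c ∈ univ.filter (fun c : L => c ^ (p ^ k) = c), ψ (-(c * y)) := by
    rw [Finset.sum_filter, Finset.mul_sum]
    refine Finset.sum_congr rfl fun c _ => ?_
    by_cases h : c ^ (p ^ k) = c
    · rw [if_pos h, if_pos h]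
    · rw [if_neg h, if_neg h, zero_mul, mul_zero]
  rw [h5] at h1
  exact mul_left_cancel₀ hq h1

theorem sum_AS {L : Type} [Field L] [Fintype L] [DecidableEq L] (p : ℕ) [Fact p.Prime]
    (hp : p ≠ 2) [CharP L p] (ψ : AddChar L ℂ) (hψ : ψ.IsPrimitive) (hF : ∀ y, ψ (y ^ p) = ψ y)
    (k : ℕ) (hk : (univ.filter fun c : L => c ^ (p ^ k) = c).card = p ^ k) (χ : MulChar L ℂ)
    (hχ : χ ≠ 1) (e : ℕ) (he : χ ^ e = 1) (cop : Nat.Coprime e (p ^ k - 1)) :
    ∑ s : L, χ (s ^ (p ^ k) - s) = ((p : ℂ) ^ k - 1) * gaussSum χ ψ := by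
  have hpp : p.Prime := Fact.out
  have hodd : Odd p := hpp.odd_of_ne_two hp
  have hQ : 0 < p ^ k := pow_pos hpp.pos k
  have heven : Even (p ^ k - 1) := by
    have h1 : Odd (p ^ k) := hodd.pow
    exact Nat.Odd.sub_odd h1 odd_one
  have h1 : ∑ s : L, χ (s ^ (p ^ k) - s) =
      ∑ y : L, ((univ.filter fun s : L => s ^ (p ^ k) - s = y).card : ℂ) * χ y := by
    rw [← Finset.sum_fiberwise univ (fun s : L => s ^ (p ^ k) - s)]
    refine Finset.sum_congr rfl fun y _ => ?_
    have h2 : ∀ s ∈ univ.filter (fun s : L => s ^ (p ^ k) - s = y),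
        χ (s ^ (p ^ k) - s) = χ y := by
      intro s hs
      rw [(Finset.mem_filter.1 hs).2]
    rw [Finset.sum_congr rfl h2, Finset.sum_const, nsmul_eq_mul]
  have h2 : ∀ c ∈ univ.filter (fun c : L => c ^ (p ^ k) = c),
      ∑ y : L, ψ (-(c * y)) * χ y = if c = 0 then 0 else gaussSum χ ψ := by
    intro c hc
    have hc1 : c ^ (p ^ k) = c := (Finset.mem_filter.1 hc).2
    by_cases h0 : c = 0
    · rw [if_pos h0, h0]
      simp only [zero_mul, neg_zero, AddChar.map_zero_eq_one, one_mul]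
      exact MulChar.sum_eq_zero_of_ne_one hχ
    · rw [if_neg h0]
      have hc2 : c ^ (p ^ k - 1) = 1 := by
        have h3 : c ^ (p ^ k - 1) * c = 1 * c := by
          rw [← pow_succ, Nat.sub_add_cancel hQ, hc1, one_mul]
        exact mul_right_cancel₀ h0 h3
      have hc3 : (-c) ^ (p ^ k - 1) = 1 := by
        rw [heven.neg_pow, hc2]
      have hne : -c ≠ 0 := neg_ne_zero.2 h0
      let u : Lˣ := Units.mk0 (-c) hne
      have hu : (u : L) = -c := rfl
      have h4 : (χ (u : L)) ^ (p ^ k - 1) = 1 := by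
        rw [← map_pow, hu, hc3, map_one]
      have h5 : (χ (u : L)) ^ e = 1 := by
        rw [← MulChar.pow_apply_coe, he, MulChar.one_apply_coe]
      have h6 : χ (u : L) = 1 := by
        have h7 := pow_gcd_eq_one.2 ⟨h5, h4⟩
        rw [cop, pow_one] at h7
        exact h7
      have h8 := gaussSum_mulShift χ ψ u
      rw [h6, one_mul] at h8
      rw [← h8]
      unfold gaussSum
      refine Finset.sum_congr rfl fun y _ => ?_
      rw [AddChar.mulShift_apply, hu, neg_mul, mul_comm]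
  rw [h1, Finset.sum_congr rfl fun y _ => by rw [card_AS p ψ hψ hF k y, Finset.sum_mul],
    Finset.sum_comm, Finset.sum_congr rfl h2, Finset.sum_ite, Finset.sum_const_zero, zero_add,
    Finset.sum_const, nsmul_eq_mul]
  congr 1
  have h9 : ((univ.filter fun c : L => c ^ (p ^ k) = c).filter fun c => ¬ c = 0) =
      (univ.filter fun c : L => c ^ (p ^ k) = c).erase 0 := by
    ext c
    simp only [Finset.mem_filter, Finset.mem_univ, true_and, Finset.mem_erase]
    tauto
  rw [h9, Finset.card_erase_of_mem, hk, Nat.cast_sub hQ, Nat.cast_pow, Nat.cast_one]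
  rw [Finset.mem_filter]
  exact ⟨Finset.mem_univ _, zero_pow hQ.ne'⟩

end Pool.SG
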