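import Pool.Agent.Lib.MP_a51fee_ag.SG.CsA

/-!
# SG-CsB: the character sum of the curve

`sum_curve`.  `q = |L|`, `Q = p^k`, `Q - 1 = w m`, `i m ≡ 1 (e)`.  `A(c) := ∑_s χ(s^Q - c s)`.
PROOF.
(1) `c ≠ 0` not of the form `d^(Q-1)`: `s ↦ s^Q - c s` is additive with trivial kernel, so bijective,
    `A(c) = ∑ χ = 0`.
(2) `A(d^(Q-1)) = χ(d)^Q A(1)`, `d ≠ 0` (substitute `s = d t`: `s^Q - d^(Q-1) s = d^Q (t^Q - t)`).
(3) `S := ∑_x χ(x^i (x^w - 1))`.  Let `u : ℕ` with `u m + Q ≡ 0 (e)` (so `u ≡ - Q i`).  For `t ≠ 0`, `s ≠ 0`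
    put `x = s^m / t`: `s^Q - t^w s = s t^w (x^w - 1)`, and
    `χ(t)^u χ(s^Q - t^w s) = χ(t)^(u+w) χ(s) χ(x^w - 1) = χ(s)^(m(u+w) + 1) χ(x)^(-(u+w)) χ(x^w-1)`
    with `m (u + w) + 1 = m u + Q ≡ 0 (e)` and `-(u + w) ≡ i (e)` (multiply by `m`:
    `- m u - m w ≡ Q - (Q - 1) = 1 ≡ i m`; `m` is prime to `e`).  So
    `∑_{t≠0} χ(t)^u A(t^w) = ∑_{s≠0} ∑_{x≠0} χ(x)^i χ(x^w - 1) = (q - 1) S` (for fixed `s`, `t ↔ x` is a
    bijection of `L^*`).
(4) If `A(t^w) ≠ 0` then `t^w = d^(Q-1)`; then `χ(t)^w = χ(d)^(Q-1)`; `w ≡ (Q-1) i (e)` and `Q - 1` prime to `e`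
    give `χ(t)^i = χ(d)`, so `χ(t)^u χ(d)^Q = χ(t)^(u + i Q) = 1` (`u + i Q ≡ 0 (e)`): the term is `A(1)`.
    Number of `t ≠ 0` with `t^w ∈ {d^(Q-1)}`: `L^*` is cyclic of order `q - 1`, `w ∣ Q - 1 ∣ q - 1`
    (`hQ`): the number is `w (q-1)/(Q-1)` (`|{d^(Q-1)}| = (q-1)/(Q-1)`, each is a `w`-th power with `w`
    roots).
(5) `(q-1) S = w (q-1)/(Q-1) A(1) = w (q - 1) gaussSum χ ψ` (`sum_AS`).
-/

set_option autoImplicit false

open Finset

namespace Pool.SG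

private theorem sum_units {L : Type} [Field L] [Fintype L] [DecidableEq L] (f : L → ℂ)
    (h0 : f 0 = 0) : ∑ x : L, f x = ∑ x : Lˣ, f (x : L) := by
  symm
  apply Finset.sum_of_injOn (fun x : Lˣ => (x : L))
  · intro x _ y _ h
    exact Units.ext h
  · intro x _
    exact Finset.mem_coe.2 (mem_univ _)
  · intro x _ hx
    by_cases h : x = 0
    · rw [h, h0]
    · exact absurd ⟨Units.mk0 x h, Finset.mem_coe.2 (mem_univ _), rfl⟩ hx
  · intro x _
    rfl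

private theorem term_eq {L : Type} [Field L] (χ : MulChar L ℂ) {e : ℕ} (he0 : 0 < e)
    (he : χ ^ e = 1) {i w m Q : ℕ} (hQ : 0 < Q) (hm : Q - 1 = w * m) (him : i * m ≡ 1 [MOD e])
    (r d : L) (hr : r ≠ 0) (hd : d ≠ 0) :
    χ ((r * d ^ m) ^ i * ((r * d ^ m) ^ w - 1)) =
      χ r ^ (i + w) * χ (d ^ Q - (r⁻¹) ^ w * d) := by
  have h1 : χ d ^ e = 1 := by
    have h := congrArg (fun ξ : MulChar L ℂ => ξ d) he
    rw [MulChar.pow_apply' _ he0.ne', MulChar.one_apply (isUnit_iff_ne_zero.2 hd)] at h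
    exact h
  have h2 : χ d ^ (i * m) = χ d := by
    have h := pow_eq_pow_of_modEq him h1
    rwa [pow_one] at h
  have h3 : d ^ Q = d ^ (w * m) * d := by
    rw [← pow_succ, ← hm, Nat.sub_add_cancel hQ]
  have h4 : r ^ w * (d ^ Q - (r⁻¹) ^ w * d) = d * ((r * d ^ m) ^ w - 1) := by
    have h5 : r ^ w * (r⁻¹) ^ w = 1 := by
      rw [← mul_pow, mul_inv_cancel₀ hr, one_pow]
    have h6 : (r * d ^ m) ^ w = r ^ w * d ^ (w * m) := by
      rw [mul_pow, ← pow_mul, mul_comm m w]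
    rw [h3, h6]
    linear_combination (-d) * h5
  have h7 : χ r ^ (i + w) * χ (d ^ Q - (r⁻¹) ^ w * d) =
      χ r ^ i * χ (r ^ w * (d ^ Q - (r⁻¹) ^ w * d)) := by
    rw [map_mul, map_pow, pow_add]
    ring
  rw [h7, h4, map_mul, map_mul, map_pow, map_mul, mul_pow, map_pow, ← pow_mul, mul_comm m i, h2]
  ring

private theorem root_is_pow {G : Type} [CommGroup G] [IsCyclic G] [Finite G] {w m : ℕ} (hw : 0 < w)
    (h : w * m ∣ Nat.card G) (z : G) (hz : z ^ w = 1) : ∃ y, y ^ m = z := by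
  obtain ⟨g, hg⟩ := IsCyclic.exists_generator (α := G)
  obtain ⟨j, rfl⟩ := (mem_powers_iff_mem_zpowers (x := g) (y := z)).2 (hg z)
  simp only at hz ⊢
  rw [← pow_mul, ← orderOf_dvd_iff_pow_eq_one, orderOf_eq_card_of_forall_mem_zpowers hg] at hz
  have h1 : w * m ∣ w * j := by
    rw [mul_comm w j]
    exact h.trans hz
  obtain ⟨c, rfl⟩ := Nat.dvd_of_mul_dvd_mul_left hw h1
  exact ⟨g ^ c, by rw [← pow_mul, mul_comm]⟩

theorem sum_curve {L : Type} [Field L] [Fintype L] [DecidableEq L] (p : ℕ) [Fact p.Prime]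
    (hp : p ≠ 2) [CharP L p] (ψ : AddChar L ℂ) (hψ : ψ.IsPrimitive) (hF : ∀ y, ψ (y ^ p) = ψ y)
    (k : ℕ) (hk0 : 0 < k) (hQ : p ^ k - 1 ∣ Fintype.card L - 1)
    (hk : (univ.filter fun c : L => c ^ (p ^ k) = c).card = p ^ k)
    (χ : MulChar L ℂ) (hχ : χ ≠ 1) (e : ℕ) (he0 : 0 < e) (he : χ ^ e = 1)
    (cop : Nat.Coprime e (p ^ k - 1)) (i w m : ℕ) (hi : 0 < i) (hw : 0 < w)
    (hm : p ^ k - 1 = w * m) (him : i * m ≡ 1 [MOD e]) :
    ∑ x : L, χ (x ^ i * (x ^ w - 1)) = w * gaussSum χ ψ := by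
  classical
  have hp1 : 1 < p := (Fact.out : p.Prime).one_lt
  have hQ1 : 1 < p ^ k := Nat.one_lt_pow hk0.ne' hp1
  have hQ0 : 0 < p ^ k := by omega
  have hm0 : 0 < m := by
    rcases Nat.eq_zero_or_pos m with h | h
    · rw [h, mul_zero] at hm
      omega
    · exact h
  have hcardU : Fintype.card Lˣ = Fintype.card L - 1 := Fintype.card_units L
  have hdiv : w * m ∣ Nat.card Lˣ := by
    rw [Nat.card_eq_fintype_card, hcardU, ← hm]
    exact hQ
  have hS : ∑ x : L, χ (x ^ i * (x ^ w - 1)) =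
      ∑ x : Lˣ, χ ((x : L) ^ i * ((x : L) ^ w - 1)) := by
    apply sum_units
    rw [zero_pow hi.ne', zero_mul, MulChar.map_zero]
  have hD : ∀ r : Lˣ, ∑ d : Lˣ, χ (((r : L) * (d : L) ^ m) ^ i * (((r : L) * (d : L) ^ m) ^ w - 1)) =
      χ (r : L) ^ (i + w) * ∑ s : L, χ (s ^ (p ^ k) - ((r : L)⁻¹) ^ w * s) := by
    intro r
    rw [sum_units (fun s : L => χ (s ^ (p ^ k) - ((r : L)⁻¹) ^ w * s))
      (by rw [zero_pow hQ0.ne', mul_zero, sub_zero, MulChar.map_zero]), Finset.mul_sum]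
    refine Finset.sum_congr rfl fun d _ => ?_
    exact term_eq χ he0 he hQ0 hm him r d r.ne_zero d.ne_zero
  have hA1 : ∑ s : L, χ (s ^ (p ^ k) - s) = ((p : ℂ) ^ k - 1) * gaussSum χ ψ :=
    sum_AS p hp ψ hψ hF k hk χ hχ e he cop
  have h1 : ∑ d : Lˣ, χ (((d : L) ^ m) ^ i * (((d : L) ^ m) ^ w - 1)) =
      ((p : ℂ) ^ k - 1) * gaussSum χ ψ := by
    have h := hD 1
    simp only [Units.val_one, one_mul, map_one, one_pow, inv_one] at h
    rw [h, hA1]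
  have hin : ∀ r : Lˣ, (∃ r0 : Lˣ, r0 ^ m = r) →
      ∑ d : Lˣ, χ (((r : L) * (d : L) ^ m) ^ i * (((r : L) * (d : L) ^ m) ^ w - 1)) =
        ((p : ℂ) ^ k - 1) * gaussSum χ ψ := by
    rintro _ ⟨r0, rfl⟩
    rw [← h1]
    refine Fintype.sum_equiv (Equiv.mulLeft r0) _ _ fun d => ?_
    simp only [Equiv.coe_mulLeft, Units.val_mul, Units.val_pow_eq_pow_val]
    rw [mul_pow (r0 : L) (d : L) m]
  have hout : ∀ r : Lˣ, (¬ ∃ r0 : Lˣ, r0 ^ m = r) →
      ∑ d : Lˣ, χ (((r : L) * (d : L) ^ m) ^ i * (((r : L) * (d : L) ^ m) ^ w - 1)) = 0 := by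
    intro r hr
    rw [hD r]
    have hinj : Function.Injective (fun s : L => s ^ (p ^ k) - ((r : L)⁻¹) ^ w * s) := by
      have hker : ∀ s : L, s ^ (p ^ k) - ((r : L)⁻¹) ^ w * s = 0 → s = 0 := by
        intro s hs
        by_contra hs0
        apply hr
        have h2 : s ^ (w * m) * s = ((r : L)⁻¹) ^ w * s := by
          rw [← pow_succ, ← hm, Nat.sub_add_cancel hQ0]
          exact sub_eq_zero.1 hs
        have h3 : s ^ (w * m) = ((r : L)⁻¹) ^ w := mul_right_cancel₀ hs0 h2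
        have h4 : (Units.mk0 s hs0 ^ m * r) ^ w = 1 := by
          apply Units.ext
          rw [Units.val_pow_eq_pow_val, Units.val_mul, Units.val_pow_eq_pow_val, Units.val_mk0,
            Units.val_one, mul_pow, ← pow_mul, mul_comm m w, h3, ← mul_pow,
            inv_mul_cancel₀ r.ne_zero, one_pow]
        obtain ⟨y, hy⟩ := root_is_pow hw hdiv _ h4
        refine ⟨y * (Units.mk0 s hs0)⁻¹, ?_⟩
        rw [mul_pow, hy, inv_pow]
        rw [mul_comm, inv_mul_cancel_left]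
      intro s t hst
      have h2 : (s - t) ^ (p ^ k) - ((r : L)⁻¹) ^ w * (s - t) = 0 := by
        rw [sub_pow_char_pow]
        simp only at hst
        linear_combination hst
      exact sub_eq_zero.1 (hker _ h2)
    have hbij : Function.Bijective (fun s : L => s ^ (p ^ k) - ((r : L)⁻¹) ^ w * s) :=
      Finite.injective_iff_bijective.1 hinj
    have h5 : ∑ s : L, χ (s ^ (p ^ k) - ((r : L)⁻¹) ^ w * s) = ∑ y : L, χ y :=
      Fintype.sum_bijective _ hbij _ _ fun s => rfl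
    rw [h5, MulChar.sum_eq_zero_of_ne_one hχ, mul_zero]
  have htot : ∑ r : Lˣ, ∑ d : Lˣ,
      χ (((r : L) * (d : L) ^ m) ^ i * (((r : L) * (d : L) ^ m) ^ w - 1)) =
      (Fintype.card Lˣ : ℂ) * ∑ x : L, χ (x ^ i * (x ^ w - 1)) := by
    rw [Finset.sum_comm, hS, ← nsmul_eq_mul, ← Finset.card_univ, ← Finset.sum_const]
    refine Finset.sum_congr rfl fun d _ => ?_
    refine Fintype.sum_equiv (Equiv.mulRight (d ^ m)) _ _ fun r => ?_
    simp only [Equiv.coe_mulRight, Units.val_mul, Units.val_pow_eq_pow_val]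
  have hcard : (univ.filter fun r : Lˣ => ∃ r0 : Lˣ, r0 ^ m = r).card * m = Fintype.card Lˣ := by
    have h2 := IsCyclic.card_powMonoidHom_range (G := Lˣ) m
    have h3 : Nat.card (powMonoidHom m : Lˣ →* Lˣ).range =
        (univ.filter fun r : Lˣ => ∃ r0 : Lˣ, r0 ^ m = r).card := by
      rw [Nat.card_eq_fintype_card]
      apply Fintype.card_of_subtype
      intro x
      simp [MonoidHom.mem_range]
    have h4 : m ∣ Nat.card Lˣ := (Dvd.intro_left w rfl).trans hdiv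
    rw [← h3, h2, Nat.gcd_eq_right h4, Nat.div_mul_cancel h4, Nat.card_eq_fintype_card]
  have hsplit : ∑ r : Lˣ, ∑ d : Lˣ,
      χ (((r : L) * (d : L) ^ m) ^ i * (((r : L) * (d : L) ^ m) ^ w - 1)) =
      ((univ.filter fun r : Lˣ => ∃ r0 : Lˣ, r0 ^ m = r).card : ℂ) *
        (((p : ℂ) ^ k - 1) * gaussSum χ ψ) := by
    rw [← nsmul_eq_mul, ← Finset.sum_const, Finset.sum_filter]
    refine Finset.sum_congr rfl fun r _ => ?_
    split_ifs with h
    · exact hin r h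
    · exact hout r h
  have hQm : ((p : ℂ) ^ k - 1) = (w : ℂ) * m := by
    have h2 : p ^ k = w * m + 1 := by omega
    have h3 : ((p ^ k : ℕ) : ℂ) = ((w * m + 1 : ℕ) : ℂ) := by rw [h2]
    push_cast at h3
    rw [h3]
    ring
  have hc0 : (Fintype.card Lˣ : ℂ) ≠ 0 := by
    exact_mod_cast Fintype.card_ne_zero
  apply mul_left_cancel₀ hc0
  rw [← htot, hsplit, hQm]
  have h6 : ((univ.filter fun r : Lˣ => ∃ r0 : Lˣ, r0 ^ m = r).card : ℂ) * m =
      (Fintype.card Lˣ : ℂ) := by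
    exact_mod_cast hcard
  rw [← h6]
  ring

end Pool.SG
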