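import Pool.Agent.Lib.MP_a51fee_ag.SG.CsA

/-!
# SG-CsC: pure Gauss sums (Stickelberger)

`|L| = r^2`, `r = p^m`, `e` odd, `e ∣ r + 1`, `χ^e = 1`, `χ ≠ 1`.  Then `gaussSum χ ψ = r`.
PROOF.  Let `U = {c ≠ 0 | c^r = c}` (`r - 1` elements: `x^r - x` splits as `r - 1 ∣ r^2 - 1`, i.e. `L^*` is
cyclic of order `r^2 - 1`).  `χ = 1` on `U`: `c = g^((r+1) j)`, `e ∣ r + 1`.
`(r - 1) G = ∑_{c ∈ U} ∑_y χ(c y) ψ(c y) = ∑_y χ(y) ∑_{c ∈ U} ψ(c y)`, and by `card_AS` (at `-y`)
`1 + ∑_{c ∈ U} ψ(c y) = #{s | s^r - s = -y}`, which is `r` if `y` is in the image `I` of the additive map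
`s ↦ s^r - s` and `0` otherwise (fibres are cosets of the kernel, which has `r` elements).
`I = {y | y^r = -y}`: `⊆` since `(s^r - s)^r = s^(r^2) - s^r = s - s^r`; both have `r` elements
(`|I| = r^2 / r`; the equation `y^r + y = 0` has at most `r` roots).
`χ(y) = 1` for `0 ≠ y ∈ I`: `y^(r-1) = -1`, so `y^2 ∈ U` (`(y^2)^(r-1) = 1`), `χ(y)^2 = 1`, and
`χ(y)^e = 1` with `e` odd.
So `(r - 1) G = ∑_y χ(y) (r [y ∈ I] - 1) = r (r - 1) - 0` (`∑_y χ(y) = 0`), `G = r`.
-/

set_option autoImplicit false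

open Finset

namespace Pool.SG

private theorem csC_root_sub {L : Type} [Field L] [Fintype L] [DecidableEq L] (r : ℕ) (hr : 1 < r) :
    (univ.filter fun c : L => c ^ r - c = 0).card ≤ r := by
  have hdeg : (Polynomial.X ^ r - Polynomial.X : Polynomial L).natDegree = r :=
    FiniteField.X_pow_card_sub_X_natDegree_eq L hr
  have hne : (Polynomial.X ^ r - Polynomial.X : Polynomial L) ≠ 0 := by
    intro h
    rw [h, Polynomial.natDegree_zero] at hdeg
    omega
  have h1 : (univ.filter fun c : L => c ^ r - c = 0) ⊆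
      (Polynomial.X ^ r - Polynomial.X : Polynomial L).roots.toFinset := by
    intro c hc
    rw [Multiset.mem_toFinset, Polynomial.mem_roots hne, Polynomial.IsRoot.def]
    simpa using (Finset.mem_filter.1 hc).2
  calc _ ≤ _ := Finset.card_le_card h1
    _ ≤ _ := Multiset.toFinset_card_le _
    _ ≤ _ := Polynomial.card_roots' _
    _ = r := hdeg

private theorem csC_root_add {L : Type} [Field L] [Fintype L] [DecidableEq L] (r : ℕ) (hr : 1 < r) :
    (univ.filter fun c : L => c ^ r = -c).card ≤ r := by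
  have hdeg : (Polynomial.X ^ r + Polynomial.X : Polynomial L).natDegree = r := by
    rw [Polynomial.natDegree_add_eq_left_of_natDegree_lt]
    · exact Polynomial.natDegree_X_pow r
    · rw [Polynomial.natDegree_X_pow, Polynomial.natDegree_X]
      exact hr
  have hne : (Polynomial.X ^ r + Polynomial.X : Polynomial L) ≠ 0 := by
    intro h
    rw [h, Polynomial.natDegree_zero] at hdeg
    omega
  have h1 : (univ.filter fun c : L => c ^ r = -c) ⊆
      (Polynomial.X ^ r + Polynomial.X : Polynomial L).roots.toFinset := by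
    intro c hc
    rw [Multiset.mem_toFinset, Polynomial.mem_roots hne, Polynomial.IsRoot.def]
    simp only [Polynomial.eval_add, Polynomial.eval_pow, Polynomial.eval_X]
    rw [(Finset.mem_filter.1 hc).2]
    ring
  calc _ ≤ _ := Finset.card_le_card h1
    _ ≤ _ := Multiset.toFinset_card_le _
    _ ≤ _ := Polynomial.card_roots' _
    _ = r := hdeg

private theorem csC_fib {L : Type} [Field L] [Fintype L] [DecidableEq L] (p : ℕ) [Fact p.Prime]
    [CharP L p] (m : ℕ) (s₀ : L) :
    (univ.filter fun s : L => s ^ (p ^ m) - s = s₀ ^ (p ^ m) - s₀).card =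
      (univ.filter fun s : L => s ^ (p ^ m) - s = 0).card := by
  refine Finset.card_bij (fun s _ => s - s₀) ?_ ?_ ?_
  · intro s hs
    rw [Finset.mem_filter] at hs ⊢
    refine ⟨Finset.mem_univ _, ?_⟩
    rw [sub_pow_char_pow]
    linear_combination hs.2
  · intro s _ t _ h
    exact sub_left_inj.1 h
  · intro t ht
    rw [Finset.mem_filter] at ht
    refine ⟨t + s₀, ?_, add_sub_cancel_right _ _⟩
    rw [Finset.mem_filter]
    refine ⟨Finset.mem_univ _, ?_⟩
    rw [add_pow_char_pow]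
    linear_combination ht.2

/-- `χ = 1` on the elements with `c ^ r = c` -/
private theorem csC_one {L : Type} [Field L] [Fintype L] (r : ℕ) (hr : 1 < r)
    (hL : Fintype.card L = r ^ 2) (e : ℕ) (he : e ∣ r + 1) (χ : MulChar L ℂ) (hχe : χ ^ e = 1)
    {c : L} (hc0 : c ≠ 0) (hc : c ^ r = c) : χ c = 1 := by
  classical
  obtain ⟨g, hg⟩ := IsCyclic.exists_generator (α := Lˣ)
  obtain ⟨j, hj⟩ := (mem_powers_iff_mem_zpowers (x := g) (y := Units.mk0 c hc0)).2 (hg _)
  have hord : orderOf g = (r - 1) * (r + 1) := by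
    rw [orderOf_eq_card_of_forall_mem_zpowers hg, Nat.card_eq_fintype_card, Fintype.card_units, hL]
    obtain ⟨k, rfl⟩ := Nat.exists_eq_add_of_lt hr
    have h1 : 1 + k + 1 - 1 = 1 + k := by omega
    rw [h1]
    have h2 : (1 + k + 1) ^ 2 = (1 + k) * (1 + k + 1 + 1) + 1 := by ring
    rw [h2, Nat.add_sub_cancel]
  have hcr : (Units.mk0 c hc0) ^ (r - 1) = 1 := by
    apply Units.ext
    rw [Units.val_pow_eq_pow_val, Units.val_mk0, Units.val_one]
    have h3 : c ^ (r - 1) * c = 1 * c := by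
      rw [← pow_succ, Nat.sub_add_cancel (by omega), hc, one_mul]
    exact mul_right_cancel₀ hc0 h3
  have hj' : g ^ j = Units.mk0 c hc0 := hj
  rw [← hj', ← pow_mul] at hcr
  have hdvd := orderOf_dvd_of_pow_eq_one hcr
  rw [hord, mul_comm j] at hdvd
  have hdvd2 : r + 1 ∣ j := Nat.dvd_of_mul_dvd_mul_left (by omega) hdvd
  obtain ⟨i, hi⟩ := he.trans hdvd2
  have h4 : χ ((Units.mk0 c hc0 : Lˣ) : L) = 1 := by
    rw [← hj', hi, pow_mul, Units.val_pow_eq_pow_val, Units.val_pow_eq_pow_val, map_pow, map_pow,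
      ← MulChar.pow_apply_coe, hχe, MulChar.one_apply_coe, one_pow]
  simpa using h4

theorem gauss_odd {L : Type} [Field L] [Fintype L] [DecidableEq L] (p : ℕ) [Fact p.Prime]
    (hp : p ≠ 2) [CharP L p] (ψ : AddChar L ℂ) (hψ : ψ.IsPrimitive) (hF : ∀ y, ψ (y ^ p) = ψ y)
    (m : ℕ) (hm : 0 < m) (hL : Fintype.card L = (p ^ m) ^ 2) (e : ℕ) (hodd : Odd e)
    (he : e ∣ p ^ m + 1) (χ : MulChar L ℂ) (hχ : χ ≠ 1) (hχe : χ ^ e = 1) :
    gaussSum χ ψ = (p : ℂ) ^ m := by
  have hpp : p.Prime := Fact.out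
  have hr : 1 < p ^ m := Nat.one_lt_pow hm.ne' hpp.one_lt
  -- the kernel, the image
  set N : L → ℕ := fun y => (univ.filter fun s : L => s ^ (p ^ m) - s = y).card with hN
  set W : Finset L := univ.filter fun y : L => y ^ (p ^ m) = -y with hW
  set I : Finset L := univ.image fun s : L => s ^ (p ^ m) - s with hI
  have hIW : I ⊆ W := by
    intro y hy
    rw [hI, Finset.mem_image] at hy
    obtain ⟨s, -, rfl⟩ := hy
    rw [hW, Finset.mem_filter]
    refine ⟨Finset.mem_univ _, ?_⟩
    have h1 : (s ^ (p ^ m)) ^ (p ^ m) = s := by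
      rw [← pow_mul, ← pow_two, ← hL]
      exact FiniteField.pow_card s
    rw [sub_pow_char_pow, h1]
    ring
  have hN0 : N 0 ≤ p ^ m := csC_root_sub _ hr
  have hWr : W.card ≤ p ^ m := csC_root_add _ hr
  have hIc : I.card ≤ p ^ m := (Finset.card_le_card hIW).trans hWr
  have hfib : ∀ y ∈ I, N y = N 0 := by
    intro y hy
    rw [hI, Finset.mem_image] at hy
    obtain ⟨s, -, rfl⟩ := hy
    exact csC_fib p m s
  have hout : ∀ y, y ∉ I → N y = 0 := by
    intro y hy
    rw [hN]
    simp only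
    rw [Finset.card_eq_zero, Finset.filter_eq_empty_iff]
    intro s _ hs
    exact hy (Finset.mem_image.2 ⟨s, Finset.mem_univ _, hs⟩)
  have hcard : (p ^ m) ^ 2 = I.card * N 0 := by
    rw [← hL, ← Finset.card_univ, Finset.card_eq_sum_card_image (fun s : L => s ^ (p ^ m) - s) univ,
      ← smul_eq_mul, ← Finset.sum_const]
    exact Finset.sum_congr rfl fun y hy => hfib y hy
  have hN0r : N 0 = p ^ m := by
    apply le_antisymm hN0
    by_contra hcon
    push Not at hcon
    have h1 : I.card * N 0 < p ^ m * p ^ m :=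
      lt_of_le_of_lt (Nat.mul_le_mul_right _ hIc) ((Nat.mul_lt_mul_left (by omega)).2 hcon)
    rw [← hcard, pow_two] at h1
    exact lt_irrefl _ h1
  have hIr : I.card = p ^ m := by
    rw [hN0r, pow_two] at hcard
    exact (Nat.eq_of_mul_eq_mul_right (by omega) hcard).symm
  have hIWeq : I = W := Finset.eq_of_subset_of_card_le hIW (by rw [hIr]; exact hWr)
  -- values of the character
  have hU : ∀ c : L, c ≠ 0 → c ^ (p ^ m) = c → χ c = 1 := fun c hc0 hc =>
    csC_one (p ^ m) hr hL e he χ hχe hc0 hc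
  have hχW : ∀ y ∈ W, y ≠ 0 → χ y = 1 := by
    intro y hy hy0
    rw [hW, Finset.mem_filter] at hy
    have h1 : (y ^ 2) ^ (p ^ m) = y ^ 2 := by
      rw [← pow_mul, mul_comm, pow_mul, hy.2]
      ring
    have h2 : χ y ^ 2 = 1 := by
      rw [← map_pow]
      exact hU _ (pow_ne_zero 2 hy0) h1
    have h3 : χ y ^ e = 1 := by
      have h4 : (χ ^ e) ((Units.mk0 y hy0 : Lˣ) : L) = 1 := by
        rw [hχe, MulChar.one_apply_coe]
      rw [MulChar.pow_apply_coe] at h4
      simpa using h4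
    have h5 := pow_gcd_eq_one.2 ⟨h3, h2⟩
    have h6 : Nat.gcd e 2 = 1 := Nat.Coprime.symm (Nat.coprime_two_left.2 hodd)
    rw [h6, pow_one] at h5
    exact h5
  -- the double sum
  set U : Finset L := univ.filter fun c : L => c ^ (p ^ m) = c with hUdef
  have hUcard : U.card = p ^ m := by
    rw [← hN0r, hN, hUdef]
    simp only
    congr 1
    ext c
    simp only [Finset.mem_filter, Finset.mem_univ, true_and, sub_eq_zero]
  have hS1 : ∑ y : L, χ y * ∑ c ∈ U, ψ (c * y) = ((p : ℂ) ^ m - 1) * gaussSum χ ψ := by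
    simp_rw [Finset.mul_sum]
    rw [Finset.sum_comm]
    have h0U : (0 : L) ∈ U := by
      rw [hUdef, Finset.mem_filter]
      exact ⟨Finset.mem_univ _, zero_pow (by omega)⟩
    rw [← Finset.add_sum_erase U _ h0U]
    have h1 : ∑ y : L, χ y * ψ (0 * y) = 0 := by
      simp only [zero_mul, AddChar.map_zero_eq_one, mul_one]
      exact MulChar.sum_eq_zero_of_ne_one hχ
    have h2 : ∀ c ∈ U.erase 0, ∑ y : L, χ y * ψ (c * y) = gaussSum χ ψ := by
      intro c hc
      rw [Finset.mem_erase, hUdef, Finset.mem_filter] at hc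
      obtain ⟨hc0, -, hc⟩ := hc
      let u : Lˣ := Units.mk0 c hc0
      have hu : (u : L) = c := rfl
      have h8 := gaussSum_mulShift χ ψ u
      rw [hu, hU c hc0 hc, one_mul] at h8
      rw [← h8]
      unfold gaussSum
      refine Finset.sum_congr rfl fun y _ => ?_
      rw [AddChar.mulShift_apply]
    rw [h1, zero_add, Finset.sum_congr rfl h2, Finset.sum_const, Finset.card_erase_of_mem h0U,
      hUcard, nsmul_eq_mul, Nat.cast_sub (by omega), Nat.cast_pow, Nat.cast_one]
  have hS2 : ∑ y : L, χ y * ∑ c ∈ U, ψ (c * y) = ((p : ℂ) ^ m) * ((p : ℂ) ^ m - 1) := by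
    have h1 : ∀ y : L, χ y * ∑ c ∈ U, ψ (c * y) =
        if y ∈ W.erase 0 then (p : ℂ) ^ m else 0 := by
      intro y
      have h2 := card_AS p ψ hψ hF m (-y)
      have h3 : ∑ c ∈ U, ψ (c * y) = (N (-y) : ℂ) := by
        rw [hN]
        simp only
        rw [h2]
        refine Finset.sum_congr rfl fun c _ => ?_
        rw [mul_neg, neg_neg]
      rw [h3]
      by_cases hy0 : y = 0
      · rw [hy0, MulChar.map_zero, zero_mul, if_neg]
        exact Finset.notMem_erase _ _
      by_cases hyW : y ∈ W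
      · rw [if_pos (Finset.mem_erase.2 ⟨hy0, hyW⟩), hχW y hyW hy0, one_mul, hfib, hN0r, Nat.cast_pow]
        rw [hIWeq, hW, Finset.mem_filter]
        rw [hW, Finset.mem_filter] at hyW
        refine ⟨Finset.mem_univ _, ?_⟩
        have hpodd : Odd (p ^ m) := (hpp.odd_of_ne_two hp).pow
        rw [hpodd.neg_pow, hyW.2]
      · rw [if_neg (fun h => hyW (Finset.mem_of_mem_erase h)), hout, Nat.cast_zero, mul_zero]
        intro h
        apply hyW
        rw [hIWeq, hW, Finset.mem_filter] at h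
        rw [hW, Finset.mem_filter]
        refine ⟨Finset.mem_univ _, ?_⟩
        have hpodd : Odd (p ^ m) := (hpp.odd_of_ne_two hp).pow
        have h4 := h.2
        rw [hpodd.neg_pow, neg_neg] at h4
        exact neg_eq_iff_eq_neg.1 h4
    rw [Finset.sum_congr rfl fun y _ => h1 y, Finset.sum_ite_mem, Finset.univ_inter, Finset.sum_const,
      Finset.card_erase_of_mem, ← hIWeq, hIr, nsmul_eq_mul, Nat.cast_sub (by omega), Nat.cast_pow,
      Nat.cast_one]
    · ring
    · rw [hW, Finset.mem_filter]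
      exact ⟨Finset.mem_univ _, by rw [neg_zero]; exact zero_pow (by omega)⟩
  rw [hS1] at hS2
  have hne : (p : ℂ) ^ m - 1 ≠ 0 := by
    rw [sub_ne_zero]
    intro h
    have h1 : ((p ^ m : ℕ) : ℂ) = ((1 : ℕ) : ℂ) := by
      rw [Nat.cast_pow, h, Nat.cast_one]
    have h2 : p ^ m = 1 := by exact_mod_cast h1
    omega
  rw [mul_comm ((p : ℂ) ^ m)] at hS2
  exact mul_left_cancel₀ hne hS2

end Pool.SG
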