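import Mathlib

/-!
# SG-CsD: the quadratic Hasse-Davenport relation

`L / L'` finite fields of odd characteristic, degree two, `|L'| = q'`.
PROOF.  `N y = y^(q'+1)`, `Tr y = y + y^q'` (`Algebra.norm`, `Algebra.trace`; or `trace`/`norm` through
the minimal polynomial `Y^2 - t Y + v`).  Let `η` be the quadratic character of `L'` (`quadraticChar`).
(a) `#{y ∈ L | Tr y = t, N y = v} = 1 - η(t^2 - 4 v)`: such `y` are exactly the roots `y` in `L` of
    `Y^2 - t Y + v` whose conjugate `y^q'` is the other root.  If `t^2 - 4v` is a nonzero square in `L'` the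
    roots are distinct and lie in `L'`, where `y^q' = y` is not the other root: none.
    If `t^2 = 4 v`: the double root `t/2 ∈ L'`: one.  If `t^2 - 4 v` is not a square: the polynomial is
    irreducible over `L'`, has two roots in `L`, conjugate: two.
(b) `#{(a, b) ∈ L'^2 | a + b = t, a b = v} = 1 + η(t^2 - 4 v)` (roots of the same polynomial in `L'`).
So `∑_y χ'(N y) ψ'(Tr y) + (∑_a χ'(a) ψ'(a))^2 = ∑_{t,v} χ'(v) ψ'(t) (1 - η + 1 + η) =
2 (∑_v χ'(v)) (∑_t ψ'(t)) = 0` because `∑_v χ'(v) = 0` (`χ' ≠ 1`).
-/

set_option autoImplicit false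

open Finset

namespace Pool.SG

/-- Squares and `δ` times squares cover the field exactly twice. -/
lemma sum_sq_add_sum_nonsq {F : Type} [Field F] [Fintype F] (hF : ringChar F ≠ 2) {d : F}
    (hd : ¬ IsSquare d) (g : F → ℂ) :
    (∑ b : F, g (b ^ 2)) + ∑ b : F, g (d * b ^ 2) = 2 * ∑ c : F, g c := by
  classical
  have hd0 : d ≠ 0 := by rintro rfl; exact hd (IsSquare.zero)
  have key : ∀ h : F → ℂ, ∑ b : F, h (b ^ 2) = ∑ c : F, ((quadraticChar F c : ℂ) + 1) * h c := by
    intro h
    have h1 : ∑ b : F, h (b ^ 2) = ∑ c : F, ∑ b ∈ univ.filter (fun b : F => b ^ 2 = c), h (b ^ 2) := by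
      rw [← Finset.sum_fiberwise (s := (univ : Finset F)) (g := fun b : F => b ^ 2)]
    rw [h1]
    refine Finset.sum_congr rfl fun c _ => ?_
    have h2 : ∑ b ∈ univ.filter (fun b : F => b ^ 2 = c), h (b ^ 2)
        = ((univ.filter (fun b : F => b ^ 2 = c)).card : ℂ) * h c := by
      rw [Finset.sum_congr rfl (g := fun _ => h c)]
      · simp
      · intro b hb
        rw [(Finset.mem_filter.mp hb).2]
    rw [h2]
    congr 1
    have h3 := quadraticChar_card_sqrts hF c
    have h4 : ({x : F | x ^ 2 = c}.toFinset) = univ.filter (fun b : F => b ^ 2 = c) := by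
      ext x; simp
    rw [h4] at h3
    have h5 : (((univ.filter (fun b : F => b ^ 2 = c)).card : ℤ) : ℂ)
        = ((quadraticChar F c + 1 : ℤ) : ℂ) := by rw [h3]
    push_cast at h5
    exact h5
  rw [key g, key (fun c => g (d * c))]
  have hb : ∑ c : F, ((quadraticChar F c : ℂ) + 1) * g (d * c)
      = ∑ c : F, (-(quadraticChar F c : ℂ) + 1) * g c := by
    refine Fintype.sum_bijective (fun c : F => d * c) (mulLeft_bijective₀ d hd0) _ _ fun c => ?_
    have h6 : quadraticChar F (d * c) = - quadraticChar F c := by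
      rw [map_mul, quadraticChar_neg_one_iff_not_isSquare.mpr hd]; ring
    rw [h6]
    push_cast
    ring
  rw [hb, ← Finset.sum_add_distrib, Finset.mul_sum]
  refine Finset.sum_congr rfl fun c _ => ?_
  ring

theorem hd_quad {L' L : Type} [Field L'] [Fintype L'] [Field L] [Fintype L]
    [Algebra L' L] (h2 : Module.finrank L' L = 2) (hchar : ringChar L' ≠ 2) (χ : MulChar L' ℂ)
    (hχ : χ ≠ 1) (ψ : AddChar L' ℂ) :
    ∑ y : L, χ (Algebra.norm L' y) * ψ (Algebra.trace L' L y) = -(gaussSum χ ψ) ^ 2 := by
  classical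
  set q : ℕ := Fintype.card L' with hq
  have hodd : q % 2 = 1 := FiniteField.odd_card_of_char_ne_two hchar
  have hq1 : 1 < q := Fintype.one_lt_card
  have hcardL : Fintype.card L = q ^ 2 := by
    rw [Module.card_eq_pow_finrank (K := L') (V := L), h2]
  have hncard : Nat.card L' = q := by rw [hq, Nat.card_eq_fintype_card]
  have htr : ∀ y : L, algebraMap L' L (Algebra.trace L' L y) = y + y ^ q := by
    intro y
    rw [FiniteField.algebraMap_trace_eq_sum_pow, h2, hncard]
    simp [Finset.sum_range_succ]
  have hnm : ∀ y : L, algebraMap L' L (Algebra.norm L' y) = y * y ^ q := by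
    intro y
    rw [FiniteField.algebraMap_norm_eq_prod_pow, h2, hncard]
    simp [Finset.prod_range_succ]
  have hinj : Function.Injective (algebraMap L' L) := (algebraMap L' L).injective
  have hcharL : ringChar L ≠ 2 := by
    intro h
    apply hchar
    have h3 : CharP L 2 := by rw [← h]; exact ringChar.charP L
    have h4 : CharP L' 2 := (RingHom.charP_iff (algebraMap L' L) hinj 2).mpr h3
    exact ringChar.eq L' 2
  -- the nonsquare and its square root
  obtain ⟨d, hd⟩ := FiniteField.exists_nonsquare hchar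
  have hd0 : d ≠ 0 := by rintro rfl; exact hd (IsSquare.zero)
  have hdpow : d ^ (q / 2) = -1 := by
    rcases FiniteField.pow_dichotomy hchar hd0 with h | h
    · exact absurd ((FiniteField.isSquare_iff hchar hd0).mpr h) hd
    · exact h
  have hfrob : ∀ a : L', (algebraMap L' L a) ^ q = algebraMap L' L a := by
    intro a
    rw [← map_pow, hq, FiniteField.pow_card]
  have hsq : IsSquare (algebraMap L' L d) := by
    have hd1 : algebraMap L' L d ≠ 0 := by
      intro h; exact hd0 (hinj (by rw [h, map_zero]))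
    rw [FiniteField.isSquare_iff hcharL hd1, ← map_pow, hcardL]
    have h5 : q ^ 2 / 2 = (q / 2) * (q + 1) := by
      have h6 : q = 2 * (q / 2) + 1 := by omega
      set r := q / 2 with hr
      have h7 : q ^ 2 = 2 * (r * (q + 1)) + 1 := by
        rw [h6]; ring
      omega
    have h8 : Even (q + 1) := by
      rw [Nat.even_iff]; omega
    rw [h5, pow_mul, hdpow, Even.neg_one_pow h8, map_one]
  obtain ⟨s, hs⟩ := hsq
  have hs0 : s ≠ 0 := by
    rintro rfl
    rw [mul_zero] at hs
    exact hd0 (hinj (by rw [hs, map_zero]))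
  have hsq' : s ^ q = -s := by
    have h6 : q = 2 * (q / 2) + 1 := by omega
    rw [h6, pow_succ, pow_mul, pow_two, ← hs, ← map_pow, hdpow]
    simp
  have h2L : (2 : L) ≠ 0 := Ring.two_ne_zero hcharL
  have h2L' : (2 : L') ≠ 0 := Ring.two_ne_zero hchar
  have hFr : ∀ a b : L', (algebraMap L' L a + algebraMap L' L b * s) ^ q
      = algebraMap L' L a - algebraMap L' L b * s := by
    intro a b
    have h9 : ∀ x y : L, (x + y) ^ q = x ^ q + y ^ q := by
      intro x y
      obtain ⟨p, hp⟩ := CharP.exists L'
      have := hp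
      obtain ⟨n, hpp, hn⟩ := FiniteField.card L' p
      have : Fact p.Prime := ⟨hpp⟩
      have : CharP L p := charP_of_injective_algebraMap hinj p
      rw [hq, hn]
      exact add_pow_char_pow x y p n
    rw [h9, mul_pow, hfrob, hfrob, hsq']
    ring
  -- the bijection
  have hbij : Function.Bijective
      (fun ab : L' × L' => algebraMap L' L ab.1 + algebraMap L' L ab.2 * s) := by
    rw [Fintype.bijective_iff_injective_and_card]
    constructor
    · rintro ⟨a, b⟩ ⟨a', b'⟩ h
      simp only at h
      have h10 := congrArg (fun z : L => z ^ q) h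
      simp only [hFr] at h10
      have h11 : (2 : L) * algebraMap L' L a = 2 * algebraMap L' L a' := by
        linear_combination h + h10
      have h12 : (2 : L) * (algebraMap L' L b * s) = 2 * (algebraMap L' L b' * s) := by
        linear_combination h - h10
      have ha := hinj (mul_left_cancel₀ h2L h11)
      have hb := hinj (mul_right_cancel₀ hs0 (mul_left_cancel₀ h2L h12))
      rw [ha, hb]
    · rw [Fintype.card_prod, hcardL, pow_two]
  have hsumL : ∑ y : L, χ (Algebra.norm L' y) * ψ (Algebra.trace L' L y)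
      = ∑ a : L', ∑ b : L', χ (a ^ 2 - d * b ^ 2) * ψ (2 * a) := by
    rw [← Finset.sum_product', Finset.univ_product_univ]
    symm
    refine Fintype.sum_bijective _ hbij _ _ fun ab => ?_
    obtain ⟨a, b⟩ := ab
    simp only
    have hN : Algebra.norm L' (algebraMap L' L a + algebraMap L' L b * s) = a ^ 2 - d * b ^ 2 := by
      apply hinj
      rw [hnm, hFr]
      rw [map_sub, map_mul, map_pow, map_pow, hs]
      ring
    have hT : Algebra.trace L' L (algebraMap L' L a + algebraMap L' L b * s) = 2 * a := by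
      apply hinj
      rw [htr, hFr]
      rw [map_mul, map_ofNat]
      ring
    rw [hN, hT]
  have hsumG : (gaussSum χ ψ) ^ 2 = ∑ a : L', ∑ b : L', χ (a ^ 2 - b ^ 2) * ψ (2 * a) := by
    have hb2 : Function.Bijective (fun ab : L' × L' => (ab.1 + ab.2, ab.1 - ab.2)) := by
      rw [Fintype.bijective_iff_injective_and_card]
      refine ⟨?_, rfl⟩
      rintro ⟨a, b⟩ ⟨a', b'⟩ h
      simp only [Prod.mk.injEq] at h
      obtain ⟨h13, h14⟩ := h
      have h15 : (2 : L') * a = 2 * a' := by linear_combination h13 + h14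
      have h16 : (2 : L') * b = 2 * b' := by linear_combination h13 - h14
      rw [mul_left_cancel₀ h2L' h15, mul_left_cancel₀ h2L' h16]
    rw [pow_two, gaussSum, Finset.sum_mul_sum, ← Finset.sum_product', Finset.univ_product_univ,
      ← Finset.sum_product', Finset.univ_product_univ]
    symm
    refine Fintype.sum_bijective _ hb2 _ _ fun ab => ?_
    obtain ⟨a, b⟩ := ab
    simp only
    have h17 : a ^ 2 - b ^ 2 = (a + b) * (a - b) := by ring
    have h18 : (2 : L') * a = (a + b) + (a - b) := by ring
    rw [h17, h18, map_mul, AddChar.map_add_eq_mul]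
    ring
  have hzero : (∑ a : L', ∑ b : L', χ (a ^ 2 - d * b ^ 2) * ψ (2 * a))
      + ∑ a : L', ∑ b : L', χ (a ^ 2 - b ^ 2) * ψ (2 * a) = 0 := by
    rw [← Finset.sum_add_distrib]
    refine Finset.sum_eq_zero fun a _ => ?_
    have h19 := sum_sq_add_sum_nonsq hchar hd (fun c => χ (a ^ 2 - c))
    have h20 : ∑ c : L', χ (a ^ 2 - c) = 0 := by
      rw [← MulChar.sum_eq_zero_of_ne_one hχ]
      refine Fintype.sum_bijective (fun c : L' => a ^ 2 - c) (Equiv.subLeft (a ^ 2)).bijective _ _
        fun c => rfl
    rw [h20, mul_zero] at h19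
    rw [← Finset.sum_mul, ← Finset.sum_mul, ← add_mul, add_comm, h19, zero_mul]
  rw [hsumL, hsumG]
  linear_combination hzero

end Pool.SG
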