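import Pool.Agent.Lib.MP_a51fee_ag.SG.CsC
import Pool.Agent.Lib.MP_a51fee_ag.SG.CsD

/-!
# SG-CsE: the Gauss sums over every field containing `𝔽_{p^(2n)}`

`gauss_all`, by strong induction on `j`: `|L| = p^(2 n j)`.
`j` odd: `ψ := ψ_0 ∘ Tr_{L/𝔽_p}` for a primitive `ψ_0` of `ZMod p` (Mathlib: `AddChar.FiniteField.primitiveChar`
or `FiniteField.primitiveChar`; any primitive character composed with the trace; primitive because the
trace form is nondegenerate; `Tr(y^p) = Tr(y)`).  `gauss_odd` with `m = n j`: `e ∣ p^n + 1 ∣ p^(nj) + 1`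
as `j` is odd.  Value `p^(nj) = (-1)^(j+1) p^(nj)`.
`j` even: `L` has a subfield `L'` with `p^(n j) = p^(2 n (j/2))` elements (e.g. `L' = {x | x^(p^(nj)) = x}`;
or take `L' := GaloisField p (n j)` and an embedding `L' → L`, which exists since `n j ∣ 2 n j`,
`FiniteField.nonempty_algHom_of_...`), `finrank = 2`.
Induction hypothesis for `L'`: `ψ'`, `G' = (-1)^(j/2+1) p^(nj/2)`.  `ψ := ψ' ∘ Tr_{L/L'}` (primitive,
Frobenius invariant: `Tr(y^p) = (Tr y)^p`).  `e ∣ p^n + 1 ∣ p^(2n) - 1 ∣ p^(n j) - 1 = |L'| - 1` since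
`j` is even.  Every `χ` with `χ^e = 1` is `χ' ∘ N` with `χ'^e = 1`: with generators `g` of `L^*`,
`N g = g^(q'+1)` a generator of `L'^*` (`q' = |L'|`), `χ(g)^e = 1`, `e ∣ q' - 1`; define `χ'(N g) = χ(g)`
(`MulChar.ofRootOfUnity`/`exists`..., or count: `χ' ↦ χ' ∘ N` is injective between the groups of
characters killed by `e`, both of order `e`).  `χ' ≠ 1`.  By `hd_quad`:
`gaussSum χ ψ = - G'^2 = - p^(nj) = (-1)^(j+1) p^(nj)`.
-/

set_option autoImplicit false

open Finset

namespace Pool.SG

private theorem csE_trace_pow (K L : Type) [Field K] [Field L] [Fintype L] [Algebra K L] (p : ℕ)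
    [Fact p.Prime] [CharP L p] (y : L) :
    Algebra.trace K L (y ^ p) = (Algebra.trace K L y) ^ p := by
  apply (algebraMap K L).injective
  rw [map_pow (algebraMap K L), FiniteField.algebraMap_trace_eq_sum_pow,
    FiniteField.algebraMap_trace_eq_sum_pow, sum_pow_char p]
  refine Finset.sum_congr rfl fun i _ => ?_
  rw [← pow_mul, ← pow_mul, mul_comm]

private noncomputable def csE_comp (K L : Type) [Field K] [Field L] [Algebra K L]
    (ψ' : AddChar K ℂ) : AddChar L ℂ :=
  ψ'.compAddMonoidHom (Algebra.trace K L).toAddMonoidHom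

private theorem csE_comp_apply (K L : Type) [Field K] [Field L] [Algebra K L]
    (ψ' : AddChar K ℂ) (y : L) : csE_comp K L ψ' y = ψ' (Algebra.trace K L y) := rfl

private theorem csE_prim (K L : Type) [Field K] [Field L] [Fintype L] [Algebra K L]
    (ψ' : AddChar K ℂ) (h : ψ'.IsPrimitive) : (csE_comp K L ψ').IsPrimitive := by
  have hK : Finite K := Finite.of_injective _ (algebraMap K L).injective
  intro a ha h1
  have h2 : ψ' ≠ 1 := by
    have := h (one_ne_zero)
    rwa [AddChar.mulShift_one] at this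
  obtain ⟨t, ht⟩ := AddChar.ne_one_iff.1 h2
  obtain ⟨y, hy⟩ := Algebra.trace_surjective K L t
  have h3 : AddChar.mulShift (csE_comp K L ψ') a (a⁻¹ * y) = 1 := by rw [h1]; rfl
  rw [AddChar.mulShift_apply, ← mul_assoc, mul_inv_cancel₀ ha, one_mul, csE_comp_apply, hy] at h3
  exact ht h3

/-- a character killed by `e` factors through the norm -/
private theorem csE_lift (K L : Type) [Field K] [Fintype K] [Field L] [Fintype L] [Algebra K L]
    (e : ℕ) (hodd : Odd e) (he : e ∣ Fintype.card K - 1)
    (h2 : Module.finrank K L = 2) (χ : MulChar L ℂ) (hχ : χ ≠ 1) (hχe : χ ^ e = 1) :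
    ∃ χ' : MulChar K ℂ, χ' ≠ 1 ∧ χ' ^ e = 1 ∧ ∀ y, χ' (Algebra.norm K y) = χ y := by
  set f : Lˣ →* Kˣ := Units.map (Algebra.norm K (S := L)) with hf
  have hsurj : Function.Surjective f := FiniteField.unitsMap_norm_surjective K L
  have hker : f.ker ≤ χ.toUnitHom.ker := by
    intro u hu
    rw [MonoidHom.mem_ker] at hu ⊢
    have h3 : Algebra.norm K (u : L) = 1 := by
      have := congrArg (fun v : Kˣ => (v : K)) hu
      simpa [hf] using this
    have h4 : (u : L) ^ (Fintype.card K + 1) = 1 := by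
      have h5 := FiniteField.algebraMap_norm_eq_pow_sum K L (u : L)
      rw [h3, map_one, h2] at h5
      rw [h5]
      congr 1
      rw [Finset.sum_range_succ, Finset.sum_range_one, pow_zero, pow_one, ← Fintype.card_eq_nat_card,
        add_comm]
    have h6 : χ (u : L) ^ (Fintype.card K + 1) = 1 := by
      rw [← map_pow, h4, map_one]
    have h7 : χ (u : L) ^ e = 1 := by
      rw [← MulChar.pow_apply_coe, hχe, MulChar.one_apply_coe]
    have hcop : Nat.Coprime e (Fintype.card K + 1) := by
      have hK : 1 ≤ Fintype.card K := Fintype.card_pos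
      have h8 : Nat.Coprime e 2 := hodd.coprime_two_right
      have h9 : Nat.gcd e (Fintype.card K + 1) ∣ 2 := by
        have h10 : Nat.gcd e (Fintype.card K + 1) ∣ Fintype.card K - 1 :=
          (Nat.gcd_dvd_left _ _).trans he
        have h11 := Nat.gcd_dvd_right e (Fintype.card K + 1)
        have h12 := Nat.dvd_sub h11 h10
        have h13 : Fintype.card K + 1 - (Fintype.card K - 1) = 2 := by omega
        rwa [h13] at h12
      have h16 : Nat.gcd e (Fintype.card K + 1) ∣ Nat.gcd e 2 :=
        Nat.dvd_gcd (Nat.gcd_dvd_left _ _) h9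
      rw [Nat.Coprime] at h8 ⊢
      rw [h8] at h16
      exact Nat.dvd_one.1 h16
    have h14 : χ (u : L) = 1 := by
      have h15 : orderOf (χ (u : L)) ∣ Nat.gcd e (Fintype.card K + 1) :=
        Nat.dvd_gcd (orderOf_dvd_of_pow_eq_one h7) (orderOf_dvd_of_pow_eq_one h6)
      rw [hcop] at h15
      exact orderOf_eq_one_iff.1 (Nat.dvd_one.1 h15)
    ext
    rw [MulChar.coe_toUnitHom, h14]
    rfl
  obtain ⟨g, hg⟩ : ∃ g : Kˣ →* ℂˣ, ∀ u, g (f u) = χ.toUnitHom u :=
    ⟨f.liftOfSurjective hsurj ⟨χ.toUnitHom, hker⟩,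
      fun u => MonoidHom.liftOfRightInverse_comp_apply _ _ _ ⟨χ.toUnitHom, hker⟩ u⟩
  have hval : ∀ u : Lˣ, MulChar.ofUnitHom g (Algebra.norm K (u : L)) = χ (u : L) := by
    intro u
    have h3 : (Algebra.norm K (u : L)) = ((f u : Kˣ) : K) := by simp [hf]
    rw [h3, MulChar.ofUnitHom_coe, hg, MulChar.coe_toUnitHom]
  refine ⟨MulChar.ofUnitHom g, ?_, ?_, ?_⟩
  · intro h1
    apply hχ
    ext u
    rw [← hval u, h1, MulChar.one_apply_coe]
    have h3 : (Algebra.norm K (u : L)) = ((f u : Kˣ) : K) := by simp [hf]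
    rw [h3, MulChar.one_apply_coe]
  · ext v
    obtain ⟨u, rfl⟩ := hsurj v
    have h3 : ((f u : Kˣ) : K) = (Algebra.norm K (u : L)) := by simp [hf]
    rw [MulChar.pow_apply_coe, h3, hval, ← MulChar.pow_apply_coe, hχe, MulChar.one_apply_coe, ← h3,
      MulChar.one_apply_coe]
  · intro y
    by_cases hy : y = 0
    · rw [hy, Algebra.norm_zero, MulChar.map_zero, MulChar.map_zero]
    · exact hval (Units.mk0 y hy)

theorem gauss_all (p : ℕ) [Fact p.Prime] (hp : p ≠ 2) (n : ℕ) (hn : 0 < n) (e : ℕ) (hodd : Odd e)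
    (he : e ∣ p ^ n + 1) (j : ℕ) (hj : 0 < j) (L : Type) [Field L] [Fintype L] [CharP L p]
    (hL : Fintype.card L = p ^ (2 * n * j)) :
    ∃ ψ : AddChar L ℂ, ψ.IsPrimitive ∧ (∀ y, ψ (y ^ p) = ψ y) ∧
      ∀ χ : MulChar L ℂ, χ ≠ 1 → χ ^ e = 1 →
        gaussSum χ ψ = (-1) ^ (j + 1) * (p : ℂ) ^ (n * j) := by
  classical
  have hpp : p.Prime := Fact.out
  revert hj L
  induction j using Nat.strong_induction_on with
  | _ j ih =>
    intro hj L _ _ _ hL
    have hLp : p ^ (2 * n * j) = (p ^ (n * j)) ^ 2 := by rw [← pow_mul]; ring_nf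
    rcases Nat.even_or_odd j with heven | hjodd
    · -- `j` even
      obtain ⟨i, hi⟩ := heven
      have hij : j = 2 * i := by omega
      have hi0 : 0 < i := by omega
      have hnj : n * j ≠ 0 := by positivity
      let _ : Algebra (ZMod p) L := ZMod.algebra L p
      have hfinL : Module.finrank (ZMod p) L = 2 * n * j := by
        refine Nat.pow_right_injective hpp.two_le ?_
        simp only
        rw [FiniteField.pow_finrank_eq_card, hL]
      have hdvd : Module.finrank (ZMod p) (GaloisField p (n * j)) ∣ Module.finrank (ZMod p) L := by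
        rw [hfinL, GaloisField.finrank p hnj]
        exact ⟨2, by ring⟩
      obtain ⟨φ⟩ := FiniteField.nonempty_algHom_of_finrank_dvd hdvd
      let _ : Algebra (GaloisField p (n * j)) L := φ.toRingHom.toAlgebra
      let _ : Fintype (GaloisField p (n * j)) := Fintype.ofFinite _
      have hcard : Fintype.card (GaloisField p (n * j)) = p ^ (n * j) := by
        rw [Fintype.card_eq_nat_card, GaloisField.card p (n * j) hnj]
      have hcard' : Fintype.card (GaloisField p (n * j)) = p ^ (2 * n * i) := by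
        rw [hcard, hij]
        congr 1
        ring
      have hfin2 : Module.finrank (GaloisField p (n * j)) L = 2 := by
        have h1 := Module.card_eq_pow_finrank (K := GaloisField p (n * j)) (V := L)
        rw [hcard, hL, hLp] at h1
        exact (Nat.pow_right_injective (Nat.one_lt_pow hnj hpp.one_lt) h1).symm
      have hcharK : CharP (GaloisField p (n * j)) p := inferInstance
      have hring : ringChar (GaloisField p (n * j)) ≠ 2 := by
        rw [ringChar.eq (GaloisField p (n * j)) p]
        exact hp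
      obtain ⟨ψ', hprim, hfrob, hval⟩ := ih i (by omega) hi0 (GaloisField p (n * j)) hcard'
      refine ⟨csE_comp _ L ψ', csE_prim _ L ψ' hprim, fun y => ?_, fun χ hχ hχe => ?_⟩
      · rw [csE_comp_apply, csE_comp_apply, csE_trace_pow, hfrob]
      · have hedvd : e ∣ Fintype.card (GaloisField p (n * j)) - 1 := by
          rw [hcard']
          have h1 : p ^ n + 1 ∣ p ^ (2 * n) - 1 := by
            refine ⟨p ^ n - 1, ?_⟩
            have h2 : p ^ (2 * n) = p ^ n * p ^ n := by rw [two_mul, pow_add]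
            have h3 : 1 ≤ p ^ n := Nat.one_le_pow _ _ hpp.pos
            rw [h2]
            obtain ⟨a, ha⟩ := Nat.exists_eq_add_of_le h3
            rw [ha]
            have h4 : (1 + a) * (1 + a) = 1 + (2 * a + a * a) := by ring
            have h5 : (1 + a + 1) * (1 + a - 1) = 2 * a + a * a := by
              rw [Nat.add_sub_cancel_left]
              ring
            rw [h4, h5, Nat.add_sub_cancel_left]
          have h2 : p ^ (2 * n) - 1 ∣ p ^ (2 * n * i) - 1 := by
            rw [pow_mul p (2 * n) i]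
            exact Nat.sub_one_dvd_pow_sub_one _ _
          exact he.trans (h1.trans h2)
        obtain ⟨χ', hχ'1, hχ'e, hχ'⟩ := csE_lift _ L e hodd hedvd hfin2 χ hχ hχe
        have h1 := hd_quad hfin2 hring χ' hχ'1 ψ'
        have h2 : gaussSum χ (csE_comp _ L ψ') =
            ∑ y : L, χ' (Algebra.norm (GaloisField p (n * j)) y) *
              ψ' (Algebra.trace (GaloisField p (n * j)) L y) := by
          unfold gaussSum
          refine Finset.sum_congr rfl fun y _ => ?_
          rw [csE_comp_apply, hχ']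
        rw [h2, h1, hval χ' hχ'1 hχ'e]
        have h3 : (-1 : ℂ) ^ (j + 1) = -1 := by
          rw [hij, pow_succ, pow_mul]
          norm_num
        have h4 : ((-1 : ℂ) ^ (i + 1)) ^ 2 = 1 := by
          rw [← pow_mul, mul_comm, pow_mul]
          norm_num
        rw [h3, mul_pow, h4, ← pow_mul, hij]
        ring_nf
    · -- `j` odd
      let _ : Algebra (ZMod p) L := ZMod.algebra L p
      have hψ0 : (ZMod.stdAddChar (N := p)).IsPrimitive := ZMod.isPrimitive_stdAddChar p
      refine ⟨csE_comp (ZMod p) L ZMod.stdAddChar, csE_prim _ L _ hψ0, fun y => ?_,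
        fun χ hχ hχe => ?_⟩
      · rw [csE_comp_apply, csE_comp_apply, csE_trace_pow, ZMod.pow_card]
      · have h1 : e ∣ p ^ (n * j) + 1 := by
          refine he.trans ?_
          have h2 := hjodd.nat_add_dvd_pow_add_pow (p ^ n) 1
          rwa [one_pow, ← pow_mul] at h2
        have h3 := gauss_odd p hp (csE_comp (ZMod p) L ZMod.stdAddChar) (csE_prim _ L _ hψ0)
          (fun y => by rw [csE_comp_apply, csE_comp_apply, csE_trace_pow, ZMod.pow_card])
          (n * j) (by positivity) (by rw [hL, hLp]) e hodd h1 χ hχ hχe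
        rw [h3, (Odd.add_one hjodd).neg_one_pow, one_mul]

end Pool.SG
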