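import Pool.Agent.Lib.MP_a51fee_ag.SG.CsB
import Pool.Agent.Lib.MP_a51fee_ag.SG.CsE

/-!
# SG-CsF: the number of affine points

`|L| = q = p^(2 n j)`, `k ∣ j`, `Q = p^k`, `Q - 1 = w m`, `i m ≡ 1 (e)`, `e` odd, `e ∣ p^n + 1`, `(e, Q-1) = 1`.
PROOF.  `e ∣ p^(2n) - 1 ∣ q - 1`.  The characters `χ` of `L` with `χ^e = 1` are `χ_0^a`, `0 ≤ a < e`, `χ_0` of order
`e` (`MulChar.exists_mulChar_orderOf`), and for `u ≠ 0`: `#{z | z^e = u} = ∑_{a<e} χ_0(u)^a` (if `u` is an
`e`-th power both are `e`, otherwise `χ_0(u) ≠ 1` is an `e`-th root of unity and both are `0`).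
For `x` with `x^i (x^w - 1) = 0`: one `z` (`z = 0`); the number of such `x` is `w + 1` (`0` and the
`w` roots of unity, `w ∣ Q - 1 ∣ q - 1`).  So the number of `(x, z)` is
`(w + 1) + (q - 1 - w) + ∑_{a=1}^{e-1} ∑_x χ_0^a(x^i (x^w - 1))` (nontrivial characters vanish at the
excluded `x`) `= q + (e - 1) w G`, `G = (-1)^(j+1) p^(nj)` by `sum_curve`, `gauss_all`.
The hypotheses of `sum_curve`: `{c | c^Q = c}` has `Q` elements because `k ∣ 2 n j` (`Q - 1 ∣ q - 1`).
-/

set_option autoImplicit false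

open Finset

namespace Pool.SG

private theorem csF_units {L : Type} [Field L] [Fintype L] [DecidableEq L] (d : ℕ)
    (hd : d ∣ Fintype.card L - 1) : (univ.filter fun t : Lˣ => t ^ d = 1).card = d := by
  have h1 := IsCyclic.card_powMonoidHom_ker (G := Lˣ) d
  have h2 : Nat.card (powMonoidHom d : Lˣ →* Lˣ).ker = (univ.filter fun t : Lˣ => t ^ d = 1).card := by
    rw [Nat.card_eq_fintype_card]
    apply Fintype.card_of_subtype
    intro x
    simp [MonoidHom.mem_ker]
  rw [← h2, h1, Nat.card_eq_fintype_card, Fintype.card_units]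
  exact Nat.gcd_eq_right hd

private theorem csF_fiber {L : Type} [Field L] [Fintype L] [DecidableEq L] (e : ℕ) (he0 : 0 < e)
    (hd : e ∣ Fintype.card L - 1) (χ : MulChar L ℂ) (hχ : orderOf χ = e) (u : L) :
    ((univ.filter fun z : L => z ^ e = u).card : ℂ) =
      (if u = 0 then 1 else 0) + ∑ a ∈ range e, (χ ^ a) u := by
  by_cases hu : u = 0
  · subst hu
    have h1 : (univ.filter fun z : L => z ^ e = 0) = {0} := by
      ext z
      simp only [mem_filter, mem_univ, true_and, mem_singleton]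
      exact pow_eq_zero_iff he0.ne'
    rw [h1, card_singleton, if_pos rfl, Finset.sum_eq_zero fun a _ => MulChar.map_zero _]
    norm_num
  · rw [if_neg hu, zero_add]
    set v : Lˣ := Units.mk0 u hu with hv
    have hvu : (v : L) = u := rfl
    have happ : ∀ a : ℕ, (χ ^ a) u = (χ u) ^ a := by
      intro a
      rw [← hvu]
      exact MulChar.pow_apply_coe χ a v
    have hone : (χ u) ^ e = 1 := by
      rw [← happ, ← hχ, pow_orderOf_eq_one, ← hvu, MulChar.one_apply_coe]
    have hcard : (univ.filter fun z : L => z ^ e = u).card = (univ.filter fun t : Lˣ => t ^ e = v).card := by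
      symm
      refine Finset.card_bij (fun t _ => (t : L)) ?_ ?_ ?_
      · intro t ht
        simp only [mem_filter, mem_univ, true_and] at ht ⊢
        rw [← Units.val_pow_eq_pow_val, ht, hvu]
      · intro t _ t' _ h
        exact Units.ext h
      · intro z hz
        simp only [mem_filter, mem_univ, true_and] at hz
        have hz0 : z ≠ 0 := by
          rintro rfl
          rw [zero_pow he0.ne'] at hz
          exact hu hz.symm
        refine ⟨Units.mk0 z hz0, ?_, rfl⟩
        simp only [mem_filter, mem_univ, true_and]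
        apply Units.ext
        rw [Units.val_pow_eq_pow_val, Units.val_mk0, hz, hvu]
    rw [hcard, Finset.sum_congr rfl fun a _ => happ a]
    by_cases hex : ∃ t0 : Lˣ, t0 ^ e = v
    · obtain ⟨t0, ht0⟩ := hex
      have h1 : χ u = 1 := by
        rw [← hvu, ← ht0, Units.val_pow_eq_pow_val, map_pow, ← MulChar.pow_apply_coe, ← hχ,
          pow_orderOf_eq_one, MulChar.one_apply_coe]
      have h2 : (univ.filter fun t : Lˣ => t ^ e = v).card = e := by
        refine Eq.trans ?_ (csF_units (L := L) e hd)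
        refine Finset.card_bij (fun t _ => t * t0⁻¹) ?_ ?_ ?_
        · intro t ht
          simp only [mem_filter, mem_univ, true_and] at ht ⊢
          rw [mul_pow, inv_pow, ht, ht0, mul_inv_cancel]
        · intro t _ t' _ h
          exact mul_right_cancel h
        · intro t ht
          simp only [mem_filter, mem_univ, true_and] at ht
          refine ⟨t * t0, ?_, mul_inv_cancel_right _ _⟩
          simp only [mem_filter, mem_univ, true_and]
          rw [mul_pow, ht, ht0, one_mul]
      rw [h2, h1]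
      simp
    · have h1 : (univ.filter fun t : Lˣ => t ^ e = v) = ∅ := by
        rw [Finset.filter_eq_empty_iff]
        intro t _ ht
        exact hex ⟨t, ht⟩
      have h2 : χ u ≠ 1 := by
        intro hu1
        obtain ⟨g, hg⟩ := IsCyclic.exists_generator (α := Lˣ)
        have h3 : ∀ d : ℕ, (χ (g : L)) ^ d = 1 → e ∣ d := by
          intro d hd1
          rw [← hχ]
          apply orderOf_dvd_of_pow_eq_one
          apply MulChar.ext
          intro a
          obtain ⟨t, rfl⟩ := (mem_powers_iff_mem_zpowers (x := g) (y := a)).2 (hg a)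
          rw [MulChar.pow_apply_coe, MulChar.one_apply_coe]
          simp only [Units.val_pow_eq_pow_val, map_pow]
          rw [← pow_mul, mul_comm, pow_mul, hd1, one_pow]
        obtain ⟨t, ht⟩ := (mem_powers_iff_mem_zpowers (x := g) (y := v)).2 (hg v)
        simp only at ht
        have h4 : (χ (g : L)) ^ t = 1 := by
          rw [← map_pow, ← Units.val_pow_eq_pow_val, ht, hvu, hu1]
        obtain ⟨c, hc⟩ := h3 t h4
        exact hex ⟨g ^ c, by rw [← pow_mul, mul_comm, ← hc, ht]⟩
      rw [h1, card_empty, Nat.cast_zero]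
      have h5 := mul_neg_geom_sum (χ u) e
      rw [hone, sub_self] at h5
      rcases mul_eq_zero.1 h5 with h6 | h6
      · exact absurd (sub_eq_zero.1 h6).symm h2
      · exact h6.symm

private theorem csF_frob {L : Type} [Field L] [Fintype L] [DecidableEq L] (Q : ℕ) (hQ : 1 < Q)
    (hd : Q - 1 ∣ Fintype.card L - 1) : (univ.filter fun c : L => c ^ Q = c).card = Q := by
  have h1 : (univ.filter fun c : L => c ^ Q = c) =
      insert 0 ((univ.filter fun t : Lˣ => t ^ (Q - 1) = 1).map ⟨fun t : Lˣ => (t : L), Units.val_injective⟩) := by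
    ext c
    simp only [mem_filter, mem_univ, true_and, mem_insert, mem_map, Function.Embedding.coeFn_mk]
    have hQ' : Q = (Q - 1) + 1 := by omega
    constructor
    · intro h
      by_cases hc : c = 0
      · exact Or.inl hc
      · refine Or.inr ⟨Units.mk0 c hc, ?_, rfl⟩
        apply Units.ext
        rw [Units.val_pow_eq_pow_val, Units.val_mk0, Units.val_one]
        rw [hQ', pow_succ] at h
        exact mul_right_cancel₀ hc (by rw [h, one_mul])
    · rintro (rfl | ⟨t, ht, rfl⟩)
      · rw [zero_pow (by omega)]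
      · rw [hQ', pow_succ, ← Units.val_pow_eq_pow_val, ht, Units.val_one, one_mul]
  rw [h1, Finset.card_insert_of_notMem, Finset.card_map, csF_units (Q - 1) hd]
  · omega
  · simp only [mem_map, mem_filter, mem_univ, true_and, Function.Embedding.coeFn_mk, not_exists, not_and]
    intro t _ h
    exact t.ne_zero h

theorem card_aff (p : ℕ) [Fact p.Prime] (hp : p ≠ 2) (n k j e i w m : ℕ) (hn : 0 < n)
    (hk : 0 < k) (hj : 0 < j) (hkj : k ∣ j) (he : 1 < e) (hodd : Odd e) (hen : e ∣ p ^ n + 1)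
    (cop : Nat.Coprime e (p ^ k - 1)) (hi : 0 < i) (hw : 0 < w) (hm : p ^ k - 1 = w * m)
    (him : i * m ≡ 1 [MOD e]) (L : Type) [Field L] [Finite L] [CharP L p]
    (hL : Nat.card L = p ^ (2 * n * j)) :
    (Nat.card {z : L × L // z.2 ^ e = z.1 ^ i * (z.1 ^ w - 1)} : ℤ) =
      (p : ℤ) ^ (2 * n * j) + w * ((e : ℤ) - 1) * (-1) ^ (j + 1) * (p : ℤ) ^ (n * j) := by
  classical
  let _ : Fintype L := Fintype.ofFinite L
  have hp1 : 1 < p := (Fact.out : p.Prime).one_lt
  have hL' : Fintype.card L = p ^ (2 * n * j) := by rw [← hL, Nat.card_eq_fintype_card]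
  have he0 : 0 < e := by omega
  have hQ1 : 1 < p ^ k := Nat.one_lt_pow hk.ne' hp1
  have hQd : p ^ k - 1 ∣ Fintype.card L - 1 := by
    obtain ⟨c, hc⟩ := hkj
    have h1 : p ^ (2 * n * j) = (p ^ k) ^ (2 * n * c) := by
      rw [← pow_mul, hc]
      ring_nf
    have h2 := Nat.sub_dvd_pow_sub_pow (p ^ k) 1 (2 * n * c)
    rwa [one_pow, ← h1, ← hL'] at h2
  have hed : e ∣ Fintype.card L - 1 := by
    have h1 : p ^ n + 1 ∣ (p ^ n) ^ 2 - 1 := by
      refine ⟨p ^ n - 1, ?_⟩
      have := Nat.sq_sub_sq (p ^ n) 1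
      rwa [one_pow] at this
    have h2 : (p ^ n) ^ 2 - 1 ∣ ((p ^ n) ^ 2) ^ j - 1 ^ j := Nat.sub_dvd_pow_sub_pow _ 1 j
    have h3 : ((p ^ n) ^ 2) ^ j = p ^ (2 * n * j) := by
      rw [← pow_mul, ← pow_mul]
      ring_nf
    rw [one_pow, h3, ← hL'] at h2
    exact hen.trans (h1.trans h2)
  obtain ⟨ψ, hψ, hF, hG⟩ := gauss_all p hp n hn e hodd hen j hj L hL'
  obtain ⟨χ, hχ⟩ := MulChar.exists_mulChar_orderOf (R := ℂ) L hed (Complex.isPrimitiveRoot_exp e he0.ne')
  have hcard : (Nat.card {z : L × L // z.2 ^ e = z.1 ^ i * (z.1 ^ w - 1)} : ℂ) =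
      ∑ x : L, ((univ.filter fun z : L => z ^ e = x ^ i * (x ^ w - 1)).card : ℂ) := by
    rw [Nat.card_eq_fintype_card, Fintype.card_subtype, Finset.card_filter, ← Finset.univ_product_univ,
      Finset.sum_product]
    push_cast
    refine Finset.sum_congr rfl fun x _ => ?_
    rw [Finset.card_filter]
    push_cast
    rfl
  have hsum : ∀ a ∈ Ico 1 e, ∑ x : L, (χ ^ a) (x ^ i * (x ^ w - 1)) = w * ((-1) ^ (j + 1) * (p : ℂ) ^ (n * j)) := by
    intro a ha
    rw [mem_Ico] at ha
    have h1 : χ ^ a ≠ 1 := by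
      intro h
      have h2 := orderOf_dvd_of_pow_eq_one h
      rw [hχ] at h2
      exact absurd (Nat.le_of_dvd (by omega) h2) (by omega)
    have h2 : (χ ^ a) ^ e = 1 := by
      rw [← pow_mul, mul_comm, pow_mul, ← hχ, pow_orderOf_eq_one, one_pow]
    rw [sum_curve p hp ψ hψ hF k hk hQd (csF_frob (p ^ k) hQ1 hQd) (χ ^ a) h1 e he0 h2 cop i w m hi hw hm him,
      hG (χ ^ a) h1 h2]
  have hmain : (Nat.card {z : L × L // z.2 ^ e = z.1 ^ i * (z.1 ^ w - 1)} : ℂ) =
      (p : ℂ) ^ (2 * n * j) + w * ((e : ℂ) - 1) * (-1) ^ (j + 1) * (p : ℂ) ^ (n * j) := by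
    rw [hcard, Finset.sum_congr rfl fun x _ => csF_fiber e he0 hed χ hχ (x ^ i * (x ^ w - 1)),
      Finset.sum_add_distrib, Finset.sum_comm (s := univ) (t := range e),
      Finset.range_eq_Ico, Finset.sum_eq_sum_Ico_succ_bot he0, Finset.sum_congr rfl hsum, Finset.sum_const,
      Nat.card_Ico, ← add_assoc, ← Finset.sum_add_distrib]
    have h1 : ∑ x : L, ((if x ^ i * (x ^ w - 1) = 0 then (1 : ℂ) else 0) + (χ ^ 0) (x ^ i * (x ^ w - 1))) =
        (p : ℂ) ^ (2 * n * j) := by
      have h2 : ∀ x : L, ((if x ^ i * (x ^ w - 1) = 0 then (1 : ℂ) else 0) + (χ ^ 0) (x ^ i * (x ^ w - 1))) = 1 := by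
        intro x
        by_cases h : x ^ i * (x ^ w - 1) = 0
        · rw [if_pos h, h, MulChar.map_zero, add_zero]
        · rw [if_neg h, pow_zero, MulChar.one_apply (isUnit_iff_ne_zero.2 h), zero_add]
      rw [Finset.sum_congr rfl fun x _ => h2 x, Finset.sum_const, Finset.card_univ, hL', nsmul_eq_mul, mul_one]
      push_cast
      rfl
    rw [h1, nsmul_eq_mul, Nat.cast_sub he.le]
    push_cast
    ring
  exact_mod_cast hmain

end Pool.SG
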