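import Pool.Agent.Lib.MP_a51fee_ag.SG.SD

/-!
# SG-DPr: independence of the scales

PROOF.  `M ↦ (M ∩ P i)_i` is a bijection from the subsets of `⋃ P i` to `∏_i (P i).powerset` (the `P i` are pairwise
disjoint), `wt M = ∏_i wt (M ∩ P i)` (`prod_biUnion`); `Finset.prod_univ_sum` over `Fintype.piFinset`.  (Compare `expand` in
`MP_c77da8_nt/Sv1.lean`.)  Or induction on `J`.
-/

set_option autoImplicit false

open Finset

namespace Pool.SG

open scoped Classical in
theorem scales_prod (J : ℕ) (P : Fin J → Finset ℕ)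
    (hP : ∀ i j, i ≠ j → Disjoint (P i) (P j)) (Bd : Fin J → Finset ℕ → Prop) :
    ∑ M ∈ (univ.biUnion P).powerset.filter (fun M => ∀ i, Bd i (M ∩ P i)), wt M =
      ∏ i, ∑ M ∈ (P i).powerset.filter (Bd i), wt M := by
  rw [Finset.prod_univ_sum]
  -- key: for `φ i ⊆ P i`, the intersection of the union with `P i` is `φ i`
  have key : ∀ φ : Fin J → Finset ℕ, (∀ i, φ i ⊆ P i) → ∀ i, univ.biUnion φ ∩ P i = φ i := by
    intro φ hφ i
    ext q
    simp only [mem_inter, mem_biUnion, mem_univ, true_and]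
    constructor
    · rintro ⟨⟨j, hj⟩, hq⟩
      by_cases hij : j = i
      · rw [← hij]; exact hj
      · exact absurd hq (Finset.disjoint_left.mp (hP j i hij) (hφ j hj))
    · intro hq
      exact ⟨⟨i, hq⟩, hφ i hq⟩
  have key2 : ∀ M : Finset ℕ, M ⊆ univ.biUnion P → univ.biUnion (fun i => M ∩ P i) = M := by
    intro M hM
    ext q
    simp only [mem_inter, mem_biUnion, mem_univ, true_and]
    constructor
    · rintro ⟨j, hj, -⟩
      exact hj
    · intro hq
      obtain ⟨j, -, hj⟩ := mem_biUnion.1 (hM hq)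
      exact ⟨j, hq, hj⟩
  refine Finset.sum_bij' (fun M _ => fun i => M ∩ P i) (fun φ _ => univ.biUnion φ) ?_ ?_ ?_ ?_ ?_
  · intro M hM
    rw [mem_filter, mem_powerset] at hM
    rw [Fintype.mem_piFinset]
    intro i
    rw [mem_filter, mem_powerset]
    exact ⟨inter_subset_right, hM.2 i⟩
  · intro φ hφ
    rw [Fintype.mem_piFinset] at hφ
    have h1 : ∀ i, φ i ⊆ P i := fun i => mem_powerset.1 (mem_filter.1 (hφ i)).1
    rw [mem_filter, mem_powerset]
    refine ⟨?_, fun i => ?_⟩
    · intro q hq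
      obtain ⟨j, hj, hq⟩ := mem_biUnion.1 hq
      exact mem_biUnion.2 ⟨j, hj, h1 j hq⟩
    · rw [key φ h1 i]
      exact (mem_filter.1 (hφ i)).2
  · intro M hM
    rw [mem_filter, mem_powerset] at hM
    exact key2 M hM.1
  · intro φ hφ
    rw [Fintype.mem_piFinset] at hφ
    have h1 : ∀ i, φ i ⊆ P i := fun i => mem_powerset.1 (mem_filter.1 (hφ i)).1
    funext i
    exact key φ h1 i
  · intro M hM
    rw [mem_filter, mem_powerset] at hM
    simp only
    unfold wt
    conv_lhs => rw [← key2 M hM.1]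
    rw [prod_biUnion]
    intro i _ j _ hij
    exact Finset.disjoint_of_subset_left inter_subset_right
      (Finset.disjoint_of_subset_right inter_subset_right (hP i j hij))

end Pool.SG
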