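import Pool.Agent.Lib.MP_a51fee_ag.SG.DRc
import Pool.Agent.Lib.MP_a51fee_ag.SG.DPr

/-!
# SG-DCnt: the number of integers which are bad at every scale

PROOF.  Let `𝒫 = ⋃ P i`.  For a counted `N` let `M = {q ∈ 𝒫 | q ∣ N}`: `pd M ∣ N` (distinct primes), `N = pd M * n`,
`1 ≤ n ≤ X := ⌊x / pd M⌋`, and no `q ∈ 𝒫 \ M` divides `n`.  `M ∩ P i = {q ∈ P i | q ∣ N}`, so `Bd i (M ∩ P i)` for all `i`;
`pd M ≤ √x`, so `X ≥ √x - 1 ≥ V^1000` (`V ≥ 2`).  `rough_count` with `Q = 𝒫 \ M`, `z = V`: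
`#{N} ≤ ∑_M C (x/pd M) ∏_{q ∈ 𝒫 \ M} (1 - 1/q) = C x ∏_{q ∈ 𝒫} (1 - 1/q) ∑_M wt M ∏_{q ∈ M} (1 - 1/q)^{-1}`.
`|M| ≤ log x/log 2` (`2^|M| ≤ pd M ≤ x`) and `q ≥ log x`, `(1 - 1/q)^{-1} ≤ exp (2/q)`: the last product is `≤ e^3` (if `log x ≤ 0`
then `x ≤ 1`, excluded by `V^1001 ≤ √x`).  `scales_prod` and `∏_{q ∈ 𝒫} = ∏_i ∏_{q ∈ P i}`.
-/

set_option autoImplicit false

open Finset

namespace Pool.SG

theorem dcnt_one_sub (t : ℝ) (h0 : 0 ≤ t) (h1 : t ≤ 1 / 2) : Real.exp (-(2 * t)) ≤ 1 - t := by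
  have h2 := Real.add_one_le_exp (2 * t)
  have h3 : 1 ≤ (1 - t) * Real.exp (2 * t) := by nlinarith
  have h4 := Real.exp_pos (-(2 * t))
  calc Real.exp (-(2 * t)) = Real.exp (-(2 * t)) * 1 := by ring
    _ ≤ Real.exp (-(2 * t)) * ((1 - t) * Real.exp (2 * t)) :=
        mul_le_mul_of_nonneg_left h3 h4.le
    _ = (1 - t) * (Real.exp (-(2 * t)) * Real.exp (2 * t)) := by ring
    _ = 1 - t := by rw [← Real.exp_add]; simp

/-- the product over the primes dividing `N` is bounded below -/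
theorem dcnt_prod (M : Finset ℕ) (x : ℕ) (hx : 1 < Real.log x)
    (hM : ∀ q ∈ M, q.Prime ∧ Real.log x ≤ (q : ℝ)) (hp : (pd M : ℝ) ≤ x) :
    1 ≤ Real.exp 3 * ∏ q ∈ M, (1 - 1 / (q : ℝ)) := by
  have hl : 0 < Real.log x := by linarith
  have h1 : (2 : ℝ) ^ M.card ≤ pd M := by
    unfold pd
    push_cast
    rw [← prod_const]
    apply prod_le_prod
    · intro q _; norm_num
    · intro q hq
      exact_mod_cast (hM q hq).1.two_le
  have hx0 : (0 : ℝ) < x := lt_of_lt_of_le (by positivity) (h1.trans hp)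
  have h2 : (M.card : ℝ) * Real.log 2 ≤ Real.log x := by
    rw [← Real.log_pow]
    exact Real.log_le_log (by positivity) (h1.trans hp)
  have h3 : Real.exp (-3) ≤ ∏ q ∈ M, (1 - 1 / (q : ℝ)) := by
    calc Real.exp (-3) ≤ Real.exp (∑ q ∈ M, -(2 * (1 / (q : ℝ)))) := by
          apply Real.exp_le_exp.mpr
          have h4 : ∑ q ∈ M, (2 * (1 / (q : ℝ))) ≤ ∑ q ∈ M, (2 * (1 / Real.log x)) := by
            apply sum_le_sum
            intro q hq
            have := one_div_le_one_div_of_le hl (hM q hq).2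
            linarith
          rw [sum_const, nsmul_eq_mul] at h4
          rw [sum_neg_distrib]
          have h5 : (M.card : ℝ) * (2 * (1 / Real.log x)) ≤ 3 := by
            have h6 : (M.card : ℝ) * (2 * (1 / Real.log x)) = 2 * M.card / Real.log x := by ring
            rw [h6, div_le_iff₀ hl]
            have := Real.log_two_gt_d9
            have h7 : (0 : ℝ) ≤ M.card := Nat.cast_nonneg _
            nlinarith
          linarith
      _ = ∏ q ∈ M, Real.exp (-(2 * (1 / (q : ℝ)))) := Real.exp_sum _ _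
      _ ≤ _ := by
          apply prod_le_prod
          · intro q _; exact (Real.exp_pos _).le
          · intro q hq
            have hq2 : (2 : ℝ) ≤ q := by exact_mod_cast (hM q hq).1.two_le
            apply dcnt_one_sub
            · positivity
            · exact one_div_le_one_div_of_le (by norm_num) hq2
  calc (1 : ℝ) = Real.exp 3 * Real.exp (-3) := by rw [← Real.exp_add]; simp
    _ ≤ _ := mul_le_mul_of_nonneg_left h3 (Real.exp_pos _).le

open scoped Classical in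
theorem count_bad : ∃ C : ℝ, 0 < C ∧ ∀ (J : ℕ) (P : Fin J → Finset ℕ)
    (Bd : Fin J → Finset ℕ → Prop) (V : ℝ) (x : ℕ), 2 ≤ V → V ^ 1001 ≤ Real.sqrt x →
    (∀ i, ∀ q ∈ P i, q.Prime ∧ Real.log x ≤ (q : ℝ) ∧ (q : ℝ) ≤ V) →
    (∀ i j, i ≠ j → Disjoint (P i) (P j)) →
    (((Icc 1 x).filter (fun N => (∀ i, Bd i ((P i).filter (fun q => q ∣ N))) ∧
        (pd ((univ.biUnion P).filter (fun q => q ∣ N)) : ℝ) ≤ Real.sqrt x)).card : ℝ) ≤
      C * x * ∏ i, ((∏ q ∈ P i, (1 - 1 / (q : ℝ))) *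
        ∑ M ∈ (P i).powerset.filter (Bd i), wt M) := by
  obtain ⟨C1, hC1, hR⟩ := rough_count
  refine ⟨C1 * Real.exp 3, by positivity, ?_⟩
  intro J P Bd V x hV hVx hP hdis
  obtain ⟨Q, hQ⟩ : ∃ Q : Finset ℕ, Q = univ.biUnion P := ⟨_, rfl⟩
  rw [← hQ]
  have hQp : ∀ q ∈ Q, q.Prime ∧ Real.log x ≤ (q : ℝ) ∧ (q : ℝ) ≤ V := by
    intro q hq
    rw [hQ] at hq
    obtain ⟨i, -, hi⟩ := mem_biUnion.mp hq
    exact hP i q hi
  have hVn : (2 : ℝ) ^ 4 ≤ V ^ 1001 := by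
    calc (2 : ℝ) ^ 4 ≤ 2 ^ 1001 := pow_le_pow_right₀ (by norm_num) (by norm_num)
      _ ≤ V ^ 1001 := pow_le_pow_left₀ (by norm_num) hV _
  have hs16 : (16 : ℝ) ≤ Real.sqrt x := by
    have : (2 : ℝ) ^ 4 = 16 := by norm_num
    linarith
  have hx0 : (0 : ℝ) ≤ x := Nat.cast_nonneg x
  have hss : Real.sqrt x * Real.sqrt x = x := Real.mul_self_sqrt hx0
  have hx256 : (256 : ℝ) ≤ x := by nlinarith
  have hlog : 1 < Real.log x := by
    rw [Real.lt_log_iff_exp_lt (by linarith)]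
    have := Real.exp_one_lt_d9
    linarith
  have hsx : Real.sqrt x ≤ x := by nlinarith
  have hfac : ∀ q ∈ Q, (0 : ℝ) ≤ 1 - 1 / (q : ℝ) := by
    intro q hq
    have hq2 : (2 : ℝ) ≤ q := by exact_mod_cast (hQp q hq).1.two_le
    have : 1 / (q : ℝ) ≤ 1 / 2 := one_div_le_one_div_of_le (by norm_num) hq2
    linarith
  -- the bound for fixed `M`
  have hM : ∀ M ∈ Q.powerset, (pd M : ℝ) ≤ Real.sqrt x →
      (((Icc 1 x).filter (fun N => Q.filter (fun q => q ∣ N) = M)).card : ℝ) ≤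
        C1 * Real.exp 3 * x * (∏ q ∈ Q, (1 - 1 / (q : ℝ))) * wt M := by
    intro M hM hpM
    rw [mem_powerset] at hM
    have hMp : ∀ q ∈ M, q.Prime ∧ Real.log x ≤ (q : ℝ) := fun q hq =>
      ⟨(hQp q (hM hq)).1, (hQp q (hM hq)).2.1⟩
    have hpd0 : 0 < pd M := by
      unfold pd
      exact prod_pos fun q hq => (hMp q hq).1.pos
    have hpd0' : (0 : ℝ) < pd M := by exact_mod_cast hpd0
    have h1 : ((Icc 1 x).filter (fun N => Q.filter (fun q => q ∣ N) = M)).card ≤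
        ((Icc 1 (x / pd M)).filter (fun n => ∀ q ∈ Q \ M, ¬ q ∣ n)).card := by
      have hdvd : ∀ N ∈ (Icc 1 x).filter (fun N => Q.filter (fun q => q ∣ N) = M), pd M ∣ N := by
        intro N hN
        rw [mem_filter] at hN
        unfold pd
        apply Finset.prod_primes_dvd
        · intro q hq
          exact (hMp q hq).1.prime
        · intro q hq
          rw [← hN.2] at hq
          exact (mem_filter.mp hq).2
      apply card_le_card_of_injOn (fun N => N / pd M)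
      · intro N hN
        have hN' := hN
        rw [mem_coe, mem_filter, mem_Icc] at hN'
        rw [mem_coe, mem_filter, mem_Icc]
        have h2 := hdvd N hN
        refine ⟨⟨Nat.div_pos (Nat.le_of_dvd (by omega) h2) hpd0, Nat.div_le_div_right hN'.1.2⟩, ?_⟩
        intro q hq hqn
        rw [mem_sdiff] at hq
        apply hq.2
        rw [← hN'.2, mem_filter]
        exact ⟨hq.1, hqn.trans (Nat.div_dvd_of_dvd h2)⟩
      · intro N hN N' hN' h
        simp only at h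
        have h2 := hdvd N hN
        have h3 := hdvd N' hN'
        rw [← Nat.mul_div_cancel' h2, ← Nat.mul_div_cancel' h3, h]
    have hX : (x : ℝ) / pd M - 1 < ((x / pd M : ℕ) : ℝ) := by
      have := Nat.lt_floor_add_one ((x : ℝ) / pd M)
      rw [Nat.floor_div_eq_div] at this
      linarith
    have hX' : ((x / pd M : ℕ) : ℝ) ≤ (x : ℝ) / pd M := Nat.cast_div_le
    have h2 : Real.sqrt x ≤ (x : ℝ) / pd M := by
      rw [le_div_iff₀ hpd0']
      calc Real.sqrt x * pd M ≤ Real.sqrt x * Real.sqrt x :=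
            mul_le_mul_of_nonneg_left hpM (Real.sqrt_nonneg _)
        _ = x := hss
    have h3 : V ^ 1000 ≤ ((x / pd M : ℕ) : ℝ) := by
      have h4 : V ^ 1001 = V ^ 1000 * V := pow_succ V 1000
      have h5 : (1 : ℝ) ≤ V ^ 1000 := one_le_pow₀ (by linarith)
      nlinarith
    have h4 := hR V hV (Q \ M) (fun q hq => ⟨(hQp q (mem_sdiff.mp hq).1).1,
      (hQp q (mem_sdiff.mp hq).1).2.2⟩) (x / pd M) h3
    have h5 : ∏ q ∈ Q \ M, (1 - 1 / (q : ℝ)) ≤ Real.exp 3 * ∏ q ∈ Q, (1 - 1 / (q : ℝ)) := by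
      have h6 := dcnt_prod M x hlog hMp (hpM.trans hsx)
      have h7 : 0 ≤ ∏ q ∈ Q \ M, (1 - 1 / (q : ℝ)) :=
        prod_nonneg fun q hq => hfac q (mem_sdiff.mp hq).1
      calc _ = (∏ q ∈ Q \ M, (1 - 1 / (q : ℝ))) * 1 := by ring
        _ ≤ (∏ q ∈ Q \ M, (1 - 1 / (q : ℝ))) * (Real.exp 3 * ∏ q ∈ M, (1 - 1 / (q : ℝ))) :=
            mul_le_mul_of_nonneg_left h6 h7
        _ = Real.exp 3 * ((∏ q ∈ Q \ M, (1 - 1 / (q : ℝ))) * ∏ q ∈ M, (1 - 1 / (q : ℝ))) := by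
            ring
        _ = _ := by rw [prod_sdiff hM]
    have h8 : (x : ℝ) / pd M = x * wt M := by
      unfold pd wt
      push_cast
      rw [prod_div_distrib, prod_const_one]
      ring
    have h9 : 0 ≤ ∏ q ∈ Q \ M, (1 - 1 / (q : ℝ)) :=
      prod_nonneg fun q hq => hfac q (mem_sdiff.mp hq).1
    have h10 : 0 ≤ (x : ℝ) / pd M := by positivity
    calc _ ≤ (((Icc 1 (x / pd M)).filter (fun n => ∀ q ∈ Q \ M, ¬ q ∣ n)).card : ℝ) := by
          exact_mod_cast h1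
      _ ≤ C1 * ((x / pd M : ℕ) : ℝ) * ∏ q ∈ Q \ M, (1 - 1 / (q : ℝ)) := h4
      _ ≤ C1 * ((x : ℝ) / pd M) * ∏ q ∈ Q \ M, (1 - 1 / (q : ℝ)) := by
          apply mul_le_mul_of_nonneg_right _ h9
          exact mul_le_mul_of_nonneg_left hX' hC1.le
      _ ≤ C1 * ((x : ℝ) / pd M) * (Real.exp 3 * ∏ q ∈ Q, (1 - 1 / (q : ℝ))) :=
          mul_le_mul_of_nonneg_left h5 (mul_nonneg hC1.le h10)
      _ = _ := by rw [h8]; ring
  -- summation over `M`
  obtain ⟨T, hT⟩ : ∃ T : Finset (Finset ℕ),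
      T = Q.powerset.filter (fun M => ∀ i, Bd i (M ∩ P i)) := ⟨_, rfl⟩
  have hcov : (Icc 1 x).filter (fun N => (∀ i, Bd i ((P i).filter (fun q => q ∣ N))) ∧
        (pd (Q.filter (fun q => q ∣ N)) : ℝ) ≤ Real.sqrt x) ⊆
      (T.filter (fun M => (pd M : ℝ) ≤ Real.sqrt x)).biUnion
        (fun M => (Icc 1 x).filter (fun N => Q.filter (fun q => q ∣ N) = M)) := by
    intro N hN
    rw [mem_filter] at hN
    rw [mem_biUnion]
    refine ⟨Q.filter (fun q => q ∣ N), ?_, mem_filter.mpr ⟨hN.1, rfl⟩⟩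
    rw [mem_filter, hT, mem_filter, mem_powerset]
    refine ⟨⟨filter_subset _ _, fun i => ?_⟩, hN.2.2⟩
    have h1 : Q.filter (fun q => q ∣ N) ∩ P i = (P i).filter (fun q => q ∣ N) := by
      ext q
      rw [mem_inter, mem_filter, mem_filter]
      constructor
      · rintro ⟨⟨-, h2⟩, h3⟩
        exact ⟨h3, h2⟩
      · rintro ⟨h2, h3⟩
        refine ⟨⟨?_, h3⟩, h2⟩
        rw [hQ]
        exact mem_biUnion.mpr ⟨i, mem_univ _, h2⟩
    rw [h1]
    exact hN.2.1 i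
  have hwt0 : ∀ M : Finset ℕ, 0 ≤ wt M := fun M => prod_nonneg fun q _ => by positivity
  have hprod0 : 0 ≤ ∏ q ∈ Q, (1 - 1 / (q : ℝ)) := prod_nonneg hfac
  have hPQ : ∏ q ∈ Q, (1 - 1 / (q : ℝ)) = ∏ i, ∏ q ∈ P i, (1 - 1 / (q : ℝ)) := by
    rw [hQ, prod_biUnion]
    intro i _ j _ hij
    exact hdis i j hij
  have hsc := scales_prod J P hdis Bd
  rw [← hQ, ← hT] at hsc
  have h1 := (card_le_card hcov).trans card_biUnion_le
  calc _ ≤ ((∑ M ∈ T.filter (fun M => (pd M : ℝ) ≤ Real.sqrt x),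
          ((Icc 1 x).filter (fun N => Q.filter (fun q => q ∣ N) = M)).card : ℕ) : ℝ) := by
        exact_mod_cast h1
    _ ≤ ∑ M ∈ T.filter (fun M => (pd M : ℝ) ≤ Real.sqrt x),
          C1 * Real.exp 3 * x * (∏ q ∈ Q, (1 - 1 / (q : ℝ))) * wt M := by
        push_cast
        apply sum_le_sum
        intro M hM'
        rw [mem_filter, hT, mem_filter] at hM'
        exact hM M hM'.1.1 hM'.2
    _ ≤ ∑ M ∈ T, C1 * Real.exp 3 * x * (∏ q ∈ Q, (1 - 1 / (q : ℝ))) * wt M := by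
        apply sum_le_sum_of_subset_of_nonneg (filter_subset _ _)
        intro M _ _
        have := hwt0 M
        positivity
    _ = _ := by
        rw [← mul_sum, hsc, hPQ, prod_mul_distrib]
        ring

end Pool.SG
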