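import Pool.Agent.Lib.MP_a51fee_ag.SG.NMert

/-!
# SG-DSm: the part composed of small primes is small

PROOF.  For a counted `N`: `∑_{q ∈ pr 1 V, q ∣ N} log q = log (pd ..) > (1/2) log x`.  And
`∑_{N ≤ x} ∑_{q ∈ pr 1 V, q ∣ N} log q = ∑_q log q ⌊x/q⌋ ≤ x ∑_{q ≤ V} log q/q ≤ x (log V + C)` (`mert_log`).  Markov.
-/

set_option autoImplicit false

open Finset

namespace Pool.SG

open scoped Classical in
theorem smooth_part : ∃ C : ℝ, 0 < C ∧ ∀ V : ℝ, 2 ≤ V → ∀ x : ℕ, 2 ≤ x →
    (((Icc 1 x).filter (fun N =>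
        Real.sqrt x < (pd ((pr 1 V).filter (fun q => q ∣ N)) : ℝ))).card : ℝ) ≤
      2 * x * (Real.log V + C) / Real.log x := by
  obtain ⟨C, hC, hM⟩ := mert_log
  refine ⟨C, hC, fun V hV x hx => ?_⟩
  have hx1 : (1 : ℝ) < x := by exact_mod_cast hx
  have hlx : 0 < Real.log x := Real.log_pos hx1
  have hV0 : (0 : ℝ) ≤ V := by linarith
  set S := (Icc 1 x).filter (fun N => Real.sqrt x < (pd ((pr 1 V).filter (fun q => q ∣ N)) : ℝ)) with hS
  have hpos : ∀ q ∈ pr 1 V, 0 < (q : ℝ) := by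
    intro q hq
    have := (mem_pr hV0).mp hq
    linarith [this.2.1]
  have hlog0 : ∀ q ∈ pr 1 V, 0 ≤ Real.log q := by
    intro q hq
    have := (mem_pr hV0).mp hq
    exact Real.log_nonneg this.2.1.le
  -- the weight
  have h1 : ∀ N ∈ S, Real.log x / 2 ≤ ∑ q ∈ pr 1 V, (if q ∣ N then Real.log q else 0) := by
    intro N hN
    rw [hS, mem_filter] at hN
    have h2 : ∑ q ∈ pr 1 V, (if q ∣ N then Real.log q else 0) =
        Real.log (pd ((pr 1 V).filter (fun q => q ∣ N)) : ℝ) := by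
      unfold pd
      push_cast
      rw [Real.log_prod, sum_filter]
      intro q hq
      exact (hpos q (mem_filter.mp hq).1).ne'
    rw [h2]
    have h3 : Real.log (Real.sqrt x) = Real.log x / 2 := Real.log_sqrt (by positivity)
    rw [← h3]
    exact (Real.log_lt_log (Real.sqrt_pos.mpr (by positivity)) hN.2).le
  have h4 : (S.card : ℝ) * (Real.log x / 2) ≤
      ∑ N ∈ Icc 1 x, ∑ q ∈ pr 1 V, (if q ∣ N then Real.log q else 0) := by
    calc (S.card : ℝ) * (Real.log x / 2) = ∑ N ∈ S, Real.log x / 2 := by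
          rw [sum_const, nsmul_eq_mul]
      _ ≤ ∑ N ∈ S, ∑ q ∈ pr 1 V, (if q ∣ N then Real.log q else 0) := sum_le_sum h1
      _ ≤ _ := by
          refine sum_le_sum_of_subset_of_nonneg (filter_subset _ _) fun N _ _ => ?_
          refine sum_nonneg fun q hq => ?_
          split_ifs
          · exact hlog0 q hq
          · exact le_rfl
  have h5 : ∑ N ∈ Icc 1 x, ∑ q ∈ pr 1 V, (if q ∣ N then Real.log q else 0) ≤
      (x : ℝ) * ∑ q ∈ pr 1 V, Real.log q / q := by
    rw [sum_comm, mul_sum]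
    refine sum_le_sum fun q hq => ?_
    have h6 : ∑ N ∈ Icc 1 x, (if q ∣ N then Real.log (q : ℝ) else 0) =
        (((Icc 1 x).filter (fun N => q ∣ N)).card : ℝ) * Real.log q := by
      rw [← sum_filter, sum_const, nsmul_eq_mul]
    rw [h6]
    have h7 : ((Icc 1 x).filter (fun N => q ∣ N)).card = x / q := by
      have : (Icc 1 x).filter (fun N => q ∣ N) = (Ioc 0 x).filter (fun N => q ∣ N) := rfl
      rw [this]
      exact Nat.Ioc_filter_dvd_card_eq_div x q
    rw [h7]
    have h8 : ((x / q : ℕ) : ℝ) ≤ (x : ℝ) / q := Nat.cast_div_le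
    calc ((x / q : ℕ) : ℝ) * Real.log q ≤ (x : ℝ) / q * Real.log q :=
          mul_le_mul_of_nonneg_right h8 (hlog0 q hq)
      _ = (x : ℝ) * (Real.log q / q) := by ring
  have h9 := hM V (by linarith)
  have h10 : (S.card : ℝ) * (Real.log x / 2) ≤ (x : ℝ) * (Real.log V + C) :=
    (h4.trans h5).trans (mul_le_mul_of_nonneg_left h9 (by positivity))
  rw [le_div_iff₀ hlx]
  linarith

end Pool.SG
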