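import Pool.Agent.Lib.MP_a51fee_ag.SG.ND
import Pool.Agent.Lib.MP_a51fee_ag.SG.BOrd

/-!
# SG-DUn: the cofactor is almost always admissible

`ℓ = log log x`, `z = exp (ℓ^3)`, `Y = exp (4 ℓ) = (log x)^4`, `V = vv (1/2) ℓ = exp (√(log x))`.
PROOF.  Let `N` be counted, with `t`; `e = 1 + D t`, `w = N/t`.  `e > 1` (`D, t > 0`), `e` squarefree with all its primes in `PQ ⊆ PP`
(`EE`), `w > 0`, `p ∤ w`.  As `Good p e w` fails: `(w, e) ≠ 1` or `od p l ∣ od p w` for a prime `l ∣ e`.  So there is a prime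
`l ∣ e`, `l > z`, `r` a prime `≥ Y` with `r ∣ od p l` (`PQ`), and: `l ∣ w`, or `r ∣ od p w`, hence (`prime_dvd_od`) `r^2 ∣ w` or
there is a prime `l' ∣ w`, `r ∣ l' - 1`.
For given `t` and `l` fix one such `r = r(l)`.  The number of `N ≤ x` is at most
`∑_{t ≤ V^2} ∑_{l ∣ 1 + D t} (x/(t l) + x/(t r^2) + ∑_{l' ≤ x, r ∣ l' - 1, l' > 1} x/(t l'))`
`≤ ∑_t (x/t) ω(1 + D t)(1/z + 1/Y^2 + (1 + log x)/Y)` (`∑_{l' ≤ x, l' ≡ 1 (r), l' > 1} 1/l' ≤ ∑_{1 ≤ k ≤ x} 1/(k r)`).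
`ω(1 + D t) ≤ log (1 + D t)/log 2 ≤ 2 (log (1 + D) + 2 √(log x))`, `∑_{t ≤ V^2} 1/t ≤ 1 + 2 √(log x)`.  So the number is at most
`C x (log x) (1/z + 1/Y^2 + (1 + log x)/Y) ≤ C' x (1/(log x)^2)` for large `x` (`z ≥ Y`).
-/

set_option autoImplicit false

open Finset

namespace Pool.SG

private theorem DUn_card_pf {n : ℕ} (hn : 0 < n) :
    (n.primeFactors.card : ℝ) ≤ Real.log n / Real.log 2 := by
  have h1 : 2 ^ n.primeFactors.card ≤ n := by
    calc 2 ^ n.primeFactors.card ≤ ∏ q ∈ n.primeFactors, q :=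
          Finset.pow_card_le_prod _ _ _ (fun q hq => (Nat.prime_of_mem_primeFactors hq).two_le)
      _ ≤ n := Nat.le_of_dvd hn (Nat.prod_primeFactors_dvd n)
  have h2 : ((2 : ℝ) ^ n.primeFactors.card) ≤ n := by exact_mod_cast h1
  have hl : 0 < Real.log 2 := Real.log_pos (by norm_num)
  rw [le_div_iff₀ hl]
  have h3 := Real.log_le_log (by positivity) h2
  rw [Real.log_pow] at h3
  exact h3

private theorem DUn_sum (n : ℕ) : ∑ t ∈ Icc 1 n, 1 / (t : ℝ) ≤ 1 + Real.log n := by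
  have h := harmonic_le_one_add_log n
  rw [harmonic_eq_sum_Icc] at h
  push_cast at h
  simpa [one_div] using h

/-- multiples of `m` up to `x` -/
private def DUn_F (x m : ℕ) : Finset ℕ := (Icc 1 x).filter (fun N => m ∣ N)

private theorem DUn_F_card (x m : ℕ) : ((DUn_F x m).card : ℝ) ≤ (x : ℝ) / m := by
  have h1 : DUn_F x m = (Ioc 0 x).filter (fun N => m ∣ N) := by
    unfold DUn_F
    ext N
    simp only [mem_filter, mem_Icc, mem_Ioc]
    constructor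
    · rintro ⟨⟨a, b⟩, c⟩
      exact ⟨⟨by omega, b⟩, c⟩
    · rintro ⟨⟨a, b⟩, c⟩
      exact ⟨⟨by omega, b⟩, c⟩
  rw [h1, Nat.Ioc_filter_dvd_card_eq_div]
  exact Nat.cast_div_le

private theorem DUn_notgood {p e w : ℕ} {z Y : ℝ} (he : 1 < e) (hE : EE p z Y e) (hw : 0 < w)
    (hpw : Nat.Coprime w p) (hg : ¬ Good p e w) :
    ∃ l, l.Prime ∧ l ∣ e ∧ (l ∣ w ∨ od p l ∣ od p w) := by
  by_contra hcon
  push Not at hcon
  refine hg ⟨he, hE.1, fun l hl hle => (hE.2 l hl hle).1, hw, ?_, hpw, fun l hl hle =>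
    (hcon l hl hle).2⟩
  by_contra hc
  obtain ⟨q, hq, hqw, hqe⟩ := Nat.Prime.not_coprime_iff_dvd.1 hc
  exact (hcon q hq hqe).1 hqw

private theorem DUn_cover {p D x N t : ℕ} {z Y : ℝ} (hp : p.Prime) (hD : 0 < D) (R : ℕ → ℕ)
    (hR : ∀ l, PQ p z Y l → (R l).Prime ∧ Y ≤ R l ∧ R l ∣ od p l)
    (hN : N ∈ Icc 1 x) (hpN : ¬ p ∣ N) (htN : t ∣ N) (hE : EE p z Y (1 + D * t))
    (hg : ¬ Good p (1 + D * t) (N / t)) :
    ∃ l ∈ (1 + D * t).primeFactors, N ∈ DUn_F x (t * l) ∨ N ∈ DUn_F x (t * (R l) ^ 2) ∨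
      ∃ k ∈ Icc 1 x, N ∈ DUn_F x (t * (1 + k * R l)) := by
  obtain ⟨hN1, hN2⟩ := mem_Icc.1 hN
  have ht : 0 < t := Nat.pos_of_dvd_of_pos htN hN1
  obtain ⟨w, rfl⟩ := htN
  have hw : 0 < w := Nat.pos_of_mul_pos_left hN1 |> fun _ => by
    rcases Nat.eq_zero_or_pos w with h | h
    · rw [h] at hN1; simp at hN1
    · exact h
  rw [Nat.mul_div_cancel_left _ ht] at hg
  have hpw : Nat.Coprime w p := by
    rw [Nat.coprime_comm, hp.coprime_iff_not_dvd]
    exact fun h => hpN (h.mul_left t)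
  obtain ⟨l, hl, hle, hlw⟩ := DUn_notgood (by nlinarith [Nat.mul_pos hD ht]) hE hw hpw hg
  have hPQ := hE.2 l hl hle
  obtain ⟨hr, hY, hrl⟩ := hR l hPQ
  refine ⟨l, Nat.mem_primeFactors.2 ⟨hl, hle, by omega⟩, ?_⟩
  rcases hlw with hlw | hlw
  · left
    exact mem_filter.2 ⟨hN, Nat.mul_dvd_mul_left t hlw⟩
  · rcases prime_dvd_od hw hpw hr (hrl.trans hlw) with h2 | ⟨l', hl', hl'w, h2⟩
    · right; left
      exact mem_filter.2 ⟨hN, Nat.mul_dvd_mul_left t h2⟩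
    · right; right
      obtain ⟨k, hk⟩ := h2
      have h2l := hl'.two_le
      have hk1 : l' = 1 + k * R l := by
        rw [mul_comm] at hk
        omega
      have hk0 : 1 ≤ k := by
        rcases Nat.eq_zero_or_pos k with h | h
        · rw [h] at hk; omega
        · exact h
      have hkl : k ≤ l' := by
        rw [hk1]
        nlinarith [hr.one_lt, Nat.zero_le k]
      have hlw' : l' ≤ w := Nat.le_of_dvd hw hl'w
      have hwN : w ≤ t * w := Nat.le_mul_of_pos_left w ht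
      refine ⟨k, mem_Icc.2 ⟨hk0, by omega⟩, mem_filter.2 ⟨hN, ?_⟩⟩
      rw [← hk1]
      exact Nat.mul_dvd_mul_left t hl'w

/-- the bound for given `t`, `l` -/
private theorem DUn_one {x t l r : ℕ} {Y : ℝ} (hx : 1 ≤ x) (ht : 0 < t) (hY : 1 ≤ Y) (hl : Y ≤ l) (hr : Y ≤ r) :
    (((DUn_F x (t * l) ∪ (DUn_F x (t * r ^ 2) ∪
      (Icc 1 x).biUnion fun k => DUn_F x (t * (1 + k * r)))).card : ℕ) : ℝ) ≤
      (x : ℝ) / t * ((3 + Real.log x) / Y) := by
  have hx0 : (0 : ℝ) < x := by exact_mod_cast hx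
  have ht0 : (0 : ℝ) < t := by exact_mod_cast ht
  have hY0 : 0 < Y := by linarith
  have hl0 : (0 : ℝ) < l := by linarith
  have hr0 : (0 : ℝ) < r := by linarith
  have h1 : ((DUn_F x (t * l)).card : ℝ) ≤ (x : ℝ) / t * (1 / Y) := by
    refine (DUn_F_card x (t * l)).trans ?_
    push_cast
    rw [div_mul_div_comm, mul_one]
    exact div_le_div_of_nonneg_left hx0.le (by positivity) (mul_le_mul_of_nonneg_left hl ht0.le)
  have h2 : ((DUn_F x (t * r ^ 2)).card : ℝ) ≤ (x : ℝ) / t * (1 / Y) := by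
    refine (DUn_F_card x (t * r ^ 2)).trans ?_
    push_cast
    rw [div_mul_div_comm, mul_one]
    refine div_le_div_of_nonneg_left hx0.le (by positivity) (mul_le_mul_of_nonneg_left ?_ ht0.le)
    nlinarith
  have h3 : ((((Icc 1 x).biUnion fun k => DUn_F x (t * (1 + k * r))).card : ℕ) : ℝ) ≤
      (x : ℝ) / t * ((1 + Real.log x) / Y) := by
    have ha : ((((Icc 1 x).biUnion fun k => DUn_F x (t * (1 + k * r))).card : ℕ) : ℝ) ≤
        ∑ k ∈ Icc 1 x, ((DUn_F x (t * (1 + k * r))).card : ℝ) := by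
      exact_mod_cast Finset.card_biUnion_le
    refine ha.trans ?_
    have hb : ∀ k ∈ Icc 1 x, ((DUn_F x (t * (1 + k * r))).card : ℝ) ≤
        (x : ℝ) / t * (1 / Y) * (1 / (k : ℝ)) := by
      intro k hk
      have hk0 : (0 : ℝ) < k := by exact_mod_cast (mem_Icc.1 hk).1
      refine (DUn_F_card x _).trans ?_
      push_cast
      rw [div_mul_div_comm, div_mul_div_comm, mul_one, mul_one]
      refine div_le_div_of_nonneg_left hx0.le (by positivity) ?_
      rw [mul_assoc]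
      refine mul_le_mul_of_nonneg_left ?_ ht0.le
      nlinarith
    refine (sum_le_sum hb).trans ?_
    rw [← mul_sum]
    have hc := DUn_sum x
    calc (x : ℝ) / t * (1 / Y) * ∑ i ∈ Icc 1 x, 1 / (i : ℝ)
        ≤ (x : ℝ) / t * (1 / Y) * (1 + Real.log x) :=
          mul_le_mul_of_nonneg_left hc (by positivity)
      _ = (x : ℝ) / t * ((1 + Real.log x) / Y) := by ring
  have h4 : (((DUn_F x (t * l) ∪ (DUn_F x (t * r ^ 2) ∪
      (Icc 1 x).biUnion fun k => DUn_F x (t * (1 + k * r)))).card : ℕ) : ℝ) ≤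
      ((DUn_F x (t * l)).card : ℝ) + (((DUn_F x (t * r ^ 2)).card : ℝ) +
        ((((Icc 1 x).biUnion fun k => DUn_F x (t * (1 + k * r))).card : ℕ) : ℝ)) := by
    have h5 := (Finset.card_union_le (DUn_F x (t * l)) (DUn_F x (t * r ^ 2) ∪
      (Icc 1 x).biUnion fun k => DUn_F x (t * (1 + k * r))))
    have h6 := Finset.card_union_le (DUn_F x (t * r ^ 2))
      ((Icc 1 x).biUnion fun k => DUn_F x (t * (1 + k * r)))
    exact_mod_cast h5.trans (Nat.add_le_add_left h6 _)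
  refine h4.trans ?_
  calc _ ≤ (x : ℝ) / t * (1 / Y) + ((x : ℝ) / t * (1 / Y) + (x : ℝ) / t * ((1 + Real.log x) / Y)) :=
        add_le_add h1 (add_le_add h2 h3)
    _ = (x : ℝ) / t * ((3 + Real.log x) / Y) := by ring

open scoped Classical in
private theorem DUn_all {p D x : ℕ} {z Y V : ℝ} (hp : p.Prime) (hD : 0 < D) (hx : 1 ≤ x)
    (hY : 1 ≤ Y) (hzY : Y ≤ z) (hV : 1 ≤ V) :
    (((Icc 1 x).filter (fun N => ¬ p ∣ N ∧ ∃ t : ℕ, t ∣ N ∧ (t : ℝ) ≤ V ∧
          EE p z Y (1 + D * t) ∧ ¬ Good p (1 + D * t) (N / t))).card : ℝ) ≤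
      x * ((1 + Real.log V) * ((Real.log (1 + D) + Real.log V) / Real.log 2) *
        ((3 + Real.log x) / Y)) := by
  have hch : ∀ l, ∃ r : ℕ, PQ p z Y l → r.Prime ∧ Y ≤ r ∧ r ∣ od p l := by
    intro l
    by_cases h : PQ p z Y l
    · obtain ⟨r, h1, h2, h3⟩ := h.2.2
      exact ⟨r, fun _ => ⟨h1, h2, h3⟩⟩
    · exact ⟨0, fun h' => absurd h' h⟩
  choose R hR using hch
  have hx0 : (0 : ℝ) < x := by exact_mod_cast hx
  have hlx : 0 ≤ Real.log x := Real.log_nonneg (by exact_mod_cast hx)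
  have hlV : 0 ≤ Real.log V := Real.log_nonneg hV
  have hlD : 0 ≤ Real.log (1 + D) := Real.log_nonneg (by
    have : (0 : ℝ) ≤ D := Nat.cast_nonneg D
    linarith)
  have hl2 : 0 < Real.log 2 := Real.log_pos (by norm_num)
  have hY0 : 0 < Y := by linarith
  set U : ℕ → ℕ → Finset ℕ := fun t l => DUn_F x (t * l) ∪ (DUn_F x (t * (R l) ^ 2) ∪
      (Icc 1 x).biUnion fun k => DUn_F x (t * (1 + k * (R l)))) with hU
  set T := (Icc 1 ⌊V⌋₊).filter (fun t => EE p z Y (1 + D * t)) with hT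
  have hsub : ((Icc 1 x).filter (fun N => ¬ p ∣ N ∧ ∃ t : ℕ, t ∣ N ∧ (t : ℝ) ≤ V ∧
          EE p z Y (1 + D * t) ∧ ¬ Good p (1 + D * t) (N / t))) ⊆
      T.biUnion fun t => (1 + D * t).primeFactors.biUnion fun l => U t l := by
    intro N hN
    obtain ⟨hN0, hpN, t, htN, htV, hE, hg⟩ := mem_filter.1 hN
    obtain ⟨l, hl, hlN⟩ := DUn_cover hp hD R hR hN0 hpN htN hE hg
    have ht : 0 < t := Nat.pos_of_dvd_of_pos htN (mem_Icc.1 hN0).1
    refine mem_biUnion.2 ⟨t, mem_filter.2 ⟨mem_Icc.2 ⟨ht, Nat.le_floor htV⟩, hE⟩,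
      mem_biUnion.2 ⟨l, hl, ?_⟩⟩
    rw [hU]
    rcases hlN with h | h | ⟨k, hk, h⟩
    · exact mem_union_left _ h
    · exact mem_union_right _ (mem_union_left _ h)
    · exact mem_union_right _ (mem_union_right _ (mem_biUnion.2 ⟨k, hk, h⟩))
  have h1 := (Finset.card_le_card hsub).trans Finset.card_biUnion_le
  have h2 : ∀ t ∈ T, ((((1 + D * t).primeFactors.biUnion fun l => U t l).card : ℕ) : ℝ) ≤
      (x : ℝ) * ((Real.log (1 + D) + Real.log V) / Real.log 2) * ((3 + Real.log x) / Y) *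
        (1 / (t : ℝ)) := by
    intro t ht
    obtain ⟨ht1, hE⟩ := mem_filter.1 ht
    obtain ⟨ht1, ht2⟩ := mem_Icc.1 ht1
    have ht0 : (0 : ℝ) < t := by exact_mod_cast ht1
    have ht1' : (1 : ℝ) ≤ t := by exact_mod_cast ht1
    have htV : (t : ℝ) ≤ V := (Nat.le_floor_iff (by linarith)).1 ht2
    have hb : ∀ l ∈ (1 + D * t).primeFactors, ((U t l).card : ℝ) ≤
        (x : ℝ) / t * ((3 + Real.log x) / Y) := by
      intro l hl
      obtain ⟨hlp, hle, _⟩ := Nat.mem_primeFactors.1 hl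
      have hPQ := hE.2 l hlp hle
      exact DUn_one hx ht1 hY (hzY.trans hPQ.2.1.le) (hR l hPQ).2.1
    have hc : ((((1 + D * t).primeFactors.biUnion fun l => U t l).card : ℕ) : ℝ) ≤
        ∑ l ∈ (1 + D * t).primeFactors, ((U t l).card : ℝ) := by
      exact_mod_cast Finset.card_biUnion_le
    have hcard : ((1 + D * t).primeFactors.card : ℝ) ≤
        (Real.log (1 + D) + Real.log V) / Real.log 2 := by
      refine (DUn_card_pf (by omega)).trans ?_
      refine div_le_div_of_nonneg_right ?_ hl2.le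
      have hD0 : (0 : ℝ) ≤ D := Nat.cast_nonneg D
      rw [← Real.log_mul (by linarith) (by linarith)]
      refine Real.log_le_log (by positivity) ?_
      push_cast
      nlinarith
    have hA : 0 ≤ (x : ℝ) / t * ((3 + Real.log x) / Y) := by positivity
    calc ((((1 + D * t).primeFactors.biUnion fun l => U t l).card : ℕ) : ℝ)
        ≤ ∑ l ∈ (1 + D * t).primeFactors, ((U t l).card : ℝ) := hc
      _ ≤ ∑ _l ∈ (1 + D * t).primeFactors, (x : ℝ) / t * ((3 + Real.log x) / Y) := sum_le_sum hb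
      _ = ((1 + D * t).primeFactors.card : ℝ) * ((x : ℝ) / t * ((3 + Real.log x) / Y)) := by
          rw [sum_const, nsmul_eq_mul]
      _ ≤ ((Real.log (1 + D) + Real.log V) / Real.log 2) * ((x : ℝ) / t * ((3 + Real.log x) / Y)) :=
          mul_le_mul_of_nonneg_right hcard hA
      _ = _ := by ring
  have h3 : (((Icc 1 x).filter (fun N => ¬ p ∣ N ∧ ∃ t : ℕ, t ∣ N ∧ (t : ℝ) ≤ V ∧
          EE p z Y (1 + D * t) ∧ ¬ Good p (1 + D * t) (N / t))).card : ℝ) ≤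
      ∑ t ∈ T, ((((1 + D * t).primeFactors.biUnion fun l => U t l).card : ℕ) : ℝ) := by
    exact_mod_cast h1
  refine h3.trans ((sum_le_sum h2).trans ?_)
  rw [← mul_sum]
  have h4 : ∑ t ∈ T, 1 / (t : ℝ) ≤ 1 + Real.log V := by
    calc ∑ t ∈ T, 1 / (t : ℝ) ≤ ∑ t ∈ Icc 1 ⌊V⌋₊, 1 / (t : ℝ) :=
          sum_le_sum_of_subset_of_nonneg (filter_subset _ _) (fun _ _ _ => by positivity)
      _ ≤ 1 + Real.log ⌊V⌋₊ := DUn_sum _
      _ ≤ 1 + Real.log V := by
          have : (1 : ℝ) ≤ (⌊V⌋₊ : ℝ) := by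
            exact_mod_cast (Nat.one_le_floor_iff V).2 hV
          have := Real.log_le_log (by linarith) (Nat.floor_le (by linarith : (0 : ℝ) ≤ V))
          linarith
  calc (x : ℝ) * ((Real.log (1 + D) + Real.log V) / Real.log 2) * ((3 + Real.log x) / Y) *
        ∑ t ∈ T, 1 / (t : ℝ)
      ≤ (x : ℝ) * ((Real.log (1 + D) + Real.log V) / Real.log 2) * ((3 + Real.log x) / Y) *
        (1 + Real.log V) := mul_le_mul_of_nonneg_left h4 (by positivity)
    _ = _ := by ring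

open scoped Classical in
theorem union_bound {p D : ℕ} (hp : p.Prime) (hp2 : p ≠ 2) (hD : 0 < D) : ∀ ε : ℝ, 0 < ε →
    ∃ x0 : ℕ, ∀ x : ℕ, x0 ≤ x →
      (((Icc 1 x).filter (fun N => ¬ p ∣ N ∧ ∃ t : ℕ, t ∣ N ∧
          (t : ℝ) ≤ vv (1 / 2) (Real.log (Real.log x)) ^ 2 ∧
          EE p (zz (Real.log (Real.log x))) (YY (Real.log (Real.log x))) (1 + D * t) ∧
          ¬ Good p (1 + D * t) (N / t))).card : ℝ) ≤ ε * x := by
  intro ε hε
  set lD : ℝ := Real.log (1 + D) with hlD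
  set C : ℝ := 9 + lD ^ 2 + 30 / ε with hC
  refine ⟨⌈Real.exp C⌉₊, fun x hx => ?_⟩
  have hexp : Real.exp C ≤ x := (Nat.le_ceil _).trans (by exact_mod_cast hx)
  have hx0 : (0 : ℝ) < x := (Real.exp_pos C).trans_le hexp
  have hx1 : 1 ≤ x := by exact_mod_cast hx0
  set L : ℝ := Real.log x with hL
  have hCL : C ≤ L := (Real.le_log_iff_exp_le hx0).2 hexp
  have hq : 0 < 30 / ε := by positivity
  have hL9 : 9 ≤ L := by nlinarith [sq_nonneg lD]
  have hLD : lD ^ 2 ≤ L := by nlinarith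
  have hLe : 30 / ε ≤ L := by nlinarith [sq_nonneg lD]
  have hL0 : 0 < L := by linarith
  have hlD0 : 0 ≤ lD := Real.log_nonneg (by
    have : (0 : ℝ) ≤ D := Nat.cast_nonneg D
    linarith)
  set ℓ : ℝ := Real.log L with hℓ
  have hℓL : Real.exp ℓ = L := Real.exp_log hL0
  have hℓ2 : 2 ≤ ℓ := by
    rw [hℓ, Real.le_log_iff_exp_le hL0]
    have h := Real.exp_one_lt_d9
    have h2 : Real.exp 2 = Real.exp 1 * Real.exp 1 := by rw [← Real.exp_add]; norm_num
    have h3 := Real.exp_pos 1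
    nlinarith
  have hYY : YY ℓ = L ^ 4 := by
    unfold YY
    rw [← hℓL, ← Real.exp_nat_mul]
    norm_num
  have hzz : YY ℓ ≤ zz ℓ := by
    unfold YY zz
    refine Real.exp_le_exp.2 ?_
    nlinarith [mul_nonneg (by linarith : (0 : ℝ) ≤ ℓ) (by nlinarith : (0 : ℝ) ≤ ℓ ^ 2 - 4)]
  set s : ℝ := Real.exp (1 / 2 * ℓ) with hs
  have hs2 : s ^ 2 = L := by
    rw [hs, ← Real.exp_nat_mul, ← hℓL]
    congr 1
    push_cast
    ring
  have hs0 : 0 < s := Real.exp_pos _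
  have hs3 : 3 ≤ s := by nlinarith
  have hVlog : Real.log (vv (1 / 2) ℓ ^ 2) = 2 * s := by
    unfold vv lv
    rw [Real.log_pow, Real.log_exp, ← hs]
    norm_num
  have hV1 : 1 ≤ vv (1 / 2) ℓ ^ 2 := by
    have h : 1 ≤ vv (1 / 2) ℓ := by
      unfold vv
      exact Real.one_le_exp (Real.exp_pos _).le
    nlinarith
  have hY1 : 1 ≤ YY ℓ := by
    rw [hYY]
    exact one_le_pow₀ (by linarith)
  refine (DUn_all hp hD hx1 hY1 hzz hV1).trans ?_
  rw [mul_comm ε, hVlog, ← hL, hYY]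
  refine mul_le_mul_of_nonneg_left ?_ hx0.le
  have hlds : lD ≤ s := by
    refine le_of_sq_le_sq ?_ hs0.le
    rw [hs2]
    exact hLD
  have hlog2 : 0.69 ≤ Real.log 2 := by
    have := Real.log_two_gt_d9
    linarith
  have h1 : (lD + 2 * s) / Real.log 2 ≤ 5 * s := by
    rw [div_le_iff₀ (by linarith)]
    nlinarith
  have h2 : (3 + L) / L ^ 4 ≤ 2 * L / L ^ 4 :=
    div_le_div_of_nonneg_right (by linarith) (by positivity)
  have h3 : 0 ≤ (lD + 2 * s) / Real.log 2 := div_nonneg (by linarith) (by linarith)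
  have h4 : 0 ≤ (3 + L) / L ^ 4 := by positivity
  have h5 : (1 + 2 * s) * ((lD + 2 * s) / Real.log 2) ≤ (3 * s) * (5 * s) :=
    mul_le_mul (by linarith) h1 h3 (by positivity)
  calc (1 + 2 * s) * ((lD + 2 * s) / Real.log 2) * ((3 + L) / L ^ 4)
      ≤ ((3 * s) * (5 * s)) * (2 * L / L ^ 4) := mul_le_mul h5 h2 h4 (by positivity)
    _ = 30 * (s ^ 2 * L) / L ^ 4 := by ring
    _ = 30 / L ^ 2 := by
        rw [hs2]
        field_simp
    _ ≤ ε := by
        rw [div_le_iff₀ (by positivity)]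
        rw [div_le_iff₀ hε] at hLe
        nlinarith

end Pool.SG
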