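import Pool.Agent.Lib.MP_a51fee_ag.SG.NScl
import Pool.Agent.Lib.MP_a51fee_ag.SG.DSm
import Pool.Agent.Lib.MP_a51fee_ag.SG.DCnt
import Pool.Agent.Lib.MP_a51fee_ag.SG.DUn

/-!
# SG-DMain: the density theorem

PROOF.  Let `c0` be the constant of `beta` (`0 < c0 ≤ 1`), `C` that of `count_bad`.  Choose `J ≥ 1` with `C (1 - c0)^J ≤ ε/4`.
`κ_i = (1/2) 1000^{-(J-1-i)}`, `i : Fin J`, `κ0 = κ_0 > 0` the smallest, `κ_i ≤ 1/2`.  Let `x` be large, `ℓ = log log x ≥ ℓ0(κ0)` (the `Ev` of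
`beta`).  `P i = pr (uu κ_i ℓ) (vv κ_i ℓ)`; `uu κ_i ℓ = vv κ_{i-1} ℓ` (`κ_i/1000 = κ_{i-1}`) and `vv` is monotone in `κ`: the `P i` are
pairwise disjoint.  `Bd i M := ¬ Gd p D κ_i ℓ M`, `V = vv (1/2) ℓ = exp (√(log x))`: `V^1001 ≤ √x` (`1001 √(log x) ≤ (1/2) log x`),
`q ∈ P i` is `> uu κ0 ℓ = exp (exp (κ0 ℓ/1000)) ≥ exp ℓ = log x` for large `x`.
An exceptional `N` (`p ∤ N`, no `t`) is in one of:
(1) `pd {q ∈ pr 1 V | q ∣ N} > √x`: at most `2 x (√(log x) + C)/log x ≤ ε x/4` (`smooth_part`);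
(2) all `Bd i {q ∈ P i | q ∣ N}` and the part of `⋃ P i` (a subset of `pr 1 V`) is `≤ √x`: at most `C x (1 - c0)^J ≤ ε x/4`
 (`count_bad`, `beta`; the factors are `≥ 0`);
(3) some `i` with `Gd p D κ_i ℓ {q ∈ P i | q ∣ N}`: `T`, `t = pd T ∣ N`, `t ≤ vv κ_i ℓ^2 ≤ V^2`, `EE (1 + D t)`, and not `Good p (1 + D t) (N/t)`:
 at most `ε x/4` (`union_bound`).
-/

set_option autoImplicit false

open Finset

namespace Pool.SG

private theorem vv_mono {a b ℓ : ℝ} (hab : a ≤ b) (hℓ : 0 ≤ ℓ) : vv a ℓ ≤ vv b ℓ := by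
  unfold vv lv
  apply Real.exp_le_exp.2
  apply Real.exp_le_exp.2
  exact mul_le_mul_of_nonneg_right hab hℓ

private theorem vv_le_uu {a b ℓ : ℝ} (hab : a ≤ b / 1000) (hℓ : 0 ≤ ℓ) : vv a ℓ ≤ uu b ℓ := by
  unfold vv lv uu
  apply Real.exp_le_exp.2
  apply Real.exp_le_exp.2
  exact mul_le_mul_of_nonneg_right hab hℓ

private theorem vv_pos (a ℓ : ℝ) : 0 < vv a ℓ := Real.exp_pos _

private theorem pd_dvd {N : ℕ} {T : Finset ℕ} (hT : ∀ q ∈ T, q.Prime ∧ q ∣ N) : pd T ∣ N := by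
  unfold pd
  apply Finset.prod_primes_dvd
  · intro q hq
    exact (hT q hq).1.prime
  · intro q hq
    exact (hT q hq).2

private theorem pd_mono {A B : Finset ℕ} (hAB : A ⊆ B) (hB : ∀ q ∈ B, 1 ≤ q) : pd A ≤ pd B := by
  unfold pd
  exact Finset.prod_le_prod_of_subset_of_one_le' hAB fun q hq _ => hB q hq

open scoped Classical in
theorem dens {p D : ℕ} (hp : p.Prime) (hp2 : p ≠ 2) (h : HD p D) : ∀ ε : ℝ, 0 < ε →
    ∃ x0 : ℕ, ∀ x : ℕ, x0 ≤ x →
      (((Icc 1 x).filter (fun N => ¬ p ∣ N ∧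
        ¬ ∃ t : ℕ, t ∣ N ∧ Good p (1 + D * t) (N / t))).card : ℝ) ≤ ε * x := by
  intro ε hε
  obtain ⟨C1, hC1, h1⟩ := smooth_part
  obtain ⟨C2, hC2, h2⟩ := count_bad
  obtain ⟨c0, hc0, hc1, hb⟩ := beta hp hp2 h
  obtain ⟨xu, hu⟩ := union_bound hp hp2 h.pos (ε / 4) (by positivity)
  obtain ⟨J, hJ⟩ : ∃ J : ℕ, C2 * (1 - c0) ^ J ≤ ε / 4 := by
    obtain ⟨J, hJ⟩ := exists_pow_lt_of_lt_one (show 0 < ε / 4 / C2 by positivity)
      (show 1 - c0 < 1 by linarith)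
    refine ⟨J, ?_⟩
    rw [lt_div_iff₀ hC2] at hJ
    linarith
  set κ : Fin J → ℝ := fun i => (1 / 2) / 1000 ^ (J - 1 - (i : ℕ)) with hκ
  set κ0 : ℝ := (1 / 2) / 1000 ^ J with hκ0
  have hκ0p : 0 < κ0 := by positivity
  have hκ1 : ∀ i, κ0 ≤ κ i := by
    intro i
    apply div_le_div_of_nonneg_left (by norm_num) (by positivity)
    exact pow_le_pow_right₀ (by norm_num) (by omega)
  have hκ2 : ∀ i, κ i ≤ 1 / 2 := by
    intro i
    apply div_le_self (by norm_num)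
    exact one_le_pow₀ (by norm_num)
  have hκ3 : ∀ i j : Fin J, i < j → κ i ≤ κ j / 1000 := by
    intro i j hij
    simp only [hκ]
    have h5 : (1 / 2 : ℝ) / 1000 ^ (J - 1 - (j : ℕ)) / 1000 =
        (1 / 2) / 1000 ^ (J - 1 - (j : ℕ) + 1) := by
      rw [pow_succ, div_div]
    rw [h5]
    apply div_le_div_of_nonneg_left (by norm_num) (by positivity)
    apply pow_le_pow_right₀ (by norm_num)
    have h3 : (i : ℕ) < j := hij
    have h4 := j.isLt
    omega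
  obtain ⟨ℓ0, hℓ0⟩ := hb κ0 hκ0p
  have hev : ∀ᶠ x : ℕ in Filter.atTop, ℓ0 ≤ Real.log (Real.log x) ∧
      2 / (κ0 / 1000) ^ 2 ≤ Real.log (Real.log x) ∧ 4004 ≤ Real.log (Real.log x) ∧
      2 * (8 * (1 + C1) / ε) ≤ Real.log (Real.log x) := by
    have ht : Filter.Tendsto (fun x : ℕ => Real.log (Real.log x)) Filter.atTop Filter.atTop :=
      Real.tendsto_log_atTop.comp (Real.tendsto_log_atTop.comp tendsto_natCast_atTop_atTop)
    exact (ht.eventually_ge_atTop _).and ((ht.eventually_ge_atTop _).and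
      ((ht.eventually_ge_atTop _).and (ht.eventually_ge_atTop _)))
  obtain ⟨x1, hx1⟩ := Filter.eventually_atTop.1 hev
  refine ⟨max (max x1 xu) 3, fun x hx => ?_⟩
  have hxx1 : x1 ≤ x := ((le_max_left _ _).trans (le_max_left _ _)).trans hx
  have hxxu : xu ≤ x := ((le_max_right _ _).trans (le_max_left _ _)).trans hx
  have hx3 : 3 ≤ x := (le_max_right _ _).trans hx
  obtain ⟨e1, e2, e3, e4⟩ := hx1 x hxx1
  set ℓ := Real.log (Real.log x) with hℓ
  have hℓp : 0 < ℓ := by linarith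
  have hx3' : (3 : ℝ) ≤ x := by exact_mod_cast hx3
  have hxp : (0 : ℝ) < x := by linarith
  have hlx : 0 < Real.log x := Real.log_pos (by linarith)
  have hel : Real.exp ℓ = Real.log x := by rw [hℓ, Real.exp_log hlx]
  set r := Real.exp (ℓ / 2) with hr
  have hrp : 0 < r := Real.exp_pos _
  have hr2 : r * r = Real.log x := by
    rw [hr, ← Real.exp_add, ← hel]
    congr 1
    ring
  have hrl : ℓ / 2 ≤ r := by
    have := Real.add_one_le_exp (ℓ / 2)
    rw [← hr] at this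
    linarith
  have hr1 : 2002 ≤ r := by linarith
  have hr3 : 8 * (1 + C1) / ε ≤ r := by linarith
  set V := vv (1 / 2) ℓ with hV
  have hVr : V = Real.exp r := by
    rw [hV, hr]
    unfold vv lv
    congr 2
    ring
  have hlogV : Real.log V = r := by rw [hVr, Real.log_exp]
  have hV2 : 2 ≤ V := by
    rw [hVr]
    have := Real.add_one_le_exp r
    linarith
  have hVx : V ^ 1001 ≤ Real.sqrt x := by
    apply Real.le_sqrt_of_sq_le
    rw [hVr, ← Real.exp_nat_mul, ← Real.exp_nat_mul]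
    have h3 : (x : ℝ) = Real.exp (r * r) := by rw [hr2, Real.exp_log hxp]
    rw [h3]
    apply Real.exp_le_exp.2
    push_cast
    nlinarith
  -- the scales
  set P : Fin J → Finset ℕ := fun i => pr (uu (κ i) ℓ) (vv (κ i) ℓ) with hP
  have hPm : ∀ i, ∀ q ∈ P i, q.Prime ∧ uu (κ i) ℓ < q ∧ (q : ℝ) ≤ vv (κ i) ℓ :=
    fun i q hq => (mem_pr (vv_pos _ _).le).1 hq
  have hPx : ∀ i, ∀ q ∈ P i, q.Prime ∧ Real.log x ≤ (q : ℝ) ∧ (q : ℝ) ≤ V := by
    intro i q hq
    obtain ⟨g1, g2, g3⟩ := hPm i q hq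
    refine ⟨g1, ?_, g3.trans (vv_mono (hκ2 i) hℓp.le)⟩
    refine le_trans ?_ g2.le
    rw [← hel]
    unfold uu
    apply Real.exp_le_exp.2
    have g4 : κ0 / 1000 * ℓ ≤ κ i / 1000 * ℓ := by
      apply mul_le_mul_of_nonneg_right _ hℓp.le
      have := hκ1 i
      linarith
    refine le_trans ?_ (Real.exp_le_exp.2 g4)
    have g5 : 0 ≤ κ0 / 1000 * ℓ := by positivity
    refine le_trans ?_ (Real.quadratic_le_exp_of_nonneg g5)
    have g6 : 2 / (κ0 / 1000) ^ 2 ≤ ℓ := e2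
    rw [div_le_iff₀ (by positivity)] at g6
    nlinarith [sq_nonneg (κ0 / 1000 * ℓ)]
  have hdisj : ∀ i j, i ≠ j → Disjoint (P i) (P j) := by
    have key : ∀ i j : Fin J, i < j → Disjoint (P i) (P j) := by
      intro i j hij
      rw [Finset.disjoint_left]
      intro q hq hq'
      have g1 := (hPm i q hq).2.2
      have g2 := (hPm j q hq').2.1
      have g3 := vv_le_uu (hκ3 i j hij) hℓp.le
      linarith
    intro i j hij
    rcases lt_or_gt_of_ne hij with g | g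
    · exact key i j g
    · exact (key j i g).symm
  have hsub : univ.biUnion P ⊆ pr 1 V := by
    intro q hq
    obtain ⟨i, -, hi⟩ := Finset.mem_biUnion.1 hq
    obtain ⟨g1, -, g3⟩ := hPx i q hi
    rw [mem_pr (by linarith)]
    exact ⟨g1, by exact_mod_cast g1.one_lt, g3⟩
  -- the three bounds
  have b1 : (((Icc 1 x).filter (fun N =>
        Real.sqrt x < (pd ((pr 1 V).filter (fun q => q ∣ N)) : ℝ))).card : ℝ) ≤ ε / 4 * x := by
    refine (h1 V hV2 x (by omega)).trans ?_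
    rw [hlogV, ← hr2, div_le_iff₀ (by positivity)]
    have g1 : 8 * (1 + C1) ≤ r * ε := by
      rwa [div_le_iff₀ hε] at hr3
    have g2 : 8 * (r + C1) ≤ ε * (r * r) := by nlinarith
    nlinarith
  have b2 := h2 J P (fun i M => ¬ Gd p D (κ i) ℓ M) V x hV2 hVx hPx hdisj
  have b2' : C2 * x * ∏ i, ((∏ q ∈ P i, (1 - 1 / (q : ℝ))) *
        ∑ M ∈ (P i).powerset.filter (fun M => ¬ Gd p D (κ i) ℓ M), wt M) ≤ ε / 4 * x := by
    have g1 : ∏ i, ((∏ q ∈ P i, (1 - 1 / (q : ℝ))) *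
        ∑ M ∈ (P i).powerset.filter (fun M => ¬ Gd p D (κ i) ℓ M), wt M) ≤ (1 - c0) ^ J := by
      have g2 : ∏ i, ((∏ q ∈ P i, (1 - 1 / (q : ℝ))) *
        ∑ M ∈ (P i).powerset.filter (fun M => ¬ Gd p D (κ i) ℓ M), wt M) ≤
          ∏ _i : Fin J, (1 - c0) := by
        apply Finset.prod_le_prod
        · intro i _
          apply mul_nonneg
          · apply Finset.prod_nonneg
            intro q hq
            have g3 : (1 : ℝ) ≤ q := by exact_mod_cast (hPm i q hq).1.one_lt.le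
            rw [sub_nonneg, div_le_one (by linarith)]
            exact g3
          · exact Finset.sum_nonneg fun M _ => wt_nonneg M
        · intro i _
          exact hℓ0 ℓ e1 (κ i) (hκ1 i) (hκ2 i)
      rwa [Finset.prod_const, Finset.card_univ, Fintype.card_fin] at g2
    calc C2 * x * ∏ i, ((∏ q ∈ P i, (1 - 1 / (q : ℝ))) *
        ∑ M ∈ (P i).powerset.filter (fun M => ¬ Gd p D (κ i) ℓ M), wt M)
        ≤ C2 * x * (1 - c0) ^ J := mul_le_mul_of_nonneg_left g1 (by positivity)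
      _ = (C2 * (1 - c0) ^ J) * x := by ring
      _ ≤ ε / 4 * x := mul_le_mul_of_nonneg_right hJ hxp.le
  have b3 := hu x hxxu
  -- the union
  have hcov : (Icc 1 x).filter (fun N => ¬ p ∣ N ∧
        ¬ ∃ t : ℕ, t ∣ N ∧ Good p (1 + D * t) (N / t)) ⊆
      ((Icc 1 x).filter (fun N =>
        Real.sqrt x < (pd ((pr 1 V).filter (fun q => q ∣ N)) : ℝ)) ∪
      (Icc 1 x).filter (fun N => (∀ i, ¬ Gd p D (κ i) ℓ ((P i).filter (fun q => q ∣ N))) ∧
        (pd ((univ.biUnion P).filter (fun q => q ∣ N)) : ℝ) ≤ Real.sqrt x)) ∪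
      (Icc 1 x).filter (fun N => ¬ p ∣ N ∧ ∃ t : ℕ, t ∣ N ∧
          (t : ℝ) ≤ vv (1 / 2) (Real.log (Real.log x)) ^ 2 ∧
          EE p (zz (Real.log (Real.log x))) (YY (Real.log (Real.log x))) (1 + D * t) ∧
          ¬ Good p (1 + D * t) (N / t)) := by
    intro N hN
    obtain ⟨hN1, hpN, hno⟩ := Finset.mem_filter.1 hN
    rw [Finset.mem_union, Finset.mem_union, Finset.mem_filter, Finset.mem_filter,
      Finset.mem_filter]
    rcases lt_or_ge (Real.sqrt x) (pd ((pr 1 V).filter (fun q => q ∣ N)) : ℝ) with g | g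
    · exact Or.inl (Or.inl ⟨hN1, g⟩)
    · by_cases hG : ∀ i, ¬ Gd p D (κ i) ℓ ((P i).filter (fun q => q ∣ N))
      · refine Or.inl (Or.inr ⟨hN1, hG, le_trans ?_ g⟩)
        have g1 : pd ((univ.biUnion P).filter (fun q => q ∣ N)) ≤
            pd ((pr 1 V).filter (fun q => q ∣ N)) := by
          apply pd_mono (Finset.filter_subset_filter _ hsub)
          intro q hq
          exact ((mem_pr (by linarith)).1 (Finset.mem_filter.1 hq).1).1.one_lt.le
        exact_mod_cast g1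
      · push Not at hG
        obtain ⟨i, T, hT1, hT2, hT3⟩ := hG
        have g1 : pd T ∣ N := pd_dvd fun q hq =>
          ⟨(hPm i q (Finset.mem_filter.1 (hT1 hq)).1).1, (Finset.mem_filter.1 (hT1 hq)).2⟩
        refine Or.inr ⟨hN1, hpN, pd T, g1, ?_, hT3, fun hgood => hno ⟨pd T, g1, hgood⟩⟩
        refine hT2.trans ?_
        exact pow_le_pow_left₀ (vv_pos _ _).le (vv_mono (hκ2 i) hℓp.le) 2
  have hcard := Finset.card_le_card hcov
  have hcard2 := hcard.trans ((Finset.card_union_le _ _).trans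
    (Nat.add_le_add_right (Finset.card_union_le _ _) _))
  have hcard3 : (((Icc 1 x).filter (fun N => ¬ p ∣ N ∧
        ¬ ∃ t : ℕ, t ∣ N ∧ Good p (1 + D * t) (N / t))).card : ℝ) ≤
      (((Icc 1 x).filter (fun N =>
        Real.sqrt x < (pd ((pr 1 V).filter (fun q => q ∣ N)) : ℝ))).card : ℝ) +
      (((Icc 1 x).filter (fun N => (∀ i, ¬ Gd p D (κ i) ℓ ((P i).filter (fun q => q ∣ N))) ∧
        (pd ((univ.biUnion P).filter (fun q => q ∣ N)) : ℝ) ≤ Real.sqrt x)).card : ℝ) +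
      (((Icc 1 x).filter (fun N => ¬ p ∣ N ∧ ∃ t : ℕ, t ∣ N ∧
          (t : ℝ) ≤ vv (1 / 2) (Real.log (Real.log x)) ^ 2 ∧
          EE p (zz (Real.log (Real.log x))) (YY (Real.log (Real.log x))) (1 + D * t) ∧
          ¬ Good p (1 + D * t) (N / t))).card : ℝ) := by
    exact_mod_cast hcard2
  have b2'' : (((Icc 1 x).filter (fun N => (∀ i, ¬ Gd p D (κ i) ℓ ((P i).filter (fun q => q ∣ N))) ∧
        (pd ((univ.biUnion P).filter (fun q => q ∣ N)) : ℝ) ≤ Real.sqrt x)).card : ℝ) ≤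
      ε / 4 * x := by
    refine le_trans (le_of_eq ?_) (b2.trans (le_trans (le_of_eq ?_) b2'))
    · congr!
    · congr!
  have hεx : 0 ≤ ε * x := by positivity
  linarith


end Pool.SG
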