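import Pool.Agent.Lib.MP_a51fee_ag.SG.NMert
import Pool.Agent.Lib.MP_c77da8_nt.Sv4

/-!
# SG-DRc: integers without prime factors in a set

PROOF of `rough_count`.  Let `t` be the least integer with `z ≤ 2^(2^t)`; then `2^(2^t) ≤ z^2`.  `sieve_blk` (library
`MP_c77da8_nt/Sv4.lean`, upper bound), `k = 1`, `u = 1`, `N = X + 1`, `M = 1`, `v = 0`, `B q = {0}` if `q ∈ Q`, otherwise `∅`: the
blocks contain all primes in `(2, 2^(2^t)]`, so the number is at most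
`2 (X + 1) ∏_{q ∈ Q, q > 2} (1 - 1/q) + 2^(204 * 2^t) ≤ 8 X ∏_{q ∈ Q} (1 - 1/q) + z^408`
(the factor of `q = 2` costs `2`).  `∏_{q ∈ Q} (1 - 1/q) ≥ ∏_{q ∈ pr 1 z} (1 - 1/q) ≥ c/log z ≥ c/z` (`mert_prod`) and
`z^408 ≤ z^1000/z ≤ X/z ≤ (1/c) X ∏_{q ∈ Q} (1 - 1/q)`.
-/

set_option autoImplicit false

open Finset

namespace Pool.SG

private theorem drc_t (z : ℝ) (hz : 2 ≤ z) : ∃ t : ℕ, z ≤ (2 : ℝ) ^ (2 ^ t) ∧ (2 : ℝ) ^ (2 ^ t) ≤ z ^ 2 := by
  classical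
  have hex : ∃ t : ℕ, z ≤ (2 : ℝ) ^ (2 ^ t) := by
    obtain ⟨n, hn⟩ := pow_unbounded_of_one_lt z (by norm_num : (1 : ℝ) < 2)
    refine ⟨n, hn.le.trans ?_⟩
    exact pow_le_pow_right₀ (by norm_num) (Nat.lt_two_pow_self).le
  refine ⟨Nat.find hex, Nat.find_spec hex, ?_⟩
  rcases Nat.eq_zero_or_pos (Nat.find hex) with h0 | h0
  · rw [h0]
    norm_num
    nlinarith
  · have h1 := Nat.find_min hex (m := Nat.find hex - 1) (by omega)
    rw [not_le] at h1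
    have h2 : (2 : ℝ) ^ (2 ^ Nat.find hex) = ((2 : ℝ) ^ (2 ^ (Nat.find hex - 1))) ^ 2 := by
      rw [← pow_mul, ← pow_succ]
      congr 2
      omega
    rw [h2]
    exact pow_le_pow_left₀ (by positivity) h1.le 2

open scoped Classical in
theorem rough_count : ∃ C : ℝ, 0 < C ∧ ∀ z : ℝ, 2 ≤ z → ∀ Q : Finset ℕ,
    (∀ q ∈ Q, q.Prime ∧ (q : ℝ) ≤ z) → ∀ X : ℕ, z ^ 1000 ≤ (X : ℝ) →
      (((Icc 1 X).filter (fun n => ∀ q ∈ Q, ¬ q ∣ n)).card : ℝ) ≤
        C * X * ∏ q ∈ Q, (1 - 1 / (q : ℝ)) := by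
  obtain ⟨c, C0, hc, hC0, hm⟩ := mert_prod
  refine ⟨8 + 1 / c, by positivity, ?_⟩
  intro z hz Q hQ X hX
  obtain ⟨t, ht1, ht2⟩ := drc_t z hz
  set B : ℕ → Finset ℕ := fun q => if q ∈ Q then {0} else ∅ with hB
  have hz0 : (0 : ℝ) ≤ z := by linarith
  have hz1 : (1 : ℝ) ≤ z := by linarith
  have hX1 : (1 : ℝ) ≤ X := (one_le_pow₀ hz1).trans hX
  have key := (Pool.Agent.Lib.MP_c77da8_nt.Sv.sieve_blk 1 1 t le_rfl (by norm_num) le_rfl B
    (fun j q _ => by rw [hB]; simp only; split_ifs <;> simp)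
    (fun j q hq b hb => by
      rw [hB] at hb
      simp only at hb
      split_ifs at hb with h
      · rw [Finset.mem_singleton] at hb
        rw [hb]
        exact (hQ q h).1.pos
      · simp at hb) (X + 1) 1 0 one_pos (fun j q _ => Nat.coprime_one_left q)).2
  have hsub : (Icc 1 X).filter (fun n => ∀ q ∈ Q, ¬ q ∣ n) ⊆
      ((range (X + 1)).filter fun m => m ≡ 0 [MOD 1] ∧
        ∀ j, ∀ q ∈ Pool.Agent.Lib.MP_c77da8_nt.Sv.blk 1 t j, m % q ∉ B q) := by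
    intro n hn
    rw [Finset.mem_filter, Finset.mem_Icc] at hn
    rw [Finset.mem_filter, Finset.mem_range]
    refine ⟨by omega, Nat.modEq_one, ?_⟩
    intro j q _ hmem
    rw [hB] at hmem
    simp only at hmem
    split_ifs at hmem with h
    · rw [Finset.mem_singleton] at hmem
      exact hn.2 q h (Nat.dvd_of_mod_eq_zero hmem)
    · simp at hmem
  have h1 : (((Icc 1 X).filter (fun n => ∀ q ∈ Q, ¬ q ∣ n)).card : ℝ) ≤
      (((range (X + 1)).filter fun m => m ≡ 0 [MOD 1] ∧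
        ∀ j, ∀ q ∈ Pool.Agent.Lib.MP_c77da8_nt.Sv.blk 1 t j, m % q ∉ B q).card : ℝ) := by
    exact_mod_cast Finset.card_le_card hsub
  -- factors
  have hfac : ∀ q ∈ Q, 0 < 1 - 1 / (q : ℝ) ∧ 1 - 1 / (q : ℝ) ≤ 1 ∧ 1 / 2 ≤ 1 - 1 / (q : ℝ) := by
    intro q hq
    have h2 : (2 : ℝ) ≤ q := by exact_mod_cast (hQ q hq).1.two_le
    have h3 : 1 / (q : ℝ) ≤ 1 / 2 := one_div_le_one_div_of_le (by norm_num) h2
    have h4 : 0 ≤ 1 / (q : ℝ) := by positivity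
    refine ⟨by linarith, by linarith, by linarith⟩
  have hPQ0 : 0 < ∏ q ∈ Q, (1 - 1 / (q : ℝ)) := prod_pos fun q hq => (hfac q hq).1
  -- the product over the blocks
  have hprod : ∏ j, ∏ q ∈ Pool.Agent.Lib.MP_c77da8_nt.Sv.blk 1 t j, (1 - ((B q).card : ℝ) / q) ≤
      2 * ∏ q ∈ Q, (1 - 1 / (q : ℝ)) := by
    have e1 : ∏ j, ∏ q ∈ Pool.Agent.Lib.MP_c77da8_nt.Sv.blk 1 t j, (1 - ((B q).card : ℝ) / q) =
        ∏ q ∈ (univ : Finset (Fin t)).biUnion (Pool.Agent.Lib.MP_c77da8_nt.Sv.blk 1 t),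
          (1 - ((B q).card : ℝ) / q) := by
      rw [Finset.prod_biUnion]
      intro i _ j _ hij
      exact Pool.Agent.Lib.MP_c77da8_nt.Sv.blk_disj 1 t i j hij
    have e2 : ∏ q ∈ (univ : Finset (Fin t)).biUnion (Pool.Agent.Lib.MP_c77da8_nt.Sv.blk 1 t),
          (1 - ((B q).card : ℝ) / q) = ∏ q ∈ Q.filter (fun q => 2 < q), (1 - 1 / (q : ℝ)) := by
      have hsub2 : Q.filter (fun q => 2 < q) ⊆
          (univ : Finset (Fin t)).biUnion (Pool.Agent.Lib.MP_c77da8_nt.Sv.blk 1 t) := by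
        intro q hq
        rw [Finset.mem_filter] at hq
        rw [Finset.mem_biUnion]
        obtain ⟨j, hj⟩ := Pool.Agent.Lib.MP_c77da8_nt.Sv.exists_blk (u := 1) (t := t)
          (hQ q hq.1).1 (by simpa using hq.2) (by
            have h3 : (q : ℝ) ≤ (2 : ℝ) ^ (2 ^ t) := (hQ q hq.1).2.trans ht1
            rw [one_mul]
            exact_mod_cast h3)
        exact ⟨j, Finset.mem_univ _, hj⟩
      have hz2 : ∀ q ∈ (univ : Finset (Fin t)).biUnion (Pool.Agent.Lib.MP_c77da8_nt.Sv.blk 1 t),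
          q ∉ Q.filter (fun q => 2 < q) → (1 - ((B q).card : ℝ) / q) = 1 := by
        intro q hq hq'
        rw [Finset.mem_biUnion] at hq
        obtain ⟨j, _, hj⟩ := hq
        have h2 := Pool.Agent.Lib.MP_c77da8_nt.Sv.blk_gt hj
        have h3 : q ∉ Q := fun h => hq' (Finset.mem_filter.2 ⟨h, by simpa using h2⟩)
        rw [hB]
        simp only
        rw [if_neg h3]
        simp
      rw [← Finset.prod_subset hsub2 hz2]
      refine Finset.prod_congr rfl fun q hq => ?_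
      rw [Finset.mem_filter] at hq
      rw [hB]
      simp only
      rw [if_pos hq.1]
      simp
    rw [e1, e2]
    have h3 : (∏ q ∈ Q.filter (fun q => 2 < q), (1 - 1 / (q : ℝ))) *
        ∏ q ∈ Q.filter (fun q => ¬ 2 < q), (1 - 1 / (q : ℝ)) = ∏ q ∈ Q, (1 - 1 / (q : ℝ)) :=
      Finset.prod_filter_mul_prod_filter_not Q _ _
    have h4 : 1 / 2 ≤ ∏ q ∈ Q.filter (fun q => ¬ 2 < q), (1 - 1 / (q : ℝ)) := by
      have h5 : Q.filter (fun q => ¬ 2 < q) ⊆ {2} := by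
        intro q hq
        rw [Finset.mem_filter] at hq
        rw [Finset.mem_singleton]
        have := (hQ q hq.1).1.two_le
        omega
      rcases Finset.subset_singleton_iff.1 h5 with h6 | h6
      · rw [h6, Finset.prod_empty]; norm_num
      · rw [h6, Finset.prod_singleton]; norm_num
    have h5 : 0 < ∏ q ∈ Q.filter (fun q => 2 < q), (1 - 1 / (q : ℝ)) :=
      prod_pos fun q hq => (hfac q (Finset.mem_filter.1 hq).1).1
    rw [← h3]
    nlinarith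
  -- lower bound for the product
  have hlow : c / z ≤ ∏ q ∈ Q, (1 - 1 / (q : ℝ)) := by
    have h2 := (hm z hz).1
    have hlz : 0 < Real.log z := Real.log_pos (by linarith)
    have h3 : c / z ≤ c / Real.log z := by
      apply div_le_div_of_nonneg_left hc.le hlz
      have := Real.log_le_sub_one_of_pos (x := z) (by linarith)
      linarith
    refine h3.trans (h2.trans ?_)
    have hsubQ : Q ⊆ pr 1 z := by
      intro q hq
      rw [mem_pr hz0]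
      exact ⟨(hQ q hq).1, by exact_mod_cast (hQ q hq).1.one_lt, (hQ q hq).2⟩
    rw [← Finset.prod_sdiff hsubQ]
    have h4 : ∏ q ∈ pr 1 z \ Q, (1 - 1 / (q : ℝ)) ≤ 1 := by
      apply Finset.prod_le_one
      · intro q hq
        have h5 := (mem_pr hz0).1 (Finset.mem_sdiff.1 hq).1
        have h6 : (2 : ℝ) ≤ q := by exact_mod_cast h5.1.two_le
        have h7 : 1 / (q : ℝ) ≤ 1 / 2 := one_div_le_one_div_of_le (by norm_num) h6
        linarith
      · intro q _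
        have : 0 ≤ 1 / (q : ℝ) := by positivity
        linarith
    calc (∏ q ∈ pr 1 z \ Q, (1 - 1 / (q : ℝ))) * ∏ q ∈ Q, (1 - 1 / (q : ℝ))
        ≤ 1 * ∏ q ∈ Q, (1 - 1 / (q : ℝ)) := mul_le_mul_of_nonneg_right h4 hPQ0.le
      _ = _ := one_mul _
  -- the remainder
  have hrem : ((2 : ℝ) ^ (204 * 1 * (1 * 2 ^ t))) ≤ 1 / c * X * ∏ q ∈ Q, (1 - 1 / (q : ℝ)) := by
    have h2 : (2 : ℝ) ^ (204 * 1 * (1 * 2 ^ t)) = ((2 : ℝ) ^ (2 ^ t)) ^ 204 := by
      rw [← pow_mul]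
      congr 1
      ring
    have h3 : ((2 : ℝ) ^ (2 ^ t)) ^ 204 ≤ (z ^ 2) ^ 204 := pow_le_pow_left₀ (by positivity) ht2 204
    have h4 : (z ^ 2) ^ 204 * z ≤ X := by
      refine le_trans ?_ hX
      rw [← pow_mul, ← pow_succ]
      exact pow_le_pow_right₀ hz1 (by norm_num)
    have h5 : (z ^ 2) ^ 204 ≤ X / z := by
      rw [le_div_iff₀ (by linarith)]
      exact h4
    have h6 : (X : ℝ) / z ≤ 1 / c * X * ∏ q ∈ Q, (1 - 1 / (q : ℝ)) := by
      have h7 : (X : ℝ) / z = 1 / c * X * (c / z) := by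
        have : z ≠ 0 := by linarith
        field_simp
      rw [h7]
      exact mul_le_mul_of_nonneg_left hlow (by positivity)
    rw [h2]
    exact h3.trans (h5.trans h6)
  have h2 : 2 * (((X + 1 : ℕ) : ℝ) / ((1 : ℕ) : ℝ) *
      ∏ j, ∏ q ∈ Pool.Agent.Lib.MP_c77da8_nt.Sv.blk 1 t j, (1 - ((B q).card : ℝ) / q)) ≤
      8 * X * ∏ q ∈ Q, (1 - 1 / (q : ℝ)) := by
    push_cast
    rw [div_one]
    have h3 : ((X : ℝ) + 1) * ∏ j, ∏ q ∈ Pool.Agent.Lib.MP_c77da8_nt.Sv.blk 1 t j,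
        (1 - ((B q).card : ℝ) / q) ≤ (2 * X) * (2 * ∏ q ∈ Q, (1 - 1 / (q : ℝ))) := by
      have h4 : ((X : ℝ) + 1) * ∏ j, ∏ q ∈ Pool.Agent.Lib.MP_c77da8_nt.Sv.blk 1 t j,
        (1 - ((B q).card : ℝ) / q) ≤ ((X : ℝ) + 1) * (2 * ∏ q ∈ Q, (1 - 1 / (q : ℝ))) :=
        mul_le_mul_of_nonneg_left hprod (by linarith)
      refine h4.trans ?_
      exact mul_le_mul_of_nonneg_right (by linarith) (by positivity)
    linarith
  refine h1.trans (key.trans ?_)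
  have h3 : (8 + 1 / c) * X * ∏ q ∈ Q, (1 - 1 / (q : ℝ)) = 8 * X * ∏ q ∈ Q, (1 - 1 / (q : ℝ)) +
      1 / c * X * ∏ q ∈ Q, (1 - 1 / (q : ℝ)) := by ring
  rw [h3]
  exact add_le_add h2 hrem

end Pool.SG
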