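import Mathlib

/-!
# Supersingular curves over finite fields: definitions

A smooth projective geometrically connected curve `C` over a finite field `K` is given by its
function field `F / K`.
-/

set_option autoImplicit false

namespace Pool.SG

section curve

variable (K F : Type) [Field K] [Field F] [Algebra K F]

/-- `F / K` is an algebraic function field of one variable with exact field of constants `K`. For a
finite field `K` (more generally a perfect field) these are the function fields of the smooth
projective geometrically connected curves over `K`. -/
structure IsCurve : Prop where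
  finite : ∃ x : F, Transcendental K x ∧ FiniteDimensional (IntermediateField.adjoin K {x}) F
  const : ∀ y : F, IsAlgebraic K y → ∃ c : K, algebraMap K F c = y

/-- The places of `F / K`: the valuation rings `K ⊆ V ≠ F`, that is, the closed points of the
curve. -/
def IsPlace (V : ValuationSubring F) : Prop := (∀ c : K, algebraMap K F c ∈ V) ∧ V ≠ ⊤

/-- The points of the curve with values in the extension `L` of `K`: a closed point, given by a
place `V`, and a `K`-embedding of its residue field into `L`, given by a ring homomorphism
`V → L` over `K` whose kernel is the maximal ideal of `V`. -/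
structure Pt (L : Type) [Field L] [Algebra K L] where
  V : ValuationSubring F
  place : IsPlace K F V
  res : V →+* L
  const : ∀ c : K, res ⟨algebraMap K F c, place.1 c⟩ = algebraMap K L c
  ker : ∀ y : V, res y = 0 ↔ V.valuation (y : F) < 1

/-- The finite sums of differentials `x dy ∈ Ω[F/K]` with `x, y ∈ V`: the differentials regular at
the place `V`. -/
noncomputable def diffOf (V : Set F) : AddSubgroup (Ω[F⁄K]) :=
  AddSubgroup.closure {η | ∃ x ∈ V, ∃ y ∈ V, η = x • KaehlerDifferential.D K F y}

/-- The differentials of the first kind: regular at every place (valuation ring containing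
`K`). -/
noncomputable def firstKind : Submodule K (Ω[F⁄K]) where
  carrier := {ω | ∀ V : ValuationSubring F, (∀ c : K, algebraMap K F c ∈ V) →
    ω ∈ diffOf K F (V : Set F)}
  zero_mem' := fun _ _ => AddSubgroup.zero_mem _
  add_mem' := fun ha hb V hV => AddSubgroup.add_mem _ (ha V hV) (hb V hV)
  smul_mem' := fun c ω hω V hV => by
    have key : ∀ η ∈ diffOf K F (V : Set F), c • η ∈ diffOf K F (V : Set F) := by
      intro η hη
      induction hη using AddSubgroup.closure_induction with
      | mem η hη =>
        obtain ⟨x, hx, y, hy, rfl⟩ := hη
        refine AddSubgroup.subset_closure ⟨algebraMap K F c * x, V.mul_mem _ _ (hV c) hx, y, hy, ?_⟩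
        rw [mul_smul, algebraMap_smul]
      | zero => rw [smul_zero]; exact AddSubgroup.zero_mem _
      | add a b _ _ ha hb => rw [smul_add]; exact AddSubgroup.add_mem _ ha hb
      | neg a _ ha => rw [smul_neg]; exact AddSubgroup.neg_mem _ ha
    exact key ω (hω V hV)

/-- The genus of the curve: the dimension of the space of its differentials of the first kind. -/
noncomputable def genus : Cardinal := Module.rank K (firstKind K F)

/-- The number of points of the curve over every finite extension `L` of `K` is
`|L| + 1 - 2 g s ^ [L : K]`; equivalently the zeta function of the curve is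
`(1 - s T) ^ (2 g) / ((1 - T) (1 - |K| T))`, and all `2 g` eigenvalues of the Frobenius of `K` on the
Jacobian are equal to `s`. -/
def ZetaIs (g : ℕ) (s : ℤ) : Prop :=
  ∀ (L : Type) [Field L] [Finite L] [Algebra K L],
    (Nat.card (Pt K F L) : ℤ) = Nat.card L + 1 - 2 * g * s ^ Module.finrank K L

end curve

/-- `g` is the genus of a supersingular smooth projective curve in characteristic `p`: there is a
smooth projective geometrically connected curve of genus `g` over a finite field `K` of
characteristic `p` whose Frobenius eigenvalues are all equal to an integer `s` with `s ^ 2 = |K|`.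
(All slopes are then `1 / 2`; conversely every supersingular curve over the algebraic closure of
`𝔽_p` has such a model over a large enough finite field.) -/
def SupersingularGenus (p g : ℕ) : Prop :=
  ∃ (K F : Type) (_ : Field K) (_ : Field F) (_ : Algebra K F) (s : ℤ),
    Finite K ∧ CharP K p ∧ IsCurve K F ∧ genus K F = (g : Cardinal) ∧
      s ^ 2 = Nat.card K ∧ ZetaIs K F g s

/-! ### Number theory -/

/-- the order of `p` modulo `l` -/
noncomputable def od (p l : ℕ) : ℕ := orderOf (p : ZMod l)

/-- the primes `l` for which the order of `p` modulo `l` is twice an odd number -/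
def PP (p l : ℕ) : Prop := l.Prime ∧ 2 ∣ od p l ∧ ¬ 4 ∣ od p l

/-- the arithmetic condition under which `Z ^ e = X ^ i (X ^ w - 1)` is supersingular of genus
`w (e - 1) / 2` for a suitable `i` -/
structure Good (p e w : ℕ) : Prop where
  one_lt : 1 < e
  sqf : Squarefree e
  prime : ∀ l, l.Prime → l ∣ e → PP p l
  pos : 0 < w
  cop : Nat.Coprime w e
  copp : Nat.Coprime w p
  ord : ∀ l, l.Prime → l ∣ e → ¬ od p l ∣ od p w

end Pool.SG
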