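import Pool.Agent.Lib.MP_a51fee_ag.SG.GOm

/-!
# SG-GLoc: the totally ramified places of `Z ^ e = X ^ i (X ^ w - 1)`

Let `h : Cv K F e i w Z`, `E = RatFunc K`, `x = xx K F`, `f = X^i (X^w - 1)`.  All powers below are in
fields, `Z ≠ 0`, `x ≠ 0`.

PROOFS.
* `gen_lin`: for `π = X - C c`: `RatFunc K = K(π)`: an element is `G(X)/H(X) = G(π + c)/H(π + c)`
  (`Polynomial.comp`/`taylor`), and a nonzero polynomial is `X^m g`, `g(0) ≠ 0`.
  For `π = X⁻¹`: `G(X) = π^{-deg G} G.reverse(π)` and `reverse` of a nonzero polynomial has nonzero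
  constant coefficient (`Polynomial.coeff_zero_reverse`, leading coefficient).
* `tr`: `π` is transcendental over `K` in `RatFunc K` (`X` is; `X = π + c`, `X = π⁻¹`).
* `span_T`: if `T = Z ^ β * (element of E^*)` with `β` prime to `e`: for every `b < e` there is `j < e`
  with `β j = b + e s`, `T^j = (..)^j Z^{β j} = (..)^j f^s Z^b`, so `Z^b ∈ E T^j` (for `s`: `Z^e = f`).
* `ram_root`: `c^w = 1`: `fP` has the simple root `c` (`c ≠ 0`, derivative `w c^{w-1} ≠ 0`), so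
  `fP = (X - c) q`, `q(c) ≠ 0`, `u := q.comp (X + C c)`, `u(0) = q(c) ≠ 0`, `π u(π) = f`.  `T = Z`.
  `dpi`: `D π = D x ≠ 0` (`cv_Dx_ne`).
* `ram_zero`: take `β` with `β i = 1 + e m` (`β, m : ℕ`, `i` is prime to `e`), `T := Z^β x^{-m}`,
  `T^e = f^β x^{-em} = x^{iβ - em} (x^w - 1)^β = x (x^w-1)^β`, `u := (X^w - 1)^β`, `u(0) = (-1)^β`.
  `α := -m`: `T^i (x^w-1)^α = Z^{βi} x^{-mi} (x^w - 1)^{-m} = Z^{1 + em} f^{-m} = Z`.
* `ram_inf`: `β, m : ℕ` with `β (i+w) + 1 = e m` (`i + w` prime to `e`), `T := Z^β x^{-m}`, `π = x⁻¹`,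
  `f = π^{-(i+w)} (1 - π^w)`, `T^e = f^β x^{-em} = π^{-β(i+w)+em} (1-π^w)^β = π (1 - π^w)^β`,
  `u := (1 - X^w)^β`, `u(0) = 1`.  `α := m`: `T^{-(i+w)} (1-π^w)^m = Z^{-β(i+w)} x^{m(i+w)} (1-π^w)^m
  = Z^{1 - em} (π^{-(i+w)} (1-π^w))^m = Z^{1-em} f^m = Z`.
  `dpi`: `D π = - π^2 D x ≠ 0`.
-/

set_option autoImplicit false

open Polynomial

namespace Pool.SG

variable {K F : Type} [Field K] [Field F] [Algebra K F] [Algebra (RatFunc K) F]
  [IsScalarTower K (RatFunc K) F]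

private theorem gl_aeval_X (g : K[X]) :
    aeval (RatFunc.X : RatFunc K) g = algebraMap K[X] (RatFunc K) g := by
  rw [← RatFunc.algebraMap_X, Polynomial.aeval_algebraMap_apply, Polynomial.aeval_X_left_apply]

private theorem gl_pi_ne (c : K) : (RatFunc.X - RatFunc.C c : RatFunc K) ≠ 0 := by
  have h := RatFunc.algebraMap_ne_zero (K := K) (Polynomial.X_sub_C_ne_zero c)
  rwa [map_sub, RatFunc.algebraMap_X, RatFunc.algebraMap_C] at h

private theorem gl_gen_sub (c : K) (y : RatFunc K) (hy : y ≠ 0) :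
    ∃ n : ℤ, Ord K (RatFunc.X - RatFunc.C c) y n := by
  have key : ∀ p : K[X], p ≠ 0 → ∃ (m : ℕ) (g : K[X]), g.coeff 0 ≠ 0 ∧
      algebraMap K[X] (RatFunc K) p =
        (RatFunc.X - RatFunc.C c) ^ m * aeval (RatFunc.X - RatFunc.C c) g := by
    intro p hp
    obtain ⟨q, hq, hnd⟩ := Polynomial.exists_eq_pow_rootMultiplicity_mul_and_not_dvd p hp c
    refine ⟨rootMultiplicity c p, q.comp (X + C c), ?_, ?_⟩
    · rw [coeff_zero_eq_eval_zero, eval_comp, eval_add, eval_X, eval_C, zero_add]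
      exact fun h => hnd (dvd_iff_isRoot.2 h)
    · have e1 : aeval (RatFunc.X - RatFunc.C c) (X + C c : K[X]) = RatFunc.X := by
        rw [map_add, aeval_X, aeval_C, RatFunc.algebraMap_eq_C, sub_add_cancel]
      rw [aeval_comp, e1, gl_aeval_X]
      conv_lhs => rw [hq]
      rw [map_mul, map_pow, map_sub, RatFunc.algebraMap_X, RatFunc.algebraMap_C]
  obtain ⟨m, g, hg, e1⟩ := key y.num (RatFunc.num_ne_zero hy)
  obtain ⟨m', g', hg', e2⟩ := key y.denom (RatFunc.denom_ne_zero y)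
  refine ⟨(m : ℤ) - m', g, g', hg, hg', ?_⟩
  conv_lhs => rw [← RatFunc.num_div_denom y]
  rw [e1, e2, zpow_sub₀ (gl_pi_ne c), zpow_natCast, zpow_natCast, mul_div_mul_comm,
    mul_div_assoc (_ / _)]

private theorem gl_gen_inv (y : RatFunc K) (hy : y ≠ 0) :
    ∃ n : ℤ, Ord K (RatFunc.X : RatFunc K)⁻¹ y n := by
  have hX : (RatFunc.X : RatFunc K) ≠ 0 := RatFunc.X_ne_zero
  have key : ∀ p : K[X], p ≠ 0 → ∃ (m : ℕ) (g : K[X]), g.coeff 0 ≠ 0 ∧
      algebraMap K[X] (RatFunc K) p =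
        (RatFunc.X : RatFunc K) ^ m * aeval (RatFunc.X : RatFunc K)⁻¹ g := by
    intro p hp
    refine ⟨p.natDegree, p.reverse, ?_, ?_⟩
    · rw [coeff_zero_reverse]
      exact leadingCoeff_ne_zero.2 hp
    · let _ : Invertible (RatFunc.X : RatFunc K) := invertibleOfNonzero hX
      have h := eval₂_reverse_mul_pow (algebraMap K (RatFunc K)) (RatFunc.X) p
      rw [invOf_eq_inv] at h
      rw [← gl_aeval_X, aeval_def, aeval_def, ← h, mul_comm]
  obtain ⟨m, g, hg, e1⟩ := key y.num (RatFunc.num_ne_zero hy)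
  obtain ⟨m', g', hg', e2⟩ := key y.denom (RatFunc.denom_ne_zero y)
  refine ⟨(m' : ℤ) - m, g, g', hg, hg', ?_⟩
  conv_lhs => rw [← RatFunc.num_div_denom y]
  rw [e1, e2, zpow_sub₀ (inv_ne_zero hX), zpow_natCast, zpow_natCast, mul_div_mul_comm,
    mul_div_assoc (_ / _), inv_pow, inv_pow, inv_div_inv]

private theorem gl_tr_sub (c : K) : Transcendental K (RatFunc.X - RatFunc.C c : RatFunc K) := by
  intro h
  apply RatFunc.transcendental_X (K := K)
  have h1 := h.add (isAlgebraic_algebraMap (R := K) (A := RatFunc K) c)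
  rwa [RatFunc.algebraMap_eq_C, sub_add_cancel] at h1

private theorem gl_tr_inv : Transcendental K (RatFunc.X : RatFunc K)⁻¹ := by
  intro h
  apply RatFunc.transcendental_X (K := K)
  have h1 := h.inv
  rwa [inv_inv] at h1

private theorem gl_f (i w : ℕ) : algebraMap K[X] (RatFunc K) (fP K i w) =
    (RatFunc.X : RatFunc K) ^ i * ((RatFunc.X : RatFunc K) ^ w - 1) := by
  unfold fP
  rw [map_mul, map_pow, map_sub, map_pow, map_one, RatFunc.algebraMap_X]

private theorem gl_w_ne {w : ℕ} (hw : 0 < w) : ((RatFunc.X : RatFunc K) ^ w - 1) ≠ 0 := by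
  have h1 : (X ^ w - C 1 : K[X]) ≠ 0 := (monic_X_pow_sub_C (1 : K) hw.ne').ne_zero
  have h2 := RatFunc.algebraMap_ne_zero (K := K) h1
  rwa [map_sub, map_pow, C_1, map_one, RatFunc.algebraMap_X] at h2

private theorem gl_f_ne (i : ℕ) {w : ℕ} (hw : 0 < w) :
    algebraMap K[X] (RatFunc K) (fP K i w) ≠ 0 := by
  rw [gl_f]
  exact mul_ne_zero (pow_ne_zero _ RatFunc.X_ne_zero) (gl_w_ne hw)

omit [Algebra K F] [IsScalarTower K (RatFunc K) F] in
private theorem gl_alg_ne {t : RatFunc K} (ht : t ≠ 0) : algebraMap (RatFunc K) F t ≠ 0 := by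
  rw [Ne, map_eq_zero]
  exact ht

omit [Algebra K F] [IsScalarTower K (RatFunc K) F] in
private theorem gl_Z_ne {e i w : ℕ} {Z : F} (h : Cv K F e i w Z) : Z ≠ 0 := by
  rintro rfl
  have h1 := h.eq
  rw [zero_pow (by have := h.he; omega)] at h1
  exact gl_alg_ne (gl_f_ne i h.hw) h1.symm

omit [Algebra K F] [IsScalarTower K (RatFunc K) F] in
private theorem gl_span {e i w : ℕ} {Z : F} (h : Cv K F e i w Z) {β m' : ℕ}
    (hβ : β * m' % e = 1) {t : RatFunc K} (ht : t ≠ 0) (y : F) :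
    ∃ c : Fin e → RatFunc K, y = ∑ j, algebraMap (RatFunc K) F (c j) *
      (Z ^ β * algebraMap (RatFunc K) F t) ^ (j : ℕ) := by
  have he := h.he
  obtain ⟨T, hT⟩ : ∃ T : F, T = Z ^ β * algebraMap (RatFunc K) F t := ⟨_, rfl⟩
  rw [← hT]
  obtain ⟨f, hf⟩ : ∃ f : RatFunc K, f = algebraMap K[X] (RatFunc K) (fP K i w) := ⟨_, rfl⟩
  have hf0 : f ≠ 0 := by rw [hf]; exact gl_f_ne i h.hw
  have hZe : Z ^ e = algebraMap (RatFunc K) F f := by rw [hf]; exact h.eq
  have hZ : ∀ b : ℕ, b < e → Z ^ b ∈ Submodule.span (RatFunc K)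
      (Set.range fun j : Fin e => T ^ (j : ℕ)) := by
    intro b hb
    obtain ⟨j, hj⟩ : ∃ j, j = (m' * b) % e := ⟨_, rfl⟩
    have hje : j < e := by
      rw [hj]
      exact Nat.mod_lt _ (by omega)
    have hmod : β * j % e = b := by
      rw [hj, Nat.mul_mod, Nat.mod_mod, ← Nat.mul_mod, ← mul_assoc, Nat.mul_mod, hβ, one_mul,
        Nat.mod_mod, Nat.mod_eq_of_lt hb]
    have hdiv : β * j = b + e * (β * j / e) := by
      have := Nat.mod_add_div (β * j) e
      rw [hmod] at this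
      exact this.symm
    have h1 : T ^ j = (f ^ (β * j / e) * t ^ j) • Z ^ b := by
      rw [hT, mul_pow, ← pow_mul, hdiv, pow_add, pow_mul, hZe, Algebra.smul_def, map_mul,
        map_pow, map_pow, ← hdiv]
      ring
    have h2 : Z ^ b = (f ^ (β * j / e) * t ^ j)⁻¹ • T ^ j := by
      rw [h1, smul_smul, inv_mul_cancel₀ (mul_ne_zero (pow_ne_zero _ hf0) (pow_ne_zero _ ht)),
        one_smul]
    rw [h2]
    exact Submodule.smul_mem _ _ (Submodule.subset_span ⟨⟨j, hje⟩, rfl⟩)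
  have hy : y ∈ Submodule.span (RatFunc K) (Set.range fun j : Fin e => T ^ (j : ℕ)) := by
    obtain ⟨c, hc⟩ := h.span y
    rw [hc]
    refine Submodule.sum_mem _ fun j _ => ?_
    rw [← Algebra.smul_def]
    exact Submodule.smul_mem _ _ (hZ j j.2)
  obtain ⟨c, hc⟩ := (Submodule.mem_span_range_iff_exists_fun _).1 hy
  refine ⟨c, ?_⟩
  rw [← hc]
  exact Finset.sum_congr rfl fun j _ => Algebra.smul_def _ _

theorem ram_root {e i w : ℕ} {Z : F} (h : Cv K F e i w Z) {c : K} (hc : c ^ w = 1) :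
    ∃ u : K[X], Ram K F e (RatFunc.X - RatFunc.C c) Z u := by
  have hw := h.hw
  have hc0 : c ≠ 0 := by
    rintro rfl
    rw [zero_pow hw.ne'] at hc
    exact zero_ne_one hc
  have hroot : (fP K i w).IsRoot c := by
    unfold fP
    simp only [IsRoot.def, eval_mul, eval_sub, eval_pow, eval_X, eval_one, hc, sub_self, mul_zero]
  obtain ⟨q, hq⟩ := dvd_iff_isRoot.2 hroot
  have hqc : q.eval c ≠ 0 := by
    have h1 : (derivative (fP K i w)).eval c = q.eval c := by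
      rw [hq, derivative_mul, eval_add, eval_mul, eval_mul, derivative_sub, derivative_X,
        derivative_C, sub_zero, eval_one, one_mul, eval_sub, eval_X, eval_C, sub_self, zero_mul,
        add_zero]
    have h2 : (derivative (fP K i w)).eval c = c ^ i * ((w : K) * c ^ (w - 1)) := by
      unfold fP
      simp only [derivative_mul, eval_add, eval_mul, eval_sub, eval_pow, eval_X, hc, eval_one,
        sub_self, mul_zero, zero_add, derivative_sub, derivative_one, sub_zero, derivative_X_pow,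
        eval_C]
    rw [← h1, h2]
    exact mul_ne_zero (pow_ne_zero _ hc0) (mul_ne_zero h.wk (pow_ne_zero _ hc0))
  have hu : aeval (RatFunc.X - RatFunc.C c) (q.comp (X + C c)) =
      algebraMap K[X] (RatFunc K) q := by
    have e1 : aeval (RatFunc.X - RatFunc.C c) (X + C c : K[X]) = RatFunc.X := by
      rw [map_add, aeval_X, aeval_C, RatFunc.algebraMap_eq_C, sub_add_cancel]
    rw [aeval_comp, e1, gl_aeval_X]
  refine ⟨q.comp (X + C c), ⟨h.he, h.ek, gl_tr_sub c, gl_gen_sub c, ?_, ?_, h.span, ?_⟩⟩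
  · rw [coeff_zero_eq_eval_zero, eval_comp, eval_add, eval_X, eval_C, zero_add]
    exact hqc
  · rw [hu, h.eq, hq, map_mul, map_sub, RatFunc.algebraMap_X, RatFunc.algebraMap_C]
  · rw [map_sub, map_sub, ← RatFunc.algebraMap_eq_C, ← IsScalarTower.algebraMap_apply,
      Derivation.map_algebraMap, sub_zero]
    exact cv_Dx_ne h

theorem ram_zero {e i w : ℕ} {Z : F} (h : Cv K F e i w Z) :
    ∃ (T : F) (u : K[X]) (α : ℤ), Ram K F e RatFunc.X T u ∧
      Z = algebraMap (RatFunc K) F ((RatFunc.X ^ w - 1) ^ α) * T ^ i := by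
  have hw := h.hw
  have hX : (RatFunc.X : RatFunc K) ≠ 0 := RatFunc.X_ne_zero
  obtain ⟨β, -, hβ⟩ := Nat.exists_mul_mod_eq_one_of_coprime h.ci h.he
  obtain ⟨m, hm⟩ : ∃ m, i * β = 1 + e * m := by
    refine ⟨i * β / e, ?_⟩
    have := Nat.mod_add_div (i * β) e
    rw [hβ] at this
    exact this.symm
  have hZe : Z ^ e = algebraMap (RatFunc K) F (RatFunc.X ^ i * (RatFunc.X ^ w - 1)) := by
    rw [← gl_f]
    exact h.eq
  have hwne := gl_w_ne (K := K) hw
  refine ⟨Z ^ β * algebraMap (RatFunc K) F (RatFunc.X ^ m)⁻¹, (X ^ w - 1) ^ β, -(m : ℤ),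
    ⟨h.he, h.ek, RatFunc.transcendental_X, ?_, ?_, ?_, ?_, cv_Dx_ne h⟩, ?_⟩
  · have h1 := gl_gen_sub (0 : K)
    rw [map_zero, sub_zero] at h1
    exact h1
  · rw [coeff_zero_eq_eval_zero, eval_pow, eval_sub, eval_pow, eval_X, zero_pow hw.ne', eval_one,
      zero_sub]
    exact pow_ne_zero _ (neg_ne_zero.2 one_ne_zero)
  · rw [gl_aeval_X, map_pow (algebraMap K[X] (RatFunc K)), map_sub (algebraMap K[X] (RatFunc K)),
      map_pow (algebraMap K[X] (RatFunc K)), map_one (algebraMap K[X] (RatFunc K)),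
      RatFunc.algebraMap_X, mul_pow, ← pow_mul, mul_comm β e, pow_mul, hZe,
      ← map_pow (algebraMap (RatFunc K) F), ← map_pow (algebraMap (RatFunc K) F),
      ← map_mul (algebraMap (RatFunc K) F)]
    congr 1
    rw [mul_pow, ← pow_mul, hm, pow_add, pow_one, inv_pow, ← pow_mul, mul_comm m e]
    field_simp
  · exact gl_span h (m' := i) (by rw [mul_comm]; exact hβ) (inv_ne_zero (pow_ne_zero _ hX))
  · rw [mul_pow, ← pow_mul, mul_comm β i, hm, pow_add, pow_one, pow_mul, hZe,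
      ← map_pow (algebraMap (RatFunc K) F), ← map_pow (algebraMap (RatFunc K) F)]
    have e1 : ((RatFunc.X : RatFunc K) ^ w - 1) ^ (-(m : ℤ)) *
        ((RatFunc.X ^ i * (RatFunc.X ^ w - 1)) ^ m * ((RatFunc.X ^ m)⁻¹) ^ i) = 1 := by
      rw [zpow_neg, zpow_natCast, mul_pow, inv_pow, ← pow_mul, ← pow_mul, mul_comm m i]
      field_simp
    calc Z = Z * algebraMap (RatFunc K) F (((RatFunc.X : RatFunc K) ^ w - 1) ^ (-(m : ℤ)) *
        ((RatFunc.X ^ i * (RatFunc.X ^ w - 1)) ^ m * ((RatFunc.X ^ m)⁻¹) ^ i)) := by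
          rw [e1, map_one, mul_one]
      _ = _ := by
          rw [map_mul, map_mul]
          ring

theorem ram_inf {e i w : ℕ} {Z : F} (h : Cv K F e i w Z) :
    ∃ (T : F) (u : K[X]) (α : ℤ), Ram K F e (RatFunc.X)⁻¹ T u ∧
      Z = algebraMap (RatFunc K) F ((1 - (RatFunc.X)⁻¹ ^ w) ^ α) * T ^ (-((i : ℤ) + w)) := by
  have hw := h.hw
  have he := h.he
  have hX : (RatFunc.X : RatFunc K) ≠ 0 := RatFunc.X_ne_zero
  obtain ⟨β', -, hβ'⟩ := Nat.exists_mul_mod_eq_one_of_coprime h.cw h.he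
  obtain ⟨β, hβdef⟩ : ∃ β, β = β' * (e - 1) := ⟨_, rfl⟩
  have hmodz : (β * (i + w) + 1) % e = 0 := by
    have h1 : β * (i + w) + 1 = ((i + w) * β') * (e - 1) + 1 := by
      rw [hβdef]
      ring
    rw [h1, Nat.add_mod, Nat.mul_mod, hβ', one_mul, Nat.mod_mod, Nat.mod_eq_of_lt
      (show e - 1 < e by omega), Nat.mod_eq_of_lt (show 1 < e by omega), Nat.sub_add_cancel
      (by omega), Nat.mod_self]
  obtain ⟨m, hm⟩ : ∃ m, β * (i + w) + 1 = e * m := by
    refine ⟨(β * (i + w) + 1) / e, ?_⟩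
    have := Nat.mod_add_div (β * (i + w) + 1) e
    rw [hmodz, zero_add] at this
    exact this.symm
  -- an inverse of `β` modulo `e`
  have hinv : β * ((i + w) * (e - 1)) % e = 1 := by
    have h1 : β * ((i + w) * (e - 1)) = ((i + w) * β') * ((e - 1) * (e - 1)) := by
      rw [hβdef]
      ring
    have h2 : (e - 1) * (e - 1) % e = 1 := by
      have h3 : (e - 1) * (e - 1) = 1 + e * (e - 2) := by
        obtain ⟨d, rfl⟩ : ∃ d, e = d + 2 := ⟨e - 2, by omega⟩
        have h4 : d + 2 - 1 = d + 1 := by omega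
        have h5 : d + 2 - 2 = d := by omega
        rw [h4, h5]
        ring
      rw [h3, Nat.add_mul_mod_self_left, Nat.mod_eq_of_lt he]
    rw [h1, Nat.mul_mod, hβ', h2, one_mul, Nat.mod_eq_of_lt he]
  obtain ⟨f, hf⟩ : ∃ f : RatFunc K, f = RatFunc.X ^ (i + w) * (1 - (RatFunc.X)⁻¹ ^ w) := ⟨_, rfl⟩
  have hf' : (RatFunc.X : RatFunc K) ^ i * (RatFunc.X ^ w - 1) = f := by
    rw [hf, pow_add, inv_pow]
    field_simp
  have hZe : Z ^ e = algebraMap (RatFunc K) F f := by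
    rw [← hf', ← gl_f]
    exact h.eq
  have hZ0 := gl_Z_ne h
  refine ⟨Z ^ β * algebraMap (RatFunc K) F (RatFunc.X ^ m)⁻¹, (1 - X ^ w) ^ β, (m : ℤ),
    ⟨h.he, h.ek, gl_tr_inv, gl_gen_inv, ?_, ?_, ?_, ?_⟩, ?_⟩
  · rw [coeff_zero_eq_eval_zero, eval_pow, eval_sub, eval_pow, eval_X, zero_pow hw.ne', eval_one,
      sub_zero]
    exact pow_ne_zero _ one_ne_zero
  · have hau : aeval (RatFunc.X : RatFunc K)⁻¹ ((1 - X ^ w) ^ β : K[X]) =
        (1 - (RatFunc.X : RatFunc K)⁻¹ ^ w) ^ β := by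
      simp only [map_pow, map_sub, map_one, aeval_X]
    rw [hau, mul_pow, ← pow_mul, mul_comm β e, pow_mul, hZe,
      ← map_pow (algebraMap (RatFunc K) F), ← map_pow (algebraMap (RatFunc K) F),
      ← map_mul (algebraMap (RatFunc K) F)]
    congr 1
    have e2 : (RatFunc.X : RatFunc K) ^ (e * m) = RatFunc.X ^ (β * (i + w)) * RatFunc.X := by
      rw [← hm, pow_succ]
    rw [hf, mul_pow, ← pow_mul, inv_pow (RatFunc.X ^ m), ← pow_mul, mul_comm m e, e2,
      mul_comm (i + w) β]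
    field_simp
  · exact gl_span h hinv (inv_ne_zero (pow_ne_zero _ hX))
  · rw [map_inv₀, Derivation.leibniz_inv, ne_eq, smul_eq_zero, not_or]
    refine ⟨?_, cv_Dx_ne h⟩
    rw [neg_eq_zero]
    exact pow_ne_zero _ (inv_ne_zero (gl_alg_ne hX))
  · have hT0 : (Z ^ β * algebraMap (RatFunc K) F (RatFunc.X ^ m)⁻¹) ≠ 0 :=
      mul_ne_zero (pow_ne_zero _ hZ0) (gl_alg_ne (inv_ne_zero (pow_ne_zero _ hX)))
    have e1 : (-((i : ℤ) + w)) = -(((i + w : ℕ)) : ℤ) := by push_cast; ring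
    rw [e1, zpow_neg, zpow_natCast, zpow_natCast, eq_mul_inv_iff_mul_eq₀ (pow_ne_zero _ hT0),
      mul_pow, ← pow_mul, ← mul_assoc, ← pow_succ', hm, pow_mul, hZe,
      ← map_pow (algebraMap (RatFunc K) F), ← map_pow (algebraMap (RatFunc K) F),
      ← map_mul (algebraMap (RatFunc K) F)]
    congr 1
    rw [hf, mul_pow, ← pow_mul, inv_pow (RatFunc.X ^ m), ← pow_mul, mul_comm m (i + w)]
    field_simp

end Pool.SG
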