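import Pool.Agent.Lib.MP_a51fee_ag.SG.GRamVal

/-!
# SG-GRamUniq: existence and uniqueness of the totally ramified place and of the point over it

PROOFS.
* `ram_exists`: the polynomials in `π` over `K` form a subring of `F`, isomorphic to `K[X]` (`tr`; note
  `algebraMap (RatFunc K) F` is injective); the ideal `(π)` is prime (quotient `K`).  By
  `LocalSubring.exists_le_valuationSubring` applied to the localisation at `(π)`
  (`LocalSubring.ofPrime`), or by `Subring.exists_le_valuationSubring...`, there is `V` containing it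
  with `π` in the maximal ideal, i.e. `v(π) < 1` and `K ⊆ V`.  (Any other construction is fine, e.g.
  `exists_factor_valuationRing`.)
* `ram_uniq`: by `span` every `y` is `∑_{j<e} c_j T^j`; by `ram_mem` (exponents `0..e-1`) membership in
  `V` is expressed by the `c_j` alone, so `V = V'`.
* `ram_res`: for `y ∈ V`: `y = c_0 + ∑_{j>=1} c_j T^j`, all terms in `V` (by `ram_mem` applied to each
  term or the characterisation), the terms with `j >= 1` have valuation `v(T)^{e n + j} < 1`
  (exponent `>= 1`), and `c_0 = 0` or `c_0 = π^n g(π)/h(π)` with `n >= 0`: if `n > 0` it is in the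
  maximal ideal, if `n = 0` it is congruent to `g(0)/h(0)`.  So there is `c ∈ K` with `v (y - c) < 1`.
* `ram_pt`: the ring hom `res : V → L`, `y ↦` image of the unique `c ∈ K` with `v(y - c) < 1` (unique
  because nonzero constants have valuation `1`) is a point; conversely for a point `P` with
  `v_P(π) < 1`: `P.V = V` by `ram_uniq` and `P.res y = algebraMap c` since `y - c` is in the kernel.
  `V ≠ ⊤` because `v(π) < 1` and `π ≠ 0` (`π⁻¹ ∉ V`).
-/

set_option autoImplicit false

open Polynomial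

namespace Pool.SG

variable {K F : Type} [Field K] [Field F] [Algebra K F] [Algebra (RatFunc K) F]
  [IsScalarTower K (RatFunc K) F]

theorem ram_exists {e : ℕ} {π : RatFunc K} {T : F} {u : K[X]} (h : Ram K F e π T u) :
    ∃ V : ValuationSubring F, (∀ c : K, algebraMap K F c ∈ V) ∧
      V.valuation (algebraMap (RatFunc K) F π) < 1 := by
  have htr : Transcendental K (algebraMap (RatFunc K) F π) := by
    rw [transcendental_algebraMap_iff (algebraMap (RatFunc K) F).injective]
    exact h.tr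
  generalize algebraMap (RatFunc K) F π = t at htr
  have htA : t ∈ (aeval t : K[X] →ₐ[K] F).range.toSubring := ⟨X, by simp⟩
  have hI : (Ideal.span {(⟨t, htA⟩ : (aeval t : K[X] →ₐ[K] F).range.toSubring)}) ≠ ⊤ := by
    intro hI
    rw [Ideal.eq_top_iff_one, Ideal.mem_span_singleton] at hI
    obtain ⟨⟨b, g, hg⟩, hb⟩ := hI
    have h1 : (1 : F) = t * b := congrArg Subtype.val hb
    have h2 : aeval t (1 - X * g) = 0 := by
      have hg' : aeval t g = b := hg
      rw [map_sub, map_one, map_mul, aeval_X, hg', ← h1, sub_self]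
    have h3 : (1 - X * g : K[X]) = 0 := transcendental_iff.1 htr _ h2
    have h4 := congrArg (eval 0) h3
    simp at h4
  obtain ⟨V, hV1, hV2⟩ := Ideal.image_subset_nonunits_valuationSubring _ hI
  refine ⟨V, fun c => hV1 ⟨C c, by simp⟩, ?_⟩
  rw [← ValuationSubring.mem_nonunits_iff]
  exact hV2 ⟨⟨t, htA⟩, Ideal.subset_span rfl, rfl⟩

private theorem gu_poly {π : RatFunc K}
    {V : ValuationSubring F} (hV : ∀ c : K, algebraMap K F c ∈ V)
    (hπ : V.valuation (algebraMap (RatFunc K) F π) < 1) (q : K[X]) :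
    V.valuation (algebraMap (RatFunc K) F (aeval π q)) ≤ 1 := by
  rw [ValuationSubring.valuation_le_one_iff]
  have hp : algebraMap (RatFunc K) F π ∈ V := (V.valuation_le_one_iff _).1 hπ.le
  rw [← Polynomial.aeval_algebraMap_apply, Polynomial.aeval_eq_sum_range]
  apply V.toSubring.sum_mem
  intro i _
  rw [Algebra.smul_def]
  exact V.mul_mem _ _ (hV _) (V.toSubring.pow_mem hp i)

private theorem gu_mem {e : ℕ} {π : RatFunc K} {T : F} {u : K[X]} (h : Ram K F e π T u)
    {V : ValuationSubring F} (hV : ∀ c : K, algebraMap K F c ∈ V)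
    (hπ : V.valuation (algebraMap (RatFunc K) F π) < 1) (c : Fin e → RatFunc K) :
    (∑ j, algebraMap (RatFunc K) F (c j) * T ^ (j : ℕ)) ∈ V ↔
      ∀ j : Fin e, c j = 0 ∨ ∃ n : ℤ, Ord K π (c j) n ∧ 0 ≤ (e : ℤ) * n + ((j : ℕ) : ℤ) := by
  have h1 := ram_mem h hV hπ (Finset.univ : Finset (Fin e)) c (fun j => ((j : ℕ) : ℤ)) (by
    intro j _ j' _ hne hd
    have hj := j.2
    have hj' := j'.2
    have hne' : (j : ℕ) ≠ (j' : ℕ) := fun h => hne (Fin.ext h)
    have h2 : |(((j : ℕ) : ℤ)) - ((j' : ℕ) : ℤ)| < (e : ℤ) := by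
      rw [abs_lt]
      omega
    have h3 := Int.eq_zero_of_abs_lt_dvd hd h2
    omega)
  simpa using h1

theorem ram_uniq {e : ℕ} {π : RatFunc K} {T : F} {u : K[X]} (h : Ram K F e π T u)
    {V V' : ValuationSubring F} (hV : ∀ c : K, algebraMap K F c ∈ V)
    (hπ : V.valuation (algebraMap (RatFunc K) F π) < 1)
    (hV' : ∀ c : K, algebraMap K F c ∈ V')
    (hπ' : V'.valuation (algebraMap (RatFunc K) F π) < 1) : V = V' := by
  ext y
  obtain ⟨c, rfl⟩ := h.span y
  rw [gu_mem h hV hπ, gu_mem h hV' hπ']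

private theorem gu_zero {e : ℕ} {π : RatFunc K} {T : F} {u : K[X]} (h : Ram K F e π T u)
    {V : ValuationSubring F} (hV : ∀ c : K, algebraMap K F c ∈ V)
    (hπ : V.valuation (algebraMap (RatFunc K) F π) < 1) {g k : K[X]} (hk : k.coeff 0 ≠ 0) :
    ∃ c : K, V.valuation (algebraMap (RatFunc K) F (aeval π g / aeval π k) - algebraMap K F c)
      < 1 := by
  refine ⟨g.coeff 0 / k.coeff 0, ?_⟩
  have hK : ∀ c : K, algebraMap K F c = algebraMap (RatFunc K) F (aeval π (C c)) := by
    intro c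
    rw [aeval_C, ← IsScalarTower.algebraMap_apply]
  have hv1 := ram_unit h hV hπ hk
  have hne : aeval π k ≠ 0 := by
    intro h0
    rw [h0, map_zero, map_zero] at hv1
    exact zero_ne_one hv1
  obtain ⟨q, hq⟩ : X ∣ (g * C (k.coeff 0) - C (g.coeff 0) * k) := by
    rw [X_dvd_iff]
    simp [mul_comm]
  have hc0 : algebraMap K (RatFunc K) (k.coeff 0) ≠ 0 := by
    rw [Ne, FaithfulSMul.algebraMap_eq_zero_iff]
    exact hk
  have h1 : aeval π g / aeval π k - algebraMap K (RatFunc K) (g.coeff 0 / k.coeff 0) =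
      π * (aeval π q / (aeval π k * aeval π (C (k.coeff 0)))) := by
    have h2 := congrArg (aeval π) hq
    simp only [map_sub, map_mul, aeval_C, aeval_X] at h2
    rw [aeval_C, map_div₀]
    field_simp
    linear_combination h2
  have h3 : algebraMap (RatFunc K) F (aeval π g / aeval π k) -
      algebraMap K F (g.coeff 0 / k.coeff 0) =
      algebraMap (RatFunc K) F π * (algebraMap (RatFunc K) F (aeval π q) /
        (algebraMap (RatFunc K) F (aeval π k) *
          algebraMap (RatFunc K) F (aeval π (C (k.coeff 0))))) := by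
    rw [IsScalarTower.algebraMap_apply K (RatFunc K) F, ← map_sub, h1, map_mul, map_div₀, map_mul]
  rw [h3, map_mul, map_div₀, map_mul, hv1, one_mul]
  have hv2 : V.valuation (algebraMap (RatFunc K) F (aeval π (C (k.coeff 0)))) = 1 :=
    ram_unit h hV hπ (by rw [coeff_C_zero]; exact hk)
  rw [hv2, div_one]
  exact mul_lt_one_of_lt_of_le hπ (gu_poly hV hπ q)

theorem ram_res {e : ℕ} {π : RatFunc K} {T : F} {u : K[X]} (h : Ram K F e π T u)
    {V : ValuationSubring F} (hV : ∀ c : K, algebraMap K F c ∈ V)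
    (hπ : V.valuation (algebraMap (RatFunc K) F π) < 1) {y : F} (hy : y ∈ V) :
    ∃ c : K, V.valuation (y - algebraMap K F c) < 1 := by
  obtain ⟨c, rfl⟩ := h.span y
  rw [gu_mem h hV hπ] at hy
  obtain ⟨hT, hT1, hT0⟩ := ram_vT h hV hπ
  have he0 : 0 < e := by have := h.he; omega
  -- powers with positive exponent
  have hpow : ∀ n : ℤ, 0 < n → V.valuation T ^ n < 1 := by
    intro n hn
    obtain ⟨m, rfl⟩ := Int.eq_ofNat_of_zero_le hn.le
    have hm : m ≠ 0 := by rintro rfl; simp at hn
    rw [zpow_natCast]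
    exact pow_lt_one₀ zero_le hT1 hm
  -- the term of index zero
  have hz : ∃ k : K, V.valuation (algebraMap (RatFunc K) F (c ⟨0, he0⟩) - algebraMap K F k) < 1 := by
    rcases hy ⟨0, he0⟩ with h0 | ⟨n, hn, hn0⟩
    · refine ⟨0, ?_⟩
      rw [h0, map_zero, map_zero, sub_zero, map_zero]
      exact zero_lt_one
    · have hn1 : 0 ≤ n := by
        have h1 : (0 : ℤ) ≤ (e : ℤ) * n := by simpa using hn0
        have h2 : (0 : ℤ) < (e : ℤ) := by exact_mod_cast he0
        exact nonneg_of_mul_nonneg_right h1 h2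
      rcases hn1.lt_or_eq with hpos | hzero
      · refine ⟨0, ?_⟩
        rw [map_zero, sub_zero, ram_ord h hV hπ hn]
        apply hpow
        have h2 : (0 : ℤ) < (e : ℤ) := by exact_mod_cast he0
        exact mul_pos h2 hpos
      · obtain ⟨g, k, _, hk, hgk⟩ := hn
        rw [← hzero, zpow_zero, one_mul] at hgk
        rw [hgk]
        exact gu_zero h hV hπ hk
  obtain ⟨k, hk⟩ := hz
  refine ⟨k, ?_⟩
  rw [← Finset.add_sum_erase _ _ (Finset.mem_univ (⟨0, he0⟩ : Fin e))]
  have h1 : algebraMap (RatFunc K) F (c ⟨0, he0⟩) * T ^ ((⟨0, he0⟩ : Fin e) : ℕ) =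
      algebraMap (RatFunc K) F (c ⟨0, he0⟩) := by
    simp
  rw [h1, add_sub_right_comm]
  apply Valuation.map_add_lt _ hk
  apply Valuation.map_sum_lt _ one_ne_zero
  intro j hj
  have hj0 : (j : ℕ) ≠ 0 := by
    intro hj0
    exact (Finset.mem_erase.1 hj).1 (Fin.ext hj0)
  rcases hy j with h0 | ⟨n, hn, hn0⟩
  · rw [h0, map_zero, zero_mul, map_zero]
    exact zero_lt_one
  · rw [map_mul, map_pow, ram_ord h hV hπ hn, ← zpow_natCast, ← zpow_add₀ hT0]
    apply hpow
    rcases hn0.lt_or_eq with h5 | h5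
    · exact h5
    · exfalso
      have h6 : (e : ℤ) ∣ ((j : ℕ) : ℤ) := ⟨-n, by linarith⟩
      have h7 : e ∣ (j : ℕ) := by exact_mod_cast h6
      exact absurd (Nat.le_of_dvd (Nat.pos_of_ne_zero hj0) h7) (not_le.2 j.2)

private theorem gu_const {V : ValuationSubring F} (hV : ∀ c : K, algebraMap K F c ∈ V) :
    ∃ φ : K →+* V, ∀ c, (φ c : F) = algebraMap K F c :=
  ⟨(algebraMap K F).codRestrict V.toSubring hV, fun _ => rfl⟩

theorem ram_pt {e : ℕ} {π : RatFunc K} {T : F} {u : K[X]} (h : Ram K F e π T u)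
    (L : Type) [Field L] [Algebra K L] :
    ∃! P : Pt K F L, P.V.valuation (algebraMap (RatFunc K) F π) < 1 := by
  obtain ⟨V, hV, hπ⟩ := ram_exists h
  obtain ⟨φ, hφ⟩ := gu_const hV
  have hpl : IsPlace K F V := by
    refine ⟨hV, ?_⟩
    rintro rfl
    obtain ⟨_, _, hT0⟩ := ram_vT h hV hπ
    obtain ⟨hT, _, _⟩ := ram_vT h hV hπ
    have hne : algebraMap (RatFunc K) F π ≠ 0 := by
      intro h0
      rw [h0, map_zero] at hT
      exact hT0 (pow_eq_zero_iff (by have := h.he; omega) |>.1 hT)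
    have h2 : (⊤ : ValuationSubring F).valuation (algebraMap (RatFunc K) F π)⁻¹ ≤ 1 :=
      (ValuationSubring.valuation_le_one_iff _ _).2 (ValuationSubring.mem_top _)
    have h3 : (⊤ : ValuationSubring F).valuation (algebraMap (RatFunc K) F π) *
        (⊤ : ValuationSubring F).valuation (algebraMap (RatFunc K) F π)⁻¹ = 1 := by
      rw [← map_mul, mul_inv_cancel₀ hne, map_one]
    exact absurd h3 (mul_lt_one_of_lt_of_le hπ h2).ne
  have hbij : Function.Bijective ((IsLocalRing.residue V).comp φ) := by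
    refine ⟨RingHom.injective _, ?_⟩
    intro r
    obtain ⟨y, rfl⟩ := IsLocalRing.residue_surjective r
    obtain ⟨c, hc⟩ := ram_res h hV hπ y.2
    refine ⟨c, ?_⟩
    rw [RingHom.comp_apply, eq_comm, ← sub_eq_zero, ← map_sub, IsLocalRing.residue_eq_zero_iff,
      ValuationSubring.valuation_lt_one_iff]
    have h5 : ((y - φ c : V) : F) = (y : F) - algebraMap K F c := by
      rw [← hφ c]; rfl
    rw [h5]
    exact hc
  let E := RingEquiv.ofBijective _ hbij
  let r : V →+* L := ((algebraMap K L).comp (E.symm : _ →+* K)).comp (IsLocalRing.residue V)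
  have hr1 : ∀ c : K, r ⟨algebraMap K F c, hpl.1 c⟩ = algebraMap K L c := by
    intro c
    have h6 : (⟨algebraMap K F c, hpl.1 c⟩ : V) = φ c := Subtype.ext (hφ c).symm
    rw [h6]
    change algebraMap K L (E.symm (IsLocalRing.residue V (φ c))) = _
    congr 1
    rw [RingEquiv.symm_apply_eq]
    rfl
  have hr2 : ∀ y : V, r y = 0 ↔ V.valuation (y : F) < 1 := by
    intro y
    change algebraMap K L (E.symm (IsLocalRing.residue V y)) = 0 ↔ _
    rw [FaithfulSMul.algebraMap_eq_zero_iff, map_eq_zero_iff _ E.symm.injective,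
      IsLocalRing.residue_eq_zero_iff, ValuationSubring.valuation_lt_one_iff]
  refine ⟨⟨V, hpl, r, hr1, hr2⟩, hπ, ?_⟩
  rintro ⟨V', hp', r', hr1', hr2'⟩ hπ'
  have hVV : V' = V := ram_uniq h hp'.1 hπ' hV hπ
  subst hVV
  have hrr : r' = r := by
    ext y
    obtain ⟨c, hc⟩ := ram_res h hV hπ y.2
    have h7 : r' (y - ⟨algebraMap K F c, hpl.1 c⟩) = 0 := (hr2' _).2 hc
    have h8 : r (y - ⟨algebraMap K F c, hpl.1 c⟩) = 0 := (hr2 _).2 hc
    rw [map_sub, sub_eq_zero] at h7 h8
    rw [h7, h8, hr1, hr1']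
  subst hrr
  rfl

end Pool.SG
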