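import Pool.Agent.Lib.MP_a51fee_ag.SG.GUnr
import Pool.Agent.Lib.MP_a51fee_ag.SG.GLoc
import Pool.Agent.Lib.MP_a51fee_ag.SG.GRamUniq

/-!
# SG-GCount: the number of points
-/

set_option autoImplicit false

open Polynomial

namespace Pool.SG

variable {K F : Type} [Field K] [Field F] [Algebra K F] [Algebra (RatFunc K) F]
  [IsScalarTower K (RatFunc K) F]

/-- a point over the zero `c` of `f` -/
theorem gc_root {e i w : ℕ} {Z : F} (h : Cv K F e i w Z) (L : Type) [Field L]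
    [Algebra K L] (c : K) (hc : c ^ i * (c ^ w - 1) = 0) :
    ∃! P : Pt K F L, P.V.valuation (xx K F - algebraMap K F c) < 1 := by
  have hX : algebraMap (RatFunc K) F (RatFunc.X - RatFunc.C c) = xx K F - algebraMap K F c := by
    rw [map_sub, xx, IsScalarTower.algebraMap_apply K (RatFunc K) F, RatFunc.algebraMap_eq_C]
  rcases mul_eq_zero.1 hc with h1 | h1
  · have hc0 : c = 0 := by
      by_contra hne
      exact pow_ne_zero _ hne h1
    obtain ⟨T, u, α, hR, -⟩ := ram_zero h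
    have := ram_pt hR L
    rw [hc0, map_zero, sub_zero]
    exact this
  · obtain ⟨u, hR⟩ := ram_root h (sub_eq_zero.1 h1)
    have := ram_pt hR L
    rw [hX] at this
    exact this

theorem gc_inf {e i w : ℕ} {Z : F} (h : Cv K F e i w Z) (L : Type) [Field L]
    [Algebra K L] :
    ∃! P : Pt K F L, P.V.valuation (xx K F)⁻¹ < 1 := by
  obtain ⟨T, u, α, hR, -⟩ := ram_inf h
  have := ram_pt hR L
  rw [map_inv₀] at this
  exact this

omit [IsScalarTower K (RatFunc K) F] in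
theorem gc_notin {L : Type} [Field L] [Algebra K L] (P : Pt K F L) :
    xx K F ∉ P.V ↔ P.V.valuation (xx K F)⁻¹ < 1 := by
  rw [map_inv₀, ← P.V.valuation_le_one_iff, not_le]
  constructor
  · intro h1
    exact inv_lt_one_of_one_lt₀ h1
  · intro h1
    by_contra h2
    rw [not_lt] at h2
    have h3 : P.V.valuation (xx K F) ≠ 0 := by
      rw [_root_.map_ne_zero, xx, _root_.map_ne_zero]
      exact RatFunc.X_ne_zero
    have h4 := (one_le_inv₀ (zero_lt_iff.2 h3)).2 h2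
    exact absurd h1 (not_lt.2 h4)

theorem gc_Z {e i w : ℕ} {Z : F} (h : Cv K F e i w Z) {V : ValuationSubring F}
    (_hV : ∀ c : K, algebraMap K F c ∈ V) (hx : xx K F ∈ V) : Z ∈ V := by
  have he := h.he
  have h1 : aeval (xx K F) (fP K i w) ∈ V := by
    rw [fP, map_mul, map_sub, map_pow, map_pow, aeval_X, map_one]
    exact V.mul_mem _ _ (pow_mem hx _) (sub_mem (pow_mem hx _) (one_mem _))
  rw [← gu_Z h, ← V.valuation_le_one_iff, map_pow] at h1
  rw [← V.valuation_le_one_iff]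
  exact (pow_le_one_iff (by omega)).1 h1

theorem gc_eq {e i w : ℕ} {Z : F} (h : Cv K F e i w Z) {L : Type} [Field L]
    [Algebra K L] (P : Pt K F L) (hx : xx K F ∈ P.V) (hz : Z ∈ P.V) :
    P.res ⟨Z, hz⟩ ^ e = P.res ⟨xx K F, hx⟩ ^ i * (P.res ⟨xx K F, hx⟩ ^ w - 1) := by
  rw [← map_pow, ← map_pow, ← map_pow, ← map_one P.res, ← map_sub, ← map_mul]
  congr 1
  apply Subtype.ext
  push_cast
  rw [gu_Z h, gu_fP]

omit [IsScalarTower K (RatFunc K) F] in
theorem gc_sub {L : Type} [Field L] [Algebra K L] (P : Pt K F L) (hx : xx K F ∈ P.V) (c : K) :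
    P.res ⟨xx K F, hx⟩ = algebraMap K L c ↔
      P.V.valuation (xx K F - algebraMap K F c) < 1 := by
  have h1 : xx K F - algebraMap K F c ∈ P.V := sub_mem hx (P.place.1 c)
  rw [← P.ker ⟨_, h1⟩]
  have h2 : (⟨xx K F - algebraMap K F c, h1⟩ : P.V)
      = ⟨xx K F, hx⟩ - ⟨algebraMap K F c, P.place.1 c⟩ := rfl
  rw [h2, map_sub, P.const, sub_eq_zero]

theorem gc_const {e i w : ℕ} {Z : F} (h : Cv K F e i w Z) {L : Type} [Field L]
    [Algebra K L] (x0 : L) (h0 : x0 ^ i * (x0 ^ w - 1) = 0) :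
    ∃ c : K, algebraMap K L c = x0 ∧ c ^ i * (c ^ w - 1) = 0 := by
  have hw := h.hw
  have hi := h.hi
  rcases mul_eq_zero.1 h0 with h1 | h1
  · refine ⟨0, ?_, ?_⟩
    · rw [map_zero]
      by_contra hne
      exact pow_ne_zero _ (Ne.symm hne) h1
    · rw [zero_pow (by omega), zero_mul]
  · obtain ⟨ζ, hζ⟩ := h.root
    have h2 : IsPrimitiveRoot (algebraMap K L ζ) w :=
      hζ.map_of_injective (algebraMap K L).injective
    have : NeZero w := ⟨by omega⟩
    obtain ⟨j, -, hj⟩ := h2.eq_pow_of_pow_eq_one (sub_eq_zero.1 h1)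
    refine ⟨ζ ^ j, ?_, ?_⟩
    · rw [map_pow, hj]
    · have e1 : (ζ ^ j) ^ w = 1 := by
        rw [← pow_mul, mul_comm j w, pow_mul ζ w j, hζ.pow_eq_one, one_pow]
      rw [e1, sub_self, mul_zero]

theorem card_pt {e i w : ℕ} {Z : F} (h : Cv K F e i w Z) (L : Type) [Field L] [Finite L]
    [Algebra K L] :
    Nat.card (Pt K F L) = Nat.card {z : L × L // z.2 ^ e = z.1 ^ i * (z.1 ^ w - 1)} + 1 := by
  classical
  have he := h.he
  have hopt : Nat.card (Option {z : L × L // z.2 ^ e = z.1 ^ i * (z.1 ^ w - 1)}) =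
      Nat.card {z : L × L // z.2 ^ e = z.1 ^ i * (z.1 ^ w - 1)} + 1 := Finite.card_option
  rw [← hopt]
  let φ : Pt K F L → Option {z : L × L // z.2 ^ e = z.1 ^ i * (z.1 ^ w - 1)} := fun P =>
    if hx : xx K F ∈ P.V then
      some ⟨(P.res ⟨xx K F, hx⟩, P.res ⟨Z, gc_Z h P.place.1 hx⟩), gc_eq h P hx _⟩
    else none
  have hφ1 : ∀ (P : Pt K F L) (hx : xx K F ∈ P.V), φ P =
      some ⟨(P.res ⟨xx K F, hx⟩, P.res ⟨Z, gc_Z h P.place.1 hx⟩), gc_eq h P hx _⟩ :=
    fun P hx => dif_pos hx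
  have hφ2 : ∀ (P : Pt K F L) (_ : xx K F ∉ P.V), φ P = none := fun P hx => dif_neg hx
  refine Nat.card_eq_of_bijective φ ⟨?_, ?_⟩
  · intro P P' hPP
    by_cases hx : xx K F ∈ P.V
    · by_cases hx' : xx K F ∈ P'.V
      · rw [hφ1 P hx, hφ1 P' hx', Option.some_inj, Subtype.mk.injEq, Prod.mk.injEq] at hPP
        obtain ⟨e1, e2⟩ := hPP
        by_cases h0 : P.res ⟨Z, gc_Z h P.place.1 hx⟩ = 0
        · have e3 := gc_eq h P hx (gc_Z h P.place.1 hx)
          rw [h0, zero_pow (by omega)] at e3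
          obtain ⟨c, hc, hc'⟩ := gc_const h _ e3.symm
          obtain ⟨Q, hQ, hQ'⟩ := gc_root h L c hc'
          have a1 := (gc_sub P hx c).1 hc.symm
          have a2 := (gc_sub P' hx' c).1 (e1 ▸ hc.symm)
          rw [hQ' P a1, hQ' P' a2]
        · exact unr_unique h P P' hx _ hx' _ e1 e2 h0
      · rw [hφ1 P hx, hφ2 P' hx'] at hPP
        exact absurd hPP (by simp)
    · by_cases hx' : xx K F ∈ P'.V
      · rw [hφ2 P hx, hφ1 P' hx'] at hPP
        exact absurd hPP (by simp)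
      · obtain ⟨Q, hQ, hQ'⟩ := gc_inf h L
        rw [hQ' P ((gc_notin P).1 hx), hQ' P' ((gc_notin P').1 hx')]
  · intro z
    rcases z with _ | ⟨⟨x0, z0⟩, hz⟩
    · obtain ⟨Q, hQ, hQ'⟩ := gc_inf h L
      exact ⟨Q, hφ2 Q ((gc_notin Q).2 hQ)⟩
    · simp only at hz
      by_cases h0 : z0 = 0
      · rw [h0, zero_pow (by omega)] at hz
        obtain ⟨c, hc, hc'⟩ := gc_const h _ hz.symm
        obtain ⟨Q, hQ, hQ'⟩ := gc_root h L c hc'
        have hx : xx K F ∈ Q.V := by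
          have h1 : xx K F - algebraMap K F c ∈ Q.V :=
            (Q.V.valuation_le_one_iff _).1 hQ.le
          have := add_mem h1 (Q.place.1 c)
          rwa [sub_add_cancel] at this
        have hr : Q.res ⟨xx K F, hx⟩ = x0 := by
          rw [← hc]
          exact (gc_sub Q hx c).2 hQ
        refine ⟨Q, ?_⟩
        rw [hφ1 Q hx, Option.some_inj, Subtype.mk.injEq, Prod.mk.injEq]
        refine ⟨hr, ?_⟩
        have e3 := gc_eq h Q hx (gc_Z h Q.place.1 hx)
        rw [hr, ← hz] at e3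
        rw [h0]
        exact pow_eq_zero_iff (by omega) |>.1 e3
      · obtain ⟨P, hx, hZ, e1, e2⟩ := unr_exists h x0 z0 hz h0
        refine ⟨P, ?_⟩
        rw [hφ1 P hx, Option.some_inj, Subtype.mk.injEq, Prod.mk.injEq]
        exact ⟨e1, e2⟩

end Pool.SG
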