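import Pool.Agent.Lib.MP_a51fee_ag.SG.GLoc
import Pool.Agent.Lib.MP_a51fee_ag.SG.GRamUniq

/-!
# SG-GCur: `F / K` is a curve

PROOF.  `finite`: `x = xx K F` is transcendental (`cv_tr`); the intermediate field `K(x) = adjoin K {x}` is the
range of `algebraMap (RatFunc K) F` (it contains `g(x)/h(x)`); `F` is spanned over it by
`Z^0, .., Z^{e-1}` (`span`), so it is finite dimensional.
`const`: let `y` be algebraic over `K`.  `ram_inf`, `ram_exists`: a valuation ring `V ≥ K`,
`v(x⁻¹) < 1`.  `y ∈ V` (`y` is integral over `K`; `V` integrally closed).  `ram_res`: `c ∈ K` with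
`v(y - c) < 1`.  `y - c` is algebraic over `K`; if it is not `0` then `(y - c)⁻¹` is algebraic, hence in
`V`, contradiction.
-/

set_option autoImplicit false

namespace Pool.SG

variable {K F : Type} [Field K] [Field F] [Algebra K F] [Algebra (RatFunc K) F]
  [IsScalarTower K (RatFunc K) F]

omit [Algebra (RatFunc K) F] [IsScalarTower K (RatFunc K) F] in
private theorem cur_alg_mem {V : ValuationSubring F} (hV : ∀ c : K, algebraMap K F c ∈ V) {y : F}
    (hy : IsAlgebraic K y) : y ∈ V := by
  have hi : IsIntegral K y := hy.isIntegral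
  obtain ⟨p, hp, he⟩ := hi
  let φ : K →+* V :=
    { toFun := fun c => ⟨algebraMap K F c, hV c⟩
      map_one' := by ext; simp
      map_mul' := by intro a b; ext; simp
      map_zero' := by ext; simp
      map_add' := by intro a b; ext; simp }
  have hc : (algebraMap V F).comp φ = algebraMap K F := by
    ext c; rfl
  have hI : IsIntegral V y := by
    refine ⟨p.map φ, hp.map φ, ?_⟩
    rw [Polynomial.eval₂_map, hc]
    exact he
  obtain ⟨z, hz⟩ := IsIntegrallyClosed.isIntegral_iff.mp hI
  rw [← hz]
  exact z.2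

private theorem cur_rat_mem (c : RatFunc K) :
    algebraMap (RatFunc K) F c ∈ IntermediateField.adjoin K {xx K F} := by
  have hg : ∀ g : Polynomial K, algebraMap (RatFunc K) F (algebraMap (Polynomial K) (RatFunc K) g) ∈
      IntermediateField.adjoin K {xx K F} := by
    intro g
    rw [← RatFunc.aeval_X_left_eq_algebraMap, ← Polynomial.aeval_algebraMap_apply]
    exact IntermediateField.algebra_adjoin_le_adjoin K _
      (Polynomial.aeval_mem_adjoin_singleton K (xx K F))
  rw [← RatFunc.num_div_denom c, map_div₀]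
  exact div_mem (hg _) (hg _)

theorem isCurve_cv {e i w : ℕ} {Z : F} (h : Cv K F e i w Z) : IsCurve K F := by
  classical
  refine ⟨⟨xx K F, cv_tr h, ?_⟩, ?_⟩
  · refine ⟨⟨Finset.univ.image (fun j : Fin e => Z ^ (j : ℕ)), ?_⟩⟩
    rw [eq_top_iff]
    intro y _
    obtain ⟨c, hc⟩ := h.span y
    rw [hc]
    refine Submodule.sum_mem _ fun j _ => ?_
    have h1 : algebraMap (RatFunc K) F (c j) * Z ^ (j : ℕ) =
        (⟨algebraMap (RatFunc K) F (c j), cur_rat_mem (c j)⟩ :
          IntermediateField.adjoin K {xx K F}) • Z ^ (j : ℕ) := rfl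
    rw [h1]
    refine Submodule.smul_mem _ _ (Submodule.subset_span ?_)
    simp
  · intro y hy
    obtain ⟨T, u, α, hR, -⟩ := ram_inf h
    obtain ⟨V, hV, hπ⟩ := ram_exists hR
    have hyV : y ∈ V := cur_alg_mem hV hy
    obtain ⟨c, hc⟩ := ram_res hR hV hπ hyV
    refine ⟨c, ?_⟩
    by_contra hne
    have hz : y - algebraMap K F c ≠ 0 := fun h0 => hne (sub_eq_zero.mp h0).symm
    have hza : IsAlgebraic K (y - algebraMap K F c) := hy.sub (isAlgebraic_algebraMap c)
    have hzi : IsAlgebraic K (y - algebraMap K F c)⁻¹ := hza.inv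
    have hm := cur_alg_mem hV hzi
    rw [← V.valuation_le_one_iff, map_inv₀] at hm
    have hne0 : V.valuation (y - algebraMap K F c) ≠ 0 := (V.valuation.ne_zero_iff).mpr hz
    have h1 : 1 ≤ V.valuation (y - algebraMap K F c) := by
      rwa [inv_le_one₀ (zero_lt_iff.mpr hne0)] at hm
    exact absurd hc (not_lt.mpr h1)

end Pool.SG
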