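import Pool.Agent.Lib.MP_a51fee_ag.SG.GD

/-!
# SG-GField: the function field exists

`exists_cv`.  PROOF.  `E := RatFunc K`, `f := algebraMap K[X] E (fP K i w)`.
(1) `P := X ^ e - C f : E[X]` is irreducible: `X_pow_sub_C_irreducible_iff_forall_prime_of_odd` (or
`X_pow_sub_C_irreducible_iff_of_odd`): `e` odd, so it is enough that `f` is not an `l`-th power in `E`
for every prime `l ∣ e`.  If `f = b ^ l`, then (`K[X]` integrally closed, or write `b = g / h` coprime) we
compare the multiplicity of the root `1` of `fP`: `X ^ w - 1 = (X - 1) q`, `q(1) = w ≠ 0` in `K` and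
`X ^ i` is `1` at `1`, so the multiplicity of `X - 1` in `fP` is exactly `1`, and it would be divisible by
`l` (e.g. `g ^ l = fP * h ^ l`, `rootMultiplicity 1`: `l * m_g = 1 + l * m_h`).
(2) `F := AdjoinRoot P` (with `Fact (Irreducible P)`) is a field, `Algebra E F`;
`Algebra K F := ((algebraMap E F).comp (algebraMap K E)).toAlgebra`, scalar tower `IsScalarTower K E F`,
`Z := AdjoinRoot.root P`, `Z ^ e = f` (`AdjoinRoot.eval₂_root`).
(3) `AdjoinRoot.powerBasis'` of the monic `P` of degree `e` gives `lin` and `span`.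
-/

set_option autoImplicit false

open Polynomial

namespace Pool.SG

private theorem not_pow (K : Type) [Field K] (i w l : ℕ) (hw : 0 < w) (wk : (w : K) ≠ 0)
    (hl : 2 ≤ l) (b : RatFunc K) : b ^ l ≠ algebraMap K[X] (RatFunc K) (fP K i w) := by
  intro hb
  have h1 : IsIntegral K[X] (b ^ l) := by
    rw [hb]
    exact isIntegral_algebraMap
  obtain ⟨g, hg⟩ := IsIntegrallyClosed.exists_algebraMap_eq_of_isIntegral_pow (R := K[X])
    (by omega : 0 < l) h1
  have h2 : g ^ l = fP K i w := by
    apply IsFractionRing.injective K[X] (RatFunc K)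
    rw [map_pow, hg, hb]
  have h3 : (X - C (1 : K)) ∣ fP K i w := by
    rw [Polynomial.dvd_iff_isRoot]
    simp [fP, Polynomial.IsRoot]
  have h4 : (X - C (1 : K)) ∣ g := by
    rw [← h2] at h3
    exact (Polynomial.prime_X_sub_C (1 : K)).dvd_of_dvd_pow h3
  have h5 : (X - C (1 : K)) ^ 2 ∣ fP K i w := by
    rw [← h2]
    exact (pow_dvd_pow_of_dvd h4 2).trans (pow_dvd_pow g hl)
  obtain ⟨q, hq⟩ := h5
  have h6 : (fP K i w).derivative.eval 1 = 0 := by
    rw [hq]
    simp [Polynomial.derivative_mul, Polynomial.derivative_pow]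
  have h7 : (fP K i w).derivative.eval 1 = (w : K) := by
    simp [fP, Polynomial.derivative_mul, Polynomial.derivative_X_pow]
  exact wk (h7.symm.trans h6)

theorem exists_cv (K : Type) [Field K] (e i w : ℕ) (he : 1 < e) (hodd : Odd e) (hw : 0 < w)
    (hi : 0 < i) (ci : Nat.Coprime i e) (cw : Nat.Coprime (i + w) e) (ek : (e : K) ≠ 0)
    (wk : (w : K) ≠ 0) (root : ∃ ζ : K, IsPrimitiveRoot ζ w) :
    ∃ (F : Type) (_ : Field F) (_ : Algebra K F) (_ : Algebra (RatFunc K) F)
      (_ : IsScalarTower K (RatFunc K) F) (Z : F), Cv K F e i w Z := by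
  classical
  set f : RatFunc K := algebraMap K[X] (RatFunc K) (fP K i w) with hf
  set P : (RatFunc K)[X] := X ^ e - C f with hP
  have hirr : Irreducible P := by
    rw [hP, X_pow_sub_C_irreducible_iff_forall_prime_of_odd hodd]
    intro l hl _ b
    exact not_pow K i w l hw wk hl.two_le b
  have hmon : P.Monic := Polynomial.monic_X_pow_sub_C f (by omega)
  have hdeg : P.natDegree = e := Polynomial.natDegree_X_pow_sub_C
  have : Fact (Irreducible P) := ⟨hirr⟩
  let pb := AdjoinRoot.powerBasis' hmon
  have hdim : pb.dim = e := by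
    rw [AdjoinRoot.powerBasis'_dim, hdeg]
  have hgen : pb.gen = AdjoinRoot.root P := AdjoinRoot.powerBasis'_gen hmon
  refine ⟨AdjoinRoot P, inferInstance, inferInstance, inferInstance, inferInstance,
    AdjoinRoot.root P, ?_⟩
  have hlin : LinearIndependent (RatFunc K) (fun j : Fin e => (AdjoinRoot.root P) ^ (j : ℕ)) := by
    have h1 := pb.basis.linearIndependent
    have h2 : (fun j : Fin pb.dim => pb.basis j) = fun j : Fin pb.dim =>
        (AdjoinRoot.root P) ^ (j : ℕ) := by
      funext j
      rw [pb.basis_eq_pow, hgen]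
    have h3 : LinearIndependent (RatFunc K) (fun j : Fin pb.dim =>
        (AdjoinRoot.root P) ^ (j : ℕ)) := by
      rw [← h2]
      exact h1
    have h4 : ∀ n : ℕ, n = e → LinearIndependent (RatFunc K) (fun j : Fin n =>
        (AdjoinRoot.root P) ^ (j : ℕ)) → LinearIndependent (RatFunc K) (fun j : Fin e =>
        (AdjoinRoot.root P) ^ (j : ℕ)) := by
      rintro n rfl h
      exact h
    exact h4 _ hdim h3
  have hspan : ∀ y : AdjoinRoot P, ∃ c : Fin e → RatFunc K,
      y = ∑ j, algebraMap (RatFunc K) (AdjoinRoot P) (c j) * (AdjoinRoot.root P) ^ (j : ℕ) := by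
    intro y
    have h4 : ∀ n : ℕ, n = e → (∃ c : Fin n → RatFunc K,
        y = ∑ j, algebraMap (RatFunc K) (AdjoinRoot P) (c j) * (AdjoinRoot.root P) ^ (j : ℕ)) →
        ∃ c : Fin e → RatFunc K,
        y = ∑ j, algebraMap (RatFunc K) (AdjoinRoot P) (c j) * (AdjoinRoot.root P) ^ (j : ℕ) := by
      rintro n rfl h
      exact h
    refine h4 _ hdim ⟨fun j => pb.basis.repr y j, ?_⟩
    conv_lhs => rw [← pb.basis.sum_repr y]
    refine Finset.sum_congr rfl fun j _ => ?_
    rw [pb.basis_eq_pow, hgen, Algebra.smul_def]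
  exact
    { he := he
      hw := hw
      hi := hi
      ci := ci
      cw := cw
      ek := ek
      wk := wk
      root := root
      eq := by
        have h1 := AdjoinRoot.eval₂_root P
        rw [hP, Polynomial.eval₂_sub, Polynomial.eval₂_X_pow, Polynomial.eval₂_C, sub_eq_zero] at h1
        exact h1
      lin := hlin
      span := hspan }

end Pool.SG
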