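import Pool.Agent.Lib.MP_a51fee_ag.SG.GUD

/-!
# SG-GInt: poles of the differentials of the first kind, finite part

`first_int`.  PROOF.  Let `y • D x` be of the first kind, `s := K ∪ {x, f(x)⁻¹}` (image of `K`).  Every
valuation ring `V ⊇ s` has `v(f(x)) = 1`, so `y ∈ V` by `unr_diff`.  By `iInf_valuationSubring_superset`
`y` is integral over `A0 := Subring.closure s = {g(x) / f(x)^m}`.  From a monic equation
`y^d + ∑_{j<d} a_j y^j = 0`, `a_j = g_j(x)/f(x)^m` (common `m`), multiply by `f(x)^{m d}`: `f(x)^m y` is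
integral over `K[x]` (`IsIntegralElem` for `aeval x`).  `int_coef`: `f(x) f(x)^m y = ∑ c_j(x) Z^j`.
-/

set_option autoImplicit false

open Polynomial

namespace Pool.SG

variable {K F : Type} [Field K] [Field F] [Algebra K F] [Algebra (RatFunc K) F]
  [IsScalarTower K (RatFunc K) F]

private theorem gi_fne {e i w : ℕ} {Z : F} (h : Cv K F e i w Z) :
    aeval (xx K F) (fP K i w) ≠ 0 := by
  have h1 : fP K i w ≠ 0 := by
    unfold fP
    refine mul_ne_zero (pow_ne_zero _ X_ne_zero) ?_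
    have := h.hw
    exact (monic_X_pow_sub_C (1 : K) (by omega)).ne_zero
  have h2 := transcendental_iff_injective.1 (cv_tr h)
  intro h3
  rw [← map_zero (aeval (xx K F) : K[X] →ₐ[K] F)] at h3
  exact h1 (h2 h3)

private theorem gi_den {e i w : ℕ} {Z : F} (h : Cv K F e i w Z) {a : F}
    (ha : a ∈ Subring.closure (Set.range (algebraMap K F) ∪
      {xx K F, (aeval (xx K F) (fP K i w))⁻¹})) :
    ∃ (m : ℕ) (g : K[X]), a * aeval (xx K F) (fP K i w) ^ m = aeval (xx K F) g := by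
  have hne := gi_fne h
  obtain ⟨fx, hfx⟩ : ∃ fx, fx = aeval (xx K F) (fP K i w) := ⟨_, rfl⟩
  rw [← hfx] at ha hne ⊢
  induction ha using Subring.closure_induction with
  | mem a ha =>
    rcases ha with ⟨c, rfl⟩ | ha
    · exact ⟨0, C c, by rw [pow_zero, mul_one, aeval_C]⟩
    · rcases ha with rfl | ha
      · exact ⟨0, X, by rw [pow_zero, mul_one, aeval_X]⟩
      · rw [Set.mem_singleton_iff] at ha
        exact ⟨1, 1, by rw [ha, pow_one, inv_mul_cancel₀ hne, map_one]⟩
  | zero => exact ⟨0, 0, by rw [zero_mul, map_zero]⟩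
  | one => exact ⟨0, 1, by rw [pow_zero, mul_one, map_one]⟩
  | add a b _ _ ha hb =>
    obtain ⟨m, g, h1⟩ := ha
    obtain ⟨n, g', h2⟩ := hb
    refine ⟨m + n, g * fP K i w ^ n + g' * fP K i w ^ m, ?_⟩
    rw [map_add, map_mul, map_mul, map_pow, map_pow, ← hfx, ← h1, ← h2, pow_add]
    ring
  | neg a _ ha =>
    obtain ⟨m, g, h1⟩ := ha
    exact ⟨m, -g, by rw [map_neg, ← h1, neg_mul]⟩
  | mul a b _ _ ha hb =>
    obtain ⟨m, g, h1⟩ := ha
    obtain ⟨n, g', h2⟩ := hb
    refine ⟨m + n, g * g', ?_⟩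
    rw [map_mul, ← h1, ← h2, pow_add]
    ring

private theorem gi_clear {e i w : ℕ} {Z : F} (h : Cv K F e i w Z) {y : F}
    (hy : IsIntegral (Subring.closure (Set.range (algebraMap K F) ∪
      {xx K F, (aeval (xx K F) (fP K i w))⁻¹})) y) :
    ∃ m : ℕ, ((aeval (xx K F) : K[X] →ₐ[K] F) : K[X] →+* F).IsIntegralElem
      (aeval (xx K F) (fP K i w) ^ m * y) := by
  obtain ⟨P, hP, hPy⟩ := hy
  obtain ⟨A0, hA0⟩ : ∃ A0, A0 = Subring.closure (Set.range (algebraMap K F) ∪
      {xx K F, (aeval (xx K F) (fP K i w))⁻¹}) := ⟨_, rfl⟩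
  obtain ⟨fx, hfx⟩ : ∃ fx, fx = aeval (xx K F) (fP K i w) := ⟨_, rfl⟩
  obtain ⟨P', hP'⟩ : ∃ P' : F[X], P' = P.map (algebraMap _ F) := ⟨_, rfl⟩
  have hmon : P'.Monic := by
    rw [hP']
    exact hP.map _
  have hroot : aeval y P' = 0 := by
    rw [hP', aeval_def, eval₂_map]
    exact hPy
  have hden : ∀ j, ∃ (m : ℕ) (g : K[X]), P'.coeff j * fx ^ m = aeval (xx K F) g := by
    intro j
    rw [hfx]
    refine gi_den h ?_
    rw [hP', coeff_map]
    exact (P.coeff j).2
  choose mm gg hg using hden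
  obtain ⟨m, hm⟩ : ∃ m, m = ∑ j ∈ Finset.range (P'.natDegree + 1), mm j := ⟨_, rfl⟩
  have hle : ∀ j, j < P'.natDegree + 1 → mm j ≤ m := by
    intro j hj
    rw [hm]
    exact Finset.single_le_sum (fun _ _ => Nat.zero_le _) (Finset.mem_range.2 hj)
  have hco : ∀ j, j < P'.natDegree + 1 → ∃ g : K[X], P'.coeff j * fx ^ m = aeval (xx K F) g := by
    intro j hj
    refine ⟨gg j * fP K i w ^ (m - mm j), ?_⟩
    rw [map_mul, map_pow, ← hfx, ← hg j, mul_assoc, ← pow_add, Nat.add_sub_cancel' (hle j hj)]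
  obtain ⟨R, hR⟩ : ∃ R, R = P'.scaleRoots (fx ^ m) := ⟨_, rfl⟩
  have hRm : R.Monic := by
    rw [hR]
    exact (monic_scaleRoots_iff _).2 hmon
  have hRr : aeval (fx ^ m * y) R = 0 := by
    have h1 := scaleRoots_aeval_eq_zero (r := fx ^ m) hroot
    rw [hR]
    exact h1
  have hRl : R ∈ lifts ((aeval (xx K F) : K[X] →ₐ[K] F) : K[X] →+* F) := by
    rw [lifts_iff_coeff_lifts]
    intro j
    rcases lt_trichotomy j P'.natDegree with hj | hj | hj
    · obtain ⟨g, hg'⟩ := hco j (by omega)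
      refine ⟨g * (fP K i w ^ m) ^ (P'.natDegree - j - 1), ?_⟩
      have e1 : P'.natDegree - j = P'.natDegree - j - 1 + 1 := by omega
      rw [hR, coeff_scaleRoots]
      show aeval (xx K F) (g * (fP K i w ^ m) ^ (P'.natDegree - j - 1)) = _
      rw [map_mul, map_pow, map_pow, ← hfx, ← hg', e1, Nat.add_sub_cancel, pow_succ]
      ring
    · refine ⟨1, ?_⟩
      rw [hR, coeff_scaleRoots, hj, Nat.sub_self, pow_zero, mul_one, map_one]
      exact hmon.coeff_natDegree.symm
    · refine ⟨0, ?_⟩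
      rw [hR, coeff_scaleRoots, coeff_eq_zero_of_natDegree_lt hj, zero_mul, map_zero]
  obtain ⟨Q, hQ1, _, hQ3⟩ := lifts_and_natDegree_eq_and_monic hRl hRm
  refine ⟨m, Q, hQ3, ?_⟩
  rw [← hfx, ← hRr, ← hQ1, aeval_def, eval₂_map]
  rfl

theorem first_int {e i w : ℕ} {Z : F} (h : Cv K F e i w Z) {y : F}
    (hy : y • KaehlerDifferential.D K F (xx K F) ∈ firstKind K F) :
    ∃ (N : ℕ) (c : Fin e → K[X]), aeval (xx K F) (fP K i w) ^ N * y =
      ∑ j, aeval (xx K F) (c j) * Z ^ (j : ℕ) := by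
  have hne := gi_fne h
  obtain ⟨s, hs⟩ : ∃ s : Set F, s = Set.range (algebraMap K F) ∪
      {xx K F, (aeval (xx K F) (fP K i w))⁻¹} := ⟨_, rfl⟩
  have key : ∀ V : ValuationSubring F, s ⊆ (V.toSubring : Set F) → y ∈ V := by
    intro V hsV
    have hV : ∀ c : K, algebraMap K F c ∈ V := by
      intro c
      refine hsV ?_
      rw [hs]
      exact Or.inl ⟨c, rfl⟩
    have hx : xx K F ∈ V := by
      refine hsV ?_
      rw [hs]
      exact Or.inr (Or.inl rfl)
    have hf' : (aeval (xx K F) (fP K i w))⁻¹ ∈ V := by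
      refine hsV ?_
      rw [hs]
      exact Or.inr (Or.inr rfl)
    have hf : aeval (xx K F) (fP K i w) ∈ V := by
      unfold fP
      rw [map_mul, map_pow, map_sub, map_pow, aeval_X, map_one]
      exact V.mul_mem _ _ (pow_mem hx _) (sub_mem (pow_mem hx _) V.one_mem)
    have hv : V.valuation (aeval (xx K F) (fP K i w)) = 1 := by
      have h1 := (V.valuation_le_one_iff _).2 hf
      have h2 := (V.valuation_le_one_iff _).2 hf'
      rw [map_inv₀] at h2
      have h3 : V.valuation (aeval (xx K F) (fP K i w)) ≠ 0 := (Valuation.ne_zero_iff _).2 hne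
      refine le_antisymm h1 ?_
      exact (inv_le_one₀ (zero_lt_iff.2 h3)).1 h2
    exact (unr_diff h hV hx hv y).1 (hy V hV)
  have hmem : y ∈ (integralClosure (Subring.closure s) F).toSubring := by
    rw [← iInf_valuationSubring_superset, Subring.mem_iInf]
    intro V
    exact key V.1 V.2
  have hint : IsIntegral (Subring.closure s) y := hmem
  rw [hs] at hint
  obtain ⟨m, hm⟩ := gi_clear h hint
  obtain ⟨c, hc⟩ := int_coef h hm
  refine ⟨m + 1, c, ?_⟩
  rw [← hc, pow_succ]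
  ring

end Pool.SG
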