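import Pool.Agent.Lib.MP_a51fee_ag.SG.GD

/-!
# SG-GPoly: orders of rational functions

PROOFS.  `aeval π g` for `π = RatFunc.X` is `algebraMap g`; `RatFunc.X - C r` is a shift.
* `ord_X_zero`: `c = X^n g / h` with `g(0) h(0) ≠ 0` and `c = G`: `G h = X^n g` (for `n ≥ 0`) or
  `G h X^{-n} = g`; compare `natTrailingDegree`.
* `ord_X_inf`: `π = X⁻¹`: `g(π) = X^{-deg g} g.reverse(X)` with `deg g.reverse = deg g` as `g(0) ≠ 0`: so
  `g(π)` has degree `0` in `X` (`RatFunc.intDegree`); `intDegree c = - n`, `intDegree G = natDegree G`.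
* `poly_of_ord`: multiplicities: for every root `r` of `fP` (`r = 0` or `r^w = 1`) and `c ≠ 0`,
  `Ord (X - C r) c n` gives `rootMultiplicity r g = N * rootMultiplicity r fP + n ≥ N * rootMultiplicity r fP`;
  `fP = X^i ∏_{r^w=1} (X - r)` splits, so `fP^N ∣ g`.
* the three `Ord` of `X^a`: at `C r`, `r ≠ 0`: `X^a = (π + r)^a` is a polynomial in `π` with constant
  coefficient `r^a`; at `0`: `π^a`; at infinity `π^{-a}`.
-/

set_option autoImplicit false

open Polynomial

namespace Pool.SG

variable {K : Type} [Field K]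

/-- the order of `c = g / P` at a point `r` of the line -/
theorem gp_mult {r : K} {c : RatFunc K} (hc : c ≠ 0) {n : ℤ}
    (h : Ord K (RatFunc.X - RatFunc.C r : RatFunc K) c n) {P g : K[X]} (hP : P ≠ 0)
    (hg : algebraMap K[X] (RatFunc K) P * c = algebraMap K[X] (RatFunc K) g) :
    (g.rootMultiplicity r : ℤ) = P.rootMultiplicity r + n := by
  obtain ⟨a, b, ha, hb, hc'⟩ := h
  have hinj : Function.Injective (algebraMap K[X] (RatFunc K)) := RatFunc.algebraMap_injective K
  have hpi : (RatFunc.X - RatFunc.C r : RatFunc K) = algebraMap K[X] (RatFunc K) (X - C r) := by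
    rw [map_sub, RatFunc.algebraMap_X, RatFunc.algebraMap_C]
  have hae : ∀ q : K[X], aeval (RatFunc.X - RatFunc.C r : RatFunc K) q =
      algebraMap K[X] (RatFunc K) (q.comp (X - C r)) := by
    intro q
    rw [hpi, Polynomial.aeval_algebraMap_apply, Polynomial.comp_eq_aeval]
  have hev : ∀ q : K[X], q.coeff 0 ≠ 0 → (q.comp (X - C r)).rootMultiplicity r = 0 := by
    intro q hq
    apply Polynomial.rootMultiplicity_eq_zero
    intro hroot
    apply hq
    have : (q.comp (X - C r)).eval r = 0 := hroot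
    rw [Polynomial.eval_comp] at this
    simpa [Polynomial.coeff_zero_eq_eval_zero] using this
  have hne : ∀ q : K[X], q.coeff 0 ≠ 0 → q.comp (X - C r) ≠ 0 := by
    intro q hq h0
    apply hq
    have : (q.comp (X - C r)).eval r = 0 := by rw [h0]; simp
    rw [Polynomial.eval_comp] at this
    simpa [Polynomial.coeff_zero_eq_eval_zero] using this
  have hXr : (X - C r : K[X]) ≠ 0 := Polynomial.X_sub_C_ne_zero r
  have hg0 : g ≠ 0 := by
    intro h0
    rw [h0, map_zero, mul_eq_zero] at hg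
    rcases hg with hg | hg
    · exact hP (hinj (by rw [hg, map_zero]))
    · exact hc hg
  have hb' : algebraMap K[X] (RatFunc K) (b.comp (X - C r)) ≠ 0 := by
    intro h0
    exact hne b hb (hinj (by rw [h0, map_zero]))
  have hpi0 : algebraMap K[X] (RatFunc K) (X - C r) ≠ 0 := by
    intro h0
    exact hXr (hinj (by rw [h0, map_zero]))
  rw [hae, hae, hpi] at hc'
  rcases Int.le_total 0 n with hn | hn
  · obtain ⟨m, rfl⟩ := Int.eq_ofNat_of_zero_le hn
    have e : P * (X - C r) ^ m * a.comp (X - C r) = g * b.comp (X - C r) := by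
      apply hinj
      rw [map_mul, map_mul, map_pow, map_mul, ← hg, hc', zpow_natCast]
      field_simp
    have e2 := congrArg (rootMultiplicity r) e
    rw [rootMultiplicity_mul (mul_ne_zero (mul_ne_zero hP (pow_ne_zero _ hXr)) (hne a ha)),
      rootMultiplicity_mul (mul_ne_zero hP (pow_ne_zero _ hXr)),
      rootMultiplicity_mul (mul_ne_zero hg0 (hne b hb)), hev a ha, hev b hb,
      rootMultiplicity_X_sub_C_pow] at e2
    omega
  · obtain ⟨m, hm⟩ := Int.eq_ofNat_of_zero_le (neg_nonneg.2 hn)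
    have hn' : n = -(m : ℤ) := by omega
    subst hn'
    have e : P * a.comp (X - C r) = g * b.comp (X - C r) * (X - C r) ^ m := by
      apply hinj
      rw [map_mul, map_mul, map_mul, map_pow, ← hg, hc', zpow_neg, zpow_natCast]
      field_simp
    have e2 := congrArg (rootMultiplicity r) e
    rw [rootMultiplicity_mul (mul_ne_zero hP (hne a ha)),
      rootMultiplicity_mul (mul_ne_zero (mul_ne_zero hg0 (hne b hb)) (pow_ne_zero _ hXr)),
      rootMultiplicity_mul (mul_ne_zero hg0 (hne b hb)), hev a ha, hev b hb,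
      rootMultiplicity_X_sub_C_pow] at e2
    omega

theorem ord_X_zero {G : K[X]} (hG : G ≠ 0) {n : ℤ}
    (h : Ord K (RatFunc.X : RatFunc K) (algebraMap K[X] (RatFunc K) G) n) :
    n = G.natTrailingDegree := by
  have hinj : Function.Injective (algebraMap K[X] (RatFunc K)) := RatFunc.algebraMap_injective K
  have h' : Ord K (RatFunc.X - RatFunc.C (0 : K) : RatFunc K)
      (algebraMap K[X] (RatFunc K) G) n := by
    rw [map_zero, sub_zero]; exact h
  have hc : algebraMap K[X] (RatFunc K) G ≠ 0 := fun h0 => hG (hinj (by rw [h0, map_zero]))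
  have e := gp_mult hc h' (P := 1) (g := G) one_ne_zero (by rw [map_one, one_mul])
  rw [Polynomial.rootMultiplicity_eq_natTrailingDegree'] at e
  have e1 : (1 : K[X]).rootMultiplicity 0 = 0 := by
    apply Polynomial.rootMultiplicity_eq_zero
    simp [Polynomial.IsRoot]
  rw [e1] at e
  omega

theorem gp_aeval_inv (g : K[X]) : aeval (RatFunc.X⁻¹ : RatFunc K) g =
    algebraMap K[X] (RatFunc K) g.reverse * (RatFunc.X⁻¹ : RatFunc K) ^ g.natDegree := by
  have hX : (RatFunc.X : RatFunc K) ≠ 0 := RatFunc.X_ne_zero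
  letI : Invertible (RatFunc.X⁻¹ : RatFunc K) := invertibleOfNonzero (inv_ne_zero hX)
  have e := Polynomial.eval₂_reverse_mul_pow (algebraMap K (RatFunc K)) (RatFunc.X⁻¹ : RatFunc K) g
  rw [Polynomial.aeval_def, ← e]
  congr 1
  have e3 : (⅟(RatFunc.X⁻¹ : RatFunc K)) = RatFunc.X := by
    rw [invOf_eq_inv, inv_inv]
  rw [e3, ← Polynomial.aeval_def, ← RatFunc.algebraMap_X, Polynomial.aeval_algebraMap_apply]
  simp

theorem gp_intDegree_pow {x : RatFunc K} (hx : x ≠ 0) (m : ℕ) :
    (x ^ m).intDegree = m * x.intDegree := by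
  induction m with
  | zero => simp
  | succ m ih =>
    rw [pow_succ, RatFunc.intDegree_mul (pow_ne_zero _ hx) hx, ih]
    push_cast
    ring

theorem gp_intDegree_aeval {g : K[X]} (hg : g.coeff 0 ≠ 0) :
    (aeval (RatFunc.X⁻¹ : RatFunc K) g).intDegree = 0 ∧ aeval (RatFunc.X⁻¹ : RatFunc K) g ≠ 0 := by
  have hinj : Function.Injective (algebraMap K[X] (RatFunc K)) := RatFunc.algebraMap_injective K
  have hX : (RatFunc.X : RatFunc K) ≠ 0 := RatFunc.X_ne_zero
  have hg0 : g ≠ 0 := by
    intro h0; apply hg; rw [h0]; simp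
  have hr : g.reverse ≠ 0 := by
    intro h0; exact hg0 ((Polynomial.reverse_eq_zero).1 h0)
  have hr' : algebraMap K[X] (RatFunc K) g.reverse ≠ 0 := fun h0 => hr (hinj (by rw [h0, map_zero]))
  have ht : g.natTrailingDegree = 0 := by
    rw [Polynomial.natTrailingDegree_eq_zero]
    exact Or.inr hg
  refine ⟨?_, ?_⟩
  · rw [gp_aeval_inv, RatFunc.intDegree_mul hr' (pow_ne_zero _ (inv_ne_zero hX)),
      RatFunc.intDegree_polynomial, gp_intDegree_pow (inv_ne_zero hX), RatFunc.intDegree_inv,
      RatFunc.intDegree_X, Polynomial.reverse_natDegree, ht]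
    simp
  · rw [gp_aeval_inv]
    exact mul_ne_zero hr' (pow_ne_zero _ (inv_ne_zero hX))

theorem ord_X_inf {G : K[X]} (hG : G ≠ 0) {n : ℤ}
    (h : Ord K (RatFunc.X⁻¹ : RatFunc K) (algebraMap K[X] (RatFunc K) G) n) :
    n = -(G.natDegree : ℤ) := by
  have hinj : Function.Injective (algebraMap K[X] (RatFunc K)) := RatFunc.algebraMap_injective K
  have hX : (RatFunc.X : RatFunc K) ≠ 0 := RatFunc.X_ne_zero
  obtain ⟨a, b, ha, hb, hc⟩ := h
  obtain ⟨da, na⟩ := gp_intDegree_aeval ha
  obtain ⟨db, nb⟩ := gp_intDegree_aeval hb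
  have hzp : ∀ k : ℤ, ((RatFunc.X⁻¹ : RatFunc K) ^ k).intDegree = -k := by
    intro k
    rcases Int.le_total 0 k with hk | hk
    · obtain ⟨m, rfl⟩ := Int.eq_ofNat_of_zero_le hk
      rw [zpow_natCast, gp_intDegree_pow (inv_ne_zero hX), RatFunc.intDegree_inv, RatFunc.intDegree_X]
      ring
    · obtain ⟨m, hm⟩ := Int.eq_ofNat_of_zero_le (neg_nonneg.2 hk)
      have hn' : k = -(m : ℤ) := by omega
      subst hn'
      rw [zpow_neg, zpow_natCast, RatFunc.intDegree_inv, gp_intDegree_pow (inv_ne_zero hX),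
        RatFunc.intDegree_inv, RatFunc.intDegree_X]
      ring
  have hz0 : ((RatFunc.X⁻¹ : RatFunc K) ^ n) ≠ 0 := zpow_ne_zero _ (inv_ne_zero hX)
  have e := congrArg RatFunc.intDegree hc
  rw [RatFunc.intDegree_polynomial, div_eq_mul_inv,
    RatFunc.intDegree_mul (mul_ne_zero hz0 na) (inv_ne_zero nb), RatFunc.intDegree_mul hz0 na,
    RatFunc.intDegree_inv, hzp, da, db] at e
  omega

theorem poly_of_ord {i w : ℕ} (hw : 0 < w) (hi : 0 < i) (wk : (w : K) ≠ 0)
    (root : ∃ ζ : K, IsPrimitiveRoot ζ w) {c : RatFunc K} {N : ℕ} {g : K[X]}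
    (hN : algebraMap K[X] (RatFunc K) (fP K i w ^ N) * c = algebraMap K[X] (RatFunc K) g)
    (h0 : c = 0 ∨ ∃ n : ℤ, 0 ≤ n ∧ Ord K (RatFunc.X : RatFunc K) c n)
    (hr : ∀ r : K, r ^ w = 1 → c = 0 ∨ ∃ n : ℤ, 0 ≤ n ∧
      Ord K (RatFunc.X - RatFunc.C r : RatFunc K) c n) :
    ∃ G : K[X], c = algebraMap K[X] (RatFunc K) G := by
  classical
  have hinj : Function.Injective (algebraMap K[X] (RatFunc K)) := RatFunc.algebraMap_injective K
  by_cases hc : c = 0
  · exact ⟨0, by rw [hc, map_zero]⟩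
  have _ := hi
  have _ := wk
  obtain ⟨ζ, hζ⟩ := root
  have hprod := X_pow_sub_one_eq_prod hw hζ
  have hw1 : (X ^ w - 1 : K[X]) ≠ 0 := by
    have := Polynomial.X_pow_sub_C_ne_zero hw (1 : K)
    simpa using this
  have hf0 : fP K i w ≠ 0 := by
    unfold fP
    exact mul_ne_zero (pow_ne_zero _ Polynomial.X_ne_zero) hw1
  have hfN : fP K i w ^ N ≠ 0 := pow_ne_zero _ hf0
  have hfN' : algebraMap K[X] (RatFunc K) (fP K i w ^ N) ≠ 0 :=
    fun h => hfN (hinj (by rw [h, map_zero]))
  have hsp : (fP K i w ^ N).Splits := by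
    apply Polynomial.Splits.pow
    unfold fP
    apply Polynomial.Splits.mul
    · exact Polynomial.Splits.pow Polynomial.Splits.X _
    · rw [hprod]
      exact Polynomial.Splits.prod (fun r _ => Polynomial.Splits.X_sub_C r)
  have hg0 : g ≠ 0 := by
    intro h
    rw [h, map_zero, mul_eq_zero] at hN
    rcases hN with hN | hN
    · exact hfN' hN
    · exact hc hN
  have hle : (fP K i w ^ N).roots ≤ g.roots := by
    rw [Multiset.le_iff_count]
    intro r
    rw [Polynomial.count_roots, Polynomial.count_roots]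
    by_cases hroot : (fP K i w ^ N).IsRoot r
    · have hn : ∃ n : ℤ, 0 ≤ n ∧ Ord K (RatFunc.X - RatFunc.C r : RatFunc K) c n := by
        have h1 : (fP K i w ^ N).eval r = 0 := hroot
        rw [Polynomial.eval_pow] at h1
        have h2 : (fP K i w).eval r = 0 := by
          by_contra hne
          exact pow_ne_zero N hne h1
        unfold fP at h2
        rw [Polynomial.eval_mul, mul_eq_zero] at h2
        rcases h2 with h2 | h2
        · have hr0 : r = 0 := by
            rw [Polynomial.eval_pow, Polynomial.eval_X] at h2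
            by_contra hne
            exact pow_ne_zero i hne h2
          subst hr0
          rcases h0 with h0 | h0
          · exact absurd h0 hc
          · simpa using h0
        · have hr1 : r ^ w = 1 := by
            have : r ^ w - 1 = 0 := by simpa using h2
            exact sub_eq_zero.1 this
          rcases hr r hr1 with h3 | h3
          · exact absurd h3 hc
          · exact h3
      obtain ⟨n, hn0, hO⟩ := hn
      have e := gp_mult hc hO hfN hN
      omega
    · rw [Polynomial.rootMultiplicity_eq_zero hroot]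
      exact Nat.zero_le _
  obtain ⟨G, hG⟩ := hsp.dvd_of_roots_le_roots hfN hle
  refine ⟨G, ?_⟩
  rw [hG, map_mul] at hN
  exact mul_left_cancel₀ hfN' hN

theorem ord_pow_root {r : K} (hr : r ≠ 0) (a : ℕ) :
    Ord K (RatFunc.X - RatFunc.C r : RatFunc K) ((RatFunc.X : RatFunc K) ^ a) 0 := by
  refine ⟨(X + C r) ^ a, 1, ?_, by simp, ?_⟩
  · rw [Polynomial.coeff_zero_eq_eval_zero]
    simpa using pow_ne_zero a hr
  · rw [map_pow, map_add, Polynomial.aeval_X, Polynomial.aeval_C, RatFunc.algebraMap_eq_C]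
    simp

theorem ord_pow_zero (a : ℕ) :
    Ord K (RatFunc.X : RatFunc K) ((RatFunc.X : RatFunc K) ^ a) a :=
  ⟨1, 1, by simp, by simp, by simp⟩

theorem ord_pow_inf (a : ℕ) :
    Ord K (RatFunc.X⁻¹ : RatFunc K) ((RatFunc.X : RatFunc K) ^ a) (-(a : ℤ)) := by
  refine ⟨1, 1, by simp, by simp, ?_⟩
  rw [zpow_neg, zpow_natCast, inv_pow, inv_inv]
  simp

end Pool.SG
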