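import Pool.Agent.Lib.MP_a51fee_ag.SG.GCrit
import Pool.Agent.Lib.MP_a51fee_ag.SG.GInt
import Pool.Agent.Lib.MP_a51fee_ag.SG.GPoly

/-!
# SG-GDown: every differential of the first kind is a combination of the `X ^ a Z ^ (-b) dX`

PROOF.  `ω = y • D x` (`cv_span`), `f(x)^N y = ∑_j c_j(x) Z^j` (`first_int`).  So
`y = ∑_{b<e} cb_b Z^{-b}` with `cb_0 = c_0 / f^N`, `cb_b = f c_{e-b} / f^N` for `1 ≤ b < e`
(`Z^{e-b} = f Z^{-b}`), elements of `RatFunc K`; `f^{N+1} cb_b ∈ K[X]`.
Places with `v(x - c) < 1` (`c^w = 1`), `v(x) < 1`, `v(x⁻¹) < 1` exist (`ram_root`, `ram_zero`,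
`ram_inf`, `ram_exists`); apply `crit_root`, `crit_zero`, `crit_inf`.
`crit_root`: order `n` with `e n - b + e - 1 ≥ 0`, `b ≥ 0`: `n ≥ 0`.  `crit_zero`:
`e n ≥ i b - e + 1 > - e`: `n ≥ 0`.  `poly_of_ord`: `cb_b = G_b ∈ K[X]`.  If `G_b ≠ 0`:
`natTrailingDegree G_b = n` (`ord_X_zero`) and `natDegree G_b = - n_∞` (`ord_X_inf`); so every `a` in
the support of `G_b` satisfies `i b ≤ e a + e - 1` (`a ≥ n`) and
`e (-a - 2) + (i+w) b + e - 1 ≥ 0` (`a ≤ natDegree`), i.e. `(a, b) ∈ Ix e i w` (`b ≥ 1` by the second;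
`a < e (i + w) + 1`).  So `y = ∑_b ∑_a coeff x^a Z^{-b}` is in the span.
-/

set_option autoImplicit false

open Polynomial

namespace Pool.SG

variable {K F : Type} [Field K] [Field F] [Algebra K F] [Algebra (RatFunc K) F]
  [IsScalarTower K (RatFunc K) F]

theorem gd_aeval (g : K[X]) :
    aeval (xx K F) g = algebraMap (RatFunc K) F (algebraMap K[X] (RatFunc K) g) := by
  unfold xx
  rw [aeval_algebraMap_apply]
  congr 1
  rw [← RatFunc.algebraMap_X, aeval_algebraMap_apply, aeval_X_left_apply]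

theorem gd_C (c : K) : algebraMap (RatFunc K) F (RatFunc.C c) = algebraMap K F c := by
  rw [← RatFunc.algebraMap_eq_C, ← IsScalarTower.algebraMap_apply]

theorem gd_fP_ne {i w : ℕ} (hw : 0 < w) : fP K i w ≠ 0 := by
  unfold fP
  exact mul_ne_zero (pow_ne_zero _ X_ne_zero) (monic_X_pow_sub_C 1 hw.ne').ne_zero

/-- the expansion of `y` in negative powers of `Z` -/
theorem gd_expand {e i w : ℕ} {Z : F} (h : Cv K F e i w Z) {y : F} {N : ℕ} {c : Fin e → K[X]}
    (hy : aeval (xx K F) (fP K i w) ^ N * y = ∑ j, aeval (xx K F) (c j) * Z ^ (j : ℕ)) :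
    ∃ (cb : Fin e → RatFunc K) (g : Fin e → K[X]),
      (∀ b, algebraMap K[X] (RatFunc K) (fP K i w ^ N) * cb b =
        algebraMap K[X] (RatFunc K) (g b)) ∧
      y = ∑ b, algebraMap (RatFunc K) F (cb b) * Z ^ (-((b : ℕ) : ℤ)) := by
  have : NeZero e := ⟨by have := h.he; omega⟩
  have hf : fP K i w ≠ 0 := gd_fP_ne h.hw
  have hfE : algebraMap K[X] (RatFunc K) (fP K i w) ≠ 0 := by
    intro h0
    exact hf (by simpa using h0)
  have hfN : algebraMap K[X] (RatFunc K) (fP K i w ^ N) ≠ 0 := by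
    rw [map_pow]; exact pow_ne_zero _ hfE
  have hfF : algebraMap (RatFunc K) F (algebraMap K[X] (RatFunc K) (fP K i w)) ≠ 0 := by
    intro h0
    exact hfE ((map_eq_zero _).1 h0)
  have hZ : Z ≠ 0 := by
    intro h0
    have := h.eq
    rw [h0, zero_pow (by have := h.he; omega)] at this
    exact hfF this.symm
  refine ⟨fun b => algebraMap K[X] (RatFunc K) (c (-b) * if b = 0 then 1 else fP K i w) /
    algebraMap K[X] (RatFunc K) (fP K i w ^ N),
    fun b => c (-b) * if b = 0 then 1 else fP K i w, fun b => ?_, ?_⟩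
  · field_simp
  · have h1 : y = ∑ j, aeval (xx K F) (c j) / aeval (xx K F) (fP K i w) ^ N * Z ^ (j : ℕ) := by
      have h2 : aeval (xx K F) (fP K i w) ^ N ≠ 0 := by
        rw [gd_aeval]; exact pow_ne_zero _ hfF
      have h3 : y = (aeval (xx K F) (fP K i w) ^ N * y) / aeval (xx K F) (fP K i w) ^ N := by
        field_simp
      rw [h3, hy, Finset.sum_div]
      exact Finset.sum_congr rfl fun j _ => by ring
    rw [h1, ← Equiv.sum_comp (Equiv.neg (Fin e))]
    refine Finset.sum_congr rfl fun b _ => ?_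
    simp only [Equiv.neg_apply]
    have h4 : aeval (xx K F) (c (-b)) / aeval (xx K F) (fP K i w) ^ N =
        algebraMap (RatFunc K) F (algebraMap K[X] (RatFunc K) (c (-b)) /
          algebraMap K[X] (RatFunc K) (fP K i w ^ N)) := by
      rw [gd_aeval, gd_aeval, map_div₀, map_pow, map_pow]
    rw [h4]
    by_cases hb : b = 0
    · subst hb
      simp
    · have hb0 : (b : ℕ) ≠ 0 := fun h0 => hb (Fin.ext (by simpa using h0))
      have hbe : (b : ℕ) < e := b.2
      have h5 : ((-b : Fin e) : ℕ) = e - b := by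
        rw [Fin.val_neg']
        exact Nat.mod_eq_of_lt (by omega)
      have h6 : Z ^ ((-b : Fin e) : ℕ) = Z ^ e * Z ^ (-((b : ℕ) : ℤ)) := by
        rw [h5, ← zpow_natCast Z e, ← zpow_add₀ hZ, ← zpow_natCast Z (e - b)]
        congr 1
        omega
      rw [h6, h.eq, if_neg hb, map_mul, ← mul_assoc]
      congr 1
      rw [← map_mul]
      congr 1
      ring

theorem first_down {e i w : ℕ} {Z : F} (h : Cv K F e i w Z) {ω : Ω[F⁄K]}
    (hω : ω ∈ firstKind K F) : ω ∈ Submodule.span K ((fun z : ℕ × ℕ =>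
      (xx K F ^ z.1 * Z ^ (-(z.2 : ℤ))) • KaehlerDifferential.D K F (xx K F)) ''
        (Ix e i w : Set (ℕ × ℕ))) := by
  obtain ⟨y, rfl⟩ := cv_span h ω
  obtain ⟨N, c, hc⟩ := first_int h hω
  obtain ⟨cb, g, hg, hy⟩ := gd_expand h hc
  have he := h.he
  have hw := h.hw
  have hi := h.hi
  -- the place at infinity
  have hinf : ∀ b, cb b = 0 ∨ ∃ n : ℤ, Ord K (RatFunc.X)⁻¹ (cb b) n ∧
      0 ≤ (e : ℤ) * (n - 2) + (i + w) * (b : ℕ) + e - 1 := by
    obtain ⟨T, u, α, hr, -⟩ := ram_inf h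
    obtain ⟨V, hV, hv⟩ := ram_exists hr
    have hv' : V.valuation (xx K F)⁻¹ < 1 := by
      rw [map_inv₀ (algebraMap (RatFunc K) F)] at hv
      exact hv
    have := hω V hV
    rw [hy] at this
    exact (crit_inf h hV hv' cb).1 this
  have hzero : ∀ b, cb b = 0 ∨ ∃ n : ℤ, Ord K RatFunc.X (cb b) n ∧
        0 ≤ (e : ℤ) * n - i * (b : ℕ) + e - 1 := by
    obtain ⟨T, u, α, hr, -⟩ := ram_zero h
    obtain ⟨V, hV, hv⟩ := ram_exists hr
    have := hω V hV
    rw [hy] at this
    exact (crit_zero h hV hv cb).1 this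
  have hroot : ∀ r : K, r ^ w = 1 → ∀ b, cb b = 0 ∨ ∃ n : ℤ,
      Ord K (RatFunc.X - RatFunc.C r) (cb b) n ∧ 0 ≤ (e : ℤ) * n - (b : ℕ) + e - 1 := by
    intro r hr1
    obtain ⟨u, hr⟩ := ram_root h hr1
    obtain ⟨V, hV, hv⟩ := ram_exists hr
    have hv' : V.valuation (xx K F - algebraMap K F r) < 1 := by
      rw [map_sub (algebraMap (RatFunc K) F), gd_C] at hv
      exact hv
    have := hω V hV
    rw [hy] at this
    exact (crit_root h hr1 hV hv' cb).1 this
  have key : ∀ (n : ℤ) (m : ℤ), 0 ≤ m → 0 ≤ (e : ℤ) * n - m + e - 1 → 0 ≤ n := by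
    intro n m hm hn
    by_contra hcon
    have h1 : n ≤ -1 := by omega
    have h2 : (e : ℤ) * n ≤ (e : ℤ) * (-1) := mul_le_mul_of_nonneg_left h1 (by positivity)
    omega
  have hpoly : ∀ b, ∃ G : K[X], cb b = algebraMap K[X] (RatFunc K) G := by
    intro b
    refine poly_of_ord hw hi h.wk h.root (hg b) ?_ ?_
    · rcases hzero b with h0 | ⟨n, hn, hn'⟩
      · exact Or.inl h0
      · exact Or.inr ⟨n, key n _ (by positivity) hn', hn⟩
    · intro r hr1
      rcases hroot r hr1 b with h0 | ⟨n, hn, hn'⟩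
      · exact Or.inl h0
      · exact Or.inr ⟨n, key n _ (by positivity) hn', hn⟩
  choose G hG using hpoly
  rw [hy, Finset.sum_smul]
  refine Submodule.sum_mem _ fun b _ => ?_
  rw [hG b, ← gd_aeval, aeval_eq_sum_range, Finset.sum_mul, Finset.sum_smul]
  refine Submodule.sum_mem _ fun a _ => ?_
  by_cases hco : (G b).coeff a = 0
  · rw [hco, zero_smul, zero_mul, zero_smul]
    exact Submodule.zero_mem _
  have hGb : G b ≠ 0 := fun h0 => hco (by rw [h0, coeff_zero])
  have hcb : cb b ≠ 0 := by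
    rw [hG b]
    intro h0
    exact hGb (by simpa using h0)
  have hmem : (a, (b : ℕ)) ∈ Ix e i w := by
    obtain ⟨n, hn, hn'⟩ := (hzero b).resolve_left hcb
    obtain ⟨m, hm, hm'⟩ := (hinf b).resolve_left hcb
    rw [hG b] at hn hm
    have hn2 := ord_X_zero hGb hn
    have hm2 := ord_X_inf hGb hm
    have h3 : (G b).natTrailingDegree ≤ a := natTrailingDegree_le_of_ne_zero hco
    have h4 : a ≤ (G b).natDegree := le_natDegree_of_ne_zero hco
    have h5 : (e : ℤ) * n ≤ (e : ℤ) * a := by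
      refine mul_le_mul_of_nonneg_left ?_ (by positivity)
      rw [hn2]; exact_mod_cast h3
    have h6 : (e : ℤ) * (m - 2) ≤ (e : ℤ) * (-a - 2) := by
      refine mul_le_mul_of_nonneg_left ?_ (by positivity)
      rw [hm2]
      have : (a : ℤ) ≤ ((G b).natDegree : ℤ) := by exact_mod_cast h4
      omega
    have h7 : i * (b : ℕ) ≤ e * a + e - 1 := by
      zify [show 1 ≤ e * a + e by omega]
      linarith
    have h8 : e * a + e + 1 ≤ (b : ℕ) * (i + w) := by
      zify
      nlinarith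
    have hb1 : 1 ≤ (b : ℕ) := by
      by_contra hcon
      have : (b : ℕ) = 0 := by omega
      rw [this] at h8
      omega
    have h9 : (b : ℕ) * (i + w) ≤ e * (i + w) := Nat.mul_le_mul_right _ b.2.le
    have h10 : a ≤ e * a := Nat.le_mul_of_pos_left _ (by omega)
    unfold Ix
    rw [Finset.mem_filter, Finset.mem_product, Finset.mem_range, Finset.mem_Ico]
    exact ⟨⟨by simp only; omega, hb1, b.2⟩, h7, h8⟩
  have h11 : ((G b).coeff a • xx K F ^ a * Z ^ (-((b : ℕ) : ℤ))) •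
      KaehlerDifferential.D K F (xx K F) = (G b).coeff a •
        ((xx K F ^ a * Z ^ (-((b : ℕ) : ℤ))) • KaehlerDifferential.D K F (xx K F)) := by
    rw [smul_mul_assoc, smul_assoc]
  rw [h11]
  exact Submodule.smul_mem _ _ (Submodule.subset_span ⟨(a, (b : ℕ)), hmem, rfl⟩)

end Pool.SG
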