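import Pool.Agent.Lib.MP_a51fee_ag.SG.GD

/-!
# SG-GIx: the number of exponents

PROOF.  For `1 ≤ b < e` the `a` with `i b ≤ e a + e - 1` and `e a + e + 1 ≤ b (i + w)` are
`⌊i b / e⌋ ≤ a ≤ ⌊b (i + w) / e⌋ - 1` (note `e ∤ b (i+w)` as `i + w` is prime to `e`; `a < e (i+w) + 1` is
automatic), so there are `⌊b (i+w)/e⌋ - ⌊b i/e⌋` of them (`≥ 0`).
`∑_{b=1}^{e-1} ⌊b c / e⌋ = (c - 1)(e - 1)/2` for `c` prime to `e`, `c ≥ 1`: pair `b` and `e - b`:
`⌊b c/e⌋ + ⌊(e - b) c/e⌋ = c - 1`.
So twice the number is `(i + w - 1)(e - 1) - (i - 1)(e - 1) = w (e - 1)`.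
-/

set_option autoImplicit false

namespace Pool.SG

theorem GIx_not_dvd {e c b : ℕ} (hc : Nat.Coprime c e) (hb : 1 ≤ b) (hbe : b < e) :
    ¬ e ∣ b * c := by
  intro h
  have h1 : e ∣ b := (Nat.Coprime.symm hc).dvd_of_dvd_mul_right h
  exact absurd (Nat.le_of_dvd hb h1) (by omega)

theorem GIx_pair {e c b : ℕ} (hc : Nat.Coprime c e) (hc1 : 0 < c) (hb : 1 ≤ b) (hbe : b < e) :
    b * c / e + (e - b) * c / e = c - 1 := by
  have he : 0 < e := by omega
  have h1 : b * c % e ≠ 0 := fun h => GIx_not_dvd hc hb hbe (Nat.dvd_of_mod_eq_zero h)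
  have h2 : (e - b) * c % e ≠ 0 := fun h =>
    GIx_not_dvd hc (by omega : 1 ≤ e - b) (by omega) (Nat.dvd_of_mod_eq_zero h)
  have h3 := Nat.div_add_mod (b * c) e
  have h4 := Nat.div_add_mod ((e - b) * c) e
  have h5 : b * c + (e - b) * c = e * c := by
    rw [← Nat.add_mul]; congr 1; omega
  have h6 := Nat.mod_lt (b * c) he
  have h7 := Nat.mod_lt ((e - b) * c) he
  set x := b * c / e
  set y := (e - b) * c / e
  set r := b * c % e
  set s := (e - b) * c % e
  have h8 : e * (x + y) + (r + s) = e * c := by rw [← h5, ← h3, ← h4]; ring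
  have h9 : 0 < r + s := by omega
  have h10 : r + s < 2 * e := by omega
  have h11 : x + y < c := by
    by_contra hcon
    have := Nat.mul_le_mul_left e (not_lt.mp hcon)
    omega
  have h12 : c < x + y + 2 := by
    by_contra hcon
    have := Nat.mul_le_mul_left e (not_lt.mp hcon)
    have h13 : e * (x + y + 2) = e * (x + y) + 2 * e := by ring
    omega
  omega

theorem GIx_sum {e c : ℕ} (hc : Nat.Coprime c e) (hc1 : 0 < c) :
    2 * ∑ b ∈ Finset.Ico 1 e, b * c / e = (c - 1) * (e - 1) := by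
  have h1 : ∑ b ∈ Finset.Ico 1 e, b * c / e = ∑ b ∈ Finset.Ico 1 e, (e - b) * c / e := by
    refine Finset.sum_nbij' (fun b => e - b) (fun b => e - b) ?_ ?_ ?_ ?_ ?_
    · intro b hb; rw [Finset.mem_Ico] at hb ⊢; omega
    · intro b hb; rw [Finset.mem_Ico] at hb ⊢; omega
    · intro b hb; rw [Finset.mem_Ico] at hb; show e - (e - b) = b; omega
    · intro b hb; rw [Finset.mem_Ico] at hb; show e - (e - b) = b; omega
    · intro b hb
      rw [Finset.mem_Ico] at hb
      show b * c / e = (e - (e - b)) * c / e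
      rw [show e - (e - b) = b by omega]
  have h2 : 2 * ∑ b ∈ Finset.Ico 1 e, b * c / e
      = ∑ b ∈ Finset.Ico 1 e, (b * c / e + (e - b) * c / e) := by
    rw [Finset.sum_add_distrib, ← h1]; ring
  rw [h2, Finset.sum_congr rfl (g := fun _ => c - 1)]
  · rw [Finset.sum_const, Nat.card_Ico, smul_eq_mul, mul_comm]
  · intro b hb
    rw [Finset.mem_Ico] at hb
    exact GIx_pair hc hc1 hb.1 hb.2

theorem card_Ix {e i w : ℕ} (he : 1 < e) (hw : 0 < w) (hi : 0 < i) (ci : Nat.Coprime i e)
    (cw : Nat.Coprime (i + w) e) : 2 * (Ix e i w).card = w * (e - 1) := by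
  have he0 : 0 < e := by omega
  have hset : Ix e i w = (Finset.Ico 1 e).biUnion
      (fun b => (Finset.Ico (b * i / e) (b * (i + w) / e)).image (fun a => (a, b))) := by
    ext ⟨a, b⟩
    simp only [Ix, Finset.mem_filter, Finset.mem_product, Finset.mem_range, Finset.mem_Ico,
      Finset.mem_biUnion, Finset.mem_image, Prod.mk.injEq]
    constructor
    · rintro ⟨⟨h1, h2, h3⟩, h4, h5⟩
      refine ⟨b, ⟨h2, h3⟩, a, ⟨?_, ?_⟩, rfl, rfl⟩
      · have h6 : b * i < (a + 1) * e := by
          have : (a + 1) * e = e * a + e := by ring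
          have h7 : b * i = i * b := by ring
          omega
        have := (Nat.div_lt_iff_lt_mul he0).2 h6
        omega
      · have h6 : (a + 1) * e ≤ b * (i + w) := by
          have : (a + 1) * e = e * a + e := by ring
          omega
        have := (Nat.le_div_iff_mul_le he0).2 h6
        omega
    · rintro ⟨b', ⟨h1, h2⟩, a', ⟨h3, h4⟩, h5, h6⟩
      subst h5; subst h6
      have h7 : b' * i < (a' + 1) * e := (Nat.div_lt_iff_lt_mul he0).1 (by omega)
      have h8 : (a' + 1) * e ≤ b' * (i + w) := (Nat.le_div_iff_mul_le he0).1 (by omega)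
      have h9 : (a' + 1) * e ≠ b' * (i + w) := by
        intro h
        exact GIx_not_dvd cw h1 h2 ⟨a' + 1, by rw [← h]; ring⟩
      have h10 : (a' + 1) * e = e * a' + e := by ring
      have h11 : b' * i = i * b' := by ring
      refine ⟨⟨?_, h1, h2⟩, by omega, by omega⟩
      have h12 : b' * (i + w) ≤ e * (i + w) := Nat.mul_le_mul_right _ (by omega)
      have h13 : a' ≤ e * a' := Nat.le_mul_of_pos_left _ he0
      omega
  have hcard : (Ix e i w).card
      = ∑ b ∈ Finset.Ico 1 e, (b * (i + w) / e - b * i / e) := by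
    rw [hset, Finset.card_biUnion]
    · refine Finset.sum_congr rfl fun b _ => ?_
      rw [Finset.card_image_of_injective _ (fun x y h => (Prod.mk.inj h).1), Nat.card_Ico]
    · intro b _ b' _ hbb
      rw [Function.onFun, Finset.disjoint_left]
      intro x hx hx'
      rw [Finset.mem_image] at hx hx'
      obtain ⟨a, _, h1⟩ := hx
      obtain ⟨a', _, h2⟩ := hx'
      apply hbb
      have := congrArg Prod.snd (h1.trans h2.symm)
      exact this
  have hle : ∀ b ∈ Finset.Ico 1 e, b * i / e ≤ b * (i + w) / e := fun b _ =>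
    Nat.div_le_div_right (Nat.mul_le_mul_left _ (by omega))
  have hsum : ∑ b ∈ Finset.Ico 1 e, (b * (i + w) / e - b * i / e)
      + ∑ b ∈ Finset.Ico 1 e, b * i / e = ∑ b ∈ Finset.Ico 1 e, b * (i + w) / e := by
    rw [← Finset.sum_add_distrib]
    exact Finset.sum_congr rfl fun b hb => Nat.sub_add_cancel (hle b hb)
  have hA := GIx_sum ci hi
  have hB := GIx_sum cw (by omega)
  rw [hcard]
  have hC : (i + w - 1) * (e - 1) = w * (e - 1) + (i - 1) * (e - 1) := by
    rw [← Nat.add_mul]; congr 1; omega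
  omega

end Pool.SG
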