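import Pool.Agent.Lib.MP_a51fee_ag.SG.GUp
import Pool.Agent.Lib.MP_a51fee_ag.SG.GDown
import Pool.Agent.Lib.MP_a51fee_ag.SG.GIx

/-!
# SG-GGen: the genus

PROOF.  The family `ω_z = (x^{z.1} Z^{-z.2}) • D x`, `z ∈ Ix e i w`, spans `firstKind K F`
(`first_up`, `first_down`) and is linearly independent over `K`: a relation
`∑ k_z x^{z.1} Z^{-z.2} = 0` (`D x ≠ 0`) gives `∑_b (∑_a k_{a,b} x^a) Z^{-b} = 0`; multiply by
`Z^e`, exponents `e - b ∈ [1, e-1]`: `lin` gives `∑_a k_{a,b} X^a = 0` in `RatFunc K`, so all `k = 0`.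
So the rank is `(Ix e i w).card = g` (`card_Ix`): e.g. `rank_span_set`,
`Cardinal.mk_coe_finset`, injectivity of `z ↦ ω_z` on `Ix`.
-/

set_option autoImplicit false

namespace Pool.SG

variable {K F : Type} [Field K] [Field F] [Algebra K F] [Algebra (RatFunc K) F]
  [IsScalarTower K (RatFunc K) F]

omit [Algebra K F] [IsScalarTower K (RatFunc K) F] in
private theorem gGen_Z {e i w : ℕ} {Z : F} (h : Cv K F e i w Z) : Z ≠ 0 := by
  have h1 := h.lin.ne_zero (⟨1, h.he⟩ : Fin e)
  simpa using h1

private theorem gGen_indep {e i w : ℕ} {Z : F} (h : Cv K F e i w Z) :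
    LinearIndependent K (fun z : Ix e i w =>
      (xx K F ^ z.1.1 * Z ^ (-(z.1.2 : ℤ))) • KaehlerDifferential.D K F (xx K F)) := by
  classical
  rw [Fintype.linearIndependent_iff]
  intro k hk z0
  have hZ := gGen_Z h
  have hb : ∀ z : Ix e i w, z.1.2 < e := by
    intro z
    have := z.2
    simp only [Ix, Finset.mem_filter, Finset.mem_product, Finset.mem_Ico] at this
    exact this.1.2.2
  have hb1 : ∀ z : Ix e i w, 1 ≤ z.1.2 := by
    intro z
    have := z.2
    simp only [Ix, Finset.mem_filter, Finset.mem_product, Finset.mem_Ico] at this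
    exact this.1.2.1
  have h1 : (∑ z : Ix e i w, k z • (xx K F ^ z.1.1 * Z ^ (-(z.1.2 : ℤ)))) •
      KaehlerDifferential.D K F (xx K F) = 0 := by
    rw [Finset.sum_smul, ← hk]
    exact Finset.sum_congr rfl fun z _ => smul_assoc _ _ _
  have h2 : (∑ z : Ix e i w, k z • (xx K F ^ z.1.1 * Z ^ (-(z.1.2 : ℤ)))) = 0 :=
    (smul_eq_zero.1 h1).resolve_right (cv_Dx_ne h)
  have h3 : (∑ z : Ix e i w, algebraMap K F (k z) * xx K F ^ z.1.1 * Z ^ (e - z.1.2)) = 0 := by
    have h4 := congrArg (fun y => y * Z ^ e) h2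
    simp only [zero_mul, Finset.sum_mul] at h4
    rw [← h4]
    refine Finset.sum_congr rfl fun z _ => ?_
    have h5 : Z ^ (-(z.1.2 : ℤ)) * Z ^ e = Z ^ (e - z.1.2) := by
      rw [← zpow_natCast Z e, ← zpow_natCast Z (e - z.1.2), ← zpow_add₀ hZ,
        Nat.cast_sub (hb z).le]
      congr 1
      ring
    rw [Algebra.smul_def, ← h5]
    ring
  set c : Fin e → Polynomial K := fun j =>
    ∑ z ∈ (Finset.univ : Finset (Ix e i w)).filter (fun z => e - z.1.2 = (j : ℕ)),
      Polynomial.monomial z.1.1 (k z) with hc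
  have h4 : (∑ j : Fin e, algebraMap (RatFunc K) F (algebraMap (Polynomial K) (RatFunc K) (c j)) *
      Z ^ (j : ℕ)) = 0 := by
    rw [← h3]
    have h5 : ∀ j : Fin e, algebraMap (RatFunc K) F (algebraMap (Polynomial K) (RatFunc K) (c j)) *
        Z ^ (j : ℕ) = ∑ z ∈ (Finset.univ : Finset (Ix e i w)).filter
          (fun z => e - z.1.2 = (j : ℕ)), algebraMap K F (k z) * xx K F ^ z.1.1 *
            Z ^ (e - z.1.2) := by
      intro j
      rw [hc, map_sum, map_sum, Finset.sum_mul]
      refine Finset.sum_congr rfl fun z hz => ?_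
      rw [(Finset.mem_filter.1 hz).2, ← Polynomial.C_mul_X_pow_eq_monomial, map_mul, map_pow,
        map_mul, map_pow, RatFunc.algebraMap_X, RatFunc.algebraMap_C, ← RatFunc.algebraMap_eq_C,
        ← IsScalarTower.algebraMap_apply K (RatFunc K) F]
      rfl
    rw [Finset.sum_congr rfl fun j _ => h5 j]
    rw [← Finset.sum_fiberwise_of_maps_to (s := (Finset.univ : Finset (Ix e i w)))
      (t := (Finset.univ : Finset (Fin e))) (g := fun z => (⟨e - z.1.2, by
        have := hb1 z
        have := h.he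
        omega⟩ : Fin e)) (fun _ _ => Finset.mem_univ _)
      (fun z => algebraMap K F (k z) * xx K F ^ z.1.1 * Z ^ (e - z.1.2))]
    refine Finset.sum_congr rfl fun j _ => ?_
    refine Finset.sum_congr ?_ fun _ _ => rfl
    ext z
    simp [Fin.ext_iff]
  have h5 := (Fintype.linearIndependent_iff.1 h.lin)
    (fun j => algebraMap (Polynomial K) (RatFunc K) (c j)) (by
      rw [← h4]
      exact Finset.sum_congr rfl fun j _ => Algebra.smul_def _ _)
  have hj : e - z0.1.2 < e := by
    have := hb1 z0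
    have := h.he
    omega
  have h6 : c ⟨e - z0.1.2, hj⟩ = 0 := by
    have h7 := h5 ⟨e - z0.1.2, hj⟩
    exact (map_eq_zero_iff _ (IsFractionRing.injective (Polynomial K) (RatFunc K))).1 h7
  have h8 := congrArg (fun q => Polynomial.coeff q z0.1.1) h6
  simp only [hc, Polynomial.finsetSum_coeff, Polynomial.coeff_monomial,
    Polynomial.coeff_zero] at h8
  rw [Finset.sum_eq_single z0] at h8
  · simpa using h8
  · intro z hz hne
    rw [if_neg]
    intro h9
    apply hne
    have h10 : e - z.1.2 = e - z0.1.2 := (Finset.mem_filter.1 hz).2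
    have h11 := hb z
    have h12 := hb z0
    exact Subtype.ext (Prod.ext h9 (by omega))
  · intro h9
    refine absurd ?_ h9
    rw [Finset.mem_filter]
    exact ⟨Finset.mem_univ _, rfl⟩

theorem genus_cv {e i w : ℕ} {Z : F} (h : Cv K F e i w Z) {g : ℕ} (hg : 2 * g = w * (e - 1)) :
    genus K F = (g : Cardinal) := by
  have hli := gGen_indep h
  have hspan : firstKind K F = Submodule.span K (Set.range (fun z : Ix e i w =>
      (xx K F ^ z.1.1 * Z ^ (-(z.1.2 : ℤ))) • KaehlerDifferential.D K F (xx K F))) := by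
    apply le_antisymm
    · intro ω hω
      have h1 := first_down h hω
      refine Submodule.span_mono ?_ h1
      rintro _ ⟨z, hz, rfl⟩
      exact ⟨⟨z, hz⟩, rfl⟩
    · rw [Submodule.span_le]
      rintro _ ⟨z, rfl⟩
      exact first_up h z.2
  unfold genus
  rw [hspan, rank_span hli, Cardinal.mk_range_eq _ hli.injective, Cardinal.mk_coe_finset]
  have h1 := card_Ix h.he h.hw h.hi h.ci h.cw
  have h2 : (Ix e i w).card = g := by omega
  rw [h2]

end Pool.SG
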