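import Pool.Agent.Lib.MP_a51fee_ag.SG.GArith
import Pool.Agent.Lib.MP_a51fee_ag.SG.GField
import Pool.Agent.Lib.MP_a51fee_ag.SG.GCount
import Pool.Agent.Lib.MP_a51fee_ag.SG.GGen
import Pool.Agent.Lib.MP_a51fee_ag.SG.GCur
import Pool.Agent.Lib.MP_a51fee_ag.SG.CsF

/-!
# SG-GMain: the supersingular curves

PROOF.  `good_arith` gives `n, k, m, i`.  `K := GaloisField p (2 n k)`, `|K| = p^(2nk)`; `e, w ≠ 0` in `K`;
`K` contains a primitive `w`-th root of unity (`w ∣ p^k - 1 ∣ p^(2nk) - 1`, `K^*` cyclic).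
`exists_cv` gives `F, Z`.  `isCurve_cv`, `genus_cv`.  `s := (-1)^k p^(nk)`, `s^2 = |K|`.
For `L / K` finite, `d = finrank K L`, `|L| = p^(2 n k d)`, `j := k d`: `card_pt`, `card_aff`:
`#Pt = 1 + |L| + w (e-1) (-1)^(j+1) p^(nj) = |L| + 1 - 2 g s^d` as
`- s^d = - (-1)^(kd) p^(nkd) = (-1)^(j+1) p^(nj)`.
-/

set_option autoImplicit false

namespace Pool.SG

private theorem gmain_root {K : Type} [Field K] [Finite K] (w : ℕ)
    (hd : w ∣ Nat.card K - 1) : ∃ ζ : K, IsPrimitiveRoot ζ w := by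
  classical
  let _ : Fintype K := Fintype.ofFinite K
  obtain ⟨g, hg⟩ := IsCyclic.exists_generator (α := Kˣ)
  have h1 : orderOf g = Nat.card K - 1 := by
    rw [orderOf_eq_card_of_forall_mem_zpowers hg, Nat.card_eq_fintype_card, Fintype.card_units,
      Nat.card_eq_fintype_card]
  obtain ⟨c, hc⟩ := hd
  have hpos : 0 < Nat.card K - 1 := by
    rw [← h1]
    exact orderOf_pos g
  have h2 : IsPrimitiveRoot g (Nat.card K - 1) := by
    rw [← h1]
    exact IsPrimitiveRoot.orderOf g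
  have h3 : IsPrimitiveRoot (g ^ c) w := h2.pow hpos (by rw [hc, mul_comm])
  exact ⟨((g ^ c : Kˣ) : K), IsPrimitiveRoot.coe_units_iff.2 h3⟩

theorem supersingular_of_good {p e w g : ℕ} (hp : p.Prime) (hp2 : p ≠ 2) (h : Good p e w)
    (hg : 2 * g = w * (e - 1)) : SupersingularGenus p g := by
  obtain ⟨n, k, m, i, hn, hk, hi, hodd, hen, hm, hek, him, hie, hiw, hep⟩ := good_arith hp hp2 h
  have hpf : Fact p.Prime := ⟨hp⟩
  have he1 := h.one_lt
  have hw := h.pos
  have hnk : 2 * n * k ≠ 0 := by positivity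
  let K : Type := GaloisField p (2 * n * k)
  have hKcard : Nat.card K = p ^ (2 * n * k) := GaloisField.card p (2 * n * k) hnk
  have hKfin : Finite K := Nat.finite_of_card_ne_zero (by
    rw [hKcard]
    exact pow_ne_zero _ hp.ne_zero)
  have hchar : CharP K p := inferInstance
  have hcop : ∀ a : ℕ, Nat.Coprime a p → (a : K) ≠ 0 := by
    intro a ha h0
    rw [CharP.cast_eq_zero_iff K p] at h0
    have h1 : p ∣ 1 := by
      rw [← ha]
      exact Nat.dvd_gcd h0 dvd_rfl
    exact hp.one_lt.ne' (Nat.dvd_one.1 h1)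
  have hroot : ∃ ζ : K, IsPrimitiveRoot ζ w := by
    apply gmain_root
    rw [hKcard]
    have h1 : p ^ (2 * n * k) = (p ^ k) ^ (2 * n) := by
      rw [← pow_mul]
      ring_nf
    have h2 := Nat.sub_dvd_pow_sub_pow (p ^ k) 1 (2 * n)
    rw [one_pow, ← h1] at h2
    exact (Dvd.intro _ hm.symm).trans h2
  obtain ⟨F, _, _, _, _, Z, hZ⟩ := exists_cv K e i w he1 hodd hw hi hie hiw (hcop e hep)
    (hcop w h.copp) hroot
  refine ⟨K, F, inferInstance, inferInstance, inferInstance, (-1) ^ k * (p : ℤ) ^ (n * k), hKfin,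
    hchar, isCurve_cv hZ, genus_cv hZ hg, ?_, ?_⟩
  · rw [hKcard, mul_pow, ← pow_mul, mul_comm k 2, pow_mul, neg_one_sq, one_pow, one_mul, ← pow_mul]
    push_cast
    ring_nf
  · intro L _ _ _
    have hLchar : CharP L p := charP_of_injective_algebraMap (algebraMap K L).injective p
    set d : ℕ := Module.finrank K L with hd
    have hdpos : 0 < d := Module.finrank_pos
    have hLcard : Nat.card L = p ^ (2 * n * (k * d)) := by
      rw [Module.natCard_eq_pow_finrank (K := K) (V := L), hKcard, ← pow_mul, ← hd]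
      ring_nf
    have h1 := card_aff p hp2 n k (k * d) e i w m hn hk (by positivity) (Dvd.intro _ rfl) he1 hodd
      hen hek hi hw hm him L hLcard
    rw [card_pt hZ L]
    push_cast
    rw [h1, hLcard]
    have h2 : (2 : ℤ) * g = w * ((e : ℤ) - 1) := by
      have h3 : ((2 * g : ℕ) : ℤ) = ((w * (e - 1) : ℕ) : ℤ) := by rw [hg]
      rw [Nat.cast_mul, Nat.cast_mul, Nat.cast_sub he1.le] at h3
      exact_mod_cast h3
    rw [h2, mul_pow, ← pow_mul, ← pow_mul]
    push_cast
    ring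

end Pool.SG
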