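import Pool.Agent.Lib.MP_a51fee_ag.SG.ND

/-!
# SG-HDex: the moduli `D`

PROOF of `HD_Da` (`ρ = 1 + D τ`).  For an odd positive `ρ` prime to `p`: `(-p/ρ) = (-1/ρ)(p/ρ)`; by quadratic reciprocity
(`jacobiSym.quadratic_reciprocity'`, `jacobiSym.at_neg_one`; or `jacobiSym.mod_right`: period `4 p`) `(-p/ρ) = (ρ/p)` if `p ≡ 3 mod 4`,
and `(-p/ρ) = (-1)^((ρ-1)/2) (ρ/p)` if `p ≡ 1 mod 4`.
* `p ≡ 3 mod 4`, `a ≥ 1`, `D = 2 p^a`: `τ = 1`, `ρ = 1 + 2 p^a ≡ 1 mod p`: `(ρ/p) = 1`.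
* `p ≡ 3 mod 4`, `p ≥ 7`, `a = 0`, `D = 2`: `ρ ≡ 4 mod p`, `ρ ≡ 3 mod 4` (CRT), `τ = (ρ - 1)/2` is odd and `2 τ ≡ 3 mod p`, so prime
 to `p` (`p ≠ 3`); `(ρ/p) = (4/p) = 1`.
* `p ≡ 1 mod 4`, `a = 0`, `D = 2`: `ρ ≡ n mod p` a nonresidue, `ρ ≡ 3 mod 4`: `τ = (ρ-1)/2` is odd, prime to `p` (`n ≢ 1`);
 `(-p/ρ) = -(ρ/p) = 1`.
* `p ≡ 1 mod 4`, `a ≥ 1`, `D = 4 p^a`: `τ = 1`, `ρ = 1 + 4 p^a ≡ 1 mod 4` and `≡ 1 mod p`: `(-p/ρ) = (ρ/p) = 1`.
PROOF of `GG_Da`.  `g = p^a g'`, `p ∤ g'`.  `p ≡ 3 mod 4`: `2 g = D g'`.  For `p = 3`: `3 ∣ g`, so `a ≥ 1`.  `p ≡ 1 mod 4`: `a = 0`: `2 g = 2 g'`.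
`a ≥ 1`: `g` is even, so `g'` is even and `2 g = 4 p^a (g'/2)`.
-/

set_option autoImplicit false

namespace Pool.SG

/-- the genera which are covered -/
def GG (p g : ℕ) : Prop :=
  (p % 4 = 3 ∧ 7 ≤ p) ∨ (p = 3 ∧ 3 ∣ g) ∨ (p % 4 = 1 ∧ (¬ p ∣ g ∨ 2 ∣ g))

def Da (p a : ℕ) : ℕ := if p % 4 = 1 ∧ 1 ≤ a then 4 * p ^ a else 2 * p ^ a

/-- `(-p/ρ)` for `ρ ≡ 1 mod 4` -/
private theorem hdex_one {p ρ : ℕ} (hp : Odd p) (hρ : ρ % 4 = 1) :
    jacobiSym (-(p : ℤ)) ρ = jacobiSym (ρ : ℤ) p := by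
  have hodd : Odd ρ := Nat.odd_iff.2 (by omega)
  rw [jacobiSym.neg _ hodd, ZMod.χ₄_nat_one_mod_four hρ, one_mul,
    jacobiSym.quadratic_reciprocity_one_mod_four' hp hρ]

/-- `(-p/ρ)` for `ρ ≡ 3 mod 4`, `p ≡ 3 mod 4` -/
private theorem hdex_three {p ρ : ℕ} (hp : p % 4 = 3) (hρ : ρ % 4 = 3) :
    jacobiSym (-(p : ℤ)) ρ = jacobiSym (ρ : ℤ) p := by
  have hodd : Odd ρ := Nat.odd_iff.2 (by omega)
  rw [jacobiSym.neg _ hodd, ZMod.χ₄_nat_three_mod_four hρ,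
    jacobiSym.quadratic_reciprocity_three_mod_four hp hρ]
  ring

/-- `(-p/ρ)` for `ρ ≡ 3 mod 4`, `p ≡ 1 mod 4` -/
private theorem hdex_three' {p ρ : ℕ} (hp : p % 4 = 1) (hρ : ρ % 4 = 3) :
    jacobiSym (-(p : ℤ)) ρ = -jacobiSym (ρ : ℤ) p := by
  have hodd : Odd ρ := Nat.odd_iff.2 (by omega)
  rw [jacobiSym.neg _ hodd, ZMod.χ₄_nat_three_mod_four hρ,
    jacobiSym.quadratic_reciprocity_one_mod_four hp hodd]
  ring

private theorem hdex_mod_one {p ρ : ℕ} (h : ρ ≡ 1 [MOD p]) : jacobiSym (ρ : ℤ) p = 1 := by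
  have h1 : ((ρ : ℤ)) % p = 1 % p := by
    have h2 : ρ % p = 1 % p := h
    exact_mod_cast h2
  rw [jacobiSym.mod_left' h1, jacobiSym.one_left]

/-- `1 + D τ` is prime to `2 p` -/
private theorem hdex_cop {p ρ : ℕ} (hp : p.Prime) (h2 : ρ % 2 = 1) (hρ : ¬ p ∣ ρ) :
    Nat.Coprime ρ (2 * p) := by
  refine Nat.Coprime.mul_right ?_ ?_
  · exact (Nat.coprime_comm.1 ((Nat.Prime.coprime_iff_not_dvd Nat.prime_two).2 (by omega)))
  · exact Nat.coprime_comm.1 ((Nat.Prime.coprime_iff_not_dvd hp).2 hρ)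

/-- `τ = 1` -/
private theorem hdex_tau_one {p D : ℕ} (hp : p.Prime) (hp2 : p ≠ 2) (hD2 : 2 ∣ D) (hDp : p ∣ D)
    (h4 : (1 + D) % 4 = 1 ∨ p % 4 = 3) :
    ∃ τ : ℕ, Nat.Coprime τ (2 * p) ∧ Nat.Coprime (1 + D * τ) (2 * p) ∧
      jacobiSym (-(p : ℤ)) (1 + D * τ) = 1 := by
  have hodd : Odd p := hp.odd_of_ne_two hp2
  have hmod : (1 + D) ≡ 1 [MOD p] := by
    obtain ⟨k, rfl⟩ := hDp
    unfold Nat.ModEq
    rw [Nat.add_mul_mod_self_left]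
  have hndvd : ¬ p ∣ 1 + D := by
    intro h
    have h1 : p ∣ 1 := by
      have := (Nat.dvd_sub h hDp)
      rwa [Nat.add_sub_cancel] at this
    exact hp.one_lt.ne' (Nat.dvd_one.1 h1)
  refine ⟨1, Nat.coprime_one_left _, ?_, ?_⟩
  · rw [mul_one]
    exact hdex_cop hp (by omega) hndvd
  · rw [mul_one]
    rcases h4 with h4 | h4
    · rw [hdex_one hodd h4, hdex_mod_one hmod]
    · have h5 : (1 + D) % 4 = 1 ∨ (1 + D) % 4 = 3 := by omega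
      rcases h5 with h5 | h5
      · rw [hdex_one hodd h5, hdex_mod_one hmod]
      · rw [hdex_three h4 h5, hdex_mod_one hmod]

/-- `D = 2`: from `ρ ≡ n mod p`, `ρ ≡ 3 mod 4` -/
private theorem hdex_two {p n : ℕ} (hp : p.Prime) (hp2 : p ≠ 2) (hn1 : ¬ n ≡ 1 [MOD p])
    (hn0 : ¬ p ∣ n)
    (hJ : ∀ ρ : ℕ, ρ % 4 = 3 → ρ ≡ n [MOD p] → jacobiSym (-(p : ℤ)) ρ = 1) :
    ∃ τ : ℕ, Nat.Coprime τ (2 * p) ∧ Nat.Coprime (1 + 2 * τ) (2 * p) ∧
      jacobiSym (-(p : ℤ)) (1 + 2 * τ) = 1 := by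
  have hcop : Nat.Coprime p 4 := by
    have : Nat.Coprime p (2 ^ 2) := Nat.Coprime.pow_right 2
      ((Nat.coprime_primes hp Nat.prime_two).2 hp2)
    exact this
  obtain ⟨ρ, hρp, hρ4⟩ := Nat.chineseRemainder hcop n 3
  have h4 : ρ % 4 = 3 := hρ4
  have hτ : 1 + 2 * ((ρ - 1) / 2) = ρ := by omega
  refine ⟨(ρ - 1) / 2, ?_, ?_, ?_⟩
  · refine hdex_cop hp (by omega) ?_
    intro h
    apply hn1
    have h1 : ρ ≡ 1 [MOD p] := by
      obtain ⟨k, hk⟩ := h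
      rw [← hτ, hk]
      unfold Nat.ModEq
      rw [show 1 + 2 * (p * k) = 1 + p * (2 * k) by ring, Nat.add_mul_mod_self_left]
    exact hρp.symm.trans h1
  · rw [hτ]
    refine hdex_cop hp (by omega) ?_
    intro h
    exact hn0 ((hρp.dvd_iff dvd_rfl).1 h)
  · rw [hτ]
    exact hJ ρ h4 hρp

private theorem hdex_modeq {p ρ n : ℕ} (h : ρ ≡ n [MOD p]) :
    jacobiSym (ρ : ℤ) p = jacobiSym (n : ℤ) p := by
  have h1 : ((ρ : ℤ)) % p = (n : ℤ) % p := by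
    have h2 : ρ % p = n % p := h
    exact_mod_cast h2
  rw [jacobiSym.mod_left' h1]

/-- a nonresidue -/
private theorem hdex_nonres {p : ℕ} (hp : p.Prime) (hp2 : p ≠ 2) :
    ∃ n : ℕ, jacobiSym (n : ℤ) p = -1 := by
  haveI : Fact p.Prime := ⟨hp⟩
  obtain ⟨a, ha⟩ := FiniteField.exists_nonsquare (F := ZMod p) (by rwa [ZMod.ringChar_zmod_n])
  refine ⟨a.val, ?_⟩
  rw [← jacobiSym.legendreSym.to_jacobiSym, legendreSym.eq_neg_one_iff]
  simpa using ha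

private theorem hdex_primes {p a c : ℕ} (hp : p.Prime) (hc : c = 2 ∨ c = 4) {q : ℕ}
    (hq : q.Prime) (h : q ∣ c * p ^ a) : q = 2 ∨ q = p := by
  rcases (Nat.Prime.dvd_mul hq).1 h with h | h
  · left
    have h2 : q ∣ 2 ^ 2 := by
      rcases hc with rfl | rfl
      · exact h.trans (by norm_num)
      · exact h
    exact (Nat.prime_dvd_prime_iff_eq hq Nat.prime_two).1 (hq.dvd_of_dvd_pow h2)
  · right
    exact (Nat.prime_dvd_prime_iff_eq hq hp).1 (hq.dvd_of_dvd_pow h)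

theorem HD_Da {p : ℕ} (hp : p.Prime) (hp2 : p ≠ 2) (a : ℕ) (h3 : p = 3 → 1 ≤ a) :
    HD p (Da p a) := by
  have hodd : Odd p := hp.odd_of_ne_two hp2
  have hp4 : p % 4 = 1 ∨ p % 4 = 3 := by
    have := Nat.odd_iff.1 hodd
    omega
  have hppos : 0 < p ^ a := pow_pos hp.pos a
  by_cases hc : p % 4 = 1 ∧ 1 ≤ a
  · have hD : Da p a = 4 * p ^ a := if_pos hc
    rw [hD]
    refine ⟨by positivity, ⟨2 * p ^ a, by ring⟩, fun q hq h => hdex_primes hp (Or.inr rfl) hq h, ?_⟩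
    refine hdex_tau_one hp hp2 ⟨2 * p ^ a, by ring⟩ ?_ (Or.inl (by omega))
    exact Dvd.dvd.mul_left (dvd_pow_self p (by omega)) 4
  · have hD : Da p a = 2 * p ^ a := if_neg hc
    rw [hD]
    refine ⟨by positivity, ⟨p ^ a, rfl⟩, fun q hq h => hdex_primes hp (Or.inl rfl) hq h, ?_⟩
    rcases Nat.eq_zero_or_pos a with h0 | h0
    · subst h0
      rw [pow_zero, mul_one]
      rcases hp4 with h4 | h4
      · -- `p ≡ 1 mod 4`
        obtain ⟨n, hn⟩ := hdex_nonres hp hp2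
        refine hdex_two (n := n) hp hp2 ?_ ?_ ?_
        · intro h
          rw [hdex_modeq h] at hn
          rw [Nat.cast_one, jacobiSym.one_left] at hn
          norm_num at hn
        · intro h
          have h1 : n ≡ 0 [MOD p] := (Nat.modEq_zero_iff_dvd).2 h
          rw [hdex_modeq h1, Nat.cast_zero, jacobiSym.zero_left hp.one_lt] at hn
          norm_num at hn
        · intro ρ h5 h6
          rw [hdex_three' h4 h5, hdex_modeq h6, hn]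
          norm_num
      · have hp3 : p ≠ 3 := fun h => by
          have := h3 h
          omega
        refine hdex_two (n := 4) hp hp2 ?_ ?_ ?_
        · intro h
          have h1 : p ∣ 4 - 1 := (Nat.modEq_iff_dvd' (by norm_num)).1 h.symm
          exact hp3 ((Nat.prime_dvd_prime_iff_eq hp Nat.prime_three).1 h1)
        · intro h
          exact hp2 ((Nat.prime_dvd_prime_iff_eq hp Nat.prime_two).1
            (hp.dvd_of_dvd_pow (show p ∣ 2 ^ 2 from h)))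
        · intro ρ h5 h6
          rw [hdex_three h4 h5, hdex_modeq h6]
          exact_mod_cast jacobiSym.at_four hodd
    · have h4 : p % 4 = 3 := by
        rcases hp4 with h4 | h4
        · exact absurd ⟨h4, h0⟩ hc
        · exact h4
      refine hdex_tau_one hp hp2 ⟨p ^ a, rfl⟩ ?_ (Or.inr h4)
      exact Dvd.dvd.mul_left (dvd_pow_self p (by omega)) 2

theorem GG_Da {p g : ℕ} (hp : p.Prime) (hp2 : p ≠ 2) (hg : 0 < g) (h : GG p g) :
    (p = 3 → 1 ≤ padicValNat p g) ∧ Da p (padicValNat p g) ∣ 2 * g ∧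
      ¬ p ∣ 2 * g / Da p (padicValNat p g) := by
  haveI : Fact p.Prime := ⟨hp⟩
  have hodd : Odd p := hp.odd_of_ne_two hp2
  set v := padicValNat p g with hv
  have hvpos : 0 < p ^ v := pow_pos hp.pos v
  obtain ⟨g', hg'⟩ : p ^ v ∣ g := pow_padicValNat_dvd
  have hndvd : ¬ p ∣ g' := by
    rintro ⟨k, hk⟩
    apply pow_succ_padicValNat_not_dvd (p := p) hg.ne'
    rw [← hv]
    exact ⟨k, by rw [hg', hk, pow_succ]; ring⟩
  refine ⟨?_, ?_⟩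
  · rintro rfl
    rcases h with ⟨h1, h2⟩ | ⟨h1, h2⟩ | ⟨h1, h2⟩
    · omega
    · exact one_le_padicValNat_of_dvd hg.ne' h2
    · omega
  by_cases hc : p % 4 = 1 ∧ 1 ≤ v
  · have hD : Da p v = 4 * p ^ v := if_pos hc
    rw [hD]
    have h2g : 2 ∣ g := by
      rcases h with ⟨h1, h2⟩ | ⟨h1, h2⟩ | ⟨h1, h2⟩
      · omega
      · omega
      · rcases h2 with h2 | h2
        · exfalso
          apply h2
          rw [hg']
          exact Dvd.dvd.mul_right (dvd_pow_self p (by omega)) g'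
        · exact h2
    have h2g' : 2 ∣ g' := by
      rw [hg'] at h2g
      rcases (Nat.Prime.dvd_mul Nat.prime_two).1 h2g with h5 | h5
      · exfalso
        have h6 : 2 ∣ p := Nat.prime_two.dvd_of_dvd_pow h5
        have := Nat.odd_iff.1 hodd
        omega
      · exact h5
    obtain ⟨k, hk⟩ := h2g'
    have h2 : 2 * g = 4 * p ^ v * k := by rw [hg', hk]; ring
    rw [h2]
    refine ⟨⟨k, rfl⟩, ?_⟩
    rw [Nat.mul_div_cancel_left _ (by positivity)]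
    intro h7
    exact hndvd (hk ▸ Dvd.dvd.mul_left h7 2)
  · have hD : Da p v = 2 * p ^ v := if_neg hc
    rw [hD]
    have h2 : 2 * g = 2 * p ^ v * g' := by rw [mul_assoc, ← hg']
    rw [h2]
    refine ⟨⟨g', rfl⟩, ?_⟩
    rw [Nat.mul_div_cancel_left _ (by positivity)]
    exact hndvd

end Pool.SG
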