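import Pool.Agent.Lib.MP_a51fee_ag.SG.DMain
import Pool.Agent.Lib.MP_a51fee_ag.SG.HDex
import Pool.Agent.Lib.MP_a51fee_ag.SG.GMain

/-!
# SG-Final: the theorem

PROOF.  `Metric.tendsto_atTop` / `squeeze`: let `ε > 0`, `A` with `p^{-A} ≤ ε/4`.  An exceptional `g ≤ x` (in `GG p g`, `g ≥ 1`, not a
supersingular genus) with `a = padicValNat p g`: either `a ≥ A`, then `p^A ∣ g`: at most `x/p^A ≤ ε x/4` of them; or `a < A`, then with
`D = Da p a`, `N = 2 g/D` (`GG_Da`): `p ∤ N`, `N ≤ 2 g/D ≤ x` (`D ≥ 2`) and `g = D N/2` is determined by `N`; `N` is exceptional in `dens` (`HD_Da`): if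
`t ∣ N`, `Good p (1 + D t) (N/t)`, then `2 g = D N = (N/t) ((1 + D t) - 1)`, so `SupersingularGenus p g` by `supersingular_of_good`.
At most `(ε/(4 A)) x` of them for `x ≥ x0(a)`.
-/

set_option autoImplicit false

open Finset Filter Topology

namespace Pool.SG

private theorem Final_Da_ge {p : ℕ} (hp : p.Prime) (a : ℕ) : 2 ≤ Da p a := by
  have h1 : 0 < p ^ a := pow_pos hp.pos a
  unfold Da
  split_ifs <;> omega

open scoped Classical in
private theorem Final_part {p : ℕ} (hp : p.Prime) (hp2 : p ≠ 2) (a : ℕ) (ε : ℝ) (hε : 0 < ε) :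
    ∀ᶠ x : ℕ in atTop, (((Icc 1 x).filter (fun g =>
      (GG p g ∧ ¬ SupersingularGenus p g) ∧ padicValNat p g = a)).card : ℝ) ≤ ε * x := by
  by_cases h3 : p = 3 → 1 ≤ a
  · obtain ⟨x0, hx0⟩ := dens hp hp2 (HD_Da hp hp2 a h3) ε hε
    filter_upwards [eventually_ge_atTop x0] with x hx
    refine le_trans (Nat.cast_le.2 (Finset.card_le_card_of_injOn
      (fun g => 2 * g / Da p a) ?_ ?_)) (hx0 x hx)
    · intro g hg
      rw [Finset.mem_coe, Finset.mem_filter, Finset.mem_Icc] at hg
      obtain ⟨⟨hg1, hgx⟩, ⟨hgg, hns⟩, hga⟩ := hg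
      obtain ⟨-, hd, hnd⟩ := GG_Da hp hp2 (by omega) hgg
      rw [hga] at hd hnd
      have hD2 := Final_Da_ge hp a
      have hmul : Da p a * (2 * g / Da p a) = 2 * g := Nat.mul_div_cancel' hd
      have hNpos : 1 ≤ 2 * g / Da p a := by
        rcases Nat.eq_zero_or_pos (2 * g / Da p a) with h0 | h0
        · rw [h0] at hmul
          omega
        · exact h0
      have hNle : 2 * g / Da p a ≤ g := by
        have h4 : 2 * (2 * g / Da p a) ≤ Da p a * (2 * g / Da p a) :=
          Nat.mul_le_mul_right _ hD2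
        omega
      rw [Finset.mem_coe, Finset.mem_filter, Finset.mem_Icc]
      refine ⟨⟨hNpos, le_trans hNle hgx⟩, hnd, ?_⟩
      rintro ⟨t, ht, hgood⟩
      apply hns
      refine supersingular_of_good hp hp2 hgood ?_
      obtain ⟨c, hc0⟩ := ht
      have hc : 2 * g / Da p a = t * c := hc0
      have htpos : 0 < t := by
        rcases Nat.eq_zero_or_pos t with h0 | h0
        · rw [h0, Nat.zero_mul] at hc
          omega
        · exact h0
      have hdiv : 2 * g / Da p a / t = c := by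
        rw [hc]
        exact Nat.mul_div_cancel_left c htpos
      have hgoal : 2 * g = 2 * g / Da p a / t * (1 + Da p a * t - 1) := by
        rw [hdiv, Nat.add_sub_cancel_left]
        calc 2 * g = Da p a * (2 * g / Da p a) := hmul.symm
          _ = Da p a * (t * c) := by rw [hc]
          _ = c * (Da p a * t) := by ring
      exact hgoal
    · intro g hg g' hg' hgg'
      rw [Finset.mem_coe, Finset.mem_filter, Finset.mem_Icc] at hg hg'
      obtain ⟨⟨hg1, hgx⟩, ⟨hgg, hns⟩, hga⟩ := hg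
      obtain ⟨⟨hg1', hgx'⟩, ⟨hgg2, hns'⟩, hga'⟩ := hg'
      obtain ⟨-, hd, -⟩ := GG_Da hp hp2 (by omega) hgg
      obtain ⟨-, hd', -⟩ := GG_Da hp hp2 (by omega) hgg2
      rw [hga] at hd
      rw [hga'] at hd'
      have hmul : Da p a * (2 * g / Da p a) = 2 * g := Nat.mul_div_cancel' hd
      have hmul' : Da p a * (2 * g' / Da p a) = 2 * g' := Nat.mul_div_cancel' hd'
      have h5 : 2 * g / Da p a = 2 * g' / Da p a := hgg'
      rw [h5] at hmul
      omega
  · push Not at h3
    refine Eventually.of_forall fun x => ?_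
    have h4 : (Icc 1 x).filter (fun g =>
      (GG p g ∧ ¬ SupersingularGenus p g) ∧ padicValNat p g = a) = ∅ := by
      rw [Finset.filter_eq_empty_iff]
      intro g hg
      rw [Finset.mem_Icc] at hg
      rintro ⟨⟨hgg, -⟩, hga⟩
      obtain ⟨h5, -, -⟩ := GG_Da hp hp2 (by omega) hgg
      have := h5 h3.1
      omega
    rw [h4, Finset.card_empty, Nat.cast_zero]
    positivity

open scoped Classical in
theorem main_density (p : ℕ) (hp : p.Prime) (hp2 : p ≠ 2) :
    Tendsto (fun x : ℕ => (((Icc 1 x).filter (fun g =>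
      GG p g ∧ ¬ SupersingularGenus p g)).card : ℝ) / x) atTop (𝓝 0) := by
  rw [Metric.tendsto_atTop']
  intro ε hε
  have hp1 : (1 : ℝ) < p := by exact_mod_cast hp.one_lt
  obtain ⟨A, hA⟩ := exists_pow_lt_of_lt_one (show (0 : ℝ) < ε / 4 by positivity)
    (show (1 : ℝ) / p < 1 by rw [div_lt_one (by linarith)]; exact hp1)
  have hev : ∀ᶠ x : ℕ in atTop, ∀ a ∈ range A, (((Icc 1 x).filter (fun g =>
      (GG p g ∧ ¬ SupersingularGenus p g) ∧ padicValNat p g = a)).card : ℝ) ≤
      ε / (4 * (A + 1)) * x := by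
    rw [Filter.eventually_all_finset]
    intro a _
    exact Final_part hp hp2 a _ (by positivity)
  obtain ⟨N, hN⟩ := Filter.eventually_atTop.1 hev
  refine ⟨N, fun x hx => ?_⟩
  have hpart := hN x hx.le
  have hx0 : 0 < x := lt_of_le_of_lt (Nat.zero_le _) hx
  have hxR : (0 : ℝ) < x := by exact_mod_cast hx0
  have hsub : (Icc 1 x).filter (fun g => GG p g ∧ ¬ SupersingularGenus p g) ⊆
      (Ioc 0 x).filter (fun g => p ^ A ∣ g) ∪ (range A).biUnion (fun a => (Icc 1 x).filter (fun g =>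
        (GG p g ∧ ¬ SupersingularGenus p g) ∧ padicValNat p g = a)) := by
    intro g hg
    rw [Finset.mem_filter, Finset.mem_Icc] at hg
    rw [Finset.mem_union]
    by_cases hA' : padicValNat p g < A
    · right
      rw [Finset.mem_biUnion]
      exact ⟨padicValNat p g, Finset.mem_range.2 hA', by
        rw [Finset.mem_filter, Finset.mem_Icc]
        exact ⟨hg.1, hg.2, rfl⟩⟩
    · left
      rw [Finset.mem_filter, Finset.mem_Ioc]
      refine ⟨⟨by omega, hg.1.2⟩, ?_⟩
      exact (pow_dvd_pow p (not_lt.1 hA')).trans pow_padicValNat_dvd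
  have hc1 : (((Ioc 0 x).filter (fun g => p ^ A ∣ g)).card : ℝ) ≤ ε / 4 * x := by
    rw [Nat.Ioc_filter_dvd_card_eq_div]
    have h6 : ((x / p ^ A : ℕ) : ℝ) ≤ (x : ℝ) / ((p ^ A : ℕ) : ℝ) := Nat.cast_div_le
    refine h6.trans ?_
    rw [Nat.cast_pow]
    have h7 : (x : ℝ) / (p : ℝ) ^ A = (1 / (p : ℝ)) ^ A * x := by
      rw [one_div, inv_pow]
      field_simp
    rw [h7]
    exact mul_le_mul_of_nonneg_right hA.le hxR.le
  have hc2 : ((((range A).biUnion (fun a => (Icc 1 x).filter (fun g =>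
        (GG p g ∧ ¬ SupersingularGenus p g) ∧ padicValNat p g = a))).card : ℕ) : ℝ) ≤
      ε / 4 * x := by
    have h8 : ((((range A).biUnion (fun a => (Icc 1 x).filter (fun g =>
        (GG p g ∧ ¬ SupersingularGenus p g) ∧ padicValNat p g = a))).card : ℕ) : ℝ) ≤
        ∑ a ∈ range A, (((Icc 1 x).filter (fun g =>
        (GG p g ∧ ¬ SupersingularGenus p g) ∧ padicValNat p g = a)).card : ℝ) := by
      exact_mod_cast Finset.card_biUnion_le
    refine h8.trans ((Finset.sum_le_sum hpart).trans ?_)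
    rw [Finset.sum_const, Finset.card_range, nsmul_eq_mul]
    have h9 : (A : ℝ) * (ε / (4 * (A + 1)) * x) = (A / (A + 1)) * (ε / 4 * x) := by
      have : (A : ℝ) + 1 ≠ 0 := by positivity
      field_simp
    rw [h9]
    have h10 : (A : ℝ) / (A + 1) ≤ 1 := by
      rw [div_le_one (by positivity)]
      linarith
    calc (A / (A + 1) : ℝ) * (ε / 4 * x) ≤ 1 * (ε / 4 * x) :=
          mul_le_mul_of_nonneg_right h10 (by positivity)
      _ = ε / 4 * x := one_mul _
  have htot : (((Icc 1 x).filter (fun g => GG p g ∧ ¬ SupersingularGenus p g)).card : ℝ) ≤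
      ε / 2 * x := by
    have h11 := (Finset.card_le_card hsub).trans (Finset.card_union_le _ _)
    have h12 : (((Icc 1 x).filter (fun g => GG p g ∧ ¬ SupersingularGenus p g)).card : ℝ) ≤
        (((Ioc 0 x).filter (fun g => p ^ A ∣ g)).card : ℝ) +
        ((((range A).biUnion (fun a => (Icc 1 x).filter (fun g =>
        (GG p g ∧ ¬ SupersingularGenus p g) ∧ padicValNat p g = a))).card : ℕ) : ℝ) := by
      exact_mod_cast h11
    linarith
  rw [Real.dist_eq, sub_zero, abs_of_nonneg (by positivity), div_lt_iff₀ hxR]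
  have : ε / 2 * x < ε * x := by
    apply mul_lt_mul_of_pos_right _ hxR
    linarith
  linarith

end Pool.SG
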