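import Pool.Agent.Lib.MP_a51fee_ag.SG.Defs

/-!
# SG-GArith: arithmetic of the parameters

`good_arith`.  PROOF.  `h : Good p e w`.  Let `l ∣ e` be prime: `l` is odd and `l ≠ p` (otherwise `od p l` is
`1` or `0`: not `2 * odd`), `p` is a unit mod `l`, `od p l = 2 n_l`, `n_l` odd; `p^(n_l)` has square `1` and is not
`1` mod `l`, so `p^(n_l) = -1`.  `n := ∏_{l ∣ e} n_l` (odd, positive; product over `e.primeFactors`):
`n / n_l` is odd so `p^n = -1` mod `l`; `e` squarefree gives `e ∣ p^n + 1`.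
`k := od p w` (`> 0` since `p` is a unit mod `w`), `w ∣ p^k - 1` (`orderOf_dvd_iff_pow_eq_one`,
`pow_orderOf_eq_one`).  `m := (p^k - 1)/w`.  `(e, p^k - 1) = 1`: `l ∣ p^k - 1` gives `od p l ∣ k`.
So `m` is prime to `e`; `i > 0` with `i m ≡ 1 (e)`.  `(i, e) = 1`.
`(i + w) m ≡ 1 + (p^k - 1) = p^k`, prime to `e`, so `(i + w, e) = 1`.
-/

set_option autoImplicit false

namespace Pool.SG

private lemma garith_ne_p {p l : ℕ} (hl : PP p l) : l ≠ p := by
  rintro rfl
  obtain ⟨hlp, _, h4⟩ := hl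
  have : Fact l.Prime := ⟨hlp⟩
  apply h4
  have : od l l = 0 := by
    unfold od
    rw [ZMod.natCast_self]
    rw [orderOf_eq_zero_iff']
    intro n hn
    rw [zero_pow hn.ne']
    exact zero_ne_one
  rw [this]
  exact dvd_zero 4

private lemma garith_odd {p l : ℕ} (hp : p.Prime) (hp2 : p ≠ 2) (hl : PP p l) : Odd l := by
  obtain ⟨hlp, h2, h4⟩ := hl
  rcases hlp.eq_two_or_odd' with rfl | ho
  · exfalso
    have hpo : Odd p := hp.odd_of_ne_two hp2
    have h1 : (p : ZMod 2) = 1 := by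
      obtain ⟨c, hc⟩ := hpo
      rw [hc]
      push_cast
      have : (2 : ZMod 2) = 0 := by decide
      rw [this]; ring
    unfold od at h2
    rw [h1, orderOf_one] at h2
    omega
  · exact ho

private lemma garith_half {p l : ℕ} (hl : PP p l) :
    Odd (od p l / 2) ∧ 0 < od p l / 2 ∧ (p : ZMod l) ^ (od p l / 2) = -1 := by
  obtain ⟨hlp, h2, h4⟩ := hl
  have : Fact l.Prime := ⟨hlp⟩
  have hodd : Odd (od p l / 2) := by
    rw [← Nat.not_even_iff_odd]
    intro he
    apply h4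
    obtain ⟨c, hc⟩ := he
    obtain ⟨d, hd⟩ := h2
    refine ⟨c, ?_⟩
    omega
  have hpos : 0 < od p l / 2 := hodd.pos
  refine ⟨hodd, hpos, ?_⟩
  have hsq : ((p : ZMod l) ^ (od p l / 2)) ^ 2 = 1 := by
    rw [← pow_mul, Nat.div_mul_cancel h2]
    exact pow_orderOf_eq_one _
  rw [sq] at hsq
  rcases mul_self_eq_one_iff.mp hsq with h | h
  · exfalso
    have hd := orderOf_dvd_of_pow_eq_one h
    have hle := Nat.le_of_dvd hpos hd
    have : od p l / 2 < od p l := by
      apply Nat.div_lt_self _ (by norm_num)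
      omega
    unfold od at this hle
    omega
  · exact h

theorem good_arith {p e w : ℕ} (hp : p.Prime) (hp2 : p ≠ 2) (h : Good p e w) :
    ∃ n k m i : ℕ, 0 < n ∧ 0 < k ∧ 0 < i ∧ Odd e ∧ e ∣ p ^ n + 1 ∧ p ^ k - 1 = w * m ∧
      Nat.Coprime e (p ^ k - 1) ∧ i * m ≡ 1 [MOD e] ∧ Nat.Coprime i e ∧
      Nat.Coprime (i + w) e ∧ Nat.Coprime e p := by
  obtain ⟨one_lt, sqf, prime, pos, cop, copp, ord⟩ := h
  have he0 : e ≠ 0 := by omega
  -- odd
  have hodd : Odd e := by
    rw [← Nat.not_even_iff_odd]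
    intro hev
    have h2 : 2 ∣ e := hev.two_dvd
    have := garith_odd hp hp2 (prime 2 Nat.prime_two h2)
    exact absurd this (by decide)
  have hep : Nat.Coprime e p := by
    rw [Nat.coprime_comm, hp.coprime_iff_not_dvd]
    intro hd
    exact garith_ne_p (prime p hp hd) rfl
  -- n
  set n : ℕ := ∏ l ∈ e.primeFactors, od p l / 2 with hn
  have hmem : ∀ l ∈ e.primeFactors, PP p l := fun l hl =>
    prime l (Nat.prime_of_mem_primeFactors hl) (Nat.dvd_of_mem_primeFactors hl)
  have hnodd : Odd n := by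
    rw [hn]
    apply Finset.prod_induction _ (fun x => Odd x) (fun a b ha hb => ha.mul hb) odd_one
    intro l hl
    exact (garith_half (hmem l hl)).1
  have hnpos : 0 < n := hnodd.pos
  have hen : e ∣ p ^ n + 1 := by
    rw [← Nat.prod_primeFactors_of_squarefree sqf]
    apply Finset.prod_primes_dvd
    · intro l hl
      exact (Nat.prime_of_mem_primeFactors hl).prime
    · intro l hl
      have hlp := Nat.prime_of_mem_primeFactors hl
      have : Fact l.Prime := ⟨hlp⟩
      obtain ⟨h1, h2, h3⟩ := garith_half (hmem l hl)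
      have hdiv : od p l / 2 ∣ n := Finset.dvd_prod_of_mem _ hl
      obtain ⟨c, hc⟩ := hdiv
      have hco : Odd c := by
        rw [hc] at hnodd
        exact (Nat.odd_mul.mp hnodd).2
      rw [← ZMod.natCast_eq_zero_iff]
      push_cast
      rw [hc, pow_mul, h3, hco.neg_one_pow]
      ring
  -- k
  have hwne : NeZero w := ⟨by omega⟩
  set k : ℕ := od p w with hk
  have hkpos : 0 < k := by
    have : (p : ZMod w) = ((ZMod.unitOfCoprime p copp.symm : (ZMod w)ˣ) : ZMod w) := by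
      rw [ZMod.coe_unitOfCoprime]
    rw [hk]; unfold od
    rw [this, orderOf_units]
    exact orderOf_pos _
  have hwk : w ∣ p ^ k - 1 := by
    have h1 : (p : ZMod w) ^ k = 1 := pow_orderOf_eq_one _
    have h2 : 1 ≤ p ^ k := Nat.one_le_pow _ _ hp.pos
    rw [← ZMod.natCast_eq_zero_iff, Nat.cast_sub h2]
    push_cast
    rw [h1]; ring
  obtain ⟨m, hm⟩ := hwk
  have hek : Nat.Coprime e (p ^ k - 1) := by
    rw [Nat.coprime_iff_gcd_eq_one] 
    by_contra hne
    obtain ⟨l, hl, hld⟩ := Nat.exists_prime_and_dvd hne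
    have hle : l ∣ e := hld.trans (Nat.gcd_dvd_left _ _)
    have hlk : l ∣ p ^ k - 1 := hld.trans (Nat.gcd_dvd_right _ _)
    have : Fact l.Prime := ⟨hl⟩
    apply ord l hl hle
    have h2 : 1 ≤ p ^ k := Nat.one_le_pow _ _ hp.pos
    rw [← ZMod.natCast_eq_zero_iff, Nat.cast_sub h2] at hlk
    push_cast at hlk
    exact orderOf_dvd_of_pow_eq_one (sub_eq_zero.mp hlk)
  have hem : Nat.Coprime m e := by
    rw [hm] at hek
    exact (Nat.Coprime.coprime_mul_left_right hek).symm
  obtain ⟨i, _, hi⟩ := Nat.exists_mul_mod_eq_one_of_coprime hem one_lt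
  have him : i * m ≡ 1 [MOD e] := by
    unfold Nat.ModEq
    rw [mul_comm i m, hi, Nat.mod_eq_of_lt one_lt]
  have hipos : 0 < i := by
    rcases Nat.eq_zero_or_pos i with h0 | h0
    · rw [h0] at hi
      simp at hi
    · exact h0
  have hie : Nat.Coprime i e := by
    have h1 : Nat.Coprime (i * m) e := by
      rw [Nat.coprime_iff_gcd_eq_one, him.gcd_eq]
      simp
    exact Nat.Coprime.coprime_mul_right h1
  refine ⟨n, k, m, i, hnpos, hkpos, hipos, hodd, hen, hm, hek, him, hie, ?_, hep⟩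
  have h1 : (i + w) * m ≡ p ^ k [MOD e] := by
    have h2 : 1 ≤ p ^ k := Nat.one_le_pow _ _ hp.pos
    have h3 : (i + w) * m = i * m + (p ^ k - 1) := by rw [hm]; ring
    rw [h3]
    have h4 : i * m + (p ^ k - 1) ≡ 1 + (p ^ k - 1) [MOD e] := Nat.ModEq.add_right _ him
    have h5 : 1 + (p ^ k - 1) = p ^ k := by omega
    rwa [h5] at h4
  have h6 : Nat.Coprime ((i + w) * m) e := by
    rw [Nat.coprime_iff_gcd_eq_one, h1.gcd_eq]
    exact Nat.Coprime.pow_left k hep.symm
  exact Nat.Coprime.coprime_mul_right h6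

end Pool.SG
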