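import Pool.Agent.Lib.MP_a51fee_ag.SG.GRamUniq

/-!
# SG-GRamDiff: differentials at a totally ramified place

Setting as in `GRamVal`; `D = KaehlerDifferential.D K F`, `t = algebraMap (RatFunc K) F π`.

PROOFS.
* `D_aeval`: for `g : K[X]`: `D (g(t)) = g'(t) • D t`  (`Derivation` and `aeval`; Mathlib
  `Derivation.leibniz_...`, or induction on `g`; here `algebraMap (aeval π g) = aeval t g`).
* `ram_dpi`: apply `D` to `T^e = t u(t)`: `e T^{e-1} • D T = (u(t) + t u'(t)) • D t`.  The polynomial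
  `u + X u'` has constant coefficient `u(0) ≠ 0`, so `y0 := (u + X u')(t)` has valuation `1`
  (`ram_unit`) and `D t = (y0⁻¹ e) T^{e-1} • D T`, `v (y0⁻¹ e) = 1` (`e ∈ K^*`).  In particular
  `D T ≠ 0` because `D t ≠ 0` (`dpi`).
* `ram_D_mem`: for `y ∈ V` there is `z ∈ V` with `D y = z • D T`: write `y = ∑_{j<e} c_j T^j` with
  `c_j = 0` or `Ord π c_j n_j`, `n_j ≥ 0` (`ram_mem`).
  `D (c_j T^j) = T^j • D c_j + (c_j j T^{j-1}) • D T` (for `j = 0` only the first term; note
  `c_j T^{j-1} ∈ V` for `j ≥ 1`) and for `c = π^n g(π)/h(π)`, `n ≥ 0`, i.e. `c h(π) = π^n g(π)` with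
  polynomials: `D c = z' • D t`, `z' = ((X^n g)' h - X^n g h')(t) / h(t)^2 ∈ V`, and
  `D t ∈ V • D T` by `ram_dpi`.
* `ram_diff`: `diffOf K F V` is the additive group generated by `x • D y`, `x, y ∈ V`; by `ram_D_mem` all
  its elements are `z • D T`, `z ∈ V`; conversely `h • D T` with `h ∈ V` is a generator (`T ∈ V`).
  Since `D T ≠ 0`, `h • D T = z • D T` gives `h = z`.
* `ram_crit`: `(∑ c_j T^{a j}) • D t = (∑ c_j T^{a j}) y T^{e-1} • D T`, `v(y) = 1`; by `ram_diff` it
  is in `diffOf` iff `y ∑ c_j T^{a j + e - 1} ∈ V` iff `∑ c_j T^{a j + e - 1} ∈ V`; use `ram_mem`.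
-/

set_option autoImplicit false

open Polynomial

namespace Pool.SG

variable {K F : Type} [Field K] [Field F] [Algebra K F] [Algebra (RatFunc K) F]
  [IsScalarTower K (RatFunc K) F]

theorem v_const {V : ValuationSubring F} (hV : ∀ c : K, algebraMap K F c ∈ V) {c : K} (hc : c ≠ 0) :
    V.valuation (algebraMap K F c) = 1 := by
  have h1 : V.valuation (algebraMap K F c) ≤ 1 := (V.valuation_le_one_iff _).2 (hV c)
  have h2 : V.valuation (algebraMap K F c⁻¹) ≤ 1 := (V.valuation_le_one_iff _).2 (hV c⁻¹)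
  have h3 : V.valuation (algebraMap K F c) * V.valuation (algebraMap K F c⁻¹) = 1 := by
    rw [← map_mul, ← map_mul, mul_inv_cancel₀ hc, map_one, map_one]
  apply le_antisymm h1
  calc (1 : V.ValueGroup) = V.valuation (algebraMap K F c) * V.valuation (algebraMap K F c⁻¹) := h3.symm
    _ ≤ V.valuation (algebraMap K F c) * 1 := mul_le_mul_right h2 _
    _ = V.valuation (algebraMap K F c) := mul_one _

theorem mem_of_v_one {V : ValuationSubring F} {y : F} (hy : V.valuation y = 1) : y ∈ V :=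
  (V.valuation_le_one_iff _).1 hy.le

theorem inv_mem_of_v_one {V : ValuationSubring F} {y : F} (hy : V.valuation y = 1) : y⁻¹ ∈ V :=
  (V.valuation_le_one_iff _).1 (by rw [map_inv₀, hy, inv_one])

theorem mul_mem_iff_v_one {V : ValuationSubring F} {x y : F} (hy : V.valuation y = 1) :
    x * y ∈ V ↔ x ∈ V := by
  rw [← V.valuation_le_one_iff, ← V.valuation_le_one_iff, map_mul, hy, mul_one]

theorem aeval_mem_V {V : ValuationSubring F} (hV : ∀ c : K, algebraMap K F c ∈ V) {t : F} (ht : t ∈ V)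
    (g : K[X]) : aeval t g ∈ V := by
  induction g using Polynomial.induction_on' with
  | add p q hp hq => rw [map_add]; exact V.add_mem _ _ hp hq
  | monomial n a =>
    rw [aeval_monomial]
    exact V.mul_mem _ _ (hV a) (pow_mem ht n)

theorem ram_dpi {e : ℕ} {π : RatFunc K} {T : F} {u : K[X]} (h : Ram K F e π T u)
    {V : ValuationSubring F} (hV : ∀ c : K, algebraMap K F c ∈ V)
    (hπ : V.valuation (algebraMap (RatFunc K) F π) < 1) :
    KaehlerDifferential.D K F T ≠ 0 ∧ ∃ y : F, V.valuation y = 1 ∧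
      KaehlerDifferential.D K F (algebraMap (RatFunc K) F π) =
        (y * T ^ (e - 1)) • KaehlerDifferential.D K F T := by
  set t := algebraMap (RatFunc K) F π with ht
  have hag : ∀ g : K[X], algebraMap (RatFunc K) F (aeval π g) = aeval t g := fun g =>
    (Polynomial.aeval_algebraMap_apply F π g).symm
  set y0 := aeval t (derivative (X * u)) with hy0
  have hc0 : (derivative (X * u)).coeff 0 ≠ 0 := by
    rw [derivative_mul, derivative_X, one_mul, coeff_add, coeff_X_mul_zero, add_zero]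
    exact h.u0
  have hv0 : V.valuation y0 = 1 := by
    rw [hy0, ← hag]
    exact ram_unit h hV hπ hc0
  have hy00 : y0 ≠ 0 := by
    intro h0
    rw [h0, map_zero] at hv0
    exact zero_ne_one hv0
  have hTe : T ^ e = aeval t (X * u) := by
    rw [h.eq, map_mul, hag, map_mul, aeval_X]
  have hD1 : KaehlerDifferential.D K F (T ^ e) = y0 • KaehlerDifferential.D K F t := by
    rw [hTe, Derivation.map_aeval]
  have hD2 : KaehlerDifferential.D K F (T ^ e) = ((e : F) * T ^ (e - 1)) • KaehlerDifferential.D K F T := by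
    rw [Derivation.leibniz_pow, mul_smul]
    rw [← Nat.cast_smul_eq_nsmul F]
  have hDt : KaehlerDifferential.D K F t = ((y0⁻¹ * (e : F)) * T ^ (e - 1)) • KaehlerDifferential.D K F T := by
    have h1 : y0⁻¹ • (y0 • KaehlerDifferential.D K F t) = y0⁻¹ • (((e : F) * T ^ (e - 1)) • KaehlerDifferential.D K F T) := by
      rw [← hD1, hD2]
    rw [smul_smul, inv_mul_cancel₀ hy00, one_smul, smul_smul] at h1
    rw [h1, mul_assoc]
  refine ⟨?_, y0⁻¹ * (e : F), ?_, hDt⟩
  · intro h0
    rw [h0, smul_zero] at hDt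
    exact h.dpi hDt
  · have he : (e : F) = algebraMap K F (e : K) := by rw [map_natCast]
    rw [map_mul, map_inv₀, hv0, inv_one, one_mul, he]
    exact v_const hV h.ek

theorem ram_D_mem {e : ℕ} {π : RatFunc K} {T : F} {u : K[X]} (h : Ram K F e π T u)
    {V : ValuationSubring F} (hV : ∀ c : K, algebraMap K F c ∈ V)
    (hπ : V.valuation (algebraMap (RatFunc K) F π) < 1) {y : F} (hy : y ∈ V) :
    ∃ z ∈ V, KaehlerDifferential.D K F y = z • KaehlerDifferential.D K F T := by
  obtain ⟨hDT, y1, hy1, hDt⟩ := ram_dpi h hV hπ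
  obtain ⟨hvTe, hvT, hvT0⟩ := ram_vT h hV hπ
  have hTV : T ∈ V := (V.valuation_le_one_iff _).1 hvT.le
  set t := algebraMap (RatFunc K) F π with ht
  have htV : t ∈ V := (V.valuation_le_one_iff _).1 hπ.le
  have hag : ∀ g : K[X], algebraMap (RatFunc K) F (aeval π g) = aeval t g := fun g =>
    (Polynomial.aeval_algebraMap_apply F π g).symm
  have hw : y1 * T ^ (e - 1) ∈ V := V.mul_mem _ _ (mem_of_v_one hy1) (pow_mem hTV _)
  let Q : F → Prop := fun y => y ∈ V ∧ ∃ z ∈ V, KaehlerDifferential.D K F y = z • KaehlerDifferential.D K F T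
  have Qmul : ∀ a b : F, Q a → Q b → Q (a * b) := by
    rintro a b ⟨ha, za, hza, ea⟩ ⟨hb, zb, hzb, eb⟩
    refine ⟨V.mul_mem _ _ ha hb, a * zb + b * za,
      V.add_mem _ _ (V.mul_mem _ _ ha hzb) (V.mul_mem _ _ hb hza), ?_⟩
    rw [Derivation.leibniz, ea, eb, smul_smul, smul_smul, ← add_smul]
  have Qadd : ∀ a b : F, Q a → Q b → Q (a + b) := by
    rintro a b ⟨ha, za, hza, ea⟩ ⟨hb, zb, hzb, eb⟩
    refine ⟨V.add_mem _ _ ha hb, za + zb, V.add_mem _ _ hza hzb, ?_⟩
    rw [map_add, ea, eb, ← add_smul]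
  have Qzero : Q 0 := ⟨V.zero_mem, 0, V.zero_mem, by rw [map_zero, zero_smul]⟩
  have Qone : Q 1 := ⟨V.one_mem, 0, V.zero_mem, by rw [Derivation.map_one_eq_zero, zero_smul]⟩
  have QT : Q T := ⟨hTV, 1, V.one_mem, by rw [one_smul]⟩
  have Qpow : ∀ n : ℕ, Q (T ^ n) := by
    intro n
    induction n with
    | zero => rw [pow_zero]; exact Qone
    | succ n ih => rw [pow_succ]; exact Qmul _ _ ih QT
  have QC : ∀ (c : RatFunc K) (n : ℤ), Ord K π c n → 0 ≤ n → Q (algebraMap (RatFunc K) F c) := by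
    rintro c n ⟨g, k, hg, hk, hc⟩ hn
    obtain ⟨m, rfl⟩ := Int.eq_ofNat_of_zero_le hn
    have hvH : V.valuation (aeval t k) = 1 := by
      rw [← hag]
      exact ram_unit h hV hπ hk
    have hH0 : aeval t k ≠ 0 := by
      intro h0
      rw [h0, map_zero] at hvH
      exact zero_ne_one hvH
    have hC : algebraMap (RatFunc K) F c = aeval t (X ^ m * g) * (aeval t k)⁻¹ := by
      rw [hc, zpow_natCast, div_eq_mul_inv, map_mul, map_mul, map_inv₀, hag, hag, map_pow, map_mul, map_pow, aeval_X]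
    have hCV : algebraMap (RatFunc K) F c ∈ V := by
      rw [hC]
      exact V.mul_mem _ _ (aeval_mem_V hV htV _) (inv_mem_of_v_one hvH)
    have hCH : algebraMap (RatFunc K) F c * aeval t k = aeval t (X ^ m * g) := by
      rw [hC, mul_assoc, inv_mul_cancel₀ hH0, mul_one]
    have hD := congrArg (KaehlerDifferential.D K F) hCH
    rw [Derivation.leibniz, Derivation.map_aeval, Derivation.map_aeval, smul_smul] at hD
    have hD2 : KaehlerDifferential.D K F (algebraMap (RatFunc K) F c)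
        = ((aeval t k)⁻¹ * (aeval t (derivative (X ^ m * g)) - algebraMap (RatFunc K) F c * aeval t (derivative k)) *
            (y1 * T ^ (e - 1))) • KaehlerDifferential.D K F T := by
      have h1 : aeval t k • KaehlerDifferential.D K F (algebraMap (RatFunc K) F c)
          = (aeval t (derivative (X ^ m * g)) - algebraMap (RatFunc K) F c * aeval t (derivative k)) •
            KaehlerDifferential.D K F t := by
        rw [sub_smul, ← hD]
        abel
      have h2 := congrArg (fun w => (aeval t k)⁻¹ • w) h1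
      simp only [smul_smul] at h2
      rw [inv_mul_cancel₀ hH0, one_smul] at h2
      rw [h2, hDt, smul_smul]
    exact ⟨hCV, _, V.mul_mem _ _ (V.mul_mem _ _ (inv_mem_of_v_one hvH)
      (V.sub_mem (aeval_mem_V hV htV _) (V.mul_mem _ _ hCV (aeval_mem_V hV htV _)))) hw, hD2⟩
  obtain ⟨c, hc⟩ := h.span y
  have he0 : (0 : ℤ) < e := by have := h.he; omega
  have hmem : (∑ j ∈ (Finset.univ : Finset (Fin e)), algebraMap (RatFunc K) F (c j) * T ^ ((j : ℕ) : ℤ)) ∈ V := by
    have hsum : (∑ j ∈ (Finset.univ : Finset (Fin e)), algebraMap (RatFunc K) F (c j) * T ^ ((j : ℕ) : ℤ)) = y := by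
      rw [hc]
      exact Finset.sum_congr rfl (fun j _ => by rw [zpow_natCast])
    rw [hsum]
    exact hy
  rw [ram_mem h hV hπ Finset.univ c (fun j => ((j : ℕ) : ℤ))] at hmem
  · have hQ : Q y := by
      rw [hc]
      refine Finset.sum_induction _ Q Qadd Qzero (fun j _ => ?_)
      rcases hmem j (Finset.mem_univ j) with h0 | ⟨n, hn, hn0⟩
      · rw [h0, map_zero, zero_mul]
        exact Qzero
      · refine Qmul _ _ (QC (c j) n hn ?_) (Qpow _)
        have hj : ((j : ℕ) : ℤ) < e := by exact_mod_cast j.2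
        by_contra hneg
        push Not at hneg
        have h1 : n ≤ -1 := by omega
        have h2 : (e : ℤ) * n ≤ (e : ℤ) * (-1) := mul_le_mul_of_nonneg_left h1 he0.le
        linarith
    exact hQ.2
  · intro j _ j' _ hjj' hd
    apply hjj'
    have hj : ((j : ℕ) : ℤ) < e := by exact_mod_cast j.2
    have hj' : ((j' : ℕ) : ℤ) < e := by exact_mod_cast j'.2
    have h0 : ((j : ℕ) : ℤ) - ((j' : ℕ) : ℤ) = 0 := by
      apply Int.eq_zero_of_abs_lt_dvd hd
      rw [abs_lt]
      constructor <;> omega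
    exact Fin.ext (by omega)

theorem ram_diff {e : ℕ} {π : RatFunc K} {T : F} {u : K[X]} (h : Ram K F e π T u)
    {V : ValuationSubring F} (hV : ∀ c : K, algebraMap K F c ∈ V)
    (hπ : V.valuation (algebraMap (RatFunc K) F π) < 1) (y : F) :
    y • KaehlerDifferential.D K F T ∈ diffOf K F (V : Set F) ↔ y ∈ V := by
  obtain ⟨hDT, -⟩ := ram_dpi h hV hπ
  obtain ⟨-, hvT, -⟩ := ram_vT h hV hπ
  have hTV : T ∈ V := (V.valuation_le_one_iff _).1 hvT.le
  constructor
  · intro hy
    have key : ∀ η ∈ diffOf K F (V : Set F), ∃ z ∈ V, η = z • KaehlerDifferential.D K F T := by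
      intro η hη
      induction hη using AddSubgroup.closure_induction with
      | mem η hη =>
        obtain ⟨a, ha, b, hb, rfl⟩ := hη
        obtain ⟨z, hz, e1⟩ := ram_D_mem h hV hπ hb
        exact ⟨a * z, V.mul_mem _ _ ha hz, by rw [e1, smul_smul]⟩
      | zero => exact ⟨0, V.zero_mem, by rw [zero_smul]⟩
      | add a b _ _ ha hb =>
        obtain ⟨z, hz, e1⟩ := ha
        obtain ⟨z', hz', e2⟩ := hb
        exact ⟨z + z', V.add_mem _ _ hz hz', by rw [e1, e2, add_smul]⟩
      | neg a _ ha =>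
        obtain ⟨z, hz, e1⟩ := ha
        exact ⟨-z, V.neg_mem _ hz, by rw [e1, neg_smul]⟩
    obtain ⟨z, hz, e1⟩ := key _ hy
    have h2 : (y - z) • KaehlerDifferential.D K F T = 0 := by rw [sub_smul, e1, sub_self]
    rcases smul_eq_zero.1 h2 with h3 | h3
    · rw [sub_eq_zero.1 h3]
      exact hz
    · exact absurd h3 hDT
  · intro hy
    exact AddSubgroup.subset_closure ⟨y, hy, T, hTV, rfl⟩

theorem ram_crit {e : ℕ} {π : RatFunc K} {T : F} {u : K[X]} (h : Ram K F e π T u)
    {V : ValuationSubring F} (hV : ∀ c : K, algebraMap K F c ∈ V)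
    (hπ : V.valuation (algebraMap (RatFunc K) F π) < 1) {ι : Type} (s : Finset ι)
    (c : ι → RatFunc K) (a : ι → ℤ)
    (ha : ∀ j ∈ s, ∀ j' ∈ s, j ≠ j' → ¬ (e : ℤ) ∣ a j - a j') :
    (∑ j ∈ s, algebraMap (RatFunc K) F (c j) * T ^ a j) •
        KaehlerDifferential.D K F (algebraMap (RatFunc K) F π) ∈ diffOf K F (V : Set F) ↔
      ∀ j ∈ s, c j = 0 ∨ ∃ n : ℤ, Ord K π (c j) n ∧ 0 ≤ (e : ℤ) * n + a j + e - 1 := by
  obtain ⟨-, y, hy, hDt⟩ := ram_dpi h hV hπ
  obtain ⟨-, -, hvT0⟩ := ram_vT h hV hπ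
  have hT0 : T ≠ 0 := by
    rintro rfl
    exact hvT0 (map_zero _)
  have he : 1 ≤ e := by have := h.he; omega
  rw [hDt, smul_smul, ram_diff h hV hπ]
  have h1 : (∑ j ∈ s, algebraMap (RatFunc K) F (c j) * T ^ a j) * (y * T ^ (e - 1))
      = (∑ j ∈ s, algebraMap (RatFunc K) F (c j) * T ^ (a j + ((e - 1 : ℕ) : ℤ))) * y := by
    rw [mul_comm y, ← mul_assoc, Finset.sum_mul]
    congr 1
    refine Finset.sum_congr rfl (fun j _ => ?_)
    rw [zpow_add₀ hT0, zpow_natCast, mul_assoc]
  rw [h1, mul_mem_iff_v_one hy, ram_mem h hV hπ s c (fun j => a j + ((e - 1 : ℕ) : ℤ))]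
  · have h2 : ((e - 1 : ℕ) : ℤ) = (e : ℤ) - 1 := by rw [Nat.cast_sub he, Nat.cast_one]
    constructor
    · intro H j hj
      rcases H j hj with h0 | ⟨n, hn, hn0⟩
      · exact Or.inl h0
      · refine Or.inr ⟨n, hn, ?_⟩
        simp only [h2] at hn0
        linarith
    · intro H j hj
      rcases H j hj with h0 | ⟨n, hn, hn0⟩
      · exact Or.inl h0
      · refine Or.inr ⟨n, hn, ?_⟩
        simp only [h2]
        linarith
  · intro j hj j' hj' hne hd
    apply ha j hj j' hj' hne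
    have h3 : a j + ((e - 1 : ℕ) : ℤ) - (a j' + ((e - 1 : ℕ) : ℤ)) = a j - a j' := by ring
    rw [h3] at hd
    exact hd

end Pool.SG
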