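import Pool.Agent.Lib.MP_a51fee_ag.SG.GLoc
import Pool.Agent.Lib.MP_a51fee_ag.SG.GRamDiff

/-!
# SG-GCrit: criteria for regularity at the ramified places, classification of places

Let `h : Cv K F e i w Z`, `x = xx K F`.

PROOFS.  `Ord` facts: `Ord π c n`, `Ord π c' n'` imply `Ord π (c c') (n + n')`, `Ord π c⁻¹ (-n)`,
`Ord π (c^k) (k n)`; for `c` and a unit `d` (`Ord π d 0`): `(∃ n, Ord (c d) n ∧ P n) ↔ (∃ n, Ord c n ∧ P n)`.
* `crit_root`: `ram_root` and `ram_crit` with `ι = Fin e`, `a b = - b`, `D (x - c) = D x`.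
* `crit_zero`: `Z^{-b} = (X^w-1)^{-α b} T^{-i b}` by `ram_zero`, `Ord X (X^w - 1) 0` (constant coefficient
  `-1`), `ram_crit` with the coefficients `c_b (X^w-1)^{-αb}` and the exponents `- i b` (pairwise
  incongruent mod `e` since `i` is prime to `e`).
* `crit_inf`: `D x = D (π⁻¹) = - π^{-2} • D π`; `Z^{-b} = (1 - π^w)^{-αb} T^{(i+w) b}`; `ram_crit` for
  `π = X⁻¹` with the coefficients `- c_b π^{-2} (1-π^w)^{-αb}`: orders `n - 2`.
* `place_cases`: `x ∉ V`: `v(x⁻¹) < 1`.  `x ∈ V`, `v(fP(x)) < 1`: `v(x) < 1` or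
  `v(x^w - 1) < 1`, `x^w - 1 = ∏_{c^w = 1} (x - c)` (`X_pow_sub_one_eq_prod`, primitive root `ζ`), so
  some `v (x - c) < 1`.
-/

set_option autoImplicit false

open Polynomial

namespace Pool.SG

variable {K F : Type} [Field K] [Field F] [Algebra K F] [Algebra (RatFunc K) F]
  [IsScalarTower K (RatFunc K) F]


private theorem gc_mul {E : Type} [Field E] [Algebra K E] {π c c' : E} (hπ : π ≠ 0) {n n' : ℤ}
    (h : Ord K π c n) (h' : Ord K π c' n') : Ord K π (c * c') (n + n') := by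
  obtain ⟨g, k, hg, hk, rfl⟩ := h
  obtain ⟨g', k', hg', hk', rfl⟩ := h'
  refine ⟨g * g', k * k', ?_, ?_, ?_⟩
  · rw [mul_coeff_zero]; exact mul_ne_zero hg hg'
  · rw [mul_coeff_zero]; exact mul_ne_zero hk hk'
  · rw [zpow_add₀ hπ, map_mul, map_mul, div_mul_div_comm]
    congr 1
    ring

private theorem gc_inv {E : Type} [Field E] [Algebra K E] {π c : E} {n : ℤ}
    (h : Ord K π c n) : Ord K π c⁻¹ (-n) := by
  obtain ⟨g, k, hg, hk, rfl⟩ := h
  refine ⟨k, g, hk, hg, ?_⟩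
  rw [inv_div, zpow_neg, div_eq_mul_inv, div_eq_mul_inv, mul_inv_rev]
  ring

private theorem gc_one {E : Type} [Field E] [Algebra K E] {π : E} : Ord K π 1 0 := by
  refine ⟨1, 1, ?_, ?_, ?_⟩
  · simp
  · simp
  · simp

private theorem gc_npow {E : Type} [Field E] [Algebra K E] {π c : E} (hπ : π ≠ 0)
    (h : Ord K π c 0) (k : ℕ) : Ord K π (c ^ k) 0 := by
  induction k with
  | zero => rw [pow_zero]; exact gc_one
  | succ k ih =>
    rw [pow_succ]
    have := gc_mul hπ ih h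
    rwa [add_zero] at this

private theorem gc_zpow {E : Type} [Field E] [Algebra K E] {π c : E} (hπ : π ≠ 0)
    (h : Ord K π c 0) (k : ℤ) : Ord K π (c ^ k) 0 := by
  cases k with
  | ofNat k => rw [Int.ofNat_eq_natCast, zpow_natCast]; exact gc_npow hπ h k
  | negSucc k =>
    rw [zpow_negSucc]
    have := gc_inv (gc_npow hπ h (k + 1))
    rwa [neg_zero] at this

/-- multiplication by an element of known order -/
private theorem gc_iff {E : Type} [Field E] [Algebra K E] {π c d : E} (hπ : π ≠ 0) {m : ℤ}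
    (hd : Ord K π d m) (hd0 : d ≠ 0) (P : ℤ → Prop) :
    (∃ n : ℤ, Ord K π (c * d) n ∧ P n) ↔ ∃ n : ℤ, Ord K π c n ∧ P (n + m) := by
  constructor
  · rintro ⟨n, hn, hP⟩
    refine ⟨n - m, ?_, by rwa [sub_add_cancel]⟩
    have := gc_mul hπ hn (gc_inv hd)
    rwa [mul_assoc, mul_inv_cancel₀ hd0, mul_one, ← sub_eq_add_neg] at this
  · rintro ⟨n, hn, hP⟩
    exact ⟨n + m, gc_mul hπ hn hd, hP⟩

private theorem gc_incong {e i b b' : ℕ} (hc : Nat.Coprime i e) (hb : b < e) (hb' : b' < e)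
    (h : (e : ℤ) ∣ (i : ℤ) * b - (i : ℤ) * b') : b = b' := by
  rw [← mul_sub] at h
  have h1 : IsCoprime (e : ℤ) (i : ℤ) := by
    rw [Nat.isCoprime_iff_coprime]
    exact hc.symm
  have h2 := h1.dvd_of_dvd_mul_left h
  have h3 : (b : ℤ) - b' = 0 := by
    apply Int.eq_zero_of_abs_lt_dvd h2
    rw [abs_lt]
    constructor <;> omega
  omega

theorem crit_root {e i w : ℕ} {Z : F} (h : Cv K F e i w Z) {c : K} (hc : c ^ w = 1)
    {V : ValuationSubring F} (hV : ∀ c : K, algebraMap K F c ∈ V)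
    (hx : V.valuation (xx K F - algebraMap K F c) < 1) (cb : Fin e → RatFunc K) :
    (∑ b, algebraMap (RatFunc K) F (cb b) * Z ^ (-((b : ℕ) : ℤ))) •
        KaehlerDifferential.D K F (xx K F) ∈ diffOf K F (V : Set F) ↔
      ∀ b, cb b = 0 ∨ ∃ n : ℤ, Ord K (RatFunc.X - RatFunc.C c) (cb b) n ∧
        0 ≤ (e : ℤ) * n - (b : ℕ) + e - 1 := by
  obtain ⟨u, hR⟩ := ram_root h hc
  have e1 : algebraMap (RatFunc K) F (RatFunc.X - RatFunc.C c) = xx K F - algebraMap K F c := by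
    rw [map_sub, ← RatFunc.algebraMap_eq_C, ← IsScalarTower.algebraMap_apply]
    rfl
  have hx' : V.valuation (algebraMap (RatFunc K) F (RatFunc.X - RatFunc.C c)) < 1 := by
    rw [e1]; exact hx
  have hcr := ram_crit hR hV hx' (Finset.univ : Finset (Fin e)) cb
    (fun b => -((b : ℕ) : ℤ)) (by
      intro j _ j' _ hjj hd
      apply hjj
      apply Fin.ext
      have := gc_incong (e := e) (i := 1) (b := j') (b' := j) (Nat.coprime_one_left e) j'.2 j.2
        (by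
          have e3 : ((1 : ℕ) : ℤ) * (j' : ℕ) - ((1 : ℕ) : ℤ) * (j : ℕ) =
            -((j : ℕ) : ℤ) - -((j' : ℕ) : ℤ) := by push_cast; ring
          rw [e3]; exact hd)
      exact this.symm)
  have e2 : KaehlerDifferential.D K F (algebraMap (RatFunc K) F (RatFunc.X - RatFunc.C c)) =
      KaehlerDifferential.D K F (xx K F) := by
    rw [e1, map_sub, Derivation.map_algebraMap, sub_zero]
  rw [e2] at hcr
  rw [hcr]
  constructor
  · intro H b
    rcases H b (Finset.mem_univ _) with h1 | ⟨n, h1, h2⟩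
    · exact Or.inl h1
    · exact Or.inr ⟨n, h1, by linarith⟩
  · intro H b _
    rcases H b with h1 | ⟨n, h1, h2⟩
    · exact Or.inl h1
    · exact Or.inr ⟨n, h1, by linarith⟩

theorem crit_zero {e i w : ℕ} {Z : F} (h : Cv K F e i w Z)
    {V : ValuationSubring F} (hV : ∀ c : K, algebraMap K F c ∈ V)
    (hx : V.valuation (xx K F) < 1) (cb : Fin e → RatFunc K) :
    (∑ b, algebraMap (RatFunc K) F (cb b) * Z ^ (-((b : ℕ) : ℤ))) •
        KaehlerDifferential.D K F (xx K F) ∈ diffOf K F (V : Set F) ↔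
      ∀ b, cb b = 0 ∨ ∃ n : ℤ, Ord K RatFunc.X (cb b) n ∧
        0 ≤ (e : ℤ) * n - i * (b : ℕ) + e - 1 := by
  obtain ⟨T, u, α, hR, hZ⟩ := ram_zero h
  have hX0 : (RatFunc.X : RatFunc K) ≠ 0 := RatFunc.X_ne_zero
  have hw := h.hw
  have hunit : Ord K (RatFunc.X : RatFunc K) (RatFunc.X ^ w - 1) 0 := by
    refine ⟨X ^ w - 1, 1, ?_, ?_, ?_⟩
    · rw [coeff_sub, coeff_X_pow, if_neg (by omega), coeff_one_zero, zero_sub]
      exact neg_ne_zero.2 one_ne_zero
    · rw [coeff_one_zero]; exact one_ne_zero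
    · rw [zpow_zero, one_mul, map_one, div_one, map_sub, map_pow, aeval_X, map_one]
  have hune : (RatFunc.X ^ w - 1 : RatFunc K) ≠ 0 := by
    have h1 : (X ^ w - C 1 : K[X]) ≠ 0 := (monic_X_pow_sub_C (1 : K) hw.ne').ne_zero
    have h2 := RatFunc.algebraMap_ne_zero (K := K) h1
    rwa [map_sub, map_pow, C_1, map_one, RatFunc.algebraMap_X] at h2
  have hx' : V.valuation (algebraMap (RatFunc K) F RatFunc.X) < 1 := hx
  have hcr := ram_crit hR hV hx' (Finset.univ : Finset (Fin e))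
    (fun b => cb b * (RatFunc.X ^ w - 1) ^ (-(α * ((b : ℕ) : ℤ))))
    (fun b => -((i : ℤ) * ((b : ℕ) : ℤ))) (by
      intro j _ j' _ hjj hd
      apply hjj
      apply Fin.ext
      have := gc_incong (e := e) (i := i) (b := j') (b' := j) h.ci j'.2 j.2
        (by
          have e3 : (i : ℤ) * (j' : ℕ) - (i : ℤ) * (j : ℕ) =
            -((i : ℤ) * ((j : ℕ) : ℤ)) - -((i : ℤ) * ((j' : ℕ) : ℤ)) := by ring
          rw [e3]; exact hd)
      exact this.symm)
  have e2 : ∀ b : Fin e, algebraMap (RatFunc K) F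
      (cb b * (RatFunc.X ^ w - 1) ^ (-(α * ((b : ℕ) : ℤ)))) * T ^ (-((i : ℤ) * ((b : ℕ) : ℤ))) =
      algebraMap (RatFunc K) F (cb b) * Z ^ (-((b : ℕ) : ℤ)) := by
    intro b
    have e9 : (T ^ i) ^ (-((b : ℕ) : ℤ)) = T ^ (-((i : ℤ) * ((b : ℕ) : ℤ))) := by
      rw [← zpow_natCast T i, ← zpow_mul]
      congr 1
      ring
    rw [hZ, mul_zpow, map_mul, mul_assoc, ← map_zpow₀, ← zpow_mul, e9]
    congr 4
    ring
  simp only [e2] at hcr
  have e4 : algebraMap (RatFunc K) F RatFunc.X = xx K F := rfl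
  rw [e4] at hcr
  rw [hcr]
  have key : ∀ b : Fin e, (cb b * (RatFunc.X ^ w - 1) ^ (-(α * ((b : ℕ) : ℤ))) = 0 ∨
      ∃ n : ℤ, Ord K RatFunc.X (cb b * (RatFunc.X ^ w - 1) ^ (-(α * ((b : ℕ) : ℤ)))) n ∧
        0 ≤ (e : ℤ) * n + -((i : ℤ) * ((b : ℕ) : ℤ)) + e - 1) ↔
      (cb b = 0 ∨ ∃ n : ℤ, Ord K RatFunc.X (cb b) n ∧
        0 ≤ (e : ℤ) * n - i * (b : ℕ) + e - 1) := by
    intro b
    have hz : (RatFunc.X ^ w - 1 : RatFunc K) ^ (-(α * ((b : ℕ) : ℤ))) ≠ 0 := zpow_ne_zero _ hune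
    rw [gc_iff hX0 (gc_zpow hX0 hunit _) hz
      (fun n => 0 ≤ (e : ℤ) * n + -((i : ℤ) * ((b : ℕ) : ℤ)) + e - 1)]
    rw [mul_eq_zero, or_iff_left hz]
    simp only [add_zero, sub_eq_add_neg]
  constructor
  · intro H b
    exact (key b).1 (H b (Finset.mem_univ _))
  · intro H b _
    exact (key b).2 (H b)

theorem crit_inf {e i w : ℕ} {Z : F} (h : Cv K F e i w Z)
    {V : ValuationSubring F} (hV : ∀ c : K, algebraMap K F c ∈ V)
    (hx : V.valuation (xx K F)⁻¹ < 1) (cb : Fin e → RatFunc K) :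
    (∑ b, algebraMap (RatFunc K) F (cb b) * Z ^ (-((b : ℕ) : ℤ))) •
        KaehlerDifferential.D K F (xx K F) ∈ diffOf K F (V : Set F) ↔
      ∀ b, cb b = 0 ∨ ∃ n : ℤ, Ord K (RatFunc.X)⁻¹ (cb b) n ∧
        0 ≤ (e : ℤ) * (n - 2) + (i + w) * (b : ℕ) + e - 1 := by
  obtain ⟨T, u, α, hR, hZ⟩ := ram_inf h
  have hX0 : (RatFunc.X : RatFunc K) ≠ 0 := RatFunc.X_ne_zero
  have hπ0 : ((RatFunc.X : RatFunc K))⁻¹ ≠ 0 := inv_ne_zero hX0
  have hw := h.hw
  have hunit : Ord K (RatFunc.X : RatFunc K)⁻¹ (1 - (RatFunc.X)⁻¹ ^ w) 0 := by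
    refine ⟨1 - X ^ w, 1, ?_, ?_, ?_⟩
    · rw [coeff_sub, coeff_X_pow, if_neg (by omega), coeff_one_zero, sub_zero]
      exact one_ne_zero
    · rw [coeff_one_zero]; exact one_ne_zero
    · rw [zpow_zero, one_mul, map_one, div_one, map_sub, map_pow, aeval_X, map_one]
  have hune : (1 - (RatFunc.X)⁻¹ ^ w : RatFunc K) ≠ 0 := by
    intro h0
    have h1 : (RatFunc.X ^ w - 1 : RatFunc K) ≠ 0 := by
      have h1 : (X ^ w - C 1 : K[X]) ≠ 0 := (monic_X_pow_sub_C (1 : K) hw.ne').ne_zero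
      have h2 := RatFunc.algebraMap_ne_zero (K := K) h1
      rwa [map_sub, map_pow, C_1, map_one, RatFunc.algebraMap_X] at h2
    apply h1
    have h2 : (RatFunc.X : RatFunc K)⁻¹ ^ w = 1 := (sub_eq_zero.1 h0).symm
    rw [inv_pow, inv_eq_one] at h2
    rw [h2, sub_self]
  have e5 : algebraMap (RatFunc K) F (RatFunc.X)⁻¹ = (xx K F)⁻¹ := by
    rw [map_inv₀]; rfl
  have hx0 : xx K F ≠ 0 := by
    unfold xx
    rw [Ne, map_eq_zero]
    exact hX0
  have hx' : V.valuation (algebraMap (RatFunc K) F (RatFunc.X)⁻¹) < 1 := by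
    rw [e5]; exact hx
  have hcr := ram_crit hR hV hx' (Finset.univ : Finset (Fin e))
    (fun b => cb b * (-(RatFunc.X ^ 2) * (1 - (RatFunc.X)⁻¹ ^ w) ^ (-(α * ((b : ℕ) : ℤ)))))
    (fun b => (((i + w : ℕ) : ℤ) * ((b : ℕ) : ℤ))) (by
      intro j _ j' _ hjj hd
      apply hjj
      apply Fin.ext
      exact gc_incong (e := e) (i := i + w) (b := j) (b' := j') h.cw j.2 j'.2 hd)
  have eD : KaehlerDifferential.D K F (xx K F) =
      algebraMap (RatFunc K) F (-(RatFunc.X ^ 2)) •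
        KaehlerDifferential.D K F (algebraMap (RatFunc K) F (RatFunc.X)⁻¹) := by
    rw [e5, Derivation.leibniz_inv, smul_smul, map_neg, map_pow]
    have e6 : (-(algebraMap (RatFunc K) F RatFunc.X) ^ 2 * -(xx K F)⁻¹ ^ 2) = 1 := by
      rw [inv_pow]
      have e7 : algebraMap (RatFunc K) F RatFunc.X = xx K F := rfl
      rw [e7]
      field_simp
    rw [e6, one_smul]
  have e2 : (∑ b : Fin e, algebraMap (RatFunc K) F
      (cb b * (-(RatFunc.X ^ 2) * (1 - (RatFunc.X)⁻¹ ^ w) ^ (-(α * ((b : ℕ) : ℤ))))) *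
        T ^ (((i + w : ℕ) : ℤ) * ((b : ℕ) : ℤ))) =
      (∑ b : Fin e, algebraMap (RatFunc K) F (cb b) * Z ^ (-((b : ℕ) : ℤ))) *
        algebraMap (RatFunc K) F (-(RatFunc.X ^ 2)) := by
    rw [Finset.sum_mul]
    refine Finset.sum_congr rfl fun b _ => ?_
    have e8 : Z ^ (-((b : ℕ) : ℤ)) =
        algebraMap (RatFunc K) F ((1 - (RatFunc.X)⁻¹ ^ w) ^ (-(α * ((b : ℕ) : ℤ)))) *
          T ^ (((i + w : ℕ) : ℤ) * ((b : ℕ) : ℤ)) := by
      rw [hZ, mul_zpow, ← map_zpow₀, ← zpow_mul, ← zpow_mul]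
      congr 2
      · congr 1
        ring
      · push_cast
        ring
    rw [e8, map_mul, map_mul]
    ring
  rw [eD, smul_smul, ← e2, hcr]
  have hX2 : Ord K (RatFunc.X : RatFunc K)⁻¹ (-(RatFunc.X ^ 2)) (-2) := by
    refine ⟨-1, 1, ?_, ?_, ?_⟩
    · simp
    · simp
    · rw [map_one, div_one, map_neg, map_one]
      rw [zpow_neg, inv_zpow, inv_inv]
      have : (RatFunc.X : RatFunc K) ^ (2 : ℤ) = RatFunc.X ^ 2 := by norm_cast
      rw [this]; ring
  have key : ∀ b : Fin e,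
      (cb b * (-(RatFunc.X ^ 2) * (1 - (RatFunc.X)⁻¹ ^ w) ^ (-(α * ((b : ℕ) : ℤ)))) = 0 ∨
      ∃ n : ℤ, Ord K (RatFunc.X)⁻¹
        (cb b * (-(RatFunc.X ^ 2) * (1 - (RatFunc.X)⁻¹ ^ w) ^ (-(α * ((b : ℕ) : ℤ))))) n ∧
        0 ≤ (e : ℤ) * n + (((i + w : ℕ) : ℤ) * ((b : ℕ) : ℤ)) + e - 1) ↔
      (cb b = 0 ∨ ∃ n : ℤ, Ord K (RatFunc.X)⁻¹ (cb b) n ∧
        0 ≤ (e : ℤ) * (n - 2) + (i + w) * (b : ℕ) + e - 1) := by
    intro b
    have hz : (-(RatFunc.X ^ 2) * (1 - (RatFunc.X)⁻¹ ^ w) ^ (-(α * ((b : ℕ) : ℤ))) :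
        RatFunc K) ≠ 0 :=
      mul_ne_zero (neg_ne_zero.2 (pow_ne_zero _ hX0)) (zpow_ne_zero _ hune)
    have hord : Ord K (RatFunc.X : RatFunc K)⁻¹
        (-(RatFunc.X ^ 2) * (1 - (RatFunc.X)⁻¹ ^ w) ^ (-(α * ((b : ℕ) : ℤ)))) (-2) := by
      have := gc_mul hπ0 hX2 (gc_zpow hπ0 hunit (-(α * ((b : ℕ) : ℤ))))
      rwa [add_zero] at this
    rw [gc_iff hπ0 hord hz
      (fun n => 0 ≤ (e : ℤ) * n + (((i + w : ℕ) : ℤ) * ((b : ℕ) : ℤ)) + e - 1)]
    rw [mul_eq_zero, or_iff_left hz]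
    push_cast
    simp only [sub_eq_add_neg]
  constructor
  · intro H b
    exact (key b).1 (H b (Finset.mem_univ _))
  · intro H b _
    exact (key b).2 (H b)

theorem place_cases {e i w : ℕ} {Z : F} (h : Cv K F e i w Z) {V : ValuationSubring F}
    (hV : ∀ c : K, algebraMap K F c ∈ V) :
    V.valuation (xx K F)⁻¹ < 1 ∨
      xx K F ∈ V ∧ (V.valuation (aeval (xx K F) (fP K i w)) = 1 ∨ V.valuation (xx K F) < 1 ∨
        ∃ c : K, c ^ w = 1 ∧ V.valuation (xx K F - algebraMap K F c) < 1) := by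
  by_cases hxV : xx K F ∈ V
  · right
    refine ⟨hxV, ?_⟩
    by_cases h1 : V.valuation (aeval (xx K F) (fP K i w)) = 1
    · exact Or.inl h1
    right
    by_cases h2 : V.valuation (xx K F) < 1
    · exact Or.inl h2
    right
    have hle : V.valuation (xx K F) ≤ 1 := (V.valuation_le_one_iff _).2 hxV
    have hvx : V.valuation (xx K F) = 1 := le_antisymm hle (not_lt.1 h2)
    by_contra hcon
    push Not at hcon
    apply h1
    obtain ⟨ζ, hζ⟩ := h.root
    have e1 : aeval (xx K F) (fP K i w) = xx K F ^ i * ∏ c ∈ nthRootsFinset w (1 : K),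
        (xx K F - algebraMap K F c) := by
      unfold fP
      rw [map_mul, map_pow, aeval_X, X_pow_sub_one_eq_prod h.hw hζ, map_prod]
      congr 1
      refine Finset.prod_congr rfl fun c _ => ?_
      rw [map_sub, aeval_X, aeval_C]
    rw [e1, map_mul, map_pow, hvx, one_pow, one_mul, map_prod]
    apply Finset.prod_eq_one
    intro c hc
    have hc1 : c ^ w = 1 := (mem_nthRootsFinset h.hw (1 : K)).1 hc
    apply le_antisymm
    · exact (V.valuation_le_one_iff _).2 (sub_mem hxV (hV c))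
    · exact hcon c hc1
  · left
    have h1 : 1 < V.valuation (xx K F) := by
      rw [← not_le]
      intro hle
      exact hxV ((V.valuation_le_one_iff _).1 hle)
    rw [map_inv₀]
    exact inv_lt_one_of_one_lt₀ h1

end Pool.SG
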