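import Pool.Agent.Lib.MP_a51fee_ag.SG.Defs

/-!
# The curve `Z ^ e = X ^ i (X ^ w - 1)`: definitions (board SG, geometry)
-/

set_option autoImplicit false

open Polynomial

namespace Pool.SG

/-- `X ^ i (X ^ w - 1)` -/
noncomputable def fP (K : Type) [Field K] (i w : ℕ) : K[X] := X ^ i * (X ^ w - 1)

/-- evaluation of a polynomial in `X` (inner variable) and `Z` (outer variable) at `(x, z)` -/
noncomputable def ev2 (K : Type) [Field K] {S : Type} [CommRing S] [Algebra K S] (x z : S) :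
    K[X][X] →+* S :=
  Polynomial.eval₂RingHom ((Polynomial.aeval x : K[X] →ₐ[K] S) : K[X] →+* S) z

/-- the powers of the uniformiser: `c = π ^ n g(π) / h(π)`, `g(0) h(0) ≠ 0` -/
def Ord (K : Type) [Field K] {E : Type} [Field E] [Algebra K E] (π c : E) (n : ℤ) : Prop :=
  ∃ g h : K[X], g.coeff 0 ≠ 0 ∧ h.coeff 0 ≠ 0 ∧ c = π ^ n * aeval π g / aeval π h

section

variable (K F : Type) [Field K] [Field F] [Algebra K F] [Algebra (RatFunc K) F]

/-- the coordinate function -/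
noncomputable def xx : F := algebraMap (RatFunc K) F RatFunc.X

/-- `F = K(X, Z)` with `Z ^ e = X ^ i (X ^ w - 1)` -/
structure Cv (e i w : ℕ) (Z : F) : Prop where
  he : 1 < e
  hw : 0 < w
  hi : 0 < i
  ci : Nat.Coprime i e
  cw : Nat.Coprime (i + w) e
  ek : (e : K) ≠ 0
  wk : (w : K) ≠ 0
  root : ∃ ζ : K, IsPrimitiveRoot ζ w
  eq : Z ^ e = algebraMap (RatFunc K) F (algebraMap K[X] (RatFunc K) (fP K i w))
  lin : LinearIndependent (RatFunc K) (fun j : Fin e => Z ^ (j : ℕ))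
  span : ∀ y : F, ∃ c : Fin e → RatFunc K, y = ∑ j, algebraMap (RatFunc K) F (c j) * Z ^ (j : ℕ)

/-- data of a totally ramified place: `π` generates `K(X)`, `T ^ e = π u(π)`, `u(0) ≠ 0`,
`F = ∑ K(X) T ^ j`. -/
structure Ram (e : ℕ) (π : RatFunc K) (T : F) (u : K[X]) : Prop where
  he : 1 < e
  ek : (e : K) ≠ 0
  tr : Transcendental K π
  gen : ∀ c : RatFunc K, c ≠ 0 → ∃ n : ℤ, Ord K π c n
  u0 : u.coeff 0 ≠ 0
  eq : T ^ e = algebraMap (RatFunc K) F (π * aeval π u)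
  span : ∀ y : F, ∃ c : Fin e → RatFunc K, y = ∑ j, algebraMap (RatFunc K) F (c j) * T ^ (j : ℕ)
  dpi : KaehlerDifferential.D K F (algebraMap (RatFunc K) F π) ≠ 0

end

/-- the exponents `(a, b)` of the differentials `X ^ a Z ^ (-b) dX` of the first kind -/
def Ix (e i w : ℕ) : Finset (ℕ × ℕ) :=
  ((Finset.range (e * (i + w) + 1)) ×ˢ (Finset.Ico 1 e)).filter fun z =>
    i * z.2 ≤ e * z.1 + e - 1 ∧ e * z.1 + e + 1 ≤ z.2 * (i + w)

end Pool.SG
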