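import Mathlib

/-!
# SG-GDed: valuation rings containing a Dedekind domain

`ded_frac`.  PROOF.  `P := {r : R | V.valuation r < 1}` is a prime ideal of `R`.  If `P = ⊥`: every nonzero
`s ∈ R` has valuation `1`; write `y = a / s` (`IsFractionRing.div_surjective`).  If `P ≠ ⊥`: `R_P` is a
valuation ring (`IsLocalization.AtPrime.isDiscreteValuationRing_of_dedekind_domain`, DVR → valuation
ring); work with `Localization.AtPrime P` mapped to `F`, or directly: for `y ≠ 0` either `y = a / s` or
`y⁻¹ = a / s` with `a, s ∈ R`, `s ∉ P` (`ValuationRing.isInteger_or_isInteger`).  First case: done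
(`V.valuation s = 1` since `s ∈ V`, not `< 1`).  Second case: `a ∉ P`: `y = s / a`, done.  `a ∈ P`:
`V.valuation y⁻¹ < 1`, contradiction with `y ∈ V`.
-/

set_option autoImplicit false

namespace Pool.SG

theorem ded_frac {R F : Type} [CommRing R] [IsDedekindDomain R] [Field F] [Algebra R F]
    [IsFractionRing R F] (V : ValuationSubring F) (hR : ∀ r : R, algebraMap R F r ∈ V) {y : F}
    (hy : y ∈ V) : ∃ a s : R, V.valuation (algebraMap R F s) = 1 ∧
      y * algebraMap R F s = algebraMap R F a := by
  classical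
  have hI0 : FractionalIdeal.spanSingleton (nonZeroDivisors R) (1 : F) +
      FractionalIdeal.spanSingleton (nonZeroDivisors R) y ≠ 0 := by
    intro h
    have h1 : (1 : F) ∈ FractionalIdeal.spanSingleton (nonZeroDivisors R) (1 : F) +
        FractionalIdeal.spanSingleton (nonZeroDivisors R) y := by
      have h2 := FractionalIdeal.mem_spanSingleton_self (nonZeroDivisors R) (1 : F)
      exact (le_sup_left : FractionalIdeal.spanSingleton (nonZeroDivisors R) (1 : F) ≤
        FractionalIdeal.spanSingleton (nonZeroDivisors R) (1 : F) ⊔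
        FractionalIdeal.spanSingleton (nonZeroDivisors R) y) h2
    rw [h] at h1
    exact one_ne_zero ((FractionalIdeal.mem_zero_iff (nonZeroDivisors R)).mp h1)
  set I := FractionalIdeal.spanSingleton (nonZeroDivisors R) (1 : F) +
      FractionalIdeal.spanSingleton (nonZeroDivisors R) y with hI
  have h1I : (1 : F) ∈ I := by
    have h2 := FractionalIdeal.mem_spanSingleton_self (nonZeroDivisors R) (1 : F)
    exact (le_sup_left : FractionalIdeal.spanSingleton (nonZeroDivisors R) (1 : F) ≤
        FractionalIdeal.spanSingleton (nonZeroDivisors R) (1 : F) ⊔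
        FractionalIdeal.spanSingleton (nonZeroDivisors R) y) h2
  have hyI : y ∈ I := by
    have h2 := FractionalIdeal.mem_spanSingleton_self (nonZeroDivisors R) y
    exact (le_sup_right : FractionalIdeal.spanSingleton (nonZeroDivisors R) y ≤
        FractionalIdeal.spanSingleton (nonZeroDivisors R) (1 : F) ⊔
        FractionalIdeal.spanSingleton (nonZeroDivisors R) y) h2
  have hmul : I * I⁻¹ = 1 := mul_inv_cancel₀ hI0
  have hone : (1 : F) ∈ I * I⁻¹ := by
    rw [hmul]
    exact FractionalIdeal.one_mem_one (nonZeroDivisors R)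
  have hone2 : (1 : F) ∈ FractionalIdeal.spanSingleton (nonZeroDivisors R) (1 : F) * I⁻¹ +
      FractionalIdeal.spanSingleton (nonZeroDivisors R) y * I⁻¹ := by
    rw [← add_mul]
    exact hone
  have hone3 : (1 : F) ∈ ((FractionalIdeal.spanSingleton (nonZeroDivisors R) (1 : F) * I⁻¹ :
      FractionalIdeal (nonZeroDivisors R) F) : Submodule R F) ⊔
      ((FractionalIdeal.spanSingleton (nonZeroDivisors R) y * I⁻¹ :
      FractionalIdeal (nonZeroDivisors R) F) : Submodule R F) := by
    rw [← FractionalIdeal.coe_sup]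
    exact hone2
  obtain ⟨s, hs, z, hz, hsz⟩ := Submodule.mem_sup.mp hone3
  obtain ⟨s', hs', hs2⟩ := FractionalIdeal.mem_singleton_mul.mp hs
  obtain ⟨t, ht, hz2⟩ := FractionalIdeal.mem_singleton_mul.mp hz
  rw [one_mul] at hs2
  subst hs2
  subst hz2
  have key : ∀ u ∈ I⁻¹, (∃ r : R, algebraMap R F r = u) ∧ ∃ r : R, algebraMap R F r = y * u := by
    intro u hu
    have h2 := (FractionalIdeal.mem_inv_iff hI0).mp hu
    refine ⟨?_, ?_⟩
    · have h3 := h2 1 h1I
      rw [mul_one] at h3
      exact (FractionalIdeal.mem_one_iff (nonZeroDivisors R)).mp h3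
    · have h3 := h2 y hyI
      rw [mul_comm] at h3
      exact (FractionalIdeal.mem_one_iff (nonZeroDivisors R)).mp h3
  obtain ⟨⟨rs, hrs⟩, rs', hrs'⟩ := key s hs'
  obtain ⟨⟨rt, hrt⟩, rt', hrt'⟩ := key t ht
  have hvs : V.valuation s ≤ 1 := (V.valuation_le_one_iff s).mpr (hrs ▸ hR rs)
  have hvt : V.valuation t ≤ 1 := (V.valuation_le_one_iff t).mpr (hrt ▸ hR rt)
  have hvy : V.valuation y ≤ 1 := (V.valuation_le_one_iff y).mpr hy
  rcases hvs.lt_or_eq with hlt | heq
  · have hyt : V.valuation (y * t) = 1 := by
      have h3 : V.valuation (y * t) = V.valuation (1 - s) := by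
        congr 1
        rw [← hsz]
        ring
      rw [h3]
      have h4 : V.valuation s < V.valuation 1 := by
        rw [map_one]
        exact hlt
      rw [Valuation.map_sub_eq_of_lt_left V.valuation h4, map_one]
    refine ⟨rt', rt, ?_, ?_⟩
    · rw [hrt]
      rw [map_mul] at hyt
      refine le_antisymm hvt ?_
      rw [← hyt]
      calc V.valuation y * V.valuation t ≤ 1 * V.valuation t := by gcongr
        _ = V.valuation t := one_mul _
    · rw [hrt, hrt']
  · exact ⟨rs', rs, by rw [hrs]; exact heq, by rw [hrs, hrs']⟩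

end Pool.SG
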