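import Pool.Agent.Lib.MP_a51fee_ag.SG.GTr
import Pool.Agent.Lib.MP_a51fee_ag.SG.GDed

/-!
# SG-GFrac: denominators at the unramified places

See the header of `GTr` for the proof: `R` = integral closure of `K[X]` in `F` is a Dedekind domain with
fraction field `F` (`integralClosure.isDedekindDomain`, `integralClosure.isFractionRing_of_finite_extension`;
`F / RatFunc K` is finite by `span` and separable: the minimal polynomial of `Z` divides `T^e - f`,
separable because `e f ≠ 0`; generated by `Z`).  Let `V` be a valuation ring with `K ≤ V`, `x ∈ V`,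
`v(f(x)) = 1`.  `R ≤ V` (valuation rings are integrally closed).  For `y ∈ V`: `y s = a` with
`a, s ∈ R`, `v(s) = 1` (`ded_frac`).  Multiply by `f(x)`: by `int_coef` the elements `f(x) a`, `f(x) s`
are `∑_j c_j(x) Z^j = ev2 K x Z (∑_j C (c_j) X^j)`.
-/

set_option autoImplicit false

open Polynomial

namespace Pool.SG

variable {K F : Type} [Field K] [Field F] [Algebra K F] [Algebra (RatFunc K) F]
  [IsScalarTower K (RatFunc K) F]

theorem frac_aeval (g : K[X]) : aeval (xx K F) g =
    algebraMap (RatFunc K) F (algebraMap K[X] (RatFunc K) g) := by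
  induction g using Polynomial.induction_on' with
  | add p q hp hq => rw [map_add, map_add, map_add, hp, hq]
  | monomial n a =>
    rw [aeval_monomial, ← C_mul_X_pow_eq_monomial, map_mul, map_mul, map_pow, map_pow,
      RatFunc.algebraMap_X, RatFunc.algebraMap_C, ← RatFunc.algebraMap_eq_C,
      ← IsScalarTower.algebraMap_apply K (RatFunc K) F]
    rfl

theorem frac_ev2 {ι : Type} [Fintype ι] (x Z : F) (c : ι → K[X]) (n : ι → ℕ) :
    ev2 K x Z (∑ j, C (c j) * X ^ (n j)) = ∑ j, aeval x (c j) * Z ^ (n j) := by
  simp [ev2]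

theorem frac_fd {e i w : ℕ} {Z : F} (h : Cv K F e i w Z) : FiniteDimensional (RatFunc K) F := by
  refine Module.Finite.of_surjective
    (Fintype.linearCombination (RatFunc K) (fun j : Fin e => Z ^ (j : ℕ))) ?_
  intro y
  obtain ⟨c, hc⟩ := h.span y
  refine ⟨c, ?_⟩
  rw [hc, Fintype.linearCombination_apply]
  exact Finset.sum_congr rfl fun j _ => Algebra.smul_def _ _

theorem frac_sep {e i w : ℕ} {Z : F} (h : Cv K F e i w Z) : Algebra.IsSeparable (RatFunc K) F := by
  have := frac_fd h
  have hfne : algebraMap K[X] (RatFunc K) (fP K i w) ≠ 0 := by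
    rw [Ne, IsFractionRing.to_map_eq_zero_iff]
    rw [fP]
    refine mul_ne_zero (pow_ne_zero _ X_ne_zero) ?_
    exact (monic_X_pow_sub_C (1 : K) h.hw.ne').ne_zero
  have hek : ((e : ℕ) : RatFunc K) ≠ 0 := by
    intro hh
    apply h.ek
    have : algebraMap K (RatFunc K) (e : K) = 0 := by rw [map_natCast]; exact hh
    exact (map_eq_zero (algebraMap K (RatFunc K))).1 this
  have hZ : IsSeparable (RatFunc K) Z := by
    refine Polynomial.Separable.of_dvd
      (Polynomial.separable_X_pow_sub_C (algebraMap K[X] (RatFunc K) (fP K i w)) hek hfne) ?_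
    apply minpoly.dvd
    rw [map_sub, map_pow, aeval_X, aeval_C, h.eq, sub_self]
  constructor
  intro y
  obtain ⟨c, hc⟩ := h.span y
  rw [← mem_separableClosure_iff, hc]
  have hZ' : Z ∈ separableClosure (RatFunc K) F := mem_separableClosure_iff.2 hZ
  exact sum_mem fun j _ => mul_mem (IntermediateField.algebraMap_mem _ _) (pow_mem hZ' _)

theorem unram_frac {e i w : ℕ} {Z : F} (h : Cv K F e i w Z) {V : ValuationSubring F}
    (hV : ∀ c : K, algebraMap K F c ∈ V) (hx : xx K F ∈ V)
    (hf : V.valuation (aeval (xx K F) (fP K i w)) = 1) {y : F} (hy : y ∈ V) :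
    ∃ a s : K[X][X], V.valuation (ev2 K (xx K F) Z s) = 1 ∧
      y * ev2 K (xx K F) Z s = ev2 K (xx K F) Z a := by
  have hfd := frac_fd h
  have hsep := frac_sep h
  letI : Algebra K[X] F := ((algebraMap (RatFunc K) F).comp (algebraMap K[X] (RatFunc K))).toAlgebra
  haveI : IsScalarTower K[X] (RatFunc K) F := IsScalarTower.of_algebraMap_eq fun _ => rfl
  have halg : ((aeval (xx K F) : K[X] →ₐ[K] F) : K[X] →+* F) = algebraMap K[X] F :=
    RingHom.ext fun g => frac_aeval g
  haveI : IsDedekindDomain (integralClosure K[X] F) :=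
    integralClosure.isDedekindDomain K[X] (RatFunc K) F
  haveI : IsFractionRing (integralClosure K[X] F) F :=
    integralClosure.isFractionRing_of_finite_extension (RatFunc K) F
  have hKV : ∀ g : K[X], aeval (xx K F) g ∈ V := by
    intro g
    rw [aeval_eq_sum_range]
    refine sum_mem fun j _ => ?_
    rw [Algebra.smul_def]
    exact mul_mem (hV _) (pow_mem hx _)
  have hR : ∀ r : integralClosure K[X] F, algebraMap (integralClosure K[X] F) F r ∈ V := by
    rintro ⟨r, p, hp, hpr⟩
    change r ∈ V
    rw [← ValuationSubring.valuation_le_one_iff]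
    by_contra hlt
    rw [not_le] at hlt
    have h1 : aeval r p = 0 := hpr
    rw [aeval_eq_sum_range, Finset.sum_range_succ] at h1
    have hlead : (p.coeff p.natDegree) = 1 := hp
    rw [hlead, one_smul] at h1
    have h2 : V.valuation (∑ j ∈ Finset.range p.natDegree, p.coeff j • r ^ j) <
        V.valuation (r ^ p.natDegree) := by
      refine Valuation.map_sum_lt _ ?_ fun j hj => ?_
      · rw [map_pow]
        exact pow_ne_zero _ (zero_lt_one.trans hlt).ne'
      · rw [Finset.mem_range] at hj
        rw [Algebra.smul_def, map_mul, map_pow, map_pow]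
        have hc : V.valuation (algebraMap K[X] F (p.coeff j)) ≤ 1 := by
          rw [ValuationSubring.valuation_le_one_iff]
          have := hKV (p.coeff j)
          rwa [frac_aeval] at this
        calc V.valuation (algebraMap K[X] F (p.coeff j)) * V.valuation r ^ j
            ≤ 1 * V.valuation r ^ j := mul_le_mul_left hc _
          _ = V.valuation r ^ j := one_mul _
          _ < V.valuation r ^ p.natDegree := pow_lt_pow_right₀ hlt hj
    have h3 : r ^ p.natDegree = -(∑ j ∈ Finset.range p.natDegree, p.coeff j • r ^ j) := by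
      linear_combination h1
    rw [h3, Valuation.map_neg] at h2
    exact lt_irrefl _ h2
  obtain ⟨a, s, hs, has⟩ := ded_frac V hR hy
  have hint : ∀ r : integralClosure K[X] F,
      ∃ c : Fin e → K[X], aeval (xx K F) (fP K i w) * (r : F) =
        ∑ j, aeval (xx K F) (c j) * Z ^ (j : ℕ) := by
    intro r
    refine int_coef h ?_
    rw [halg]
    exact r.2
  obtain ⟨ca, hca⟩ := hint a
  obtain ⟨cs, hcs⟩ := hint s
  refine ⟨∑ j, C (ca j) * X ^ (j : ℕ), ∑ j, C (cs j) * X ^ (j : ℕ), ?_, ?_⟩
  · rw [frac_ev2, ← hcs, map_mul, hf, one_mul]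
    exact hs
  · rw [frac_ev2, frac_ev2, ← hca, ← hcs]
    have has' : y * (s : F) = (a : F) := has
    rw [← has']
    ring

end Pool.SG
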