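import Pool.Agent.Lib.MP_a51fee_ag.SG.GD

/-!
# SG-GOm: the differentials of `F / K`

Let `h : Cv K F e i w Z`, `x = xx K F`, `D = KaehlerDifferential.D K F`.

PROOFS.
* `cv_D_aeval`: `D (aeval x g) = aeval x (derivative g) • D x` (`Derivation.map_aeval` or induction).
* `cv_D_rat`: for `c : RatFunc K` there is `c'` with `D c = c' • D x` (quotient rule for `g(x)/h(x)`).
* `cv_DZ`: `e Z^{e-1} • D Z = f'(x) • D x`, so `D Z = (f'(x) / (e Z^{e-1})) • D x`, `f' = derivative (fP K i w)`.
* `cv_span`: every `ω : Ω[F⁄K]` is `y • D x`: `Ω` is spanned over `F` by the `D y`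
  (`KaehlerDifferential.span_range_derivation`), `y = ∑ c_j Z^j` (`span`), Leibniz.
* `cv_Dx_ne`: if `D x = 0` then by `cv_span` every `ω = 0`, so `Ω[F⁄K]` is a subsingleton, i.e. `F/K` is
  formally unramified (`Algebra.FormallyUnramified`, `⟨..⟩`); `F / K` is essentially of finite type
  (generated as a field by `x, Z`; `Algebra.EssFiniteType`, e.g. finite over `RatFunc K`, which is a
  localisation of `K[X]`; `Algebra.EssFiniteType.comp`), so `Algebra.FormallyUnramified.iff_isSeparable`
  shows `F/K` algebraic, but `x` is transcendental over `K` (`RatFunc.X` is transcendental and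
  `algebraMap (RatFunc K) F` is injective).  Contradiction.
-/

set_option autoImplicit false

open Polynomial

namespace Pool.SG

variable {K F : Type} [Field K] [Field F] [Algebra K F] [Algebra (RatFunc K) F]
  [IsScalarTower K (RatFunc K) F]

private theorem go_aeval (g : K[X]) :
    algebraMap (RatFunc K) F (algebraMap K[X] (RatFunc K) g) = aeval (xx K F) g := by
  have h1 : algebraMap K[X] (RatFunc K) g = aeval (RatFunc.X : RatFunc K) g := by
    rw [RatFunc.aeval_X_left_eq_algebraMap]
  rw [h1, xx]
  have := Polynomial.aeval_algebraMap_apply F (RatFunc.X : RatFunc K) g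
  exact this.symm

theorem cv_tr {e i w : ℕ} {Z : F} (_h : Cv K F e i w Z) : Transcendental K (xx K F) := by
  rw [xx, transcendental_algebraMap_iff (algebraMap (RatFunc K) F).injective]
  exact RatFunc.transcendental_X

theorem cv_D_aeval {e i w : ℕ} {Z : F} (_h : Cv K F e i w Z) (g : K[X]) :
    KaehlerDifferential.D K F (aeval (xx K F) g) =
      aeval (xx K F) (derivative g) • KaehlerDifferential.D K F (xx K F) :=
  Derivation.map_aeval _ g (xx K F)

private theorem go_Z {e i w : ℕ} {Z : F} (h : Cv K F e i w Z) : Z ≠ 0 := by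
  have h1 := h.lin.ne_zero (⟨1, h.he⟩ : Fin e)
  simpa using h1

private theorem go_e {e i w : ℕ} {Z : F} (h : Cv K F e i w Z) : (e : F) ≠ 0 := by
  have h1 : algebraMap K F (e : K) ≠ 0 := by
    rw [Ne, FaithfulSMul.algebraMap_eq_zero_iff]
    exact h.ek
  rwa [map_natCast] at h1

theorem cv_DZ {e i w : ℕ} {Z : F} (h : Cv K F e i w Z) :
    KaehlerDifferential.D K F Z =
      (aeval (xx K F) (derivative (fP K i w)) / ((e : F) * Z ^ (e - 1))) •
        KaehlerDifferential.D K F (xx K F) := by
  have hZ := go_Z h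
  have he := go_e h
  have h1 : KaehlerDifferential.D K F (Z ^ e) =
      aeval (xx K F) (derivative (fP K i w)) • KaehlerDifferential.D K F (xx K F) := by
    rw [h.eq, go_aeval, cv_D_aeval h]
  rw [Derivation.leibniz_pow, ← Nat.cast_smul_eq_nsmul F, smul_smul] at h1
  have hne : (e : F) * Z ^ (e - 1) ≠ 0 := mul_ne_zero he (pow_ne_zero _ hZ)
  rw [div_eq_mul_inv, mul_comm, mul_smul, ← h1, smul_smul, inv_mul_cancel₀ hne, one_smul]

private theorem go_D_rat {e i w : ℕ} {Z : F} (h : Cv K F e i w Z) (c : RatFunc K) :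
    ∃ y : F, KaehlerDifferential.D K F (algebraMap (RatFunc K) F c) =
      y • KaehlerDifferential.D K F (xx K F) := by
  rw [← RatFunc.num_div_denom c, map_div₀, go_aeval, go_aeval, Derivation.leibniz_div,
    cv_D_aeval h, cv_D_aeval h, smul_smul, smul_smul, ← sub_smul, smul_smul]
  exact ⟨_, rfl⟩

private theorem go_D {e i w : ℕ} {Z : F} (h : Cv K F e i w Z) (y : F) :
    KaehlerDifferential.D K F y ∈
      Submodule.span F {KaehlerDifferential.D K F (xx K F)} := by
  obtain ⟨c, rfl⟩ := h.span y
  rw [map_sum]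
  apply Submodule.sum_mem
  intro j _
  rw [Derivation.leibniz]
  apply Submodule.add_mem
  · apply Submodule.smul_mem
    rw [Derivation.leibniz_pow]
    apply Submodule.smul_of_tower_mem
    apply Submodule.smul_mem
    rw [cv_DZ h]
    exact Submodule.smul_mem _ _ (Submodule.mem_span_singleton_self _)
  · apply Submodule.smul_mem
    obtain ⟨z, hz⟩ := go_D_rat h (c j)
    rw [hz]
    exact Submodule.smul_mem _ _ (Submodule.mem_span_singleton_self _)

theorem cv_span {e i w : ℕ} {Z : F} (h : Cv K F e i w Z) (ω : Ω[F⁄K]) :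
    ∃ y : F, ω = y • KaehlerDifferential.D K F (xx K F) := by
  have h1 : Submodule.span F (Set.range (KaehlerDifferential.D K F)) ≤
      Submodule.span F {KaehlerDifferential.D K F (xx K F)} := by
    rw [Submodule.span_le]
    rintro _ ⟨y, rfl⟩
    exact go_D h y
  have h2 : ω ∈ Submodule.span F {KaehlerDifferential.D K F (xx K F)} := by
    apply h1
    rw [KaehlerDifferential.span_range_derivation]
    exact Submodule.mem_top
  obtain ⟨y, hy⟩ := Submodule.mem_span_singleton.1 h2
  exact ⟨y, hy.symm⟩

theorem cv_Dx_ne {e i w : ℕ} {Z : F} (h : Cv K F e i w Z) :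
    KaehlerDifferential.D K F (xx K F) ≠ 0 := by
  intro h0
  have hsub : Subsingleton (Ω[F⁄K]) := by
    refine ⟨fun a b => ?_⟩
    obtain ⟨y, rfl⟩ := cv_span h a
    obtain ⟨z, rfl⟩ := cv_span h b
    rw [h0, smul_zero, smul_zero]
  have hun : Algebra.FormallyUnramified K F := ⟨hsub⟩
  have hfin : Module.Finite (RatFunc K) F := by
    classical
    refine ⟨⟨Finset.univ.image (fun j : Fin e => Z ^ (j : ℕ)), ?_⟩⟩
    rw [eq_top_iff]
    rintro y -
    obtain ⟨c, rfl⟩ := h.span y
    apply Submodule.sum_mem
    intro j _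
    rw [← Algebra.smul_def]
    apply Submodule.smul_mem
    apply Submodule.subset_span
    exact Finset.mem_coe.2 (Finset.mem_image_of_mem _ (Finset.mem_univ j))
  have e1 : Algebra.EssFiniteType (RatFunc K) F := inferInstance
  have e2 : Algebra.EssFiniteType K (RatFunc K) := by
    have e3 : Algebra.EssFiniteType K[X] (RatFunc K) :=
      Algebra.EssFiniteType.of_isLocalization (RatFunc K) (nonZeroDivisors K[X])
    exact Algebra.EssFiniteType.comp K K[X] (RatFunc K)
  have e4 : Algebra.EssFiniteType K F := Algebra.EssFiniteType.comp K (RatFunc K) F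
  have hsep : Algebra.IsSeparable K F := (Algebra.FormallyUnramified.iff_isSeparable K F).1 hun
  exact cv_tr h (Algebra.IsAlgebraic.isAlgebraic (xx K F))

end Pool.SG
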