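import Pool.Agent.Lib.MP_a51fee_ag.SG.GD

/-!
# SG-GRamVal: the valuation at a totally ramified place

Setting: `h : Ram K F e π T u`; `V` a valuation subring of `F` with `K ⊆ V` and
`V.valuation (algebraMap π) < 1`.  Write `t := algebraMap (RatFunc K) F π` and `v := V.valuation`
(multiplicative, `v y ≤ 1 ↔ y ∈ V`).

PROOFS.
* `ram_unit`: `g(π) - g(0) = π q(π)`; `π ∈ V` so `q(π) ∈ V` (polynomials over `K` in an element of `V`)
  and `v (g(π) - g(0)) < 1`; `g(0) ∈ K^*` has valuation `1` (it and its inverse are in `V`); hence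
  `v (g(π)) = 1` (`Valuation.map_sub_eq_of_lt_left` or similar).
* `ram_vT`: `v(T) ^ e = v(π) v(u(π)) = v(π)`, so `v(T) < 1`; `T ≠ 0`, `v(T) ≠ 0`.
* `ram_ord`: `Ord K π c n → v(c) = v(T) ^ (e n)` (integer powers), from `ram_unit`, `ram_vT`.
* `ram_mem`: the nonzero terms `c_j T ^ (a j)` have valuation `v(T) ^ (e n_j + a j)` with exponents
  pairwise distinct (they are pairwise incongruent mod `e`); as `0 < v(T) < 1`, integer powers of `v(T)`
  are distinct for distinct exponents, and the valuation of the sum is the maximum of the valuations of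
  the terms (`Valuation.map_sum_eq_of_lt` or induction: if all terms have distinct valuations then
  `v (∑) = max`).  So the sum is in `V` iff every term is, i.e. iff `v(T) ^ (e n_j + a j) ≤ 1`, i.e. iff
  `0 ≤ e n_j + a j`.  (If `n` and `n'` both satisfy `Ord` for the same `c` then
  `v(T) ^ (e n) = v(T) ^ (e n')`, so `n = n'`.)
* `ram_sum_ne`: a sum of nonzero terms with pairwise incongruent exponents is not `0` (its valuation is
  the maximum, not `0`) — used for uniqueness of coefficients.
-/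

set_option autoImplicit false

open Polynomial

namespace Pool.SG

variable {K F : Type} [Field K] [Field F] [Algebra K F] [Algebra (RatFunc K) F]
  [IsScalarTower K (RatFunc K) F]

omit [Algebra (RatFunc K) F] [IsScalarTower K (RatFunc K) F] in
private theorem grv_const {V : ValuationSubring F} (hV : ∀ c : K, algebraMap K F c ∈ V) {c : K}
    (hc : c ≠ 0) : V.valuation (algebraMap K F c) = 1 := by
  have h1 : V.valuation (algebraMap K F c) ≤ 1 := (V.valuation_le_one_iff _).2 (hV c)
  have h2 : V.valuation (algebraMap K F c⁻¹) ≤ 1 := (V.valuation_le_one_iff _).2 (hV c⁻¹)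
  rw [map_inv₀, map_inv₀] at h2
  have h3 : V.valuation (algebraMap K F c) ≠ 0 := by
    rw [_root_.map_ne_zero, _root_.map_ne_zero]
    exact hc
  exact le_antisymm h1 ((inv_le_one₀ (zero_lt_iff.2 h3)).1 h2)

omit [Algebra (RatFunc K) F] [IsScalarTower K (RatFunc K) F] in
private theorem grv_aeval {V : ValuationSubring F} (hV : ∀ c : K, algebraMap K F c ∈ V) {t : F}
    (ht : t ∈ V) (g : K[X]) : aeval t g ∈ V := by
  induction g using Polynomial.induction_on' with
  | add p q hp hq => rw [map_add]; exact V.add_mem _ _ hp hq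
  | monomial n a =>
    rw [aeval_monomial]
    exact V.mul_mem _ _ (hV a) (pow_mem ht n)

private theorem grv_max {V : ValuationSubring F} {ι : Type} (f : ι → F) (s : Finset ι)
    (hd : ∀ j ∈ s, ∀ j' ∈ s, j ≠ j' → V.valuation (f j) = V.valuation (f j') →
      V.valuation (f j) = 0) :
    (∀ j ∈ s, V.valuation (f j) ≤ V.valuation (∑ j ∈ s, f j)) ∧
      (V.valuation (∑ j ∈ s, f j) = 0 ∨
        ∃ j ∈ s, V.valuation (f j) = V.valuation (∑ j ∈ s, f j)) := by
  classical
  induction s using Finset.induction_on with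
  | empty => simp
  | insert a s ha ih =>
    obtain ⟨ih1, ih2⟩ := ih fun j hj j' hj' =>
      hd j (Finset.mem_insert_of_mem hj) j' (Finset.mem_insert_of_mem hj')
    rw [Finset.sum_insert ha]
    rcases lt_trichotomy (V.valuation (f a)) (V.valuation (∑ j ∈ s, f j)) with h | h | h
    · have h1 : V.valuation (f a + ∑ j ∈ s, f j) = V.valuation (∑ j ∈ s, f j) := by
        rw [add_comm]
        exact Valuation.map_add_eq_of_lt_left _ h
      rw [h1]
      refine ⟨?_, ?_⟩
      · intro j hj
        rcases Finset.mem_insert.1 hj with rfl | hj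
        · exact h.le
        · exact ih1 j hj
      · rcases ih2 with h2 | ⟨j, hj, h2⟩
        · exact Or.inl h2
        · exact Or.inr ⟨j, Finset.mem_insert_of_mem hj, h2⟩
    · have h0 : V.valuation (∑ j ∈ s, f j) = 0 := by
        rcases ih2 with h2 | ⟨j, hj, h2⟩
        · exact h2
        · have hne : a ≠ j := by
            rintro rfl
            exact ha hj
          have h3 := hd a (Finset.mem_insert_self a s) j (Finset.mem_insert_of_mem hj) hne
            (h.trans h2.symm)
          rw [← h, h3]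
      have h1 : f a = 0 := by
        rw [h0] at h
        exact (Valuation.zero_iff _).1 h
      rw [h1, zero_add, h0]
      refine ⟨?_, Or.inl rfl⟩
      intro j hj
      rcases Finset.mem_insert.1 hj with rfl | hj
      · rw [h1, map_zero]
      · rw [← h0]
        exact ih1 j hj
    · have h1 : V.valuation (f a + ∑ j ∈ s, f j) = V.valuation (f a) := by
        rw [add_comm]
        exact Valuation.map_add_eq_of_lt_right _ h
      rw [h1]
      refine ⟨?_, Or.inr ⟨a, Finset.mem_insert_self a s, rfl⟩⟩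
      intro j hj
      rcases Finset.mem_insert.1 hj with rfl | hj
      · exact le_rfl
      · exact (ih1 j hj).trans h.le

theorem ram_unit {e : ℕ} {π : RatFunc K} {T : F} {u : K[X]} (_h : Ram K F e π T u)
    {V : ValuationSubring F} (hV : ∀ c : K, algebraMap K F c ∈ V)
    (hπ : V.valuation (algebraMap (RatFunc K) F π) < 1) {g : K[X]} (hg : g.coeff 0 ≠ 0) :
    V.valuation (algebraMap (RatFunc K) F (aeval π g)) = 1 := by
  set t := algebraMap (RatFunc K) F π with ht
  have h0 : algebraMap (RatFunc K) F (aeval π g) = aeval t g :=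
    (Polynomial.aeval_algebraMap_apply F π g).symm
  have h1 : aeval t g = aeval t (divX g) * t + algebraMap K F (g.coeff 0) := by
    conv_lhs => rw [← divX_mul_X_add g]
    rw [map_add, map_mul, aeval_X, aeval_C]
  have htV : t ∈ V := (V.valuation_le_one_iff _).1 hπ.le
  have h2 : V.valuation (aeval t (divX g)) ≤ 1 :=
    (V.valuation_le_one_iff _).2 (grv_aeval hV htV _)
  have h3 : V.valuation (aeval t (divX g) * t) < V.valuation (algebraMap K F (g.coeff 0)) := by
    rw [grv_const hV hg, map_mul]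
    calc V.valuation (aeval t (divX g)) * V.valuation t ≤ 1 * V.valuation t :=
          mul_le_mul_left h2 _
      _ = V.valuation t := one_mul _
      _ < 1 := hπ
  rw [h0, h1, add_comm, Valuation.map_add_eq_of_lt_left _ h3, grv_const hV hg]

theorem ram_vT {e : ℕ} {π : RatFunc K} {T : F} {u : K[X]} (h : Ram K F e π T u)
    {V : ValuationSubring F} (hV : ∀ c : K, algebraMap K F c ∈ V)
    (hπ : V.valuation (algebraMap (RatFunc K) F π) < 1) :
    V.valuation T ^ e = V.valuation (algebraMap (RatFunc K) F π) ∧ V.valuation T < 1 ∧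
      V.valuation T ≠ 0 := by
  have h1 : V.valuation T ^ e = V.valuation (algebraMap (RatFunc K) F π) := by
    rw [← map_pow, h.eq, map_mul, map_mul, ram_unit h hV hπ h.u0, mul_one]
  have hπ0 : π ≠ 0 := by
    intro h0
    apply h.tr
    rw [h0]
    exact isAlgebraic_zero
  refine ⟨h1, ?_, ?_⟩
  · by_contra hc
    rw [not_lt] at hc
    have h2 : 1 ≤ V.valuation T ^ e := one_le_pow_of_one_le' hc e
    rw [h1] at h2
    exact absurd hπ (not_lt.2 h2)
  · intro h0
    rw [h0, zero_pow (by have := h.he; omega)] at h1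
    have h2 : V.valuation (algebraMap (RatFunc K) F π) ≠ 0 := by
      rw [_root_.map_ne_zero, _root_.map_ne_zero]
      exact hπ0
    exact h2 h1.symm

theorem ram_ord {e : ℕ} {π : RatFunc K} {T : F} {u : K[X]} (h : Ram K F e π T u)
    {V : ValuationSubring F} (hV : ∀ c : K, algebraMap K F c ∈ V)
    (hπ : V.valuation (algebraMap (RatFunc K) F π) < 1) {c : RatFunc K} {n : ℤ}
    (hc : Ord K π c n) :
    V.valuation (algebraMap (RatFunc K) F c) = V.valuation T ^ ((e : ℤ) * n) := by
  obtain ⟨g, g', hg, hg', hc⟩ := hc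
  rw [hc, map_div₀, map_div₀, map_mul, map_mul, ram_unit h hV hπ hg, ram_unit h hV hπ hg', div_one,
    mul_one, map_zpow₀, map_zpow₀, ← (ram_vT h hV hπ).1, zpow_mul, zpow_natCast]

private theorem grv_inj {e : ℕ} {π : RatFunc K} {T : F} {u : K[X]} (h : Ram K F e π T u)
    {V : ValuationSubring F} (hV : ∀ c : K, algebraMap K F c ∈ V)
    (hπ : V.valuation (algebraMap (RatFunc K) F π) < 1) {m n : ℤ}
    (hmn : V.valuation T ^ m = V.valuation T ^ n) : m = n := by
  obtain ⟨-, h1, h2⟩ := ram_vT h hV hπ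
  exact zpow_right_injective₀ (zero_lt_iff.2 h2) h1.ne hmn

private theorem grv_term {e : ℕ} {π : RatFunc K} {T : F} {u : K[X]} (h : Ram K F e π T u)
    {V : ValuationSubring F} (hV : ∀ c : K, algebraMap K F c ∈ V)
    (hπ : V.valuation (algebraMap (RatFunc K) F π) < 1) {c : RatFunc K} {n : ℤ}
    (hc : Ord K π c n) (a : ℤ) :
    V.valuation (algebraMap (RatFunc K) F c * T ^ a) = V.valuation T ^ ((e : ℤ) * n + a) := by
  rw [map_mul, ram_ord h hV hπ hc, map_zpow₀, zpow_add₀ (ram_vT h hV hπ).2.2]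

private theorem grv_zero {e : ℕ} {π : RatFunc K} {T : F} {u : K[X]} (h : Ram K F e π T u)
    {V : ValuationSubring F} (hV : ∀ c : K, algebraMap K F c ∈ V)
    (hπ : V.valuation (algebraMap (RatFunc K) F π) < 1) {c : RatFunc K} (a : ℤ)
    (h0 : V.valuation (algebraMap (RatFunc K) F c * T ^ a) = 0) : c = 0 := by
  by_contra hc
  obtain ⟨n, hn⟩ := h.gen c hc
  rw [grv_term h hV hπ hn a] at h0
  exact zpow_ne_zero _ (ram_vT h hV hπ).2.2 h0

private theorem grv_dist {e : ℕ} {π : RatFunc K} {T : F} {u : K[X]} (h : Ram K F e π T u)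
    {V : ValuationSubring F} (hV : ∀ c : K, algebraMap K F c ∈ V)
    (hπ : V.valuation (algebraMap (RatFunc K) F π) < 1) {ι : Type} (s : Finset ι)
    (c : ι → RatFunc K) (a : ι → ℤ)
    (ha : ∀ j ∈ s, ∀ j' ∈ s, j ≠ j' → ¬ (e : ℤ) ∣ a j - a j') :
    ∀ j ∈ s, ∀ j' ∈ s, j ≠ j' → V.valuation (algebraMap (RatFunc K) F (c j) * T ^ a j) =
      V.valuation (algebraMap (RatFunc K) F (c j') * T ^ a j') →
      V.valuation (algebraMap (RatFunc K) F (c j) * T ^ a j) = 0 := by
  intro j hj j' hj' hne heq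
  by_cases hc : c j = 0
  · rw [hc, map_zero, zero_mul, map_zero]
  · exfalso
    have hc' : c j' ≠ 0 := by
      intro h0
      rw [h0, map_zero, zero_mul, map_zero] at heq
      exact hc (grv_zero h hV hπ _ heq)
    obtain ⟨n, hn⟩ := h.gen _ hc
    obtain ⟨n', hn'⟩ := h.gen _ hc'
    rw [grv_term h hV hπ hn, grv_term h hV hπ hn'] at heq
    have h1 := grv_inj h hV hπ heq
    exact ha j hj j' hj' hne ⟨n' - n, by linear_combination h1⟩

theorem ram_mem {e : ℕ} {π : RatFunc K} {T : F} {u : K[X]} (h : Ram K F e π T u)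
    {V : ValuationSubring F} (hV : ∀ c : K, algebraMap K F c ∈ V)
    (hπ : V.valuation (algebraMap (RatFunc K) F π) < 1) {ι : Type} (s : Finset ι)
    (c : ι → RatFunc K) (a : ι → ℤ)
    (ha : ∀ j ∈ s, ∀ j' ∈ s, j ≠ j' → ¬ (e : ℤ) ∣ a j - a j') :
    (∑ j ∈ s, algebraMap (RatFunc K) F (c j) * T ^ a j) ∈ V ↔
      ∀ j ∈ s, c j = 0 ∨ ∃ n : ℤ, Ord K π (c j) n ∧ 0 ≤ (e : ℤ) * n + a j := by
  obtain ⟨-, hT1, hT0⟩ := ram_vT h hV hπ
  constructor
  · intro hmem j hj
    have h1 := (grv_max (V := V) _ s (grv_dist h hV hπ s c a ha)).1 j hj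
    by_cases hc : c j = 0
    · exact Or.inl hc
    · right
      obtain ⟨n, hn⟩ := h.gen _ hc
      refine ⟨n, hn, ?_⟩
      have h2 := h1.trans ((V.valuation_le_one_iff _).2 hmem)
      rw [grv_term h hV hπ hn] at h2
      by_contra hneg
      rw [not_le] at hneg
      have h3 : 1 < V.valuation T ^ ((e : ℤ) * n + a j) :=
        one_lt_zpow_of_neg₀ (zero_lt_iff.2 hT0) hT1 hneg
      exact absurd h2 (not_le.2 h3)
  · intro hall
    refine sum_mem fun j hj => ?_
    rcases hall j hj with h0 | ⟨n, hn, hpos⟩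
    · rw [h0, map_zero, zero_mul]
      exact V.zero_mem
    · rw [← V.valuation_le_one_iff, grv_term h hV hπ hn]
      exact zpow_le_one₀ (zero_lt_iff.2 hT0) hT1.le hpos

theorem ram_sum_ne {e : ℕ} {π : RatFunc K} {T : F} {u : K[X]} (h : Ram K F e π T u)
    {V : ValuationSubring F} (hV : ∀ c : K, algebraMap K F c ∈ V)
    (hπ : V.valuation (algebraMap (RatFunc K) F π) < 1) {ι : Type} (s : Finset ι)
    (c : ι → RatFunc K) (a : ι → ℤ)
    (ha : ∀ j ∈ s, ∀ j' ∈ s, j ≠ j' → ¬ (e : ℤ) ∣ a j - a j')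
    (h0 : (∑ j ∈ s, algebraMap (RatFunc K) F (c j) * T ^ a j) = 0) : ∀ j ∈ s, c j = 0 := by
  intro j hj
  have h1 := (grv_max (V := V) _ s (grv_dist h hV hπ s c a ha)).1 j hj
  rw [h0, map_zero] at h1
  exact grv_zero h hV hπ _ (le_antisymm h1 zero_le)

end Pool.SG
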