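import Pool.Agent.Lib.MP_a51fee_ag.SG.GD

/-!
# SG-GTr: integral elements of `F`

`int_coef`.  Let `E = RatFunc K`, `f = fP K i w`, `x = xx K F`.  `y` is integral over `K[x]`.  Write
`y = ∑_{j<e} d_j Z^j`, `d_j ∈ E` (`span`).  For each `j` consider `y Z^{e-j}`, integral over `K[x]`
(`Z^e = f(x)`, so `Z` is integral).  Its trace over `E` is integral over `K[X]`, hence in `K[X]`
(`K[X]` is integrally closed in `E`); the trace is `e d_j f` (the trace of `Z^m` is `0` if `e` does not divide
`m`, and `e f^{m/e}` otherwise).  As `e ≠ 0` in `K`: `f d_j ∈ K[X]`.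
Instead of the trace one may use: the basis `Z^0, .., Z^{e-1}` (`lin`, `span`), the matrix of
multiplication by `y Z^{e-j}`, `Algebra.trace`, `Algebra.isIntegral_trace` (needs `Algebra K[X] F`:
define it locally as `((algebraMap E F).comp (algebraMap K[X] E)).toAlgebra`, scalar towers by
`IsScalarTower.of_algebraMap_eq`).  `FiniteDimensional E F` from `span`.

`cv_ded`: `R` = integral closure of `K[X]` in `F` is a Dedekind domain with fraction field `F`
(`integralClosure.isDedekindDomain`, `integralClosure.isFractionRing_of_finite_extension`; `F/E`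
is separable since the minimal polynomial of `Z` divides `T^e - f`, separable as `e f ≠ 0`).

`unram_frac`: let `V ∋ x`, `K ≤ V`, `v(f(x)) = 1`.  `R ≤ V` (valuation rings are integrally closed).
`y ∈ V`: `y s = a`, `a, s ∈ R`, `v(s) = 1` (`ded_frac`); multiply by `f(x)` and use `int_coef`:
`f(x) a`, `f(x) s` are values of `ev2`.
-/

set_option autoImplicit false

open Polynomial

namespace Pool.SG

variable {K F : Type} [Field K] [Field F] [Algebra K F] [Algebra (RatFunc K) F]
  [IsScalarTower K (RatFunc K) F]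

omit [Algebra K F] [IsScalarTower K (RatFunc K) F] in
private theorem tr_zero {e : ℕ} {Z : F} {g : RatFunc K} (hZ : Z ^ e = algebraMap (RatFunc K) F g)
    (b : Module.Basis (Fin e) (RatFunc K) F) (hb : ∀ j, b j = Z ^ (j : ℕ)) {m : ℕ} (h0 : 0 < m)
    (hm : m < e) : Algebra.trace (RatFunc K) F (Z ^ m) = 0 := by
  classical
  rw [Algebra.trace_eq_matrix_trace b, Matrix.trace]
  apply Finset.sum_eq_zero
  intro j _
  rw [Matrix.diag_apply, Algebra.leftMulMatrix_eq_repr_mul, hb, ← pow_add]
  by_cases hj : m + (j : ℕ) < e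
  · have h1 : Z ^ (m + (j : ℕ)) = b ⟨m + (j : ℕ), hj⟩ := (hb ⟨m + (j : ℕ), hj⟩).symm
    rw [h1, b.repr_self, Finsupp.single_apply, if_neg]
    intro h2
    have h3 := congrArg Fin.val h2
    dsimp only at h3
    omega
  · have hlt : m + (j : ℕ) - e < e := by omega
    have h1 : Z ^ (m + (j : ℕ)) = g • b ⟨m + (j : ℕ) - e, hlt⟩ := by
      rw [hb, Algebra.smul_def, ← hZ, ← pow_add]
      congr 1
      dsimp only
      omega
    rw [h1, map_smul, b.repr_self, Finsupp.smul_apply, Finsupp.single_apply, if_neg, smul_zero]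
    intro h2
    have h3 := congrArg Fin.val h2
    dsimp only at h3
    omega

private theorem aeval_xx (p : K[X]) :
    aeval (xx K F) p = algebraMap (RatFunc K) F (algebraMap K[X] (RatFunc K) p) := by
  have h1 : (aeval (RatFunc.X : RatFunc K) : K[X] →ₐ[K] RatFunc K) =
      IsScalarTower.toAlgHom K K[X] (RatFunc K) := by
    apply Polynomial.algHom_ext
    rw [aeval_X]
    exact RatFunc.algebraMap_X.symm
  unfold xx
  rw [Polynomial.aeval_algebraMap_apply, h1]
  rfl

theorem int_coef {e i w : ℕ} {Z : F} (h : Cv K F e i w Z) {y : F}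
    (hy : ((aeval (xx K F) : K[X] →ₐ[K] F) : K[X] →+* F).IsIntegralElem y) :
    ∃ c : Fin e → K[X], aeval (xx K F) (fP K i w) * y =
      ∑ j, aeval (xx K F) (c j) * Z ^ (j : ℕ) := by
  classical
  set g : RatFunc K := algebraMap K[X] (RatFunc K) (fP K i w) with hg
  have hZ : Z ^ e = algebraMap (RatFunc K) F g := h.eq
  have hsp : ⊤ ≤ Submodule.span (RatFunc K) (Set.range fun j : Fin e => Z ^ (j : ℕ)) := by
    intro z _
    obtain ⟨c, hc⟩ := h.span z
    rw [hc]
    apply Submodule.sum_mem
    intro j _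
    rw [← Algebra.smul_def]
    exact Submodule.smul_mem _ _ (Submodule.subset_span ⟨j, rfl⟩)
  let b : Module.Basis (Fin e) (RatFunc K) F := Module.Basis.mk h.lin hsp
  have hb : ∀ j, b j = Z ^ (j : ℕ) := fun j => by
    rw [Module.Basis.mk_apply]
  have hfd : FiniteDimensional (RatFunc K) F := Module.Finite.of_basis b
  let algF : Algebra K[X] F :=
    ((algebraMap (RatFunc K) F).comp (algebraMap K[X] (RatFunc K))).toAlgebra
  have tow : IsScalarTower K[X] (RatFunc K) F := IsScalarTower.of_algebraMap_eq fun _ => rfl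
  have hmap : ((aeval (xx K F) : K[X] →ₐ[K] F) : K[X] →+* F) = algebraMap K[X] F := by
    apply RingHom.ext
    intro p
    exact aeval_xx p
  have hyi : IsIntegral K[X] y := by
    rw [hmap] at hy
    exact hy
  have hZi : IsIntegral K[X] Z := by
    apply IsIntegral.of_pow (n := e) (by have := h.he; omega)
    rw [hZ]
    exact isIntegral_algebraMap (R := K[X]) (A := F) (x := fP K i w)
  obtain ⟨d, hd⟩ := h.span y
  have key : ∀ j : Fin e, Algebra.trace (RatFunc K) F (y * Z ^ (e - (j : ℕ))) =
      ((e : ℕ) : RatFunc K) * (g * d j) := by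
    intro j
    have h1 : y * Z ^ (e - (j : ℕ)) = ∑ k : Fin e, d k • Z ^ ((k : ℕ) + (e - (j : ℕ))) := by
      rw [hd, Finset.sum_mul]
      apply Finset.sum_congr rfl
      intro k _
      rw [Algebra.smul_def, mul_assoc, ← pow_add]
    rw [h1, map_sum, Finset.sum_eq_single j]
    · have h2 : (j : ℕ) + (e - (j : ℕ)) = e := by
        have := j.2
        omega
      rw [map_smul, h2, hZ, Algebra.trace_algebraMap_of_basis b, Fintype.card_fin, smul_eq_mul,
        nsmul_eq_mul]
      ring
    · intro k _ hkj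
      rw [map_smul]
      have hne : (k : ℕ) ≠ (j : ℕ) := fun h' => hkj (Fin.ext h')
      have hk := k.2
      have hj := j.2
      have h3 : Algebra.trace (RatFunc K) F (Z ^ ((k : ℕ) + (e - (j : ℕ)))) = 0 := by
        by_cases hlt : (k : ℕ) + (e - (j : ℕ)) < e
        · exact tr_zero hZ b hb (by omega) hlt
        · have h4 : Z ^ ((k : ℕ) + (e - (j : ℕ))) = g • Z ^ ((k : ℕ) - (j : ℕ)) := by
            rw [Algebra.smul_def, ← hZ, ← pow_add]
            congr 1
            omega
          rw [h4, map_smul, tr_zero hZ b hb (by omega) (by omega), smul_zero]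
      rw [h3, smul_zero]
    · intro h'; exact absurd (Finset.mem_univ j) h'
  have hex : ∀ j : Fin e, ∃ P : K[X], algebraMap K[X] (RatFunc K) P = g * d j := by
    intro j
    have h1 : IsIntegral K[X] (Algebra.trace (RatFunc K) F (y * Z ^ (e - (j : ℕ)))) :=
      Algebra.isIntegral_trace (hyi.mul (hZi.pow _))
    rw [key, IsIntegrallyClosed.isIntegral_iff] at h1
    obtain ⟨P, hP⟩ := h1
    refine ⟨C ((e : K)⁻¹) * P, ?_⟩
    rw [map_mul, hP, ← mul_assoc]
    have h2 : algebraMap K[X] (RatFunc K) (C ((e : K)⁻¹)) * ((e : ℕ) : RatFunc K) = 1 := by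
      have h3 : ((e : ℕ) : RatFunc K) = algebraMap K[X] (RatFunc K) (C (e : K)) := by
        rw [map_natCast, map_natCast]
      rw [h3, ← map_mul, ← C_mul, inv_mul_cancel₀ h.ek, C_1, map_one]
    rw [h2, one_mul]
  choose c hc using hex
  refine ⟨c, ?_⟩
  rw [hd, Finset.mul_sum]
  apply Finset.sum_congr rfl
  intro j _
  rw [aeval_xx, aeval_xx, hc j, ← mul_assoc, ← map_mul]

end Pool.SG
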