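import Pool.Agent.Lib.MP_a51fee_ag.SG.GFrac
import Pool.Agent.Lib.MP_a51fee_ag.SG.GOm

/-!
# SG-GUD: differentials at the unramified places

Let `V` be a valuation ring with `K ≤ V`, `x ∈ V`, `v(f(x)) = 1` (`V = ⊤` allowed).
PROOF of `unr_diff`.  `Z^e = f(x)` so `v(Z) = 1`.
`D (ev2 K x Z a) = y • D x` with `y ∈ V`: `ev2 K x Z a = ∑_j a_j(x) Z^j`, `D (a_j(x)) = a_j'(x) • D x`,
`D Z = (f'(x) / (e Z^{e-1})) • D x` (`cv_DZ`), coefficient in `V`.
For `y ∈ V`: `y s = a` (`unram_frac`), `s • D y = D a - y • D s`, so `D y ∈ V • D x` (`v(s) = 1`).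
So `diffOf K F V = {z • D x | z ∈ V}` (the closure of the generators `x' • D y`; `⊇` as `x ∈ V`), and
`D x ≠ 0` (`cv_Dx_ne`) gives the claim.
-/

set_option autoImplicit false

open Polynomial

namespace Pool.SG

variable {K F : Type} [Field K] [Field F] [Algebra K F] [Algebra (RatFunc K) F]
  [IsScalarTower K (RatFunc K) F]

omit [Algebra (RatFunc K) F] [IsScalarTower K (RatFunc K) F] in
/-- the elements of `V` whose differential is in `V • D x` -/
theorem ud_smul_eq {x y z : F} (hx : KaehlerDifferential.D K F x ≠ 0)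
    (h : y • KaehlerDifferential.D K F x = z • KaehlerDifferential.D K F x) : y = z := by
  have h1 : (y - z) • KaehlerDifferential.D K F x = 0 := by
    rw [sub_smul, h, sub_self]
  rcases smul_eq_zero.1 h1 with h2 | h2
  · exact sub_eq_zero.1 h2
  · exact absurd h2 hx

theorem ud_xx_aeval (p : K[X]) :
    algebraMap (RatFunc K) F (algebraMap K[X] (RatFunc K) p) = aeval (xx K F) p := by
  rw [xx, aeval_algebraMap_apply, RatFunc.aeval_X_left_eq_algebraMap]

omit [Algebra (RatFunc K) F] [IsScalarTower K (RatFunc K) F] in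
theorem ud_aeval_mem {V : ValuationSubring F} (hV : ∀ c : K, algebraMap K F c ∈ V) {x : F}
    (hx : x ∈ V) (p : K[X]) : aeval x p ∈ V := by
  induction p using Polynomial.induction_on' with
  | add p q hp hq => rw [map_add]; exact V.add_mem _ _ hp hq
  | monomial n a =>
    rw [aeval_monomial]
    exact V.mul_mem _ _ (hV a) (V.pow_mem hx n)

/-- `P y`: `y ∈ V` and `D y ∈ V • D x` -/
def UdP (K : Type) {F : Type} [Field K] [Field F] [Algebra K F] (V : ValuationSubring F) (x y : F) :
    Prop :=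
  y ∈ V ∧ ∃ z ∈ V, KaehlerDifferential.D K F y = z • KaehlerDifferential.D K F x

omit [Algebra (RatFunc K) F] [IsScalarTower K (RatFunc K) F] in
theorem UdP.mul {V : ValuationSubring F} {x a b : F} (ha : UdP K V x a) (hb : UdP K V x b) :
    UdP K V x (a * b) := by
  obtain ⟨ha, z, hz, ez⟩ := ha
  obtain ⟨hb, w, hw, ew⟩ := hb
  refine ⟨V.mul_mem _ _ ha hb, a * w + b * z,
    V.add_mem _ _ (V.mul_mem _ _ ha hw) (V.mul_mem _ _ hb hz), ?_⟩
  rw [Derivation.leibniz, ez, ew, smul_smul, smul_smul, ← add_smul]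

omit [Algebra (RatFunc K) F] [IsScalarTower K (RatFunc K) F] in
theorem UdP.add {V : ValuationSubring F} {x a b : F} (ha : UdP K V x a) (hb : UdP K V x b) :
    UdP K V x (a + b) := by
  obtain ⟨ha, z, hz, ez⟩ := ha
  obtain ⟨hb, w, hw, ew⟩ := hb
  refine ⟨V.add_mem _ _ ha hb, z + w, V.add_mem _ _ hz hw, ?_⟩
  rw [map_add, ez, ew, ← add_smul]

omit [Algebra (RatFunc K) F] [IsScalarTower K (RatFunc K) F] in
theorem UdP.one {V : ValuationSubring F} {x : F} : UdP K V x 1 :=
  ⟨V.one_mem, 0, V.zero_mem, by rw [Derivation.map_one_eq_zero, zero_smul]⟩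

omit [Algebra (RatFunc K) F] [IsScalarTower K (RatFunc K) F] in
theorem UdP.pow {V : ValuationSubring F} {x a : F} (ha : UdP K V x a) (n : ℕ) :
    UdP K V x (a ^ n) := by
  induction n with
  | zero => rw [pow_zero]; exact UdP.one
  | succ n ih => rw [pow_succ]; exact ih.mul ha

theorem unr_diff {e i w : ℕ} {Z : F} (h : Cv K F e i w Z) {V : ValuationSubring F}
    (hV : ∀ c : K, algebraMap K F c ∈ V) (hx : xx K F ∈ V)
    (hf : V.valuation (aeval (xx K F) (fP K i w)) = 1) (y : F) :
    y • KaehlerDifferential.D K F (xx K F) ∈ diffOf K F (V : Set F) ↔ y ∈ V := by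
  set x : F := xx K F with hxx
  have hx' : x ∈ V := hx
  have hDx : KaehlerDifferential.D K F x ≠ 0 := cv_Dx_ne h
  have he0 : e ≠ 0 := by have := h.he; omega
  -- the valuation of `Z`
  have hZe : Z ^ e = aeval x (fP K i w) := by
    rw [h.eq, ud_xx_aeval]
  have hvZ : V.valuation Z = 1 := by
    have h1 : V.valuation Z ^ e = 1 := by
      rw [← map_pow, hZe]
      exact hf
    exact (pow_eq_one_iff_of_nonneg zero_le he0).1 h1
  have hZ : Z ∈ V := (V.valuation_le_one_iff Z).1 hvZ.le
  have hZ0 : Z ≠ 0 := by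
    rintro rfl
    rw [map_zero] at hvZ
    exact zero_ne_one hvZ
  have hek : (algebraMap K F (e : K)) ≠ 0 := by
    rw [Ne, map_eq_zero]
    exact h.ek
  have heF : (e : F) ≠ 0 := by
    have h1 : algebraMap K F (e : K) = (e : F) := map_natCast _ _
    rwa [h1] at hek
  have hinv : ((e : F) * Z ^ (e - 1))⁻¹ ∈ V := by
    rw [mul_inv]
    refine V.mul_mem _ _ ?_ ?_
    · have h1 : algebraMap K F ((e : K)⁻¹) = (e : F)⁻¹ := by
        rw [map_inv₀, map_natCast]
      rw [← h1]
      exact hV _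
    · refine (V.valuation_le_one_iff _).1 ?_
      rw [map_inv₀, map_pow, hvZ, one_pow, inv_one]
  have PZ : UdP K V x Z := by
    refine ⟨hZ, _, ?_, cv_DZ h⟩
    rw [div_eq_mul_inv]
    exact V.mul_mem _ _ (ud_aeval_mem hV hx' _) hinv
  have Pp : ∀ p : K[X], UdP K V x (aeval x p) := fun p =>
    ⟨ud_aeval_mem hV hx' p, aeval x (derivative p), ud_aeval_mem hV hx' _, cv_D_aeval h p⟩
  have Pev : ∀ a : K[X][X], UdP K V x (ev2 K x Z a) := by
    intro a
    induction a using Polynomial.induction_on' with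
    | add p q hp hq => rw [map_add]; exact hp.add hq
    | monomial n p =>
      have h1 : ev2 K x Z (monomial n p) = aeval x p * Z ^ n := by
        simp [ev2]
      rw [h1]
      exact (Pp p).mul (PZ.pow n)
  have PV : ∀ y ∈ V, UdP K V x y := by
    intro y hy
    obtain ⟨a, s, hs, hya⟩ := unram_frac h hV hx hf hy
    have hs' : V.valuation (ev2 K x Z s) = 1 := hs
    have hya' : y * ev2 K x Z s = ev2 K x Z a := hya
    obtain ⟨ha1, za, hza, eza⟩ := Pev a
    obtain ⟨hs1, zs, hzs, ezs⟩ := Pev s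
    set S : F := ev2 K x Z s with hS
    have hS0 : S ≠ 0 := by
      intro h0
      rw [h0, map_zero] at hs'
      exact zero_ne_one hs'
    have hSi : S⁻¹ ∈ V := by
      refine (V.valuation_le_one_iff _).1 ?_
      rw [map_inv₀, hs', inv_one]
    refine ⟨hy, S⁻¹ * (za - y * zs),
      V.mul_mem _ _ hSi (V.sub_mem hza (V.mul_mem _ _ hy hzs)), ?_⟩
    have hD := congrArg (KaehlerDifferential.D K F) hya'
    rw [Derivation.leibniz, eza, ezs, smul_smul] at hD
    have h1 : S • KaehlerDifferential.D K F y = (za - y * zs) • KaehlerDifferential.D K F x := by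
      rw [sub_smul, ← hD]
      abel
    rw [mul_smul, ← h1, smul_smul, inv_mul_cancel₀ hS0, one_smul]
  constructor
  · intro hmem
    have key : ∀ η ∈ diffOf K F (V : Set F), ∃ z ∈ V, η = z • KaehlerDifferential.D K F x := by
      intro η hη
      induction hη using AddSubgroup.closure_induction with
      | mem η hη =>
        obtain ⟨a, ha, b, hb, rfl⟩ := hη
        obtain ⟨_, z, hz, ez⟩ := PV b hb
        exact ⟨a * z, V.mul_mem _ _ ha hz, by rw [ez, smul_smul]⟩
      | zero => exact ⟨0, V.zero_mem, by rw [zero_smul]⟩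
      | add a b _ _ ha hb =>
        obtain ⟨z, hz, rfl⟩ := ha
        obtain ⟨z', hz', rfl⟩ := hb
        exact ⟨z + z', V.add_mem _ _ hz hz', by rw [add_smul]⟩
      | neg a _ ha =>
        obtain ⟨z, hz, rfl⟩ := ha
        exact ⟨-z, V.neg_mem _ hz, by rw [neg_smul]⟩
    obtain ⟨z, hz, ez⟩ := key _ hmem
    rw [ud_smul_eq hDx ez]
    exact hz
  · intro hy
    exact AddSubgroup.subset_closure ⟨y, hy, x, hx', rfl⟩

end Pool.SG
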