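import Pool.Agent.Lib.MP_a51fee_ag.SG.GFrac

/-!
# SG-GUnr: the points over `f(x) ≠ 0`
-/

set_option autoImplicit false

open Polynomial

namespace Pool.SG

variable {K F : Type} [Field K] [Field F] [Algebra K F] [Algebra (RatFunc K) F]
  [IsScalarTower K (RatFunc K) F]

omit [Algebra K F] [Algebra (RatFunc K) F] [IsScalarTower K (RatFunc K) F] in
theorem ev2_C [Algebra K F] (x z : F) (g : K[X]) : ev2 K x z (C g) = aeval x g := by
  simp [ev2]

omit [Algebra K F] [Algebra (RatFunc K) F] [IsScalarTower K (RatFunc K) F] in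
theorem ev2_X [Algebra K F] (x z : F) : ev2 K x z X = z := by
  simp [ev2]

theorem gu_aeval (g : K[X]) :
    aeval (xx K F) g = algebraMap (RatFunc K) F (algebraMap K[X] (RatFunc K) g) := by
  have h1 : (algebraMap K[X] (RatFunc K) g : RatFunc K) = aeval (RatFunc.X : RatFunc K) g := by
    have : (IsScalarTower.toAlgHom K K[X] (RatFunc K)) = aeval (RatFunc.X : RatFunc K) := by
      ext
      simp
    exact congrArg (fun φ : K[X] →ₐ[K] RatFunc K => φ g) this
  rw [h1, xx, aeval_algebraMap_apply]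

theorem gu_Z {e i w : ℕ} {Z : F} (h : Cv K F e i w Z) :
    Z ^ e = aeval (xx K F) (fP K i w) := by
  rw [h.eq, gu_aeval]

theorem gu_fP {L : Type} [Field L] [Algebra K L] (i w : ℕ) (x0 : L) :
    aeval x0 (fP K i w) = x0 ^ i * (x0 ^ w - 1) := by
  simp [fP]

theorem gu_mod {L : Type} [Field L] [Algebra K L] (e i w : ℕ) (he : 1 < e) {x0 z0 : L}
    (h0 : z0 ^ e = aeval x0 (fP K i w)) (a : K[X][X]) :
    ev2 K x0 z0 a = ev2 K x0 z0 (a %ₘ (X ^ e - C (fP K i w))) := by
  have hm : (X ^ e - C (fP K i w) : K[X][X]).Monic :=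
    monic_X_pow_sub_C _ (by omega)
  conv_lhs => rw [← modByMonic_add_div a (X ^ e - C (fP K i w) : K[X][X])]
  rw [map_add, map_mul, map_sub, map_pow, ev2_X, ev2_C, h0, sub_self, zero_mul, add_zero]

theorem ev2_ker {e i w : ℕ} {Z : F} (h : Cv K F e i w Z) {L : Type} [Field L] [Algebra K L]
    {x0 z0 : L} (h0 : z0 ^ e = x0 ^ i * (x0 ^ w - 1)) {a : K[X][X]}
    (ha : ev2 K (xx K F) Z a = 0) : ev2 K x0 z0 a = 0 := by
  have he := h.he
  have hm : (X ^ e - C (fP K i w) : K[X][X]).Monic :=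
    monic_X_pow_sub_C _ (by omega)
  set r := a %ₘ (X ^ e - C (fP K i w) : K[X][X]) with hr
  rw [gu_mod e i w he (gu_Z h) a] at ha
  rw [gu_mod e i w he (h0.trans (gu_fP i w x0).symm) a]
  rw [← hr] at ha ⊢
  have hdeg : r.natDegree < e := by
    have h1 : r.natDegree < (X ^ e - C (fP K i w) : K[X][X]).natDegree :=
      natDegree_modByMonic_lt a hm (by
        intro h2
        have := congrArg natDegree h2
        rw [natDegree_X_pow_sub_C, natDegree_one] at this
        omega)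
    rwa [natDegree_X_pow_sub_C] at h1
  have hsum : ∑ j : Fin e, algebraMap K[X] (RatFunc K) (r.coeff j) • Z ^ (j : ℕ) = 0 := by
    rw [← ha, ev2]
    simp only [coe_eval₂RingHom]
    rw [eval₂_eq_sum_range' _ hdeg, ← Fin.sum_univ_eq_sum_range]
    refine Finset.sum_congr rfl fun j _ => ?_
    rw [Algebra.smul_def]
    congr 1
    exact (gu_aeval _).symm
  have hz := Fintype.linearIndependent_iff.1 h.lin _ hsum
  have hr0 : r = 0 := by
    ext1 j
    by_cases hj : j < e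
    · have := hz ⟨j, hj⟩
      have h3 : Function.Injective (algebraMap K[X] (RatFunc K)) :=
        IsFractionRing.injective K[X] (RatFunc K)
      rw [coeff_zero]
      apply h3
      rw [map_zero]
      exact this
    · rw [coeff_zero]
      exact coeff_eq_zero_of_natDegree_lt (by omega)
  rw [hr0, map_zero]

omit [IsScalarTower K (RatFunc K) F] in
/-- the evaluation with values in the valuation ring -/
theorem pt_ev2 {Z : F} {L : Type} [Field L] [Algebra K L] (P : Pt K F L) (hx : xx K F ∈ P.V)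
    (hz : Z ∈ P.V) (a : K[X][X]) :
    ∃ hm : ev2 K (xx K F) Z a ∈ P.V,
      P.res ⟨ev2 K (xx K F) Z a, hm⟩ =
        ev2 K (P.res ⟨xx K F, hx⟩) (P.res ⟨Z, hz⟩) a := by
  let cK : K →+* P.V := (algebraMap K F).codRestrict P.V.toSubring P.place.1
  let φ : K[X][X] →+* P.V := eval₂RingHom (eval₂RingHom cK ⟨xx K F, hx⟩) ⟨Z, hz⟩
  have h1 : (P.V.subtype).comp φ = ev2 K (xx K F) Z := by
    apply Polynomial.ringHom_ext'
    · apply Polynomial.ringHom_ext'
      · ext c
        simp [φ, cK, ev2]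
      · simp [φ, ev2]
    · simp [φ, ev2]
  have h2 : P.res.comp φ = ev2 K (P.res ⟨xx K F, hx⟩) (P.res ⟨Z, hz⟩) := by
    apply Polynomial.ringHom_ext'
    · apply Polynomial.ringHom_ext'
      · ext c
        have := P.const c
        simp [φ, cK, ev2]
        exact this
      · simp [φ, ev2]
    · simp [φ, ev2]
  have h3 : ((φ a : P.V) : F) = ev2 K (xx K F) Z a := by
    rw [← h1]; rfl
  refine ⟨h3 ▸ (φ a).2, ?_⟩
  rw [← h2, RingHom.comp_apply]
  congr 1
  exact Subtype.ext h3.symm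

omit [Algebra (RatFunc K) F] [IsScalarTower K (RatFunc K) F] in
theorem pt_val {L : Type} [Field L] [Algebra K L] (P : Pt K F L) (y : P.V) :
    P.res y ≠ 0 ↔ P.V.valuation (y : F) = 1 := by
  rw [Ne, P.ker, not_lt]
  exact ⟨fun h => le_antisymm ((P.V.valuation_le_one_iff _).2 y.2) h, fun h => h.ge⟩

theorem pt_unr_le {e i w : ℕ} {Z : F} (h : Cv K F e i w Z) {L : Type} [Field L] [Algebra K L]
    (P P' : Pt K F L) (hx : xx K F ∈ P.V) (hz : Z ∈ P.V) (hx' : xx K F ∈ P'.V) (hz' : Z ∈ P'.V)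
    (h1 : P.res ⟨xx K F, hx⟩ = P'.res ⟨xx K F, hx'⟩) (h2 : P.res ⟨Z, hz⟩ = P'.res ⟨Z, hz'⟩)
    (h0 : P.res ⟨Z, hz⟩ ≠ 0) (y : F) (hy : y ∈ P.V) :
    ∃ hy' : y ∈ P'.V, P.res ⟨y, hy⟩ = P'.res ⟨y, hy'⟩ := by
  have he := h.he
  have hf : P.V.valuation (aeval (xx K F) (fP K i w)) = 1 := by
    rw [← gu_Z h, map_pow]
    have := (pt_val P ⟨Z, hz⟩).1 h0
    simp only at this
    rw [this, one_pow]
  obtain ⟨a, s, hs, has⟩ := unram_frac h P.place.1 hx hf hy
  obtain ⟨hsm, hsr⟩ := pt_ev2 P hx hz s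
  obtain ⟨hsm', hsr'⟩ := pt_ev2 P' hx' hz' s
  obtain ⟨ham, har⟩ := pt_ev2 P hx hz a
  obtain ⟨ham', har'⟩ := pt_ev2 P' hx' hz' a
  have hs0 : P.res ⟨_, hsm⟩ ≠ 0 := (pt_val P ⟨_, hsm⟩).2 hs
  rw [h1, h2] at hsr har
  have hs0' : P'.res ⟨_, hsm'⟩ ≠ 0 := by
    rw [hsr', ← hsr]; exact hs0
  have hs' : P'.V.valuation (ev2 K (xx K F) Z s) = 1 := (pt_val P' ⟨_, hsm'⟩).1 hs0'
  have hy' : y ∈ P'.V := by
    rw [← P'.V.valuation_le_one_iff]
    have h3 : P'.V.valuation (y * ev2 K (xx K F) Z s) ≤ 1 := by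
      rw [has]
      exact (P'.V.valuation_le_one_iff _).2 ham'
    rwa [map_mul, hs', mul_one] at h3
  refine ⟨hy', ?_⟩
  have e1 : P.res ⟨y, hy⟩ * P.res ⟨_, hsm⟩ = P.res ⟨_, ham⟩ := by
    rw [← map_mul]
    congr 1
    exact Subtype.ext has
  have e2 : P'.res ⟨y, hy'⟩ * P'.res ⟨_, hsm'⟩ = P'.res ⟨_, ham'⟩ := by
    rw [← map_mul]
    congr 1
    exact Subtype.ext has
  have e3 : P.res ⟨_, hsm⟩ = P'.res ⟨_, hsm'⟩ := by rw [hsr, hsr']
  have e4 : P.res ⟨_, ham⟩ = P'.res ⟨_, ham'⟩ := by rw [har, har']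
  rw [e3] at e1
  rw [e4, ← e2] at e1
  exact mul_right_cancel₀ hs0' e1

theorem unr_unique {e i w : ℕ} {Z : F} (h : Cv K F e i w Z) {L : Type} [Field L] [Algebra K L]
    (P P' : Pt K F L) (hx : xx K F ∈ P.V) (hz : Z ∈ P.V) (hx' : xx K F ∈ P'.V) (hz' : Z ∈ P'.V)
    (h1 : P.res ⟨xx K F, hx⟩ = P'.res ⟨xx K F, hx'⟩) (h2 : P.res ⟨Z, hz⟩ = P'.res ⟨Z, hz'⟩)
    (h0 : P.res ⟨Z, hz⟩ ≠ 0) : P = P' := by
  have k1 := pt_unr_le h P P' hx hz hx' hz' h1 h2 h0
  have k2 := pt_unr_le h P' P hx' hz' hx hz h1.symm h2.symm (h2 ▸ h0)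
  have hV : P.V = P'.V := by
    apply SetLike.ext
    intro y
    exact ⟨fun hy => (k1 y hy).1, fun hy => (k2 y hy).1⟩
  obtain ⟨V, pl, res, co, ke⟩ := P
  obtain ⟨V', pl', res', co', ke'⟩ := P'
  simp only at hV
  subst hV
  have : res = res' := by
    ext y
    exact (k1 y.1 y.2).2
  subst this
  rfl

theorem unr_exists {e i w : ℕ} {Z : F} (h : Cv K F e i w Z) {L : Type} [Field L] [Finite L]
    [Algebra K L] (x0 z0 : L) (heq : z0 ^ e = x0 ^ i * (x0 ^ w - 1)) (hz : z0 ≠ 0) :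
    ∃ (P : Pt K F L) (hx : xx K F ∈ P.V) (hz : Z ∈ P.V),
      P.res ⟨xx K F, hx⟩ = x0 ∧ P.res ⟨Z, hz⟩ = z0 := by
  classical
  have he := h.he
  set Φ : K[X][X] →+* F := ev2 K (xx K F) Z with hΦ
  set Ψ : K[X][X] →+* L := ev2 K x0 z0 with hΨ
  have hker : ∀ a, Φ a = 0 → Ψ a = 0 := fun a ha => ev2_ker h heq ha
  have hwd : ∀ a b, Φ a = Φ b → Ψ a = Ψ b := by
    intro a b hab
    have := hker (a - b) (by rw [map_sub, hab, sub_self])
    rw [map_sub] at this
    exact sub_eq_zero.1 this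
  let A : Subring F := Φ.range
  let I : Ideal A :=
    { carrier := {y | ∃ a, Φ a = y ∧ Ψ a = 0}
      zero_mem' := ⟨0, by simp, by simp⟩
      add_mem' := by
        rintro y y' ⟨a, ha, ha'⟩ ⟨b, hb, hb'⟩
        exact ⟨a + b, by rw [map_add, ha, hb]; rfl, by rw [map_add, ha', hb', add_zero]⟩
      smul_mem' := by
        rintro ⟨c, hc⟩ y ⟨a, ha, ha'⟩
        obtain ⟨b, hb⟩ := hc
        exact ⟨b * a, by rw [map_mul, ha, hb]; rfl, by rw [map_mul, ha', mul_zero]⟩ }
  have hI : I ≠ ⊤ := by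
    intro hI
    have : (1 : A) ∈ I := by rw [hI]; trivial
    obtain ⟨a, ha, ha'⟩ := this
    have := hwd a 1 (by rw [ha, map_one]; rfl)
    rw [ha', map_one] at this
    exact zero_ne_one this
  obtain ⟨V, hAV, hIV⟩ := Ideal.image_subset_nonunits_valuationSubring I hI
  have hmem : ∀ a, Φ a ∈ V := fun a => hAV ⟨a, rfl⟩
  have hlt : ∀ a, Ψ a = 0 → V.valuation (Φ a) < 1 := by
    intro a ha
    have : Φ a ∈ V.nonunits := hIV ⟨⟨Φ a, ⟨a, rfl⟩⟩, ⟨a, rfl, ha⟩, rfl⟩
    exact this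
  have hone : ∀ a, Ψ a ≠ 0 → V.valuation (Φ a) = 1 := by
    intro a ha
    have : Fintype L := Fintype.ofFinite L
    have hc : 0 < Fintype.card L - 1 := Nat.sub_pos_of_lt Fintype.one_lt_card
    have h1 : Ψ (a ^ (Fintype.card L - 1) - 1) = 0 := by
      rw [map_sub, map_pow, map_one, FiniteField.pow_card_sub_one_eq_one _ ha, sub_self]
    have h2 := hlt _ h1
    rw [map_sub, map_pow, map_one] at h2
    have h3 : V.valuation (Φ a ^ (Fintype.card L - 1)) = 1 := by
      have := Valuation.map_add_eq_of_lt_right V.valuation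
        (x := Φ a ^ (Fintype.card L - 1) - 1) (y := 1) (by rw [map_one]; exact h2)
      rw [sub_add_cancel, map_one] at this
      exact this
    rw [map_pow] at h3
    exact (pow_eq_one_iff.1 h3).resolve_right hc.ne'
  have hiff : ∀ a, Ψ a = 0 ↔ V.valuation (Φ a) < 1 := by
    intro a
    refine ⟨hlt a, fun hl => ?_⟩
    by_contra hne
    rw [hone a hne] at hl
    exact lt_irrefl _ hl
  have hcK : ∀ c : K, algebraMap K F c ∈ V := by
    intro c
    have := hmem (C (C c))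
    rw [hΦ, ev2_C, aeval_C] at this
    exact this
  have hxV : xx K F ∈ V := by
    have := hmem (C X)
    rw [hΦ, ev2_C, aeval_X] at this
    exact this
  have hZV : Z ∈ V := by
    have := hmem X
    rw [hΦ, ev2_X] at this
    exact this
  have hplace : IsPlace K F V := by
    refine ⟨hcK, ?_⟩
    intro htop
    have : Fintype L := Fintype.ofFinite L
    set q := Fintype.card L with hq
    have hq1 : 1 < q := Fintype.one_lt_card
    have h1 : Ψ (C (X ^ q - X)) = 0 := by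
      rw [hΨ, ev2_C, map_sub, map_pow, aeval_X, FiniteField.pow_card, sub_self]
    have h2 := hlt _ h1
    have h3 : Φ (C (X ^ q - X)) ≠ 0 := by
      rw [hΦ, ev2_C, gu_aeval]
      intro h0
      have h4 : (algebraMap K[X] (RatFunc K) (X ^ q - X)) = 0 := by
        have := (algebraMap (RatFunc K) F).injective
        apply this
        rw [h0, map_zero]
      have h5 : (X ^ q - X : K[X]) = 0 := by
        apply IsFractionRing.injective K[X] (RatFunc K)
        rw [h4, map_zero]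
      exact FiniteField.X_pow_card_sub_X_ne_zero K hq1 h5
    have h6 : (Φ (C (X ^ q - X)))⁻¹ ∈ V := by rw [htop]; trivial
    rw [← V.valuation_le_one_iff, map_inv₀] at h6
    have h7 : V.valuation (Φ (C (X ^ q - X))) ≠ 0 := (_root_.map_ne_zero _).2 h3
    have h8 : (1 : V.ValueGroup) ≤ V.valuation (Φ (C (X ^ q - X))) := by
      rwa [inv_le_one₀ (zero_lt_iff.2 h7)] at h6
    exact absurd h2 (not_lt.2 h8)
  have hf : V.valuation (aeval (xx K F) (fP K i w)) = 1 := by
    have := hone (C (fP K i w)) (by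
      rw [hΨ, ev2_C, gu_fP, ← heq]
      exact pow_ne_zero _ hz)
    rw [hΦ, ev2_C] at this
    exact this
  have hfrac : ∀ y : V, ∃ t : K[X][X] × K[X][X], Ψ t.2 ≠ 0 ∧ (y : F) * Φ t.2 = Φ t.1 := by
    intro y
    obtain ⟨a, s, hs, has⟩ := unram_frac h hcK hxV hf y.2
    refine ⟨(a, s), ?_, has⟩
    intro h0
    have := hlt s h0
    rw [hΦ, hs] at this
    exact lt_irrefl _ this
  choose t ht1 ht2 using hfrac
  let ρ : V → L := fun y => Ψ (t y).1 / Ψ (t y).2
  have hρ : ∀ (y : V) (a s : K[X][X]), Ψ s ≠ 0 → (y : F) * Φ s = Φ a → ρ y = Ψ a / Ψ s := by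
    intro y a s hs has
    show Ψ (t y).1 / Ψ (t y).2 = Ψ a / Ψ s
    rw [div_eq_div_iff (ht1 y) hs, ← map_mul, ← map_mul]
    apply hwd
    rw [map_mul, map_mul, ← ht2 y, ← has]
    ring
  let res : V →+* L :=
    { toFun := ρ
      map_one' := by
        rw [hρ 1 1 1 (by simp) (by simp)]; simp
      map_zero' := by
        rw [hρ 0 0 1 (by simp) (by simp)]; simp
      map_mul' := by
        intro y y'
        rw [hρ (y * y') ((t y).1 * (t y').1) ((t y).2 * (t y').2)
          (by rw [map_mul]; exact mul_ne_zero (ht1 y) (ht1 y'))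
          (by
            have e1 := ht2 y
            have e2 := ht2 y'
            rw [map_mul, map_mul, ← e1, ← e2]
            push_cast
            ring)]
        show _ = Ψ (t y).1 / Ψ (t y).2 * (Ψ (t y').1 / Ψ (t y').2)
        rw [map_mul, map_mul, div_mul_div_comm]
      map_add' := by
        intro y y'
        rw [hρ (y + y') ((t y).1 * (t y').2 + (t y').1 * (t y).2) ((t y).2 * (t y').2)
          (by rw [map_mul]; exact mul_ne_zero (ht1 y) (ht1 y'))
          (by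
            have e1 := ht2 y
            have e2 := ht2 y'
            rw [map_add, map_mul, map_mul, map_mul, ← e1, ← e2]
            push_cast
            ring)]
        show _ = Ψ (t y).1 / Ψ (t y).2 + (Ψ (t y').1 / Ψ (t y').2)
        rw [div_add_div _ _ (ht1 y) (ht1 y'), map_add, map_mul, map_mul, map_mul]
        congr 1
        ring }
  have hres : ∀ (y : V) (a s : K[X][X]), Ψ s ≠ 0 → (y : F) * Φ s = Φ a → res y = Ψ a / Ψ s := hρ
  refine ⟨⟨V, hplace, res, ?_, ?_⟩, hxV, hZV, ?_, ?_⟩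
  · intro c
    rw [hres _ (C (C c)) 1 (by simp) (by rw [map_one, mul_one, hΦ, ev2_C, aeval_C]), map_one,
      div_one, hΨ, ev2_C, aeval_C]
  · intro y
    rw [hres y (t y).1 (t y).2 (ht1 y) (ht2 y), div_eq_zero_iff, or_iff_left (ht1 y), hiff,
      ← ht2 y, map_mul, hone _ (ht1 y), mul_one]
  · have e1 : xx K F * Φ 1 = Φ (C X) := by rw [map_one, mul_one, hΦ, ev2_C, aeval_X]
    refine (hres ⟨xx K F, hxV⟩ (C X) 1 (by simp) e1).trans ?_
    rw [map_one, div_one, hΨ, ev2_C, aeval_X]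
  · have e1 : Z * Φ 1 = Φ X := by rw [map_one, mul_one, hΦ, ev2_X]
    refine (hres ⟨Z, hZV⟩ X 1 (by simp) e1).trans ?_
    rw [map_one, div_one, hΨ, ev2_X]

end Pool.SG
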