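import Pool.Agent.Lib.MP_a51fee_ag.SG.GCrit
import Pool.Agent.Lib.MP_a51fee_ag.SG.GUD
import Pool.Agent.Lib.MP_a51fee_ag.SG.GPoly

/-!
# SG-GUp: the differentials `X ^ a Z ^ (-b) dX`, `(a, b) ∈ Ix`, are of the first kind

PROOF.  Let `V` be a valuation ring containing `K`; `place_cases`.
* `x ∈ V`, `v(f(x)) = 1`: then `v(Z) = 1`, `x^a Z^{-b} ∈ V`, `unr_diff`.
* `v(x⁻¹) < 1`: `crit_inf` with `cb = Pi.single b (X^a)` (the sum is the single term; `b < e`),
  `Ord X⁻¹ (X^a) (-a)` (`ord_pow_inf`): `e (-a - 2) + (i+w) b + e - 1 ≥ 0` is the second condition of `Ix`.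
* `v(x) < 1`: `crit_zero`, `Ord X (X^a) a`: `e a - i b + e - 1 ≥ 0`.
* `v(x - c) < 1`, `c^w = 1` (so `c ≠ 0`): `crit_root`, order `0`: `- b + e - 1 ≥ 0`.
-/

set_option autoImplicit false

open Polynomial

namespace Pool.SG

variable {K F : Type} [Field K] [Field F] [Algebra K F] [Algebra (RatFunc K) F]
  [IsScalarTower K (RatFunc K) F]

omit [Algebra K F] [IsScalarTower K (RatFunc K) F] in
private theorem fu_sum {e : ℕ} {Z : F} (a : ℕ) (b : Fin e) :
    (∑ j : Fin e, algebraMap (RatFunc K) F ((Pi.single b (RatFunc.X ^ a) : Fin e → RatFunc K) j) *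
      Z ^ (-((j : ℕ) : ℤ))) = xx K F ^ a * Z ^ (-((b : ℕ) : ℤ)) := by
  rw [Finset.sum_eq_single b]
  · rw [Pi.single_eq_same, map_pow]; rfl
  · intro j _ hj
    rw [Pi.single_eq_of_ne hj, map_zero, zero_mul]
  · intro hb
    exact absurd (Finset.mem_univ b) hb

private theorem fu_all {e : ℕ} {P : Fin e → RatFunc K → Prop} (a : ℕ) (b : Fin e)
    (h : P b (RatFunc.X ^ a)) (j : Fin e) :
    (Pi.single b (RatFunc.X ^ a) : Fin e → RatFunc K) j = 0 ∨
      P j ((Pi.single b (RatFunc.X ^ a) : Fin e → RatFunc K) j) := by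
  by_cases hj : j = b
  · subst hj
    right
    rw [Pi.single_eq_same]
    exact h
  · left
    exact Pi.single_eq_of_ne hj _

theorem first_up {e i w : ℕ} {Z : F} (h : Cv K F e i w Z) {z : ℕ × ℕ} (hz : z ∈ Ix e i w) :
    (xx K F ^ z.1 * Z ^ (-(z.2 : ℤ))) • KaehlerDifferential.D K F (xx K F) ∈ firstKind K F := by
  obtain ⟨a, b⟩ := z
  unfold Ix at hz
  rw [Finset.mem_filter, Finset.mem_product, Finset.mem_Ico] at hz
  obtain ⟨⟨_, hb1, hb2⟩, h1, h2⟩ := hz
  dsimp only at hb1 hb2 h1 h2 ⊢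
  have he := h.he
  have hsum := fu_sum (K := K) (F := F) (Z := Z) a (⟨b, hb2⟩ : Fin e)
  dsimp only at hsum
  intro V hV
  rcases place_cases h hV with hinf | ⟨hx, hun | hzero | ⟨c, hc, hroot⟩⟩
  · rw [← hsum]
    refine (crit_inf h hV hinf _).2 (fu_all (P := fun j y => ∃ n : ℤ, Ord K (RatFunc.X)⁻¹ y n ∧
        0 ≤ (e : ℤ) * (n - 2) + (i + w) * (j : ℕ) + e - 1) a ⟨b, hb2⟩ ⟨_, ord_pow_inf a, ?_⟩)
    dsimp only
    zify at h2
    nlinarith
  · refine (unr_diff h hV hx hun _).2 ?_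
    refine (V.valuation_le_one_iff _).1 ?_
    have hvZ : V.valuation Z = 1 := by
      have h3 : V.valuation Z ^ e = 1 := by
        rw [← map_pow, h.eq, ud_xx_aeval]
        exact hun
      exact (pow_eq_one_iff_of_nonneg zero_le (by omega)).1 h3
    rw [map_mul, map_pow, map_zpow₀, hvZ, one_zpow, mul_one]
    exact pow_le_one' ((V.valuation_le_one_iff _).2 hx) a
  · rw [← hsum]
    refine (crit_zero h hV hzero _).2 (fu_all (P := fun j y => ∃ n : ℤ, Ord K RatFunc.X y n ∧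
        0 ≤ (e : ℤ) * n - i * (j : ℕ) + e - 1) a ⟨b, hb2⟩ ⟨_, ord_pow_zero a, ?_⟩)
    dsimp only
    have h1' : (i * b : ℤ) ≤ e * a + e - 1 := by
      have : i * b + 1 ≤ e * a + e := by omega
      zify at this
      linarith
    linarith
  · have hc0 : c ≠ 0 := by
      rintro rfl
      rw [zero_pow h.hw.ne'] at hc
      exact zero_ne_one hc
    rw [← hsum]
    refine (crit_root h hc hV hroot _).2 (fu_all (P := fun j y => ∃ n : ℤ,
        Ord K (RatFunc.X - RatFunc.C c) y n ∧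
        0 ≤ (e : ℤ) * n - (j : ℕ) + e - 1) a ⟨b, hb2⟩ ⟨_, ord_pow_root hc0 a, ?_⟩)
    dsimp only
    have hb2' : (b : ℤ) + 1 ≤ e := by exact_mod_cast hb2
    linarith

end Pool.SG
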