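import Pool.Agent.Lib.MP_a51fee_ag.SG.Defs

/-!
# Number theory of the genera: definitions (board SG)

All parameters are functions of `κ ∈ (0, 1/2]` and `ℓ = log log x`.
-/

set_option autoImplicit false

open Finset

namespace Pool.SG

/-- primes of `PP` larger than `z` for which the order of `p` has a prime factor `≥ Y` -/
def PQ (p : ℕ) (z Y : ℝ) (l : ℕ) : Prop :=
  PP p l ∧ z < l ∧ ∃ r : ℕ, r.Prime ∧ Y ≤ r ∧ r ∣ od p l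

/-- squarefree with all prime factors in `PQ` -/
def EE (p : ℕ) (z Y : ℝ) (n : ℕ) : Prop :=
  Squarefree n ∧ ∀ l, l.Prime → l ∣ n → PQ p z Y l

/-- the primes in `(u, v]` -/
noncomputable def pr (u v : ℝ) : Finset ℕ :=
  (Icc 1 ⌊v⌋₊).filter fun q => q.Prime ∧ u < q

/-- `z = exp (ℓ ^ 3)` -/
noncomputable def zz (ℓ : ℝ) : ℝ := Real.exp (ℓ ^ 3)

/-- `Y = exp (4 ℓ) = (log x) ^ 4` -/
noncomputable def YY (ℓ : ℝ) : ℝ := Real.exp (4 * ℓ)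

/-- `log v = (log x) ^ κ` -/
noncomputable def lv (κ ℓ : ℝ) : ℝ := Real.exp (κ * ℓ)

noncomputable def vv (κ ℓ : ℝ) : ℝ := Real.exp (lv κ ℓ)

/-- `log u = (log x) ^ (κ / 1000)` -/
noncomputable def uu (κ ℓ : ℝ) : ℝ := Real.exp (Real.exp (κ / 1000 * ℓ))

/-- `w = v ^ (1 / 2000)` -/
noncomputable def ww (κ ℓ : ℝ) : ℝ := Real.exp (lv κ ℓ / 2000)

/-- for every `κ0 > 0`, for large `ℓ`, uniformly for `κ ∈ [κ0, 1/2]` -/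
def Ev (P : ℝ → ℝ → Prop) : Prop :=
  ∀ κ0 : ℝ, 0 < κ0 → ∃ ℓ0 : ℝ, ∀ ℓ : ℝ, ℓ0 ≤ ℓ → ∀ κ : ℝ, κ0 ≤ κ → κ ≤ 1 / 2 → P κ ℓ

/-- the admissible moduli `D` -/
structure HD (p D : ℕ) : Prop where
  pos : 0 < D
  even : 2 ∣ D
  primes : ∀ q, q.Prime → q ∣ D → q = 2 ∨ q = p
  ex : ∃ τ : ℕ, Nat.Coprime τ (2 * p) ∧ Nat.Coprime (1 + D * τ) (2 * p) ∧
    jacobiSym (-(p : ℤ)) (1 + D * τ) = 1

/-- small primes of the scale -/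
noncomputable def P1 (κ ℓ : ℝ) : Finset ℕ := pr (uu κ ℓ) (ww κ ℓ)

/-- large primes of the scale -/
noncomputable def P2 (κ ℓ : ℝ) : Finset ℕ := pr (ww κ ℓ) (vv κ ℓ)

noncomputable def wt (A : Finset ℕ) : ℝ := ∏ q ∈ A, 1 / (q : ℝ)

def pd (A : Finset ℕ) : ℕ := ∏ q ∈ A, q

noncomputable def La (κ ℓ : ℝ) : ℝ := ∑ q ∈ P1 κ ℓ, 1 / (q : ℝ)

noncomputable def j0 (κ ℓ : ℝ) : ℕ := ⌊(1 - 1 / 500) * La κ ℓ / 2⌋₊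

open scoped Classical in
/-- the density of the integers composed of primes of `PQ`, up to `v` -/
noncomputable def sg (p : ℕ) (κ ℓ : ℝ) : ℝ :=
  ∏ q ∈ (pr 1 (vv κ ℓ)).filter (fun q => ¬ PQ p (zz ℓ) (YY ℓ) q), (1 - 1 / (q : ℝ))

/-- the sets `A` -/
noncomputable def AA (κ ℓ : ℝ) : Finset (Finset ℕ) :=
  (powersetCard (j0 κ ℓ) (P1 κ ℓ)).filter fun A => (pd A : ℝ) ≤ Real.exp (lv κ ℓ / 20)

/-- the sets `B` -/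
noncomputable def BB (κ ℓ : ℝ) : Finset (Finset ℕ) :=
  (P2 κ ℓ).powerset.filter fun B => B.Nonempty ∧ (pd B : ℝ) ≤ vv κ ℓ

/-- `e = 1 + D a b` is admissible -/
def SS (p D : ℕ) (ℓ : ℝ) (A B : Finset ℕ) : Prop :=
  EE p (zz ℓ) (YY ℓ) (1 + D * pd A * pd B)

/-- singular series factor -/
noncomputable def Fh (n : ℕ) : ℝ := ∏ q ∈ n.primeFactors, (1 + 6 / (q : ℝ))

theorem mem_pr {u v : ℝ} (hv : 0 ≤ v) {q : ℕ} : q ∈ pr u v ↔ q.Prime ∧ u < q ∧ (q : ℝ) ≤ v := by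
  unfold pr
  rw [mem_filter, mem_Icc, Nat.le_floor_iff hv]
  constructor
  · rintro ⟨⟨_, h1⟩, h2, h3⟩
    exact ⟨h2, h3, h1⟩
  · rintro ⟨h1, h2, h3⟩
    exact ⟨⟨h1.one_lt.le, h3⟩, h1, h2⟩

theorem Ev.mono {P Q : ℝ → ℝ → Prop} (h : Ev P) (hPQ : ∀ κ ℓ, P κ ℓ → Q κ ℓ) : Ev Q := by
  intro κ0 h0
  obtain ⟨ℓ0, h1⟩ := h κ0 h0
  exact ⟨ℓ0, fun ℓ hℓ κ hκ hκ' => hPQ _ _ (h1 ℓ hℓ κ hκ hκ')⟩

theorem Ev.and {P Q : ℝ → ℝ → Prop} (h : Ev P) (h' : Ev Q) : Ev fun κ ℓ => P κ ℓ ∧ Q κ ℓ := by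
  intro κ0 h0
  obtain ⟨ℓ0, h1⟩ := h κ0 h0
  obtain ⟨ℓ1, h2⟩ := h' κ0 h0
  exact ⟨max ℓ0 ℓ1, fun ℓ hℓ κ hκ hκ' => ⟨h1 ℓ ((le_max_left _ _).trans hℓ) κ hκ hκ',
    h2 ℓ ((le_max_right _ _).trans hℓ) κ hκ hκ'⟩⟩

theorem wt_nonneg (A : Finset ℕ) : 0 ≤ wt A :=
  prod_nonneg fun _ _ => by positivity

end Pool.SG
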