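import Pool.Agent.Lib.MP_a51fee_ag.SG.ND

/-!
# SG-NEv: growth of the parameters

PROOFS.  `κ ≥ κ0`, `ℓ → ∞`.
* `ev_lv`: `C ℓ^k ≤ exp (a κ0 ℓ)` for large `ℓ` (exponential beats polynomials,
  `Real.tendsto_pow_mul_exp_neg_atTop_nhds_zero` or `isLittleO_pow_exp`), and `a κ ℓ ≥ a κ0 ℓ`.
* `ev_uu`: take logarithms: `log C + k κ ℓ + 4 m ℓ ≤ exp (κ/1000 ℓ)`; `κ ≤ 1/2`; by `ev_lv`.
* `ev_ww`: logarithms: `log C + k exp (κ/1000 ℓ) + k ℓ^3 ≤ exp (κ ℓ)/2000`: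
  `exp (κ/1000 ℓ) ≤ exp(κ ℓ) exp(- 999/1000 κ0 ℓ)`.
-/

set_option autoImplicit false

namespace Pool.SG

theorem ev_ell (C : ℝ) : Ev fun _ ℓ => C ≤ ℓ := by
  intro κ0 _
  exact ⟨C, fun ℓ hℓ κ _ _ => hℓ⟩

theorem ev_lv (C : ℝ) (k : ℕ) {a : ℝ} (ha : 0 < a) :
    Ev fun κ ℓ => C * ℓ ^ k ≤ Real.exp (a * (κ * ℓ)) := by
  intro κ0 h0
  have h1 := (isLittleO_pow_exp_pos_mul_atTop (k := k) (b := a * κ0) (mul_pos ha h0)).bound
    (c := 1 / (|C| + 1)) (by positivity)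
  obtain ⟨ℓ0, h2⟩ := Filter.eventually_atTop.1 h1
  refine ⟨max ℓ0 0, fun ℓ hℓ κ hκ _ => ?_⟩
  have h3 := h2 ℓ ((le_max_left _ _).trans hℓ)
  have h4 : 0 ≤ ℓ := (le_max_right _ _).trans hℓ
  rw [Real.norm_eq_abs, Real.norm_eq_abs, abs_of_nonneg (pow_nonneg h4 k),
    abs_of_pos (Real.exp_pos _)] at h3
  have h5 : C * ℓ ^ k ≤ |C| * ℓ ^ k := mul_le_mul_of_nonneg_right (le_abs_self C) (pow_nonneg h4 k)
  have h6 : |C| * ℓ ^ k ≤ |C| * (1 / (|C| + 1) * Real.exp (a * κ0 * ℓ)) :=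
    mul_le_mul_of_nonneg_left h3 (abs_nonneg C)
  have h7 : |C| * (1 / (|C| + 1) * Real.exp (a * κ0 * ℓ)) ≤ Real.exp (a * κ0 * ℓ) := by
    rw [← mul_assoc]
    have h8 : |C| * (1 / (|C| + 1)) ≤ 1 := by
      rw [mul_one_div, div_le_one (by positivity)]
      linarith
    calc |C| * (1 / (|C| + 1)) * Real.exp (a * κ0 * ℓ) ≤ 1 * Real.exp (a * κ0 * ℓ) :=
          mul_le_mul_of_nonneg_right h8 (Real.exp_pos _).le
      _ = _ := one_mul _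
  have h9 : Real.exp (a * κ0 * ℓ) ≤ Real.exp (a * (κ * ℓ)) := by
    apply Real.exp_le_exp.2
    rw [mul_assoc]
    exact mul_le_mul_of_nonneg_left (mul_le_mul_of_nonneg_right hκ h4) ha.le
  linarith

private theorem le_exp_self' {C ℓ : ℝ} (h : C ≤ ℓ) : C ≤ Real.exp ℓ := by
  have := Real.add_one_le_exp ℓ
  linarith

theorem ev_uu (C : ℝ) (k m : ℕ) : Ev fun κ ℓ => C * lv κ ℓ ^ k * YY ℓ ^ m ≤ uu κ ℓ := by
  intro κ0 h0
  obtain ⟨ℓ0, h1⟩ := (((ev_ell C).and (ev_ell 0)).and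
    (ev_lv (1 + k / 2 + 4 * m) 1 (a := 1 / 1000) (by norm_num))) κ0 h0
  refine ⟨ℓ0, fun ℓ hℓ κ hκ hκ' => ?_⟩
  obtain ⟨⟨h2, h3⟩, h4⟩ := h1 ℓ hℓ κ hκ hκ'
  unfold lv YY uu
  rw [← Real.exp_nat_mul, ← Real.exp_nat_mul]
  have h5 : C * Real.exp (k * (κ * ℓ)) * Real.exp (m * (4 * ℓ)) ≤
      Real.exp ℓ * Real.exp (k * (κ * ℓ)) * Real.exp (m * (4 * ℓ)) := by
    apply mul_le_mul_of_nonneg_right _ (Real.exp_pos _).le
    apply mul_le_mul_of_nonneg_right _ (Real.exp_pos _).le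
    exact le_exp_self' h2
  refine h5.trans ?_
  rw [← Real.exp_add, ← Real.exp_add]
  apply Real.exp_le_exp.2
  have h6 : (k : ℝ) * (κ * ℓ) ≤ k * (1 / 2 * ℓ) :=
    mul_le_mul_of_nonneg_left (mul_le_mul_of_nonneg_right hκ' h3) (Nat.cast_nonneg k)
  have h7 : Real.exp (1 / 1000 * (κ * ℓ)) = Real.exp (κ / 1000 * ℓ) := by
    congr 1
    ring
  rw [← h7]
  refine le_trans ?_ h4
  rw [pow_one]
  linarith

theorem ev_ww (C : ℝ) (k : ℕ) : Ev fun κ ℓ => C * uu κ ℓ ^ k * zz ℓ ^ k ≤ ww κ ℓ := by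
  intro κ0 h0
  obtain ⟨ℓ0, h1⟩ := ((((ev_ell C).and (ev_lv 6000 1 (a := 1) one_pos)).and
    (ev_lv (6000 * k) 3 (a := 1) one_pos)).and
    (ev_lv (6000 * k) 0 (a := 999 / 1000) (by norm_num))) κ0 h0
  refine ⟨ℓ0, fun ℓ hℓ κ hκ hκ' => ?_⟩
  obtain ⟨⟨⟨h2, h3⟩, h4⟩, h5⟩ := h1 ℓ hℓ κ hκ hκ'
  unfold uu zz ww lv
  rw [← Real.exp_nat_mul, ← Real.exp_nat_mul]
  have h6 : C * Real.exp (k * Real.exp (κ / 1000 * ℓ)) * Real.exp (k * ℓ ^ 3) ≤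
      Real.exp ℓ * Real.exp (k * Real.exp (κ / 1000 * ℓ)) * Real.exp (k * ℓ ^ 3) := by
    apply mul_le_mul_of_nonneg_right _ (Real.exp_pos _).le
    apply mul_le_mul_of_nonneg_right _ (Real.exp_pos _).le
    exact le_exp_self' h2
  refine h6.trans ?_
  rw [← Real.exp_add, ← Real.exp_add]
  apply Real.exp_le_exp.2
  rw [pow_one, one_mul] at h3
  rw [one_mul] at h4
  rw [pow_zero, mul_one] at h5
  have h7 : 6000 * k * Real.exp (κ / 1000 * ℓ) ≤ Real.exp (κ * ℓ) := by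
    calc 6000 * k * Real.exp (κ / 1000 * ℓ)
        ≤ Real.exp (999 / 1000 * (κ * ℓ)) * Real.exp (κ / 1000 * ℓ) :=
          mul_le_mul_of_nonneg_right h5 (Real.exp_pos _).le
      _ = Real.exp (κ * ℓ) := by
          rw [← Real.exp_add]
          congr 1
          ring
  linarith

/-- `c ≤ C` style: a constant bound by `lv` -/
theorem ev_lv_const (C : ℝ) : Ev fun κ ℓ => C ≤ lv κ ℓ := by
  refine (ev_lv C 0 (a := 1) one_pos).mono ?_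
  intro κ ℓ h
  rw [pow_zero, mul_one, one_mul] at h
  exact h

end Pool.SG
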