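import Mathlib

/-!
# SG-NPois: the Poisson distribution is concentrated; Vandermonde

* `pois`: `∑_k (k - Λ)^2 Λ^k/k! = Λ e^Λ` (as `hasSum`; from `∑ Λ^k/k! = e^Λ`,
  `k Λ^k/k! = Λ Λ^{k-1}/(k-1)!`).  For `k` outside `Icc a b`: `k < a ≤ (1 - 1/500) Λ` or `k ≥ b + 1 ≥ 2 Λ`, so
  `|k - Λ| ≥ Λ/500` and `∑_{k ∉ Icc a b} Λ^k/k! ≤ (500/Λ)^2 Λ e^Λ = 250000 e^Λ / Λ ≤ e^Λ/2` for
  `Λ ≥ 500000`.
* `vand`: for `i ≤ j`, `2 j ≤ k`: the product of the four factors is
  `Λ^k / (i! (j-i)!^2 (k-2j+i)!) = (Λ^k/k!) C(k,j) C(j,i) C(k-j, j-i)`, and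
  `∑_i C(j,i) C(k-j,j-i) = C(k,j)` (`Nat.add_choose_eq`).
-/

set_option autoImplicit false

open Finset

namespace Pool.SG

private theorem npois_0 (Λ : ℝ) : HasSum (fun k : ℕ => Λ ^ k / k.factorial) (Real.exp Λ) := by
  have h := NormedSpace.expSeries_div_hasSum_exp (𝔸 := ℝ) Λ
  rwa [← Real.exp_eq_exp_ℝ] at h

private theorem npois_1 (Λ : ℝ) :
    HasSum (fun k : ℕ => (k : ℝ) * (Λ ^ k / k.factorial)) (Λ * Real.exp Λ) := by
  have h1 := (npois_0 Λ).mul_left Λ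
  have h2 : HasSum (fun k : ℕ => ((k + 1 : ℕ) : ℝ) * (Λ ^ (k + 1) / (k + 1).factorial))
      (Λ * Real.exp Λ) := by
    refine h1.congr_fun ?_
    intro k
    rw [Nat.factorial_succ]
    push_cast
    have h3 : (k.factorial : ℝ) ≠ 0 := by positivity
    have h4 : (k : ℝ) + 1 ≠ 0 := by positivity
    field_simp
    try ring
  have h3 := (hasSum_nat_add_iff (f := fun k : ℕ => (k : ℝ) * (Λ ^ k / k.factorial)) 1).1 h2
  simpa using h3

private theorem npois_2 (Λ : ℝ) :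
    HasSum (fun k : ℕ => (k : ℝ) * ((k : ℝ) - 1) * (Λ ^ k / k.factorial))
      (Λ ^ 2 * Real.exp Λ) := by
  have h1 := (npois_1 Λ).mul_left Λ
  have h2 : HasSum (fun k : ℕ => ((k + 1 : ℕ) : ℝ) * (((k + 1 : ℕ) : ℝ) - 1) *
      (Λ ^ (k + 1) / (k + 1).factorial)) (Λ ^ 2 * Real.exp Λ) := by
    rw [sq, mul_assoc]
    refine h1.congr_fun ?_
    intro k
    rw [Nat.factorial_succ]
    push_cast
    have h3 : (k.factorial : ℝ) ≠ 0 := by positivity
    have h4 : (k : ℝ) + 1 ≠ 0 := by positivity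
    field_simp
    try ring
  have h3 := (hasSum_nat_add_iff
    (f := fun k : ℕ => (k : ℝ) * ((k : ℝ) - 1) * (Λ ^ k / k.factorial)) 1).1 h2
  simpa using h3

theorem pois (Λ : ℝ) (hΛ : 500000 ≤ Λ) (a b : ℕ) (ha : (a : ℝ) ≤ (1 - 1 / 500) * Λ)
    (hb : 2 * Λ - 1 ≤ b) :
    1 / 2 * Real.exp Λ ≤ ∑ k ∈ Icc a b, Λ ^ k / k.factorial := by
  have hΛ0 : 0 < Λ := by linarith
  have hv : HasSum (fun k : ℕ => ((k : ℝ) - Λ) ^ 2 * (Λ ^ k / k.factorial))
      (Λ * Real.exp Λ) := by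
    have h := ((npois_2 Λ).add ((npois_1 Λ).mul_left (1 - 2 * Λ))).add
      ((npois_0 Λ).mul_left (Λ ^ 2))
    have e : Λ ^ 2 * Real.exp Λ + (1 - 2 * Λ) * (Λ * Real.exp Λ) + Λ ^ 2 * Real.exp Λ =
        Λ * Real.exp Λ := by ring
    rw [e] at h
    refine h.congr_fun ?_
    intro k
    ring
  have hg : HasSum (fun k : ℕ => Λ ^ k / k.factorial -
      (500 / Λ) ^ 2 * (((k : ℝ) - Λ) ^ 2 * (Λ ^ k / k.factorial)))
      (Real.exp Λ - (500 / Λ) ^ 2 * (Λ * Real.exp Λ)) :=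
    (npois_0 Λ).sub (hv.mul_left _)
  have hh : HasSum (fun k : ℕ => if k ∈ Icc a b then Λ ^ k / (k.factorial : ℝ) else 0)
      (∑ k ∈ Icc a b, Λ ^ k / k.factorial) := by
    have h1 : ∑ k ∈ Icc a b, Λ ^ k / (k.factorial : ℝ) =
        ∑ k ∈ Icc a b, if k ∈ Icc a b then Λ ^ k / (k.factorial : ℝ) else 0 :=
      sum_congr rfl fun k hk => by rw [if_pos hk]
    rw [h1]
    exact hasSum_sum_of_ne_finset_zero fun k hk => if_neg hk
  have hle := hasSum_le (fun k => ?_) hg hh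
  · refine le_trans ?_ hle
    have h1 : (500 / Λ) ^ 2 * (Λ * Real.exp Λ) = 250000 / Λ * Real.exp Λ := by
      field_simp
      norm_num
    rw [h1]
    have h2 : 250000 / Λ ≤ 1 / 2 := by
      rw [div_le_iff₀ hΛ0]
      linarith
    have h3 := mul_le_mul_of_nonneg_right h2 (Real.exp_pos Λ).le
    linarith
  · have hp : 0 ≤ Λ ^ k / (k.factorial : ℝ) := by positivity
    show Λ ^ k / (k.factorial : ℝ) -
      (500 / Λ) ^ 2 * (((k : ℝ) - Λ) ^ 2 * (Λ ^ k / k.factorial)) ≤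
      if k ∈ Icc a b then Λ ^ k / (k.factorial : ℝ) else 0
    split_ifs with hk
    · have : 0 ≤ (500 / Λ) ^ 2 * (((k : ℝ) - Λ) ^ 2 * (Λ ^ k / (k.factorial : ℝ))) := by positivity
      linarith
    · have h1 : (Λ / 500) ^ 2 ≤ ((k : ℝ) - Λ) ^ 2 := by
        rw [mem_Icc, not_and_or, not_le, not_le] at hk
        rcases hk with hk | hk
        · have h2 : (k : ℝ) ≤ a := by exact_mod_cast hk.le
          have h3 : Λ / 500 ≤ Λ - k := by linarith
          have h4 := pow_le_pow_left₀ (by positivity) h3 2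
          nlinarith
        · have h2 : (b : ℝ) + 1 ≤ k := by exact_mod_cast hk
          have h3 : Λ / 500 ≤ k - Λ := by linarith
          exact pow_le_pow_left₀ (by positivity) h3 2
      have h2 : 1 ≤ (500 / Λ) ^ 2 * ((k : ℝ) - Λ) ^ 2 := by
        have h3 : (500 / Λ) ^ 2 * (Λ / 500) ^ 2 = 1 := by
          field_simp
        rw [← h3]
        exact mul_le_mul_of_nonneg_left h1 (by positivity)
      have h3 := mul_le_mul_of_nonneg_right h2 hp
      linarith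

theorem vand (Λ : ℝ) (k j : ℕ) (h : 2 * j ≤ k) :
    ∑ i ∈ range (j + 1), (Λ ^ i / i.factorial) * (Λ ^ (j - i) / (j - i).factorial) ^ 2 *
        (Λ ^ (k - 2 * j + i) / (k - 2 * j + i).factorial) =
      Λ ^ k / k.factorial * (k.choose j : ℝ) ^ 2 := by
  have h1 : ∀ i ∈ range (j + 1), (Λ ^ i / i.factorial) *
      (Λ ^ (j - i) / (j - i).factorial) ^ 2 *
        (Λ ^ (k - 2 * j + i) / (k - 2 * j + i).factorial) =
      Λ ^ k / k.factorial * (k.choose j : ℝ) *
        ((j.choose i : ℝ) * ((k - j).choose (j - i) : ℝ)) := by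
    intro i hi
    rw [mem_range] at hi
    have hij : i ≤ j := by omega
    have e1 : (k.choose j : ℝ) = k.factorial / (j.factorial * (k - j).factorial) :=
      Nat.cast_choose ℝ (by omega)
    have e2 : (j.choose i : ℝ) = j.factorial / (i.factorial * (j - i).factorial) :=
      Nat.cast_choose ℝ hij
    have e3 : ((k - j).choose (j - i) : ℝ) =
        (k - j).factorial / ((j - i).factorial * (k - j - (j - i)).factorial) :=
      Nat.cast_choose ℝ (by omega)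
    have e4 : k - j - (j - i) = k - 2 * j + i := by omega
    have e5 : Λ ^ k = Λ ^ i * (Λ ^ (j - i)) ^ 2 * Λ ^ (k - 2 * j + i) := by
      rw [← pow_mul, ← pow_add, ← pow_add]
      congr 1
      omega
    rw [e1, e2, e3, e4, e5]
    have f1 : (k.factorial : ℝ) ≠ 0 := by positivity
    have f2 : (j.factorial : ℝ) ≠ 0 := by positivity
    have f3 : ((k - j).factorial : ℝ) ≠ 0 := by positivity
    have f4 : (i.factorial : ℝ) ≠ 0 := by positivity
    have f5 : ((j - i).factorial : ℝ) ≠ 0 := by positivity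
    have f6 : ((k - 2 * j + i).factorial : ℝ) ≠ 0 := by positivity
    field_simp
  rw [sum_congr rfl h1, ← mul_sum]
  have h2 : ∑ i ∈ range (j + 1), (j.choose i : ℝ) * ((k - j).choose (j - i) : ℝ) =
      (k.choose j : ℝ) := by
    have h3 := Nat.add_choose_eq j (k - j) j
    rw [Finset.Nat.sum_antidiagonal_eq_sum_range_succ_mk] at h3
    have h4 : j + (k - j) = k := by omega
    rw [h4] at h3
    rw [h3]
    push_cast
    rfl
  rw [h2]
  ring

end Pool.SG
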