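import Pool.Agent.Lib.MP_a51fee_ag.SG.NMert

/-!
# SG-WF: the singular series factor

PROOF of `Fh_bound`.  Let `S = m.primeFactors`.  Primes `q > T` in `S`: there are at most `log m/log 2 ≤ 2 T` of them, each
factor `1 + 6/q ≤ exp (6/T)`: product `≤ e^{12}`.
Primes `q ≤ T`: `∏_{q ∈ S, q ≤ T} (1 + 6/q) = 1 + ∑_{q ∈ S, q ≤ T} (6/q) ∏_{q' ∈ S, q' < q} (1 + 6/q')` (telescoping: induction on
the finite set, removing the largest element, `Finset.prod_one_add_ordered` or similar) and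
`∏_{q' < q} (1 + 6/q') ≤ exp (6 ∑_{q' ≤ q} 1/q') ≤ C (log q)^6` for `q ≥ 3`, resp. `1` for `q = 2` (`mert_inv`); as
`log q ≥ 1/2`: `(6/q) C (log q)^6 ≤ C' (log q)^7/q`.
PROOF of `log7_sum`.  `(log q)^7 (1 + log (1 + log q)) ≤ (1 + log q)^8 ≤ C √q`, `∑ q^{-3/2} < ∞`.
-/

set_option autoImplicit false

open Finset

namespace Pool.SG

private theorem prod_exp_le (A : Finset ℕ) :
    ∏ q ∈ A, (1 + 6 / (q : ℝ)) ≤ Real.exp (∑ q ∈ A, 6 / (q : ℝ)) := by
  rw [Real.exp_sum]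
  refine prod_le_prod (fun q _ => by positivity) fun q _ => ?_
  have := Real.add_one_le_exp (6 / (q : ℝ))
  linarith

private theorem two_pow_card_le (m : ℕ) (hm : 1 ≤ m) : 2 ^ m.primeFactors.card ≤ m := by
  calc 2 ^ m.primeFactors.card = ∏ _q ∈ m.primeFactors, 2 := by rw [prod_const]
    _ ≤ ∏ q ∈ m.primeFactors, q :=
        prod_le_prod' fun q hq => (Nat.prime_of_mem_primeFactors hq).two_le
    _ ≤ m := Nat.le_of_dvd hm (Nat.prod_primeFactors_dvd m)

open scoped Classical in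
theorem Fh_bound : ∃ C : ℝ, 0 < C ∧ ∀ T : ℝ, 2 ≤ T → ∀ m : ℕ, 1 ≤ m → Real.log m ≤ T →
    Fh m ≤ C * (1 + ∑ q ∈ m.primeFactors.filter (fun q : ℕ => (q : ℝ) ≤ T),
      Real.log q ^ 7 / q) := by
  obtain ⟨C, hC, hmert, -⟩ := mert_inv
  have hl2 : 0 < Real.log 2 := Real.log_pos (by norm_num)
  set K : ℝ := 6 * Real.exp (6 * C) / Real.log 2 with hK
  have hKpos : 0 < K := by positivity
  refine ⟨Real.exp 12 * (1 + K), by positivity, ?_⟩
  intro T hT m hm hlm
  have hT0 : 0 < T := by linarith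
  -- the large primes
  have hlarge : ∏ q ∈ m.primeFactors.filter (fun q : ℕ => ¬ (q : ℝ) ≤ T), (1 + 6 / (q : ℝ))
      ≤ Real.exp 12 := by
    refine (prod_exp_le _).trans (Real.exp_le_exp.2 ?_)
    have h1 : ∑ q ∈ m.primeFactors.filter (fun q : ℕ => ¬ (q : ℝ) ≤ T), 6 / (q : ℝ)
        ≤ ∑ _q ∈ m.primeFactors.filter (fun q : ℕ => ¬ (q : ℝ) ≤ T), 6 / T := by
      refine sum_le_sum fun q hq => ?_
      have h2 : ¬ (q : ℝ) ≤ T := (mem_filter.1 hq).2
      push Not at h2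
      exact div_le_div_of_nonneg_left (by norm_num) hT0 h2.le
    rw [sum_const, nsmul_eq_mul] at h1
    have h3 : ((m.primeFactors.filter (fun q : ℕ => ¬ (q : ℝ) ≤ T)).card : ℝ)
        ≤ (m.primeFactors.card : ℝ) := by exact_mod_cast card_filter_le _ _
    have h4 : (m.primeFactors.card : ℝ) * Real.log 2 ≤ T := by
      have h5 : ((2 : ℝ) ^ m.primeFactors.card) ≤ m := by exact_mod_cast two_pow_card_le m hm
      have h6 := Real.log_le_log (by positivity) h5
      rw [Real.log_pow] at h6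
      linarith
    have h7 : (m.primeFactors.card : ℝ) ≤ 2 * T := by
      have h8 := Real.log_two_gt_d9
      have h9 : (0 : ℝ) ≤ m.primeFactors.card := by positivity
      nlinarith
    have h10 : ((m.primeFactors.filter (fun q : ℕ => ¬ (q : ℝ) ≤ T)).card : ℝ) * (6 / T)
        ≤ (2 * T) * (6 / T) := by
      refine mul_le_mul_of_nonneg_right (h3.trans h7) (by positivity)
    have h11 : (2 * T) * (6 / T) = 12 := by
      field_simp
      norm_num
    linarith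
  -- the small primes
  have hsmall : ∏ q ∈ m.primeFactors.filter (fun q : ℕ => (q : ℝ) ≤ T), (1 + 6 / (q : ℝ))
      ≤ 1 + K * ∑ q ∈ m.primeFactors.filter (fun q : ℕ => (q : ℝ) ≤ T), Real.log q ^ 7 / q := by
    rw [prod_one_add_ordered, mul_sum]
    refine add_le_add le_rfl (sum_le_sum fun q hq => ?_)
    have hq1 : q.Prime := Nat.prime_of_mem_primeFactors (mem_filter.1 hq).1
    have hq2 : (2 : ℝ) ≤ q := by exact_mod_cast hq1.two_le
    have hlq : Real.log 2 ≤ Real.log q := Real.log_le_log (by norm_num) hq2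
    have hlq0 : 0 < Real.log q := lt_of_lt_of_le hl2 hlq
    have h1 : ∏ j ∈ (m.primeFactors.filter (fun q : ℕ => (q : ℝ) ≤ T)).filter (fun j => j < q),
        (1 + 6 / (j : ℝ)) ≤ Real.exp (6 * C) * Real.log q ^ 6 := by
      refine (prod_exp_le _).trans ?_
      have h2 : ∑ j ∈ (m.primeFactors.filter (fun q : ℕ => (q : ℝ) ≤ T)).filter (fun j => j < q),
          6 / (j : ℝ) ≤ 6 * ∑ j ∈ pr 1 (q : ℝ), 1 / (j : ℝ) := by
        rw [mul_sum]
        have h3 : ∀ j ∈ pr 1 (q : ℝ), 6 * (1 / (j : ℝ)) = 6 / (j : ℝ) := fun j _ => by ring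
        rw [sum_congr rfl h3]
        refine sum_le_sum_of_subset_of_nonneg ?_ fun j _ _ => by positivity
        intro j hj
        rw [mem_filter, mem_filter] at hj
        rw [mem_pr (by linarith)]
        have hj1 : j.Prime := Nat.prime_of_mem_primeFactors hj.1.1
        refine ⟨hj1, by exact_mod_cast hj1.one_lt, by exact_mod_cast hj.2.le⟩
      have h4 := (abs_le.1 (hmert q hq2)).2
      have h5 : ∑ j ∈ (m.primeFactors.filter (fun q : ℕ => (q : ℝ) ≤ T)).filter (fun j => j < q),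
          6 / (j : ℝ) ≤ 6 * C + 6 * Real.log (Real.log q) := by linarith
      refine (Real.exp_le_exp.2 h5).trans (le_of_eq ?_)
      rw [Real.exp_add]
      congr 1
      rw [show (6 : ℝ) * Real.log (Real.log q) = ((6 : ℕ) : ℝ) * Real.log (Real.log q) by norm_num,
        Real.exp_nat_mul, Real.exp_log hlq0]
    have h6 : 6 / (q : ℝ) * ∏ j ∈ (m.primeFactors.filter (fun q : ℕ => (q : ℝ) ≤ T)).filter
        (fun j => j < q), (1 + 6 / (j : ℝ)) ≤ 6 / (q : ℝ) * (Real.exp (6 * C) * Real.log q ^ 6) :=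
      mul_le_mul_of_nonneg_left h1 (by positivity)
    refine h6.trans ?_
    have h7 : K * (Real.log q ^ 7 / q)
        = 6 / (q : ℝ) * (Real.exp (6 * C) * Real.log q ^ 6) * (Real.log q / Real.log 2) := by
      rw [hK]
      have : (q : ℝ) ≠ 0 := by positivity
      field_simp
    rw [h7]
    have h8 : 1 ≤ Real.log q / Real.log 2 := by
      rw [le_div_iff₀ hl2]
      linarith
    have h9 : 0 ≤ 6 / (q : ℝ) * (Real.exp (6 * C) * Real.log q ^ 6) := by positivity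
    nlinarith
  unfold Fh
  rw [← prod_filter_mul_prod_filter_not m.primeFactors (fun q : ℕ => (q : ℝ) ≤ T)]
  set s : ℝ := ∑ q ∈ m.primeFactors.filter (fun q : ℕ => (q : ℝ) ≤ T), Real.log q ^ 7 / q with hs
  have hs0 : 0 ≤ s := by
    refine sum_nonneg fun q hq => ?_
    have hq1 : q.Prime := Nat.prime_of_mem_primeFactors (mem_filter.1 hq).1
    have hlq0 : 0 ≤ Real.log q := Real.log_natCast_nonneg q
    positivity
  have h1 : (∏ q ∈ m.primeFactors.filter (fun q : ℕ => (q : ℝ) ≤ T), (1 + 6 / (q : ℝ))) *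
      ∏ q ∈ m.primeFactors.filter (fun q : ℕ => ¬ (q : ℝ) ≤ T), (1 + 6 / (q : ℝ))
      ≤ (1 + K * s) * Real.exp 12 := by
    refine mul_le_mul hsmall hlarge (prod_nonneg fun q _ => by positivity) (by positivity)
  refine h1.trans ?_
  have h2 : 1 + K * s ≤ (1 + K) * (1 + s) := by nlinarith
  calc (1 + K * s) * Real.exp 12 ≤ ((1 + K) * (1 + s)) * Real.exp 12 :=
        mul_le_mul_of_nonneg_right h2 (Real.exp_pos _).le
    _ = Real.exp 12 * (1 + K) * (1 + s) := by ring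

theorem log7_sum : ∃ C : ℝ, 0 < C ∧ ∀ N : ℕ, ∑ q ∈ Icc 1 N,
    Real.log q ^ 7 * (1 + Real.log (1 + Real.log q)) / (q : ℝ) ^ 2 ≤ C := by
  set K : ℝ := 16 ^ 8 * Real.exp (1 / 2) with hK
  have hK0 : 0 < K := by positivity
  have hsum : Summable (fun n : ℕ => 1 / (n : ℝ) ^ (3 / 2 : ℝ)) :=
    Real.summable_one_div_nat_rpow.2 (by norm_num)
  have hnn : ∀ n : ℕ, 0 ≤ 1 / (n : ℝ) ^ (3 / 2 : ℝ) := fun n => by positivity
  refine ⟨K * ∑' n : ℕ, 1 / (n : ℝ) ^ (3 / 2 : ℝ) + 1, ?_, ?_⟩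
  · have h0 : 0 ≤ ∑' n : ℕ, 1 / (n : ℝ) ^ (3 / 2 : ℝ) := tsum_nonneg hnn
    positivity
  intro N
  have h1 : ∑ q ∈ Icc 1 N, Real.log q ^ 7 * (1 + Real.log (1 + Real.log q)) / (q : ℝ) ^ 2
      ≤ ∑ q ∈ Icc 1 N, K * (1 / (q : ℝ) ^ (3 / 2 : ℝ)) := by
    refine sum_le_sum fun q hq => ?_
    have hq1 : 1 ≤ q := (mem_Icc.1 hq).1
    have hq0 : (0 : ℝ) < q := by exact_mod_cast hq1
    set L := Real.log q with hL
    have hL0 : 0 ≤ L := Real.log_natCast_nonneg q
    have h2 : Real.log (1 + L) ≤ L := by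
      have := Real.log_le_sub_one_of_pos (x := 1 + L) (by linarith)
      linarith
    have h3 : L ^ 7 * (1 + Real.log (1 + L)) ≤ (1 + L) ^ 8 := by
      calc L ^ 7 * (1 + Real.log (1 + L)) ≤ (1 + L) ^ 7 * (1 + L) := by
            refine mul_le_mul (pow_le_pow_left₀ hL0 (by linarith) 7) (by linarith) ?_
              (by positivity)
            have := Real.log_nonneg (x := 1 + L) (by linarith)
            linarith
        _ = (1 + L) ^ 8 := by ring
    have h4 : (1 + L) ^ 8 ≤ K * (q : ℝ) ^ (1 / 2 : ℝ) := by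
      have h5 : (1 + L) ≤ 16 * Real.exp ((1 + L) / 16) := by
        have := Real.add_one_le_exp ((1 + L) / 16)
        linarith
      have h6 := pow_le_pow_left₀ (by linarith) h5 8
      refine h6.trans (le_of_eq ?_)
      rw [hK, mul_pow, ← Real.exp_nat_mul, Real.rpow_def_of_pos hq0, mul_assoc, ← Real.exp_add]
      congr 2
      rw [← hL]
      push_cast
      ring
    rw [div_le_iff₀ (by positivity)]
    have h7 : K * (1 / (q : ℝ) ^ (3 / 2 : ℝ)) * (q : ℝ) ^ 2 = K * (q : ℝ) ^ (1 / 2 : ℝ) := by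
      have h8 : (q : ℝ) ^ (2 : ℕ) = (q : ℝ) ^ (1 / 2 : ℝ) * (q : ℝ) ^ (3 / 2 : ℝ) := by
        rw [← Real.rpow_add hq0, ← Real.rpow_natCast]
        norm_num
      rw [h8]
      have : (q : ℝ) ^ (3 / 2 : ℝ) ≠ 0 := (Real.rpow_pos_of_pos hq0 _).ne'
      field_simp
    rw [h7]
    exact h3.trans h4
  refine h1.trans ?_
  rw [← mul_sum]
  have h2 : ∑ q ∈ Icc 1 N, 1 / (q : ℝ) ^ (3 / 2 : ℝ) ≤ ∑' n : ℕ, 1 / (n : ℝ) ^ (3 / 2 : ℝ) :=
    hsum.sum_le_tsum _ fun n _ => hnn n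
  have h3 := mul_le_mul_of_nonneg_left h2 hK0.le
  linarith

theorem Fh_one_le (m : ℕ) : 1 ≤ Fh m := by
  unfold Fh
  have h : ∏ _q ∈ m.primeFactors, (1 : ℝ) ≤ ∏ q ∈ m.primeFactors, (1 + 6 / (q : ℝ)) := by
    refine prod_le_prod (fun _ _ => by norm_num) fun q _ => ?_
    have : 0 ≤ 6 / (q : ℝ) := by positivity
    linarith
  simpa using h

end Pool.SG
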