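import Pool.Agent.Lib.MP_a51fee_ag.SG.ND
import Pool.Agent.Lib.MP_c77da8_nt.Mert
import Pool.Agent.Lib.MP_e3f158_nt.Mertens

/-!
# SG-NMert: Mertens' estimates for `pr u v`

Library: `Pool.Agent.Lib.MP_c77da8_nt` (file `Mert.lean`): `R_le : R J ≤ log J + 6`
(`R J = ∑_{q ≤ 2^J} 1/q`), `log_sum_le : ∑_{p ≤ n} log p / p ≤ log n + log 4`, `log_le_prod`;
`sum_inv_ge : log (log N) - 1 ≤ ∑_{p < N} 1/p`.
PROOFS.  `mert_inv`: upper bound from `R_le` with `2^J ≥ v`, `J ≤ log v / log 2 + 1`; lower bound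
`sum_inv_ge`.  The second statement is a difference of two instances of the first.
`mert_prod`: `1 - 1/q ≤ exp(-1/q)` and `1 - 1/q ≥ exp (-1/q - 1/q^2)` for `q ≥ 2`... (`1 - x ≥ exp (-(x + x^2))` for
`0 ≤ x ≤ 1/2`, `∑ 1/q^2 ≤ 1`).
`prod_ge`: the same inequality, `∑_q 1/q^2 ≤ ∑_{n≥2} 1/n^2 ≤ 1`.
-/

set_option autoImplicit false

open Finset

namespace Pool.SG

private theorem pr_one {v : ℝ} (hv : 0 ≤ v) : pr 1 v = Nat.primesLE ⌊v⌋₊ := by
  ext q
  rw [mem_pr hv, Nat.mem_primesLE, Nat.le_floor_iff hv]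
  constructor
  · rintro ⟨h1, _, h3⟩
    exact ⟨h3, h1⟩
  · rintro ⟨h1, h2⟩
    exact ⟨h2, by exact_mod_cast h2.one_lt, h1⟩

private theorem sum_split {u v : ℝ} (hu : 2 ≤ u) (huv : u ≤ v) :
    ∑ q ∈ pr 1 v, 1 / (q : ℝ) = ∑ q ∈ pr 1 u, 1 / (q : ℝ) + ∑ q ∈ pr u v, 1 / (q : ℝ) := by
  have hu0 : (0 : ℝ) ≤ u := by linarith
  have hv0 : (0 : ℝ) ≤ v := by linarith
  rw [← sum_union]
  · refine sum_congr ?_ fun _ _ => rfl
    ext q
    rw [mem_union, mem_pr hv0, mem_pr hu0, mem_pr hv0]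
    constructor
    · rintro ⟨h1, h2, h3⟩
      rcases le_or_gt (q : ℝ) u with h | h
      · exact Or.inl ⟨h1, h2, h⟩
      · exact Or.inr ⟨h1, h, h3⟩
    · rintro (⟨h1, h2, h3⟩ | ⟨h1, h2, h3⟩)
      · exact ⟨h1, h2, h3.trans huv⟩
      · exact ⟨h1, by linarith, h3⟩
  · rw [disjoint_left]
    intro q h1 h2
    rw [mem_pr hu0] at h1
    rw [mem_pr hv0] at h2
    linarith [h1.2.2, h2.2.1]

private theorem upper {v : ℝ} (hv : 2 ≤ v) :
    ∑ q ∈ pr 1 v, 1 / (q : ℝ) ≤ Real.log (Real.log v) + 8 := by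
  have hv0 : (0 : ℝ) ≤ v := by linarith
  have hl2 : 0 < Real.log 2 := Real.log_pos (by norm_num)
  have hlv : Real.log 2 ≤ Real.log v := Real.log_le_log (by norm_num) hv
  have hlv0 : 0 < Real.log v := lt_of_lt_of_le hl2 hlv
  set J := ⌈Real.log v / Real.log 2⌉₊ with hJ
  have hJ1 : 1 ≤ J := by
    rw [hJ, Nat.one_le_ceil_iff]
    positivity
  have hJle : (J : ℝ) ≤ 2 / Real.log 2 * Real.log v := by
    have h1 : (J : ℝ) < Real.log v / Real.log 2 + 1 := Nat.ceil_lt_add_one (by positivity)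
    have h2 : 1 ≤ Real.log v / Real.log 2 := by
      rw [le_div_iff₀ hl2]
      linarith
    have h3 : 2 / Real.log 2 * Real.log v = Real.log v / Real.log 2 + Real.log v / Real.log 2 := by
      ring
    rw [h3]
    linarith
  have hJge : v ≤ (2 : ℝ) ^ J := by
    have h1 : Real.log v / Real.log 2 ≤ J := Nat.le_ceil _
    rw [div_le_iff₀ hl2, ← Real.log_pow] at h1
    exact (Real.log_le_log_iff (by linarith) (by positivity)).1 h1
  have h4 : ∑ q ∈ pr 1 v, 1 / (q : ℝ) ≤ Pool.Agent.Lib.MP_c77da8_nt.Mert.R J := by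
    rw [pr_one hv0]
    unfold Pool.Agent.Lib.MP_c77da8_nt.Mert.R
    refine sum_le_sum_of_subset_of_nonneg ?_ fun p _ _ => by positivity
    intro q hq
    rw [Nat.mem_primesLE, Nat.le_floor_iff hv0] at hq
    rw [Nat.mem_primesLE]
    refine ⟨?_, hq.2⟩
    exact_mod_cast hq.1.trans hJge
  have h5 := Pool.Agent.Lib.MP_c77da8_nt.Mert.R_le J hJ1
  have h6 : Real.log J ≤ Real.log (2 / Real.log 2) + Real.log (Real.log v) := by
    rw [← Real.log_mul (by positivity) hlv0.ne']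
    exact Real.log_le_log (by exact_mod_cast hJ1) hJle
  have h7 : Real.log (2 / Real.log 2) ≤ 2 := by
    have h8 : 2 / Real.log 2 ≤ 3 := by
      rw [div_le_iff₀ hl2]
      have := Real.log_two_gt_d9
      linarith
    have h9 := Real.log_le_sub_one_of_pos (x := 2 / Real.log 2) (by positivity)
    linarith
  linarith

private theorem lower {v : ℝ} (hv : 2 ≤ v) :
    Real.log (Real.log v) - 1 ≤ ∑ q ∈ pr 1 v, 1 / (q : ℝ) := by
  have hv0 : (0 : ℝ) ≤ v := by linarith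
  have hl2 : 0 < Real.log 2 := Real.log_pos (by norm_num)
  have hlv : Real.log 2 ≤ Real.log v := Real.log_le_log (by norm_num) hv
  have hlv0 : 0 < Real.log v := lt_of_lt_of_le hl2 hlv
  have hN : 2 ≤ ⌊v⌋₊ := Nat.le_floor (by exact_mod_cast hv)
  have h1 := Pool.Agent.Lib.MP_c77da8_nt.Mert.sum_inv_ge (⌊v⌋₊ + 1) (by omega)
  have h2 : v ≤ ((⌊v⌋₊ + 1 : ℕ) : ℝ) := by
    push_cast
    exact (Nat.lt_floor_add_one v).le
  have h3 : Real.log (Real.log v) ≤ Real.log (Real.log ((⌊v⌋₊ + 1 : ℕ) : ℝ)) :=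
    Real.log_le_log hlv0 (Real.log_le_log (by linarith) h2)
  have h4 : ∑ p ∈ (⌊v⌋₊ + 1).primesBelow, (1 : ℝ) / p = ∑ q ∈ pr 1 v, 1 / (q : ℝ) := by
    rw [pr_one hv0]
    refine sum_congr ?_ fun _ _ => rfl
    ext q
    rw [Nat.mem_primesBelow, Nat.mem_primesLE, Nat.lt_succ_iff]
  linarith

theorem mert_inv : ∃ C : ℝ, 0 < C ∧
    (∀ v : ℝ, 2 ≤ v → |∑ q ∈ pr 1 v, 1 / (q : ℝ) - Real.log (Real.log v)| ≤ C) ∧
    (∀ u v : ℝ, 2 ≤ u → u ≤ v →
      |∑ q ∈ pr u v, 1 / (q : ℝ) - (Real.log (Real.log v) - Real.log (Real.log u))| ≤ C) := by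
  refine ⟨16, by norm_num, ?_, ?_⟩
  · intro v hv
    have h1 := upper hv
    have h2 := lower hv
    rw [abs_le]
    constructor <;> linarith
  · intro u v hu huv
    have h1 := upper hu
    have h2 := lower hu
    have h3 := upper (hu.trans huv)
    have h4 := lower (hu.trans huv)
    have h5 := sum_split hu huv
    rw [abs_le]
    constructor <;> linarith

theorem prod_ge (P : Finset ℕ) (hP : ∀ q ∈ P, q.Prime) :
    Real.exp (-(∑ q ∈ P, 1 / (q : ℝ)) - 1) ≤ ∏ q ∈ P, (1 - 1 / (q : ℝ)) := by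
  have hq2 : ∀ q ∈ P, (2 : ℝ) ≤ q := fun q hq => by exact_mod_cast (hP q hq).two_le
  have hpos : ∀ q ∈ P, 0 < 1 - 1 / (q : ℝ) := by
    intro q hq
    have h2 := hq2 q hq
    have : 1 / (q : ℝ) ≤ 1 / 2 := one_div_le_one_div_of_le (by norm_num) h2
    linarith
  have hprod : 0 < ∏ q ∈ P, (1 - 1 / (q : ℝ)) := prod_pos hpos
  rw [← Real.le_log_iff_exp_le hprod, Real.log_prod (fun q hq => (hpos q hq).ne')]
  have h1 : ∀ q ∈ P, -(1 / (q : ℝ)) - 1 / ((q : ℝ) * (q - 1)) ≤ Real.log (1 - 1 / (q : ℝ)) := by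
    intro q hq
    have h2 := hq2 q hq
    have h3 := Real.one_sub_inv_le_log_of_pos (hpos q hq)
    refine le_trans (le_of_eq ?_) h3
    have h4 : (q : ℝ) ≠ 0 := by positivity
    have h5 : (q : ℝ) - 1 ≠ 0 := by linarith
    field_simp
    ring
  refine le_trans ?_ (sum_le_sum h1)
  rw [sum_sub_distrib, sum_neg_distrib]
  have h6 : ∑ q ∈ P, 1 / ((q : ℝ) * (q - 1)) ≤ 1 := by
    set N := P.sup id with hN
    have h7 : P ⊆ Ico 2 (N + 2) := by
      intro q hq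
      rw [mem_Ico]
      have h8 : q ≤ N := le_sup (f := id) hq
      exact ⟨(hP q hq).two_le, by omega⟩
    have h8 := Pool.Agent.Lib.MP_c77da8_nt.Mert.sum_tail N
    have h9 : 0 ≤ 1 / ((N : ℝ) + 1) := by positivity
    refine (sum_le_sum_of_subset_of_nonneg h7 ?_).trans (h8.trans (by linarith))
    intro q hq _
    rw [mem_Ico] at hq
    have : (2 : ℝ) ≤ q := by exact_mod_cast hq.1
    have : (0 : ℝ) < (q : ℝ) - 1 := by linarith
    positivity
  linarith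

theorem mert_prod : ∃ c C : ℝ, 0 < c ∧ 0 < C ∧ ∀ v : ℝ, 2 ≤ v →
    c / Real.log v ≤ ∏ q ∈ pr 1 v, (1 - 1 / (q : ℝ)) ∧
      ∏ q ∈ pr 1 v, (1 - 1 / (q : ℝ)) ≤ C / Real.log v := by
  refine ⟨Real.exp (-9), Real.exp 1, Real.exp_pos _, Real.exp_pos _, ?_⟩
  intro v hv
  have hv0 : (0 : ℝ) ≤ v := by linarith
  have hl2 : 0 < Real.log 2 := Real.log_pos (by norm_num)
  have hlv : Real.log 2 ≤ Real.log v := Real.log_le_log (by norm_num) hv
  have hlv0 : 0 < Real.log v := lt_of_lt_of_le hl2 hlv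
  have hprime : ∀ q ∈ pr 1 v, q.Prime := fun q hq => ((mem_pr hv0).1 hq).1
  have hE : ∀ t : ℝ, Real.exp t / Real.log v = Real.exp (t - Real.log (Real.log v)) := by
    intro t
    rw [Real.exp_sub, Real.exp_log hlv0]
  constructor
  · refine le_trans ?_ (prod_ge _ hprime)
    rw [hE]
    refine Real.exp_le_exp.2 ?_
    have := upper hv
    linarith
  · have h1 : ∏ q ∈ pr 1 v, (1 - 1 / (q : ℝ)) ≤ ∏ q ∈ pr 1 v, Real.exp (-(1 / (q : ℝ))) := by
      refine prod_le_prod ?_ ?_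
      · intro q hq
        have h2 : (2 : ℝ) ≤ q := by exact_mod_cast (hprime q hq).two_le
        have : 1 / (q : ℝ) ≤ 1 / 2 := one_div_le_one_div_of_le (by norm_num) h2
        linarith
      · intro q hq
        have := Real.add_one_le_exp (-(1 / (q : ℝ)))
        linarith
    refine h1.trans ?_
    rw [← Real.exp_sum, sum_neg_distrib, hE]
    refine Real.exp_le_exp.2 ?_
    have := lower hv
    linarith

theorem mert_log : ∃ C : ℝ, 0 < C ∧ ∀ v : ℝ, 1 ≤ v →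
    ∑ q ∈ pr 1 v, Real.log q / q ≤ Real.log v + C := by
  refine ⟨Real.log 4, Real.log_pos (by norm_num), ?_⟩
  intro v hv
  have hv0 : (0 : ℝ) ≤ v := by linarith
  have hN : 1 ≤ ⌊v⌋₊ := Nat.le_floor (by exact_mod_cast hv)
  have h1 := Pool.Agent.Lib.MP_c77da8_nt.Mert.log_sum_le ⌊v⌋₊ hN
  have h2 : Real.log (⌊v⌋₊ : ℝ) ≤ Real.log v :=
    Real.log_le_log (by exact_mod_cast hN) (Nat.floor_le hv0)
  rw [pr_one hv0]
  linarith

end Pool.SG
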