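import Pool.Agent.Lib.MP_a51fee_ag.SG.NEv
import Pool.Agent.Lib.MP_a51fee_ag.SG.NMert

/-!
# SG-NScale: the parameters of a scale

PROOFS.  `log (log (ww κ ℓ)) = κ ℓ - log 2000`, `log (log (uu κ ℓ)) = κ ℓ / 1000`,
`log (log (vv κ ℓ)) = κ ℓ`.  `mert_inv` (second part; `2 ≤ uu ≤ ww ≤ vv` eventually) gives
`|La - (999/1000 κ ℓ - log 2000)| ≤ C`, `∑_{P2} 1/q ≤ log 2000 + C`.  Products: `prod_ge`.
`j0 = ⌊(1 - 1/500) La / 2⌋`.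
-/

set_option autoImplicit false

open Finset

namespace Pool.SG

private theorem ns_kl (C : ℝ) : Ev fun κ ℓ => C ≤ κ * ℓ := by
  intro κ0 h0
  refine ⟨max 0 (C / κ0), fun ℓ hℓ κ hκ _ => ?_⟩
  have h1 : 0 ≤ ℓ := (le_max_left _ _).trans hℓ
  have h2 : C / κ0 ≤ ℓ := (le_max_right _ _).trans hℓ
  rw [div_le_iff₀ h0] at h2
  have h3 : κ0 * ℓ ≤ κ * ℓ := mul_le_mul_of_nonneg_right hκ h1
  linarith [mul_comm ℓ κ0]

private theorem ns_uw : Ev fun κ ℓ => 2 ≤ uu κ ℓ ∧ uu κ ℓ ≤ ww κ ℓ := by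
  refine (((ev_uu 2 0 0).and (ev_ww 1 1)).and (ev_ell 0)).mono ?_
  rintro κ ℓ ⟨⟨h1, h2⟩, h3⟩
  rw [pow_zero, pow_zero, mul_one, mul_one] at h1
  rw [pow_one, pow_one, one_mul] at h2
  refine ⟨h1, le_trans ?_ h2⟩
  have h4 : 1 ≤ zz ℓ := by
    unfold zz
    exact Real.one_le_exp (by positivity)
  have h5 : 0 ≤ uu κ ℓ := by linarith
  nlinarith

private theorem ns_wv : Ev fun κ ℓ => 2 ≤ ww κ ℓ ∧ ww κ ℓ ≤ vv κ ℓ := by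
  refine (ev_lv_const 2000).mono ?_
  intro κ ℓ h
  constructor
  · unfold ww
    have h1 : (1 : ℝ) ≤ lv κ ℓ / 2000 := by linarith
    have h2 := Real.add_one_le_exp (lv κ ℓ / 2000)
    linarith
  · unfold ww vv
    apply Real.exp_le_exp.2
    linarith

private theorem ns_llu (κ ℓ : ℝ) : Real.log (Real.log (uu κ ℓ)) = κ / 1000 * ℓ := by
  unfold uu
  rw [Real.log_exp, Real.log_exp]

private theorem ns_llv (κ ℓ : ℝ) : Real.log (Real.log (vv κ ℓ)) = κ * ℓ := by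
  unfold vv lv
  rw [Real.log_exp, Real.log_exp]

private theorem ns_llw (κ ℓ : ℝ) : Real.log (Real.log (ww κ ℓ)) = κ * ℓ - Real.log 2000 := by
  unfold ww lv
  rw [Real.log_exp, Real.log_div (Real.exp_pos _).ne' (by norm_num), Real.log_exp]

private theorem ns_La : ∃ C : ℝ, 0 < C ∧ Ev fun κ ℓ =>
    |La κ ℓ - (999 / 1000 * (κ * ℓ) - Real.log 2000)| ≤ C := by
  obtain ⟨C, hC, -, h⟩ := mert_inv
  refine ⟨C, hC, ns_uw.mono ?_⟩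
  rintro κ ℓ ⟨h1, h2⟩
  have h3 := h _ _ h1 h2
  rw [ns_llu, ns_llw] at h3
  have h4 : κ * ℓ - Real.log 2000 - κ / 1000 * ℓ = 999 / 1000 * (κ * ℓ) - Real.log 2000 := by ring
  rw [h4] at h3
  exact h3

theorem La_low : ∃ C : ℝ, Ev fun κ ℓ => 999 / 1000 * (κ * ℓ) - C ≤ La κ ℓ := by
  obtain ⟨C, _, h⟩ := ns_La
  refine ⟨C + Real.log 2000, h.mono fun κ ℓ h => ?_⟩
  have := (abs_le.1 h).1
  linarith

theorem La_up : Ev fun κ ℓ => La κ ℓ ≤ κ * ℓ := by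
  obtain ⟨C, _, h⟩ := ns_La
  refine (h.and (ns_kl (1000 * C))).mono ?_
  rintro κ ℓ ⟨h, h1⟩
  have h2 := (abs_le.1 h).2
  have h3 : 0 ≤ Real.log 2000 := Real.log_nonneg (by norm_num)
  linarith

theorem La_large (C : ℝ) : Ev fun κ ℓ => C ≤ La κ ℓ := by
  obtain ⟨C', h⟩ := La_low
  refine (h.and (ns_kl (1000 / 999 * (C + C')))).mono ?_
  rintro κ ℓ ⟨h, h1⟩
  linarith

theorem j0_facts : Ev fun κ ℓ => 1 ≤ j0 κ ℓ ∧ 2 * (j0 κ ℓ : ℝ) ≤ (1 - 1 / 500) * La κ ℓ ∧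
    (1 - 1 / 500) * La κ ℓ ≤ 2 * (j0 κ ℓ : ℝ) + 2 ∧ (j0 κ ℓ : ℝ) ≤ lv κ ℓ := by
  refine ((La_large 4).and La_up).mono ?_
  rintro κ ℓ ⟨h1, h2⟩
  have h3 : 0 ≤ (1 - 1 / 500) * La κ ℓ / 2 := by linarith
  have h4 := Nat.floor_le h3
  have h5 := Nat.lt_floor_add_one ((1 - 1 / 500) * La κ ℓ / 2)
  have h6 := Real.add_one_le_exp (κ * ℓ)
  unfold j0 lv
  refine ⟨Nat.le_floor (by push_cast; linarith), by linarith, by linarith, by linarith⟩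

private theorem ns_prime {u v : ℝ} {q : ℕ} (h : q ∈ pr u v) : q.Prime := by
  unfold pr at h
  exact (mem_filter.1 h).2.1

theorem P1_prod : Ev fun κ ℓ =>
    Real.exp (-(La κ ℓ) - 1) ≤ ∏ q ∈ P1 κ ℓ, (1 - 1 / (q : ℝ)) := by
  refine (ev_ell 0).mono fun κ ℓ _ => ?_
  exact prod_ge (P1 κ ℓ) fun q hq => ns_prime hq

theorem P2_sum : ∃ C : ℝ, 0 < C ∧ Ev fun κ ℓ => ∑ q ∈ P2 κ ℓ, 1 / (q : ℝ) ≤ C := by
  obtain ⟨C, hC, -, h⟩ := mert_inv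
  have h0 : 0 ≤ Real.log 2000 := Real.log_nonneg (by norm_num)
  refine ⟨C + Real.log 2000, by linarith, ns_wv.mono ?_⟩
  rintro κ ℓ ⟨h1, h2⟩
  have h3 := (abs_le.1 (h _ _ h1 h2)).2
  rw [ns_llv, ns_llw] at h3
  unfold P2
  linarith

theorem P2_prod : ∃ c : ℝ, 0 < c ∧ Ev fun κ ℓ => c ≤ ∏ q ∈ P2 κ ℓ, (1 - 1 / (q : ℝ)) := by
  obtain ⟨C, _, h⟩ := P2_sum
  refine ⟨Real.exp (-C - 1), Real.exp_pos _, h.mono fun κ ℓ h => ?_⟩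
  refine le_trans (Real.exp_le_exp.2 ?_) (prod_ge (P2 κ ℓ) fun q hq => ns_prime hq)
  linarith

/-- `∑_{B ∈ BB} wt B` is bounded -/
theorem BB_sum : ∃ C : ℝ, 0 < C ∧ Ev fun κ ℓ => ∑ B ∈ (P2 κ ℓ).powerset, wt B ≤ C := by
  obtain ⟨C, _, h⟩ := P2_sum
  refine ⟨Real.exp C, Real.exp_pos _, h.mono fun κ ℓ h => ?_⟩
  have h1 : ∑ B ∈ (P2 κ ℓ).powerset, wt B = ∏ q ∈ P2 κ ℓ, (1 + 1 / (q : ℝ)) := by
    rw [Finset.prod_one_add]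
    rfl
  rw [h1]
  calc ∏ q ∈ P2 κ ℓ, (1 + 1 / (q : ℝ)) ≤ ∏ q ∈ P2 κ ℓ, Real.exp (1 / (q : ℝ)) := by
        refine prod_le_prod (fun q _ => by positivity) fun q _ => ?_
        have := Real.add_one_le_exp (1 / (q : ℝ))
        linarith
    _ = Real.exp (∑ q ∈ P2 κ ℓ, 1 / (q : ℝ)) := (Real.exp_sum _ _).symm
    _ ≤ Real.exp C := Real.exp_le_exp.2 h

theorem P_union : Ev fun κ ℓ => Disjoint (P1 κ ℓ) (P2 κ ℓ) ∧
    P1 κ ℓ ∪ P2 κ ℓ = pr (uu κ ℓ) (vv κ ℓ) := by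
  refine (ns_uw.and ns_wv).mono ?_
  rintro κ ℓ ⟨⟨h1, h2⟩, h3, h4⟩
  have hw0 : 0 ≤ ww κ ℓ := by linarith
  have hv0 : 0 ≤ vv κ ℓ := by linarith
  unfold P1 P2
  constructor
  · rw [disjoint_left]
    intro q hq hq'
    rw [mem_pr hw0] at hq
    rw [mem_pr hv0] at hq'
    linarith [hq.2.2, hq'.2.1]
  · ext q
    rw [mem_union, mem_pr hw0, mem_pr hv0, mem_pr hv0]
    constructor
    · rintro (⟨a, b, c⟩ | ⟨a, b, c⟩)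
      · exact ⟨a, b, c.trans h4⟩
      · exact ⟨a, lt_of_le_of_lt h2 b, c⟩
    · rintro ⟨a, b, c⟩
      rcases le_or_gt (q : ℝ) (ww κ ℓ) with h | h
      · exact Or.inl ⟨a, b, h⟩
      · exact Or.inr ⟨a, h, c⟩

end Pool.SG
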