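import Pool.Agent.Lib.MP_a51fee_ag.SG.ND

/-!
# Definitions for the lower bound (board SG)
-/

set_option autoImplicit false

open Finset

namespace Pool.SG

/-- a witness `τ` for `HD p D` -/
structure HT (p D τ : ℕ) : Prop where
  pos : 0 < D
  even : 2 ∣ D
  primes : ∀ q, q.Prime → q ∣ D → q = 2 ∨ q = p
  ct : Nat.Coprime τ (2 * p)
  cr : Nat.Coprime (1 + D * τ) (2 * p)
  jac : jacobiSym (-(p : ℤ)) (1 + D * τ) = 1

theorem wt_eq (A : Finset ℕ) : wt A = 1 / (pd A : ℝ) := by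
  unfold wt pd
  rw [prod_div_distrib, prod_const_one, Nat.cast_prod]

open scoped Classical in
/-- sets of primes of `PQ` whose product `f` satisfies `f ≡ -ρ mod 4` -/
noncomputable def FF (p ρ : ℕ) (κ ℓ : ℝ) : Finset (Finset ℕ) :=
  ((pr 1 (Real.exp (lv κ ℓ / 100))).filter (PQ p (zz ℓ) (YY ℓ))).powerset.filter
    fun G => (pd G : ℝ) ≤ Real.exp (lv κ ℓ / 10) ∧ (pd G + ρ) % 4 = 0

/-- the primes `L` for which `b = (f L - 1) / (D a)` is an integer without prime factors `≤ ww` -/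
def LL (p D ρ : ℕ) (κ ℓ : ℝ) (A G : Finset ℕ) (L : ℕ) : Prop :=
  L.Prime ∧ pd G * L ≡ ρ [MOD 4 * p * D] ∧ pd G * L ≡ 1 [MOD pd A] ∧
    ∀ q : ℕ, q.Prime → (q : ℝ) ≤ ww κ ℓ → ¬ (D * pd A * q ∣ pd G * L - 1)

open scoped Classical in
/-- the primes of the sieve -/
noncomputable def QQ (p : ℕ) (κ ℓ : ℝ) (A G : Finset ℕ) : Finset ℕ :=
  (pr 2 (Real.exp (lv κ ℓ / 1000))).filter fun q => ¬ q ∣ p * pd A * pd G

/-- the moduli of the sieve -/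
noncomputable def QS (p : ℕ) (κ ℓ : ℝ) (A G : Finset ℕ) : Finset (Finset ℕ) :=
  (QQ p κ ℓ A G).powerset.filter fun S => (pd S : ℝ) ≤ Real.exp (73 / 500 * lv κ ℓ)

/-- the admissible dyadic lengths -/
def YR (κ ℓ : ℝ) (y : ℕ) : Prop :=
  Real.exp (lv κ ℓ / 2) ≤ (y : ℝ) ∧ 2 * (y : ℝ) ≤ Real.exp (4 / 5 * lv κ ℓ)

end Pool.SG
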