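import Pool.Agent.Lib.MP_a51fee_ag.SG.WSa
import Pool.Agent.Lib.MP_a51fee_ag.SG.NScale
import Pool.Agent.Lib.MP_a51fee_ag.SG.SD

/-!
# SG-WSv: the sieve for the pairs

`a = pd A`, `a' = pd A'` (`a ≠ a'`: `A` is the set of prime factors of `a`), `m1 = D a β`, `m2 = D a' β`.
PROOF of `pair_sieve`.  Choose `t` with `1836 * 2^t log 2 ≤ (1/2) log y` and `2^(t+1) * 1836 log 2 > (1/2) log (ww/2)`
(exists as `y ≥ ww/2` is large; e.g. the largest `t` with `1836 * 2^t log 2 ≤ (1/2) log (ww/2)`).  `pair_count` with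
`R = PQ p (zz ℓ) (YY ℓ)` (an `EE` number has all its prime factors in `PQ`).
`z1 = 2^(3 * 2^t)`: `log z1 = 3 * 2^t log 2 ≥ (3/4)/1836 log (ww/2) ≥ c1 lv`, `z1 ≤ vv`.
* `∏_{pr 8 z1} (1 - 1/q) ≤ C ∏_{pr 1 z1} (1 - 1/q) ≤ C/log z1 ≤ C/lv` (`mert_prod`; the primes `≤ 8` cost a constant);
* `∏_{pr 8 z1, not PQ} (1 - 1/q) ≤ C sg`: `sg` has in addition the primes `≤ 8` and those in `(z1, vv]`, whose product is
 `≥ exp (-∑_{(z1, vv]} 1/q - 1) ≥ c` (`prod_ge`, `mert_inv`: `log log vv - log log z1 ≤ C`);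
* `Fh (m1 m2 |m1 - m2|) ≤ Fh D * Fh a * Fh a' * Fh β * Fh |a - a'|` (the prime factors of the product; `|m1 - m2| = D β |a - a'|`);
 `Fh D` is a constant; `Fh a ≤ exp (6 |A|/uu) ≤ 2` (primes of `a` are `> uu`, `|A| = j0 ≤ lv`), `Fh β ≤ 2` (primes `> ww`, at most
 `log β/log 2 ≤ 2 lv` of them).
`Fh_mul`, `Fh_le` are easy consequences of the definition.
-/

set_option autoImplicit false

open Finset

namespace Pool.SG

theorem Fh_mul (m n : ℕ) (hm : m ≠ 0) (hn : n ≠ 0) : Fh (m * n) ≤ Fh m * Fh n := by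
  unfold Fh
  rw [Nat.primeFactors_mul hm hn]
  have h1 := Finset.prod_union_inter (s₁ := m.primeFactors) (s₂ := n.primeFactors)
    (f := fun q : ℕ => 1 + 6 / (q : ℝ))
  rw [← h1]
  have h2 : (1 : ℝ) ≤ ∏ q ∈ m.primeFactors ∩ n.primeFactors, (1 + 6 / (q : ℝ)) := by
    refine Finset.prod_induction _ (fun x : ℝ => 1 ≤ x)
      (fun a b ha hb => one_le_mul_of_one_le_of_one_le ha hb) le_rfl ?_
    intro q _
    have : (0 : ℝ) ≤ 6 / (q : ℝ) := by positivity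
    linarith
  have h3 : (0 : ℝ) ≤ ∏ q ∈ m.primeFactors ∪ n.primeFactors, (1 + 6 / (q : ℝ)) :=
    Finset.prod_nonneg fun q _ => by positivity
  exact le_mul_of_one_le_right h3 h2

/-- all prime factors of `n` are `≥ u` -/
theorem Fh_le (n : ℕ) (u T : ℝ) (hn : 1 ≤ n) (hu : 0 < u) (h : ∀ q : ℕ, q.Prime → q ∣ n → u ≤ (q : ℝ))
    (hT : Real.log n ≤ T) : Fh n ≤ Real.exp (12 * T / u) := by
  have hl2 : (1 : ℝ) / 2 < Real.log 2 := by
    have := Real.log_two_gt_d9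
    linarith
  have h1 : Fh n ≤ Real.exp (∑ q ∈ n.primeFactors, 6 / (q : ℝ)) := by
    unfold Fh
    rw [Real.exp_sum]
    apply Finset.prod_le_prod
    · intro q _
      positivity
    · intro q _
      have := Real.add_one_le_exp (6 / (q : ℝ))
      linarith
  refine h1.trans (Real.exp_le_exp.2 ?_)
  have h2 : ∑ q ∈ n.primeFactors, 6 / (q : ℝ) ≤ ∑ _q ∈ n.primeFactors, 6 / u := by
    apply Finset.sum_le_sum
    intro q hq
    apply div_le_div_of_nonneg_left (by norm_num) hu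
    exact h q (Nat.prime_of_mem_primeFactors hq) (Nat.dvd_of_mem_primeFactors hq)
  rw [Finset.sum_const, nsmul_eq_mul] at h2
  have h3 : (n.primeFactors.card : ℝ) * Real.log 2 ≤ Real.log n := by
    have h4 : Real.log ((∏ q ∈ n.primeFactors, q : ℕ) : ℝ) ≤ Real.log n := by
      apply Real.log_le_log
      · exact_mod_cast Finset.prod_pos fun q hq => (Nat.prime_of_mem_primeFactors hq).pos
      · exact_mod_cast Nat.le_of_dvd (by omega) (Nat.prod_primeFactors_dvd n)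
    rw [Nat.cast_prod, Real.log_prod (fun q hq => by
      exact_mod_cast (Nat.prime_of_mem_primeFactors hq).ne_zero)] at h4
    refine le_trans ?_ h4
    rw [← nsmul_eq_mul, ← Finset.sum_const]
    apply Finset.sum_le_sum
    intro q hq
    apply Real.log_le_log (by norm_num)
    exact_mod_cast (Nat.prime_of_mem_primeFactors hq).two_le
  have h5 : (0 : ℝ) ≤ n.primeFactors.card := Nat.cast_nonneg _
  have h6 : (n.primeFactors.card : ℝ) ≤ 2 * T := by nlinarith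
  refine h2.trans ?_
  rw [← mul_div_assoc]
  apply div_le_div_of_nonneg_right _ hu.le
  linarith

theorem pd_ne {κ ℓ : ℝ} {A A' : Finset ℕ} (hA : A ∈ AA κ ℓ) (hA' : A' ∈ AA κ ℓ) (h : A ≠ A') :
    pd A ≠ pd A' := by
  intro he
  apply h
  have key : ∀ B ∈ AA κ ℓ, (pd B).primeFactors = B := by
    intro B hB
    unfold AA at hB
    have h1 := (Finset.mem_powersetCard.1 (Finset.mem_filter.1 hB).1).1
    apply Nat.primeFactors_prod
    intro q hq
    have h2 := h1 hq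
    unfold P1 pr at h2
    exact (Finset.mem_filter.1 h2).2.1
  rw [← key A hA, ← key A' hA', he]

private theorem wsv_AA {κ ℓ : ℝ} {A : Finset ℕ} (hA : A ∈ AA κ ℓ) :
    (∀ q ∈ A, q.Prime ∧ uu κ ℓ < q) ∧ 1 ≤ pd A ∧ Real.log (pd A) ≤ lv κ ℓ / 20 ∧
      ∀ q : ℕ, q.Prime → q ∣ pd A → uu κ ℓ ≤ (q : ℝ) := by
  unfold AA at hA
  obtain ⟨h0, h1⟩ := Finset.mem_filter.1 hA
  have h2 := (Finset.mem_powersetCard.1 h0).1
  have h3 : ∀ q ∈ A, q.Prime ∧ uu κ ℓ < q := by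
    intro q hq
    have h4 := h2 hq
    unfold P1 pr at h4
    exact (Finset.mem_filter.1 h4).2
  have h5 : 1 ≤ pd A := Finset.prod_pos fun q hq => (h3 q hq).1.pos
  refine ⟨h3, h5, ?_, ?_⟩
  · have h6 : (0 : ℝ) < pd A := by exact_mod_cast h5
    exact (Real.log_le_iff_le_exp h6).2 h1
  · intro q hq hd
    unfold pd at hd
    obtain ⟨r, hr, hr2⟩ := (Prime.dvd_finsetProd_iff hq.prime _).1 hd
    rw [(Nat.prime_dvd_prime_iff_eq hq (h3 r hr).1).1 hr2]
    exact (h3 r hr).2.le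

private theorem wsv_pos {u v : ℝ} (q : ℕ) (hq : q ∈ pr u v) : (0 : ℝ) < 1 - 1 / (q : ℝ) := by
  unfold pr at hq
  have h1 : (1 : ℝ) < q := by exact_mod_cast (Finset.mem_filter.1 hq).2.1.one_lt
  rw [sub_pos, div_lt_one (by linarith)]
  exact h1

private theorem wsv_le1 (q : ℕ) : 1 - 1 / (q : ℝ) ≤ 1 := by
  have : (0 : ℝ) ≤ 1 / (q : ℝ) := by positivity
  linarith

private theorem wsv_sub {S T : Finset ℕ} (hST : S ⊆ T) (f : ℕ → ℝ) (h0 : ∀ q ∈ T, 0 ≤ f q)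
    (h1 : ∀ q ∈ T, f q ≤ 1) : ∏ q ∈ T, f q ≤ ∏ q ∈ S, f q := by
  rw [← Finset.prod_sdiff hST]
  refine mul_le_of_le_one_left (Finset.prod_nonneg fun q hq => h0 q (hST hq)) ?_
  exact Finset.prod_le_one (fun q hq => h0 q (Finset.mem_sdiff.1 hq).1)
    fun q hq => h1 q (Finset.mem_sdiff.1 hq).1

private theorem wsv_split {z : ℝ} (hz : 8 ≤ z) : Disjoint (pr 1 8) (pr 8 z) ∧
    pr 1 8 ∪ pr 8 z = pr 1 z := by
  constructor
  · rw [Finset.disjoint_left]
    intro q h1 h2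
    have h3 := ((mem_pr (by norm_num)).1 h1).2.2
    have h4 := ((mem_pr (by linarith)).1 h2).2.1
    linarith
  · ext q
    rw [Finset.mem_union, mem_pr (by norm_num), mem_pr (by linarith), mem_pr (by linarith)]
    constructor
    · rintro (⟨h1, h2, h3⟩ | ⟨h1, h2, h3⟩)
      · exact ⟨h1, h2, by linarith⟩
      · exact ⟨h1, by linarith, h3⟩
    · rintro ⟨h1, h2, h3⟩
      rcases le_or_gt (q : ℝ) 8 with h4 | h4
      · exact Or.inl ⟨h1, h2, h4⟩
      · exact Or.inr ⟨h1, h4, h3⟩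

open scoped Classical in
private theorem wsv_sg {R : ℕ → Prop} {z v : ℝ} (hz : 8 ≤ z) (hzv : z ≤ v) :
    (∏ q ∈ (pr 8 z).filter (fun q => ¬ R q), (1 - 1 / (q : ℝ))) *
      ((∏ q ∈ pr 1 8, (1 - 1 / (q : ℝ))) * ∏ q ∈ pr z v, (1 - 1 / (q : ℝ))) ≤
    ∏ q ∈ (pr 1 v).filter (fun q => ¬ R q), (1 - 1 / (q : ℝ)) := by
  have h0 : ∀ q ∈ pr 1 v, (0 : ℝ) < 1 - 1 / (q : ℝ) := wsv_pos
  have hsub : pr 8 z ⊆ pr 1 v := by
    intro q hq
    obtain ⟨h1, h2, h3⟩ := (mem_pr (by linarith)).1 hq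
    exact (mem_pr (by linarith)).2 ⟨h1, by linarith, by linarith⟩
  have hsub1 : pr 1 8 ⊆ pr 1 v := by
    intro q hq
    obtain ⟨h1, h2, h3⟩ := (mem_pr (by norm_num)).1 hq
    exact (mem_pr (by linarith)).2 ⟨h1, h2, by linarith⟩
  have hsub2 : pr z v ⊆ pr 1 v := by
    intro q hq
    obtain ⟨h1, h2, h3⟩ := (mem_pr (by linarith)).1 hq
    exact (mem_pr (by linarith)).2 ⟨h1, by linarith, h3⟩
  have hS : (pr 8 z).filter (fun q => ¬ R q) ⊆ (pr 1 v).filter (fun q => ¬ R q) :=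
    Finset.filter_subset_filter _ hsub
  rw [← Finset.prod_sdiff hS, mul_comm]
  apply mul_le_mul_of_nonneg_right
  · have hd : Disjoint (pr 1 8) (pr z v) := by
      rw [Finset.disjoint_left]
      intro q h1 h2
      have h3 := ((mem_pr (by norm_num)).1 h1).2.2
      have h4 := ((mem_pr (by linarith)).1 h2).2.1
      linarith
    rw [← Finset.prod_union hd]
    apply wsv_sub
    · intro q hq
      rw [Finset.mem_sdiff, Finset.mem_filter, Finset.mem_filter] at hq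
      obtain ⟨⟨h1, h2⟩, h3⟩ := hq
      obtain ⟨g1, g2, g3⟩ := (mem_pr (by linarith)).1 h1
      rw [Finset.mem_union, mem_pr (by norm_num), mem_pr (by linarith)]
      rcases le_or_gt (q : ℝ) 8 with g4 | g4
      · exact Or.inl ⟨g1, g2, g4⟩
      · right
        refine ⟨g1, ?_, g3⟩
        by_contra g5
        push Not at g5
        exact h3 ⟨(mem_pr (by linarith)).2 ⟨g1, g4, g5⟩, h2⟩
    · intro q hq
      rcases Finset.mem_union.1 hq with h1 | h1
      · exact (h0 q (hsub1 h1)).le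
      · exact (h0 q (hsub2 h1)).le
    · intro q _
      exact wsv_le1 q
  · exact Finset.prod_nonneg fun q hq => (wsv_pos q (Finset.mem_filter.1 hq).1).le

open scoped Classical in
theorem pair_sieve (p D : ℕ) (hD : 0 < D) : ∃ C : ℝ, 0 < C ∧ Ev fun κ ℓ =>
    ∀ A ∈ AA κ ℓ, ∀ A' ∈ AA κ ℓ, A ≠ A' → ∀ β : ℕ, 1 ≤ β → (β : ℝ) ≤ vv κ ℓ →
      (∀ q : ℕ, q.Prime → q ∣ β → ww κ ℓ < (q : ℝ)) → ∀ y : ℕ, ww κ ℓ ≤ 2 * (y : ℝ) →
      (((Ioc y (2 * y)).filter (fun P => P.Prime ∧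
          EE p (zz ℓ) (YY ℓ) (1 + D * pd A * (β * P)) ∧
          EE p (zz ℓ) (YY ℓ) (1 + D * pd A' * (β * P)))).card : ℝ) ≤
        C * y * (sg p κ ℓ ^ 2 / lv κ ℓ) * Fh (Nat.dist (pd A) (pd A')) + Real.sqrt y := by
  obtain ⟨Cm, hCm, -, hmi⟩ := mert_inv
  obtain ⟨cp, Cp, hcp, hCp, hmp⟩ := mert_prod
  set a8 : ℝ := ∏ q ∈ pr 1 8, (1 - 1 / (q : ℝ)) with ha8
  have ha8p : 0 < a8 := Finset.prod_pos fun q hq => wsv_pos q hq
  set c1 : ℝ := 3 / 4 / 20000000 with hc1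
  have hc1p : 0 < c1 := by norm_num [hc1]
  set a9 : ℝ := a8 * Real.exp (-(Real.log (1 / c1) + Cm) - 1) with ha9
  have ha9p : 0 < a9 := by positivity
  set K : ℝ := Fh D ^ 3 * Real.exp 1 ^ 5 with hK
  have hFpos : ∀ n : ℕ, 0 < Fh n := fun n => Finset.prod_pos fun q _ => by positivity
  have hKp : 0 < K := mul_pos (pow_pos (hFpos D) 3) (by positivity)
  refine ⟨6 * (Cp / (a8 * c1)) * (1 / a9 ^ 2) * K, by positivity, ?_⟩
  have hev : Ev fun κ ℓ => 12 * lv κ ℓ ≤ uu κ ℓ ∧ 100000000 ≤ lv κ ℓ := by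
    refine ((ev_uu 12 1 0).and (ev_lv_const 100000000)).mono ?_
    rintro κ ℓ ⟨h1, h2⟩
    rw [pow_one, pow_zero, mul_one] at h1
    exact ⟨h1, h2⟩
  refine hev.mono ?_
  rintro κ ℓ ⟨hu12, hlv⟩ A hA A' hA' hne β hβ1 hβv hβp y hy
  obtain ⟨-, hA1, hA2, hA3⟩ := wsv_AA hA
  obtain ⟨-, hA1', hA2', hA3'⟩ := wsv_AA hA'
  set L := lv κ ℓ with hL
  have hLp : 0 < L := by linarith
  have hup : 0 < uu κ ℓ := Real.exp_pos _
  have hwp : 0 < ww κ ℓ := Real.exp_pos _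
  have hw12 : 12 * L ≤ ww κ ℓ := by
    unfold ww
    rw [← hL]
    refine le_trans ?_ (Real.quadratic_le_exp_of_nonneg (by positivity))
    nlinarith
  have hne' := pd_ne hA hA' hne
  have hl2 : (1 : ℝ) / 2 < Real.log 2 := by
    have := Real.log_two_gt_d9
    linarith
  have hl2' : Real.log 2 < 7 / 10 := by
    have := Real.log_two_lt_d9
    linarith
  -- the level
  set Z : ℝ := L / 20000000 with hZ
  have hZ1 : 1 ≤ Z := by
    rw [hZ, le_div_iff₀ (by norm_num)]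
    linarith
  set t := Nat.log 2 ⌊Z⌋₊ with ht
  have hfl : ⌊Z⌋₊ ≠ 0 := by
    have : 1 ≤ ⌊Z⌋₊ := Nat.le_floor (by exact_mod_cast hZ1)
    omega
  have ht1 : (2 : ℝ) ^ t ≤ Z := by
    have h1 : 2 ^ t ≤ ⌊Z⌋₊ := Nat.pow_log_le_self 2 hfl
    have h2 : ((2 ^ t : ℕ) : ℝ) ≤ (⌊Z⌋₊ : ℝ) := by exact_mod_cast h1
    push_cast at h2
    exact h2.trans (Nat.floor_le (by linarith))
  have ht2 : Z < 2 * (2 : ℝ) ^ t := by
    have h1 : ⌊Z⌋₊ < 2 ^ (t + 1) := Nat.lt_pow_succ_log_self one_lt_two _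
    have h2 : ((⌊Z⌋₊ + 1 : ℕ) : ℝ) ≤ ((2 ^ (t + 1) : ℕ) : ℝ) := by exact_mod_cast h1
    push_cast at h2
    have h3 := Nat.lt_floor_add_one Z
    rw [pow_succ] at h2
    linarith
  have hyp : (0 : ℝ) < y := by linarith
  have hlogy : L / 4000 ≤ Real.log y := by
    have h1 : Real.log (ww κ ℓ) ≤ Real.log (2 * (y : ℝ)) := Real.log_le_log hwp hy
    rw [Real.log_mul (by norm_num) hyp.ne'] at h1
    unfold ww at h1
    rw [Real.log_exp, ← hL] at h1
    linarith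
  have hyt : (2 : ℝ) ^ (1836 * 2 ^ t) ≤ Real.sqrt y := by
    apply Real.le_sqrt_of_sq_le
    apply (Real.log_le_log_iff (by positivity) hyp).1
    rw [Real.log_pow, Real.log_pow]
    push_cast
    have h1 : (2 : ℝ) * (1836 * 2 ^ t * Real.log 2) ≤ 2 * (1836 * Z * (7 / 10)) := by
      apply mul_le_mul_of_nonneg_left _ (by norm_num)
      apply mul_le_mul (mul_le_mul_of_nonneg_left ht1 (by norm_num)) hl2'.le (by linarith)
      positivity
    refine h1.trans (le_trans ?_ hlogy)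
    rw [hZ]
    linarith
  set m1 := D * pd A * β with hm1
  set m2 := D * pd A' * β with hm2
  have hm1p : 0 < m1 := by positivity
  have hm2p : 0 < m2 := by positivity
  have hmne : m1 ≠ m2 := by
    rw [hm1, hm2]
    intro h1
    exact hne' (Nat.eq_of_mul_eq_mul_left hD (Nat.eq_of_mul_eq_mul_right (by omega) h1))
  have hcount := pair_count (PQ p (zz ℓ) (YY ℓ)) m1 m2 hm1p hm2p hmne t y hyt
  have hsubc : (((Ioc y (2 * y)).filter (fun P => P.Prime ∧
          EE p (zz ℓ) (YY ℓ) (1 + D * pd A * (β * P)) ∧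
          EE p (zz ℓ) (YY ℓ) (1 + D * pd A' * (β * P)))).card : ℝ) ≤
      (((Ioc y (2 * y)).filter (fun P => P.Prime ∧
        (∀ q : ℕ, q.Prime → q ∣ 1 + m1 * P → PQ p (zz ℓ) (YY ℓ) q) ∧
        ∀ q : ℕ, q.Prime → q ∣ 1 + m2 * P → PQ p (zz ℓ) (YY ℓ) q)).card : ℝ) := by
    apply Nat.cast_le.2
    apply Finset.card_le_card
    intro P hP
    obtain ⟨h1, h2, h3, h4⟩ := Finset.mem_filter.1 hP
    rw [← mul_assoc] at h3 h4
    exact Finset.mem_filter.2 ⟨h1, h2, h3.2, h4.2⟩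
  refine hsubc.trans (hcount.trans ?_)
  -- the modulus `z1`
  set z1 : ℝ := 2 ^ (3 * 2 ^ t) with hz1
  have hlz : Real.log z1 = 3 * 2 ^ t * Real.log 2 := by
    rw [hz1, Real.log_pow]
    push_cast
    ring
  have h2t : (1 : ℝ) ≤ 2 ^ t := one_le_pow₀ (by norm_num)
  have hz8 : 8 ≤ z1 := by
    have h1 : (2 : ℝ) ^ 3 ≤ 2 ^ (3 * 2 ^ t) := by
      apply pow_le_pow_right₀ (by norm_num)
      have : 1 ≤ 2 ^ t := Nat.one_le_two_pow
      omega
    rw [hz1]
    linarith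
  have hlz1 : c1 * L ≤ Real.log z1 := by
    rw [hlz]
    have h1 : c1 * L = 3 / 4 * Z := by
      rw [hc1, hZ]
      ring
    rw [h1]
    nlinarith
  have hlz2 : Real.log z1 ≤ L := by
    rw [hlz]
    have h1 : (3 : ℝ) * 2 ^ t * Real.log 2 ≤ 3 * Z * 1 := by
      apply mul_le_mul (mul_le_mul_of_nonneg_left ht1 (by norm_num)) (by linarith) (by linarith)
      positivity
    rw [hZ] at h1
    linarith
  have hz1p : 0 < z1 := by positivity
  have hzv : z1 ≤ vv κ ℓ := by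
    unfold vv
    rw [← hL]
    exact (Real.log_le_iff_le_exp hz1p).1 hlz2
  -- first product
  have hP1 : ∏ q ∈ pr 8 z1, (1 - 1 / (q : ℝ)) ≤ Cp / (a8 * c1) / L := by
    have h1 := (hmp z1 (by linarith)).2
    obtain ⟨h2, h3⟩ := wsv_split hz8
    rw [← h3, Finset.prod_union h2, ← ha8] at h1
    have h4 : Cp / Real.log z1 ≤ Cp / (c1 * L) :=
      div_le_div_of_nonneg_left hCp.le (by positivity) hlz1
    have h5 := h1.trans h4
    rw [div_div, le_div_iff₀ (by positivity)]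
    rw [le_div_iff₀ (by positivity)] at h5
    linarith
  -- second product
  have hsgp : 0 < sg p κ ℓ := by
    unfold sg
    exact Finset.prod_pos fun q hq => wsv_pos q (Finset.mem_filter.1 hq).1
  have hP2' : ∏ q ∈ (pr 8 z1).filter (fun q => ¬ PQ p (zz ℓ) (YY ℓ) q), (1 - 1 / (q : ℝ)) ≤
      sg p κ ℓ / a9 := by
    have h1 := wsv_sg (R := PQ p (zz ℓ) (YY ℓ)) hz8 hzv
    have h2 : a9 ≤ (∏ q ∈ pr 1 8, (1 - 1 / (q : ℝ))) *
        ∏ q ∈ pr z1 (vv κ ℓ), (1 - 1 / (q : ℝ)) := by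
      rw [ha9]
      apply mul_le_mul_of_nonneg_left _ ha8p.le
      refine le_trans (Real.exp_le_exp.2 ?_) (prod_ge (pr z1 (vv κ ℓ)) fun q hq =>
        ((mem_pr (by linarith)).1 hq).1)
      have h3 := (abs_le.1 (hmi z1 (vv κ ℓ) (by linarith) hzv)).2
      have h4 : Real.log (Real.log (vv κ ℓ)) - Real.log (Real.log z1) ≤ Real.log (1 / c1) := by
        have h5 : Real.log (vv κ ℓ) = L := by
          unfold vv
          rw [Real.log_exp]
        rw [h5, ← Real.log_div hLp.ne' (by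
          have : 0 < c1 * L := by positivity
          linarith)]
        apply Real.log_le_log
        · apply div_pos hLp
          have : 0 < c1 * L := by positivity
          linarith
        · rw [div_le_div_iff₀ (by
            have : 0 < c1 * L := by positivity
            linarith) hc1p]
          linarith
      linarith
    rw [le_div_iff₀ ha9p]
    refine le_trans (mul_le_mul_of_nonneg_left h2 ?_) h1
    exact Finset.prod_nonneg fun q hq => (wsv_pos q (Finset.mem_filter.1 hq).1).le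
  have hP2 : ∏ q ∈ (pr 8 z1).filter (fun q => ¬ PQ p (zz ℓ) (YY ℓ) q), (1 - 1 / (q : ℝ)) ^ 2 ≤
      sg p κ ℓ ^ 2 * (1 / a9 ^ 2) := by
    rw [Finset.prod_pow]
    have h1 : (0 : ℝ) ≤ ∏ q ∈ (pr 8 z1).filter (fun q => ¬ PQ p (zz ℓ) (YY ℓ) q),
        (1 - 1 / (q : ℝ)) :=
      Finset.prod_nonneg fun q hq => (wsv_pos q (Finset.mem_filter.1 hq).1).le
    refine (pow_le_pow_left₀ h1 hP2' 2).trans (le_of_eq ?_)
    rw [div_pow]
    ring
  -- third factor
  have hdist : Nat.dist m1 m2 = D * Nat.dist (pd A) (pd A') * β := by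
    rw [hm1, hm2, Nat.dist_mul_right, Nat.dist_mul_left]
  have hd0 : Nat.dist (pd A) (pd A') ≠ 0 := fun h1 => hne' (Nat.eq_of_dist_eq_zero h1)
  have hFe : ∀ n : ℕ, 1 ≤ n → ∀ u : ℝ, 0 < u → (∀ q : ℕ, q.Prime → q ∣ n → u ≤ (q : ℝ)) →
      12 * Real.log n ≤ u → Fh n ≤ Real.exp 1 := by
    intro n hn u hu h1 h2
    refine (Fh_le n u (Real.log n) hn hu h1 le_rfl).trans (Real.exp_le_exp.2 ?_)
    rw [div_le_one hu]
    exact h2
  have hFA : Fh (pd A) ≤ Real.exp 1 := hFe _ hA1 _ hup hA3 (by linarith)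
  have hFA' : Fh (pd A') ≤ Real.exp 1 := hFe _ hA1' _ hup hA3' (by linarith)
  have hFβ : Fh β ≤ Real.exp 1 := by
    apply hFe β hβ1 (ww κ ℓ) hwp (fun q hq hd => (hβp q hq hd).le)
    have h1 : Real.log β ≤ L := by
      have h2 : (0 : ℝ) < β := by exact_mod_cast hβ1
      unfold vv at hβv
      exact (Real.log_le_iff_le_exp h2).2 hβv
    linarith
  have hDne : D ≠ 0 := hD.ne'
  have hAne : pd A ≠ 0 := by omega
  have hAne' : pd A' ≠ 0 := by omega
  have hβne : β ≠ 0 := by omega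
  have hF3 : ∀ a : ℕ, a ≠ 0 → Fh (D * a * β) ≤ Fh D * Fh a * Fh β := by
    intro a ha
    refine (Fh_mul _ _ (Nat.mul_ne_zero hDne ha) hβne).trans ?_
    exact mul_le_mul_of_nonneg_right (Fh_mul _ _ hDne ha) (hFpos β).le
  have hF : Fh (m1 * m2 * Nat.dist m1 m2) ≤ K * Fh (Nat.dist (pd A) (pd A')) := by
    have hdne : Nat.dist m1 m2 ≠ 0 := fun h1 => hmne (Nat.eq_of_dist_eq_zero h1)
    have h1 : Fh (m1 * m2 * Nat.dist m1 m2) ≤ Fh m1 * Fh m2 * Fh (Nat.dist m1 m2) := by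
      refine (Fh_mul _ _ (Nat.mul_ne_zero hm1p.ne' hm2p.ne') hdne).trans ?_
      exact mul_le_mul_of_nonneg_right (Fh_mul _ _ hm1p.ne' hm2p.ne') (hFpos _).le
    have hE : 0 < Real.exp 1 := Real.exp_pos 1
    have g1 : Fh m1 ≤ Fh D * Real.exp 1 * Real.exp 1 := by
      refine (hF3 _ hAne).trans ?_
      apply mul_le_mul (mul_le_mul_of_nonneg_left hFA (hFpos D).le) hFβ (hFpos β).le
      exact (mul_pos (hFpos D) hE).le
    have g2 : Fh m2 ≤ Fh D * Real.exp 1 * Real.exp 1 := by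
      refine (hF3 _ hAne').trans ?_
      apply mul_le_mul (mul_le_mul_of_nonneg_left hFA' (hFpos D).le) hFβ (hFpos β).le
      exact (mul_pos (hFpos D) hE).le
    have g3 : Fh (Nat.dist m1 m2) ≤ Fh D * Fh (Nat.dist (pd A) (pd A')) * Real.exp 1 := by
      rw [hdist]
      refine (hF3 _ hd0).trans ?_
      exact mul_le_mul_of_nonneg_left hFβ (mul_pos (hFpos D) (hFpos _)).le
    refine h1.trans ?_
    calc Fh m1 * Fh m2 * Fh (Nat.dist m1 m2) ≤ (Fh D * Real.exp 1 * Real.exp 1) *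
          (Fh D * Real.exp 1 * Real.exp 1) * (Fh D * Fh (Nat.dist (pd A) (pd A')) * Real.exp 1) := by
          apply mul_le_mul (mul_le_mul g1 g2 (hFpos _).le _) g3 (hFpos _).le
          · have := hFpos D
            positivity
          · have := hFpos D
            positivity
      _ = K * Fh (Nat.dist (pd A) (pd A')) := by
          rw [hK]
          ring
  -- conclusion
  apply add_le_add _ le_rfl
  have hFd := hFpos (Nat.dist (pd A) (pd A'))
  have q1 : (0 : ℝ) ≤ ∏ q ∈ (pr 8 z1).filter (fun q => ¬ PQ p (zz ℓ) (YY ℓ) q),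
      (1 - 1 / (q : ℝ)) ^ 2 := Finset.prod_nonneg fun q _ => sq_nonneg _
  calc 6 * (y : ℝ) * ((∏ q ∈ pr 8 z1, (1 - 1 / (q : ℝ))) *
        (∏ q ∈ (pr 8 z1).filter (fun q => ¬ PQ p (zz ℓ) (YY ℓ) q), (1 - 1 / (q : ℝ)) ^ 2) *
        Fh (m1 * m2 * Nat.dist m1 m2))
      ≤ 6 * (y : ℝ) * (Cp / (a8 * c1) / L * (sg p κ ℓ ^ 2 * (1 / a9 ^ 2)) *
        (K * Fh (Nat.dist (pd A) (pd A')))) := by
        apply mul_le_mul_of_nonneg_left _ (by positivity)
        apply mul_le_mul (mul_le_mul hP1 hP2 q1 (by positivity)) hF (hFpos _).le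
        positivity
    _ = 6 * (Cp / (a8 * c1)) * (1 / a9 ^ 2) * K * y * (sg p κ ℓ ^ 2 / L) *
        Fh (Nat.dist (pd A) (pd A')) := by
        ring


end Pool.SG
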