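import Pool.Agent.Lib.MP_a51fee_ag.SG.WCl
import Pool.Agent.Lib.MP_a51fee_ag.SG.WF
import Pool.Agent.Lib.MP_a51fee_ag.SG.WSv

/-!
# SG-WPS: the sum (PS)

PROOF.  Let `n = j0 - i ≥ 1`.  `A = H ∪ N`, `A' = H ∪ N'`, `H = A ∩ A'`, `N = A \ A'`, `N' = A' \ A`: `H ∈ powersetCard i P1`,
`N, N' ∈ powersetCard n P1` disjoint; `(A, A') ↦ (H, N, N')` is injective, `wt (A ∪ A') = wt H wt N wt N'`.
With `h = pd H`, `α = pd N`, `α' = pd N'` (`α ≠ α'`): `|pd A - pd A'| = h |α - α'|`,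
`Fh ≤ Fh h * Fh |α - α'|` (`Fh_mul`), `Fh h ≤ 2` (`Fh_le`, primes `> uu`, `log h ≤ lv`, `ev_uu`), and by `Fh_bound` with `T = lv`
(`1 ≤ |α - α'| ≤ exp (lv/20)`): `Fh |α - α'| ≤ C (1 + ∑_{q ≤ lv, q ∣ α - α'} (log q)^7/q)`.
For fixed `N` and a prime `q ≤ lv`: `∑_{N', α' ≡ α mod q} wt N' ≤ C (1 + log (1 + log q))/q La^n/n!` (`class_sum`), and
`∑_N wt N ≤ La^n/n!`, `∑_H wt H ≤ La^i/i!` (`esymm_le`).  So the sum is at most
`C (La^i/i!)(La^n/n!)^2 (1 + ∑_{q ≤ lv} (log q)^7 (1 + log (1 + log q))/q^2)`, bounded by `log7_sum`.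
-/

set_option autoImplicit false

open Finset

namespace Pool.SG

private noncomputable def wpG (κ ℓ : ℝ) (N N' : Finset ℕ) : ℝ :=
  1 + ∑ q ∈ Icc 1 ⌊lv κ ℓ⌋₊, if q.Prime ∧ pd N' ≡ pd N [MOD q] then Real.log q ^ 7 / q else 0

private theorem wp_modEq {a b q : ℕ} (h : q ∣ Nat.dist a b) : b ≡ a [MOD q] := by
  rcases le_total a b with hab | hab
  · rw [Nat.dist_eq_sub_of_le hab] at h
    exact ((Nat.modEq_iff_dvd' hab).2 h).symm
  · rw [Nat.dist_eq_sub_of_le_right hab] at h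
    exact (Nat.modEq_iff_dvd' hab).2 h

private theorem wp_pd_pos {S : Finset ℕ} (h : ∀ q ∈ S, q.Prime) : 1 ≤ pd S := by
  unfold pd
  exact Nat.pos_of_ne_zero (prod_ne_zero_iff.2 fun q hq => (h q hq).ne_zero)

private theorem wp_pd_mono {S T : Finset ℕ} (hST : S ⊆ T) (h : ∀ q ∈ T, q.Prime) :
    pd S ≤ pd T := by
  unfold pd
  exact prod_le_prod_of_subset_of_one_le' hST fun q hq _ => (h q hq).one_le

/-- the pointwise bound -/
private theorem wp_point : ∃ C : ℝ, 0 < C ∧ Ev fun κ ℓ => ∀ A ∈ AA κ ℓ, ∀ A' ∈ AA κ ℓ, A ≠ A' →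
    wt (A ∪ A') * Fh (Nat.dist (pd A) (pd A')) ≤
      C * (wt (A ∩ A') * (wt (A \ A') * (wt (A' \ A) * wpG κ ℓ (A \ A') (A' \ A)))) := by
  obtain ⟨C, hC, hF⟩ := Fh_bound
  refine ⟨2 * C, by positivity, ?_⟩
  refine ((ev_lv_const 3).and (ev_uu 24 1 0)).mono ?_
  rintro κ ℓ ⟨h1, h2⟩ A hA A' hA' hne
  rw [pow_one, pow_zero, mul_one] at h2
  have hne' := pd_ne hA hA' hne
  have hw0 : 0 ≤ ww κ ℓ := (Real.exp_pos _).le
  have hu0 : 0 < uu κ ℓ := Real.exp_pos _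
  have hl0 : 0 < lv κ ℓ := by linarith
  unfold AA at hA hA'
  rw [mem_filter, mem_powersetCard] at hA hA'
  obtain ⟨⟨hA1, hA2⟩, hA3⟩ := hA
  obtain ⟨⟨hA1', hA2'⟩, hA3'⟩ := hA'
  have hp : ∀ q ∈ A, q.Prime ∧ uu κ ℓ < (q : ℝ) := fun q hq => by
    have h := (mem_pr hw0).1 (hA1 hq)
    exact ⟨h.1, h.2.1⟩
  have hp' : ∀ q ∈ A', q.Prime ∧ uu κ ℓ < (q : ℝ) := fun q hq => by
    have h := (mem_pr hw0).1 (hA1' hq)
    exact ⟨h.1, h.2.1⟩
  set H := A ∩ A' with hH
  set N := A \ A' with hN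
  set N' := A' \ A with hN'
  have eA : pd A = pd H * pd N := by
    unfold pd
    rw [hH, hN, ← prod_union (disjoint_left.2 fun q h h' =>
      (mem_sdiff.1 h').2 (mem_inter.1 h).2)]
    congr 1
    ext q
    simp only [mem_union, mem_inter, mem_sdiff]
    tauto
  have eA' : pd A' = pd H * pd N' := by
    unfold pd
    rw [hH, hN', ← prod_union (disjoint_left.2 fun q h h' =>
      (mem_sdiff.1 h').2 (mem_inter.1 h).1)]
    congr 1
    ext q
    simp only [mem_union, mem_inter, mem_sdiff]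
    tauto
  have eU : wt (A ∪ A') = wt H * (wt N * wt N') := by
    unfold wt
    rw [← prod_union (disjoint_left.2 fun q h h' =>
      (mem_sdiff.1 h').2 (mem_sdiff.1 h).1), ← prod_union (disjoint_left.2 fun q h h' => by
        rw [mem_inter] at h
        rw [mem_union, mem_sdiff, mem_sdiff] at h'
        rcases h' with h' | h'
        · exact h'.2 h.2
        · exact h'.2 h.1)]
    congr 1
    ext q
    simp only [hH, mem_union, mem_inter, mem_sdiff]
    tauto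
  have hH1 : 1 ≤ pd H := wp_pd_pos fun q hq => (hp q (mem_inter.1 hq).1).1
  have hd : Nat.dist (pd A) (pd A') = pd H * Nat.dist (pd N) (pd N') := by
    rw [eA, eA', Nat.dist_mul_left]
  have hdne : Nat.dist (pd N) (pd N') ≠ 0 := by
    intro h
    apply hne'
    rw [eA, eA', Nat.eq_of_dist_eq_zero h]
  have hexp : (0 : ℝ) < Real.exp (lv κ ℓ / 20) := Real.exp_pos _
  have hFH : Fh (pd H) ≤ 2 := by
    have e1 : Real.log (pd H) ≤ lv κ ℓ := by
      have e2 : (pd H : ℝ) ≤ Real.exp (lv κ ℓ / 20) := by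
        refine le_trans ?_ hA3
        exact_mod_cast wp_pd_mono inter_subset_left fun q hq => (hp q hq).1
      have e3 : (0 : ℝ) < pd H := by exact_mod_cast hH1
      have e4 := Real.log_le_log e3 e2
      rw [Real.log_exp] at e4
      linarith
    have e2 := Fh_le (pd H) (uu κ ℓ) (lv κ ℓ) hH1 hu0 (by
      intro q hq hdv
      unfold pd at hdv
      obtain ⟨r, hr, hqr⟩ := (Prime.dvd_finsetProd_iff hq.prime _).1 hdv
      have hrA := hp r (mem_inter.1 hr).1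
      rw [(Nat.prime_dvd_prime_iff_eq hq hrA.1).1 hqr]
      exact hrA.2.le) e1
    refine e2.trans ?_
    have e3 : 12 * lv κ ℓ / uu κ ℓ ≤ 1 / 2 := by
      rw [div_le_iff₀ hu0]
      linarith
    calc Real.exp (12 * lv κ ℓ / uu κ ℓ) ≤ Real.exp (1 / 2) := Real.exp_le_exp.2 e3
      _ ≤ 2 := by
        have e4 : Real.exp (1 / 2) * Real.exp (1 / 2) = Real.exp 1 := by
          rw [← Real.exp_add]
          norm_num
        have e5 : Real.exp 1 < 2.7182818286 := Real.exp_one_lt_d9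
        have e6 : 0 < Real.exp (1 / 2) := Real.exp_pos _
        nlinarith
  have hFD : Fh (Nat.dist (pd N) (pd N')) ≤ C * wpG κ ℓ N N' := by
    have e1 : Real.log (Nat.dist (pd N) (pd N') : ℝ) ≤ lv κ ℓ := by
      have e2 : (pd N : ℝ) ≤ Real.exp (lv κ ℓ / 20) := by
        refine le_trans ?_ hA3
        exact_mod_cast wp_pd_mono sdiff_subset fun q hq => (hp q hq).1
      have e2' : (pd N' : ℝ) ≤ Real.exp (lv κ ℓ / 20) := by
        refine le_trans ?_ hA3'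
        exact_mod_cast wp_pd_mono sdiff_subset fun q hq => (hp' q hq).1
      have e3 : (Nat.dist (pd N) (pd N') : ℝ) ≤ Real.exp (lv κ ℓ / 20) * 2 := by
        have e4 : Nat.dist (pd N) (pd N') ≤ pd N + pd N' := by
          unfold Nat.dist
          omega
        have e5 : (Nat.dist (pd N) (pd N') : ℝ) ≤ (pd N : ℝ) + pd N' := by exact_mod_cast e4
        linarith
      have e6 : (0 : ℝ) < (Nat.dist (pd N) (pd N') : ℝ) := by
        exact_mod_cast Nat.pos_of_ne_zero hdne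
      have e7 := Real.log_le_log e6 e3
      rw [Real.log_mul hexp.ne' two_ne_zero, Real.log_exp] at e7
      have e8 : Real.log 2 < 0.6931471808 := Real.log_two_lt_d9
      linarith
    have e2 := hF (lv κ ℓ) (by linarith) _ (Nat.pos_of_ne_zero hdne) e1
    refine e2.trans (mul_le_mul_of_nonneg_left ?_ hC.le)
    unfold wpG
    rw [← sum_filter]
    have e3 : (Nat.dist (pd N) (pd N')).primeFactors.filter (fun q : ℕ => (q : ℝ) ≤ lv κ ℓ) ⊆
        (Icc 1 ⌊lv κ ℓ⌋₊).filter (fun q => q.Prime ∧ pd N' ≡ pd N [MOD q]) := by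
      intro q hq
      rw [mem_filter, Nat.mem_primeFactors] at hq
      rw [mem_filter, mem_Icc]
      exact ⟨⟨hq.1.1.one_le, Nat.le_floor hq.2⟩, hq.1.1, wp_modEq hq.1.2.1⟩
    have e4 := sum_le_sum_of_subset_of_nonneg (f := fun q : ℕ => Real.log q ^ 7 / (q : ℝ)) e3
      fun q _ _ => by
        have : 0 ≤ Real.log (q : ℝ) := Real.log_natCast_nonneg q
        positivity
    linarith
  have hw1 := wt_nonneg H
  have hw2 := wt_nonneg N
  have hw3 := wt_nonneg N'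
  have hG0 : 0 ≤ wpG κ ℓ N N' := by
    unfold wpG
    have : 0 ≤ ∑ q ∈ Icc 1 ⌊lv κ ℓ⌋₊,
        (if q.Prime ∧ pd N' ≡ pd N [MOD q] then Real.log q ^ 7 / (q : ℝ) else 0) := by
      refine sum_nonneg fun q _ => ?_
      have : 0 ≤ Real.log (q : ℝ) := Real.log_natCast_nonneg q
      split_ifs
      · positivity
      · exact le_rfl
    linarith
  rw [hd, eU]
  have hF1 := Fh_mul (pd H) (Nat.dist (pd N) (pd N')) (by omega) hdne
  have hFn : 0 ≤ Fh (Nat.dist (pd N) (pd N')) := le_trans zero_le_one (Fh_one_le _)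
  have hF2 : Fh (pd H * Nat.dist (pd N) (pd N')) ≤ 2 * (C * wpG κ ℓ N N') := by
    refine hF1.trans ?_
    exact mul_le_mul hFH hFD hFn (by norm_num)
  have hww : 0 ≤ wt H * (wt N * wt N') := by positivity
  calc wt H * (wt N * wt N') * Fh (pd H * Nat.dist (pd N) (pd N'))
      ≤ wt H * (wt N * wt N') * (2 * (C * wpG κ ℓ N N')) := mul_le_mul_of_nonneg_left hF2 hww
    _ = 2 * C * (wt H * (wt N * (wt N' * wpG κ ℓ N N'))) := by ring

/-- the sum over the last variable -/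
private theorem wp_row : ∃ C : ℝ, 0 < C ∧ Ev fun κ ℓ => ∀ n : ℕ, 1 ≤ n → ∀ N : Finset ℕ,
    ∑ N' ∈ powersetCard n (P1 κ ℓ), wt N' * wpG κ ℓ N N' ≤
      C * (La κ ℓ ^ n / n.factorial) := by
  obtain ⟨C3, hC3, h3⟩ := class_sum
  obtain ⟨C4, hC4, h4⟩ := log7_sum
  refine ⟨1 + C3 * C4, by positivity, ?_⟩
  refine (h3.and (La_large 1)).mono ?_
  rintro κ ℓ ⟨h3, hL⟩ n hn N
  set X : ℝ := La κ ℓ ^ n / n.factorial with hX
  have hX0 : 0 ≤ X := by
    have : 0 ≤ La κ ℓ := by linarith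
    positivity
  have e1 : ∑ N' ∈ powersetCard n (P1 κ ℓ), wt N' ≤ X := esymm_le (P1 κ ℓ) n
  have e2 : ∑ N' ∈ powersetCard n (P1 κ ℓ), wt N' * wpG κ ℓ N N' =
      ∑ N' ∈ powersetCard n (P1 κ ℓ), wt N' +
      ∑ q ∈ Icc 1 ⌊lv κ ℓ⌋₊, ∑ N' ∈ powersetCard n (P1 κ ℓ),
        (if q.Prime ∧ pd N' ≡ pd N [MOD q] then Real.log q ^ 7 / (q : ℝ) * wt N' else 0) := by
    rw [sum_comm, ← sum_add_distrib]
    refine sum_congr rfl fun N' _ => ?_
    unfold wpG
    rw [mul_add, mul_one, mul_sum]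
    congr 1
    refine sum_congr rfl fun q _ => ?_
    split_ifs <;> ring
  rw [e2]
  have e3 : ∀ q ∈ Icc 1 ⌊lv κ ℓ⌋₊, ∑ N' ∈ powersetCard n (P1 κ ℓ),
      (if q.Prime ∧ pd N' ≡ pd N [MOD q] then Real.log q ^ 7 / (q : ℝ) * wt N' else 0) ≤
      C3 * X * (Real.log q ^ 7 * (1 + Real.log (1 + Real.log q)) / (q : ℝ) ^ 2) := by
    intro q hq
    rw [mem_Icc] at hq
    have hlq : 0 ≤ Real.log (q : ℝ) := Real.log_natCast_nonneg q
    have hllq : 0 ≤ Real.log (1 + Real.log (q : ℝ)) := Real.log_nonneg (by linarith)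
    by_cases hqp : q.Prime
    · have hq0 : (0 : ℝ) < q := by exact_mod_cast hqp.pos
      have hqlv : (q : ℝ) ≤ lv κ ℓ := by
        have h0 : 0 ≤ lv κ ℓ := (Real.exp_pos _).le
        exact le_trans (by exact_mod_cast hq.2) (Nat.floor_le h0)
      have h5 := h3 n hn q hqp hqlv (pd N)
      have h6 : ∑ N' ∈ powersetCard n (P1 κ ℓ),
          (if q.Prime ∧ pd N' ≡ pd N [MOD q] then Real.log q ^ 7 / (q : ℝ) * wt N' else 0) =
          Real.log q ^ 7 / (q : ℝ) *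
          ∑ N' ∈ (powersetCard n (P1 κ ℓ)).filter (fun A => pd A ≡ pd N [MOD q]), wt N' := by
        rw [mul_sum, sum_filter]
        refine sum_congr rfl fun N' _ => ?_
        by_cases hc : pd N' ≡ pd N [MOD q]
        · rw [if_pos ⟨hqp, hc⟩, if_pos hc]
        · rw [if_neg (fun h => hc h.2), if_neg hc]
      rw [h6]
      refine (mul_le_mul_of_nonneg_left h5 (by positivity)).trans (le_of_eq ?_)
      rw [hX]
      field_simp
    · have h6 : ∑ N' ∈ powersetCard n (P1 κ ℓ),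
          (if q.Prime ∧ pd N' ≡ pd N [MOD q] then Real.log q ^ 7 / (q : ℝ) * wt N' else 0) = 0 :=
        sum_eq_zero fun N' _ => if_neg fun h => hqp h.1
      rw [h6]
      positivity
  have e4 := sum_le_sum e3
  rw [← mul_sum] at e4
  have e5 := h4 ⌊lv κ ℓ⌋₊
  have e6 : C3 * X * ∑ q ∈ Icc 1 ⌊lv κ ℓ⌋₊,
      Real.log q ^ 7 * (1 + Real.log (1 + Real.log q)) / (q : ℝ) ^ 2 ≤ C3 * X * C4 :=
    mul_le_mul_of_nonneg_left e5 (by positivity)
  calc _ ≤ X + C3 * X * C4 := by linarith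
    _ = (1 + C3 * C4) * X := by ring

open scoped Classical in
theorem PS_up : ∃ C : ℝ, 0 < C ∧ Ev fun κ ℓ => ∀ i : ℕ, i < j0 κ ℓ →
    ∑ A ∈ AA κ ℓ, ∑ A' ∈ (AA κ ℓ).filter (fun A' => (A ∩ A').card = i),
        wt (A ∪ A') * Fh (Nat.dist (pd A) (pd A')) ≤
      C * (La κ ℓ ^ i / i.factorial) *
        (La κ ℓ ^ (j0 κ ℓ - i) / (j0 κ ℓ - i).factorial) ^ 2 := by
  obtain ⟨C1, hC1, h1⟩ := wp_point
  obtain ⟨C2, hC2, h2⟩ := wp_row
  refine ⟨C1 * C2, by positivity, ?_⟩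
  refine ((h1.and h2).and (La_large 1)).mono ?_
  rintro κ ℓ ⟨⟨h1, h2⟩, hL⟩ i hi
  have hLa0 : 0 ≤ La κ ℓ := by linarith
  set n := j0 κ ℓ - i with hn
  have hn1 : 1 ≤ n := by omega
  set G : Finset ℕ × Finset ℕ × Finset ℕ → ℝ := fun y =>
    C1 * (wt y.1 * (wt y.2.1 * (wt y.2.2 * wpG κ ℓ y.2.1 y.2.2))) with hG
  have hwpG : ∀ N N', 0 ≤ wpG κ ℓ N N' := by
    intro N N'
    unfold wpG
    have : 0 ≤ ∑ q ∈ Icc 1 ⌊lv κ ℓ⌋₊,
        (if q.Prime ∧ pd N' ≡ pd N [MOD q] then Real.log q ^ 7 / (q : ℝ) else 0) := by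
      refine sum_nonneg fun q _ => ?_
      have : 0 ≤ Real.log (q : ℝ) := Real.log_natCast_nonneg q
      split_ifs
      · positivity
      · exact le_rfl
    linarith
  have hG0 : ∀ y, 0 ≤ G y := by
    intro y
    rw [hG]
    have a1 := wt_nonneg y.1
    have a2 := wt_nonneg y.2.1
    have a3 := wt_nonneg y.2.2
    have a4 := hwpG y.2.1 y.2.2
    positivity
  have hstep1 : ∑ A ∈ AA κ ℓ, ∑ A' ∈ (AA κ ℓ).filter (fun A' => (A ∩ A').card = i),
        wt (A ∪ A') * Fh (Nat.dist (pd A) (pd A')) ≤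
      ∑ x ∈ ((AA κ ℓ) ×ˢ (AA κ ℓ)).filter (fun x => (x.1 ∩ x.2).card = i),
        G (x.1 ∩ x.2, x.1 \ x.2, x.2 \ x.1) := by
    rw [sum_filter, sum_product]
    refine sum_le_sum fun A hA => ?_
    rw [sum_filter]
    refine sum_le_sum fun A' hA' => ?_
    by_cases hc : (A ∩ A').card = i
    · rw [if_pos hc, if_pos hc]
      refine h1 A hA A' hA' ?_
      rintro rfl
      rw [inter_self] at hc
      unfold AA at hA
      rw [mem_filter, mem_powersetCard] at hA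
      omega
    · rw [if_neg hc, if_neg hc]
  refine hstep1.trans ?_
  have hinj : Set.InjOn (fun x : Finset ℕ × Finset ℕ => (x.1 ∩ x.2, x.1 \ x.2, x.2 \ x.1))
      (((AA κ ℓ) ×ˢ (AA κ ℓ)).filter (fun x => (x.1 ∩ x.2).card = i) :
        Finset (Finset ℕ × Finset ℕ)) := by
    intro x _ y _ h
    simp only [Prod.mk.injEq] at h
    obtain ⟨a1, a2, a3⟩ := h
    have b1 : x.1 = (x.1 ∩ x.2) ∪ (x.1 \ x.2) := by
      ext q
      simp only [mem_union, mem_inter, mem_sdiff]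
      tauto
    have b2 : x.2 = (x.1 ∩ x.2) ∪ (x.2 \ x.1) := by
      ext q
      simp only [mem_union, mem_inter, mem_sdiff]
      tauto
    have c1 : y.1 = (y.1 ∩ y.2) ∪ (y.1 \ y.2) := by
      ext q
      simp only [mem_union, mem_inter, mem_sdiff]
      tauto
    have c2 : y.2 = (y.1 ∩ y.2) ∪ (y.2 \ y.1) := by
      ext q
      simp only [mem_union, mem_inter, mem_sdiff]
      tauto
    refine Prod.ext ?_ ?_
    · rw [b1, c1, a1, a2]
    · rw [b2, c2, a1, a3]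
  rw [← sum_image (f := G) hinj]
  have hsub : (((AA κ ℓ) ×ˢ (AA κ ℓ)).filter (fun x => (x.1 ∩ x.2).card = i)).image
      (fun x : Finset ℕ × Finset ℕ => (x.1 ∩ x.2, x.1 \ x.2, x.2 \ x.1)) ⊆
      powersetCard i (P1 κ ℓ) ×ˢ (powersetCard n (P1 κ ℓ) ×ˢ powersetCard n (P1 κ ℓ)) := by
    intro z hz
    rw [mem_image] at hz
    obtain ⟨⟨A, A'⟩, hx, rfl⟩ := hz
    rw [mem_filter, mem_product] at hx
    obtain ⟨⟨hA, hA'⟩, hc⟩ := hx
    simp only at hA hA' hc
    unfold AA at hA hA'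
    rw [mem_filter, mem_powersetCard] at hA hA'
    rw [mem_product, mem_product, mem_powersetCard, mem_powersetCard, mem_powersetCard]
    refine ⟨⟨inter_subset_left.trans hA.1.1, hc⟩, ⟨sdiff_subset.trans hA.1.1, ?_⟩,
      sdiff_subset.trans hA'.1.1, ?_⟩
    · have := card_sdiff_add_card_inter A A'
      simp only
      omega
    · have := card_sdiff_add_card_inter A' A
      rw [inter_comm] at this
      simp only
      omega
  refine (sum_le_sum_of_subset_of_nonneg hsub fun y _ _ => hG0 y).trans ?_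
  rw [sum_product]
  have hrow : ∀ H ∈ powersetCard i (P1 κ ℓ),
      ∑ y ∈ powersetCard n (P1 κ ℓ) ×ˢ powersetCard n (P1 κ ℓ), G (H, y) ≤
      C1 * C2 * (La κ ℓ ^ n / n.factorial) ^ 2 * wt H := by
    intro H _
    rw [sum_product]
    have r1 : ∀ N ∈ powersetCard n (P1 κ ℓ), ∑ N' ∈ powersetCard n (P1 κ ℓ), G (H, (N, N')) ≤
        C1 * wt H * (C2 * (La κ ℓ ^ n / n.factorial)) * wt N := by
      intro N _
      have r2 : ∑ N' ∈ powersetCard n (P1 κ ℓ), G (H, (N, N')) = C1 * wt H * wt N *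
          ∑ N' ∈ powersetCard n (P1 κ ℓ), wt N' * wpG κ ℓ N N' := by
        rw [mul_sum]
        refine sum_congr rfl fun N' _ => ?_
        rw [hG]
        simp only
        ring
      rw [r2]
      have a1 := wt_nonneg H
      have a2 := wt_nonneg N
      refine (mul_le_mul_of_nonneg_left (h2 n hn1 N) (by positivity)).trans (le_of_eq ?_)
      ring
    refine (sum_le_sum r1).trans ?_
    rw [← mul_sum]
    have a1 := wt_nonneg H
    have r3 : ∑ N ∈ powersetCard n (P1 κ ℓ), wt N ≤ La κ ℓ ^ n / n.factorial :=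
      esymm_le (P1 κ ℓ) n
    refine (mul_le_mul_of_nonneg_left r3 (by positivity)).trans (le_of_eq ?_)
    ring
  refine (sum_le_sum hrow).trans ?_
  rw [← mul_sum]
  have r4 : ∑ H ∈ powersetCard i (P1 κ ℓ), wt H ≤ La κ ℓ ^ i / i.factorial :=
    esymm_le (P1 κ ℓ) i
  refine (mul_le_mul_of_nonneg_left r4 (by positivity)).trans (le_of_eq ?_)
  ring

end Pool.SG
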