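import Pool.Agent.Lib.MP_a51fee_ag.SG.BPQ
import Pool.Agent.Lib.MP_a51fee_ag.SG.NScale

/-!
# SG-NTheta: `sg` against the central binomial coefficient

PROOF of `sg_low`.  `sg = ∏_{q ≤ v, not PQ} (1 - 1/q) = ∏_{q ≤ v} (1 - 1/q) * ∏_{q ≤ v, PQ} (1 - 1/q)^{-1}`
(`prod_filter_mul_prod_filter_not`, factors nonzero), `∏_{q ≤ v} (1 - 1/q) ≥ c / log v = c exp (-κ ℓ)`
(`mert_prod`), `(1 - 1/q)^{-1} ≥ exp (1/q)`, `PQ_low`:
`sg ≥ c exp (-κ ℓ + 5/16 κ ℓ - 3 log ℓ - C) = c' ℓ^{-3} exp (-(11/16) κ ℓ)`.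
PROOF of `theta_ge`.  `j0 ≥ (1 - 1/500) La / 2 - 1` (`j0_facts`), `La ≥ 999/1000 κ ℓ - C` (`La_low`):
`4^{j0} = exp (j0 log 4) ≥ (1/4) exp ((499/500) log 2 La) ≥ c exp (0.998 * 0.999 * log 2 * κ ℓ)` and
`0.998 * 0.999 * log 2 > 0.998 * 0.999 * 0.69314 = 0.69106.. > 0.691`, `11/16 = 0.6875`.
`2 j0 + 1 ≤ La + 1 ≤ κ ℓ + 1 ≤ ℓ` (`La_up`).  So the product is at least
`c ℓ^{-4} exp (0.0035 κ ℓ) ≥ 1` for large `ℓ` (`ev_lv`).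
PROOF of `sg_le`: `sg = ∏_{q ≤ v} (1-1/q) * (∏_{PQ} (1-1/q))^{-1}` and `mert_prod`.
`sg_pos`, `sg_le_one`: factors in `(0, 1]`.
-/

set_option autoImplicit false

open Finset

namespace Pool.SG

private theorem nth_fac {v : ℝ} {q : ℕ} (hq : q ∈ pr 1 v) :
    0 < 1 - 1 / (q : ℝ) ∧ 1 - 1 / (q : ℝ) ≤ 1 := by
  unfold pr at hq
  have h1 : (2 : ℝ) ≤ q := by exact_mod_cast (mem_filter.1 hq).2.1.two_le
  have h2 : 1 / (q : ℝ) ≤ 1 / 2 := one_div_le_one_div_of_le (by norm_num) h1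
  have h3 : 0 ≤ 1 / (q : ℝ) := by positivity
  constructor <;> linarith

theorem sg_pos (p : ℕ) (κ ℓ : ℝ) : 0 < sg p κ ℓ ∧ sg p κ ℓ ≤ 1 := by
  classical
  unfold sg
  constructor
  · exact prod_pos fun q hq => (nth_fac (mem_filter.1 hq).1).1
  · exact prod_le_one (fun q hq => (nth_fac (mem_filter.1 hq).1).1.le)
      fun q hq => (nth_fac (mem_filter.1 hq).1).2

open scoped Classical in
private theorem nth_split (p : ℕ) (κ ℓ : ℝ) :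
    (∏ q ∈ (pr 1 (vv κ ℓ)).filter (PQ p (zz ℓ) (YY ℓ)), (1 - 1 / (q : ℝ))) * sg p κ ℓ =
      ∏ q ∈ pr 1 (vv κ ℓ), (1 - 1 / (q : ℝ)) := by
  rw [← prod_filter_mul_prod_filter_not (pr 1 (vv κ ℓ)) (PQ p (zz ℓ) (YY ℓ))]
  rfl

open scoped Classical in
private theorem nth_B (p : ℕ) (κ ℓ : ℝ) :
    0 < (∏ q ∈ (pr 1 (vv κ ℓ)).filter (PQ p (zz ℓ) (YY ℓ)), (1 - 1 / (q : ℝ))) ∧
    (∏ q ∈ (pr 1 (vv κ ℓ)).filter (PQ p (zz ℓ) (YY ℓ)), (1 - 1 / (q : ℝ))) ≤ 1 ∧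
    (∏ q ∈ (pr 1 (vv κ ℓ)).filter (PQ p (zz ℓ) (YY ℓ)), (1 - 1 / (q : ℝ))) ≤
      Real.exp (-(∑ q ∈ (pr 1 (vv κ ℓ)).filter (PQ p (zz ℓ) (YY ℓ)), 1 / (q : ℝ))) := by
  refine ⟨prod_pos fun q hq => (nth_fac (mem_filter.1 hq).1).1,
    prod_le_one (fun q hq => (nth_fac (mem_filter.1 hq).1).1.le)
      fun q hq => (nth_fac (mem_filter.1 hq).1).2, ?_⟩
  rw [← sum_neg_distrib, Real.exp_sum]
  refine prod_le_prod (fun q hq => (nth_fac (mem_filter.1 hq).1).1.le) fun q _ => ?_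
  have := Real.add_one_le_exp (-(1 / (q : ℝ)))
  linarith

private theorem nth_v : Ev fun κ ℓ => 2 ≤ vv κ ℓ := by
  refine (ev_lv_const 1).mono fun κ ℓ h => ?_
  have := Real.add_one_le_exp (lv κ ℓ)
  unfold vv
  linarith

private theorem nth_logv (κ ℓ : ℝ) : Real.log (vv κ ℓ) = lv κ ℓ := by
  unfold vv
  rw [Real.log_exp]

open scoped Classical in
theorem sg_le (p : ℕ) : ∃ C : ℝ, 0 < C ∧ Ev fun κ ℓ =>
    sg p κ ℓ ≤ C / lv κ ℓ *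
      (∏ q ∈ (pr 1 (vv κ ℓ)).filter (PQ p (zz ℓ) (YY ℓ)), (1 - 1 / (q : ℝ)))⁻¹ := by
  obtain ⟨c, C, hc, hC, h⟩ := mert_prod
  refine ⟨C, hC, nth_v.mono fun κ ℓ h2 => ?_⟩
  have h3 := (h _ h2).2
  rw [nth_logv, ← nth_split p κ ℓ] at h3
  obtain ⟨hB, -, -⟩ := nth_B p κ ℓ
  rw [← div_eq_mul_inv, le_div_iff₀ hB, mul_comm]
  exact h3

theorem sg_ge_lv (p : ℕ) : ∃ c : ℝ, 0 < c ∧ Ev fun κ ℓ => c / lv κ ℓ ≤ sg p κ ℓ := by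
  classical
  obtain ⟨c, C, hc, hC, h⟩ := mert_prod
  refine ⟨c, hc, nth_v.mono fun κ ℓ h2 => ?_⟩
  have h3 := (h _ h2).1
  rw [nth_logv, ← nth_split p κ ℓ] at h3
  obtain ⟨hB, hB1, -⟩ := nth_B p κ ℓ
  have h4 := (sg_pos p κ ℓ).1
  refine h3.trans ?_
  exact mul_le_of_le_one_left h4.le hB1

theorem sg_low {p : ℕ} (hp : p.Prime) (hp2 : p ≠ 2) : ∃ c : ℝ, 0 < c ∧ Ev fun κ ℓ =>
    c / ℓ ^ 3 * Real.exp (-(11 / 16 * (κ * ℓ))) ≤ sg p κ ℓ := by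
  classical
  obtain ⟨c, C, hc, hC, h⟩ := mert_prod
  obtain ⟨C1, hC1, hlow⟩ := PQ_low hp hp2
  refine ⟨c * Real.exp (-C1), by positivity, ((nth_v.and hlow).and (ev_ell 1)).mono ?_⟩
  rintro κ ℓ ⟨⟨h2, h5⟩, hℓ⟩
  have h3 := (h _ h2).1
  rw [nth_logv, ← nth_split p κ ℓ] at h3
  obtain ⟨hB, -, hB2⟩ := nth_B p κ ℓ
  have hℓ0 : 0 < ℓ := by linarith
  have h4 := (sg_pos p κ ℓ).1
  -- `c / lv ≤ exp (-S) * sg`
  have h6 := h3.trans (mul_le_mul_of_nonneg_right hB2 h4.le)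
  have h7 : Real.exp (-(∑ q ∈ (pr 1 (vv κ ℓ)).filter (PQ p (zz ℓ) (YY ℓ)), 1 / (q : ℝ))) ≤
      Real.exp (-(5 / 16 * (κ * ℓ) - 3 * Real.log ℓ - C1)) :=
    Real.exp_le_exp.2 (neg_le_neg h5)
  have h8 := h6.trans (mul_le_mul_of_nonneg_right h7 h4.le)
  have h9 : Real.exp (-(5 / 16 * (κ * ℓ) - 3 * Real.log ℓ - C1)) =
      Real.exp (-(5 / 16 * (κ * ℓ))) * ℓ ^ 3 * Real.exp C1 := by
    have e1 : -(5 / 16 * (κ * ℓ) - 3 * Real.log ℓ - C1) =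
        -(5 / 16 * (κ * ℓ)) + ((3 : ℕ) * Real.log ℓ) + C1 := by
      push_cast
      ring
    rw [e1, Real.exp_add, Real.exp_add, Real.exp_nat_mul, Real.exp_log hℓ0]
  rw [h9] at h8
  unfold lv at h8
  have h10 : c * Real.exp (-C1) / ℓ ^ 3 * Real.exp (-(11 / 16 * (κ * ℓ))) =
      c / Real.exp (κ * ℓ) / (Real.exp (-(5 / 16 * (κ * ℓ))) * ℓ ^ 3 * Real.exp C1) := by
    have e2 : Real.exp (-(11 / 16 * (κ * ℓ))) =
        (Real.exp (κ * ℓ) * Real.exp (-(5 / 16 * (κ * ℓ))))⁻¹ := by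
      rw [← Real.exp_add, ← Real.exp_neg]
      congr 1
      ring
    rw [e2, Real.exp_neg C1]
    field_simp
  rw [h10, div_le_iff₀ (by positivity)]
  linarith

private theorem nth_kl : Ev fun κ ℓ => κ * ℓ + 1 ≤ ℓ := by
  intro κ0 _
  refine ⟨2, fun ℓ hℓ κ _ hκ => ?_⟩
  have := mul_le_mul_of_nonneg_right hκ (show (0 : ℝ) ≤ ℓ by linarith)
  linarith

private theorem nth_kl0 : Ev fun κ ℓ => 0 ≤ κ * ℓ := by
  intro κ0 h0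
  refine ⟨0, fun ℓ hℓ κ hκ _ => ?_⟩
  exact mul_nonneg (h0.le.trans hκ) hℓ

theorem theta_ge {p : ℕ} (hp : p.Prime) (hp2 : p ≠ 2) : Ev fun κ ℓ =>
    1 ≤ sg p κ ℓ * ((4 : ℝ) ^ j0 κ ℓ / (2 * (j0 κ ℓ : ℝ) + 1)) := by
  obtain ⟨c, hc, hsg⟩ := sg_low hp hp2
  obtain ⟨C, hLa⟩ := La_low
  have hl2 : 0.6931471803 < Real.log 2 := Real.log_two_gt_d9
  have hl2' : Real.log 2 < 0.6931471808 := Real.log_two_lt_d9
  refine (((((hsg.and hLa).and j0_facts).and La_up).and (nth_kl.and nth_kl0)).and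
    ((ev_lv (Real.exp (|C| + 2) / c) 4 (a := 7 / 2000) (by norm_num)).and (ev_ell 1))).mono ?_
  rintro κ ℓ ⟨⟨⟨⟨⟨h1, h2⟩, h3, h4, h5, h6⟩, h7⟩, h8, h8'⟩, h9, h10⟩
  have hℓ0 : 0 < ℓ := by linarith
  have hj0 : (0 : ℝ) < 2 * (j0 κ ℓ : ℝ) + 1 := by positivity
  have hj1 : 2 * (j0 κ ℓ : ℝ) + 1 ≤ ℓ := by
    have : 0 ≤ La κ ℓ := by
      have : (0 : ℝ) ≤ 2 * (j0 κ ℓ : ℝ) := by positivity
      linarith
    linarith
  -- lower bound for `4 ^ j0`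
  have h4j : Real.exp (691 / 1000 * (κ * ℓ) - (|C| + 2)) ≤ (4 : ℝ) ^ j0 κ ℓ := by
    have e1 : (4 : ℝ) ^ j0 κ ℓ = Real.exp ((j0 κ ℓ : ℝ) * (2 * Real.log 2)) := by
      rw [Real.exp_nat_mul]
      congr 1
      rw [show (2 : ℝ) * Real.log 2 = Real.log 2 + Real.log 2 by ring, Real.exp_add,
        Real.exp_log (by norm_num)]
      norm_num
    rw [e1]
    apply Real.exp_le_exp.2
    have e2 : (j0 κ ℓ : ℝ) * (2 * Real.log 2) = (2 * (j0 κ ℓ : ℝ)) * Real.log 2 := by ring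
    rw [e2]
    have e3 : (1 - 1 / 500) * (999 / 1000 * (κ * ℓ) - |C|) - 2 ≤ 2 * (j0 κ ℓ : ℝ) := by
      have := le_abs_self C
      linarith
    have e4 := mul_le_mul_of_nonneg_right e3 (show (0 : ℝ) ≤ Real.log 2 by linarith)
    refine le_trans ?_ e4
    have e5 : 0 ≤ |C| := abs_nonneg C
    have e6 : 691 / 1000 * (κ * ℓ) ≤ (1 - 1 / 500) * (999 / 1000) * Real.log 2 * (κ * ℓ) := by
      refine mul_le_mul_of_nonneg_right ?_ h8'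
      linarith
    have e7 : (1 - 1 / 500) * |C| * Real.log 2 ≤ |C| := by
      have : (1 - 1 / 500) * Real.log 2 ≤ 1 := by linarith
      nlinarith
    nlinarith
  have hsg0 := (sg_pos p κ ℓ).1
  have h11 : 1 ≤ c / ℓ ^ 3 * Real.exp (-(11 / 16 * (κ * ℓ))) *
      (Real.exp (691 / 1000 * (κ * ℓ) - (|C| + 2)) / ℓ) := by
    have e1 : c / ℓ ^ 3 * Real.exp (-(11 / 16 * (κ * ℓ))) *
      (Real.exp (691 / 1000 * (κ * ℓ) - (|C| + 2)) / ℓ) =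
        Real.exp (7 / 2000 * (κ * ℓ)) / (Real.exp (|C| + 2) / c * ℓ ^ 4) := by
      have e2 : Real.exp (7 / 2000 * (κ * ℓ)) = Real.exp (-(11 / 16 * (κ * ℓ))) *
          Real.exp (691 / 1000 * (κ * ℓ) - (|C| + 2)) * Real.exp (|C| + 2) := by
        rw [← Real.exp_add, ← Real.exp_add]
        congr 1
        ring
      rw [e2]
      field_simp
    rw [e1, le_div_iff₀ (by positivity), one_mul]
    exact h9
  refine h11.trans ?_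
  refine mul_le_mul h1 ?_ (by positivity) hsg0.le
  exact div_le_div₀ (by positivity) h4j hj0 hj1

end Pool.SG
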