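import Pool.Agent.Lib.MP_a51fee_ag.SG.WSv
import Pool.Agent.Lib.MP_a51fee_ag.SG.NTheta

/-!
# SG-WUp: the upper bound (W)

PROOF.  Every `B ∈ BB` is `insert P B'` with `P = max B`, `B' = B.erase P ⊆ P2`, `wt B = wt B' / P`, `pd B = β P`, `β = pd B' ≤ vv`,
all prime factors of `β` are `> ww`.  So the sum is at most
`∑_{B' ⊆ P2, pd B' ≤ vv} wt B' ∑_{P ∈ P2, EE.. , EE..} 1/P`.
Inner sum: cover `(ww, vv]` by `(y, 2y]`, `y = 2^i`, `ww ≤ 2 y`, `y ≤ vv`: at most `2 lv` values of `i`, and `pair_sieve` gives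
`∑_y (1/y)(C y sg^2/lv Fh + √y) ≤ 2 C sg^2 Fh + ∑_y 1/√y`, `∑_y y^{-1/2} ≤ 4 (ww/2)^{-1/2} ≤ sg^2` (`sg_ge_lv`: `sg ≥ c/lv`).
`Fh ≥ 1`.  Finally `∑_{B' ⊆ P2} wt B' ≤ C` (`BB_sum`).
-/

set_option autoImplicit false

open Finset

namespace Pool.SG

private theorem dy_sum (w v K : ℝ) (S : Finset ℕ)
    (hS : ∀ P ∈ S, P.Prime ∧ w < (P : ℝ) ∧ (P : ℝ) ≤ v) (hw : 2 ≤ w) (hv : 2 ≤ Real.log v)
    (hv0 : 0 < v) (hK : 0 ≤ K)
    (hc : ∀ y : ℕ, w ≤ 2 * (y : ℝ) →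
      (((Ioc y (2 * y)).filter (fun P => P ∈ S)).card : ℝ) ≤ K * y + Real.sqrt y) :
    ∑ P ∈ S, 1 / (P : ℝ) ≤ 2 * Real.log v * (K + 1 / Real.sqrt (w / 2)) := by
  set L := Nat.log 2 ⌊v⌋₊ with hL
  have hv1 : 1 ≤ v := by
    by_contra h
    have := Real.log_nonpos hv0.le (le_of_not_ge h)
    linarith
  have hfl : ⌊v⌋₊ ≠ 0 := by
    have : 1 ≤ ⌊v⌋₊ := Nat.le_floor (by simpa using hv1)
    omega
  have hLv : (L : ℝ) + 1 ≤ 2 * Real.log v := by
    have h1 : (2 : ℝ) ^ L ≤ v := by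
      have h2 : 2 ^ L ≤ ⌊v⌋₊ := Nat.pow_log_le_self 2 hfl
      calc (2 : ℝ) ^ L = ((2 ^ L : ℕ) : ℝ) := by push_cast; rfl
        _ ≤ (⌊v⌋₊ : ℝ) := by exact_mod_cast h2
        _ ≤ v := Nat.floor_le hv0.le
    have h3 : (L : ℝ) * Real.log 2 ≤ Real.log v := by
      rw [← Real.log_pow]
      exact Real.log_le_log (by positivity) h1
    have h4 : (0.6931471803 : ℝ) < Real.log 2 := Real.log_two_gt_d9
    have h5 : (L : ℝ) * 0.69 ≤ Real.log v := by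
      refine le_trans ?_ h3
      exact mul_le_mul_of_nonneg_left (by linarith) (Nat.cast_nonneg L)
    linarith
  have hmaps : ∀ P ∈ S, Nat.log 2 (P - 1) ∈ range (L + 1) := by
    intro P hP
    obtain ⟨h1, h2, h3⟩ := hS P hP
    rw [mem_range]
    have h4 : P ≤ ⌊v⌋₊ := Nat.le_floor h3
    have h5 : Nat.log 2 (P - 1) ≤ L := Nat.log_mono_right (by omega)
    omega
  rw [← Finset.sum_fiberwise_of_maps_to hmaps]
  have hterm : ∀ i ∈ range (L + 1),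
      ∑ P ∈ S.filter (fun P => Nat.log 2 (P - 1) = i), 1 / (P : ℝ) ≤
        K + 1 / Real.sqrt (w / 2) := by
    intro i _
    have hpos : 0 ≤ K + 1 / Real.sqrt (w / 2) := by positivity
    rcases (S.filter (fun P => Nat.log 2 (P - 1) = i)).eq_empty_or_nonempty with he | ⟨P0, hP0⟩
    · rw [he, sum_empty]
      exact hpos
    have hin : ∀ P ∈ S.filter (fun P => Nat.log 2 (P - 1) = i),
        2 ^ i < P ∧ P ≤ 2 * 2 ^ i ∧ P ∈ S := by
      intro P hP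
      rw [mem_filter] at hP
      obtain ⟨h1, h2⟩ := hP
      have h3 := (hS P h1).1.two_le
      have h4 : 2 ^ i ≤ P - 1 := by
        rw [← h2]
        exact Nat.pow_log_le_self 2 (by omega)
      have h5 : P - 1 < 2 ^ (i + 1) := by
        rw [← h2]
        exact Nat.lt_pow_succ_log_self (by norm_num) _
      rw [pow_succ] at h5
      exact ⟨by omega, by omega, h1⟩
    have hwy : w ≤ 2 * ((2 ^ i : ℕ) : ℝ) := by
      obtain ⟨h1, h2, h3⟩ := hin P0 hP0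
      have h4 := (hS P0 h3).2.1
      have h5 : (P0 : ℝ) ≤ ((2 * 2 ^ i : ℕ) : ℝ) := by exact_mod_cast h2
      push_cast at h5 ⊢
      linarith
    have hy0 : (0 : ℝ) < ((2 ^ i : ℕ) : ℝ) := by positivity
    have hcard : ((S.filter (fun P => Nat.log 2 (P - 1) = i)).card : ℝ) ≤
        K * ((2 ^ i : ℕ) : ℝ) + Real.sqrt ((2 ^ i : ℕ) : ℝ) := by
      refine le_trans ?_ (hc (2 ^ i) hwy)
      rw [Nat.cast_le]
      refine card_le_card fun P hP => ?_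
      obtain ⟨h1, h2, h3⟩ := hin P hP
      rw [mem_filter, mem_Ioc]
      exact ⟨⟨h1, h2⟩, h3⟩
    calc ∑ P ∈ S.filter (fun P => Nat.log 2 (P - 1) = i), 1 / (P : ℝ)
        ≤ (S.filter (fun P => Nat.log 2 (P - 1) = i)).card • (1 / ((2 ^ i : ℕ) : ℝ)) := by
          refine sum_le_card_nsmul _ _ _ fun P hP => ?_
          refine one_div_le_one_div_of_le hy0 ?_
          exact_mod_cast (hin P hP).1.le
      _ = ((S.filter (fun P => Nat.log 2 (P - 1) = i)).card : ℝ) * (1 / ((2 ^ i : ℕ) : ℝ)) := by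
          rw [nsmul_eq_mul]
      _ ≤ (K * ((2 ^ i : ℕ) : ℝ) + Real.sqrt ((2 ^ i : ℕ) : ℝ)) * (1 / ((2 ^ i : ℕ) : ℝ)) :=
          mul_le_mul_of_nonneg_right hcard (by positivity)
      _ = K + 1 / Real.sqrt ((2 ^ i : ℕ) : ℝ) := by
          have h1 : Real.sqrt ((2 ^ i : ℕ) : ℝ) * Real.sqrt ((2 ^ i : ℕ) : ℝ) =
              ((2 ^ i : ℕ) : ℝ) := Real.mul_self_sqrt hy0.le
          have h2 : 0 < Real.sqrt ((2 ^ i : ℕ) : ℝ) := Real.sqrt_pos.2 hy0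
          rw [add_mul, mul_assoc, mul_one_div_cancel hy0.ne', mul_one]
          congr 1
          rw [mul_one_div, div_eq_div_iff hy0.ne' h2.ne', one_mul, h1]
      _ ≤ K + 1 / Real.sqrt (w / 2) := by
          have h3 : Real.sqrt (w / 2) ≤ Real.sqrt ((2 ^ i : ℕ) : ℝ) :=
            Real.sqrt_le_sqrt (by linarith)
          have h4 : 0 < Real.sqrt (w / 2) := Real.sqrt_pos.2 (by linarith)
          have h5 := one_div_le_one_div_of_le h4 h3
          linarith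
  refine (sum_le_card_nsmul _ _ _ hterm).trans ?_
  rw [card_range, nsmul_eq_mul]
  push_cast
  exact mul_le_mul_of_nonneg_right hLv (by positivity)

open scoped Classical in
theorem W_up (p D : ℕ) (hD : 0 < D) : ∃ C : ℝ, 0 < C ∧ Ev fun κ ℓ =>
    ∀ A ∈ AA κ ℓ, ∀ A' ∈ AA κ ℓ, A ≠ A' →
      ∑ B ∈ (BB κ ℓ).filter (fun B => SS p D ℓ A B ∧ SS p D ℓ A' B), wt B ≤
        C * sg p κ ℓ ^ 2 * Fh (Nat.dist (pd A) (pd A')) := by
  obtain ⟨C1, hC1, h1⟩ := pair_sieve p D hD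
  obtain ⟨c, hc, h2⟩ := sg_ge_lv p
  obtain ⟨C2, hC2, h3⟩ := BB_sum
  refine ⟨C2 * (2 * C1 + 1), by positivity, ?_⟩
  refine ((((h1.and h2).and h3).and (ev_lv_const 4000)).and
    (((ev_ww (8 * (1 / c ^ 2) ^ 2) 6).and (ev_uu 1 1 0)).and (ev_ell 0))).mono ?_
  rintro κ ℓ ⟨⟨⟨⟨h1, h2⟩, h3⟩, h4⟩, ⟨h5, h6⟩, h7⟩ A hA A' hA' hne
  have hlv0 : 0 < lv κ ℓ := by linarith
  have hw2 : 2 ≤ ww κ ℓ := by
    unfold ww
    have := Real.add_one_le_exp (lv κ ℓ / 2000)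
    linarith
  have hv0 : 0 < vv κ ℓ := Real.exp_pos _
  have hlogv : Real.log (vv κ ℓ) = lv κ ℓ := by
    unfold vv
    rw [Real.log_exp]
  have hsg := sg_pos p κ ℓ
  set F := Fh (Nat.dist (pd A) (pd A')) with hF
  have hF1 : 1 ≤ F := by
    rw [hF]
    unfold Fh
    calc (1 : ℝ) = ∏ q ∈ (Nat.dist (pd A) (pd A')).primeFactors, (1 : ℝ) := by simp
      _ ≤ _ := prod_le_prod (fun _ _ => zero_le_one) fun q _ => by
        have : (0 : ℝ) ≤ 6 / (q : ℝ) := by positivity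
        linarith
  -- the error term
  have herr : 2 * lv κ ℓ * (1 / Real.sqrt (ww κ ℓ / 2)) ≤ sg p κ ℓ ^ 2 := by
    have e1 : lv κ ℓ ≤ uu κ ℓ := by
      rw [one_mul, pow_one, pow_zero, mul_one] at h6
      exact h6
    have e2 : 1 ≤ zz ℓ := by
      unfold zz
      exact Real.one_le_exp (by positivity)
    have e3 : (2 * lv κ ℓ ^ 3 / c ^ 2) ^ 2 ≤ ww κ ℓ / 2 := by
      have e4 : 8 * (1 / c ^ 2) ^ 2 * lv κ ℓ ^ 6 ≤ ww κ ℓ := by
        refine le_trans ?_ h5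
        calc 8 * (1 / c ^ 2) ^ 2 * lv κ ℓ ^ 6 ≤ 8 * (1 / c ^ 2) ^ 2 * uu κ ℓ ^ 6 := by gcongr
          _ = 8 * (1 / c ^ 2) ^ 2 * uu κ ℓ ^ 6 * 1 := (mul_one _).symm
          _ ≤ 8 * (1 / c ^ 2) ^ 2 * uu κ ℓ ^ 6 * zz ℓ ^ 6 := by
              have : 1 ≤ zz ℓ ^ 6 := one_le_pow₀ e2
              have h0 : 0 ≤ 8 * (1 / c ^ 2) ^ 2 * uu κ ℓ ^ 6 := by
                have : 0 < uu κ ℓ := Real.exp_pos _
                positivity
              exact mul_le_mul_of_nonneg_left this h0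
      have e5 : (2 * lv κ ℓ ^ 3 / c ^ 2) ^ 2 = 8 * (1 / c ^ 2) ^ 2 * lv κ ℓ ^ 6 / 2 := by
        field_simp
        ring
      rw [e5]
      linarith
    have e6 : 2 * lv κ ℓ ^ 3 / c ^ 2 ≤ Real.sqrt (ww κ ℓ / 2) := Real.le_sqrt_of_sq_le e3
    have e7 : 0 < 2 * lv κ ℓ ^ 3 / c ^ 2 := by positivity
    have e8 := one_div_le_one_div_of_le e7 e6
    calc 2 * lv κ ℓ * (1 / Real.sqrt (ww κ ℓ / 2))
        ≤ 2 * lv κ ℓ * (1 / (2 * lv κ ℓ ^ 3 / c ^ 2)) :=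
          mul_le_mul_of_nonneg_left e8 (by positivity)
      _ = (c / lv κ ℓ) ^ 2 := by
          field_simp
      _ ≤ sg p κ ℓ ^ 2 := by
          have : 0 ≤ c / lv κ ℓ := by positivity
          exact pow_le_pow_left₀ this h2 2
  -- the inner sum
  have hin : ∀ B' ∈ (P2 κ ℓ).powerset.filter (fun B' => (pd B' : ℝ) ≤ vv κ ℓ),
      ∑ P ∈ (P2 κ ℓ).filter (fun P => EE p (zz ℓ) (YY ℓ) (1 + D * pd A * (pd B' * P)) ∧
        EE p (zz ℓ) (YY ℓ) (1 + D * pd A' * (pd B' * P))), 1 / (P : ℝ) ≤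
      (2 * C1 + 1) * sg p κ ℓ ^ 2 * F := by
    intro B' hB'
    rw [mem_filter, mem_powerset] at hB'
    obtain ⟨hB1, hB2⟩ := hB'
    have hpr : ∀ q ∈ B', q.Prime ∧ ww κ ℓ < (q : ℝ) := fun q hq => by
      have h := (mem_pr hv0.le).1 (hB1 hq)
      exact ⟨h.1, h.2.1⟩
    have hβ1 : 1 ≤ pd B' := by
      unfold pd
      exact Nat.pos_of_ne_zero (prod_ne_zero_iff.2 fun q hq => (hpr q hq).1.ne_zero)
    have hβq : ∀ q : ℕ, q.Prime → q ∣ pd B' → ww κ ℓ < (q : ℝ) := by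
      intro q hq hd
      unfold pd at hd
      obtain ⟨r, hr, hqr⟩ := (Prime.dvd_finsetProd_iff hq.prime _).1 hd
      rw [(Nat.prime_dvd_prime_iff_eq hq (hpr r hr).1).1 hqr]
      exact (hpr r hr).2
    have hps := h1 A hA A' hA' hne (pd B') hβ1 hB2 hβq
    have hd := dy_sum (ww κ ℓ) (vv κ ℓ) (C1 * (sg p κ ℓ ^ 2 / lv κ ℓ) * F)
      ((P2 κ ℓ).filter (fun P => EE p (zz ℓ) (YY ℓ) (1 + D * pd A * (pd B' * P)) ∧
        EE p (zz ℓ) (YY ℓ) (1 + D * pd A' * (pd B' * P))))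
      (fun P hP => by
        rw [mem_filter] at hP
        exact (mem_pr hv0.le).1 hP.1) hw2 (by rw [hlogv]; linarith) hv0 (by
          have : 0 < sg p κ ℓ := hsg.1
          have hF0 : 0 ≤ F := by linarith
          positivity) ?_
    · rw [hlogv] at hd
      refine hd.trans ?_
      rw [mul_add]
      have e1 : 2 * lv κ ℓ * (C1 * (sg p κ ℓ ^ 2 / lv κ ℓ) * F) = 2 * C1 * sg p κ ℓ ^ 2 * F := by
        field_simp
      rw [e1]
      have e2 : sg p κ ℓ ^ 2 ≤ sg p κ ℓ ^ 2 * F := by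
        have : 0 ≤ sg p κ ℓ ^ 2 := by positivity
        nlinarith
      nlinarith
    · intro y hy
      refine le_trans ?_ ((hps y hy).trans (le_of_eq ?_))
      · rw [Nat.cast_le]
        refine card_le_card fun P hP => ?_
        rw [mem_filter, mem_filter] at hP
        rw [mem_filter]
        exact ⟨hP.1, ((mem_pr hv0.le).1 hP.2.1).1, hP.2.2.1, hP.2.2.2⟩
      · rw [hF]
        ring
  -- the map
  have hsup : ∀ B : Finset ℕ, B.Nonempty → B.sup id ∈ B := by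
    intro B hB
    obtain ⟨i, hi, h⟩ := Finset.exists_mem_eq_sup B hB id
    rw [h]
    exact hi
  have hinj : Set.InjOn (fun B : Finset ℕ => (B.erase (B.sup id), B.sup id))
      ((BB κ ℓ).filter (fun B => SS p D ℓ A B ∧ SS p D ℓ A' B) : Finset (Finset ℕ)) := by
    intro B hB B1 hB1 h
    rw [mem_coe, mem_filter] at hB hB1
    unfold BB at hB hB1
    rw [mem_filter] at hB hB1
    have e1 := insert_erase (hsup B hB.1.2.1)
    have e2 := insert_erase (hsup B1 hB1.1.2.1)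
    rw [Prod.mk.injEq] at h
    rw [← e1, ← e2, h.1, h.2]
  have hterm : ∀ B ∈ (BB κ ℓ).filter (fun B => SS p D ℓ A B ∧ SS p D ℓ A' B),
      wt B = (fun x : Finset ℕ × ℕ => wt x.1 * (1 / (x.2 : ℝ))) (B.erase (B.sup id), B.sup id) := by
    intro B hB
    rw [mem_filter] at hB
    unfold BB at hB
    rw [mem_filter] at hB
    unfold wt
    exact (prod_erase_mul B (fun q : ℕ => 1 / (q : ℝ)) (hsup B hB.1.2.1)).symm
  rw [sum_congr rfl hterm, ← sum_image (f := fun x : Finset ℕ × ℕ => wt x.1 * (1 / (x.2 : ℝ))) hinj]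
  have hsub : ((BB κ ℓ).filter (fun B => SS p D ℓ A B ∧ SS p D ℓ A' B)).image
      (fun B : Finset ℕ => (B.erase (B.sup id), B.sup id)) ⊆
      (((P2 κ ℓ).powerset.filter (fun B' => (pd B' : ℝ) ≤ vv κ ℓ)) ×ˢ (P2 κ ℓ)).filter
        (fun x => EE p (zz ℓ) (YY ℓ) (1 + D * pd A * (pd x.1 * x.2)) ∧
          EE p (zz ℓ) (YY ℓ) (1 + D * pd A' * (pd x.1 * x.2))) := by
    intro x hx
    rw [mem_image] at hx
    obtain ⟨B, hB, rfl⟩ := hx
    rw [mem_filter] at hB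
    unfold BB at hB
    rw [mem_filter, mem_powerset] at hB
    obtain ⟨⟨hB1, hB2, hB3⟩, hB4, hB5⟩ := hB
    have hs := hsup B hB2
    have hpd : pd (B.erase (B.sup id)) * B.sup id = pd B := by
      unfold pd
      exact prod_erase_mul B (fun q : ℕ => q) hs
    rw [mem_filter, mem_product, mem_filter, mem_powerset]
    refine ⟨⟨⟨(erase_subset _ _).trans hB1, ?_⟩, hB1 hs⟩, ?_⟩
    · refine le_trans ?_ hB3
      rw [Nat.cast_le, ← hpd]
      exact Nat.le_mul_of_pos_right _ ((mem_pr hv0.le).1 (hB1 hs)).1.pos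
    · simp only
      rw [hpd]
      exact ⟨hB4, hB5⟩
  refine (sum_le_sum_of_subset_of_nonneg hsub fun x _ _ => ?_).trans ?_
  · have := wt_nonneg x.1
    positivity
  rw [sum_filter, sum_product]
  have hrow : ∀ B' ∈ (P2 κ ℓ).powerset.filter (fun B' => (pd B' : ℝ) ≤ vv κ ℓ),
      (∑ P ∈ P2 κ ℓ, if EE p (zz ℓ) (YY ℓ) (1 + D * pd A * (pd (B', P).1 * (B', P).2)) ∧
          EE p (zz ℓ) (YY ℓ) (1 + D * pd A' * (pd (B', P).1 * (B', P).2))
        then wt (B', P).1 * (1 / (((B', P) : Finset ℕ × ℕ).2 : ℝ)) else 0) ≤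
      wt B' * ((2 * C1 + 1) * sg p κ ℓ ^ 2 * F) := by
    intro B' hB'
    rw [← sum_filter]
    simp only
    rw [← mul_sum]
    exact mul_le_mul_of_nonneg_left (hin B' hB') (wt_nonneg B')
  refine (sum_le_sum hrow).trans ?_
  rw [← sum_mul]
  have e1 : ∑ B' ∈ (P2 κ ℓ).powerset.filter (fun B' => (pd B' : ℝ) ≤ vv κ ℓ), wt B' ≤ C2 :=
    (sum_le_sum_of_subset_of_nonneg (filter_subset _ _) fun B _ _ => wt_nonneg B).trans h3
  calc (∑ B' ∈ (P2 κ ℓ).powerset.filter (fun B' => (pd B' : ℝ) ≤ vv κ ℓ), wt B') *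
        ((2 * C1 + 1) * sg p κ ℓ ^ 2 * F)
      ≤ C2 * ((2 * C1 + 1) * sg p κ ℓ ^ 2 * F) := by
        refine mul_le_mul_of_nonneg_right e1 ?_
        have hF0 : 0 ≤ F := by linarith
        positivity
    _ = C2 * (2 * C1 + 1) * sg p κ ℓ ^ 2 * F := by ring

end Pool.SG
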