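import Pool.Agent.Lib.MP_a51fee_ag.SG.SAs
import Pool.Agent.Lib.MP_a51fee_ag.SG.WUp
import Pool.Agent.Lib.MP_a51fee_ag.SG.WPS
import Pool.Agent.Lib.MP_a51fee_ag.SG.NPois

/-!
# SG-NM: the second moment argument

Let `j = j0`, `Λ = La`, `P = P1`, `k ∈ [2j, 2Λ]`, `R(M, B) = #{A ∈ AA | A ⊆ M, SS p D ℓ A B}`, weights `wt M wt B`,
`M ∈ powersetCard k P`, `B ∈ BB`, `E = Λ^k/k!`, `θ = sg * C(k, j)`.
PROOF of `M1_low`.  `M1 = ∑_{M,B} R wt M wt B = ∑_{A ∈ AA} ∑_{B, SS} wt B * wt A * e_{k-j}(P \ A)` (`wt_contain`).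
`e_{k-j}(P \ A) ≥ (1/2) Λ^{k-j}/(k-j)!`: `esymm_ge` for `P \ A` with `u = uu`, `Λ' = Λ - ∑_{q ∈ A} 1/q ≥ Λ - j/uu`,
`n = k - j ≤ 2Λ`: `(Λ'/Λ)^n ≥ 1 - n j/(uu Λ) ≥ 0.9` (Bernoulli; `Λ, j ≤ lv`, `ev_uu`), `1 - n^2/(2 uu Λ') ≥ 0.9`.  With `S_low`:
`M1 ≥ (c/2) sg (Λ^j/j!)(Λ^{k-j}/(k-j)!) = (c/2) sg C(k,j) E`.
PROOF of `M2_up`.  `M2 = ∑ R^2 wt M wt B = ∑_{A, A' ∈ AA} ∑_{B, SS A, SS A'} wt B ∑_{M ⊇ A ∪ A'} wt M`.
`A = A'`: total `M1`.  `A ≠ A'`, `|A ∩ A'| = i < j`: `|A ∪ A'| = 2j - i ≤ k`, `∑_{M ⊇ A ∪ A'} wt M ≤ wt (A ∪ A') Λ^{k-2j+i}/(k-2j+i)!`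
(`wt_contain`, `esymm_le`), `W_up`, `PS_up`:
`≤ C sg^2 ∑_{i<j} (Λ^i/i!)(Λ^{j-i}/(j-i)!)^2 Λ^{k-2j+i}/(k-2j+i)! ≤ C sg^2 E C(k,j)^2` (`vand`).
PROOF of `perk`.  Cauchy-Schwarz: `(∑_{R > 0} wt M wt B) M2 ≥ M1^2`.  `θ ≥ 1`: `C(k, j) ≥ C(2j, j) ≥ 4^j/(2j+1)`
(`Nat.choose_le_choose`, `Nat.four_pow_le_two_mul_add_one_mul_central_binom`) and `theta_ge`.  `M1 ≥ c1 E θ`,
`M2 ≤ M1 + C E θ^2`.  If `M1 ≥ C E θ^2` then `M1^2/M2 ≥ M1/2 ≥ (c1/2) E`; otherwise `M2 ≤ 2 C E θ^2` and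
`M1^2/M2 ≥ c1^2 E/(2C)`.
-/

set_option autoImplicit false

open Finset

namespace Pool.SG

open scoped Classical in
/-- the number of admissible `A ⊆ M` -/
noncomputable def RR (p D : ℕ) (κ ℓ : ℝ) (M B : Finset ℕ) : ℝ :=
  (((AA κ ℓ).filter (fun A => A ⊆ M ∧ SS p D ℓ A B)).card : ℝ)

noncomputable def M1 (p D : ℕ) (κ ℓ : ℝ) (k : ℕ) : ℝ :=
  ∑ M ∈ powersetCard k (P1 κ ℓ), ∑ B ∈ BB κ ℓ, RR p D κ ℓ M B * (wt M * wt B)

noncomputable def M2 (p D : ℕ) (κ ℓ : ℝ) (k : ℕ) : ℝ :=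
  ∑ M ∈ powersetCard k (P1 κ ℓ), ∑ B ∈ BB κ ℓ, RR p D κ ℓ M B ^ 2 * (wt M * wt B)

open scoped Classical in
private theorem nm_swap {X : Type*} (s : Finset X) (U : X → Finset ℕ) (V : X → Finset ℕ → Prop)
    (R S : Finset (Finset ℕ)) :
    ∑ M ∈ R, ∑ B ∈ S, (∑ x ∈ s, if U x ⊆ M ∧ V x B then (1 : ℝ) else 0) * (wt M * wt B) =
      ∑ x ∈ s, (∑ B ∈ S.filter (V x), wt B) * ∑ M ∈ R.filter (fun M => U x ⊆ M), wt M := by
  have h1 : ∀ M ∈ R, ∑ B ∈ S, (∑ x ∈ s, if U x ⊆ M ∧ V x B then (1 : ℝ) else 0) * (wt M * wt B) =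
      ∑ x ∈ s, ∑ B ∈ S, (if U x ⊆ M ∧ V x B then (1 : ℝ) else 0) * (wt M * wt B) := by
    intro M _
    rw [sum_comm]
    exact sum_congr rfl fun B _ => sum_mul _ _ _
  rw [sum_congr rfl h1, sum_comm]
  refine sum_congr rfl fun x _ => ?_
  rw [mul_comm, sum_filter, sum_filter, sum_mul_sum]
  refine sum_congr rfl fun M _ => sum_congr rfl fun B _ => ?_
  by_cases hU : U x ⊆ M <;> by_cases hV : V x B <;> simp [hU, hV]

open scoped Classical in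
private theorem nm_RR (p D : ℕ) (κ ℓ : ℝ) (M B : Finset ℕ) :
    RR p D κ ℓ M B = ∑ A ∈ AA κ ℓ, if A ⊆ M ∧ SS p D ℓ A B then (1 : ℝ) else 0 := by
  unfold RR
  rw [card_filter]
  push_cast
  rfl

open scoped Classical in
private theorem nm_M1 (p D : ℕ) (κ ℓ : ℝ) (k : ℕ) :
    M1 p D κ ℓ k = ∑ A ∈ AA κ ℓ, (∑ B ∈ (BB κ ℓ).filter (SS p D ℓ A), wt B) *
      ∑ M ∈ (powersetCard k (P1 κ ℓ)).filter (fun M => A ⊆ M), wt M := by
  unfold M1
  rw [← nm_swap (AA κ ℓ) (fun A => A) (fun A B => SS p D ℓ A B)]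
  exact sum_congr rfl fun M _ => sum_congr rfl fun B _ => by rw [nm_RR]

open scoped Classical in
private theorem nm_M2 (p D : ℕ) (κ ℓ : ℝ) (k : ℕ) :
    M2 p D κ ℓ k = ∑ A ∈ AA κ ℓ, ∑ A' ∈ AA κ ℓ,
      (∑ B ∈ (BB κ ℓ).filter (fun B => SS p D ℓ A B ∧ SS p D ℓ A' B), wt B) *
      ∑ M ∈ (powersetCard k (P1 κ ℓ)).filter (fun M => A ∪ A' ⊆ M), wt M := by
  unfold M2
  rw [← sum_product' (f := fun A A' =>
      (∑ B ∈ (BB κ ℓ).filter (fun B => SS p D ℓ A B ∧ SS p D ℓ A' B), wt B) *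
      ∑ M ∈ (powersetCard k (P1 κ ℓ)).filter (fun M => A ∪ A' ⊆ M), wt M)]
  refine Eq.trans ?_ ((nm_swap (AA κ ℓ ×ˢ AA κ ℓ) (fun x => x.1 ∪ x.2)
    (fun x B => SS p D ℓ x.1 B ∧ SS p D ℓ x.2 B) (powersetCard k (P1 κ ℓ)) (BB κ ℓ)).trans ?_)
  swap
  · refine sum_congr rfl fun x _ => ?_
    congr 1
    refine sum_congr ?_ fun _ _ => rfl
    ext B
    simp only [mem_filter]
  refine sum_congr rfl fun M _ => sum_congr rfl fun B _ => ?_
  rw [nm_RR, sq, sum_mul_sum, ← sum_product']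
  congr 1
  refine sum_congr rfl fun x _ => ?_
  by_cases h1 : x.1 ⊆ M <;> by_cases h2 : x.2 ⊆ M <;> by_cases h3 : SS p D ℓ x.1 B <;>
    by_cases h4 : SS p D ℓ x.2 B <;> simp [h1, h2, h3, h4, union_subset_iff]

private theorem nm_AA {κ ℓ : ℝ} {A : Finset ℕ} (hA : A ∈ AA κ ℓ) :
    A ⊆ P1 κ ℓ ∧ A.card = j0 κ ℓ := by
  unfold AA at hA
  rw [mem_filter, mem_powersetCard] at hA
  exact hA.1

private theorem nm_mem {u v : ℝ} {q : ℕ} (h : q ∈ pr u v) : u < q := by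
  unfold pr at h
  exact (mem_filter.1 h).2.2

private theorem nm_ev : Ev fun κ ℓ => 1 ≤ La κ ℓ ∧ 40 * La κ ℓ ≤ uu κ ℓ ∧
    2 * (j0 κ ℓ : ℝ) ≤ La κ ℓ := by
  refine ((((La_large 1).and La_up).and (ev_uu 40 1 0)).and j0_facts).mono ?_
  rintro κ ℓ ⟨⟨⟨h1, h2⟩, h3⟩, h4⟩
  rw [pow_one, pow_zero, mul_one] at h3
  have h5 : La κ ℓ ≤ lv κ ℓ := by
    unfold lv
    have := Real.add_one_le_exp (κ * ℓ)
    linarith
  have h6 := h4.2.1
  exact ⟨h1, by linarith, by linarith⟩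

private theorem nm_elow {κ ℓ : ℝ} (h1 : 1 ≤ La κ ℓ) (h2 : 40 * La κ ℓ ≤ uu κ ℓ)
    (h3 : 2 * (j0 κ ℓ : ℝ) ≤ La κ ℓ) (n : ℕ) (hn : (n : ℝ) ≤ 2 * La κ ℓ) {A : Finset ℕ}
    (hA : A ⊆ P1 κ ℓ) (hAc : A.card = j0 κ ℓ) :
    1 / 2 * (La κ ℓ ^ n / n.factorial) ≤ ∑ N ∈ powersetCard n (P1 κ ℓ \ A), wt N := by
  set L := La κ ℓ with hL
  set u := uu κ ℓ with hu
  have hu40 : 40 ≤ u := by linarith
  have hu0 : 0 < u := by linarith
  set L' := ∑ q ∈ P1 κ ℓ \ A, 1 / (q : ℝ) with hL'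
  have e1 : L' + ∑ q ∈ A, 1 / (q : ℝ) = L := sum_sdiff hA
  have e2 : ∑ q ∈ A, 1 / (q : ℝ) ≤ j0 κ ℓ * (1 / u) := by
    rw [← hAc, ← nsmul_eq_mul]
    refine sum_le_card_nsmul _ _ _ fun q hq => ?_
    exact one_div_le_one_div_of_le hu0 (nm_mem (hA hq)).le
  have e3 : L * (1 - 1 / (2 * u)) ≤ L' := by
    have h5 : (j0 κ ℓ : ℝ) * (1 / u) ≤ L / 2 * (1 / u) :=
      mul_le_mul_of_nonneg_right (by linarith) (by positivity)
    have h6 : L / 2 * (1 / u) = L * (1 / (2 * u)) := by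
      field_simp
    linarith
  have e4 : 1 / (2 * u) ≤ 1 / 80 := one_div_le_one_div_of_le (by norm_num) (by linarith)
  have e4' : 0 ≤ 1 / (2 * u) := by positivity
  have e5 : L / 2 ≤ L' := by nlinarith
  have hL'0 : 0 < L' := by linarith
  have e6 : L ^ n * (39 / 40) ≤ L' ^ n := by
    have h5 := one_add_mul_le_pow (a := -(1 / (2 * u))) (by linarith) n
    have h6 : (n : ℝ) * (1 / (2 * u)) ≤ 1 / 40 := by
      have h7 : (n : ℝ) * (1 / (2 * u)) ≤ 2 * L * (1 / (2 * u)) :=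
        mul_le_mul_of_nonneg_right hn e4'
      have h8 : 2 * L * (1 / (2 * u)) = L / u := by
        field_simp
      have h9 : L / u ≤ 1 / 40 := by
        rw [div_le_iff₀ hu0]
        linarith
      linarith
    have h7 : (39 / 40 : ℝ) ≤ (1 - 1 / (2 * u)) ^ n := by
      have h8 : 1 + (n : ℝ) * -(1 / (2 * u)) = 1 - n * (1 / (2 * u)) := by ring
      have h9 : 1 + -(1 / (2 * u)) = 1 - 1 / (2 * u) := by ring
      rw [h8, h9] at h5
      linarith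
    calc L ^ n * (39 / 40) ≤ L ^ n * (1 - 1 / (2 * u)) ^ n :=
          mul_le_mul_of_nonneg_left h7 (by positivity)
      _ = (L * (1 - 1 / (2 * u))) ^ n := (mul_pow _ _ _).symm
      _ ≤ L' ^ n := by
          refine pow_le_pow_left₀ (mul_nonneg (by linarith) (by linarith)) e3 n
  have e7 : 9 / 10 ≤ 1 - (n : ℝ) ^ 2 / (2 * u * L') := by
    have h5 : (n : ℝ) ^ 2 / (2 * u * L') ≤ 1 / 10 := by
      rw [div_le_iff₀ (by positivity)]
      have h6 : (n : ℝ) ^ 2 ≤ (2 * L) ^ 2 := pow_le_pow_left₀ (Nat.cast_nonneg n) hn 2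
      have h7 : L * (40 * L) ≤ L * u := mul_le_mul_of_nonneg_left h2 (by linarith)
      have h8 : u * (L / 2) ≤ u * L' := mul_le_mul_of_nonneg_left e5 hu0.le
      nlinarith
    linarith
  refine le_trans ?_ (esymm_ge (P1 κ ℓ \ A) u hu0
    (fun q hq => (nm_mem (sdiff_subset hq)).le) hL'0 n)
  rw [← hL']
  have hf : (0 : ℝ) < n.factorial := by positivity
  have e8 : L ^ n / n.factorial * (39 / 40) ≤ L' ^ n / n.factorial := by
    rw [div_mul_eq_mul_div]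
    exact div_le_div_of_nonneg_right e6 hf.le
  have hX : 0 ≤ L ^ n / n.factorial := by positivity
  calc 1 / 2 * (L ^ n / n.factorial) ≤ L ^ n / n.factorial * (39 / 40) * (9 / 10) := by linarith
    _ ≤ L' ^ n / n.factorial * (1 - (n : ℝ) ^ 2 / (2 * u * L')) :=
        mul_le_mul e8 e7 (by norm_num) (by positivity)

private theorem nm_choose (L : ℝ) {k j : ℕ} (h : j ≤ k) :
    L ^ (k - j) / (k - j).factorial * (L ^ j / j.factorial) =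
      (k.choose j : ℝ) * (L ^ k / k.factorial) := by
  rw [Nat.cast_choose ℝ h]
  have h1 : L ^ k = L ^ (k - j) * L ^ j := by
    rw [← pow_add]
    congr 1
    omega
  rw [h1]
  have f1 : (k.factorial : ℝ) ≠ 0 := by positivity
  have f2 : (j.factorial : ℝ) ≠ 0 := by positivity
  have f3 : ((k - j).factorial : ℝ) ≠ 0 := by positivity
  field_simp

theorem M1_low {p D τ : ℕ} (hp : p.Prime) (hp2 : p ≠ 2) (h : HT p D τ) : ∃ c : ℝ, 0 < c ∧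
    Ev fun κ ℓ => ∀ k : ℕ, 2 * j0 κ ℓ ≤ k → (k : ℝ) ≤ 2 * La κ ℓ →
      c * sg p κ ℓ * (k.choose (j0 κ ℓ) : ℝ) * (La κ ℓ ^ k / k.factorial) ≤ M1 p D κ ℓ k := by
  classical
  obtain ⟨c, hc, hS⟩ := S_low hp hp2 h
  refine ⟨c / 2, by positivity, (hS.and nm_ev).mono ?_⟩
  rintro κ ℓ ⟨hS, h1, h2, h3⟩ k hk hk2
  have hjk : j0 κ ℓ ≤ k := by omega
  set j := j0 κ ℓ with hj
  have hn : ((k - j : ℕ) : ℝ) ≤ 2 * La κ ℓ := by
    have : ((k - j : ℕ) : ℝ) ≤ (k : ℝ) := by exact_mod_cast Nat.sub_le k j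
    linarith
  set E := La κ ℓ ^ (k - j) / ((k - j).factorial : ℝ) with hE
  have hE0 : 0 ≤ E := by positivity
  rw [nm_M1]
  have h4 : ∀ A ∈ AA κ ℓ, 1 / 2 * E * ∑ B ∈ (BB κ ℓ).filter (SS p D ℓ A), wt A * wt B ≤
      (∑ B ∈ (BB κ ℓ).filter (SS p D ℓ A), wt B) *
        ∑ M ∈ (powersetCard k (P1 κ ℓ)).filter (fun M => A ⊆ M), wt M := by
    intro A hA
    obtain ⟨hA1, hA2⟩ := nm_AA hA
    rw [wt_contain _ _ hA1 k (by rw [hA2]; exact hjk), hA2, ← mul_sum]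
    have h5 := nm_elow h1 h2 h3 (k - j) hn hA1 hA2
    have h6 : 0 ≤ ∑ B ∈ (BB κ ℓ).filter (SS p D ℓ A), wt B := sum_nonneg fun B _ => wt_nonneg B
    calc 1 / 2 * E * (wt A * ∑ B ∈ (BB κ ℓ).filter (SS p D ℓ A), wt B)
        = (∑ B ∈ (BB κ ℓ).filter (SS p D ℓ A), wt B) * (wt A * (1 / 2 * E)) := by ring
      _ ≤ _ := mul_le_mul_of_nonneg_left (mul_le_mul_of_nonneg_left h5 (wt_nonneg A)) h6
  refine le_trans ?_ (sum_le_sum h4)
  rw [← mul_sum]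
  have h5 := nm_choose (La κ ℓ) hjk
  calc c / 2 * sg p κ ℓ * (k.choose j : ℝ) * (La κ ℓ ^ k / k.factorial)
      = c / 2 * sg p κ ℓ * ((k.choose j : ℝ) * (La κ ℓ ^ k / k.factorial)) := by ring
    _ = c / 2 * sg p κ ℓ * (E * (La κ ℓ ^ j / j.factorial)) := by rw [← h5]
    _ = 1 / 2 * E * (c * sg p κ ℓ * (La κ ℓ ^ j / j.factorial)) := by ring
    _ ≤ _ := mul_le_mul_of_nonneg_left hS (by positivity)

theorem M2_up (p D : ℕ) (hD : 0 < D) : ∃ C : ℝ, 0 < C ∧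
    Ev fun κ ℓ => ∀ k : ℕ, 2 * j0 κ ℓ ≤ k → (k : ℝ) ≤ 2 * La κ ℓ →
      M2 p D κ ℓ k ≤ M1 p D κ ℓ k +
        C * sg p κ ℓ ^ 2 * (k.choose (j0 κ ℓ) : ℝ) ^ 2 * (La κ ℓ ^ k / k.factorial) := by
  classical
  obtain ⟨CW, hCW, hW⟩ := W_up p D hD
  obtain ⟨CP, hCP, hP⟩ := PS_up
  refine ⟨CW * CP, by positivity, ((hW.and hP).and nm_ev).mono ?_⟩
  rintro κ ℓ ⟨⟨hW, hP⟩, h1, -, -⟩ k hk -
  set j := j0 κ ℓ with hj
  set L := La κ ℓ with hL
  have hL0 : 0 ≤ L := by linarith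
  rw [nm_M2]
  set T : Finset ℕ → Finset ℕ → ℝ := fun A A' =>
      (∑ B ∈ (BB κ ℓ).filter (fun B => SS p D ℓ A B ∧ SS p D ℓ A' B), wt B) *
      ∑ M ∈ (powersetCard k (P1 κ ℓ)).filter (fun M => A ∪ A' ⊆ M), wt M with hT
  have hsplit : ∀ A ∈ AA κ ℓ, ∑ A' ∈ AA κ ℓ, T A A' = T A A + ∑ A' ∈ (AA κ ℓ).erase A, T A A' :=
    fun A hA => (add_sum_erase _ _ hA).symm
  have hTAA : ∑ A ∈ AA κ ℓ, T A A = M1 p D κ ℓ k := by
    rw [nm_M1]
    refine sum_congr rfl fun A _ => ?_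
    simp only [hT, and_self, union_self]
  rw [sum_congr rfl hsplit, sum_add_distrib, hTAA]
  refine add_le_add_right ?_ _
  -- the off-diagonal part
  set X : ℕ → ℝ := fun i => L ^ (k - 2 * j + i) / ((k - 2 * j + i).factorial : ℝ) with hX
  have hX0 : ∀ i, 0 ≤ X i := fun i => by positivity
  have hmaps : ∀ A ∈ AA κ ℓ, ∀ A' ∈ (AA κ ℓ).erase A, (A ∩ A').card ∈ range j := by
    intro A hA A' hA'
    rw [mem_erase] at hA'
    obtain ⟨h2, h3⟩ := nm_AA hA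
    obtain ⟨h4, h5⟩ := nm_AA hA'.2
    rw [mem_range]
    refine lt_of_le_of_ne ((card_le_card inter_subset_left).trans h3.le) ?_
    intro h6
    have h7 : A ∩ A' = A := eq_of_subset_of_card_le inter_subset_left (by rw [h6, h3])
    have h8 : A ⊆ A' := inter_eq_left.1 h7
    exact hA'.1 (eq_of_subset_of_card_le h8 (by rw [h3, h5])).symm
  have hterm : ∀ A ∈ AA κ ℓ, ∀ A' ∈ (AA κ ℓ).erase A, ∀ i, (A ∩ A').card = i →
      T A A' ≤ CW * sg p κ ℓ ^ 2 * X i * (wt (A ∪ A') * Fh (Nat.dist (pd A) (pd A'))) := by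
    intro A hA A' hA' i hi
    have hi' : i < j := by
      have := hmaps A hA A' hA'
      rw [hi, mem_range] at this
      exact this
    rw [mem_erase] at hA'
    obtain ⟨h2, h3⟩ := nm_AA hA
    obtain ⟨h4, h5⟩ := nm_AA hA'.2
    have hcard : (A ∪ A').card = 2 * j - i := by
      have := card_union_add_card_inter A A'
      rw [hi, h3, h5] at this
      omega
    have hsub : A ∪ A' ⊆ P1 κ ℓ := union_subset h2 h4
    have h6 := hW A hA A' hA'.2 (Ne.symm hA'.1)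
    have h7 : ∑ M ∈ (powersetCard k (P1 κ ℓ)).filter (fun M => A ∪ A' ⊆ M), wt M ≤
        wt (A ∪ A') * X i := by
      rw [wt_contain _ _ hsub k (by rw [hcard]; omega)]
      refine mul_le_mul_of_nonneg_left ?_ (wt_nonneg _)
      refine (esymm_le _ _).trans ?_
      have h8 : k - (A ∪ A').card = k - 2 * j + i := by
        rw [hcard]
        omega
      rw [h8]
      refine div_le_div_of_nonneg_right ?_ (by positivity)
      refine pow_le_pow_left₀ (sum_nonneg fun _ _ => by positivity) ?_ _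
      exact sum_le_sum_of_subset_of_nonneg sdiff_subset fun _ _ _ => by positivity
    have h8 : 0 ≤ ∑ M ∈ (powersetCard k (P1 κ ℓ)).filter (fun M => A ∪ A' ⊆ M), wt M :=
      sum_nonneg fun M _ => wt_nonneg M
    have h9 : 0 ≤ Fh (Nat.dist (pd A) (pd A')) := by
      unfold Fh
      exact prod_nonneg fun q _ => by positivity
    calc T A A' ≤ (CW * sg p κ ℓ ^ 2 * Fh (Nat.dist (pd A) (pd A'))) * (wt (A ∪ A') * X i) :=
          mul_le_mul h6 h7 h8 (by positivity)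
      _ = _ := by ring
  have hbound : ∑ A ∈ AA κ ℓ, ∑ A' ∈ (AA κ ℓ).erase A, T A A' ≤
      ∑ i ∈ range j, CW * sg p κ ℓ ^ 2 * X i *
        ∑ A ∈ AA κ ℓ, ∑ A' ∈ (AA κ ℓ).filter (fun A' => (A ∩ A').card = i),
          wt (A ∪ A') * Fh (Nat.dist (pd A) (pd A')) := by
    have h2 : ∀ A ∈ AA κ ℓ, ∑ A' ∈ (AA κ ℓ).erase A, T A A' ≤
        ∑ i ∈ range j, CW * sg p κ ℓ ^ 2 * X i *
          ∑ A' ∈ (AA κ ℓ).filter (fun A' => (A ∩ A').card = i),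
            wt (A ∪ A') * Fh (Nat.dist (pd A) (pd A')) := by
      intro A hA
      rw [← sum_fiberwise_of_maps_to (hmaps A hA)]
      refine sum_le_sum fun i hi => ?_
      rw [mul_sum]
      have h3 : ((AA κ ℓ).erase A).filter (fun A' => (A ∩ A').card = i) ⊆
          (AA κ ℓ).filter (fun A' => (A ∩ A').card = i) :=
        filter_subset_filter _ (erase_subset _ _)
      refine le_trans (sum_le_sum fun A' hA' => ?_) (sum_le_sum_of_subset_of_nonneg h3 ?_)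
      · rw [mem_filter] at hA'
        exact hterm A hA A' hA'.1 i hA'.2
      · intro A' _ _
        have h9 : 0 ≤ Fh (Nat.dist (pd A) (pd A')) := by
          unfold Fh
          exact prod_nonneg fun q _ => by positivity
        have := hX0 i
        have := wt_nonneg (A ∪ A')
        positivity
    refine (sum_le_sum h2).trans (le_of_eq ?_)
    rw [sum_comm]
    exact sum_congr rfl fun i _ => (mul_sum _ _ _).symm
  refine hbound.trans ?_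
  have hv := vand L k j hk
  have h2 : ∀ i ∈ range j, CW * sg p κ ℓ ^ 2 * X i *
        ∑ A ∈ AA κ ℓ, ∑ A' ∈ (AA κ ℓ).filter (fun A' => (A ∩ A').card = i),
          wt (A ∪ A') * Fh (Nat.dist (pd A) (pd A')) ≤
      CW * CP * sg p κ ℓ ^ 2 * ((L ^ i / i.factorial) * (L ^ (j - i) / (j - i).factorial) ^ 2 *
        (L ^ (k - 2 * j + i) / (k - 2 * j + i).factorial)) := by
    intro i hi
    have h3 := hP i (mem_range.1 hi)
    have h4 : 0 ≤ CW * sg p κ ℓ ^ 2 * X i := by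
      have := hX0 i
      positivity
    refine (mul_le_mul_of_nonneg_left h3 h4).trans (le_of_eq ?_)
    simp only [hX]
    ring
  refine (sum_le_sum h2).trans ?_
  rw [← mul_sum]
  have h3 : ∑ i ∈ range j, (L ^ i / i.factorial) * (L ^ (j - i) / (j - i).factorial) ^ 2 *
        (L ^ (k - 2 * j + i) / (k - 2 * j + i).factorial) ≤
      L ^ k / k.factorial * (k.choose j : ℝ) ^ 2 := by
    rw [← hv, sum_range_succ]
    have : 0 ≤ (L ^ j / j.factorial) * (L ^ (j - j) / ((j - j).factorial : ℝ)) ^ 2 *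
        (L ^ (k - 2 * j + j) / ((k - 2 * j + j).factorial : ℝ)) := by positivity
    linarith
  refine (mul_le_mul_of_nonneg_left h3 (by positivity)).trans (le_of_eq ?_)
  ring

private theorem nm_cs {X : Type*} (s : Finset X) (r w : X → ℝ) (hw : ∀ x ∈ s, 0 ≤ w x)
    (Q : X → Prop) [DecidablePred Q] (hQ : ∀ x ∈ s, ¬ Q x → r x = 0) :
    (∑ x ∈ s, r x * w x) ^ 2 ≤ (∑ x ∈ s, if Q x then w x else 0) * ∑ x ∈ s, r x ^ 2 * w x := by
  have h1 := sum_sq_le_sum_mul_sum_of_sq_le_mul s (r := fun x => r x * w x)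
    (f := fun x => if Q x then w x else 0) (g := fun x => r x ^ 2 * w x) ?_ ?_ ?_
  · exact h1
  · intro x hx
    by_cases h : Q x
    · simp only [if_pos h]
      exact hw x hx
    · simp only [if_neg h]
      exact le_refl 0
  · intro x hx
    exact mul_nonneg (sq_nonneg _) (hw x hx)
  · intro x hx
    by_cases h : Q x
    · simp only [if_pos h]
      exact le_of_eq (by ring)
    · simp only [if_neg h, hQ x hx h]
      exact le_of_eq (by ring)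

open scoped Classical in
theorem perk {p D τ : ℕ} (hp : p.Prime) (hp2 : p ≠ 2) (h : HT p D τ) : ∃ c : ℝ, 0 < c ∧
    Ev fun κ ℓ => ∀ k : ℕ, 2 * j0 κ ℓ ≤ k → (k : ℝ) ≤ 2 * La κ ℓ →
      c * (La κ ℓ ^ k / k.factorial) ≤
        ∑ M ∈ powersetCard k (P1 κ ℓ), ∑ B ∈ BB κ ℓ,
          if ∃ A ∈ AA κ ℓ, A ⊆ M ∧ SS p D ℓ A B then wt M * wt B else 0 := by
  obtain ⟨c1, hc1, hM1⟩ := M1_low hp hp2 h
  obtain ⟨C, hC, hM2⟩ := M2_up p D h.pos
  refine ⟨min (c1 / 2) (c1 ^ 2 / (2 * C)), by positivity,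
    (((hM1.and hM2).and nm_ev).and (theta_ge hp hp2)).mono ?_⟩
  rintro κ ℓ ⟨⟨⟨hM1, hM2⟩, h1, -, -⟩, hθ⟩ k hk hk2
  have hM1 := hM1 k hk hk2
  have hM2 := hM2 k hk hk2
  set E := La κ ℓ ^ k / (k.factorial : ℝ) with hE
  have hE0 : 0 < E := by
    have : 0 < La κ ℓ := by linarith
    positivity
  have hsg := (sg_pos p κ ℓ).1
  set θ := sg p κ ℓ * (k.choose (j0 κ ℓ) : ℝ) with hθd
  have hθ1 : 1 ≤ θ := by
    refine hθ.trans (mul_le_mul_of_nonneg_left ?_ hsg.le)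
    rw [div_le_iff₀ (by positivity)]
    have h2 := Nat.four_pow_le_two_mul_add_one_mul_central_binom (j0 κ ℓ)
    have h3 : (j0 κ ℓ).centralBinom ≤ k.choose (j0 κ ℓ) := by
      rw [Nat.centralBinom]
      exact Nat.choose_le_choose _ hk
    have h4 : 4 ^ j0 κ ℓ ≤ (2 * j0 κ ℓ + 1) * k.choose (j0 κ ℓ) :=
      h2.trans (Nat.mul_le_mul_left _ h3)
    have h5 : ((4 ^ j0 κ ℓ : ℕ) : ℝ) ≤ (((2 * j0 κ ℓ + 1) * k.choose (j0 κ ℓ) : ℕ) : ℝ) :=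
      Nat.cast_le.2 h4
    push_cast at h5
    linarith
  have hM1' : c1 * E * θ ≤ M1 p D κ ℓ k := by
    refine le_trans (le_of_eq ?_) hM1
    rw [hθd]
    ring
  have hM2' : M2 p D κ ℓ k ≤ M1 p D κ ℓ k + C * E * θ ^ 2 := by
    refine hM2.trans (le_of_eq ?_)
    rw [hθd]
    ring
  set N := ∑ M ∈ powersetCard k (P1 κ ℓ), ∑ B ∈ BB κ ℓ,
          if ∃ A ∈ AA κ ℓ, A ⊆ M ∧ SS p D ℓ A B then wt M * wt B else 0 with hN
  have hN0 : 0 ≤ N := sum_nonneg fun M _ => sum_nonneg fun B _ => by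
    split_ifs
    · exact mul_nonneg (wt_nonneg _) (wt_nonneg _)
    · exact le_refl 0
  have hCS : M1 p D κ ℓ k ^ 2 ≤ N * M2 p D κ ℓ k := by
    have h2 := nm_cs (powersetCard k (P1 κ ℓ) ×ˢ BB κ ℓ) (fun x => RR p D κ ℓ x.1 x.2)
      (fun x => wt x.1 * wt x.2) (fun x _ => mul_nonneg (wt_nonneg _) (wt_nonneg _))
      (fun x => ∃ A ∈ AA κ ℓ, A ⊆ x.1 ∧ SS p D ℓ A x.2) (fun x _ hx => by
        show RR p D κ ℓ x.1 x.2 = 0
        unfold RR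
        rw [filter_eq_empty_iff.2, card_empty, Nat.cast_zero]
        intro A hA h3
        exact hx ⟨A, hA, h3⟩)
    rw [sum_product, sum_product, sum_product] at h2
    exact h2
  have hM1pos : 0 < M1 p D κ ℓ k := lt_of_lt_of_le (by positivity) hM1'
  have hEθ : c1 * E ≤ c1 * E * θ := le_mul_of_one_le_right (by positivity) hθ1
  rcases le_or_gt (C * E * θ ^ 2) (M1 p D κ ℓ k) with hcase | hcase
  · have h2 : M1 p D κ ℓ k ^ 2 ≤ N * (2 * M1 p D κ ℓ k) :=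
      hCS.trans (mul_le_mul_of_nonneg_left (by linarith) hN0)
    have h3 : M1 p D κ ℓ k ≤ 2 * N := by
      have h4 : M1 p D κ ℓ k * M1 p D κ ℓ k ≤ 2 * N * M1 p D κ ℓ k := by
        rw [sq] at h2
        linarith
      exact le_of_mul_le_mul_right h4 hM1pos
    have h4 : min (c1 / 2) (c1 ^ 2 / (2 * C)) * E ≤ c1 / 2 * E :=
      mul_le_mul_of_nonneg_right (min_le_left _ _) hE0.le
    linarith
  · have h2 : M1 p D κ ℓ k ^ 2 ≤ N * (2 * (C * E * θ ^ 2)) :=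
      hCS.trans (mul_le_mul_of_nonneg_left (by linarith) hN0)
    have h3 : (c1 * E * θ) ^ 2 ≤ M1 p D κ ℓ k ^ 2 := pow_le_pow_left₀ (by positivity) hM1' 2
    have hθ0 : 0 < θ := by linarith
    have h4 : c1 ^ 2 / (2 * C) * E * (2 * (C * E * θ ^ 2)) = (c1 * E * θ) ^ 2 := by
      field_simp
    have h5 : c1 ^ 2 / (2 * C) * E * (2 * (C * E * θ ^ 2)) ≤ N * (2 * (C * E * θ ^ 2)) := by
      rw [h4]
      exact h3.trans h2
    have h6 : c1 ^ 2 / (2 * C) * E ≤ N := le_of_mul_le_mul_right h5 (by positivity)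
    exact (mul_le_mul_of_nonneg_right (min_le_right _ _) hE0.le).trans h6

end Pool.SG
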