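import Pool.Agent.Lib.MP_a51fee_ag.SG.NM

/-!
# SG-NScl: one scale

PROOF of `scale`.  Eventually `P1, P2` are disjoint with union `pr uu vv` (`P_union`).  For `M1 ⊆ P1`, `B ∈ BB` (`B ⊆ P2`) the set
`M = M1 ∪ B` has `wt M = wt M1 wt B` and determines `M1 = M ∩ P1`, `B = M ∩ P2`; if `A ∈ AA`, `A ⊆ M1`, `SS p D ℓ A B`, then
`T = A ∪ B ⊆ M`, `pd T = pd A pd B ≤ exp (lv/20) vv ≤ vv^2`, `EE (1 + D pd T)`.  So the sum over `M` is at least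
`∑_{k ∈ Icc (2 j0) ⌊2 La⌋} perk ≥ c ∑_k La^k/k! ≥ (c/2) exp La` (`pois`: `2 j0 ≤ (1 - 1/500) La`, `⌊2 La⌋ ≥ 2 La - 1`,
`La ≥ 500000` by `La_large`).  `∏_{pr uu vv} (1 - 1/q) = ∏_{P1} ∏_{P2} ≥ exp (-La - 1) * c'` (`P1_prod`, `P2_prod`).
PROOF of `beta`.  `∑_{M ⊆ P} wt M = ∏ (1 + 1/q) ≤ ∏ (1 - 1/q)^{-1}`; subtract `scale`.
-/

set_option autoImplicit false

open Finset

namespace Pool.SG

/-- the set `M` of primes has a subset `T` with `1 + D pd T` admissible -/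
def Gd (p D : ℕ) (κ ℓ : ℝ) (M : Finset ℕ) : Prop :=
  ∃ T : Finset ℕ, T ⊆ M ∧ (pd T : ℝ) ≤ vv κ ℓ ^ 2 ∧ EE p (zz ℓ) (YY ℓ) (1 + D * pd T)

private theorem nscl_wt_union {A B : Finset ℕ} (h : Disjoint A B) :
    wt (A ∪ B) = wt A * wt B := by
  unfold wt
  exact prod_union h

private theorem nscl_pd_union {A B : Finset ℕ} (h : Disjoint A B) :
    pd (A ∪ B) = pd A * pd B := by
  unfold pd
  exact prod_union h

private theorem nscl_fac {u v : ℝ} {q : ℕ} (h : q ∈ pr u v) : 0 ≤ 1 - 1 / (q : ℝ) ∧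
    (1 - 1 / (q : ℝ)) * (1 + 1 / (q : ℝ)) ≤ 1 := by
  unfold pr at h
  have hq : (1 : ℝ) ≤ q := by exact_mod_cast (mem_filter.1 h).2.1.one_lt.le
  have h1 : 1 / (q : ℝ) ≤ 1 := by
    rw [div_le_one (by linarith)]
    exact hq
  have h0 : 0 ≤ 1 / (q : ℝ) := by positivity
  refine ⟨by linarith, ?_⟩
  nlinarith

open scoped Classical in
private theorem nscl_inj (p D : ℕ) (κ ℓ : ℝ) (hd : Disjoint (P1 κ ℓ) (P2 κ ℓ))
    (hu : P1 κ ℓ ∪ P2 κ ℓ = pr (uu κ ℓ) (vv κ ℓ)) :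
    ∑ M ∈ (P1 κ ℓ).powerset, ∑ B ∈ BB κ ℓ,
      (if ∃ A ∈ AA κ ℓ, A ⊆ M ∧ SS p D ℓ A B then wt M * wt B else 0) ≤
      ∑ M ∈ (pr (uu κ ℓ) (vv κ ℓ)).powerset.filter (Gd p D κ ℓ), wt M := by
  have hBB : ∀ B ∈ BB κ ℓ, B ⊆ P2 κ ℓ := fun B hB => by
    unfold BB at hB
    exact mem_powerset.1 (mem_filter.1 hB).1
  rw [← sum_product', ← sum_filter]
  have h1 : ∑ x ∈ ((P1 κ ℓ).powerset ×ˢ BB κ ℓ).filter
      (fun x => ∃ A ∈ AA κ ℓ, A ⊆ x.1 ∧ SS p D ℓ A x.2), wt x.1 * wt x.2 =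
      ∑ x ∈ ((P1 κ ℓ).powerset ×ˢ BB κ ℓ).filter
      (fun x => ∃ A ∈ AA κ ℓ, A ⊆ x.1 ∧ SS p D ℓ A x.2), wt (x.1 ∪ x.2) := by
    refine sum_congr rfl fun x hx => ?_
    rw [mem_filter, mem_product, mem_powerset] at hx
    rw [nscl_wt_union (disjoint_of_subset_left hx.1.1
      (disjoint_of_subset_right (hBB _ hx.1.2) hd))]
  rw [h1]
  have hinj : Set.InjOn (fun x : Finset ℕ × Finset ℕ => x.1 ∪ x.2)
      (((P1 κ ℓ).powerset ×ˢ BB κ ℓ).filter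
      (fun x => ∃ A ∈ AA κ ℓ, A ⊆ x.1 ∧ SS p D ℓ A x.2) : Set (Finset ℕ × Finset ℕ)) := by
    intro x hx y hy hxy
    rw [mem_coe, mem_filter, mem_product, mem_powerset] at hx hy
    have e1 : ∀ z : Finset ℕ × Finset ℕ, z.1 ⊆ P1 κ ℓ → z.2 ⊆ P2 κ ℓ →
        (z.1 ∪ z.2) ∩ P1 κ ℓ = z.1 ∧ (z.1 ∪ z.2) ∩ P2 κ ℓ = z.2 := by
      intro z hz1 hz2
      rw [union_inter_distrib_right, union_inter_distrib_right, inter_eq_left.2 hz1,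
        inter_eq_left.2 hz2, (disjoint_iff_inter_eq_empty).1 (disjoint_of_subset_left hz2 hd.symm),
        (disjoint_iff_inter_eq_empty).1 (disjoint_of_subset_left hz1 hd), union_empty, empty_union]
      exact ⟨rfl, rfl⟩
    have hx2 := e1 x hx.1.1 (hBB _ hx.1.2)
    have hy2 := e1 y hy.1.1 (hBB _ hy.1.2)
    have hxy' : x.1 ∪ x.2 = y.1 ∪ y.2 := hxy
    rw [hxy'] at hx2
    exact Prod.ext (hx2.1.symm.trans hy2.1) (hx2.2.symm.trans hy2.2)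
  rw [← sum_image (f := fun M => wt M) hinj]
  refine sum_le_sum_of_subset_of_nonneg ?_ fun M _ _ => wt_nonneg M
  intro M hM
  obtain ⟨x, hx, rfl⟩ := mem_image.1 hM
  rw [mem_filter, mem_product, mem_powerset] at hx
  obtain ⟨⟨hx1, hx2⟩, A, hA, hAM, hS⟩ := hx
  rw [mem_filter, mem_powerset]
  refine ⟨?_, ?_⟩
  · rw [← hu]
    exact union_subset_union hx1 (hBB _ hx2)
  · unfold AA at hA
    rw [mem_filter, mem_powersetCard] at hA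
    have hB := hx2
    unfold BB at hB
    rw [mem_filter] at hB
    have hdAB : Disjoint A x.2 := disjoint_of_subset_left hA.1.1
      (disjoint_of_subset_right (hBB _ hx2) hd)
    refine ⟨A ∪ x.2, union_subset_union hAM (subset_refl _), ?_, ?_⟩
    · rw [nscl_pd_union hdAB, Nat.cast_mul]
      have hv : 0 < vv κ ℓ := Real.exp_pos _
      have h2 : Real.exp (lv κ ℓ / 20) ≤ vv κ ℓ := by
        unfold vv
        apply Real.exp_le_exp.2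
        have : 0 < lv κ ℓ := Real.exp_pos _
        linarith
      rw [sq]
      exact mul_le_mul (hA.2.trans h2) hB.2.2 (Nat.cast_nonneg _) hv.le
    · unfold SS at hS
      rw [nscl_pd_union hdAB, ← mul_assoc]
      exact hS

open scoped Classical in
theorem scale {p D : ℕ} (hp : p.Prime) (hp2 : p ≠ 2) (h : HD p D) : ∃ c0 : ℝ, 0 < c0 ∧
    Ev fun κ ℓ => c0 ≤ (∏ q ∈ pr (uu κ ℓ) (vv κ ℓ), (1 - 1 / (q : ℝ))) *
      ∑ M ∈ (pr (uu κ ℓ) (vv κ ℓ)).powerset.filter (Gd p D κ ℓ), wt M := by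
  obtain ⟨τ, h1, h2, h3⟩ := h.ex
  have hT : HT p D τ := ⟨h.pos, h.even, h.primes, h1, h2, h3⟩
  obtain ⟨c, hc, hper⟩ := perk hp hp2 hT
  obtain ⟨c', hc', hP2⟩ := P2_prod
  refine ⟨Real.exp (-1) * c' * (c / 2), by positivity, ?_⟩
  refine ((((hper.and hP2).and P1_prod).and P_union).and ((La_large 500000).and j0_facts)).mono ?_
  rintro κ ℓ ⟨⟨⟨⟨hk, hb⟩, ha⟩, hd, hu⟩, hL, _, hj, _, _⟩
  have hL0 : 0 ≤ La κ ℓ := by linarith
  have hprod : ∏ q ∈ pr (uu κ ℓ) (vv κ ℓ), (1 - 1 / (q : ℝ)) =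
      (∏ q ∈ P1 κ ℓ, (1 - 1 / (q : ℝ))) * ∏ q ∈ P2 κ ℓ, (1 - 1 / (q : ℝ)) := by
    rw [← hu, prod_union hd]
  have hprod2 : Real.exp (-(La κ ℓ) - 1) * c' ≤ ∏ q ∈ pr (uu κ ℓ) (vv κ ℓ), (1 - 1 / (q : ℝ)) := by
    rw [hprod]
    refine mul_le_mul ha hb hc'.le ?_
    exact (Real.exp_pos _).le.trans ha
  have hpois := pois (La κ ℓ) hL (2 * j0 κ ℓ) ⌊2 * La κ ℓ⌋₊ (by push_cast; exact hj)
    (by have := Nat.lt_floor_add_one (2 * La κ ℓ); linarith)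
  have hsum : c * (1 / 2 * Real.exp (La κ ℓ)) ≤ ∑ M ∈ (pr (uu κ ℓ) (vv κ ℓ)).powerset.filter
      (Gd p D κ ℓ), wt M := by
    calc c * (1 / 2 * Real.exp (La κ ℓ))
        ≤ c * ∑ k ∈ Icc (2 * j0 κ ℓ) ⌊2 * La κ ℓ⌋₊, La κ ℓ ^ k / k.factorial :=
          mul_le_mul_of_nonneg_left hpois hc.le
      _ = ∑ k ∈ Icc (2 * j0 κ ℓ) ⌊2 * La κ ℓ⌋₊, c * (La κ ℓ ^ k / k.factorial) := mul_sum _ _ _
      _ ≤ ∑ k ∈ Icc (2 * j0 κ ℓ) ⌊2 * La κ ℓ⌋₊, ∑ M ∈ powersetCard k (P1 κ ℓ), ∑ B ∈ BB κ ℓ,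
          (if ∃ A ∈ AA κ ℓ, A ⊆ M ∧ SS p D ℓ A B then wt M * wt B else 0) := by
          refine sum_le_sum fun k hk' => ?_
          rw [mem_Icc] at hk'
          refine hk k hk'.1 ?_
          exact (Nat.le_floor_iff (by linarith)).1 hk'.2
      _ = ∑ M ∈ (Icc (2 * j0 κ ℓ) ⌊2 * La κ ℓ⌋₊).biUnion (fun k => powersetCard k (P1 κ ℓ)),
          ∑ B ∈ BB κ ℓ,
          (if ∃ A ∈ AA κ ℓ, A ⊆ M ∧ SS p D ℓ A B then wt M * wt B else 0) := by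
          rw [sum_biUnion]
          intro k _ k' _ hkk'
          exact pairwise_disjoint_powersetCard (P1 κ ℓ) hkk'
      _ ≤ ∑ M ∈ (P1 κ ℓ).powerset, ∑ B ∈ BB κ ℓ,
          (if ∃ A ∈ AA κ ℓ, A ⊆ M ∧ SS p D ℓ A B then wt M * wt B else 0) := by
          refine sum_le_sum_of_subset_of_nonneg ?_ ?_
          · intro M hM
            obtain ⟨k, _, hM2⟩ := mem_biUnion.1 hM
            exact mem_powerset.2 (mem_powersetCard.1 hM2).1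
          · intro M _ _
            refine sum_nonneg fun B _ => ?_
            split_ifs
            · exact mul_nonneg (wt_nonneg _) (wt_nonneg _)
            · exact le_rfl
      _ ≤ _ := nscl_inj p D κ ℓ hd hu
  have hfin : Real.exp (-(La κ ℓ) - 1) * c' * (c * (1 / 2 * Real.exp (La κ ℓ))) ≤
      (∏ q ∈ pr (uu κ ℓ) (vv κ ℓ), (1 - 1 / (q : ℝ))) *
      ∑ M ∈ (pr (uu κ ℓ) (vv κ ℓ)).powerset.filter (Gd p D κ ℓ), wt M := by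
    refine mul_le_mul hprod2 hsum (by positivity) ?_
    exact (by positivity : (0 : ℝ) ≤ Real.exp (-(La κ ℓ) - 1) * c').trans hprod2
  refine le_trans (le_of_eq ?_) hfin
  have e1 : Real.exp (-(La κ ℓ) - 1) * Real.exp (La κ ℓ) = Real.exp (-1) := by
    rw [← Real.exp_add]
    congr 1
    ring
  calc Real.exp (-1) * c' * (c / 2)
      = (Real.exp (-(La κ ℓ) - 1) * Real.exp (La κ ℓ)) * c' * (c / 2) := by rw [e1]
    _ = _ := by ring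

open scoped Classical in
theorem beta {p D : ℕ} (hp : p.Prime) (hp2 : p ≠ 2) (h : HD p D) : ∃ c0 : ℝ, 0 < c0 ∧ c0 ≤ 1 ∧
    Ev fun κ ℓ => (∏ q ∈ pr (uu κ ℓ) (vv κ ℓ), (1 - 1 / (q : ℝ))) *
      ∑ M ∈ (pr (uu κ ℓ) (vv κ ℓ)).powerset.filter (fun M => ¬ Gd p D κ ℓ M), wt M ≤
        1 - c0 := by
  obtain ⟨c0, hc0, hs⟩ := scale hp hp2 h
  refine ⟨min c0 1, lt_min hc0 one_pos, min_le_right _ _, hs.mono ?_⟩
  intro κ ℓ h1
  have h2 := sum_filter_add_sum_filter_not (pr (uu κ ℓ) (vv κ ℓ)).powerset (Gd p D κ ℓ) wt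
  have h3 : ∑ M ∈ (pr (uu κ ℓ) (vv κ ℓ)).powerset, wt M =
      ∏ q ∈ pr (uu κ ℓ) (vv κ ℓ), (1 + 1 / (q : ℝ)) := by
    rw [Finset.prod_one_add]
    rfl
  have h4 : (∏ q ∈ pr (uu κ ℓ) (vv κ ℓ), (1 - 1 / (q : ℝ))) *
      ∏ q ∈ pr (uu κ ℓ) (vv κ ℓ), (1 + 1 / (q : ℝ)) ≤ 1 := by
    rw [← prod_mul_distrib]
    refine prod_le_one (fun q hq => ?_) (fun q hq => (nscl_fac hq).2)
    exact mul_nonneg (nscl_fac hq).1 (by positivity)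
  rw [← h3, ← h2, mul_add] at h4
  have h5 := min_le_left c0 1
  linarith

end Pool.SG
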