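import Pool.Agent.Lib.MP_a51fee_ag.SG.ND

/-!
# SG-NSym: elementary symmetric sums of `1/q`

Let `E_n(P) = ∑_{N ∈ powersetCard n P} wt N`, `Λ = ∑_{q ∈ P} 1/q`.
* identity (I): `n E_n(P) = ∑_{q ∈ P} (1/q) E_{n-1}(P.erase q)` (double counting of `(N, q)`, `q ∈ N`),
  `n ≥ 1`; and `E_m(P) = E_m(P.erase q) + (1/q) E_{m-1}(P.erase q)` for `q ∈ P`, `m ≥ 1`.
* `esymm_le`: induction on `n`: `n E_n ≤ ∑ (1/q) E_{n-1}(P) = Λ E_{n-1}(P)`.
* `esymm_ge`: claim `E_n ≥ Λ^n/n! - (1/u) Λ^{n-1} / (2 (n-2)!)` for `n ≥ 2`, `E_0 = 1`, `E_1 = Λ`.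
  By (I) `n E_n = ∑ (1/q) (E_{n-1}(P) - (1/q) E_{n-2}(P.erase q)) ≥ Λ E_{n-1} - (Λ/u) E_{n-2}(P)` as
  `∑ 1/q^2 ≤ Λ/u`; induction and `E_{n-2} ≤ Λ^{n-2}/(n-2)!`:
  `n E_n ≥ Λ^n/(n-1)! - (1/u) Λ^{n-1} (1/(2 (n-3)!) + 1/(n-2)!)`, and
  `1/(2(n-3)!) + 1/(n-2)! = n / (2 (n-2)!)` (for `n = 2` the first term is absent: `1 = 2/2`).
  Then `(1/u) Λ^{n-1}/(2 (n-2)!) ≤ (Λ^n/n!) n^2/(2 u Λ)`.
* `wt_contain`: `M ↦ M \ A` is a bijection `{M ∈ powersetCard k P | A ⊆ M} → powersetCard (k - |A|) (P \ A)`.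
-/

set_option autoImplicit false

open Finset

namespace Pool.SG

private noncomputable def nsE (n : ℕ) (P : Finset ℕ) : ℝ := ∑ N ∈ powersetCard n P, wt N

private theorem nsE_zero (P : Finset ℕ) : nsE 0 P = 1 := by
  unfold nsE
  rw [powersetCard_zero, sum_singleton]
  rfl

private theorem nsE_nonneg (n : ℕ) (P : Finset ℕ) : 0 ≤ nsE n P :=
  sum_nonneg fun N _ => wt_nonneg N

private theorem ns_contain (P A : Finset ℕ) (hA : A ⊆ P) (k : ℕ) (hk : A.card ≤ k) :
    ∑ M ∈ (powersetCard k P).filter (fun M => A ⊆ M), wt M =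
      wt A * ∑ N ∈ powersetCard (k - A.card) (P \ A), wt N := by
  rw [mul_sum]
  refine sum_nbij' (fun M => M \ A) (fun N => A ∪ N) ?_ ?_ ?_ ?_ ?_
  · intro M hM
    rw [mem_filter, mem_powersetCard] at hM
    rw [mem_powersetCard]
    refine ⟨sdiff_subset_sdiff hM.1.1 (subset_refl _), ?_⟩
    rw [card_sdiff_of_subset hM.2, hM.1.2]
  · intro N hN
    rw [mem_powersetCard] at hN
    rw [mem_filter, mem_powersetCard]
    have hd : Disjoint A N := by
      rw [disjoint_left]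
      intro q hq hqN
      exact (mem_sdiff.1 (hN.1 hqN)).2 hq
    refine ⟨⟨union_subset hA (hN.1.trans sdiff_subset), ?_⟩, subset_union_left⟩
    rw [card_union_of_disjoint hd, hN.2]
    omega
  · intro M hM
    rw [mem_filter] at hM
    exact union_sdiff_of_subset hM.2
  · intro N hN
    rw [mem_powersetCard] at hN
    ext q
    rw [mem_sdiff, mem_union]
    constructor
    · rintro ⟨h1 | h1, h2⟩
      · exact absurd h1 h2
      · exact h1
    · intro h1
      exact ⟨Or.inr h1, (mem_sdiff.1 (hN.1 h1)).2⟩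
  · intro M hM
    rw [mem_filter] at hM
    show wt M = wt A * wt (M \ A)
    unfold wt
    rw [mul_comm, prod_sdiff hM.2]

private theorem ns_erase (P : Finset ℕ) (q : ℕ) (hq : q ∈ P) (n : ℕ) :
    ∑ M ∈ (powersetCard (n + 1) P).filter (fun M => q ∈ M), wt M =
      1 / (q : ℝ) * nsE n (P.erase q) := by
  have h := ns_contain P {q} (singleton_subset_iff.2 hq) (n + 1) (by simp)
  simp only [singleton_subset_iff] at h
  rw [h, card_singleton, Nat.add_sub_cancel, sdiff_singleton_eq_erase]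
  unfold nsE wt
  rw [prod_singleton]

private theorem ns_I (P : Finset ℕ) (n : ℕ) :
    ((n : ℝ) + 1) * nsE (n + 1) P = ∑ q ∈ P, 1 / (q : ℝ) * nsE n (P.erase q) := by
  have h1 : ∑ q ∈ P, 1 / (q : ℝ) * nsE n (P.erase q) =
      ∑ q ∈ P, ∑ M ∈ powersetCard (n + 1) P, if q ∈ M then wt M else 0 := by
    refine sum_congr rfl fun q hq => ?_
    rw [← ns_erase P q hq n, sum_filter]
  rw [h1, sum_comm]
  unfold nsE
  rw [mul_sum]
  refine sum_congr rfl fun M hM => ?_
  rw [mem_powersetCard] at hM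
  rw [← sum_filter, sum_const, nsmul_eq_mul]
  have h2 : P.filter (fun q => q ∈ M) = M := by
    ext q
    rw [mem_filter]
    exact ⟨fun h => h.2, fun h => ⟨hM.1 h, h⟩⟩
  rw [h2, hM.2]
  push_cast
  ring

private theorem ns_II (P : Finset ℕ) (q : ℕ) (hq : q ∈ P) (n : ℕ) :
    nsE (n + 1) P = nsE (n + 1) (P.erase q) + 1 / (q : ℝ) * nsE n (P.erase q) := by
  rw [← ns_erase P q hq n]
  have h1 : nsE (n + 1) (P.erase q) =
      ∑ M ∈ (powersetCard (n + 1) P).filter (fun M => ¬ q ∈ M), wt M := by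
    unfold nsE
    refine sum_congr ?_ fun _ _ => rfl
    ext M
    rw [mem_filter, mem_powersetCard, mem_powersetCard, subset_erase]
    tauto
  rw [h1]
  refine Eq.trans ?_ (add_comm _ _)
  exact (sum_filter_add_sum_filter_not (powersetCard (n + 1) P) (fun M => q ∈ M) wt).symm

private theorem ns_le (n : ℕ) : ∀ P : Finset ℕ,
    nsE n P ≤ (∑ q ∈ P, 1 / (q : ℝ)) ^ n / n.factorial := by
  induction n with
  | zero =>
    intro P
    rw [nsE_zero]
    simp
  | succ n ih =>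
    intro P
    have hΛ0 : 0 ≤ ∑ q ∈ P, 1 / (q : ℝ) := sum_nonneg fun _ _ => by positivity
    have h1 : ((n : ℝ) + 1) * nsE (n + 1) P ≤
        (∑ q ∈ P, 1 / (q : ℝ)) * ((∑ q ∈ P, 1 / (q : ℝ)) ^ n / n.factorial) := by
      rw [ns_I, sum_mul]
      refine sum_le_sum fun q hq => ?_
      refine mul_le_mul_of_nonneg_left ((ih (P.erase q)).trans ?_) (by positivity)
      refine div_le_div_of_nonneg_right ?_ (by positivity)
      refine pow_le_pow_left₀ (sum_nonneg fun _ _ => by positivity) ?_ n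
      exact sum_le_sum_of_subset_of_nonneg (erase_subset _ _) fun _ _ _ => by positivity
    rw [Nat.factorial_succ, Nat.cast_mul, Nat.cast_succ, pow_succ]
    have h2 : (0 : ℝ) < (n : ℝ) + 1 := by positivity
    have h3 : (0 : ℝ) < (n.factorial : ℝ) := by positivity
    rw [le_div_iff₀ (by positivity)]
    have h4 : ((n : ℝ) + 1) * nsE (n + 1) P * n.factorial ≤
        (∑ q ∈ P, 1 / (q : ℝ)) * ((∑ q ∈ P, 1 / (q : ℝ)) ^ n / n.factorial) * n.factorial :=
      mul_le_mul_of_nonneg_right h1 h3.le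
    have h5 : (∑ q ∈ P, 1 / (q : ℝ)) * ((∑ q ∈ P, 1 / (q : ℝ)) ^ n / n.factorial) * n.factorial =
        (∑ q ∈ P, 1 / (q : ℝ)) ^ n * ∑ q ∈ P, 1 / (q : ℝ) := by
      field_simp
    linarith

private theorem ns_ge (P : Finset ℕ) (u : ℝ) (hu : 0 < u) (hP : ∀ q ∈ P, u ≤ (q : ℝ)) (n : ℕ) :
    (∑ q ∈ P, 1 / (q : ℝ)) ^ n / n.factorial -
      1 / u * (∑ q ∈ P, 1 / (q : ℝ)) ^ (n - 1) * ((n : ℝ) * ((n : ℝ) - 1)) / (2 * n.factorial) ≤
      nsE n P := by
  set Λ := ∑ q ∈ P, 1 / (q : ℝ) with hΛ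
  have hΛ0 : 0 ≤ Λ := sum_nonneg fun _ _ => by positivity
  induction n with
  | zero =>
    rw [nsE_zero]
    simp
  | succ n ih =>
    rcases Nat.eq_zero_or_pos n with rfl | hn
    · have h1 := ns_I P 0
      simp only [nsE_zero, mul_one] at h1
      simp only [CharP.cast_eq_zero, zero_add, one_mul] at h1
      have h2 : nsE (0 + 1) P = Λ := h1
      rw [h2]
      simp
    · obtain ⟨k, rfl⟩ : ∃ k, n = k + 1 := ⟨n - 1, by omega⟩
      have h1 := ns_I P (k + 1)
      have h2 : Λ * nsE (k + 1) P - Λ / u * (Λ ^ k / k.factorial) ≤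
          ∑ q ∈ P, 1 / (q : ℝ) * nsE (k + 1) (P.erase q) := by
        have h3 : ∀ q ∈ P, 1 / (q : ℝ) * nsE (k + 1) P -
            1 / (q : ℝ) * (1 / u) * (Λ ^ k / k.factorial) ≤
            1 / (q : ℝ) * nsE (k + 1) (P.erase q) := by
          intro q hq
          have h4 := ns_II P q hq k
          have hq0 : 0 < (q : ℝ) := lt_of_lt_of_le hu (hP q hq)
          have h5 : 1 / (q : ℝ) * nsE k (P.erase q) ≤ 1 / u * (Λ ^ k / k.factorial) := by
            refine mul_le_mul (one_div_le_one_div_of_le hu (hP q hq)) ?_ (nsE_nonneg _ _)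
              (by positivity)
            refine (ns_le k (P.erase q)).trans ?_
            refine div_le_div_of_nonneg_right ?_ (by positivity)
            refine pow_le_pow_left₀ (sum_nonneg fun _ _ => by positivity) ?_ k
            exact sum_le_sum_of_subset_of_nonneg (erase_subset _ _) fun _ _ _ => by positivity
          have h6 : 1 / (q : ℝ) * nsE (k + 1) P =
              1 / (q : ℝ) * nsE (k + 1) (P.erase q) +
                1 / (q : ℝ) * (1 / (q : ℝ) * nsE k (P.erase q)) := by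
            rw [h4]; ring
          have h7 : 1 / (q : ℝ) * (1 / (q : ℝ) * nsE k (P.erase q)) ≤
              1 / (q : ℝ) * (1 / u * (Λ ^ k / k.factorial)) :=
            mul_le_mul_of_nonneg_left h5 (by positivity)
          rw [h6]
          linarith
        refine le_trans (le_of_eq ?_) (sum_le_sum h3)
        rw [sum_sub_distrib, ← sum_mul, ← sum_mul, ← sum_mul, ← hΛ]
        ring
      have h3 : (((k + 1 : ℕ) : ℝ) + 1) * nsE (k + 1 + 1) P ≥
          Λ * (Λ ^ (k + 1) / (k + 1).factorial -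
            1 / u * Λ ^ (k + 1 - 1) * (((k + 1 : ℕ) : ℝ) * (((k + 1 : ℕ) : ℝ) - 1)) /
              (2 * (k + 1).factorial)) - Λ / u * (Λ ^ k / k.factorial) := by
        rw [h1]
        refine le_trans ?_ h2
        have := mul_le_mul_of_nonneg_left ih hΛ0
        linarith
      rw [Nat.add_sub_cancel] at h3 ⊢
      have hk2 : (0 : ℝ) < ((k + 1 : ℕ) : ℝ) + 1 := by positivity
      refine le_of_mul_le_mul_left ?_ hk2
      refine le_trans (le_of_eq ?_) h3
      have hf1 : ((k + 1 + 1).factorial : ℝ) = ((k : ℝ) + 2) * (((k : ℝ) + 1) * k.factorial) := by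
        rw [Nat.factorial_succ, Nat.factorial_succ]
        push_cast
        ring
      have hf2 : ((k + 1).factorial : ℝ) = ((k : ℝ) + 1) * k.factorial := by
        rw [Nat.factorial_succ]
        push_cast
        ring
      rw [hf1, hf2]
      push_cast
      have hk0 : (k.factorial : ℝ) ≠ 0 := by positivity
      have hk1 : (k : ℝ) + 1 ≠ 0 := by positivity
      have hk3 : (k : ℝ) + 2 ≠ 0 := by positivity
      have hu' : u ≠ 0 := hu.ne'
      field_simp
      ring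

theorem esymm_le (P : Finset ℕ) (n : ℕ) :
    ∑ N ∈ powersetCard n P, wt N ≤ (∑ q ∈ P, 1 / (q : ℝ)) ^ n / n.factorial :=
  ns_le n P

theorem esymm_ge (P : Finset ℕ) (u : ℝ) (hu : 0 < u) (hP : ∀ q ∈ P, u ≤ (q : ℝ))
    (hΛ : 0 < ∑ q ∈ P, 1 / (q : ℝ)) (n : ℕ) :
    (∑ q ∈ P, 1 / (q : ℝ)) ^ n / n.factorial *
        (1 - (n : ℝ) ^ 2 / (2 * u * ∑ q ∈ P, 1 / (q : ℝ))) ≤
      ∑ N ∈ powersetCard n P, wt N := by
  refine le_trans ?_ (ns_ge P u hu hP n)
  rcases Nat.eq_zero_or_pos n with rfl | hn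
  · simp
  · obtain ⟨k, rfl⟩ : ∃ k, n = k + 1 := ⟨n - 1, by omega⟩
    set Λ := ∑ q ∈ P, 1 / (q : ℝ) with hΛd
    rw [Nat.add_sub_cancel]
    have h1 : Λ ^ (k + 1) / (k + 1).factorial *
        (1 - ((k + 1 : ℕ) : ℝ) ^ 2 / (2 * u * Λ)) =
        Λ ^ (k + 1) / (k + 1).factorial -
          1 / u * Λ ^ k * ((k + 1 : ℕ) : ℝ) ^ 2 / (2 * (k + 1).factorial) := by
      have hf : ((k + 1).factorial : ℝ) ≠ 0 := by positivity
      have hu' : u ≠ 0 := hu.ne'
      have hΛ' : Λ ≠ 0 := hΛ.ne'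
      field_simp
      ring
    rw [h1]
    refine sub_le_sub_left ?_ _
    refine div_le_div_of_nonneg_right ?_ (by positivity)
    refine mul_le_mul_of_nonneg_left ?_ (by positivity)
    push_cast
    nlinarith [Nat.cast_nonneg (α := ℝ) k]

theorem wt_contain (P A : Finset ℕ) (hA : A ⊆ P) (k : ℕ) (hk : A.card ≤ k) :
    ∑ M ∈ (powersetCard k P).filter (fun M => A ⊆ M), wt M =
      wt A * ∑ N ∈ powersetCard (k - A.card) (P \ A), wt N :=
  ns_contain P A hA k hk

end Pool.SG
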