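import Pool.Agent.Lib.MP_a51fee_ag.SG.ND

/-!
# SG-PJac: the primes of `PP`

`p` is an odd prime.
PROOFS.
* `PP_basic`: `l = 2`: `p = 1` in `ZMod 2`, order `1`; `l = p`: `(p : ZMod p) = 0`, `orderOf 0 = 0` and
  `4 ∣ 0`.  So `l ≠ 2`, `l ≠ p`.
* `PP_jac`: `od p l = 2 n`, `n` odd, `p^n = -1` mod `l` (its square is `1`, it is not `1`);
  `-p = p^n p = p^(n+1)`, `n + 1` even, so `-p` is a nonzero square: `jacobiSym (-p) l = 1`
  (`jacobiSym.legendreSym.to_jacobiSym`, `legendreSym.eq_one_iff`).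
* `EE_jac`: multiplicativity of `jacobiSym` in the second argument over the prime factors
  (`jacobiSym.mul_right`; induct on the factorisation of the squarefree `n`, or prove for every odd
  product).
* `PP_of_class1`: `l = 3 mod 4`, `jacobiSym (-p) l = 1`, `l ≠ p`.  `(-1/l) = -1` so `(p/l) = -1`: `p^((l-1)/2) = -1`
  mod `l`, `(l-1)/2` odd.  `od p l ∣ l - 1 = 2 * odd`, so `4 ∤ od p l`; if `od p l` were odd it would divide
  `(l-1)/2`, but `p^((l-1)/2) = -1 ≠ 1`.
* `PP_of_class2`: `l = 5 mod 8`, `p^((l-1)/4) = -1` mod `l`, `(l-1)/4` odd: `od p l ∣ (l-1)/2 = 2 * odd`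
  and `od p l ∤ (l-1)/4`.
-/

set_option autoImplicit false

namespace Pool.SG

theorem PP_basic {p l : ℕ} (hp : p.Prime) (hp2 : p ≠ 2) (h : PP p l) : l ≠ 2 ∧ l ≠ p := by
  obtain ⟨hl, h2, h4⟩ := h
  constructor
  · rintro rfl
    have h1 : (p : ZMod 2) = 1 := by
      have hodd : p % 2 = 1 := hp.eq_two_or_odd.resolve_left hp2
      have : ((p % 2 : ℕ) : ZMod 2) = (p : ZMod 2) := ZMod.natCast_mod p 2
      rw [← this, hodd, Nat.cast_one]
    unfold od at h2
    rw [h1, orderOf_one] at h2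
    omega
  · rintro rfl
    have : Fact l.Prime := ⟨hl⟩
    apply h4
    unfold od
    have h0 : orderOf (l : ZMod l) = 0 := by
      rw [ZMod.natCast_self, orderOf_eq_zero_iff']
      intro n hn hz
      rw [zero_pow hn.ne'] at hz
      exact zero_ne_one hz
    rw [h0]
    exact dvd_zero 4

private theorem cast_ne {p l : ℕ} (hp : p.Prime) (hl : l.Prime) (hlp : l ≠ p) :
    (p : ZMod l) ≠ 0 := by
  intro h
  rw [ZMod.natCast_eq_zero_iff] at h
  exact hlp ((Nat.prime_dvd_prime_iff_eq hl hp).1 h)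

private theorem neg_cast_ne {p l : ℕ} (hp : p.Prime) (hl : l.Prime) (hlp : l ≠ p) :
    ((-(p : ℤ) : ℤ) : ZMod l) ≠ 0 := by
  push_cast
  exact neg_ne_zero.2 (cast_ne hp hl hlp)

theorem PP_jac {p l : ℕ} (hp : p.Prime) (hp2 : p ≠ 2) (h : PP p l) :
    jacobiSym (-(p : ℤ)) l = 1 := by
  obtain ⟨hl2, hlp⟩ := PP_basic hp hp2 h
  obtain ⟨hl, h2, h4⟩ := h
  have : Fact l.Prime := ⟨hl⟩
  rw [← jacobiSym.legendreSym.to_jacobiSym, legendreSym.eq_one_iff l (neg_cast_ne hp hl hlp)]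
  obtain ⟨n, hn⟩ := h2
  have hnpos : 0 < n := by
    rcases Nat.eq_zero_or_pos n with h0 | h0
    · exfalso
      apply h4
      rw [hn, h0]
      exact ⟨0, rfl⟩
    · exact h0
  have hnodd : n % 2 = 1 := by
    rcases Nat.mod_two_eq_zero_or_one n with h0 | h0
    · exfalso
      apply h4
      rw [hn]
      obtain ⟨m, hm⟩ := Nat.dvd_of_mod_eq_zero h0
      exact ⟨m, by rw [hm]; ring⟩
    · exact h0
  unfold od at hn
  have hx1 : (p : ZMod l) ^ (2 * n) = 1 := by rw [← hn]; exact pow_orderOf_eq_one _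
  have hxn : (p : ZMod l) ^ n ≠ 1 := by
    intro h1
    have h3 := orderOf_dvd_of_pow_eq_one h1
    rw [hn] at h3
    have := Nat.le_of_dvd hnpos h3
    omega
  have hxn' : (p : ZMod l) ^ n = -1 := by
    have h1 : ((p : ZMod l) ^ n) ^ 2 = 1 := by rw [← pow_mul, mul_comm]; exact hx1
    have h2' : ((p : ZMod l) ^ n - 1) * ((p : ZMod l) ^ n + 1) = 0 := by
      linear_combination h1
    rcases mul_eq_zero.1 h2' with h3 | h3
    · exact absurd (sub_eq_zero.1 h3) hxn
    · exact eq_neg_of_add_eq_zero_left h3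
  refine ⟨(p : ZMod l) ^ ((n + 1) / 2), ?_⟩
  rw [← pow_add]
  have h5 : (n + 1) / 2 + (n + 1) / 2 = n + 1 := by omega
  rw [h5, pow_succ, hxn']
  push_cast
  ring

theorem sqf_jac {p : ℕ} (hp : p.Prime) (hp2 : p ≠ 2) {n : ℕ} (hn : Squarefree n)
    (h : ∀ l, l.Prime → l ∣ n → PP p l) : jacobiSym (-(p : ℤ)) n = 1 := by
  induction n using induction_on_primes with
  | zero => exact absurd hn not_squarefree_zero
  | one => exact jacobiSym.one_right _
  | prime_mul q a hq ih =>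
    have ha : a ≠ 0 := by
      rintro rfl
      rw [mul_zero] at hn
      exact not_squarefree_zero hn
    rw [jacobiSym.mul_right' _ hq.ne_zero ha, PP_jac hp hp2 (h q hq (dvd_mul_right q a)),
      ih (hn.squarefree_of_dvd (dvd_mul_left a q)) (fun l hl hla => h l hl (hla.mul_left q)), one_mul]

theorem PP_of_class1 {p l : ℕ} (hp : p.Prime) (hp2 : p ≠ 2) (hl : l.Prime) (h4 : l % 4 = 3)
    (hlp : l ≠ p) (h : jacobiSym (-(p : ℤ)) l = 1) : PP p l := by
  have : Fact l.Prime := ⟨hl⟩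
  have hl2 : l ≠ 2 := by rintro rfl; omega
  rw [← jacobiSym.legendreSym.to_jacobiSym] at h
  have h1 : legendreSym l (-1) = -1 := by
    rw [legendreSym.at_neg_one hl2, ZMod.χ₄_nat_three_mod_four h4]
  have h2 : legendreSym l (p : ℤ) = -1 := by
    have h3 : -(p : ℤ) = -1 * (p : ℤ) := by ring
    rw [h3, legendreSym.mul, h1] at h
    linarith
  have h5 : (p : ZMod l) ^ (l / 2) = -1 := by
    have h6 := legendreSym.eq_pow l (p : ℤ)
    rw [h2] at h6
    push_cast at h6
    exact h6.symm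
  have hx0 := cast_ne hp hl hlp
  have hdvd : od p l ∣ l - 1 := ZMod.orderOf_dvd_card_sub_one hx0
  have hl1 : l - 1 = 2 * (l / 2) := by omega
  have hodd : (l / 2) % 2 = 1 := by omega
  have hne : (1 : ZMod l) ≠ -1 := by
    intro h6
    have h7 : ((2 : ℕ) : ZMod l) = 0 := by
      push_cast
      linear_combination h6
    rw [ZMod.natCast_eq_zero_iff] at h7
    exact hl2 ((Nat.prime_dvd_prime_iff_eq hl Nat.prime_two).1 h7)
  refine ⟨hl, ?_, ?_⟩
  · by_contra hcon
    have hcop : Nat.Coprime (od p l) 2 := by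
      rw [Nat.coprime_comm, Nat.coprime_two_left, Nat.odd_iff]
      omega
    rw [hl1] at hdvd
    have h6 := hcop.dvd_of_dvd_mul_left hdvd
    have h7 : (p : ZMod l) ^ (l / 2) = 1 := orderOf_dvd_iff_pow_eq_one.1 h6
    rw [h5] at h7
    exact hne h7.symm
  · intro h6
    have h7 := h6.trans hdvd
    omega

theorem PP_of_class2 {p l : ℕ} (hp : p.Prime) (hp2 : p ≠ 2) (hl : l.Prime) (h8 : l % 8 = 5)
    (h : (p : ZMod l) ^ ((l - 1) / 4) = -1) : PP p l := by
  have : Fact l.Prime := ⟨hl⟩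
  have hl2 : l ≠ 2 := by rintro rfl; omega
  have hne : (1 : ZMod l) ≠ -1 := by
    intro h6
    have h7 : ((2 : ℕ) : ZMod l) = 0 := by
      push_cast
      linear_combination h6
    rw [ZMod.natCast_eq_zero_iff] at h7
    exact hl2 ((Nat.prime_dvd_prime_iff_eq hl Nat.prime_two).1 h7)
  have hdvd : od p l ∣ 2 * ((l - 1) / 4) := by
    apply orderOf_dvd_of_pow_eq_one
    rw [mul_comm, pow_mul, h]
    ring
  have hodd : ((l - 1) / 4) % 2 = 1 := by omega
  refine ⟨hl, ?_, ?_⟩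
  · by_contra hcon
    have hcop : Nat.Coprime (od p l) 2 := by
      rw [Nat.coprime_comm, Nat.coprime_two_left, Nat.odd_iff]
      omega
    have h6 := hcop.dvd_of_dvd_mul_left hdvd
    have h7 : (p : ZMod l) ^ ((l - 1) / 4) = 1 := orderOf_dvd_iff_pow_eq_one.1 h6
    rw [h] at h7
    exact hne h7.symm
  · intro h6
    have h7 := h6.trans hdvd
    omega

end Pool.SG
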