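import Mathlib

/-!
# SG-QAbel: Abel summation

PROOFS.  `F(y) = ∑_{n ≤ y} f n`, `|F(y)| ≤ C √y`.
* `∑_{y < n ≤ z} f(n)/n = F(z)/z - F(y)/(y+1) + ∑_{y<n<z} F(n) (1/n - 1/(n+1))`, bounded by
  `C (1/√z + 1/√y + ∑_{n > y} √n/(n (n+1))) ≤ C' /√y`.  So the partial sums are Cauchy; limit `L0`.
* `∑ f(n) log n/n`: the same with the weight `log n / n`, whose differences are `O(log n / n^2)`;
  `∑ √n log n/n^2 < ∞`.
-/

set_option autoImplicit false

open Finset

namespace Pool.SG

theorem qabel_sum (f : ℕ → ℂ) (w : ℕ → ℝ) (y : ℕ) :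
    ∑ n ∈ Icc 1 y, f n * (w n : ℂ) = (∑ n ∈ Icc 1 y, f n) * (w (y + 1) : ℂ) +
      ∑ n ∈ Icc 1 y, (∑ k ∈ Icc 1 n, f k) * ((w n - w (n + 1) : ℝ) : ℂ) := by
  induction y with
  | zero => simp
  | succ y ih =>
    rw [Finset.sum_Icc_succ_top (by omega), ih, Finset.sum_Icc_succ_top (by omega),
      Finset.sum_Icc_succ_top (by omega), Finset.sum_Icc_succ_top (by omega)]
    push_cast
    ring

theorem qabel_tele (n : ℕ) (hn : 1 ≤ n) :
    Real.sqrt n * (1 / (n : ℝ) - 1 / ((n : ℝ) + 1)) ≤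
      2 * (1 / Real.sqrt n - 1 / Real.sqrt ((n : ℝ) + 1)) := by
  have hn' : (1 : ℝ) ≤ n := by exact_mod_cast hn
  set a := Real.sqrt n with ha
  set b := Real.sqrt ((n : ℝ) + 1) with hb
  have ha0 : 0 < a := Real.sqrt_pos.mpr (by linarith)
  have hb0 : 0 < b := Real.sqrt_pos.mpr (by linarith)
  have ha2 : a ^ 2 = n := Real.sq_sqrt (by linarith)
  have hb2 : b ^ 2 = (n : ℝ) + 1 := Real.sq_sqrt (by linarith)
  have hab : a ≤ b := Real.sqrt_le_sqrt (by linarith)
  rw [← hb2, ← ha2]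
  have h1 : (b - a) * (b + a) = 1 := by nlinarith
  have h2 : a * (1 / a ^ 2 - 1 / b ^ 2) = (b - a) * (b + a) / (a * b ^ 2) := by
    field_simp
    ring
  have h3 : 2 * (1 / a - 1 / b) = (b - a) * (2 * b) / (a * b ^ 2) := by
    field_simp
  rw [h2, h3]
  apply div_le_div_of_nonneg_right _ (by positivity)
  apply mul_le_mul_of_nonneg_left (by linarith) (by linarith)

theorem abel_half (f : ℕ → ℂ) (C : ℝ) (hf : ∀ x : ℕ, ‖∑ n ∈ Icc 1 x, f n‖ ≤ C * Real.sqrt x) :
    ∃ (L0 : ℂ) (C' : ℝ), 0 < C' ∧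
      (∀ y : ℕ, 1 ≤ y → ‖∑ n ∈ Icc 1 y, f n / n - L0‖ ≤ C' / Real.sqrt y) ∧
      (∀ y : ℕ, ‖∑ n ∈ Icc 1 y, f n * Real.log n / n‖ ≤ C') := by
  have hC : 0 ≤ C := by
    have := hf 1
    have h2 := (norm_nonneg _).trans this
    simpa using h2
  set F : ℕ → ℂ := fun x => ∑ n ∈ Icc 1 x, f n with hF
  -- first part
  set w : ℕ → ℝ := fun n => 1 / (n : ℝ) with hw
  set g : ℕ → ℂ := fun n => F n * ((w n - w (n + 1) : ℝ) : ℂ) with hg
  set T : ℕ → ℂ := fun y => ∑ n ∈ Icc 1 y, g n with hT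
  have hgb : ∀ n : ℕ, 1 ≤ n → ‖g n‖ ≤
      2 * C * (1 / Real.sqrt n - 1 / Real.sqrt ((n : ℝ) + 1)) := by
    intro n hn
    have hn' : (1 : ℝ) ≤ n := by exact_mod_cast hn
    have h0 : (0 : ℝ) ≤ 1 / (n : ℝ) - 1 / ((n : ℝ) + 1) := by
      rw [sub_nonneg]
      apply one_div_le_one_div_of_le (by linarith) (by linarith)
    have h1 : ‖g n‖ = ‖F n‖ * (1 / (n : ℝ) - 1 / ((n : ℝ) + 1)) := by
      rw [hg]
      simp only []
      rw [norm_mul, Complex.norm_real, Real.norm_eq_abs, abs_of_nonneg]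
      · simp [hw]
      · simpa [hw] using h0
    rw [h1]
    calc ‖F n‖ * (1 / (n : ℝ) - 1 / ((n : ℝ) + 1))
        ≤ (C * Real.sqrt n) * (1 / (n : ℝ) - 1 / ((n : ℝ) + 1)) :=
          mul_le_mul_of_nonneg_right (hf n) h0
      _ = C * (Real.sqrt n * (1 / (n : ℝ) - 1 / ((n : ℝ) + 1))) := by ring
      _ ≤ C * (2 * (1 / Real.sqrt n - 1 / Real.sqrt ((n : ℝ) + 1))) :=
          mul_le_mul_of_nonneg_left (qabel_tele n hn) hC
      _ = _ := by ring
  have hTd : ∀ y z : ℕ, y ≤ z → ‖T z - T y‖ ≤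
      2 * C * (1 / Real.sqrt ((y : ℝ) + 1) - 1 / Real.sqrt ((z : ℝ) + 1)) := by
    intro y z hyz
    induction z, hyz using Nat.le_induction with
    | base => simp
    | succ z hz ih =>
      have h1 : T (z + 1) - T y = (T z - T y) + g (z + 1) := by
        rw [hT]
        simp only []
        rw [Finset.sum_Icc_succ_top (by omega)]
        ring
      rw [h1]
      have h2 := hgb (z + 1) (by omega)
      push_cast at h2 ⊢
      calc ‖(T z - T y) + g (z + 1)‖ ≤ ‖T z - T y‖ + ‖g (z + 1)‖ := norm_add_le _ _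
        _ ≤ _ := by
          have := add_le_add ih h2
          refine this.trans (le_of_eq ?_)
          ring
  have hlim0 : Filter.Tendsto (fun y : ℕ => 2 * C * (1 / Real.sqrt ((y : ℝ) + 1)))
      Filter.atTop (nhds 0) := by
    have h1 : Filter.Tendsto (fun y : ℕ => Real.sqrt ((y : ℝ) + 1)) Filter.atTop Filter.atTop := by
      apply Real.tendsto_sqrt_atTop.comp
      exact Filter.tendsto_atTop_add_const_right _ _ tendsto_natCast_atTop_atTop
    have h2 := (h1.inv_tendsto_atTop).const_mul (2 * C)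
    simpa [one_div] using h2
  have hcau : CauchySeq T := by
    apply cauchySeq_of_le_tendsto_0 (fun y : ℕ => 2 * (2 * C * (1 / Real.sqrt ((y : ℝ) + 1))))
    · intro n m N hn hm
      have h1 := hTd N n hn
      have h2 := hTd N m hm
      have p1 : 0 ≤ 2 * C * (1 / Real.sqrt ((n : ℝ) + 1)) := by positivity
      have p2 : 0 ≤ 2 * C * (1 / Real.sqrt ((m : ℝ) + 1)) := by positivity
      rw [dist_eq_norm]
      have h3 : T n - T m = (T n - T N) - (T m - T N) := by ring
      rw [h3]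
      calc ‖(T n - T N) - (T m - T N)‖ ≤ ‖T n - T N‖ + ‖T m - T N‖ := norm_sub_le _ _
        _ ≤ _ := by
          rw [mul_sub] at h1 h2
          linarith
    · simpa using hlim0.const_mul 2
  obtain ⟨L0, hL0⟩ := cauchySeq_tendsto_of_complete hcau
  have hTL : ∀ y : ℕ, ‖T y - L0‖ ≤ 2 * C * (1 / Real.sqrt ((y : ℝ) + 1)) := by
    intro y
    have h1 : Filter.Tendsto (fun z => ‖T z - T y‖) Filter.atTop (nhds ‖L0 - T y‖) :=
      (hL0.sub_const (T y)).norm
    have h2 : ‖L0 - T y‖ ≤ 2 * C * (1 / Real.sqrt ((y : ℝ) + 1)) := by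
      apply le_of_tendsto h1
      filter_upwards [Filter.eventually_ge_atTop y] with z hz
      have h3 := hTd y z hz
      have p1 : 0 ≤ 2 * C * (1 / Real.sqrt ((z : ℝ) + 1)) := by positivity
      rw [mul_sub] at h3
      linarith
    rwa [norm_sub_rev] at h2
  -- second part
  set v : ℕ → ℝ := fun n => Real.log n / (n : ℝ) with hv
  have hsum : Summable fun n : ℕ => (n : ℝ) ^ (-(5 / 4) : ℝ) := by
    rw [Real.summable_nat_rpow]
    norm_num
  have hvb : ∀ n : ℕ, 1 ≤ n → |v n - v (n + 1)| * Real.sqrt n ≤ 5 * (n : ℝ) ^ (-(5 / 4) : ℝ) := by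
    intro n hn
    have hn' : (1 : ℝ) ≤ n := by exact_mod_cast hn
    have hn0 : (0 : ℝ) < n := by linarith
    have hlog0 : 0 ≤ Real.log n := Real.log_nonneg hn'
    have hd : Real.log ((n : ℝ) + 1) - Real.log n ≤ 1 / n := by
      rw [← Real.log_div (by linarith) (by linarith)]
      have := Real.log_le_sub_one_of_pos (show 0 < ((n : ℝ) + 1) / n by positivity)
      have h2 : ((n : ℝ) + 1) / n - 1 = 1 / n := by field_simp; ring
      linarith
    have hd0 : 0 ≤ Real.log ((n : ℝ) + 1) - Real.log n := by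
      rw [sub_nonneg]
      exact Real.log_le_log hn0 (by linarith)
    have hexp : v n - v (n + 1) = (Real.log n - n * (Real.log ((n : ℝ) + 1) - Real.log n)) /
        (n * (n + 1)) := by
      rw [hv]
      push_cast
      field_simp
      ring
    have h1 : n * (Real.log ((n : ℝ) + 1) - Real.log n) ≤ 1 := by
      calc n * (Real.log ((n : ℝ) + 1) - Real.log n) ≤ n * (1 / n) :=
            mul_le_mul_of_nonneg_left hd hn0.le
        _ = 1 := by field_simp
    have h1' : 0 ≤ n * (Real.log ((n : ℝ) + 1) - Real.log n) := mul_nonneg hn0.le hd0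
    have h2 : Real.log n ≤ (n : ℝ) ^ (1 / 4 : ℝ) / (1 / 4) :=
      Real.log_le_rpow_div hn0.le (by norm_num)
    have h3 : (1 : ℝ) ≤ (n : ℝ) ^ (1 / 4 : ℝ) := Real.one_le_rpow hn' (by norm_num)
    have h4 : |Real.log n - n * (Real.log ((n : ℝ) + 1) - Real.log n)| ≤
        5 * (n : ℝ) ^ (1 / 4 : ℝ) := by
      rw [abs_le]
      constructor <;> linarith
    rw [hexp, abs_div, abs_of_pos (show (0 : ℝ) < n * (n + 1) by positivity)]
    calc |Real.log n - n * (Real.log ((n : ℝ) + 1) - Real.log n)| / (n * (n + 1)) * Real.sqrt n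
        ≤ 5 * (n : ℝ) ^ (1 / 4 : ℝ) / (n * n) * Real.sqrt n := by
          apply mul_le_mul_of_nonneg_right _ (Real.sqrt_nonneg _)
          apply div_le_div₀ (by positivity) h4 (by positivity)
          apply mul_le_mul_of_nonneg_left (by linarith) hn0.le
      _ = 5 * (n : ℝ) ^ (-(5 / 4) : ℝ) := by
          have e1 : (n : ℝ) * n = (n : ℝ) ^ (2 : ℝ) := by
            rw [Real.rpow_two]; ring
          rw [e1, Real.sqrt_eq_rpow, mul_div_assoc, ← Real.rpow_sub hn0, mul_assoc,
            ← Real.rpow_add hn0]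
          norm_num
  set K : ℝ := ∑' n : ℕ, (n : ℝ) ^ (-(5 / 4) : ℝ) with hK
  have hK0 : 0 ≤ K := tsum_nonneg fun n => Real.rpow_nonneg (Nat.cast_nonneg n) _
  refine ⟨L0, 3 * C + 2 * C + 5 * C * K + 1, by positivity, ?_, ?_⟩
  · intro y hy
    have hy' : (1 : ℝ) ≤ y := by exact_mod_cast hy
    have h1 : ∑ n ∈ Icc 1 y, f n / n = F y * (w (y + 1) : ℂ) + T y := by
      rw [hT]
      simp only [hg]
      rw [← qabel_sum f w y]
      apply Finset.sum_congr rfl
      intro n _
      rw [hw]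
      push_cast
      ring
    rw [h1]
    have hsq : 0 < Real.sqrt y := Real.sqrt_pos.mpr (by linarith)
    have h2 : ‖F y * (w (y + 1) : ℂ)‖ ≤ C / Real.sqrt y := by
      rw [norm_mul, Complex.norm_real, Real.norm_eq_abs, abs_of_nonneg (by simp only [hw]; positivity)]
      calc ‖F y‖ * w (y + 1) ≤ (C * Real.sqrt y) * w (y + 1) :=
            mul_le_mul_of_nonneg_right (hf y) (by simp only [hw]; positivity)
        _ ≤ (C * Real.sqrt y) * (1 / y) := by
            apply mul_le_mul_of_nonneg_left _ (by positivity)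
            simp only [hw]
            push_cast
            apply one_div_le_one_div_of_le (by linarith) (by linarith)
        _ = C / Real.sqrt y := by
            have : (y : ℝ) = Real.sqrt y * Real.sqrt y := (Real.mul_self_sqrt (by linarith)).symm
            conv_lhs => rw [this]
            rw [Real.sqrt_mul_self hsq.le]
            field_simp
    have h3 : 2 * C * (1 / Real.sqrt ((y : ℝ) + 1)) ≤ 2 * C / Real.sqrt y := by
      rw [mul_one_div]
      apply div_le_div_of_nonneg_left (by positivity) hsq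
      exact Real.sqrt_le_sqrt (by linarith)
    calc ‖F y * (w (y + 1) : ℂ) + T y - L0‖ = ‖F y * (w (y + 1) : ℂ) + (T y - L0)‖ := by
          rw [add_sub_assoc]
      _ ≤ ‖F y * (w (y + 1) : ℂ)‖ + ‖T y - L0‖ := norm_add_le _ _
      _ ≤ C / Real.sqrt y + 2 * C / Real.sqrt y := add_le_add h2 ((hTL y).trans h3)
      _ = 3 * C / Real.sqrt y := by ring
      _ ≤ _ := by
          apply div_le_div_of_nonneg_right _ hsq.le
          nlinarith [mul_nonneg hC hK0]
  · intro y
    have h1 : ∑ n ∈ Icc 1 y, f n * Real.log n / n = F y * (v (y + 1) : ℂ) +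
        ∑ n ∈ Icc 1 y, F n * ((v n - v (n + 1) : ℝ) : ℂ) := by
      rw [← qabel_sum f v y]
      apply Finset.sum_congr rfl
      intro n _
      rw [hv]
      push_cast
      ring
    rw [h1]
    have h2 : ‖F y * (v (y + 1) : ℂ)‖ ≤ 2 * C := by
      have hy0 : (0 : ℝ) ≤ y := Nat.cast_nonneg y
      have hl0 : 0 ≤ Real.log ((y : ℝ) + 1) := Real.log_nonneg (by linarith)
      have hv0 : 0 ≤ v (y + 1) := by
        simp only [hv]
        push_cast
        positivity
      rw [norm_mul, Complex.norm_real, Real.norm_eq_abs, abs_of_nonneg hv0]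
      have hl : Real.log ((y : ℝ) + 1) ≤ 2 * Real.sqrt ((y : ℝ) + 1) := by
        have := Real.log_le_rpow_div (show (0 : ℝ) ≤ (y : ℝ) + 1 by linarith)
          (show (0 : ℝ) < 1 / 2 by norm_num)
        rw [← Real.sqrt_eq_rpow] at this
        linarith
      calc ‖F y‖ * v (y + 1) ≤ (C * Real.sqrt y) * v (y + 1) :=
            mul_le_mul_of_nonneg_right (hf y) hv0
        _ ≤ (C * Real.sqrt ((y : ℝ) + 1)) * (2 * Real.sqrt ((y : ℝ) + 1) / ((y : ℝ) + 1)) := by
            apply mul_le_mul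
            · apply mul_le_mul_of_nonneg_left _ hC
              exact Real.sqrt_le_sqrt (by linarith)
            · simp only [hv]
              push_cast
              apply div_le_div_of_nonneg_right hl (by linarith)
            · exact hv0
            · positivity
        _ = 2 * C * ((Real.sqrt ((y : ℝ) + 1) * Real.sqrt ((y : ℝ) + 1)) / ((y : ℝ) + 1)) := by
            ring
        _ = 2 * C := by
            rw [Real.mul_self_sqrt (by linarith), div_self (by linarith), mul_one]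
    have h3 : ‖∑ n ∈ Icc 1 y, F n * ((v n - v (n + 1) : ℝ) : ℂ)‖ ≤ 5 * C * K := by
      calc ‖∑ n ∈ Icc 1 y, F n * ((v n - v (n + 1) : ℝ) : ℂ)‖
          ≤ ∑ n ∈ Icc 1 y, ‖F n * ((v n - v (n + 1) : ℝ) : ℂ)‖ := norm_sum_le _ _
        _ ≤ ∑ n ∈ Icc 1 y, 5 * C * (n : ℝ) ^ (-(5 / 4) : ℝ) := by
            apply Finset.sum_le_sum
            intro n hn
            rw [Finset.mem_Icc] at hn
            rw [norm_mul, Complex.norm_real, Real.norm_eq_abs]
            calc ‖F n‖ * |v n - v (n + 1)| ≤ (C * Real.sqrt n) * |v n - v (n + 1)| :=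
                  mul_le_mul_of_nonneg_right (hf n) (abs_nonneg _)
              _ = C * (|v n - v (n + 1)| * Real.sqrt n) := by ring
              _ ≤ C * (5 * (n : ℝ) ^ (-(5 / 4) : ℝ)) :=
                  mul_le_mul_of_nonneg_left (hvb n hn.1) hC
              _ = _ := by ring
        _ = 5 * C * ∑ n ∈ Icc 1 y, (n : ℝ) ^ (-(5 / 4) : ℝ) := by rw [Finset.mul_sum]
        _ ≤ 5 * C * K := by
            apply mul_le_mul_of_nonneg_left _ (by positivity)
            exact hsum.sum_le_tsum _ (fun n _ => Real.rpow_nonneg (Nat.cast_nonneg n) _)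
    calc _ ≤ ‖F y * (v (y + 1) : ℂ)‖ + ‖∑ n ∈ Icc 1 y, F n * ((v n - v (n + 1) : ℝ) : ℂ)‖ :=
          norm_add_le _ _
      _ ≤ 2 * C + 5 * C * K := add_le_add h2 h3
      _ ≤ _ := by linarith

end Pool.SG
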