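import Pool.Agent.Lib.MP_a51fee_ag.SG.QD

/-!
# SG-QCh: the characters `psi η ^ j` are characters in the sense of `GC`, modulus `4 p`

PROOF.  `j = 0` or `j = 1` (any `j`).  `η(a + b i) = 1` if `4 ∣ b`, `-1` if `b ≡ 2 mod 4`:
for `a, c` odd, `b, d` even: `ad + bc ≡ b + d mod 4` up to sign (`ad ≡ d`, `bc ≡ b mod 4` since `b, d` even, `a, c`
odd), so `η` is multiplicative; `η(-b) = η(b)`.  `psi_mul`, `psi_per`, `psi_neg`, `psi_conj`,
`psi_one`, `psi_norm`.  Odd `a`, even `b` are preserved by the product: `ac - bd` odd, `ad + bc` even.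
`mean`: choose `a0 ≡ a1 mod p`, `b0 ≡ b1 mod p` with `psi a1 b1 = I` (`psi_I`), `a0 ≡ 1 mod 4`, `b0 ≡ 0 mod 4`
(CRT, `p` odd): `χ(a0, b0) = I ≠ 1`.  Multiplication by `a0 + b0 i` permutes the residue classes mod `4p` of
pairs `(a, b)`, `a` odd, `b` even, `p ∤ a^2 + b^2` (injective: the norm `a0^2 + b0^2` is prime to `4p`), so
the sum `s` over a period satisfies `I s = s`.  (It is convenient to write the sum over
`ZMod (4p) × ZMod (4p)`, or over `range × range`, and to use that the summand is periodic.)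
-/

set_option autoImplicit false

open Finset

namespace Pool.SG

private theorem qch_par {a b c d : ℤ} (ha : Odd a) (hb : Even b) (hc : Odd c) (hd : Even d) :
    Odd (a * c - b * d) ∧ Even (a * d + b * c) := by
  refine ⟨?_, ?_⟩
  · exact (ha.mul hc).sub_even (hb.mul_right d)
  · exact (hd.mul_left a).add (hb.mul_right c)

private theorem qch_mod {a b c d : ℤ} (ha : Odd a) (hb : Even b) (hc : Odd c) (hd : Even d) :
    (a * d + b * c) % 4 = (b + d) % 4 := by
  obtain ⟨a', rfl⟩ := ha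
  obtain ⟨c', rfl⟩ := hc
  obtain ⟨b', rfl⟩ := hb
  obtain ⟨d', rfl⟩ := hd
  have h : (2 * a' + 1) * (d' + d') + (b' + b') * (2 * c' + 1) =
      (b' + b' + (d' + d')) + 4 * (a' * d' + b' * c') := by ring
  rw [h]
  exact Int.add_mul_emod_self_left _ _ _

private theorem qch_sum (M : ℕ) [NeZero M] (g : ℕ → ℂ) :
    ∑ a ∈ range M, g a = ∑ x : ZMod M, g x.val := by
  refine Finset.sum_nbij' (fun a : ℕ => (a : ZMod M)) (fun x => x.val) ?_ ?_ ?_ ?_ ?_
  · intro a _
    exact mem_univ _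
  · intro x _
    exact mem_range.mpr (ZMod.val_lt x)
  · intro a ha
    exact ZMod.val_cast_of_lt (mem_range.mp ha)
  · intro x _
    exact ZMod.natCast_zmod_val x
  · intro a ha
    rw [ZMod.val_cast_of_lt (mem_range.mp ha)]

theorem gc_chj (p : ℕ) [Fact p.Prime] (hp2 : p ≠ 2) (j : ℕ) : GC (chj p j) (4 * p) := by
  have hp : p.Prime := Fact.out
  have hpodd : p % 2 = 1 := (hp.eq_two_or_odd).resolve_left hp2
  have hjj : ((-1 : ℂ) ^ j) * ((-1 : ℂ) ^ j) = 1 := by
    rw [← mul_pow]; simp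
  have hmul : ∀ a b c d, Odd a → Even b → Odd c → Even d →
      chj p j (a * c - b * d) (a * d + b * c) = chj p j a b * chj p j c d := by
    intro a b c d ha hb hc hd
    have e0 : ∀ a b : ℤ, Odd a → Even b →
        chj p j a b = psi p a b * (if b % 4 = 0 then 1 else (-1) ^ j) :=
      fun a b ha hb => if_pos ⟨ha, hb⟩
    rw [e0 _ _ (qch_par ha hb hc hd).1 (qch_par ha hb hc hd).2, e0 a b ha hb, e0 c d hc hd,
      psi_mul p hp2, qch_mod ha hb hc hd]
    have hb4 : b % 4 = 0 ∨ b % 4 = 2 := by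
      obtain ⟨k, rfl⟩ := hb; omega
    have hd4 : d % 4 = 0 ∨ d % 4 = 2 := by
      obtain ⟨k, rfl⟩ := hd; omega
    rcases hb4 with h1 | h1 <;> rcases hd4 with h2 | h2
    · rw [if_pos h1, if_pos h2, if_pos (by omega)]; ring
    · rw [if_pos h1, if_neg (by omega : ¬ d % 4 = 0), if_neg (by omega)]; ring
    · rw [if_neg (by omega : ¬ b % 4 = 0), if_pos h2, if_neg (by omega)]; ring
    · rw [if_neg (by omega : ¬ b % 4 = 0), if_neg (by omega : ¬ d % 4 = 0), if_pos (by omega)]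
      linear_combination (-(psi p a b * psi p c d)) * hjj
  have hper : ∀ a b s t, chj p j (a + ((4 * p : ℕ) : ℤ) * s) (b + ((4 * p : ℕ) : ℤ) * t) =
      chj p j a b := by
    intro a b s t
    have e1 : a + ((4 * p : ℕ) : ℤ) * s = a + (p : ℤ) * (4 * s) := by push_cast; ring
    have e2 : b + ((4 * p : ℕ) : ℤ) * t = b + (p : ℤ) * (4 * t) := by push_cast; ring
    have f1 : a + ((4 * p : ℕ) : ℤ) * s = a + 4 * ((p : ℤ) * s) := by push_cast; ring
    have f2 : b + ((4 * p : ℕ) : ℤ) * t = b + 4 * ((p : ℤ) * t) := by push_cast; ring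
    have g1 : Odd (a + ((4 * p : ℕ) : ℤ) * s) ↔ Odd a := by
      rw [f1, Int.odd_iff, Int.odd_iff]; omega
    have g2 : Even (b + ((4 * p : ℕ) : ℤ) * t) ↔ Even b := by
      rw [f2, Int.even_iff, Int.even_iff]; omega
    have g3 : (b + ((4 * p : ℕ) : ℤ) * t) % 4 = b % 4 := by
      rw [f2]; omega
    have g4 : psi p (a + ((4 * p : ℕ) : ℤ) * s) (b + ((4 * p : ℕ) : ℤ) * t) = psi p a b := by
      rw [e1, e2]; exact psi_per p a b _ _
    unfold chj
    rw [g3, g4]
    by_cases h : Odd a ∧ Even b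
    · rw [if_pos h, if_pos ⟨g1.mpr h.1, g2.mpr h.2⟩]
    · rw [if_neg h, if_neg (fun h' => h ⟨g1.mp h'.1, g2.mp h'.2⟩)]
  refine { supp := ?_, mul := hmul, neg := ?_, conj := ?_, val := ?_, one := ?_, pos := ?_,
           per := hper, mean := ?_ }
  · intro a b h
    exact if_neg h
  · intro a b
    unfold chj
    have h4 : (-b) % 4 = 0 ↔ b % 4 = 0 := by omega
    simp only [odd_neg, even_neg, psi_neg, h4]
  · intro a b
    unfold chj
    have h4 : (-b) % 4 = 0 ↔ b % 4 = 0 := by omega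
    by_cases h : Odd a ∧ Even b
    · have h' : Odd a ∧ Even (-b) := ⟨h.1, even_neg.mpr h.2⟩
      rw [if_pos h', if_pos h, psi_conj p hp2, map_mul]
      by_cases hb : b % 4 = 0
      · rw [if_pos (h4.mpr hb), if_pos hb]; simp
      · rw [if_neg (fun hh => hb (h4.mp hh)), if_neg hb]; simp
    · have h' : ¬ (Odd a ∧ Even (-b)) := fun hh => h ⟨hh.1, even_neg.mp hh.2⟩
      rw [if_neg h', if_neg h]; simp
  · intro a b
    unfold chj
    by_cases h : Odd a ∧ Even b
    · rw [if_pos h]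
      rcases psi_norm p hp2 a b with ⟨h0, -⟩ | ⟨h4, -⟩
      · left; rw [h0, zero_mul]
      · right
        rw [mul_pow, h4, one_mul]
        by_cases hb : b % 4 = 0
        · rw [if_pos hb]; simp
        · rw [if_neg hb, ← pow_mul, mul_comm, pow_mul]; norm_num
    · left; exact if_neg h
  · unfold chj
    rw [if_pos ⟨odd_one, Even.zero⟩, psi_one]
    simp
  · exact Nat.mul_pos (by norm_num) hp.pos
  · haveI : NeZero (4 * p) := ⟨(Nat.mul_pos (by norm_num) hp.pos).ne'⟩
    obtain ⟨a1, b1, h1⟩ := psi_I p hp2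
    obtain ⟨a0, ha0⟩ : ∃ a0 : ℤ, a0 = a1 + (p : ℤ) * ((p : ℤ) * (1 - a1)) := ⟨_, rfl⟩
    obtain ⟨b0, hb0⟩ : ∃ b0 : ℤ, b0 = b1 + (p : ℤ) * (-((p : ℤ) * b1)) := ⟨_, rfl⟩
    have hpsi : psi p a0 b0 = Complex.I := by
      rw [ha0, hb0, psi_per, h1]
    obtain ⟨k, hk⟩ : ∃ k : ℤ, (p : ℤ) * (p : ℤ) = 1 + 4 * k := by
      obtain ⟨m, hm⟩ : ∃ m : ℤ, (p : ℤ) = 2 * m + 1 := ⟨(p : ℤ) / 2, by omega⟩
      exact ⟨m ^ 2 + m, by rw [hm]; ring⟩
    have ha4 : a0 = 1 + 4 * (k * (1 - a1)) := by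
      rw [ha0]; linear_combination (1 - a1) * hk
    have hb4 : b0 = 4 * (-(k * b1)) := by
      rw [hb0]; linear_combination (-b1) * hk
    have hao : Odd a0 := ⟨2 * (k * (1 - a1)), by rw [ha4]; ring⟩
    have hbe : Even b0 := ⟨2 * (-(k * b1)), by rw [hb4]; ring⟩
    have hb40 : b0 % 4 = 0 := by rw [hb4]; exact Int.mul_emod_right _ _
    have hchi : chj p j a0 b0 = Complex.I := by
      unfold chj
      rw [if_pos ⟨hao, hbe⟩, if_pos hb40, hpsi, mul_one]
    -- the norm is a unit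
    have hnp : ¬ (p : ℤ) ∣ a0 ^ 2 + b0 ^ 2 := by
      rcases psi_norm p hp2 a0 b0 with ⟨h0, -⟩ | ⟨-, h4⟩
      · rw [hpsi] at h0; exact absurd h0 Complex.I_ne_zero
      · exact h4
    have hcop : IsCoprime (((4 * p : ℕ)) : ℤ) (a0 ^ 2 + b0 ^ 2) := by
      push_cast
      refine IsCoprime.mul_left ?_ ?_
      · have h2 : IsCoprime (2 : ℤ) (a0 ^ 2 + b0 ^ 2) := by
          obtain ⟨x, hx⟩ := hao
          obtain ⟨y, hy⟩ := hbe
          refine ⟨-(2 * x ^ 2 + 2 * x + 2 * y ^ 2), 1, ?_⟩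
          rw [hx, hy]; ring
        have h4 : (4 : ℤ) = 2 * 2 := by norm_num
        rw [h4]
        exact IsCoprime.mul_left h2 h2
      · exact (Int.prime_iff_natAbs_prime.mpr (by simpa using hp)).coprime_iff_not_dvd.mpr hnp
    have hunit : IsUnit (((a0 ^ 2 + b0 ^ 2 : ℤ)) : ZMod (4 * p)) :=
      (ZMod.coe_int_isUnit_iff_isCoprime _ _).mpr hcop
    -- values on residue classes
    have hF : ∀ a b : ℤ, chj p j a b =
        chj p j ((((a : ZMod (4 * p))).val : ℕ) : ℤ) ((((b : ZMod (4 * p))).val : ℕ) : ℤ) := by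
      intro a b
      rw [ZMod.val_intCast, ZMod.val_intCast]
      conv_lhs => rw [← Int.emod_add_mul_ediv a ((4 * p : ℕ) : ℤ),
        ← Int.emod_add_mul_ediv b ((4 * p : ℕ) : ℤ)]
      exact hper _ _ _ _
    have hall : ∀ a b : ℤ, chj p j (a0 * a - b0 * b) (a0 * b + b0 * a) =
        Complex.I * chj p j a b := by
      intro a b
      by_cases h : Odd a ∧ Even b
      · rw [hmul a0 b0 a b hao hbe h.1 h.2, hchi]
      · have hz : chj p j a b = 0 := if_neg h
        rw [hz, mul_zero]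
        refine if_neg (fun hh => h ?_)
        obtain ⟨x, hx⟩ := hao
        obtain ⟨y, hy⟩ := hbe
        obtain ⟨hh1, hh2⟩ := hh
        rw [Int.odd_iff] at hh1
        rw [Int.even_iff] at hh2
        rw [Int.odd_iff, Int.even_iff]
        have e1 : a0 * a - b0 * b = a + 2 * (x * a - y * b) := by rw [hx, hy]; ring
        have e2 : a0 * b + b0 * a = b + 2 * (x * b + y * a) := by rw [hx, hy]; ring
        rw [e1] at hh1
        rw [e2] at hh2
        exact ⟨by omega, by omega⟩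
    have hsum : ∑ a ∈ range (4 * p), ∑ b ∈ range (4 * p), chj p j a b =
        ∑ z : ZMod (4 * p) × ZMod (4 * p), chj p j (z.1.val : ℤ) (z.2.val : ℤ) := by
      rw [qch_sum (4 * p) (fun a => ∑ b ∈ range (4 * p), chj p j a b), Fintype.sum_prod_type]
      refine Finset.sum_congr rfl (fun x _ => ?_)
      exact qch_sum (4 * p) (fun b => chj p j (x.val : ℤ) b)
    rw [hsum]
    let φ : ZMod (4 * p) × ZMod (4 * p) → ZMod (4 * p) × ZMod (4 * p) :=
      fun z => ((a0 : ZMod (4 * p)) * z.1 - (b0 : ZMod (4 * p)) * z.2,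
        (a0 : ZMod (4 * p)) * z.2 + (b0 : ZMod (4 * p)) * z.1)
    have hinj : Function.Injective φ := by
      rintro ⟨x, y⟩ ⟨x', y'⟩ h
      have h1 : (a0 : ZMod (4 * p)) * x - (b0 : ZMod (4 * p)) * y =
        (a0 : ZMod (4 * p)) * x' - (b0 : ZMod (4 * p)) * y' := congrArg Prod.fst h
      have h2 : (a0 : ZMod (4 * p)) * y + (b0 : ZMod (4 * p)) * x =
        (a0 : ZMod (4 * p)) * y' + (b0 : ZMod (4 * p)) * x' := congrArg Prod.snd h
      have h3 : (((a0 ^ 2 + b0 ^ 2 : ℤ)) : ZMod (4 * p)) * x =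
          (((a0 ^ 2 + b0 ^ 2 : ℤ)) : ZMod (4 * p)) * x' := by
        push_cast
        linear_combination (a0 : ZMod (4 * p)) * h1 + (b0 : ZMod (4 * p)) * h2
      have h4 : (((a0 ^ 2 + b0 ^ 2 : ℤ)) : ZMod (4 * p)) * y =
          (((a0 ^ 2 + b0 ^ 2 : ℤ)) : ZMod (4 * p)) * y' := by
        push_cast
        linear_combination (a0 : ZMod (4 * p)) * h2 - (b0 : ZMod (4 * p)) * h1
      exact Prod.ext (hunit.mul_left_cancel h3) (hunit.mul_left_cancel h4)
    have hbij : Function.Bijective φ := Finite.injective_iff_bijective.mp hinj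
    have hS : ∑ z : ZMod (4 * p) × ZMod (4 * p),
        Complex.I * chj p j (z.1.val : ℤ) (z.2.val : ℤ) =
        ∑ z : ZMod (4 * p) × ZMod (4 * p), chj p j (z.1.val : ℤ) (z.2.val : ℤ) := by
      refine Fintype.sum_bijective φ hbij _ _ ?_
      rintro ⟨x, y⟩
      rw [← hall (x.val : ℤ) (y.val : ℤ), hF]
      have e1 : ((a0 * (x.val : ℤ) - b0 * (y.val : ℤ) : ℤ) : ZMod (4 * p)) = (φ (x, y)).1 := by
        push_cast
        rw [ZMod.natCast_zmod_val, ZMod.natCast_zmod_val]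
      have e2 : ((a0 * (y.val : ℤ) + b0 * (x.val : ℤ) : ℤ) : ZMod (4 * p)) = (φ (x, y)).2 := by
        push_cast
        rw [ZMod.natCast_zmod_val, ZMod.natCast_zmod_val]
      rw [e1, e2]
    rw [← Finset.mul_sum] at hS
    have hne : (Complex.I - 1) ≠ 0 := by
      intro h
      have := congrArg Complex.im h
      simp at this
    have h0 : (Complex.I - 1) *
        ∑ z : ZMod (4 * p) × ZMod (4 * p), chj p j (z.1.val : ℤ) (z.2.val : ℤ) = 0 := by
      linear_combination hS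
    exact (mul_eq_zero.mp h0).resolve_left hne

/-- the trivial character -/
theorem gc0_triv : GC0 (fun a b : ℤ => if Odd a ∧ Even b then 1 else 0) := by
  refine { supp := ?_, mul := ?_, neg := ?_, conj := ?_, val := ?_, one := ?_ }
  · intro a b h
    exact if_neg h
  · intro a b c d ha hb hc hd
    rw [if_pos (qch_par ha hb hc hd), if_pos ⟨ha, hb⟩, if_pos ⟨hc, hd⟩, one_mul]
  · intro a b
    simp only [odd_neg, even_neg]
  · intro a b
    simp only [even_neg]
    by_cases h : Odd a ∧ Even b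
    · rw [if_pos h]; simp
    · rw [if_neg h]; simp
  · intro a b
    by_cases h : Odd a ∧ Even b
    · right; rw [if_pos h]; simp
    · left; exact if_neg h
  · rw [if_pos ⟨odd_one, Even.zero⟩]

end Pool.SG
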