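import Pool.Agent.Lib.MP_a51fee_ag.SG.QD

/-!
# SG-QLat: lattice sums

`lat_sum`.  PROOF.  `∑_{n ≤ x} AX χ n = (1/2) ∑_{0 < a^2 + b^2 ≤ x} χ(a, b)`, `r = ⌊√x⌋`.
For fixed `a`, `|a| ≤ r`: `∑_{b^2 ≤ x - a^2} χ(a, b)`: with `B_a = ⌊√(x - a^2)⌋` the interval `[-B_a, B_a]`
consists of full periods of length `M` and at most `M` further terms, so the sum is
`(2 B_a + 1)/M * G(a) + O(M)`, `G(a) = ∑_{b mod M} χ(a, b)`, `|G| ≤ M`.
`G` has period `M` and `∑_{a mod M} G(a) = 0`, so its partial sums over intervals are bounded by `M^2`.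
`∑_{a=0}^{r} G(a) (2 B_a + 1)`: Abel summation with the decreasing `B_a ≤ √x`: at most
`M^2 (2 √x + 1)`; the same for `a < 0` by `neg`/`conj` or in the same way.  Total `≤ C √x`.
`lat_triv`: the number of `(a, b)` with `a^2 + b^2 ≤ x` is at most `(2 √x + 1)^2 ≤ 9 x`.
-/

set_option autoImplicit false

open Finset

namespace Pool.SG

private theorem ql_icc (f : ℤ → ℂ) (B : ℕ) :
    ∑ b ∈ Icc (-(B : ℤ)) B, f b = ∑ i ∈ range (2 * B + 1), f (-(B : ℤ) + i) := by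
  refine Finset.sum_nbij' (fun b => (b + B).toNat) (fun i => -(B : ℤ) + i) ?_ ?_ ?_ ?_ ?_
  · intro b hb
    rw [mem_Icc] at hb
    rw [mem_range]
    omega
  · intro i hi
    rw [mem_range] at hi
    rw [mem_Icc]
    omega
  · intro b hb
    rw [mem_Icc] at hb
    omega
  · intro i _
    omega
  · intro b hb
    rw [mem_Icc] at hb
    congr 1
    omega

private theorem ql_even (h : ℤ → ℂ) (hh : ∀ a, h (-a) = h a) (n : ℕ) :
    ∑ a ∈ Icc (-(n : ℤ)) n, h a = h 0 + 2 * ∑ i ∈ range n, h ((i : ℤ) + 1) := by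
  rw [ql_icc]
  induction n with
  | zero => simp
  | succ n ih =>
    rw [show 2 * (n + 1) + 1 = (2 * n + 1 + 1) + 1 by ring, sum_range_succ, sum_range_succ',
      sum_range_succ (fun i : ℕ => h ((i : ℤ) + 1)), mul_add, ← add_assoc (h 0), ← ih]
    have h1 : ∀ i : ℕ, h (-((n + 1 : ℕ) : ℤ) + ((i + 1 : ℕ) : ℤ)) = h (-(n : ℤ) + i) := by
      intro i
      congr 1
      push_cast
      ring
    have h2 : h (-((n + 1 : ℕ) : ℤ) + ((0 : ℕ) : ℤ)) = h ((n : ℤ) + 1) := by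
      rw [← hh ((n : ℤ) + 1)]
      congr 1
    have h3 : h (-((n + 1 : ℕ) : ℤ) + ((2 * n + 1 + 1 : ℕ) : ℤ)) = h ((n : ℤ) + 1) := by
      congr 1
      push_cast
      ring
    rw [sum_congr rfl fun i _ => h1 i, h2, h3]
    ring

private theorem ql_shift (f : ℤ → ℂ) (M : ℕ) (hf : ∀ n, f (n + M) = f n) (c : ℤ) :
    ∑ i ∈ range M, f (c + i) = ∑ i ∈ range M, f i := by
  have key : ∀ c : ℤ, ∑ i ∈ range M, f (c + 1 + i) = ∑ i ∈ range M, f (c + i) := by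
    intro c
    have h1 : ∑ i ∈ range (M + 1), f (c + i) = ∑ i ∈ range M, f (c + i) + f (c + M) :=
      sum_range_succ _ _
    have h2 : ∑ i ∈ range (M + 1), f (c + i) = ∑ i ∈ range M, f (c + ((i + 1 : ℕ) : ℤ)) +
      f (c + ((0 : ℕ) : ℤ)) := sum_range_succ' _ _
    rw [hf] at h1
    have h3 : ∑ i ∈ range M, f (c + ((i + 1 : ℕ) : ℤ)) = ∑ i ∈ range M, f (c + 1 + i) := by
      refine sum_congr rfl fun i _ => ?_
      congr 1
      push_cast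
      ring
    rw [h3, Nat.cast_zero, add_zero] at h2
    have h4 := h1.symm.trans h2
    exact (add_right_cancel h4).symm
  induction c with
  | zero => simp
  | succ n ih => rw [key, ih]
  | pred n ih =>
    rw [← ih, ← key]
    refine sum_congr rfl fun i _ => ?_
    congr 1
    ring

private theorem ql_blocks (f : ℤ → ℂ) (M : ℕ) (hM : 0 < M) (hf : ∀ n, f (n + M) = f n) {K : ℝ}
    (hK : ∀ n, ‖f n‖ ≤ K) (c : ℤ) (n : ℕ) :
    ‖∑ i ∈ range n, f (c + i) - ((n / M : ℕ) : ℂ) * ∑ i ∈ range M, f i‖ ≤ M * K := by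
  have hK0 : 0 ≤ K := (norm_nonneg _).trans (hK 0)
  have h1 : ∀ q : ℕ, ∀ c : ℤ, ∑ i ∈ range (M * q), f (c + i) = (q : ℂ) * ∑ i ∈ range M, f i := by
    intro q
    induction q with
    | zero => intro c; simp
    | succ q ih =>
      intro c
      rw [Nat.mul_succ, sum_range_add, ih]
      have h2 : ∑ i ∈ range M, f (c + ((M * q + i : ℕ) : ℤ)) = ∑ i ∈ range M, f i := by
        rw [← ql_shift f M hf (c + M * q)]
        refine sum_congr rfl fun i _ => ?_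
        congr 1
        push_cast
        ring
      rw [h2]
      push_cast
      ring
  have h2 : ∑ i ∈ range n, f (c + i) = ((n / M : ℕ) : ℂ) * ∑ i ∈ range M, f i +
      ∑ i ∈ range (n % M), f (c + ((M * (n / M) + i : ℕ) : ℤ)) := by
    rw [← h1 (n / M) c]
    conv_lhs => rw [← Nat.div_add_mod n M]
    rw [sum_range_add]
  rw [h2, add_sub_cancel_left]
  calc ‖∑ i ∈ range (n % M), f (c + ((M * (n / M) + i : ℕ) : ℤ))‖ ≤ ∑ i ∈ range (n % M), K :=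
        norm_sum_le_of_le _ fun i _ => hK _
    _ = (n % M : ℕ) * K := by rw [sum_const, card_range, nsmul_eq_mul]
    _ ≤ M * K := by
        refine mul_le_mul_of_nonneg_right ?_ hK0
        exact_mod_cast (Nat.mod_lt n hM).le

private theorem ql_abel (q : ℕ → ℝ) (g : ℕ → ℂ) {K : ℝ} (hq : Antitone q) (hq0 : ∀ i, 0 ≤ q i)
    (hg : ∀ n, ‖∑ i ∈ range n, g i‖ ≤ K) (n : ℕ) :
    ‖∑ i ∈ range n, (q i : ℂ) * g i‖ ≤ K * q 0 := by
  have h1 : ∀ n : ℕ, ∑ i ∈ range n, (q i : ℂ) * g i = (q n : ℂ) * ∑ i ∈ range n, g i +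
      ∑ i ∈ range n, ((q i - q (i + 1) : ℝ) : ℂ) * ∑ j ∈ range (i + 1), g j := by
    intro n
    induction n with
    | zero => simp
    | succ n ih =>
      rw [sum_range_succ, ih, sum_range_succ (fun i => ((q i - q (i + 1) : ℝ) : ℂ) *
        ∑ j ∈ range (i + 1), g j), sum_range_succ g]
      push_cast
      ring
  rw [h1]
  have h2 : ‖(q n : ℂ) * ∑ i ∈ range n, g i‖ ≤ q n * K := by
    rw [norm_mul, Complex.norm_real, Real.norm_of_nonneg (hq0 n)]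
    exact mul_le_mul_of_nonneg_left (hg n) (hq0 n)
  have h3 : ‖∑ i ∈ range n, ((q i - q (i + 1) : ℝ) : ℂ) * ∑ j ∈ range (i + 1), g j‖ ≤
      ∑ i ∈ range n, (q i - q (i + 1)) * K := by
    refine norm_sum_le_of_le _ fun i _ => ?_
    have h4 : 0 ≤ q i - q (i + 1) := sub_nonneg.2 (hq (Nat.le_succ i))
    rw [norm_mul, Complex.norm_real, Real.norm_of_nonneg h4]
    exact mul_le_mul_of_nonneg_left (hg _) h4
  rw [← sum_mul, sum_range_sub'] at h3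
  calc _ ≤ q n * K + (q 0 - q n) * K := (norm_add_le _ _).trans (add_le_add h2 h3)
    _ = K * q 0 := by ring

private theorem ql_rep {β : Type*} [AddCommMonoid β] (f : ℤ × ℤ → β) (x : ℕ) :
    ∑ n ∈ Icc 1 x, ∑ z ∈ rep n, f z = ∑ z ∈ ((Icc (-(x : ℤ)) x) ×ˢ (Icc (-(x : ℤ)) x)).filter
      (fun z : ℤ × ℤ => 1 ≤ z.1 ^ 2 + z.2 ^ 2 ∧ z.1 ^ 2 + z.2 ^ 2 ≤ x), f z := by
  rw [← Finset.sum_fiberwise_of_maps_to (t := Icc 1 x)
    (g := fun z : ℤ × ℤ => (z.1 ^ 2 + z.2 ^ 2).toNat)]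
  · refine sum_congr rfl fun n hn => ?_
    refine sum_congr ?_ fun _ _ => rfl
    rw [mem_Icc] at hn
    ext z
    unfold rep
    simp only [mem_filter, mem_product, mem_Icc]
    have hz1 : 0 ≤ z.1 ^ 2 := sq_nonneg _
    have hz2 : 0 ≤ z.2 ^ 2 := sq_nonneg _
    constructor
    · rintro ⟨⟨⟨h1, h2⟩, ⟨h3, h4⟩⟩, h5⟩
      refine ⟨⟨⟨⟨by omega, by omega⟩, ⟨by omega, by omega⟩⟩, ⟨by omega, by omega⟩⟩, by omega⟩
    · rintro ⟨⟨⟨⟨h1, h2⟩, ⟨h3, h4⟩⟩, ⟨h5, h6⟩⟩, h7⟩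
      have h8 : z.1 ^ 2 + z.2 ^ 2 = (n : ℤ) := by omega
      have h9 : z.1 ≤ z.1 ^ 2 := Int.le_self_sq _
      have h10 : -z.1 ≤ z.1 ^ 2 := by
        have := Int.le_self_sq (-z.1)
        rwa [neg_sq] at this
      have h11 : z.2 ≤ z.2 ^ 2 := Int.le_self_sq _
      have h12 : -z.2 ≤ z.2 ^ 2 := by
        have := Int.le_self_sq (-z.2)
        rwa [neg_sq] at this
      refine ⟨⟨⟨by omega, by omega⟩, ⟨by omega, by omega⟩⟩, h8⟩
  · intro z hz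
    rw [mem_filter] at hz
    rw [mem_Icc]
    omega

private theorem ql_norm {χ : ℤ → ℤ → ℂ} (h : GC0 χ) (a b : ℤ) : ‖χ a b‖ ≤ 1 := by
  rcases h.val a b with h1 | h1
  · rw [h1, norm_zero]
    exact zero_le_one
  · have h2 : ‖χ a b‖ ^ 4 = 1 := by rw [← norm_pow, h1, norm_one]
    exact (pow_eq_one_iff_of_nonneg (norm_nonneg _) (by norm_num)).1 h2 |>.le

private theorem ql_col {χ : ℤ → ℤ → ℂ} (x a : ℕ) (ha : a ^ 2 ≤ x) :
    ∑ b ∈ Icc (-(x : ℤ)) x, (if (a : ℤ) ^ 2 + b ^ 2 ≤ x then χ a b else 0) =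
      ∑ b ∈ Icc (-((Nat.sqrt (x - a ^ 2) : ℕ) : ℤ)) (Nat.sqrt (x - a ^ 2) : ℕ), χ a b := by
  rw [← sum_filter]
  refine sum_congr ?_ fun _ _ => rfl
  ext b
  rw [mem_filter, mem_Icc, mem_Icc]
  have h1 : (a : ℤ) ^ 2 + b ^ 2 ≤ x ↔ b.natAbs ≤ Nat.sqrt (x - a ^ 2) := by
    rw [Nat.le_sqrt', Nat.le_sub_iff_add_le ha]
    have h2 : ((b.natAbs : ℕ) : ℤ) ^ 2 = b ^ 2 := by
      rw [Int.natCast_natAbs, sq_abs]
    constructor
    · intro h3
      have h4 : ((b.natAbs : ℕ) : ℤ) ^ 2 + (a : ℤ) ^ 2 ≤ x := by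
        rw [h2]
        linarith
      exact_mod_cast h4
    · intro h3
      have h4 : ((b.natAbs : ℕ) : ℤ) ^ 2 + (a : ℤ) ^ 2 ≤ x := by exact_mod_cast h3
      rw [h2] at h4
      linarith
  rw [h1]
  have h2 : Nat.sqrt (x - a ^ 2) ≤ x := (Nat.sqrt_le_self _).trans (Nat.sub_le _ _)
  constructor
  · rintro ⟨_, h4⟩
    omega
  · intro h4
    omega

theorem lat_sum {χ : ℤ → ℤ → ℂ} {M : ℕ} (h : GC χ M) :
    ∃ C : ℝ, 0 < C ∧ ∀ x : ℕ, ‖∑ n ∈ Icc 1 x, AX χ n‖ ≤ C * Real.sqrt x := by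
  have hM := h.pos
  have hM0 : (0 : ℝ) < M := by exact_mod_cast hM
  have hnorm := ql_norm h.toGC0
  refine ⟨M + 3 * M ^ 2, by positivity, fun x => ?_⟩
  rcases Nat.eq_zero_or_pos x with rfl | hx
  · simp
  have hx1 : (1 : ℝ) ≤ x := by exact_mod_cast hx
  have hs1 : 1 ≤ Real.sqrt x := by
    rw [Real.one_le_sqrt]
    exact hx1
  have hs0 : 0 ≤ Real.sqrt x := Real.sqrt_nonneg _
  unfold AX
  rw [← mul_sum, ql_rep (fun z : ℤ × ℤ => χ z.1 z.2)]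
  -- include the origin
  have h0 : ∑ z ∈ ((Icc (-(x : ℤ)) x) ×ˢ (Icc (-(x : ℤ)) x)).filter
      (fun z : ℤ × ℤ => 1 ≤ z.1 ^ 2 + z.2 ^ 2 ∧ z.1 ^ 2 + z.2 ^ 2 ≤ x), χ z.1 z.2 =
      ∑ a ∈ Icc (-(x : ℤ)) x, ∑ b ∈ Icc (-(x : ℤ)) x,
        (if a ^ 2 + b ^ 2 ≤ (x : ℤ) then χ a b else 0) := by
    rw [sum_filter, sum_product]
    refine sum_congr rfl fun a _ => sum_congr rfl fun b _ => ?_
    by_cases h1 : a ^ 2 + b ^ 2 ≤ (x : ℤ)
    · rw [if_pos h1]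
      by_cases h2 : 1 ≤ a ^ 2 + b ^ 2
      · rw [if_pos ⟨h2, h1⟩]
      · rw [if_neg fun h3 => h2 h3.1]
        have ha : a = 0 := by
          have h3 : 0 ≤ a ^ 2 := sq_nonneg _
          have h4 : 0 ≤ b ^ 2 := sq_nonneg _
          have h5 : a ^ 2 = 0 := by omega
          exact pow_eq_zero_iff (two_ne_zero) |>.1 h5
        rw [ha]
        refine (h.supp 0 b fun h3 => ?_).symm
        exact absurd h3.1 (by decide)
    · rw [if_neg h1, if_neg fun h3 => h1 h3.2]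
  rw [h0]
  obtain ⟨H, hH⟩ : ∃ H : ℤ → ℂ, H = fun a => ∑ b ∈ Icc (-(x : ℤ)) x,
      (if a ^ 2 + b ^ 2 ≤ (x : ℤ) then χ a b else 0) := ⟨_, rfl⟩
  have hHe : ∀ a, H (-a) = H a := by
    intro a
    rw [hH]
    show ∑ b ∈ Icc (-(x : ℤ)) x, (if (-a) ^ 2 + b ^ 2 ≤ (x : ℤ) then χ (-a) b else 0) =
      ∑ b ∈ Icc (-(x : ℤ)) x, (if a ^ 2 + b ^ 2 ≤ (x : ℤ) then χ a b else 0)
    refine Finset.sum_nbij' (fun b => -b) (fun b => -b) ?_ ?_ ?_ ?_ ?_
    · intro b hb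
      rw [mem_Icc] at hb ⊢
      omega
    · intro b hb
      rw [mem_Icc] at hb ⊢
      omega
    · intro b _
      exact neg_neg b
    · intro b _
      exact neg_neg b
    · intro b _
      rw [neg_sq, neg_sq]
      have := h.neg a (-b)
      rw [neg_neg] at this
      rw [this]
  have hH0 : H 0 = 0 := by
    rw [hH]
    refine sum_eq_zero fun b _ => ?_
    split_ifs
    · exact h.supp 0 b fun h3 => absurd h3.1 (by decide)
    · rfl
  have hsum : ∑ a ∈ Icc (-(x : ℤ)) x, ∑ b ∈ Icc (-(x : ℤ)) x,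
      (if a ^ 2 + b ^ 2 ≤ (x : ℤ) then χ a b else 0) = 2 * ∑ i ∈ range x, H ((i : ℤ) + 1) := by
    have := ql_even H hHe x
    rw [hH0, zero_add] at this
    rw [← this, hH]
  rw [hsum, ← mul_assoc, show (1 : ℂ) / 2 * 2 = 1 by norm_num, one_mul]
  obtain ⟨r, hr⟩ : ∃ r : ℕ, r = Nat.sqrt x := ⟨_, rfl⟩
  have hrx : r ≤ x := hr ▸ Nat.sqrt_le_self x
  have hrs : (r : ℝ) ≤ Real.sqrt x := by
    rw [hr]
    exact Real.nat_sqrt_le_real_sqrt
  have hcut : ∑ i ∈ range x, H ((i : ℤ) + 1) = ∑ i ∈ range r, H ((i : ℤ) + 1) := by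
    symm
    refine sum_subset (range_subset_range.2 hrx) fun i _ hi => ?_
    rw [mem_range, not_lt] at hi
    rw [hH]
    refine sum_eq_zero fun b _ => ?_
    rw [if_neg]
    intro h1
    have h2 : x < (i + 1) ^ 2 := by
      rw [← Nat.sqrt_lt', ← hr]
      omega
    have h3 : (x : ℤ) < ((i : ℤ) + 1) ^ 2 := by exact_mod_cast h2
    have h4 : 0 ≤ b ^ 2 := sq_nonneg _
    linarith
  rw [hcut]
  obtain ⟨B, hB⟩ : ∃ B : ℕ → ℕ, B = fun i => Nat.sqrt (x - (i + 1) ^ 2) := ⟨_, rfl⟩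
  obtain ⟨G, hG⟩ : ∃ G : ℤ → ℂ, G = fun a => ∑ b ∈ range M, χ a b := ⟨_, rfl⟩
  have hperb : ∀ a n : ℤ, χ a (n + M) = χ a n := by
    intro a n
    have := h.per a n 0 1
    rwa [mul_zero, add_zero, mul_one] at this
  have hGper : ∀ a, G (a + M) = G a := by
    intro a
    rw [hG]
    refine sum_congr rfl fun b _ => ?_
    have := h.per a b 1 0
    rwa [mul_zero, add_zero, mul_one] at this
  have hGn : ∀ a, ‖G a‖ ≤ M := by
    intro a
    rw [hG]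
    calc ‖∑ b ∈ range M, χ a b‖ ≤ ∑ b ∈ range M, (1 : ℝ) := norm_sum_le_of_le _ fun b _ => hnorm _ _
      _ = M := by rw [sum_const, card_range, nsmul_eq_mul, mul_one]
  have hGm : ∑ i ∈ range M, G i = 0 := by
    rw [hG]
    exact h.mean
  have hGp : ∀ n : ℕ, ‖∑ i ∈ range n, G ((i : ℤ) + 1)‖ ≤ (M : ℝ) * M := by
    intro n
    have := ql_blocks G M hM hGper hGn 1 n
    rw [hGm, mul_zero, sub_zero] at this
    refine (le_of_eq ?_).trans this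
    congr 1
    exact sum_congr rfl fun i _ => by rw [add_comm]
  have hcol : ∀ i ∈ range r, ‖H ((i : ℤ) + 1) -
      (((2 * B i + 1) / M : ℕ) : ℂ) * G ((i : ℤ) + 1)‖ ≤ M := by
    intro i hi
    rw [mem_range] at hi
    have h1 : (i + 1) ^ 2 ≤ x := by
      rw [← Nat.le_sqrt', ← hr]
      omega
    have h2 : H ((i : ℤ) + 1) = ∑ b ∈ Icc (-((B i : ℕ) : ℤ)) (B i : ℕ), χ ((i : ℤ) + 1) b := by
      have := ql_col (χ := χ) x (i + 1) h1
      rw [hH, hB]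
      push_cast at this
      exact this
    rw [h2, ql_icc, hG]
    have := ql_blocks (fun b => χ ((i : ℤ) + 1) b) M hM (hperb _) (K := 1) (fun n => hnorm _ _)
      (-(B i : ℤ)) (2 * B i + 1)
    rw [mul_one] at this
    exact this
  have hmain : ∑ i ∈ range r, H ((i : ℤ) + 1) = ∑ i ∈ range r, (H ((i : ℤ) + 1) -
      (((2 * B i + 1) / M : ℕ) : ℂ) * G ((i : ℤ) + 1)) +
      ∑ i ∈ range r, (((((2 * B i + 1) / M : ℕ) : ℝ)) : ℂ) * G ((i : ℤ) + 1) := by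
    rw [← sum_add_distrib]
    refine sum_congr rfl fun i _ => ?_
    push_cast
    ring
  rw [hmain]
  have hA := ql_abel (fun i => (((2 * B i + 1) / M : ℕ) : ℝ)) (fun i : ℕ => G ((i : ℤ) + 1))
    (K := (M : ℝ) * M) ?_ (fun i => Nat.cast_nonneg _) hGp r
  · have hq0 : (((2 * B 0 + 1) / M : ℕ) : ℝ) ≤ 3 * Real.sqrt x := by
      have h1 : (((2 * B 0 + 1) / M : ℕ) : ℝ) ≤ ((2 * B 0 + 1 : ℕ) : ℝ) :=
        Nat.cast_le.2 (Nat.div_le_self _ _)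
      have h2 : B 0 ≤ r := by
        rw [hB, hr]
        exact Nat.sqrt_le_sqrt (Nat.sub_le _ _)
      have h3 : (B 0 : ℝ) ≤ r := by exact_mod_cast h2
      push_cast at h1
      linarith
    have hF : ‖∑ i ∈ range r, (H ((i : ℤ) + 1) -
        (((2 * B i + 1) / M : ℕ) : ℂ) * G ((i : ℤ) + 1))‖ ≤ r * M := by
      refine (norm_sum_le_of_le _ hcol).trans_eq ?_
      rw [sum_const, card_range, nsmul_eq_mul]
    refine (norm_add_le _ _).trans ((add_le_add hF hA).trans ?_)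
    have h1 : (r : ℝ) * M ≤ Real.sqrt x * M := mul_le_mul_of_nonneg_right hrs hM0.le
    have h2 : (M : ℝ) * M * (((2 * B 0 + 1) / M : ℕ) : ℝ) ≤ M * M * (3 * Real.sqrt x) :=
      mul_le_mul_of_nonneg_left hq0 (by positivity)
    calc (r : ℝ) * M + M * M * (((2 * B 0 + 1) / M : ℕ) : ℝ) ≤
        Real.sqrt x * M + M * M * (3 * Real.sqrt x) := add_le_add h1 h2
      _ = (M + 3 * M ^ 2) * Real.sqrt x := by ring
  · intro i j hij
    show ((((2 * B j + 1) / M : ℕ)) : ℝ) ≤ (((2 * B i + 1) / M : ℕ) : ℝ)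
    have h1 : B j ≤ B i := by
      rw [hB]
      refine Nat.sqrt_le_sqrt (Nat.sub_le_sub_left ?_ _)
      exact Nat.pow_le_pow_left (by omega) 2
    exact Nat.cast_le.2 (Nat.div_le_div_right (by omega))

theorem lat_triv (x : ℕ) : ∑ n ∈ Icc 1 x, ((rep n).card : ℝ) ≤ 9 * x := by
  rcases Nat.eq_zero_or_pos x with rfl | hx
  · simp
  have hx1 : (1 : ℝ) ≤ x := by exact_mod_cast hx
  have hs1 : 1 ≤ Real.sqrt x := by
    rw [Real.one_le_sqrt]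
    exact hx1
  have h1 := ql_rep (fun _ : ℤ × ℤ => (1 : ℝ)) x
  have h2 : ∑ n ∈ Icc 1 x, ((rep n).card : ℝ) = ∑ n ∈ Icc 1 x, ∑ _z ∈ rep n, (1 : ℝ) :=
    sum_congr rfl fun n _ => by rw [sum_const, nsmul_eq_mul, mul_one]
  rw [h2, h1, sum_const, nsmul_eq_mul, mul_one]
  obtain ⟨r, hr⟩ : ∃ r : ℕ, r = Nat.sqrt x := ⟨_, rfl⟩
  have hrs : (r : ℝ) ≤ Real.sqrt x := by
    rw [hr]
    exact Real.nat_sqrt_le_real_sqrt
  have hsub : ((Icc (-(x : ℤ)) x) ×ˢ (Icc (-(x : ℤ)) x)).filter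
      (fun z : ℤ × ℤ => 1 ≤ z.1 ^ 2 + z.2 ^ 2 ∧ z.1 ^ 2 + z.2 ^ 2 ≤ x) ⊆
      (Icc (-(r : ℤ)) r) ×ˢ (Icc (-(r : ℤ)) r) := by
    intro z hz
    rw [mem_filter] at hz
    obtain ⟨_, _, h4⟩ := hz
    have key : ∀ a : ℤ, a ^ 2 ≤ x → a.natAbs ≤ r := by
      intro a ha
      rw [hr, Nat.le_sqrt']
      have h5 : ((a.natAbs : ℕ) : ℤ) ^ 2 = a ^ 2 := by
        rw [Int.natCast_natAbs, sq_abs]
      have h6 : ((a.natAbs : ℕ) : ℤ) ^ 2 ≤ x := by rw [h5]; exact ha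
      exact_mod_cast h6
    have h5 := key z.1 (by nlinarith [sq_nonneg z.2])
    have h6 := key z.2 (by nlinarith [sq_nonneg z.1])
    rw [mem_product, mem_Icc, mem_Icc]
    omega
  have h3 := Finset.card_le_card hsub
  rw [card_product, Int.card_Icc] at h3
  have h4 : ((r : ℤ) + 1 - -(r : ℤ)).toNat = 2 * r + 1 := by omega
  rw [h4] at h3
  have h5 : ((((Icc (-(x : ℤ)) x) ×ˢ (Icc (-(x : ℤ)) x)).filter
      (fun z : ℤ × ℤ => 1 ≤ z.1 ^ 2 + z.2 ^ 2 ∧ z.1 ^ 2 + z.2 ^ 2 ≤ x)).card : ℝ) ≤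
      ((2 * r + 1) * (2 * r + 1) : ℕ) := Nat.cast_le.2 h3
  refine h5.trans ?_
  push_cast
  have h6 : (2 * (r : ℝ) + 1) ≤ 3 * Real.sqrt x := by linarith
  have h7 : (0 : ℝ) ≤ 2 * (r : ℝ) + 1 := by positivity
  calc (2 * (r : ℝ) + 1) * (2 * r + 1) ≤ (3 * Real.sqrt x) * (3 * Real.sqrt x) :=
        mul_le_mul h6 h6 h7 (h7.trans h6)
    _ = 9 * (Real.sqrt x * Real.sqrt x) := by ring
    _ = 9 * x := by rw [Real.mul_self_sqrt (Nat.cast_nonneg _)]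

end Pool.SG
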