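import Pool.Agent.Lib.MP_a51fee_ag.SG.QConv
import Pool.Agent.Lib.MP_a51fee_ag.SG.QCh
import Pool.Agent.Lib.MP_a51fee_ag.SG.QLat

/-!
# SG-QBnd: the inverse coefficients are small on average

PROOF.  `B = BX c1 c2 = (μ c1) * (μ c2)` is multiplicative (as an `ArithmeticFunction`,
`IsMultiplicative.mul`).  `B(l^k)`: `k = 0`: `1`; `k = 1`: `-(c1 l + c2 l)`; `k = 2`: `c1 l c2 l`; `k ≥ 3`: `0`.
Let `A0(n) = (1/2) #{z ∈ rep n | z.1 odd, z.2 even} = AX 1_S n`; by `exists_fac gc0_triv`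
`A0 = c1' * c2'` with `c1' l = c2' l = 1` for `l ≡ 1 mod 4`, `c2' l = - c1' l`, `(c1' l)^2 = 1` for
`l ≡ 3 mod 4` and `0` for `l = 2`; multiplicative, `A0(l^k) = k + 1`, resp. `1` (`k` even) or `0` (`k` odd), resp. `0`.
So `|B(l^k)| ≤ A0(l^k)`: `l ≡ 1`: `2 ≤ 2`, `1 ≤ 3`; `l ≡ 3`: `c1 l + c2 l = 0`, `1 ≤ 1`; `l = 2`: `0`.
Hence `|B(n)| ≤ A0(n) ≤ #(rep n)` and `lat_triv`.
-/

set_option autoImplicit false

open Finset

namespace Pool.SG

theorem CM.pow_qb {c : ℕ → ℂ} (h : CM c) (l k : ℕ) : c (l ^ k) = c l ^ k := by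
  induction k with
  | zero => simp [h.one]
  | succ k ih => rw [pow_succ, h.mul, ih, pow_succ]

/-- `μ c` as an arithmetic function -/
noncomputable def afM_qb (c : ℕ → ℂ) : ArithmeticFunction ℂ :=
  ⟨fun n => ((ArithmeticFunction.moebius n : ℤ) : ℂ) * c n, by simp⟩

/-- `c` as an arithmetic function -/
noncomputable def afC_qb (c : ℕ → ℂ) : ArithmeticFunction ℂ :=
  ⟨fun n => if n = 0 then 0 else c n, by simp⟩

theorem afM_apply_qb (c : ℕ → ℂ) (n : ℕ) :
    afM_qb c n = ((ArithmeticFunction.moebius n : ℤ) : ℂ) * c n := rfl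

theorem afC_apply_qb (c : ℕ → ℂ) (n : ℕ) : afC_qb c n = if n = 0 then 0 else c n := rfl

theorem afM_mult_qb {c : ℕ → ℂ} (h : CM c) : (afM_qb c).IsMultiplicative := by
  refine ⟨?_, ?_⟩
  · rw [afM_apply_qb, h.one]; simp
  · intro m n hmn
    rw [afM_apply_qb, afM_apply_qb, afM_apply_qb, h.mul,
      ArithmeticFunction.isMultiplicative_moebius.map_mul_of_coprime hmn]
    push_cast
    ring

theorem afC_mult_qb {c : ℕ → ℂ} (h : CM c) : (afC_qb c).IsMultiplicative := by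
  refine ⟨?_, ?_⟩
  · rw [afC_apply_qb, if_neg one_ne_zero, h.one]
  · intro m n hmn
    rw [afC_apply_qb, afC_apply_qb, afC_apply_qb, h.mul]
    by_cases hm : m = 0
    · simp [hm]
    by_cases hn : n = 0
    · simp [hn]
    rw [if_neg (mul_ne_zero hm hn), if_neg hm, if_neg hn]

theorem BX_eq_qb (c1 c2 : ℕ → ℂ) (n : ℕ) : BX c1 c2 n = (afM_qb c1 * afM_qb c2) n := by
  rw [ArithmeticFunction.mul_apply, Nat.sum_divisorsAntidiagonal
    (fun a b => afM_qb c1 a * afM_qb c2 b)]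
  rfl

theorem AC_eq_qb (c1 c2 : ℕ → ℂ) {n : ℕ} (hn : 0 < n) :
    ∑ d ∈ n.divisors, c1 d * c2 (n / d) = (afC_qb c1 * afC_qb c2) n := by
  rw [ArithmeticFunction.mul_apply, Nat.sum_divisorsAntidiagonal
    (fun a b => afC_qb c1 a * afC_qb c2 b)]
  refine Finset.sum_congr rfl fun d hd => ?_
  have h1 := Nat.dvd_of_mem_divisors hd
  have h2 : 0 < d := Nat.pos_of_mem_divisors hd
  have h3 : 0 < n / d := Nat.div_pos (Nat.le_of_dvd hn h1) h2
  rw [afC_apply_qb, afC_apply_qb, if_neg h2.ne', if_neg h3.ne']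

theorem mul_pp_qb (f g : ArithmeticFunction ℂ) {l : ℕ} (hl : l.Prime) (k : ℕ) :
    (f * g) (l ^ k) = ∑ j ∈ range (k + 1), f (l ^ j) * g (l ^ (k - j)) := by
  rw [ArithmeticFunction.mul_apply, Nat.sum_divisorsAntidiagonal (fun a b => f a * g b),
    Nat.sum_divisors_prime_pow hl]
  refine Finset.sum_congr rfl fun j hj => ?_
  rw [Finset.mem_range] at hj
  rw [Nat.pow_div (by omega) hl.pos]

theorem BX_pp_qb {c1 c2 : ℕ → ℂ} (h1 : CM c1) (h2 : CM c2) {l : ℕ} (hl : l.Prime) (k : ℕ) :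
    (afM_qb c1 * afM_qb c2) (l ^ k) = if k = 0 then 1 else if k = 1 then -(c1 l + c2 l)
      else if k = 2 then c1 l * c2 l else 0 := by
  have hm : ∀ c : ℕ → ℂ, ∀ j, 2 ≤ j → afM_qb c (l ^ j) = 0 := by
    intro c j hj
    rw [afM_apply_qb, ArithmeticFunction.moebius_apply_prime_pow hl (by omega), if_neg (by omega)]
    simp
  have h0 : ∀ c : ℕ → ℂ, CM c → afM_qb c (l ^ 0) = 1 := by
    intro c hc
    rw [pow_zero, afM_apply_qb, hc.one]; simp
  have h01 : ∀ c : ℕ → ℂ, afM_qb c (l ^ 1) = - c l := by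
    intro c
    rw [pow_one, afM_apply_qb, ArithmeticFunction.moebius_apply_prime hl]
    push_cast
    ring
  rw [mul_pp_qb _ _ hl]
  rcases Nat.lt_or_ge k 3 with hk | hk
  · interval_cases k
    · rw [Finset.sum_range_one, h0 _ h1, h0 _ h2]; simp
    · rw [Finset.sum_range_succ, Finset.sum_range_one, h0 _ h1, h01, h01, h0 _ h2]
      simp only [one_ne_zero, if_false, if_true]
      ring
    · rw [Finset.sum_range_succ, Finset.sum_range_succ, Finset.sum_range_one, h0 _ h1, h01,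
        show 2 - 0 = 2 by rfl, show 2 - 1 = 1 by rfl, hm _ 2 le_rfl, h01, hm _ 2 le_rfl]
      simp
  · rw [if_neg (by omega), if_neg (by omega), if_neg (by omega)]
    refine Finset.sum_eq_zero fun j _ => ?_
    rcases Nat.lt_or_ge j 2 with hj | hj
    · rw [hm c2 (k - j) (by omega), mul_zero]
    · rw [hm c1 j hj, zero_mul]

theorem AC_pp_qb {c1 c2 : ℕ → ℂ} (h1 : CM c1) (h2 : CM c2) {l : ℕ} (hl : l.Prime) (k : ℕ) :
    (afC_qb c1 * afC_qb c2) (l ^ k) = ∑ j ∈ range (k + 1), c1 l ^ j * c2 l ^ (k - j) := by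
  rw [mul_pp_qb _ _ hl]
  refine Finset.sum_congr rfl fun j _ => ?_
  rw [afC_apply_qb, afC_apply_qb, if_neg (pow_ne_zero _ hl.ne_zero),
    if_neg (pow_ne_zero _ hl.ne_zero), h1.pow_qb, h2.pow_qb]

theorem pp_le_qb {χ : ℤ → ℤ → ℂ} {c1 c2 d1 d2 : ℕ → ℂ} (h : Fac χ c1 c2)
    (h' : Fac (fun a b : ℤ => if Odd a ∧ Even b then 1 else 0) d1 d2) {l : ℕ} (hl : l.Prime)
    (k : ℕ) : ‖(afM_qb c1 * afM_qb c2) (l ^ k)‖ ≤ ‖(afC_qb d1 * afC_qb d2) (l ^ k)‖ := by
  rw [BX_pp_qb h.h1 h.h2 hl, AC_pp_qb h'.h1 h'.h2 hl]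
  have hc1 := h.h1.le l
  have hc2 := h.h2.le l
  rcases Nat.lt_or_ge k 3 with hk | hk
  swap
  · rw [if_neg (by omega), if_neg (by omega), if_neg (by omega), norm_zero]
    exact norm_nonneg _
  have h4 : l = 2 ∨ l % 4 = 1 ∨ l % 4 = 3 := by
    rcases hl.eq_two_or_odd with h | h
    · exact Or.inl h
    · right; omega
  have hprod : ‖c1 l * c2 l‖ ≤ 1 := by
    rw [norm_mul]
    exact mul_le_one₀ hc1 (norm_nonneg _) hc2
  rcases h4 with h4 | h4 | h4
  · subst h4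
    interval_cases k
    · simp
    · rw [h.two.1, h.two.2]; simp
    · rw [h.two.1, h.two.2]; simp
  · obtain ⟨a, b, ha, hb, _, e1, e2⟩ := h'.split l hl h4
    have e1' : d1 l = 1 := by rw [e1]; simp only [ha, hb, and_self, if_true]
    have e2' : d2 l = 1 := by rw [e2]; simp only [ha, hb, and_self, if_true, map_one]
    have e3 : ‖∑ j ∈ range (k + 1), d1 l ^ j * d2 l ^ (k - j)‖ = (k + 1 : ℝ) := by
      have : ∑ j ∈ range (k + 1), d1 l ^ j * d2 l ^ (k - j) = ((k + 1 : ℕ) : ℂ) := by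
        rw [Finset.sum_congr rfl (g := fun _ => (1 : ℂ))]
        · simp
        · intro j _; rw [e1', e2', one_pow, one_pow, one_mul]
      rw [this, Complex.norm_natCast]
      push_cast
      ring
    rw [e3]
    interval_cases k
    · simp
    · simp only [one_ne_zero, if_false, if_true, norm_neg]
      have := norm_add_le (c1 l) (c2 l)
      push_cast
      linarith
    · simp only [OfNat.ofNat_ne_zero, OfNat.ofNat_ne_one, if_false, if_true]
      push_cast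
      linarith
  · obtain ⟨e1, e2⟩ := h.three l hl h4
    obtain ⟨f1, f2⟩ := h'.three l hl h4
    have f3 : d1 l ^ 2 = 1 := by
      rw [f2]
      have : Odd (l : ℤ) := by
        rw [Int.odd_coe_nat, Nat.odd_iff]; omega
      simp only [this, Even.zero, and_self, if_true]
    interval_cases k
    · simp
    · simp only [one_ne_zero, if_false, if_true, norm_neg]
      rw [e1, add_neg_cancel, norm_zero]
      exact norm_nonneg _
    · simp only [OfNat.ofNat_ne_zero, OfNat.ofNat_ne_one, if_false, if_true]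
      have : ∑ j ∈ range (2 + 1), d1 l ^ j * d2 l ^ (2 - j) = 1 := by
        rw [Finset.sum_range_succ, Finset.sum_range_succ, Finset.sum_range_one, f1]
        linear_combination f3
      rw [this, norm_one]
      exact hprod

theorem BX_le_qb {χ : ℤ → ℤ → ℂ} {c1 c2 d1 d2 : ℕ → ℂ} (h : Fac χ c1 c2)
    (h' : Fac (fun a b : ℤ => if Odd a ∧ Even b then 1 else 0) d1 d2) {n : ℕ} (hn : 0 < n) :
    ‖BX c1 c2 n‖ ≤ (rep n).card := by
  have hB : (afM_qb c1 * afM_qb c2).IsMultiplicative :=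
    (afM_mult_qb h.h1).mul (afM_mult_qb h.h2)
  have hA : (afC_qb d1 * afC_qb d2).IsMultiplicative :=
    (afC_mult_qb h'.h1).mul (afC_mult_qb h'.h2)
  have e1 : ‖BX c1 c2 n‖ ≤ ‖AX (fun a b : ℤ => if Odd a ∧ Even b then 1 else 0) n‖ := by
    rw [BX_eq_qb, h'.conv n hn, AC_eq_qb _ _ hn, hB.multiplicative_factorization _ hn.ne',
      hA.multiplicative_factorization _ hn.ne', Finsupp.prod, Finsupp.prod, norm_prod, norm_prod]
    refine Finset.prod_le_prod (fun _ _ => norm_nonneg _) fun l hl => ?_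
    exact pp_le_qb h h' (Nat.prime_of_mem_primeFactors (by simpa using hl)) _
  refine e1.trans ?_
  rw [AX, norm_mul]
  have e2 : ‖∑ z ∈ rep n, (if Odd z.1 ∧ Even z.2 then (1 : ℂ) else 0)‖ ≤ (rep n).card := by
    refine (norm_sum_le _ _).trans ?_
    refine (Finset.sum_le_card_nsmul _ _ 1 ?_).trans (by simp)
    intro z _
    split_ifs <;> simp
  have e3 : ‖(1 / 2 : ℂ)‖ ≤ 1 := by
    rw [norm_div, norm_one]; norm_num
  calc _ ≤ 1 * ((rep n).card : ℝ) := mul_le_mul e3 e2 (norm_nonneg _) zero_le_one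
    _ = _ := one_mul _

theorem BX_sum {χ : ℤ → ℤ → ℂ} {c1 c2 : ℕ → ℂ} (h : Fac χ c1 c2) (x : ℕ) :
    ∑ n ∈ Icc 1 x, ‖BX c1 c2 n‖ ≤ 9 * x := by
  obtain ⟨d1, d2, h'⟩ := exists_fac gc0_triv
  refine (Finset.sum_le_sum fun n hn => ?_).trans (lat_triv x)
  exact BX_le_qb h h' (Finset.mem_Icc.mp hn).1

end Pool.SG
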