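import Pool.Agent.Lib.MP_a51fee_ag.SG.QD

/-!
# SG-QConv: the coefficients factor
-/

set_option autoImplicit false

open Finset

namespace Pool.SG

/-! ### completely multiplicative functions with given values at primes -/

namespace QConv

noncomputable def ext (f : ℕ → ℂ) (n : ℕ) : ℂ :=
  if n = 0 then 0 else n.factorization.prod fun p k => f p ^ k

theorem ext_one (f : ℕ → ℂ) : ext f 1 = 1 := by
  simp [ext]

theorem ext_mul (f : ℕ → ℂ) (m n : ℕ) : ext f (m * n) = ext f m * ext f n := by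
  unfold ext
  by_cases hm : m = 0
  · simp [hm]
  by_cases hn : n = 0
  · simp [hn]
  rw [if_neg (Nat.mul_ne_zero hm hn), if_neg hm, if_neg hn, Nat.factorization_mul hm hn]
  exact Finsupp.prod_add_index' (fun a => pow_zero _) (fun a b c => pow_add _ _ _)

theorem ext_prime (f : ℕ → ℂ) {l : ℕ} (hl : l.Prime) : ext f l = f l := by
  unfold ext
  rw [if_neg hl.ne_zero, hl.factorization, Finsupp.prod_single_index (h := fun p k => f p ^ k) (pow_zero _), pow_one]

theorem ext_le (f : ℕ → ℂ) (hf : ∀ l, l.Prime → ‖f l‖ ≤ 1) (n : ℕ) : ‖ext f n‖ ≤ 1 := by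
  unfold ext
  split_ifs with h
  · simp
  · unfold Finsupp.prod
    rw [norm_prod]
    refine Finset.prod_le_one (fun i _ => norm_nonneg _) fun i hi => ?_
    rw [norm_pow]
    exact pow_le_one₀ (norm_nonneg _) (hf i (Nat.prime_of_mem_primeFactors (by simpa using hi)))

theorem ext_cm (f : ℕ → ℂ) (hf : ∀ l, l.Prime → ‖f l‖ ≤ 1) : CM (ext f) :=
  ⟨ext_one f, ext_mul f, ext_le f hf⟩

/-! ### the recursion for the convolution -/

noncomputable def gg (c1 c2 : ℕ → ℂ) (n : ℕ) : ℂ := ∑ z ∈ n.divisorsAntidiagonal, c1 z.1 * c2 z.2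

theorem gg_eq (c1 c2 : ℕ → ℂ) (n : ℕ) : ∑ d ∈ n.divisors, c1 d * c2 (n / d) = gg c1 c2 n := by
  unfold gg
  exact (Nat.sum_divisorsAntidiagonal (fun a b => c1 a * c2 b)).symm

theorem sum_cover {ι : Type} (s : Finset ι) (P Q : ι → Prop) [DecidablePred P] [DecidablePred Q] (F : ι → ℂ)
    (h : ∀ i ∈ s, P i ∨ Q i) :
    ∑ i ∈ s, F i = ∑ i ∈ s with P i, F i + ∑ i ∈ s with Q i, F i - ∑ i ∈ s with (P i ∧ Q i), F i := by
  rw [Finset.sum_filter, Finset.sum_filter, Finset.sum_filter, ← Finset.sum_add_distrib, ← Finset.sum_sub_distrib]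
  refine Finset.sum_congr rfl fun i hi => ?_
  rcases h i hi with h1 | h1
  · by_cases h2 : Q i <;> simp [h1, h2]
  · by_cases h2 : P i <;> simp [h1, h2]

theorem gg_rec (c1 c2 : ℕ → ℂ) (h1 : CM c1) (h2 : CM c2) {l : ℕ} (hl : l.Prime) (m : ℕ) (hm : 0 < m) :
    gg c1 c2 (l * m) = (c1 l + c2 l) * gg c1 c2 m - c1 l * c2 l * (if l ∣ m then gg c1 c2 (m / l) else 0) := by
  have hlm : l * m ≠ 0 := Nat.mul_ne_zero hl.ne_zero hm.ne'
  unfold gg
  rw [sum_cover (l * m).divisorsAntidiagonal (fun z => l ∣ z.1) (fun z => l ∣ z.2)]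
  · have e1 : ∑ z ∈ (l * m).divisorsAntidiagonal with l ∣ z.1, c1 z.1 * c2 z.2 =
        c1 l * ∑ z ∈ m.divisorsAntidiagonal, c1 z.1 * c2 z.2 := by
      rw [Finset.mul_sum]
      symm
      refine Finset.sum_nbij' (fun z => (l * z.1, z.2)) (fun z => (z.1 / l, z.2)) ?_ ?_ ?_ ?_ ?_
      · intro z hz
        rw [Nat.mem_divisorsAntidiagonal] at hz
        rw [Finset.mem_filter, Nat.mem_divisorsAntidiagonal]
        exact ⟨⟨by rw [← hz.1]; ring, hlm⟩, dvd_mul_right _ _⟩
      · intro z hz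
        rw [Finset.mem_filter, Nat.mem_divisorsAntidiagonal] at hz
        obtain ⟨⟨h3, -⟩, h4, h5⟩ := hz
        rw [Nat.mem_divisorsAntidiagonal]
        refine ⟨?_, hm.ne'⟩
        simp only
        rw [h5, Nat.mul_div_cancel_left _ hl.pos]
        rw [h5, mul_assoc] at h3
        exact Nat.eq_of_mul_eq_mul_left hl.pos h3
      · intro z hz
        simp only [Nat.mul_div_cancel_left _ hl.pos]
      · intro z hz
        rw [Finset.mem_filter] at hz
        simp only
        rw [Nat.mul_div_cancel' hz.2]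
      · intro z hz
        simp only
        rw [h1.mul]
        ring
    have e2 : ∑ z ∈ (l * m).divisorsAntidiagonal with l ∣ z.2, c1 z.1 * c2 z.2 =
        c2 l * ∑ z ∈ m.divisorsAntidiagonal, c1 z.1 * c2 z.2 := by
      rw [Finset.mul_sum]
      symm
      refine Finset.sum_nbij' (fun z => (z.1, l * z.2)) (fun z => (z.1, z.2 / l)) ?_ ?_ ?_ ?_ ?_
      · intro z hz
        rw [Nat.mem_divisorsAntidiagonal] at hz
        rw [Finset.mem_filter, Nat.mem_divisorsAntidiagonal]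
        exact ⟨⟨by rw [← hz.1]; ring, hlm⟩, dvd_mul_right _ _⟩
      · intro z hz
        rw [Finset.mem_filter, Nat.mem_divisorsAntidiagonal] at hz
        obtain ⟨⟨h3, -⟩, h4, h5⟩ := hz
        rw [Nat.mem_divisorsAntidiagonal]
        refine ⟨?_, hm.ne'⟩
        simp only
        rw [h5, Nat.mul_div_cancel_left _ hl.pos]
        rw [h5] at h3
        have h6 : l * (z.1 * h4) = l * m := by rw [← h3]; ring
        exact Nat.eq_of_mul_eq_mul_left hl.pos h6
      · intro z hz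
        simp only [Nat.mul_div_cancel_left _ hl.pos]
      · intro z hz
        rw [Finset.mem_filter] at hz
        simp only
        rw [Nat.mul_div_cancel' hz.2]
      · intro z hz
        simp only
        rw [h2.mul]
        ring
    have e3 : ∑ z ∈ (l * m).divisorsAntidiagonal with (l ∣ z.1 ∧ l ∣ z.2), c1 z.1 * c2 z.2 =
        c1 l * c2 l * (if l ∣ m then ∑ z ∈ (m / l).divisorsAntidiagonal, c1 z.1 * c2 z.2 else 0) := by
      split_ifs with hd
      · obtain ⟨k, rfl⟩ := hd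
        rw [Nat.mul_div_cancel_left _ hl.pos]
        have hk : k ≠ 0 := by
          rintro rfl
          simp at hm
        rw [Finset.mul_sum]
        symm
        refine Finset.sum_nbij' (fun z => (l * z.1, l * z.2)) (fun z => (z.1 / l, z.2 / l)) ?_ ?_ ?_ ?_ ?_
        · intro z hz
          rw [Nat.mem_divisorsAntidiagonal] at hz
          rw [Finset.mem_filter, Nat.mem_divisorsAntidiagonal]
          exact ⟨⟨by rw [← hz.1]; ring, hlm⟩, dvd_mul_right _ _, dvd_mul_right _ _⟩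
        · intro z hz
          rw [Finset.mem_filter, Nat.mem_divisorsAntidiagonal] at hz
          obtain ⟨⟨h3, -⟩, ⟨u, h4⟩, v, h5⟩ := hz
          rw [Nat.mem_divisorsAntidiagonal]
          refine ⟨?_, hk⟩
          simp only
          rw [h4, h5, Nat.mul_div_cancel_left _ hl.pos, Nat.mul_div_cancel_left _ hl.pos]
          rw [h4, h5] at h3
          have h6 : l * (l * (u * v)) = l * (l * k) := by rw [← h3]; ring
          exact Nat.eq_of_mul_eq_mul_left hl.pos (Nat.eq_of_mul_eq_mul_left hl.pos h6)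
        · intro z hz
          simp only [Nat.mul_div_cancel_left _ hl.pos]
        · intro z hz
          rw [Finset.mem_filter] at hz
          simp only
          rw [Nat.mul_div_cancel' hz.2.1, Nat.mul_div_cancel' hz.2.2]
        · intro z hz
          simp only
          rw [h1.mul, h2.mul]
          ring
      · rw [mul_zero]
        refine Finset.sum_eq_zero fun z hz => ?_
        exfalso
        rw [Finset.mem_filter, Nat.mem_divisorsAntidiagonal] at hz
        obtain ⟨⟨h3, -⟩, ⟨u, h4⟩, v, h5⟩ := hz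
        apply hd
        rw [h4, h5] at h3
        have h6 : l * (l * (u * v)) = l * m := by rw [← h3]; ring
        exact ⟨u * v, (Nat.eq_of_mul_eq_mul_left hl.pos h6).symm⟩
    rw [e1, e2, e3]
    ring
  · intro z hz
    rw [Nat.mem_divisorsAntidiagonal] at hz
    exact (hl.dvd_mul).mp ⟨m, hz.1⟩

/-! ### the recursion for `AX` -/

theorem mem_rep (n : ℕ) (z : ℤ × ℤ) : z ∈ rep n ↔ z.1 ^ 2 + z.2 ^ 2 = (n : ℤ) := by
  unfold rep
  rw [Finset.mem_filter, Finset.mem_product, Finset.mem_Icc, Finset.mem_Icc]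
  refine ⟨fun h => h.2, fun h => ⟨?_, h⟩⟩
  have h1 : |z.1| ≤ z.1 ^ 2 := by
    rw [← sq_abs z.1]
    rcases (abs_nonneg z.1).eq_or_lt with h0 | h0
    · rw [← h0]; norm_num
    · nlinarith
  have h2 : |z.2| ≤ z.2 ^ 2 := by
    rw [← sq_abs z.2]
    rcases (abs_nonneg z.2).eq_or_lt with h0 | h0
    · rw [← h0]; norm_num
    · nlinarith
  have h3 : |z.1| ≤ n := by nlinarith [sq_nonneg z.2]
  have h4 : |z.2| ≤ n := by nlinarith [sq_nonneg z.1]
  exact ⟨abs_le.mp h3, abs_le.mp h4⟩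

/-- the representations by elements of `S` -/
noncomputable def rs (n : ℕ) : Finset (ℤ × ℤ) := (rep n).filter fun z => Odd z.1 ∧ Even z.2

theorem mem_rs (n : ℕ) (z : ℤ × ℤ) :
    z ∈ rs n ↔ z.1 ^ 2 + z.2 ^ 2 = (n : ℤ) ∧ Odd z.1 ∧ Even z.2 := by
  unfold rs
  rw [Finset.mem_filter, mem_rep]

theorem AX_rs {χ : ℤ → ℤ → ℂ} (h : GC0 χ) (n : ℕ) : AX χ n = 1 / 2 * ∑ z ∈ rs n, χ z.1 z.2 := by
  unfold AX rs
  congr 1
  rw [Finset.sum_filter]
  refine Finset.sum_congr rfl fun z _ => ?_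
  split_ifs with hz
  · rfl
  · exact h.supp _ _ hz

theorem rs_even {n : ℕ} (hn : Even n) : rs n = ∅ := by
  refine Finset.eq_empty_of_forall_notMem fun z hz => ?_
  rw [mem_rs] at hz
  obtain ⟨h1, h2, h3⟩ := hz
  have h4 : Odd (z.1 ^ 2 + z.2 ^ 2) := (h2.pow).add_even (h3.pow_of_ne_zero (by norm_num))
  rw [h1] at h4
  have h5 : Even (n : ℤ) := by exact_mod_cast hn
  exact (Int.not_even_iff_odd.mpr h4) h5

theorem AX_one {χ : ℤ → ℤ → ℂ} (h : GC0 χ) : AX χ 1 = 1 := by
  rw [AX_rs h]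
  have e : rs 1 = {(1, 0), (-1, 0)} := by
    ext z
    rw [mem_rs, Finset.mem_insert, Finset.mem_singleton, Prod.ext_iff, Prod.ext_iff]
    constructor
    · rintro ⟨h1, h2, h3⟩
      push_cast at h1
      have h4 : z.2 = 0 := by
        by_contra hne
        have h5 : 0 < z.2 ^ 2 := by positivity
        have h6 : z.1 ≠ 0 := by
          intro h0
          rw [h0] at h2
          exact absurd h2 (by decide)
        have h7 : 0 < z.1 ^ 2 := by positivity
        omega
      rw [h4] at h1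
      have h8 : z.1 ^ 2 = 1 := by simpa using h1
      have h10 : (z.1 - 1) * (z.1 + 1) = 0 := by linear_combination h8
      rcases mul_eq_zero.mp h10 with h9 | h9
      · exact Or.inl ⟨by linarith, h4⟩
      · exact Or.inr ⟨by linarith, h4⟩
    · rintro (⟨h1, h2⟩ | ⟨h1, h2⟩)
      · rw [h1, h2]; exact ⟨by norm_num, by decide, by decide⟩
      · rw [h1, h2]; exact ⟨by norm_num, by decide, by decide⟩
  rw [e, Finset.sum_pair (by decide)]
  have := h.neg 1 0
  rw [neg_zero] at this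
  simp only
  rw [this, h.one]
  norm_num

theorem AX_two {χ : ℤ → ℤ → ℂ} (h : GC0 χ) (m : ℕ) : AX χ (2 * m) = 0 := by
  rw [AX_rs h, rs_even (even_two_mul m)]
  simp

theorem odd_prime {l : ℕ} (hl : l % 2 = 1) : Odd (l : ℤ) := by
  have : Odd l := Nat.odd_iff.mpr hl
  exact_mod_cast this

theorem odd_of_mul {a b : ℤ} (h : Odd (a * b)) : Odd b := (Int.odd_mul.mp h).2

theorem even_of_mul {a b : ℤ} (ha : Odd a) (h : Even (a * b)) : Even b := by
  rcases Int.even_mul.mp h with h1 | h1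
  · exact absurd h1 (Int.not_even_iff_odd.mpr ha)
  · exact h1

theorem AX_three {χ : ℤ → ℤ → ℂ} (h : GC0 χ) {l : ℕ} (hl : l.Prime) (h3 : l % 4 = 3) (m : ℕ) :
    AX χ (l * m) = χ (l : ℤ) 0 * (if l ∣ m then AX χ (m / l) else 0) := by
  have hodd : Odd (l : ℤ) := odd_prime (by omega)
  have hl0 : (l : ℤ) ≠ 0 := by exact_mod_cast hl.ne_zero
  have hdiv : ∀ z : ℤ × ℤ, z ∈ rs (l * m) → (l : ℤ) ∣ z.1 ∧ (l : ℤ) ∣ z.2 := by
    intro z hz
    rw [mem_rs] at hz
    haveI : Fact l.Prime := ⟨hl⟩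
    have h4 : ((z.1 : ZMod l)) ^ 2 + (z.2 : ZMod l) ^ 2 = 0 := by
      have := congrArg (fun t : ℤ => (t : ZMod l)) hz.1
      push_cast at this
      rw [this]
      simp
    have h5 : (z.2 : ZMod l) = 0 := by
      by_contra hne
      have h6 : IsSquare (-1 : ZMod l) := by
        refine ⟨(z.1 : ZMod l) / (z.2 : ZMod l), ?_⟩
        field_simp
        linear_combination -h4
      exact (ZMod.exists_sq_eq_neg_one_iff.mp h6) h3
    have h7 : (z.1 : ZMod l) = 0 := by
      rw [h5] at h4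
      have : (z.1 : ZMod l) ^ 2 = 0 := by simpa using h4
      exact pow_eq_zero_iff (two_ne_zero) |>.mp this
    exact ⟨(ZMod.intCast_zmod_eq_zero_iff_dvd _ _).mp h7, (ZMod.intCast_zmod_eq_zero_iff_dvd _ _).mp h5⟩
  rw [AX_rs h]
  split_ifs with hd
  · obtain ⟨k, rfl⟩ := hd
    rw [Nat.mul_div_cancel_left _ hl.pos, AX_rs h]
    have e0 : χ (l : ℤ) 0 * (1 / 2 * ∑ z ∈ rs k, χ z.1 z.2) = 1 / 2 * (χ (l : ℤ) 0 * ∑ z ∈ rs k, χ z.1 z.2) := by
      ring
    rw [e0, Finset.mul_sum (rs k)]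
    congr 1
    symm
    refine Finset.sum_nbij' (fun z => ((l : ℤ) * z.1, (l : ℤ) * z.2)) (fun z => (z.1 / (l : ℤ), z.2 / (l : ℤ))) ?_ ?_ ?_ ?_ ?_
    · intro z hz
      rw [mem_rs] at hz ⊢
      refine ⟨?_, hodd.mul hz.2.1, hz.2.2.mul_left _⟩
      push_cast
      linear_combination (l : ℤ) ^ 2 * hz.1
    · intro z hz
      obtain ⟨⟨u, hu⟩, v, hv⟩ := hdiv z hz
      rw [mem_rs] at hz ⊢
      simp only
      rw [hu, hv, Int.mul_ediv_cancel_left _ hl0, Int.mul_ediv_cancel_left _ hl0]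
      obtain ⟨h6, h7, h8⟩ := hz
      rw [hu] at h6 h7
      rw [hv] at h6 h8
      refine ⟨?_, odd_of_mul h7, even_of_mul hodd h8⟩
      push_cast at h6
      have h9 : (l : ℤ) * (l * (u ^ 2 + v ^ 2)) = l * (l * k) := by linear_combination h6
      exact mul_left_cancel₀ hl0 (mul_left_cancel₀ hl0 h9)
    · intro z hz
      simp only
      rw [Int.mul_ediv_cancel_left _ hl0, Int.mul_ediv_cancel_left _ hl0]
    · intro z hz
      obtain ⟨h6, h7⟩ := hdiv z hz
      simp only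
      rw [Int.mul_ediv_cancel' h6, Int.mul_ediv_cancel' h7]
    · intro z hz
      rw [mem_rs] at hz
      simp only
      have := h.mul (l : ℤ) 0 z.1 z.2 hodd (by decide) hz.2.1 hz.2.2
      rw [← this]
      congr 1 <;> ring
  · rw [mul_zero]
    have : rs (l * m) = ∅ := by
      refine Finset.eq_empty_of_forall_notMem fun z hz => ?_
      obtain ⟨⟨u, hu⟩, v, hv⟩ := hdiv z hz
      rw [mem_rs, hu, hv] at hz
      apply hd
      have h6 := hz.1
      push_cast at h6
      have h9 : (l : ℤ) * (l * (u ^ 2 + v ^ 2)) = l * m := by linear_combination h6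
      have h10 := mul_left_cancel₀ hl0 h9
      have : (l : ℤ) ∣ (m : ℤ) := ⟨_, h10.symm⟩
      exact_mod_cast this
    rw [this]
    simp

/-- `α` is divisible by `a + b i` -/
def Dv (l : ℕ) (a b : ℤ) (z : ℤ × ℤ) : Prop := (l : ℤ) ∣ a * z.1 + b * z.2 ∧ (l : ℤ) ∣ a * z.2 - b * z.1

theorem sum_Dv {χ : ℤ → ℤ → ℂ} (h : GC0 χ) {l : ℕ} (hl : l.Prime) (a b : ℤ) (ha : Odd a) (hb : Even b)
    (hab : a ^ 2 + b ^ 2 = (l : ℤ)) (m : ℕ) [DecidablePred (Dv l a b)] :
    ∑ z ∈ rs (l * m) with Dv l a b z, χ z.1 z.2 = χ a b * ∑ z ∈ rs m, χ z.1 z.2 := by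
  have hl0 : (l : ℤ) ≠ 0 := by exact_mod_cast hl.ne_zero
  have hodd : Odd (l : ℤ) := by
    rw [← hab]
    exact (ha.pow).add_even (hb.pow_of_ne_zero (by norm_num))
  rw [Finset.mul_sum]
  symm
  refine Finset.sum_nbij' (fun z => (a * z.1 - b * z.2, a * z.2 + b * z.1))
    (fun z => ((a * z.1 + b * z.2) / (l : ℤ), (a * z.2 - b * z.1) / (l : ℤ))) ?_ ?_ ?_ ?_ ?_
  · intro z hz
    rw [mem_rs] at hz
    rw [Finset.mem_filter, mem_rs]
    refine ⟨⟨?_, ?_, ?_⟩, ⟨z.1, ?_⟩, ⟨z.2, ?_⟩⟩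
    · push_cast
      rw [← hab, ← hz.1]
      ring
    · exact (ha.mul hz.2.1).sub_even (hb.mul_right _)
    · exact (hz.2.2.mul_left _).add (hb.mul_right _)
    · simp only
      rw [← hab]; ring
    · simp only
      rw [← hab]; ring
  · intro z hz
    rw [Finset.mem_filter, mem_rs] at hz
    obtain ⟨⟨h1, h2, h3⟩, ⟨u, hu⟩, v, hv⟩ := hz
    rw [mem_rs]
    simp only
    rw [hu, hv, Int.mul_ediv_cancel_left _ hl0, Int.mul_ediv_cancel_left _ hl0]
    refine ⟨?_, ?_, ?_⟩
    · push_cast at h1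
      have h9 : (l : ℤ) * (l * (u ^ 2 + v ^ 2)) = l * (l * m) := by
        have : (l : ℤ) * (l * (u ^ 2 + v ^ 2)) = (l * u) ^ 2 + (l * v) ^ 2 := by ring
        rw [this, ← hu, ← hv, ← h1]
        have : (a * z.1 + b * z.2) ^ 2 + (a * z.2 - b * z.1) ^ 2 = (a ^ 2 + b ^ 2) * (z.1 ^ 2 + z.2 ^ 2) := by
          ring
        rw [this, hab]
      exact mul_left_cancel₀ hl0 (mul_left_cancel₀ hl0 h9)
    · have : Odd ((l : ℤ) * u) := by
        rw [← hu]
        exact (ha.mul h2).add_even (hb.mul_right _)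
      exact odd_of_mul this
    · have : Even ((l : ℤ) * v) := by
        rw [← hv]
        exact (h3.mul_left _).sub (hb.mul_right _)
      exact even_of_mul hodd this
  · intro z hz
    simp only
    have e1 : a * (a * z.1 - b * z.2) + b * (a * z.2 + b * z.1) = l * z.1 := by
      rw [← hab]; ring
    have e2 : a * (a * z.2 + b * z.1) - b * (a * z.1 - b * z.2) = l * z.2 := by
      rw [← hab]; ring
    rw [e1, e2, Int.mul_ediv_cancel_left _ hl0, Int.mul_ediv_cancel_left _ hl0]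
  · intro z hz
    rw [Finset.mem_filter, mem_rs] at hz
    obtain ⟨⟨h1, h2, h3⟩, ⟨u, hu⟩, v, hv⟩ := hz
    simp only
    rw [hu, hv, Int.mul_ediv_cancel_left _ hl0, Int.mul_ediv_cancel_left _ hl0]
    have e1 : (l : ℤ) * (a * u - b * v) = l * z.1 := by
      have : (l : ℤ) * (a * u - b * v) = a * (l * u) - b * (l * v) := by ring
      rw [this, ← hu, ← hv, ← hab]
      ring
    have e2 : (l : ℤ) * (a * v + b * u) = l * z.2 := by
      have : (l : ℤ) * (a * v + b * u) = a * (l * v) + b * (l * u) := by ring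
      rw [this, ← hu, ← hv, ← hab]
      ring
    rw [mul_left_cancel₀ hl0 e1, mul_left_cancel₀ hl0 e2]
  · intro z hz
    rw [mem_rs] at hz
    simp only
    exact (h.mul a b z.1 z.2 ha hb hz.2.1 hz.2.2).symm

theorem AX_split {χ : ℤ → ℤ → ℂ} (h : GC0 χ) {l : ℕ} (hl : l.Prime) (a b : ℤ) (ha : Odd a) (hb : Even b)
    (hab : a ^ 2 + b ^ 2 = (l : ℤ)) (m : ℕ) :
    AX χ (l * m) = (χ a b + χ a (-b)) * AX χ m - χ a b * χ a (-b) * (if l ∣ m then AX χ (m / l) else 0) := by
  classical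
  have hl0 : (l : ℤ) ≠ 0 := by exact_mod_cast hl.ne_zero
  have hp : Prime (l : ℤ) := Nat.prime_iff_prime_int.mp hl
  have hodd : Odd (l : ℤ) := by
    rw [← hab]
    exact (ha.pow).add_even (hb.pow_of_ne_zero (by norm_num))
  have hnb : Even (-b) := hb.neg
  have hab' : a ^ 2 + (-b) ^ 2 = (l : ℤ) := by rw [neg_sq]; exact hab
  have hla : ¬ (l : ℤ) ∣ a := by
    rintro ⟨u, hu⟩
    have h1 : (l : ℤ) ∣ b ^ 2 := ⟨1 - l * u ^ 2, by rw [hu] at hab; linear_combination hab⟩
    obtain ⟨v, hv⟩ := hp.dvd_of_dvd_pow h1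
    rw [hu, hv] at hab
    have h2 : (l : ℤ) * (l * (u ^ 2 + v ^ 2)) = l * 1 := by linear_combination hab
    have h3 := mul_left_cancel₀ hl0 h2
    exact hp.not_isUnit (isUnit_of_dvd_one ⟨_, h3.symm⟩)
  have hlb : ¬ (l : ℤ) ∣ b := by
    intro h1
    apply hla
    refine hp.dvd_of_dvd_pow (n := 2) ?_
    have : a ^ 2 = l - b ^ 2 := by linear_combination hab
    rw [this]
    exact dvd_sub (dvd_refl _) (dvd_pow h1 two_ne_zero)
  have hl2 : ¬ (l : ℤ) ∣ 2 := by
    intro h1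
    have h2 : Odd (2 : ℤ) := by
      obtain ⟨k, hk⟩ := h1
      have h3 : (l : ℤ) = 1 ∨ (l : ℤ) = 2 := by
        have h4 : (l : ℤ) ≤ 2 := Int.le_of_dvd (by norm_num) ⟨k, hk⟩
        have h5 : (0 : ℤ) < l := by exact_mod_cast hl.pos
        omega
      rcases h3 with h3 | h3
      · exact absurd (by exact_mod_cast h3) hl.one_lt.ne'
      · rw [← h3]; exact hodd
    exact absurd h2 (by decide)
  have hboth : ∀ z : ℤ × ℤ, (Dv l a b z ∧ Dv l a (-b) z) ↔ ((l : ℤ) ∣ z.1 ∧ (l : ℤ) ∣ z.2) := by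
    intro z
    unfold Dv
    constructor
    · rintro ⟨⟨h1, h2⟩, h3, h4⟩
      constructor
      · have h5 : (l : ℤ) ∣ 2 * (a * z.1) := by
          have := dvd_add h1 h3
          have e : a * z.1 + b * z.2 + (a * z.1 + -b * z.2) = 2 * (a * z.1) := by ring
          rwa [e] at this
        rcases hp.dvd_or_dvd h5 with h6 | h6
        · exact absurd h6 hl2
        · rcases hp.dvd_or_dvd h6 with h7 | h7
          · exact absurd h7 hla
          · exact h7
      · have h5 : (l : ℤ) ∣ 2 * (a * z.2) := by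
          have := dvd_add h2 h4
          have e : a * z.2 - b * z.1 + (a * z.2 - -b * z.1) = 2 * (a * z.2) := by ring
          rwa [e] at this
        rcases hp.dvd_or_dvd h5 with h6 | h6
        · exact absurd h6 hl2
        · rcases hp.dvd_or_dvd h6 with h7 | h7
          · exact absurd h7 hla
          · exact h7
    · rintro ⟨h1, h2⟩
      exact ⟨⟨dvd_add (h1.mul_left _) (h2.mul_left _), dvd_sub (h2.mul_left _) (h1.mul_left _)⟩,
        dvd_add (h1.mul_left _) (h2.mul_left _), dvd_sub (h2.mul_left _) (h1.mul_left _)⟩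
  have hcov : ∀ z ∈ rs (l * m), Dv l a b z ∨ Dv l a (-b) z := by
    intro z hz
    rw [mem_rs] at hz
    have h0 : (l : ℤ) ∣ z.1 ^ 2 + z.2 ^ 2 := ⟨m, by rw [hz.1]; push_cast; ring⟩
    have h1 : (l : ℤ) ∣ (a * z.1 + b * z.2) * (a * z.1 - b * z.2) := by
      have e : (a * z.1 + b * z.2) * (a * z.1 - b * z.2) =
          (a ^ 2 + b ^ 2) * z.1 ^ 2 - b ^ 2 * (z.1 ^ 2 + z.2 ^ 2) := by ring
      rw [e, hab]
      exact dvd_sub (dvd_mul_right _ _) (h0.mul_left _)
    have key : ∀ c : ℤ, (l : ℤ) = a ^ 2 + c ^ 2 → ¬ (l : ℤ) ∣ a → (l : ℤ) ∣ a * z.1 + c * z.2 →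
        (l : ℤ) ∣ a * z.2 - c * z.1 := by
      intro c hc hna h2
      -- a * (a z2 - c z1) = (a^2 + c^2) z2 - c (a z1 + c z2)
      have h3 : (l : ℤ) ∣ a * (a * z.2 - c * z.1) := by
        have e : a * (a * z.2 - c * z.1) = (a ^ 2 + c ^ 2) * z.2 - c * (a * z.1 + c * z.2) := by ring
        rw [e, ← hc]
        exact dvd_sub (dvd_mul_right _ _) (h2.mul_left _)
      rcases hp.dvd_or_dvd h3 with h4 | h4
      · exact absurd h4 hna
      · exact h4
    rcases hp.dvd_or_dvd h1 with h2 | h2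
    · exact Or.inl ⟨h2, key b hab.symm hla h2⟩
    · have h3 : (l : ℤ) ∣ a * z.1 + -b * z.2 := by
        have e : a * z.1 + -b * z.2 = a * z.1 - b * z.2 := by ring
        rw [e]; exact h2
      exact Or.inr ⟨h3, key (-b) hab'.symm hla h3⟩
  have hχ : χ (l : ℤ) 0 = χ a b * χ a (-b) := by
    rw [← h.mul a b a (-b) ha hb ha hnb]
    congr 1
    · rw [← hab]; ring
    · ring
  have hB : ∑ z ∈ rs (l * m) with (Dv l a b z ∧ Dv l a (-b) z), χ z.1 z.2 =
      χ a b * χ a (-b) * (if l ∣ m then ∑ z ∈ rs (m / l), χ z.1 z.2 else 0) := by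
    rw [← hχ]
    split_ifs with hd
    · obtain ⟨k, rfl⟩ := hd
      rw [Nat.mul_div_cancel_left _ hl.pos, Finset.mul_sum]
      symm
      refine Finset.sum_nbij' (fun z => ((l : ℤ) * z.1, (l : ℤ) * z.2)) (fun z => (z.1 / (l : ℤ), z.2 / (l : ℤ))) ?_ ?_ ?_ ?_ ?_
      · intro z hz
        rw [mem_rs] at hz
        rw [Finset.mem_filter, mem_rs, hboth]
        refine ⟨⟨?_, hodd.mul hz.2.1, hz.2.2.mul_left _⟩, dvd_mul_right _ _, dvd_mul_right _ _⟩
        push_cast
        linear_combination (l : ℤ) ^ 2 * hz.1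
      · intro z hz
        rw [Finset.mem_filter, mem_rs, hboth] at hz
        obtain ⟨⟨h6, h7, h8⟩, ⟨u, hu⟩, v, hv⟩ := hz
        rw [mem_rs]
        simp only
        rw [hu, hv, Int.mul_ediv_cancel_left _ hl0, Int.mul_ediv_cancel_left _ hl0]
        rw [hu] at h6 h7
        rw [hv] at h6 h8
        refine ⟨?_, odd_of_mul h7, even_of_mul hodd h8⟩
        push_cast at h6
        have h9 : (l : ℤ) * (l * (u ^ 2 + v ^ 2)) = l * (l * k) := by linear_combination h6
        exact mul_left_cancel₀ hl0 (mul_left_cancel₀ hl0 h9)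
      · intro z hz
        simp only
        rw [Int.mul_ediv_cancel_left _ hl0, Int.mul_ediv_cancel_left _ hl0]
      · intro z hz
        rw [Finset.mem_filter, hboth] at hz
        simp only
        rw [Int.mul_ediv_cancel' hz.2.1, Int.mul_ediv_cancel' hz.2.2]
      · intro z hz
        rw [mem_rs] at hz
        simp only
        have := h.mul (l : ℤ) 0 z.1 z.2 hodd (by decide) hz.2.1 hz.2.2
        rw [← this]
        congr 1 <;> ring
    · rw [mul_zero]
      refine Finset.sum_eq_zero fun z hz => ?_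
      exfalso
      rw [Finset.mem_filter, mem_rs, hboth] at hz
      obtain ⟨⟨h6, h7, h8⟩, ⟨u, hu⟩, v, hv⟩ := hz
      rw [hu, hv] at h6
      apply hd
      push_cast at h6
      have h9 : (l : ℤ) * (l * (u ^ 2 + v ^ 2)) = l * m := by linear_combination h6
      have h10 := mul_left_cancel₀ hl0 h9
      have : (l : ℤ) ∣ (m : ℤ) := ⟨_, h10.symm⟩
      exact_mod_cast this
  rw [AX_rs h, sum_cover (rs (l * m)) (Dv l a b) (Dv l a (-b)) _ hcov, sum_Dv h hl a b ha hb hab m,
    sum_Dv h hl a (-b) ha hnb hab' m, hB, AX_rs h m]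
  split_ifs with hd
  · rw [AX_rs h (m / l)]
    ring
  · ring

theorem norm_le {χ : ℤ → ℤ → ℂ} (h : GC0 χ) (a b : ℤ) : ‖χ a b‖ ≤ 1 := by
  rcases h.val a b with h1 | h1
  · rw [h1]; simp
  · exact (Complex.norm_eq_one_of_pow_eq_one h1 (by norm_num)).le

theorem prime_data {χ : ℤ → ℤ → ℂ} (h : GC0 χ) (l : ℕ) : ∃ c c' : ℂ, l.Prime → (‖c‖ ≤ 1 ∧ ‖c'‖ ≤ 1 ∧
    (l = 2 → c = 0 ∧ c' = 0) ∧ (l % 4 = 3 → c' = -c ∧ c ^ 2 = χ (l : ℤ) 0) ∧
    (l % 4 = 1 → ∃ a b : ℤ, Odd a ∧ Even b ∧ a ^ 2 + b ^ 2 = (l : ℤ) ∧ c = χ a b ∧ c' = (starRingEnd ℂ) (χ a b)) ∧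
    ∀ m : ℕ, AX χ (l * m) = (c + c') * AX χ m - c * c' * (if l ∣ m then AX χ (m / l) else 0)) := by
  by_cases hl : l.Prime
  swap
  · exact ⟨0, 0, fun h => absurd h hl⟩
  rcases hl.eq_two_or_odd with h2 | h2
  · refine ⟨0, 0, fun _ => ⟨by simp, by simp, fun _ => ⟨rfl, rfl⟩, fun h3 => ?_, fun h3 => ?_, fun m => ?_⟩⟩
    · omega
    · omega
    · rw [h2, AX_two h]; ring
  · have h4 : l % 4 = 1 ∨ l % 4 = 3 := by omega
    rcases h4 with h4 | h4
    · haveI : Fact l.Prime := ⟨hl⟩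
      obtain ⟨a, b, hab⟩ := Nat.Prime.sq_add_sq (p := l) (by omega)
      have hz : ∃ a b : ℤ, Odd a ∧ Even b ∧ a ^ 2 + b ^ 2 = (l : ℤ) := by
        have hab' : (a : ℤ) ^ 2 + (b : ℤ) ^ 2 = (l : ℤ) := by exact_mod_cast hab
        have hodd : Odd (l : ℤ) := odd_prime h2
        rcases Int.even_or_odd (a : ℤ) with ha | ha
        · rcases Int.even_or_odd (b : ℤ) with hb | hb
          · exfalso
            have : Even ((a : ℤ) ^ 2 + (b : ℤ) ^ 2) :=
              (ha.pow_of_ne_zero (by norm_num)).add (hb.pow_of_ne_zero (by norm_num))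
            rw [hab'] at this
            exact (Int.not_even_iff_odd.mpr hodd) this
          · exact ⟨b, a, hb, ha, by rw [add_comm]; exact hab'⟩
        · rcases Int.even_or_odd (b : ℤ) with hb | hb
          · exact ⟨a, b, ha, hb, hab'⟩
          · exfalso
            have : Even ((a : ℤ) ^ 2 + (b : ℤ) ^ 2) := (ha.pow).add_odd (hb.pow)
            rw [hab'] at this
            exact (Int.not_even_iff_odd.mpr hodd) this
      obtain ⟨a, b, ha, hb, hab⟩ := hz
      refine ⟨χ a b, χ a (-b), fun _ => ⟨norm_le h _ _, norm_le h _ _, fun h5 => ?_, fun h5 => ?_, fun _ =>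
        ⟨a, b, ha, hb, hab, rfl, h.conj a b⟩, fun m => AX_split h hl a b ha hb hab m⟩⟩
      · omega
      · omega
    · obtain ⟨c, hc⟩ := IsAlgClosed.exists_pow_nat_eq (χ (l : ℤ) 0) (n := 2) (by norm_num)
      have hn : ‖c‖ ≤ 1 := by
        have h5 : ‖c‖ ^ 2 ≤ 1 := by
          rw [← norm_pow, hc]
          exact norm_le h _ _
        nlinarith [norm_nonneg c]
      refine ⟨c, -c, fun _ => ⟨hn, by rw [norm_neg]; exact hn, fun h5 => ?_, fun _ => ⟨rfl, hc⟩, fun h5 => ?_, fun m => ?_⟩⟩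
      · omega
      · omega
      · rw [AX_three h hl h4, ← hc]
        ring

end QConv

open QConv in
theorem exists_fac {χ : ℤ → ℤ → ℂ} (h : GC0 χ) : ∃ c1 c2 : ℕ → ℂ, Fac χ c1 c2 := by
  choose f1 f2 hf using prime_data h
  have h1 : CM (ext f1) := ext_cm f1 fun l hl => (hf l hl).1
  have h2 : CM (ext f2) := ext_cm f2 fun l hl => (hf l hl).2.1
  refine ⟨ext f1, ext f2, h1, h2, ?_, ?_, ?_, ?_⟩
  · intro n hn
    rw [gg_eq]
    induction n using Nat.strong_induction_on with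
    | _ n ih =>
      rcases Nat.lt_or_ge 1 n with h3 | h3
      · set l := n.minFac with hldef
        have hl : l.Prime := Nat.minFac_prime h3.ne'
        obtain ⟨m, hm⟩ := Nat.minFac_dvd n
        rw [← hldef] at hm
        have hm0 : 0 < m := by
          rcases Nat.eq_zero_or_pos m with h4 | h4
          · rw [h4] at hm; omega
          · exact h4
        have hmn : m < n := by
          rw [hm]
          exact (Nat.lt_mul_iff_one_lt_left hm0).mpr hl.one_lt
        obtain ⟨-, -, -, -, -, hrec⟩ := hf l hl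
        rw [hm, hrec m, gg_rec _ _ h1 h2 hl m hm0, ext_prime f1 hl, ext_prime f2 hl, ih m hmn hm0]
        congr 2
        split_ifs with hd
        · refine ih _ ((Nat.div_le_self _ _).trans_lt hmn) ?_
          exact Nat.div_pos (Nat.le_of_dvd hm0 hd) hl.pos
        · rfl
      · have h4 : n = 1 := by omega
        rw [h4, AX_one h]
        unfold gg
        simp [h1.one, h2.one]
  · have h3 := (hf 2 Nat.prime_two).2.2.1 rfl
    rw [ext_prime f1 Nat.prime_two, ext_prime f2 Nat.prime_two]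
    exact h3
  · intro l hl h3
    rw [ext_prime f1 hl, ext_prime f2 hl]
    exact (hf l hl).2.2.2.1 h3
  · intro l hl h3
    rw [ext_prime f1 hl, ext_prime f2 hl]
    exact (hf l hl).2.2.2.2.1 h3

end Pool.SG
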