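import Pool.Agent.Lib.MP_a51fee_ag.SG.QT

/-!
# Characters on the Gaussian integers `a + b i`, `a` odd, `b` even: definitions (board SG)
-/

set_option autoImplicit false

open Finset

namespace Pool.SG

/-- completely multiplicative on `S = {a + b i | a odd, b even}`, `0` outside `S` -/
structure GC0 (χ : ℤ → ℤ → ℂ) : Prop where
  supp : ∀ a b, ¬ (Odd a ∧ Even b) → χ a b = 0
  mul : ∀ a b c d, Odd a → Even b → Odd c → Even d →
    χ (a * c - b * d) (a * d + b * c) = χ a b * χ c d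
  neg : ∀ a b, χ (-a) (-b) = χ a b
  conj : ∀ a b, χ a (-b) = (starRingEnd ℂ) (χ a b)
  val : ∀ a b, χ a b = 0 ∨ χ a b ^ 4 = 1
  one : χ 1 0 = 1

/-- in addition periodic with mean value zero -/
structure GC (χ : ℤ → ℤ → ℂ) (M : ℕ) : Prop extends GC0 χ where
  pos : 0 < M
  per : ∀ a b s t, χ (a + M * s) (b + M * t) = χ a b
  mean : ∑ a ∈ range M, ∑ b ∈ range M, χ a b = 0

/-- the representations of `n` as a sum of two squares -/
noncomputable def rep (n : ℕ) : Finset (ℤ × ℤ) :=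
  ((Icc (-(n : ℤ)) n) ×ˢ (Icc (-(n : ℤ)) n)).filter fun z => z.1 ^ 2 + z.2 ^ 2 = (n : ℤ)

/-- coefficients of the `L`-function of `χ` -/
noncomputable def AX (χ : ℤ → ℤ → ℂ) (n : ℕ) : ℂ := 1 / 2 * ∑ z ∈ rep n, χ z.1 z.2

/-- completely multiplicative, bounded by `1` -/
structure CM (c : ℕ → ℂ) : Prop where
  one : c 1 = 1
  mul : ∀ m n, c (m * n) = c m * c n
  le : ∀ n, ‖c n‖ ≤ 1

/-- the factorisation of the `L`-function -/
structure Fac (χ : ℤ → ℤ → ℂ) (c1 c2 : ℕ → ℂ) : Prop where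
  h1 : CM c1
  h2 : CM c2
  conv : ∀ n, 0 < n → AX χ n = ∑ d ∈ n.divisors, c1 d * c2 (n / d)
  two : c1 2 = 0 ∧ c2 2 = 0
  three : ∀ l : ℕ, l.Prime → l % 4 = 3 → c2 l = -c1 l ∧ c1 l ^ 2 = χ (l : ℤ) 0
  split : ∀ l : ℕ, l.Prime → l % 4 = 1 → ∃ a b : ℤ, Odd a ∧ Even b ∧ a ^ 2 + b ^ 2 = (l : ℤ) ∧
    c1 l = χ a b ∧ c2 l = (starRingEnd ℂ) (χ a b)

/-- the inverse of `c1 * c2` under Dirichlet convolution -/
noncomputable def BX (c1 c2 : ℕ → ℂ) (n : ℕ) : ℂ :=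
  ∑ d ∈ n.divisors, ((ArithmeticFunction.moebius d : ℤ) : ℂ) * c1 d *
    (((ArithmeticFunction.moebius (n / d) : ℤ) : ℂ) * c2 (n / d))

/-- the characters `psi η ^ j` -/
noncomputable def chj (p : ℕ) [Fact p.Prime] (j : ℕ) (a b : ℤ) : ℂ :=
  if Odd a ∧ Even b then psi p a b * (if b % 4 = 0 then 1 else (-1) ^ j) else 0

end Pool.SG
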