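import Pool.Agent.Lib.MP_a51fee_ag.SG.QD

/-!
# SG-QMer: Mertens' estimate

Let `A(n) = ∑_{d ∣ n} c1 d c2 (n/d)`, `c1, c2` completely multiplicative, `|c| ≤ 1`.
PROOF.  `A(n) log n = ∑_{d m = n} A(d) (c1 m + c2 m) Λ(m)`: for a completely multiplicative `c`,
`c(n) log n = ∑_{d m = n} c(d) c(m) Λ(m)` (`ArithmeticFunction.vonMangoldt_sum`), and
`log(d m) = log d + log m` is a derivation for Dirichlet convolution.  So
`∑_{n ≤ x} A(n) log n/n = ∑_{m ≤ x} (c1 m + c2 m) Λ(m)/m * ∑_{d ≤ x/m} A(d)/d`, and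
`∑_{d ≤ x/m} A(d)/d = L0 + O(√(m/x))` (`⌊x/m⌋ ≥ x/(2m)`).  The error is
`≤ C x^{-1/2} ∑_{m ≤ x} 2 Λ(m)/√m = O(1)` by Chebyshev (`∑_{m ≤ x} Λ(m) ≤ C x`, Mathlib `Chebyshev.psi`
bounds; Abel summation or dyadic blocks).
-/

set_option autoImplicit false

open Finset

namespace Pool.SG

/-- the arithmetic function of a sequence -/
noncomputable def qmAf (f : ℕ → ℂ) : ArithmeticFunction ℂ :=
  ⟨fun n => if n = 0 then 0 else f n, by simp⟩

theorem qmAf_apply (f : ℕ → ℂ) {n : ℕ} (hn : n ≠ 0) : qmAf f n = f n := by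
  simp [qmAf, hn]

/-- multiplication by the logarithm -/
noncomputable def qmLog (F : ArithmeticFunction ℂ) : ArithmeticFunction ℂ :=
  ⟨fun n => F n * (Real.log n : ℂ), by simp⟩

theorem qmLog_apply (F : ArithmeticFunction ℂ) (n : ℕ) : qmLog F n = F n * (Real.log n : ℂ) := rfl

/-- division by the identity -/
noncomputable def qmDiv (F : ArithmeticFunction ℂ) : ArithmeticFunction ℂ :=
  ⟨fun n => F n / (n : ℂ), by simp⟩

theorem qmDiv_apply (F : ArithmeticFunction ℂ) (n : ℕ) : qmDiv F n = F n / (n : ℂ) := rfl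

theorem qmLog_mul (F G : ArithmeticFunction ℂ) :
    qmLog (F * G) = qmLog F * G + F * qmLog G := by
  ext n
  rw [ArithmeticFunction.add_apply, qmLog_apply, ArithmeticFunction.mul_apply,
    ArithmeticFunction.mul_apply, ArithmeticFunction.mul_apply, Finset.sum_mul,
    ← Finset.sum_add_distrib]
  apply Finset.sum_congr rfl
  intro z hz
  have hz' := Nat.mem_divisorsAntidiagonal.mp hz
  have h1 : z.1 ≠ 0 := by
    intro h
    apply hz'.2
    rw [← hz'.1, h, zero_mul]
  have h2 : z.2 ≠ 0 := by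
    intro h
    apply hz'.2
    rw [← hz'.1, h, mul_zero]
  rw [qmLog_apply, qmLog_apply, ← hz'.1, Nat.cast_mul, Real.log_mul (by exact_mod_cast h1)
    (by exact_mod_cast h2)]
  push_cast
  ring

theorem qmDiv_mul (F G : ArithmeticFunction ℂ) : qmDiv (F * G) = qmDiv F * qmDiv G := by
  ext n
  rw [qmDiv_apply, ArithmeticFunction.mul_apply, ArithmeticFunction.mul_apply, Finset.sum_div]
  apply Finset.sum_congr rfl
  intro z hz
  have hz' := Nat.mem_divisorsAntidiagonal.mp hz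
  rw [qmDiv_apply, qmDiv_apply, ← hz'.1, Nat.cast_mul]
  rw [div_mul_div_comm]

theorem qmLog_cm {c : ℕ → ℂ} (hc : CM c) :
    qmLog (qmAf c) = qmAf c * qmAf (fun n => c n * (ArithmeticFunction.vonMangoldt n : ℂ)) := by
  ext n
  rw [qmLog_apply, ArithmeticFunction.mul_apply]
  rcases Nat.eq_zero_or_pos n with rfl | hn
  · simp
  have h1 : ∀ z ∈ n.divisorsAntidiagonal, qmAf c z.1 *
      qmAf (fun n => c n * (ArithmeticFunction.vonMangoldt n : ℂ)) z.2 =
      c n * (ArithmeticFunction.vonMangoldt z.2 : ℂ) := by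
    intro z hz
    have hz' := Nat.mem_divisorsAntidiagonal.mp hz
    have h1 : z.1 ≠ 0 := by
      intro h
      apply hz'.2
      rw [← hz'.1, h, zero_mul]
    have h2 : z.2 ≠ 0 := by
      intro h
      apply hz'.2
      rw [← hz'.1, h, mul_zero]
    rw [qmAf_apply _ h1, qmAf_apply _ h2, ← hz'.1, hc.mul]
    ring
  rw [Finset.sum_congr rfl h1, ← Finset.mul_sum, qmAf_apply _ hn.ne']
  congr 1
  rw [Nat.sum_divisorsAntidiagonal' (fun _ b => (ArithmeticFunction.vonMangoldt b : ℂ))]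
  rw [← ArithmeticFunction.vonMangoldt_sum]
  push_cast
  rfl

theorem qm_sqrt_sum (x : ℕ) : ∑ n ∈ Icc 1 x, 1 / Real.sqrt n ≤ 2 * Real.sqrt x := by
  induction x with
  | zero => simp
  | succ x ih =>
    rw [Finset.sum_Icc_succ_top (by omega)]
    push_cast
    have hx : (0 : ℝ) ≤ x := Nat.cast_nonneg x
    set a := Real.sqrt x with ha
    set b := Real.sqrt ((x : ℝ) + 1) with hb
    have ha0 : 0 ≤ a := Real.sqrt_nonneg _
    have hb0 : 0 < b := Real.sqrt_pos.mpr (by linarith)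
    have ha2 : a ^ 2 = x := Real.sq_sqrt hx
    have hb2 : b ^ 2 = (x : ℝ) + 1 := Real.sq_sqrt (by linarith)
    have hab : a ≤ b := Real.sqrt_le_sqrt (by linarith)
    have h1 : 1 / b ≤ 2 * b - 2 * a := by
      rw [div_le_iff₀ hb0]
      nlinarith
    linarith

theorem qm_cheb : ∃ K : ℝ, 0 < K ∧ ∀ x : ℕ,
    ∑ n ∈ Icc 1 x, ArithmeticFunction.vonMangoldt n / Real.sqrt n ≤ K * Real.sqrt x := by
  set K : ℝ := Real.log 4 + 4 with hK
  have hK0 : 0 < K := by
    have : 0 < Real.log 4 := Real.log_pos (by norm_num)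
    linarith
  have hpsi : ∀ x : ℕ, ∑ n ∈ Icc 1 x, ArithmeticFunction.vonMangoldt n ≤ K * x := by
    intro x
    have h1 := Chebyshev.psi_le_const_mul_self (x := (x : ℝ)) (Nat.cast_nonneg x)
    unfold Chebyshev.psi at h1
    rw [Nat.floor_natCast] at h1
    exact h1
  have key : ∀ x : ℕ, ∑ n ∈ Icc 1 x, (K - ArithmeticFunction.vonMangoldt n) * (1 / Real.sqrt n) =
      (∑ n ∈ Icc 1 x, (K - ArithmeticFunction.vonMangoldt n)) * (1 / Real.sqrt ((x : ℝ) + 1)) +
      ∑ n ∈ Icc 1 x, (∑ k ∈ Icc 1 n, (K - ArithmeticFunction.vonMangoldt k)) *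
        (1 / Real.sqrt n - 1 / Real.sqrt ((n : ℝ) + 1)) := by
    intro x
    induction x with
    | zero => simp
    | succ y ih =>
      rw [Finset.sum_Icc_succ_top (by omega), ih, Finset.sum_Icc_succ_top (by omega),
        Finset.sum_Icc_succ_top (by omega), Finset.sum_Icc_succ_top (by omega)]
      push_cast
      ring
  have hpos : ∀ x : ℕ, 0 ≤ ∑ n ∈ Icc 1 x, (K - ArithmeticFunction.vonMangoldt n) := by
    intro x
    rw [Finset.sum_sub_distrib]
    simp only [Finset.sum_const, Nat.card_Icc, add_tsub_cancel_right, nsmul_eq_mul]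
    have := hpsi x
    linarith
  refine ⟨2 * K, by positivity, ?_⟩
  intro x
  have h1 : 0 ≤ ∑ n ∈ Icc 1 x, (K - ArithmeticFunction.vonMangoldt n) * (1 / Real.sqrt n) := by
    rw [key x]
    apply add_nonneg
    · exact mul_nonneg (hpos x) (by positivity)
    · apply Finset.sum_nonneg
      intro n hn
      rw [Finset.mem_Icc] at hn
      apply mul_nonneg (hpos n)
      rw [sub_nonneg]
      have hn0 : (0 : ℝ) < n := by exact_mod_cast hn.1
      apply one_div_le_one_div_of_le (Real.sqrt_pos.mpr hn0)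
      exact Real.sqrt_le_sqrt (by linarith)
  have h2 : ∑ n ∈ Icc 1 x, (K - ArithmeticFunction.vonMangoldt n) * (1 / Real.sqrt n) =
      K * ∑ n ∈ Icc 1 x, 1 / Real.sqrt n -
        ∑ n ∈ Icc 1 x, ArithmeticFunction.vonMangoldt n / Real.sqrt n := by
    rw [Finset.mul_sum, ← Finset.sum_sub_distrib]
    apply Finset.sum_congr rfl
    intro n _
    ring
  have h3 := mul_le_mul_of_nonneg_left (qm_sqrt_sum x) hK0.le
  linarith

theorem qm_floor (x m : ℕ) (hm : 1 ≤ m) (hmx : m ≤ x) :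
    1 / Real.sqrt ((x / m : ℕ) : ℝ) ≤ Real.sqrt 2 * Real.sqrt m / Real.sqrt x := by
  have hq : 1 ≤ x / m := (Nat.one_le_div_iff (by omega)).mpr hmx
  have h1 : x < m * (x / m + 1) := by
    have := Nat.div_add_mod x m
    have h2 := Nat.mod_lt x (show m > 0 by omega)
    nlinarith
  have h2 : x ≤ 2 * m * (x / m) := by
    have : m * (x / m + 1) ≤ 2 * m * (x / m) := by nlinarith
    omega
  have h2' : (x : ℝ) ≤ 2 * m * ((x / m : ℕ) : ℝ) := by exact_mod_cast h2
  have hq' : (0 : ℝ) < ((x / m : ℕ) : ℝ) := by exact_mod_cast hq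
  have hx0 : (0 : ℝ) < x := by
    have : 0 < x := by omega
    exact_mod_cast this
  rw [div_le_div_iff₀ (Real.sqrt_pos.mpr hq') (Real.sqrt_pos.mpr hx0), one_mul,
    ← Real.sqrt_mul (by norm_num), ← Real.sqrt_mul (by positivity)]
  exact Real.sqrt_le_sqrt h2'

theorem mer_main {c1 c2 : ℕ → ℂ} (h1 : CM c1) (h2 : CM c2) (L0 : ℂ) (C : ℝ)
    (hL : ∀ y : ℕ, 1 ≤ y →
      ‖∑ n ∈ Icc 1 y, (∑ d ∈ n.divisors, c1 d * c2 (n / d)) / n - L0‖ ≤ C / Real.sqrt y)
    (hlog : ∀ y : ℕ, ‖∑ n ∈ Icc 1 y, (∑ d ∈ n.divisors, c1 d * c2 (n / d)) * Real.log n / n‖ ≤ C) :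
    ∃ C' : ℝ, 0 < C' ∧ ∀ x : ℕ,
      ‖L0 * ∑ n ∈ Icc 1 x, (c1 n + c2 n) * (ArithmeticFunction.vonMangoldt n : ℂ) / n‖ ≤ C' := by
  have hC : 0 ≤ C := by
    have := (norm_nonneg _).trans (hL 1 le_rfl)
    simpa using this
  obtain ⟨K, hK0, hK⟩ := qm_cheb
  set A : ArithmeticFunction ℂ := qmAf c1 * qmAf c2 with hA
  set G : ArithmeticFunction ℂ := qmAf (fun n => c1 n * (ArithmeticFunction.vonMangoldt n : ℂ)) +
    qmAf (fun n => c2 n * (ArithmeticFunction.vonMangoldt n : ℂ)) with hG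
  have hAn : ∀ n : ℕ, n ≠ 0 → A n = ∑ d ∈ n.divisors, c1 d * c2 (n / d) := by
    intro n hn
    rw [hA, ArithmeticFunction.mul_apply, ← Nat.sum_divisorsAntidiagonal (fun a b => c1 a * c2 b)]
    apply Finset.sum_congr rfl
    intro z hz
    have hz' := Nat.mem_divisorsAntidiagonal.mp hz
    have h1 : z.1 ≠ 0 := by
      intro h
      apply hz'.2
      rw [← hz'.1, h, zero_mul]
    have h2 : z.2 ≠ 0 := by
      intro h
      apply hz'.2
      rw [← hz'.1, h, mul_zero]
    rw [qmAf_apply _ h1, qmAf_apply _ h2]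
  have hGn : ∀ n : ℕ, n ≠ 0 → G n = (c1 n + c2 n) * (ArithmeticFunction.vonMangoldt n : ℂ) := by
    intro n hn
    rw [hG, ArithmeticFunction.add_apply, qmAf_apply _ hn, qmAf_apply _ hn]
    ring
  have hlogA : qmLog A = G * A := by
    rw [hA, qmLog_mul, qmLog_cm h1, qmLog_cm h2, hG]
    ring
  have hdiv : qmDiv (qmLog A) = qmDiv G * qmDiv A := by
    rw [hlogA, qmDiv_mul]
  have hIcc : ∀ x : ℕ, Ioc 0 x = Icc 1 x := fun x => rfl
  have hmain : ∀ x : ℕ, ∑ n ∈ Icc 1 x, (∑ d ∈ n.divisors, c1 d * c2 (n / d)) * Real.log n / n =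
      ∑ m ∈ Icc 1 x, G m / m * ∑ d ∈ Icc 1 (x / m), A d / d := by
    intro x
    have h3 := ArithmeticFunction.sum_Ioc_mul_eq_sum_sum (qmDiv G) (qmDiv A) x
    rw [← hdiv] at h3
    simp only [hIcc, qmDiv_apply, qmLog_apply] at h3
    rw [← h3]
    apply Finset.sum_congr rfl
    intro n hn
    rw [Finset.mem_Icc] at hn
    rw [hAn n (by omega)]
  have hLy : ∀ y : ℕ, 1 ≤ y → ‖∑ d ∈ Icc 1 y, A d / d - L0‖ ≤ C / Real.sqrt y := by
    intro y hy
    have h3 : ∑ d ∈ Icc 1 y, A d / d =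
        ∑ n ∈ Icc 1 y, (∑ d ∈ n.divisors, c1 d * c2 (n / d)) / n := by
      apply Finset.sum_congr rfl
      intro n hn
      rw [Finset.mem_Icc] at hn
      rw [hAn n (by omega)]
    rw [h3]
    exact hL y hy
  refine ⟨C + 2 * Real.sqrt 2 * C * K + 1, by positivity, ?_⟩
  intro x
  rcases Nat.eq_zero_or_pos x with rfl | hx
  · simp only [show Icc 1 0 = (∅ : Finset ℕ) from rfl, Finset.sum_empty, mul_zero, norm_zero]
    positivity
  have hx0 : (0 : ℝ) < x := by exact_mod_cast hx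
  have hsx : 0 < Real.sqrt x := Real.sqrt_pos.mpr hx0
  have e1 : L0 * ∑ n ∈ Icc 1 x, (c1 n + c2 n) * (ArithmeticFunction.vonMangoldt n : ℂ) / n =
      ∑ n ∈ Icc 1 x, (∑ d ∈ n.divisors, c1 d * c2 (n / d)) * Real.log n / n -
      ∑ m ∈ Icc 1 x, G m / m * (∑ d ∈ Icc 1 (x / m), A d / d - L0) := by
    rw [hmain x, ← Finset.sum_sub_distrib, Finset.mul_sum]
    apply Finset.sum_congr rfl
    intro n hn
    rw [Finset.mem_Icc] at hn
    rw [hGn n (by omega)]
    ring
  have hGb : ∀ m : ℕ, m ≠ 0 → ‖G m‖ ≤ 2 * ArithmeticFunction.vonMangoldt m := by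
    intro m hm
    rw [hGn m hm, norm_mul, Complex.norm_real, Real.norm_eq_abs,
      abs_of_nonneg ArithmeticFunction.vonMangoldt_nonneg]
    apply mul_le_mul_of_nonneg_right _ ArithmeticFunction.vonMangoldt_nonneg
    calc ‖c1 m + c2 m‖ ≤ ‖c1 m‖ + ‖c2 m‖ := norm_add_le _ _
      _ ≤ 1 + 1 := add_le_add (h1.le m) (h2.le m)
      _ = 2 := by norm_num
  have e2 : ‖∑ m ∈ Icc 1 x, G m / m * (∑ d ∈ Icc 1 (x / m), A d / d - L0)‖ ≤
      2 * Real.sqrt 2 * C * K := by
    calc ‖∑ m ∈ Icc 1 x, G m / m * (∑ d ∈ Icc 1 (x / m), A d / d - L0)‖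
        ≤ ∑ m ∈ Icc 1 x, ‖G m / m * (∑ d ∈ Icc 1 (x / m), A d / d - L0)‖ := norm_sum_le _ _
      _ ≤ ∑ m ∈ Icc 1 x, (2 * Real.sqrt 2 * C / Real.sqrt x) *
            (ArithmeticFunction.vonMangoldt m / Real.sqrt m) := by
          apply Finset.sum_le_sum
          intro m hm
          rw [Finset.mem_Icc] at hm
          have hm0 : (0 : ℝ) < m := by
            have : 0 < m := by omega
            exact_mod_cast this
          have hsm : 0 < Real.sqrt m := Real.sqrt_pos.mpr hm0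
          have hq : 1 ≤ x / m := (Nat.one_le_div_iff (by omega)).mpr hm.2
          have b1 := hLy (x / m) hq
          have b2 : C / Real.sqrt ((x / m : ℕ) : ℝ) ≤
              C * (Real.sqrt 2 * Real.sqrt m / Real.sqrt x) := by
            have := mul_le_mul_of_nonneg_left (qm_floor x m hm.1 hm.2) hC
            rwa [mul_one_div] at this
          have b3 := hGb m (by omega)
          rw [norm_mul, norm_div, Complex.norm_natCast]
          calc ‖G m‖ / m * ‖∑ d ∈ Icc 1 (x / m), A d / d - L0‖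
              ≤ (2 * ArithmeticFunction.vonMangoldt m) / m *
                (C * (Real.sqrt 2 * Real.sqrt m / Real.sqrt x)) := by
                apply mul_le_mul (div_le_div_of_nonneg_right b3 hm0.le) (b1.trans b2)
                  (norm_nonneg _)
                have : 0 ≤ ArithmeticFunction.vonMangoldt m := ArithmeticFunction.vonMangoldt_nonneg
                positivity
            _ = (2 * Real.sqrt 2 * C / Real.sqrt x) *
                (ArithmeticFunction.vonMangoldt m * (Real.sqrt m / m)) := by ring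
            _ = _ := by
                congr 2
                have : (m : ℝ) = Real.sqrt m * Real.sqrt m := (Real.mul_self_sqrt hm0.le).symm
                conv_lhs => rw [this, Real.sqrt_mul_self hsm.le]
                rw [div_mul_eq_div_div, div_self hsm.ne', one_div]
      _ = (2 * Real.sqrt 2 * C / Real.sqrt x) *
            ∑ m ∈ Icc 1 x, ArithmeticFunction.vonMangoldt m / Real.sqrt m := by
          rw [Finset.mul_sum]
      _ ≤ (2 * Real.sqrt 2 * C / Real.sqrt x) * (K * Real.sqrt x) :=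
          mul_le_mul_of_nonneg_left (hK x) (by positivity)
      _ = 2 * Real.sqrt 2 * C * K := by
          field_simp
  rw [e1]
  calc _ ≤ ‖∑ n ∈ Icc 1 x, (∑ d ∈ n.divisors, c1 d * c2 (n / d)) * Real.log n / n‖ +
        ‖∑ m ∈ Icc 1 x, G m / m * (∑ d ∈ Icc 1 (x / m), A d / d - L0)‖ := norm_sub_le _ _
    _ ≤ C + 2 * Real.sqrt 2 * C * K := add_le_add (hlog x) e2
    _ ≤ _ := by linarith

end Pool.SG
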