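import Pool.Agent.Lib.MP_a51fee_ag.SG.QD

/-!
# SG-QPrim: reduction to primes `l ≡ 1 mod 4`

PROOF.  `∑_{n ≤ x} (c1 n + c2 n) Λ(n)/n`: the prime powers `l^k`, `k ≥ 2`, contribute at most
`2 ∑_l log l/(l (l-1)) < ∞`; the primes `l ≡ 3 mod 4` contribute `0` (`c1 l + c2 l = 0`), `l = 2` contributes `0`.
For `l ≡ 1 mod 4`: `c1 l + c2 l = 2 Re (c1 l)` (`c2 l = conj (c1 l)` by `split`).
-/

set_option autoImplicit false

open Finset

namespace Pool.SG

private theorem summ_np_qprim :
    Summable fun n : ℕ => (if n.Prime then 0 else ArithmeticFunction.vonMangoldt n) / (n : ℝ) := by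
  have h := ArithmeticFunction.vonMangoldt.summable_residueClass_non_primes_div (q := 1) (a := 0)
  refine h.congr fun n => ?_
  have h1 : ArithmeticFunction.vonMangoldt.residueClass (q := 1) 0 n = ArithmeticFunction.vonMangoldt n := by
    unfold ArithmeticFunction.vonMangoldt.residueClass
    rw [Set.indicator_of_mem]
    exact Subsingleton.elim _ _
  rw [h1]

theorem prim_red {χ : ℤ → ℤ → ℂ} {c1 c2 : ℕ → ℂ} (h : Fac χ c1 c2) :
    ∃ C : ℝ, 0 < C ∧ ∀ x : ℕ,
      ‖∑ n ∈ Icc 1 x, (c1 n + c2 n) * (ArithmeticFunction.vonMangoldt n : ℂ) / n -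
        ((∑ l ∈ (Icc 1 x).filter (fun l => l.Prime ∧ l % 4 = 1),
          2 * (c1 l).re * Real.log l / l : ℝ) : ℂ)‖ ≤ C := by
  have hs := summ_np_qprim
  have hnn : ∀ n : ℕ, 0 ≤ (if n.Prime then 0 else ArithmeticFunction.vonMangoldt n) / (n : ℝ) := by
    intro n
    split_ifs
    · simp
    · exact div_nonneg ArithmeticFunction.vonMangoldt_nonneg (Nat.cast_nonneg n)
  refine ⟨2 * (∑' n : ℕ, (if n.Prime then 0 else ArithmeticFunction.vonMangoldt n) / (n : ℝ)) + 1, ?_, ?_⟩
  · have h0 : 0 ≤ ∑' n : ℕ, (if n.Prime then 0 else ArithmeticFunction.vonMangoldt n) / (n : ℝ) := tsum_nonneg hnn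
    linarith
  intro x
  have h1 : ((∑ l ∈ (Icc 1 x).filter (fun l => l.Prime ∧ l % 4 = 1),
      2 * (c1 l).re * Real.log l / l : ℝ) : ℂ) =
      ∑ n ∈ Icc 1 x, (if n.Prime then (c1 n + c2 n) * (ArithmeticFunction.vonMangoldt n : ℂ) / n else 0) := by
    rw [Finset.sum_filter, Complex.ofReal_sum]
    refine Finset.sum_congr rfl fun n _ => ?_
    by_cases hp : n.Prime
    · rw [if_pos hp]
      have h4 : n % 4 = 1 ∨ n % 4 = 3 ∨ n = 2 := by
        rcases hp.eq_two_or_odd with h5 | h5
        · right; right; exact h5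
        · omega
      rcases h4 with h4 | h4 | h4
      · rw [if_pos ⟨hp, h4⟩]
        obtain ⟨a, b, _, _, _, h5, h6⟩ := h.split n hp h4
        have h7 : c1 n + c2 n = ((2 * (c1 n).re : ℝ) : ℂ) := by
          rw [h6, ← h5, Complex.add_conj]
          try push_cast
          try ring
        rw [h7, ArithmeticFunction.vonMangoldt_apply_prime hp]
        push_cast
        ring
      · rw [if_neg (fun h5 => by omega)]
        obtain ⟨h5, _⟩ := h.three n hp h4
        rw [h5]
        simp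
      · subst h4
        rw [if_neg (fun h5 => by omega), h.two.1, h.two.2]
        simp
    · rw [if_neg hp, if_neg (fun h5 => hp h5.1)]
      simp
  rw [h1, ← Finset.sum_sub_distrib]
  have h2 : ∀ n ∈ Icc 1 x, ‖(c1 n + c2 n) * (ArithmeticFunction.vonMangoldt n : ℂ) / n -
      (if n.Prime then (c1 n + c2 n) * (ArithmeticFunction.vonMangoldt n : ℂ) / n else 0)‖ ≤
      2 * ((if n.Prime then 0 else ArithmeticFunction.vonMangoldt n) / (n : ℝ)) := by
    intro n _
    by_cases hp : n.Prime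
    · rw [if_pos hp, if_pos hp, sub_self, norm_zero]
      simp
    · rw [if_neg hp, if_neg hp, sub_zero, norm_div, norm_mul, Complex.norm_natCast, Complex.norm_real,
        Real.norm_of_nonneg ArithmeticFunction.vonMangoldt_nonneg, mul_div_assoc]
      refine mul_le_mul_of_nonneg_right ?_ (div_nonneg ArithmeticFunction.vonMangoldt_nonneg (Nat.cast_nonneg n))
      have h3 := norm_add_le (c1 n) (c2 n)
      have h4 := h.h1.le n
      have h5 := h.h2.le n
      linarith
  have h3 := Finset.sum_le_sum h2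
  have h4 : ∑ n ∈ Icc 1 x, (2 : ℝ) * ((if n.Prime then 0 else ArithmeticFunction.vonMangoldt n) / (n : ℝ)) ≤
      2 * (∑' n : ℕ, (if n.Prime then 0 else ArithmeticFunction.vonMangoldt n) / (n : ℝ)) := by
    rw [← Finset.mul_sum]
    have := hs.sum_le_tsum (Icc 1 x) (fun n _ => hnn n)
    linarith
  have h5 := norm_sum_le (Icc 1 x) (fun n : ℕ => (c1 n + c2 n) * (ArithmeticFunction.vonMangoldt n : ℂ) / n -
      (if n.Prime then (c1 n + c2 n) * (ArithmeticFunction.vonMangoldt n : ℂ) / n else 0))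
  linarith

end Pool.SG
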