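import Pool.Agent.Lib.MP_a51fee_ag.SG.QMer

/-!
# SG-QZero: the case `L0 = 0`

`A = c1 * c2`, `B = BX c1 c2`: `A * B = 1` (Dirichlet convolution; `c * μ c = 1` for completely
multiplicative `c`).  `A * (B log) = - (c1 + c2) Λ`: from `A log = A * ((c1 + c2) Λ)` and
`0 = (A * B) log = (A log) * B + A * (B log)`.
PROOF.  For `x ≥ 1`: `∑_{n ≤ x} (1/n) ∑_{d m = n} A(d) B(m) log(x/m) = log x + ∑_{n≤x} (c1 n + c2 n) Λ(n)/n`.
The left side is `∑_{m ≤ x} (B(m)/m) log(x/m) ∑_{d ≤ x/m} A(d)/d`, and the inner sum is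
`O(√(m/x))` as `L0 = 0`.  So it is `≤ C x^{-1/2} ∑_{m ≤ x} |B(m)| log(x/m)/√m = O(1)`: by `hB` and Abel
summation (or dyadically: `x/2^{i+1} < m ≤ x/2^i`: `|B|` sum `≤ C x/2^i`, `log(x/m) ≤ i + 1`, `1/√m ≤ √(2^{i+1}/x)`:
total `∑_i (i+1) 2^{-i/2} C`).
-/

set_option autoImplicit false

open Finset

namespace Pool.SG

private theorem qz_abel (b w : ℕ → ℝ) {C : ℝ} (hw0 : ∀ n, 0 ≤ w n)
    (hw : ∀ n, 1 ≤ n → w (n + 1) ≤ w n) (hb : ∀ x : ℕ, ∑ n ∈ Icc 1 x, b n ≤ C * x) (x : ℕ) :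
    ∑ n ∈ Icc 1 x, b n * w n ≤ C * ∑ n ∈ Icc 1 x, w n := by
  have key : ∀ x : ℕ, ∑ n ∈ Icc 1 x, (C - b n) * w n =
      (∑ n ∈ Icc 1 x, (C - b n)) * w (x + 1) +
      ∑ n ∈ Icc 1 x, (∑ k ∈ Icc 1 n, (C - b k)) * (w n - w (n + 1)) := by
    intro x
    induction x with
    | zero => simp
    | succ y ih =>
      rw [Finset.sum_Icc_succ_top (by omega), ih, Finset.sum_Icc_succ_top (by omega),
        Finset.sum_Icc_succ_top (by omega), Finset.sum_Icc_succ_top (by omega)]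
      ring
  have hpos : ∀ x : ℕ, 0 ≤ ∑ n ∈ Icc 1 x, (C - b n) := by
    intro x
    rw [Finset.sum_sub_distrib]
    simp only [Finset.sum_const, Nat.card_Icc, add_tsub_cancel_right, nsmul_eq_mul]
    have := hb x
    linarith
  have h1 : 0 ≤ ∑ n ∈ Icc 1 x, (C - b n) * w n := by
    rw [key x]
    refine add_nonneg (mul_nonneg (hpos x) (hw0 _)) (Finset.sum_nonneg fun n hn => ?_)
    rw [Finset.mem_Icc] at hn
    exact mul_nonneg (hpos n) (sub_nonneg.2 (hw n hn.1))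
  have h2 : ∑ n ∈ Icc 1 x, (C - b n) * w n =
      C * ∑ n ∈ Icc 1 x, w n - ∑ n ∈ Icc 1 x, b n * w n := by
    rw [Finset.mul_sum, ← Finset.sum_sub_distrib]
    exact Finset.sum_congr rfl fun n _ => by ring
  linarith

/-- the fourth root -/
private noncomputable def qzt (n : ℕ) : ℝ := Real.sqrt (Real.sqrt n)

private theorem qzt_sq (n : ℕ) : qzt n ^ 2 = Real.sqrt n := Real.sq_sqrt (Real.sqrt_nonneg _)

private theorem qzt_four (n : ℕ) : qzt n ^ 4 = n := by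
  rw [show qzt n ^ 4 = (qzt n ^ 2) ^ 2 by ring, qzt_sq, Real.sq_sqrt (Nat.cast_nonneg n)]

private theorem qzt_nonneg (n : ℕ) : 0 ≤ qzt n := Real.sqrt_nonneg _

private theorem qzt_pos {n : ℕ} (hn : 0 < n) : 0 < qzt n :=
  Real.sqrt_pos.2 (Real.sqrt_pos.2 (Nat.cast_pos.2 hn))

private theorem qzt_mono {m n : ℕ} (h : m ≤ n) : qzt m ≤ qzt n :=
  Real.sqrt_le_sqrt (Real.sqrt_le_sqrt (Nat.cast_le.2 h))

private theorem qz_sum (x : ℕ) : ∑ n ∈ Icc 1 x, 1 / qzt n ^ 3 ≤ 4 * qzt x := by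
  induction x with
  | zero => simp [qzt]
  | succ x ih =>
    rw [Finset.sum_Icc_succ_top (by omega)]
    obtain ⟨a, ha⟩ : ∃ a : ℝ, a = qzt x := ⟨_, rfl⟩
    obtain ⟨b, hb⟩ : ∃ b : ℝ, b = qzt (x + 1) := ⟨_, rfl⟩
    have ha0 : 0 ≤ a := ha ▸ qzt_nonneg x
    have hb0 : 0 < b := hb ▸ qzt_pos (Nat.succ_pos x)
    have hab : a ≤ b := by
      rw [ha, hb]
      exact qzt_mono (Nat.le_succ x)
    have h4 : b ^ 4 = a ^ 4 + 1 := by
      rw [ha, hb, qzt_four, qzt_four]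
      push_cast
      ring
    rw [← ha] at ih
    rw [← hb]
    have h1 : 1 / b ^ 3 ≤ 4 * b - 4 * a := by
      rw [div_le_iff₀ (by positivity)]
      have h5 : (b - a) * (b ^ 3 + b ^ 2 * a + b * a ^ 2 + a ^ 3) = 1 := by
        have : (b - a) * (b ^ 3 + b ^ 2 * a + b * a ^ 2 + a ^ 3) = b ^ 4 - a ^ 4 := by ring
        rw [this, h4]
        ring
      have h6 : b ^ 2 * a ≤ b ^ 3 := by
        calc b ^ 2 * a ≤ b ^ 2 * b := mul_le_mul_of_nonneg_left hab (by positivity)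
          _ = b ^ 3 := by ring
      have h7 : b * a ^ 2 ≤ b ^ 3 := by
        calc b * a ^ 2 ≤ b * b ^ 2 :=
              mul_le_mul_of_nonneg_left (pow_le_pow_left₀ ha0 hab 2) hb0.le
          _ = b ^ 3 := by ring
      have h8 : a ^ 3 ≤ b ^ 3 := pow_le_pow_left₀ ha0 hab 3
      calc (1 : ℝ) = (b - a) * (b ^ 3 + b ^ 2 * a + b * a ^ 2 + a ^ 3) := h5.symm
        _ ≤ (b - a) * (4 * b ^ 3) :=
          mul_le_mul_of_nonneg_left (by linarith) (sub_nonneg.2 hab)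
        _ = (4 * b - 4 * a) * b ^ 3 := by ring
    linarith

private theorem qz_log {x n : ℕ} (hn : 0 < n) (hx : n ≤ x) :
    Real.log x - Real.log n ≤ 4 * (qzt x / qzt n) := by
  have h1 : 0 < qzt n := qzt_pos hn
  have h2 : 0 < qzt x := qzt_pos (hn.trans_le hx)
  have h3 : Real.log x = 4 * Real.log (qzt x) := by
    rw [← qzt_four x, Real.log_pow]
    push_cast
    rfl
  have h4 : Real.log n = 4 * Real.log (qzt n) := by
    rw [← qzt_four n, Real.log_pow]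
    push_cast
    rfl
  have h5 := Real.log_le_sub_one_of_pos (div_pos h2 h1)
  rw [Real.log_div h2.ne' h1.ne'] at h5
  rw [h3, h4]
  linarith

private theorem qz_ne {n : ℕ} {z : ℕ × ℕ} (hz : z ∈ n.divisorsAntidiagonal) :
    z.1 ≠ 0 ∧ z.2 ≠ 0 := by
  have hz' := Nat.mem_divisorsAntidiagonal.mp hz
  constructor
  · intro h
    apply hz'.2
    rw [← hz'.1, h, zero_mul]
  · intro h
    apply hz'.2
    rw [← hz'.1, h, mul_zero]

private theorem qz_inv {c : ℕ → ℂ} (hc : CM c) :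
    qmAf c * qmAf (fun n => ((ArithmeticFunction.moebius n : ℤ) : ℂ) * c n) = 1 := by
  ext n
  rw [ArithmeticFunction.mul_apply]
  rcases Nat.eq_zero_or_pos n with rfl | hn
  · simp
  have h1 : ∀ z ∈ n.divisorsAntidiagonal, qmAf c z.1 *
      qmAf (fun n => ((ArithmeticFunction.moebius n : ℤ) : ℂ) * c n) z.2 =
      c n * ((ArithmeticFunction.moebius z.2 : ℤ) : ℂ) := by
    intro z hz
    have hz' := Nat.mem_divisorsAntidiagonal.mp hz
    obtain ⟨h1, h2⟩ := qz_ne hz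
    rw [qmAf_apply _ h1, qmAf_apply _ h2, ← hz'.1, hc.mul]
    ring
  rw [Finset.sum_congr rfl h1, ← Finset.mul_sum,
    Nat.sum_divisorsAntidiagonal' (fun _ b => ((ArithmeticFunction.moebius b : ℤ) : ℂ)),
    ← Int.cast_sum]
  have h2 : ∑ i ∈ n.divisors, ArithmeticFunction.moebius i =
      (1 : ArithmeticFunction ℤ) n := by
    rw [← ArithmeticFunction.moebius_mul_coe_zeta, ArithmeticFunction.coe_mul_zeta_apply]
  rw [h2, ArithmeticFunction.one_apply, ArithmeticFunction.one_apply]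
  split_ifs with h3
  · rw [h3, hc.one]
    simp
  · simp

private theorem qz_mul (f g : ℕ → ℂ) {n : ℕ} (_hn : n ≠ 0) :
    (qmAf f * qmAf g) n = ∑ d ∈ n.divisors, f d * g (n / d) := by
  rw [ArithmeticFunction.mul_apply, ← Nat.sum_divisorsAntidiagonal (fun a b => f a * g b)]
  refine Finset.sum_congr rfl fun z hz => ?_
  obtain ⟨h1, h2⟩ := qz_ne hz
  rw [qmAf_apply _ h1, qmAf_apply _ h2]

theorem mer_zero {c1 c2 : ℕ → ℂ} (h1 : CM c1) (h2 : CM c2) (C : ℝ)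
    (hL : ∀ y : ℕ, 1 ≤ y →
      ‖∑ n ∈ Icc 1 y, (∑ d ∈ n.divisors, c1 d * c2 (n / d)) / n‖ ≤ C / Real.sqrt y)
    (hB : ∀ x : ℕ, ∑ n ∈ Icc 1 x, ‖BX c1 c2 n‖ ≤ C * x) :
    ∃ C' : ℝ, 0 < C' ∧ ∀ x : ℕ, 1 ≤ x →
      ‖∑ n ∈ Icc 1 x, (c1 n + c2 n) * (ArithmeticFunction.vonMangoldt n : ℂ) / n +
        Real.log x‖ ≤ C' := by
  have hC : 0 ≤ C := by
    have := (norm_nonneg _).trans (hL 1 le_rfl)
    simpa using this
  obtain ⟨A, hA⟩ : ∃ A : ArithmeticFunction ℂ, A = qmAf c1 * qmAf c2 := ⟨_, rfl⟩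
  obtain ⟨D, hD⟩ : ∃ D : ArithmeticFunction ℂ,
      D = qmAf (fun n => ((ArithmeticFunction.moebius n : ℤ) : ℂ) * c1 n) *
        qmAf (fun n => ((ArithmeticFunction.moebius n : ℤ) : ℂ) * c2 n) := ⟨_, rfl⟩
  obtain ⟨G, hG⟩ : ∃ G : ArithmeticFunction ℂ,
      G = qmAf (fun n => c1 n * (ArithmeticFunction.vonMangoldt n : ℂ)) +
        qmAf (fun n => c2 n * (ArithmeticFunction.vonMangoldt n : ℂ)) := ⟨_, rfl⟩
  have hAn : ∀ n : ℕ, n ≠ 0 → A n = ∑ d ∈ n.divisors, c1 d * c2 (n / d) := by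
    intro n hn
    rw [hA, qz_mul _ _ hn]
  have hDn : ∀ n : ℕ, n ≠ 0 → D n = BX c1 c2 n := by
    intro n hn
    rw [hD, qz_mul _ _ hn]
    rfl
  have hGn : ∀ n : ℕ, n ≠ 0 → G n = (c1 n + c2 n) * (ArithmeticFunction.vonMangoldt n : ℂ) := by
    intro n hn
    rw [hG, ArithmeticFunction.add_apply, qmAf_apply _ hn, qmAf_apply _ hn]
    ring
  have hDA : D * A = 1 := by
    have e1 := qz_inv h1
    have e2 := qz_inv h2
    rw [hA, hD]
    calc _ = (qmAf c1 * qmAf (fun n => ((ArithmeticFunction.moebius n : ℤ) : ℂ) * c1 n)) *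
          (qmAf c2 * qmAf (fun n => ((ArithmeticFunction.moebius n : ℤ) : ℂ) * c2 n)) := by ring
      _ = 1 := by rw [e1, e2, one_mul]
  have hlogA : qmLog A = G * A := by
    rw [hA, qmLog_mul, qmLog_cm h1, qmLog_cm h2, hG]
    ring
  have hlog1 : qmLog (1 : ArithmeticFunction ℂ) = 0 := by
    ext n
    rw [qmLog_apply, ArithmeticFunction.one_apply]
    split_ifs with h
    · rw [h]
      simp
    · simp
  have hlogD : qmLog D * A = -G := by
    have e1 := qmLog_mul D A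
    rw [hDA, hlog1, hlogA] at e1
    have e2 : D * (G * A) = G := by
      calc D * (G * A) = G * (D * A) := by ring
        _ = G := by rw [hDA, mul_one]
    rw [e2] at e1
    exact (eq_neg_of_add_eq_zero_left e1.symm)
  have hIcc : ∀ x : ℕ, Ioc 0 x = Icc 1 x := fun x => rfl
  -- the two summations
  have hs1 : ∀ x : ℕ, 1 ≤ x → ∑ m ∈ Icc 1 x, D m / m * ∑ d ∈ Icc 1 (x / m), A d / d = 1 := by
    intro x hx
    have h3 := ArithmeticFunction.sum_Ioc_mul_eq_sum_sum (qmDiv D) (qmDiv A) x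
    rw [← qmDiv_mul, hDA] at h3
    simp only [hIcc, qmDiv_apply] at h3
    rw [← h3]
    rw [Finset.sum_eq_single 1]
    · simp
    · intro n _ hn
      rw [ArithmeticFunction.one_apply_ne hn, zero_div]
    · intro h
      exact absurd (Finset.mem_Icc.2 ⟨le_rfl, hx⟩) h
  have hs2 : ∀ x : ℕ, ∑ m ∈ Icc 1 x, D m * Real.log m / m * ∑ d ∈ Icc 1 (x / m), A d / d =
      -∑ n ∈ Icc 1 x, G n / n := by
    intro x
    have h3 := ArithmeticFunction.sum_Ioc_mul_eq_sum_sum (qmDiv (qmLog D)) (qmDiv A) x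
    rw [← qmDiv_mul, hlogD] at h3
    simp only [hIcc, qmDiv_apply, qmLog_apply] at h3
    rw [← h3, ← Finset.sum_neg_distrib]
    refine Finset.sum_congr rfl fun n _ => ?_
    rw [ArithmeticFunction.neg_apply, neg_div]
  have hLy : ∀ y : ℕ, 1 ≤ y → ‖∑ d ∈ Icc 1 y, A d / d‖ ≤ C / Real.sqrt y := by
    intro y hy
    have h3 : ∑ d ∈ Icc 1 y, A d / d =
        ∑ n ∈ Icc 1 y, (∑ d ∈ n.divisors, c1 d * c2 (n / d)) / n := by
      apply Finset.sum_congr rfl
      intro n hn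
      rw [Finset.mem_Icc] at hn
      rw [hAn n (by omega)]
    rw [h3]
    exact hL y hy
  refine ⟨16 * Real.sqrt 2 * C * C + 1, by positivity, ?_⟩
  intro x hx
  have hx0 : (0 : ℝ) < x := by exact_mod_cast hx
  have htx : 0 < qzt x := qzt_pos hx
  have e1 : ∑ n ∈ Icc 1 x, (c1 n + c2 n) * (ArithmeticFunction.vonMangoldt n : ℂ) / n +
      Real.log x = ∑ m ∈ Icc 1 x, (D m / m * ((Real.log x - Real.log m : ℝ) : ℂ)) *
        ∑ d ∈ Icc 1 (x / m), A d / d := by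
    have e2 : ∑ n ∈ Icc 1 x, (c1 n + c2 n) * (ArithmeticFunction.vonMangoldt n : ℂ) / n =
        ∑ n ∈ Icc 1 x, G n / n := by
      apply Finset.sum_congr rfl
      intro n hn
      rw [Finset.mem_Icc] at hn
      rw [hGn n (by omega)]
    have e3 : (Real.log x : ℂ) = Real.log x *
        ∑ m ∈ Icc 1 x, D m / m * ∑ d ∈ Icc 1 (x / m), A d / d := by
      rw [hs1 x hx, mul_one]
    have e4 := hs2 x
    rw [e2, e3, ← neg_neg (∑ n ∈ Icc 1 x, G n / n), ← e4, Finset.mul_sum, neg_add_eq_sub,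
      ← Finset.sum_sub_distrib]
    refine Finset.sum_congr rfl fun m _ => ?_
    push_cast
    ring
  rw [e1]
  have hterm : ∀ m ∈ Icc 1 x, ‖(D m / m * ((Real.log x - Real.log m : ℝ) : ℂ)) *
      ∑ d ∈ Icc 1 (x / m), A d / d‖ ≤
      (4 * Real.sqrt 2 * C / qzt x) * (‖BX c1 c2 m‖ * (1 / qzt m ^ 3)) := by
    intro m hm
    rw [Finset.mem_Icc] at hm
    have hm0 : (0 : ℝ) < m := by
      have : 0 < m := by omega
      exact_mod_cast this
    have htm : 0 < qzt m := qzt_pos (by omega)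
    have hq : 1 ≤ x / m := (Nat.one_le_div_iff (by omega)).mpr hm.2
    have b1 := hLy (x / m) hq
    have b2 : C / Real.sqrt ((x / m : ℕ) : ℝ) ≤
        C * (Real.sqrt 2 * Real.sqrt m / Real.sqrt x) := by
      have := mul_le_mul_of_nonneg_left (qm_floor x m hm.1 hm.2) hC
      rwa [mul_one_div] at this
    have b3 := qz_log (by omega : 0 < m) hm.2
    have b4 : 0 ≤ Real.log x - Real.log m :=
      sub_nonneg.2 (Real.log_le_log hm0 (Nat.cast_le.2 hm.2))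
    rw [norm_mul, norm_mul, norm_div, Complex.norm_natCast, Complex.norm_real,
      Real.norm_of_nonneg b4, hDn m (by omega)]
    calc ‖BX c1 c2 m‖ / m * (Real.log x - Real.log m) * ‖∑ d ∈ Icc 1 (x / m), A d / d‖ ≤
        ‖BX c1 c2 m‖ / m * (4 * (qzt x / qzt m)) *
          (C * (Real.sqrt 2 * Real.sqrt m / Real.sqrt x)) := by
          refine mul_le_mul (mul_le_mul_of_nonneg_left b3 (by positivity)) (b1.trans b2)
            (norm_nonneg _) (by positivity)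
      _ = _ := by
          rw [← qzt_sq m, ← qzt_sq x]
          conv_lhs => rw [← qzt_four m]
          field_simp
  refine (norm_sum_le_of_le _ hterm).trans ?_
  rw [← Finset.mul_sum]
  have f1 := qz_abel (fun n => ‖BX c1 c2 n‖) (fun n => 1 / qzt n ^ 3) (C := C)
    (fun n => by have := qzt_nonneg n; positivity) ?_ hB x
  · have f2 : C * ∑ n ∈ Icc 1 x, 1 / qzt n ^ 3 ≤ C * (4 * qzt x) :=
      mul_le_mul_of_nonneg_left (qz_sum x) hC
    calc (4 * Real.sqrt 2 * C / qzt x) * ∑ m ∈ Icc 1 x, ‖BX c1 c2 m‖ * (1 / qzt m ^ 3) ≤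
        (4 * Real.sqrt 2 * C / qzt x) * (C * (4 * qzt x)) :=
          mul_le_mul_of_nonneg_left (f1.trans f2) (by positivity)
      _ = 16 * Real.sqrt 2 * C * C := by
          field_simp
          ring
      _ ≤ _ := by linarith
  · intro n hn
    show 1 / qzt (n + 1) ^ 3 ≤ 1 / qzt n ^ 3
    have h3 : 0 < qzt n := qzt_pos (by omega)
    exact one_div_le_one_div_of_le (by positivity)
      (pow_le_pow_left₀ h3.le (qzt_mono (Nat.le_succ n)) 3)

end Pool.SG
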