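import Pool.Agent.Lib.MP_a51fee_ag.SG.QCh
import Pool.Agent.Lib.MP_a51fee_ag.SG.QLat
import Pool.Agent.Lib.MP_a51fee_ag.SG.QConv
import Pool.Agent.Lib.MP_a51fee_ag.SG.QAbel
import Pool.Agent.Lib.MP_a51fee_ag.SG.QMer
import Pool.Agent.Lib.MP_a51fee_ag.SG.QBnd
import Pool.Agent.Lib.MP_a51fee_ag.SG.QZero
import Pool.Agent.Lib.MP_a51fee_ag.SG.QPrim
import Pool.Agent.Lib.MP_a51fee_ag.SG.PAP

/-!
# SG-QNon: nonvanishing and the prime sum

`χ = chj p j`, `Fac χ c1 c2` (`exists_fac`), `A = AX χ = c1 * c2`, `L0` from `abel_half` and `lat_sum`.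
`P(x) := ∑_{l ≤ x, l ≡ 1 (4)} 2 Re (c1 l) log l / l`.
(1) `L0 ≠ 0`.  Suppose `L0 = 0`.  `mer_zero` (with `BX_sum`), `prim_red`: `P(x) = - log x + O(1)`.
 For `l ≡ 1 mod 4`, `l ≠ p`, `θ = c1 l = χ a b = ± psi a b`, `a^2 + b^2 = l`: `θ^4 = 1` and `θ^2 = (l / p)` (`psi_sq`, the factor
 `(±1)^2 = 1`); `1 + 2 Re θ + θ^2 ≥ 0` (values `4, 0, 0, 0` for `θ = 1, -1, ±i`).  So
 `0 ≤ ∑_{l ≤ x, l ≡ 1 (4), l ≠ p} 2 (1 + 2 Re θ_l + (l/p)) log l/l /... ` more precisely, multiplying by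
 `log l / l` and summing: `S0(x) + P(x) + S2(x) ≥ 0` with `S0 = ∑ log l/l`, `S2 = ∑ (l/p) log l/l` over
 `l ≡ 1 mod 4`, `l ≠ p` (and `P` restricted to `l ≠ p`: for `l = p` `psi = 0`).
 `mert_ap_log` with modulus `4p`: `S0(x) = (1/2) log x + O(1)` (the classes `c ≡ 1 mod 4`, `c` prime to `p`:
 `p - 1` of the `2 (p - 1)`), `S2(x) = O(1)` (`∑_c (c/p) = 0` over these classes).
 So `0 ≤ (1/2) log x - log x + O(1)`: contradiction.
(2) `mer_main`: `L0 * (P(x) + O(1))` is bounded, so `P(x)` is bounded.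
-/

set_option autoImplicit false

open Finset

namespace Pool.SG

namespace QNonAux

/-- the value of the character at a prime -/
theorem chj_ineq (p : ℕ) [Fact p.Prime] (hp2 : p ≠ 2) (j : ℕ) (l : ℕ) (a b : ℤ)
    (ha : Odd a) (hb : Even b) (hab : a ^ 2 + b ^ 2 = (l : ℤ)) :
    0 ≤ 1 + 2 * (chj p j a b).re + ((jacobiSym (l : ℤ) p : ℤ) : ℝ) := by
  have h1 : chj p j a b = psi p a b * (if b % 4 = 0 then 1 else (-1) ^ j) := by
    unfold chj; rw [if_pos ⟨ha, hb⟩]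
  set ε : ℂ := if b % 4 = 0 then 1 else (-1) ^ j with hε
  have hε2 : ε ^ 2 = 1 := by
    rw [hε]; split_ifs
    · simp
    · rw [← pow_mul, mul_comm, pow_mul]; simp
  have hsq := psi_sq p hp2 a b
  rw [hab] at hsq
  have h2 : chj p j a b ^ 2 = ((jacobiSym (l : ℤ) p : ℤ) : ℂ) := by
    rw [h1, mul_pow, hε2, mul_one, hsq]
  rcases psi_norm p hp2 a b with ⟨h0, -⟩ | ⟨h4, -⟩
  · have h3 : chj p j a b = 0 := by rw [h1, h0, zero_mul]
    rw [h3] at h2 ⊢
    have h5 : ((jacobiSym (l : ℤ) p : ℤ) : ℂ) = 0 := by rw [← h2]; simp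
    have h6 : (jacobiSym (l : ℤ) p : ℤ) = 0 := by exact_mod_cast h5
    rw [h6]; simp
  · have h5 : chj p j a b ^ 4 = 1 := by
      rw [h1, mul_pow, h4, one_mul, show (4 : ℕ) = 2 * 2 from rfl, pow_mul, hε2, one_pow]
    set θ := chj p j a b with hθ
    have h6 : (θ - 1) * (θ + 1) * (θ ^ 2 + 1) = 0 := by ring_nf; rw [h5]; ring
    rcases mul_eq_zero.1 h6 with h7 | h7
    · rcases mul_eq_zero.1 h7 with h8 | h8
      · have h9 : θ = 1 := by linear_combination h8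
        rw [h9] at h2 ⊢
        have h10 : ((jacobiSym (l : ℤ) p : ℤ) : ℂ) = 1 := by rw [← h2]; simp
        have h11 : (jacobiSym (l : ℤ) p : ℤ) = 1 := by exact_mod_cast h10
        rw [h11]; simp; norm_num
      · have h9 : θ = -1 := by linear_combination h8
        rw [h9] at h2 ⊢
        have h10 : ((jacobiSym (l : ℤ) p : ℤ) : ℂ) = 1 := by rw [← h2]; simp
        have h11 : (jacobiSym (l : ℤ) p : ℤ) = 1 := by exact_mod_cast h10
        rw [h11]; norm_num
    · have h8 : θ ^ 2 = -1 := by linear_combination h7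
      have h10 : ((jacobiSym (l : ℤ) p : ℤ) : ℂ) = -1 := by rw [← h2, h8]
      have h11 : (jacobiSym (l : ℤ) p : ℤ) = -1 := by exact_mod_cast h10
      have h12 : θ.re = 0 := by
        have hre := congrArg Complex.re h8
        have him := congrArg Complex.im h8
        rw [pow_two] at hre him
        simp only [Complex.mul_re, Complex.mul_im, Complex.neg_re, Complex.neg_im,
          Complex.one_re, Complex.one_im] at hre him
        have h13 : θ.re * θ.im = 0 := by linarith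
        rcases mul_eq_zero.1 h13 with h14 | h14
        · exact h14
        · rw [h14] at hre
          nlinarith [mul_self_nonneg θ.re]
      rw [h11, h12]; simp

/-- `∑ log l / l` over `l ≡ 1 mod 4` -/
theorem s0_bd : ∃ C : ℝ, 0 < C ∧ ∀ X : ℕ, 1 ≤ X →
    |∑ l ∈ (Icc 1 X).filter (fun l => l.Prime ∧ l % 4 = 1), Real.log l / l -
      Real.log X / 2| ≤ C := by
  obtain ⟨C, hC, h⟩ := mert_ap_log 4 1 (by norm_num) (by norm_num)
  refine ⟨C, hC, fun X hX => ?_⟩
  have h1 := h X hX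
  have h2 : (Nat.totient 4 : ℝ) = 2 := by
    have : Nat.totient 4 = 2 := by decide
    rw [this]; norm_num
  rw [h2] at h1
  exact h1

theorem s2_class (p : ℕ) [Fact p.Prime] (hp2 : p ≠ 2) (c : ZMod p) (hc : c ≠ 0) :
    ∃ C : ℝ, 0 < C ∧ ∀ X : ℕ, 1 ≤ X →
    |∑ l ∈ ((Icc 1 X).filter (fun l => l.Prime ∧ l % 4 = 1)).filter (fun l : ℕ => (l : ZMod p) = c),
      Real.log l / l - Real.log X / (Nat.totient (4 * p) : ℝ)| ≤ C := by
  have hp : p.Prime := Fact.out
  have hcop : Nat.Coprime 4 p := by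
    have h2 : Nat.Coprime 2 p := (Nat.coprime_primes Nat.prime_two hp).2 (Ne.symm hp2)
    have : Nat.Coprime (2 ^ 2) p := Nat.Coprime.pow_left 2 h2
    simpa using this
  obtain ⟨c', hc1, hc2⟩ := Nat.chineseRemainder hcop 1 c.val
  have hc'4 : Nat.Coprime c' 4 := by
    have := hc1.gcd_eq
    rw [Nat.coprime_iff_gcd_eq_one, this]; norm_num
  have hc'p : Nat.Coprime c' p := by
    have h1 := hc2.gcd_eq
    have h2 : Nat.Coprime c.val p := by
      have hv : c.val < p := ZMod.val_lt c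
      have hv0 : c.val ≠ 0 := by
        intro h0; exact hc ((ZMod.val_eq_zero c).1 h0)
      exact ((Nat.Prime.coprime_iff_not_dvd hp).2
        (fun hd => hv0 (Nat.eq_zero_of_dvd_of_lt hd hv))).symm
    rw [Nat.coprime_iff_gcd_eq_one, h1]; exact h2
  obtain ⟨C, hC, h⟩ := mert_ap_log (4 * p) c' (by have := hp.pos; omega)
    (Nat.Coprime.mul_right hc'4 hc'p)
  refine ⟨C, hC, fun X hX => ?_⟩
  have h1 := h X hX
  have h2 : ((Icc 1 X).filter (fun l => l.Prime ∧ l % 4 = 1)).filter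
      (fun l : ℕ => (l : ZMod p) = c) =
      (Icc 1 X).filter (fun q => q.Prime ∧ q ≡ c' [MOD (4 * p)]) := by
    rw [Finset.filter_filter]
    apply Finset.filter_congr
    intro l _
    have h3 : (l ≡ c' [MOD (4 * p)]) ↔ l ≡ c' [MOD 4] ∧ l ≡ c' [MOD p] :=
      (Nat.modEq_and_modEq_iff_modEq_mul hcop).symm
    have h4 : (l % 4 = 1) ↔ l ≡ c' [MOD 4] := by
      have : c' % 4 = 1 := hc1
      unfold Nat.ModEq; rw [this]
    have h5 : ((l : ZMod p) = c) ↔ l ≡ c' [MOD p] := by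
      rw [← ZMod.natCast_eq_natCast_iff, (ZMod.natCast_eq_natCast_iff c' c.val p).2 hc2,
        ZMod.natCast_zmod_val]
    rw [h3, h4, h5]; tauto
  rw [h2]; exact h1

theorem s2_bd (p : ℕ) [Fact p.Prime] (hp2 : p ≠ 2) : ∃ C : ℝ, 0 < C ∧ ∀ X : ℕ, 1 ≤ X →
    |∑ l ∈ (Icc 1 X).filter (fun l => l.Prime ∧ l % 4 = 1),
      ((jacobiSym (l : ℤ) p : ℤ) : ℝ) * (Real.log l / l)| ≤ C := by
  classical
  have hcl : ∀ c : ZMod p, ∃ C : ℝ, 0 < C ∧ (c ≠ 0 → ∀ X : ℕ, 1 ≤ X →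
      |∑ l ∈ ((Icc 1 X).filter (fun l => l.Prime ∧ l % 4 = 1)).filter (fun l : ℕ => (l : ZMod p) = c),
        Real.log l / l - Real.log X / (Nat.totient (4 * p) : ℝ)| ≤ C) := by
    intro c
    by_cases hc : c = 0
    · exact ⟨1, one_pos, fun h => absurd hc h⟩
    · obtain ⟨C, hC, h⟩ := s2_class p hp2 c hc
      exact ⟨C, hC, fun _ => h⟩
  choose K hK hKb using hcl
  refine ⟨∑ c : ZMod p, K c + 1, ?_, fun X hX => ?_⟩
  · have : 0 ≤ ∑ c : ZMod p, K c := Finset.sum_nonneg fun c _ => (hK c).le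
    linarith
  have hj : ∀ l : ℕ, ((jacobiSym (l : ℤ) p : ℤ) : ℝ) =
      ((quadraticChar (ZMod p) (l : ZMod p) : ℤ) : ℝ) := by
    intro l
    rw [← jacobiSym.legendreSym.to_jacobiSym]
    unfold legendreSym
    simp
  have h1 : ∑ l ∈ (Icc 1 X).filter (fun l => l.Prime ∧ l % 4 = 1),
      ((jacobiSym (l : ℤ) p : ℤ) : ℝ) * (Real.log l / l) =
      ∑ c : ZMod p, ((quadraticChar (ZMod p) c : ℤ) : ℝ) *
        ∑ l ∈ ((Icc 1 X).filter (fun l => l.Prime ∧ l % 4 = 1)).filter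
          (fun l : ℕ => (l : ZMod p) = c), Real.log l / l := by
    rw [← Finset.sum_fiberwise ((Icc 1 X).filter (fun l => l.Prime ∧ l % 4 = 1))
      (fun l : ℕ => (l : ZMod p))]
    apply Finset.sum_congr rfl
    intro c _
    rw [Finset.mul_sum]
    apply Finset.sum_congr rfl
    intro l hl
    rw [hj l, (Finset.mem_filter.1 hl).2]
  have hsum0 : ∑ c : ZMod p, ((quadraticChar (ZMod p) c : ℤ) : ℝ) = 0 := by
    have hchar : ringChar (ZMod p) ≠ 2 := by rw [ZMod.ringChar_zmod_n]; exact hp2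
    have := quadraticChar_sum_zero hchar
    exact_mod_cast this
  have h2 : ∑ c : ZMod p, ((quadraticChar (ZMod p) c : ℤ) : ℝ) *
        ∑ l ∈ ((Icc 1 X).filter (fun l => l.Prime ∧ l % 4 = 1)).filter
          (fun l : ℕ => (l : ZMod p) = c), Real.log l / l =
      ∑ c : ZMod p, ((quadraticChar (ZMod p) c : ℤ) : ℝ) *
        (∑ l ∈ ((Icc 1 X).filter (fun l => l.Prime ∧ l % 4 = 1)).filter
          (fun l : ℕ => (l : ZMod p) = c), Real.log l / l -
            Real.log X / (Nat.totient (4 * p) : ℝ)) := by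
    have h3 : ∀ c : ZMod p, ((quadraticChar (ZMod p) c : ℤ) : ℝ) *
        (∑ l ∈ ((Icc 1 X).filter (fun l => l.Prime ∧ l % 4 = 1)).filter
          (fun l : ℕ => (l : ZMod p) = c), Real.log l / l -
            Real.log X / (Nat.totient (4 * p) : ℝ)) =
        ((quadraticChar (ZMod p) c : ℤ) : ℝ) *
        ∑ l ∈ ((Icc 1 X).filter (fun l => l.Prime ∧ l % 4 = 1)).filter
          (fun l : ℕ => (l : ZMod p) = c), Real.log l / l -
        ((quadraticChar (ZMod p) c : ℤ) : ℝ) *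
            (Real.log X / (Nat.totient (4 * p) : ℝ)) := fun c => by ring
    simp_rw [h3]
    rw [Finset.sum_sub_distrib, ← Finset.sum_mul, hsum0, zero_mul, sub_zero]
  rw [h1, h2]
  refine (Finset.abs_sum_le_sum_abs _ _).trans ?_
  have h4 : ∀ c ∈ (Finset.univ : Finset (ZMod p)), |((quadraticChar (ZMod p) c : ℤ) : ℝ) *
        (∑ l ∈ ((Icc 1 X).filter (fun l => l.Prime ∧ l % 4 = 1)).filter
          (fun l : ℕ => (l : ZMod p) = c), Real.log l / l -
            Real.log X / (Nat.totient (4 * p) : ℝ))| ≤ K c := by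
    intro c _
    by_cases hc : c = 0
    · rw [hc, quadraticChar_zero]
      simp only [Int.cast_zero, zero_mul, abs_zero]
      exact (hK 0).le
    · rw [abs_mul]
      have h5 : |((quadraticChar (ZMod p) c : ℤ) : ℝ)| = 1 := by
        rcases quadraticChar_dichotomy hc with h | h <;> rw [h] <;> simp
      rw [h5, one_mul]
      exact hKb c hc X hX
  refine (Finset.sum_le_sum h4).trans ?_
  linarith

end QNonAux

open QNonAux

theorem quart_sum (p : ℕ) [Fact p.Prime] (hp2 : p ≠ 2) (j : ℕ) :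
    ∃ (c : ℕ → ℂ) (C : ℝ), 0 < C ∧
      (∀ l : ℕ, l.Prime → l % 4 = 1 → ∃ a b : ℤ, Odd a ∧ Even b ∧ a ^ 2 + b ^ 2 = (l : ℤ) ∧
        c l = chj p j a b) ∧
      ∀ x : ℕ, |∑ l ∈ (Icc 1 x).filter (fun l => l.Prime ∧ l % 4 = 1),
        2 * (c l).re * Real.log l / l| ≤ C := by
  classical
  have hχ : GC (chj p j) (4 * p) := gc_chj p hp2 j
  obtain ⟨c1, c2, hF⟩ := exists_fac hχ.toGC0
  obtain ⟨CL, hCL, hlat⟩ := lat_sum hχ
  obtain ⟨L0, CA, hCA, hab1, hab2⟩ := abel_half (AX (chj p j)) CL hlat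
  obtain ⟨CP, hCP, hprim⟩ := prim_red hF
  have hsplit : ∀ l : ℕ, l.Prime → l % 4 = 1 → ∃ a b : ℤ, Odd a ∧ Even b ∧
      a ^ 2 + b ^ 2 = (l : ℤ) ∧ c1 l = chj p j a b := by
    intro l hl hl4
    obtain ⟨a, b, ha, hb, hab, h1, -⟩ := hF.split l hl hl4
    exact ⟨a, b, ha, hb, hab, h1⟩
  -- the coefficients
  have hL : ∀ y : ℕ, 1 ≤ y →
      ‖∑ n ∈ Icc 1 y, (∑ d ∈ n.divisors, c1 d * c2 (n / d)) / n - L0‖ ≤ CA / Real.sqrt y := by
    intro y hy
    have h1 : ∑ n ∈ Icc 1 y, (∑ d ∈ n.divisors, c1 d * c2 (n / d)) / (n : ℂ) =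
        ∑ n ∈ Icc 1 y, AX (chj p j) n / (n : ℂ) := by
      apply Finset.sum_congr rfl
      intro n hn
      rw [hF.conv n (by have := (Finset.mem_Icc.1 hn).1; omega)]
    rw [h1]; exact hab1 y hy
  have hlog : ∀ y : ℕ,
      ‖∑ n ∈ Icc 1 y, (∑ d ∈ n.divisors, c1 d * c2 (n / d)) * Real.log n / n‖ ≤ CA := by
    intro y
    have h1 : ∑ n ∈ Icc 1 y, (∑ d ∈ n.divisors, c1 d * c2 (n / d)) * (Real.log n : ℂ) / (n : ℂ) =
        ∑ n ∈ Icc 1 y, AX (chj p j) n * (Real.log n : ℂ) / (n : ℂ) := by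
      apply Finset.sum_congr rfl
      intro n hn
      rw [hF.conv n (by have := (Finset.mem_Icc.1 hn).1; omega)]
    rw [h1]; exact hab2 y
  have hLne : L0 ≠ 0 := by
    intro h0
    rw [h0] at hL
    have hL' : ∀ y : ℕ, 1 ≤ y →
        ‖∑ n ∈ Icc 1 y, (∑ d ∈ n.divisors, c1 d * c2 (n / d)) / n‖ ≤
          (max CA 9) / Real.sqrt y := by
      intro y hy
      have h1 := hL y hy
      rw [sub_zero] at h1
      refine h1.trans ?_
      gcongr
      exact le_max_left _ _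
    have hB' : ∀ x : ℕ, ∑ n ∈ Icc 1 x, ‖BX c1 c2 n‖ ≤ (max CA 9) * x := by
      intro x
      refine (BX_sum hF x).trans ?_
      have : (0 : ℝ) ≤ x := Nat.cast_nonneg x
      gcongr
      exact le_max_right _ _
    obtain ⟨CZ, hCZ, hz⟩ := mer_zero hF.h1 hF.h2 (max CA 9) hL' hB'
    obtain ⟨C0, hC0, hs0⟩ := s0_bd
    obtain ⟨C2, hC2, hs2⟩ := s2_bd p hp2
    -- contradiction for large `x`
    have hmain : ∀ x : ℕ, 1 ≤ x → Real.log x ≤ 2 * (C0 + C2 + CZ + CP) := by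
      intro x hx
      set P : ℝ := ∑ l ∈ (Icc 1 x).filter (fun l => l.Prime ∧ l % 4 = 1),
          2 * (c1 l).re * Real.log l / l with hP
      have hz1 := hz x hx
      have hp1 := hprim x
      rw [← hP] at hp1
      have h1 : |P + Real.log x| ≤ CZ + CP := by
        have h2 : ((P + Real.log x : ℝ) : ℂ) =
          (∑ n ∈ Icc 1 x, (c1 n + c2 n) * (ArithmeticFunction.vonMangoldt n : ℂ) / n +
            Real.log x) -
          (∑ n ∈ Icc 1 x, (c1 n + c2 n) * (ArithmeticFunction.vonMangoldt n : ℂ) / n -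
            (P : ℂ)) := by
          push_cast; ring
        have h3 : |P + Real.log x| = ‖((P + Real.log x : ℝ) : ℂ)‖ := by
          rw [Complex.norm_real, Real.norm_eq_abs]
        rw [h3, h2]
        refine (norm_sub_le _ _).trans ?_
        exact add_le_add hz1 hp1
      have h4 := hs0 x hx
      have h5 := hs2 x hx
      have h6 : 0 ≤ ∑ l ∈ (Icc 1 x).filter (fun l => l.Prime ∧ l % 4 = 1), Real.log l / l + P +
          ∑ l ∈ (Icc 1 x).filter (fun l => l.Prime ∧ l % 4 = 1),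
            ((jacobiSym (l : ℤ) p : ℤ) : ℝ) * (Real.log l / l) := by
        rw [hP, ← Finset.sum_add_distrib, ← Finset.sum_add_distrib]
        apply Finset.sum_nonneg
        intro l hl
        obtain ⟨-, hlp, hl4⟩ := Finset.mem_filter.1 hl
        obtain ⟨a, b, ha, hb, hab, hc⟩ := hsplit l hlp hl4
        have h7 := chj_ineq p hp2 j l a b ha hb hab
        rw [← hc] at h7
        have h8 : 0 ≤ Real.log l / l := div_nonneg (Real.log_natCast_nonneg l) (Nat.cast_nonneg l)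
        have h9 := mul_nonneg h7 h8
        have h10 : Real.log l / l + 2 * (c1 l).re * Real.log l / l +
            ((jacobiSym (l : ℤ) p : ℤ) : ℝ) * (Real.log l / l) =
            (1 + 2 * (c1 l).re + ((jacobiSym (l : ℤ) p : ℤ) : ℝ)) * (Real.log l / l) := by ring
        rw [h10]; exact h9
      have h7 := (abs_le.1 h1).2
      have h8 := (abs_le.1 h4).2
      have h9 := (abs_le.1 h5).2
      linarith
    obtain ⟨N, hN⟩ := exists_nat_gt (Real.exp (2 * (C0 + C2 + CZ + CP)))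
    have hN1 : 1 ≤ N := by
      rcases Nat.eq_zero_or_pos N with h | h
      · rw [h] at hN
        have := Real.exp_pos (2 * (C0 + C2 + CZ + CP))
        simp at hN; linarith
      · exact h
    have h1 := hmain N hN1
    have h2 : 2 * (C0 + C2 + CZ + CP) < Real.log N := by
      rw [Real.lt_log_iff_exp_lt (by exact_mod_cast hN1)]; exact hN
    linarith
  obtain ⟨CM', hCM', hmer⟩ := mer_main hF.h1 hF.h2 L0 CA hL hlog
  have hLpos : 0 < ‖L0‖ := norm_pos_iff.2 hLne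
  refine ⟨c1, CM' / ‖L0‖ + CP, by positivity, hsplit, fun x => ?_⟩
  set P : ℝ := ∑ l ∈ (Icc 1 x).filter (fun l => l.Prime ∧ l % 4 = 1),
      2 * (c1 l).re * Real.log l / l with hP
  have hp1 := hprim x
  rw [← hP] at hp1
  have h1 := hmer x
  rw [norm_mul] at h1
  have h2 : ‖∑ n ∈ Icc 1 x, (c1 n + c2 n) * (ArithmeticFunction.vonMangoldt n : ℂ) / n‖ ≤
      CM' / ‖L0‖ := by
    rw [le_div_iff₀ hLpos]; linarith
  have h3 : |P| = ‖(P : ℂ)‖ := by rw [Complex.norm_real, Real.norm_eq_abs]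
  have h4 : (P : ℂ) = ∑ n ∈ Icc 1 x, (c1 n + c2 n) * (ArithmeticFunction.vonMangoldt n : ℂ) / n -
      (∑ n ∈ Icc 1 x, (c1 n + c2 n) * (ArithmeticFunction.vonMangoldt n : ℂ) / n - (P : ℂ)) := by
    ring
  rw [h3, h4]
  exact (norm_sub_le _ _).trans (add_le_add h2 hp1)

end Pool.SG
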