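import Mathlib

/-!
# SG-QT: the quartic character of `p` on the Gaussian integers

`p` an odd prime, `k = AlgebraicClosure (ZMod p)`, `I0 ∈ k` with `I0^2 = -1`.  For integers `a, b`:
`N = a^2 + b^2`, `α = a + b I0` in `k`,
`TT a b = (α^2 N)^((p-1)/4)` if `p ≡ 1 mod 4`, `TT a b = (α^2 N)^((p+1)/4) / N` if `p ≡ 3 mod 4`.
`psi a b = 0` if `N = 0` in `k`, otherwise the complex number `Complex.I ^ r`, where `r < 4`, `I0 ^ r = TT a b`.

PROOFS (see also the header and file of `MP_a3a416_nt/QS/Loc4.lean`, which does the same for `5 ≤ p`).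
* `TT^4 = 1` for `N ≠ 0`: `p ≡ 1`: `I0 ∈ 𝔽_p` (`I0^p = I0`), `α, N ∈ 𝔽_p`, `TT^4 = (α^2 N)^(p-1) = 1`.
  `p ≡ 3`: `I0^p = -I0`, `α^p = a - b I0 =: α'`, `N = α α' = α^(p+1)`,
  `TT = α^((p+3)(p+1)/4 - (p+1)) = α^((p^2-1)/4)`, `TT^4 = α^(p^2-1) = 1`.
* `psi_mul`: `(a + b I)(c + d I) = (ac - bd) + (ad + bc) I`; `TT` is multiplicative; `r ↦ I0^r`, `Complex.I^r` are
  both 4-periodic and injective mod 4.
* `psi_per`: casts kill multiples of `p`.  `psi_neg`: `α^2` is even.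
* `psi_conj`: `TT(a, b) TT(a, -b) = 1`: `(α^2 α'^2 N^2)^((p-1)/4) = N^(p-1) = 1`, resp.
  `(N^4)^((p+1)/4)/N^2 = N^(p+1)/N^2 = 1` (`N ∈ 𝔽_p^*`); so `psi a (-b) = conj (psi a b)`.
* `psi_sq`: `TT^2 = N^((p-1)/2)` (`p ≡ 1`: `(α^4 N^2)^((p-1)/4) = α^(p-1) N^((p-1)/2)`, `α ∈ 𝔽_p`; `p ≡ 3`:
  `TT^2 = α^(p+1) N^((p+1)/2)/N^2 = N^((p-1)/2)`), which is `(N/p)` by Euler's criterion.
* `psi_I`: there are `a, b` with `psi a b = I`: `p ≡ 1`: choose `a, b ∈ 𝔽_p` with `a + b I0 = 1`,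
  `a - b I0 = γ` a generator of `𝔽_p^*`: `TT = γ^((p-1)/4)`, a primitive 4th root of unity; if `TT = -I0`
  use `γ⁻¹`.  `p ≡ 3`: `α` of order `p^2 - 1` in `𝔽_{p^2}^*`; `a = (α + α^p)/2`, `b = (α - α^p)/(2 I0)` are fixed
  by Frobenius, so in `𝔽_p`; `TT = α^((p^2-1)/4)`.
-/

set_option autoImplicit false

open Finset

namespace Pool.SG

variable (p : ℕ) [Fact p.Prime]

/-- a square root of `-1` -/
noncomputable def I0 : AlgebraicClosure (ZMod p) :=
  (IsAlgClosed.exists_pow_nat_eq (-1 : AlgebraicClosure (ZMod p)) (n := 2) (by norm_num)).choose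

theorem I0_sq : I0 p ^ 2 = -1 :=
  (IsAlgClosed.exists_pow_nat_eq (-1 : AlgebraicClosure (ZMod p)) (n := 2)
    (by norm_num)).choose_spec

noncomputable def TT (a b : ℤ) : AlgebraicClosure (ZMod p) :=
  if p % 4 = 1 then
    (((a : AlgebraicClosure (ZMod p)) + b * I0 p) ^ 2 * (a ^ 2 + b ^ 2)) ^ ((p - 1) / 4)
  else
    (((a : AlgebraicClosure (ZMod p)) + b * I0 p) ^ 2 * (a ^ 2 + b ^ 2)) ^ ((p + 1) / 4) /
      (a ^ 2 + b ^ 2)

open scoped Classical in
noncomputable def psi (a b : ℤ) : ℂ :=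
  if (a : AlgebraicClosure (ZMod p)) ^ 2 + (b : AlgebraicClosure (ZMod p)) ^ 2 = 0 then 0
  else if TT p a b = 1 then 1 else if TT p a b = -1 then -1
  else if TT p a b = I0 p then Complex.I else -Complex.I

theorem ch_qt : CharP (AlgebraicClosure (ZMod p)) p :=
  charP_of_injective_algebraMap
    (algebraMap (ZMod p) (AlgebraicClosure (ZMod p))).injective p

theorem two_ne_qt (hp2 : p ≠ 2) : (2 : AlgebraicClosure (ZMod p)) ≠ 0 := by
  have := ch_qt p
  have hp : p.Prime := Fact.out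
  intro h
  have h1 := (CharP.cast_eq_zero_iff (AlgebraicClosure (ZMod p)) p 2).mp (by exact_mod_cast h)
  exact hp2 ((Nat.prime_dvd_prime_iff_eq hp Nat.prime_two).mp h1)

theorem one_ne_qt (hp2 : p ≠ 2) : (1 : AlgebraicClosure (ZMod p)) ≠ -1 := by
  intro h
  apply two_ne_qt p hp2
  linear_combination h

theorem I0_ne_one_qt (hp2 : p ≠ 2) : I0 p ≠ 1 := by
  intro h
  have h2 := I0_sq p
  rw [h, one_pow] at h2
  exact one_ne_qt p hp2 h2

theorem I0_ne_neg_one_qt (hp2 : p ≠ 2) : I0 p ≠ -1 := by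
  intro h
  have h2 := I0_sq p
  rw [h] at h2
  apply one_ne_qt p hp2
  linear_combination h2

theorem I0_ne_zero_qt : I0 p ≠ 0 := by
  intro h
  have h2 := I0_sq p
  rw [h] at h2
  have : (1 : AlgebraicClosure (ZMod p)) = 0 := by linear_combination h2
  exact one_ne_zero this

theorem I0_four_qt : I0 p ^ 4 = 1 := by
  rw [show (4 : ℕ) = 2 * 2 by norm_num, pow_mul, I0_sq]
  ring

theorem I0_cube_qt : I0 p ^ 3 = -I0 p := by
  rw [pow_succ, I0_sq]
  ring

/-- the map from powers of `I0` to powers of `I` -/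
noncomputable def kap_qt (t : AlgebraicClosure (ZMod p)) : ℂ := by
  classical
  exact if t = 1 then 1 else if t = -1 then -1
    else if t = I0 p then Complex.I else -Complex.I

theorem kap_pow_lt_qt (hp2 : p ≠ 2) (r : ℕ) (hr : r < 4) :
    kap_qt p (I0 p ^ r) = Complex.I ^ r := by
  have h1 := I0_ne_one_qt p hp2
  have h2 := I0_ne_neg_one_qt p hp2
  have h3 := one_ne_qt p hp2
  have h0 := I0_ne_zero_qt p
  interval_cases r
  · simp [kap_qt]
  · rw [pow_one, pow_one, kap_qt, if_neg h1, if_neg h2, if_pos rfl]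
  · rw [I0_sq, kap_qt, if_neg (Ne.symm h3), if_pos rfl, Complex.I_sq]
  · have e1 : -I0 p ≠ 1 := fun h => h2 (by linear_combination -h)
    have e2 : -I0 p ≠ -1 := fun h => h1 (by linear_combination -h)
    have e3 : -I0 p ≠ I0 p := by
      intro h
      have h4 : 2 * I0 p = 0 := by linear_combination -h
      rcases mul_eq_zero.mp h4 with h5 | h5
      · exact two_ne_qt p hp2 h5
      · exact h0 h5
    rw [I0_cube_qt, kap_qt, if_neg e1, if_neg e2, if_neg e3, Complex.I_pow_three]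

theorem kap_pow_qt (hp2 : p ≠ 2) (r : ℕ) : kap_qt p (I0 p ^ r) = Complex.I ^ r := by
  have e1 : I0 p ^ r = I0 p ^ (r % 4) := by
    conv_lhs => rw [← Nat.div_add_mod r 4, pow_add, pow_mul, I0_four_qt, one_pow, one_mul]
  have e2 : Complex.I ^ r = Complex.I ^ (r % 4) := by
    conv_lhs => rw [← Nat.div_add_mod r 4, pow_add, pow_mul, Complex.I_pow_four, one_pow, one_mul]
  rw [e1, e2]
  exact kap_pow_lt_qt p hp2 _ (Nat.mod_lt _ (by norm_num))

theorem root_qt (hp2 : p ≠ 2) (t : AlgebraicClosure (ZMod p)) (h : t ^ 4 = 1) :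
    ∃ r : ℕ, t = I0 p ^ r := by
  have h1 : (t - 1) * (t + 1) * ((t - I0 p) * (t + I0 p)) = 0 := by
    have := I0_sq p
    linear_combination h + (1 - t ^ 2) * this
  rcases mul_eq_zero.mp h1 with h2 | h2
  · rcases mul_eq_zero.mp h2 with h3 | h3
    · exact ⟨0, by rw [pow_zero]; linear_combination h3⟩
    · exact ⟨2, by rw [I0_sq]; linear_combination h3⟩
  · rcases mul_eq_zero.mp h2 with h3 | h3
    · exact ⟨1, by rw [pow_one]; linear_combination h3⟩
    · exact ⟨3, by rw [I0_cube_qt]; linear_combination h3⟩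

theorem frob_qt (a : ℤ) : (a : AlgebraicClosure (ZMod p)) ^ p = a := by
  have h : algebraMap (ZMod p) (AlgebraicClosure (ZMod p)) (a : ZMod p) = a := map_intCast _ a
  rw [← h, ← map_pow, ZMod.pow_card]

theorem nfrob_qt (a b : ℤ) : ((a : AlgebraicClosure (ZMod p)) ^ 2 + (b : AlgebraicClosure (ZMod p)) ^ 2) ^ p
    = (a : AlgebraicClosure (ZMod p)) ^ 2 + (b : AlgebraicClosure (ZMod p)) ^ 2 := by
  have h := frob_qt p (a ^ 2 + b ^ 2)
  push_cast at h
  exact h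

theorem mod_qt (hp2 : p ≠ 2) : p % 4 = 1 ∨ p % 4 = 3 := by
  have hp : p.Prime := Fact.out
  rcases hp.eq_two_or_odd with h | h <;> omega

/-- the norm is the product of `α` and its conjugate -/
theorem norm_qt (a b : ℤ) : ((a : AlgebraicClosure (ZMod p)) + b * I0 p) *
    ((a : AlgebraicClosure (ZMod p)) - b * I0 p)
    = (a : AlgebraicClosure (ZMod p)) ^ 2 + (b : AlgebraicClosure (ZMod p)) ^ 2 := by
  linear_combination (-(b : AlgebraicClosure (ZMod p)) ^ 2) * I0_sq p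

theorem afrob1_qt (h : p % 4 = 1) (a b : ℤ) : ((a : AlgebraicClosure (ZMod p)) + b * I0 p) ^ p
    = (a : AlgebraicClosure (ZMod p)) + b * I0 p := by
  have := ch_qt p
  obtain ⟨n, hn⟩ : ∃ n, p = 4 * n + 1 := ⟨p / 4, by omega⟩
  have hI : I0 p ^ p = I0 p := by
    have : ∀ m, m = 4 * n + 1 → I0 p ^ m = I0 p := by
      rintro m rfl
      rw [pow_succ, pow_mul, I0_four_qt, one_pow, one_mul]
    exact this p hn
  rw [add_pow_char, mul_pow, frob_qt, frob_qt, hI]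

theorem afrob3_qt (h : p % 4 = 3) (a b : ℤ) : ((a : AlgebraicClosure (ZMod p)) + b * I0 p) ^ p
    = (a : AlgebraicClosure (ZMod p)) - b * I0 p := by
  have := ch_qt p
  obtain ⟨n, hn⟩ : ∃ n, p = 4 * n + 3 := ⟨p / 4, by omega⟩
  have hI : I0 p ^ p = -I0 p := by
    have : ∀ m, m = 4 * n + 3 → I0 p ^ m = -I0 p := by
      rintro m rfl
      rw [pow_add, pow_mul, I0_four_qt, one_pow, one_mul, I0_cube_qt]
    exact this p hn
  rw [add_pow_char, mul_pow, frob_qt, frob_qt, hI]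
  ring

theorem pred_qt {x : AlgebraicClosure (ZMod p)} (hx : x ≠ 0) (h : x ^ p = x) :
    x ^ (p - 1) = 1 := by
  have hp : p.Prime := Fact.out
  apply mul_right_cancel₀ hx
  rw [← pow_succ, Nat.sub_add_cancel hp.one_lt.le, h, one_mul]

theorem alpha_ne_qt {a b : ℤ}
    (h : (a : AlgebraicClosure (ZMod p)) ^ 2 + (b : AlgebraicClosure (ZMod p)) ^ 2 ≠ 0) :
    (a : AlgebraicClosure (ZMod p)) + b * I0 p ≠ 0 := by
  intro h0
  apply h
  rw [← norm_qt, h0, zero_mul]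

/-- `TT` squared -/
theorem TT_sq_qt (hp2 : p ≠ 2) {a b : ℤ}
    (h : (a : AlgebraicClosure (ZMod p)) ^ 2 + (b : AlgebraicClosure (ZMod p)) ^ 2 ≠ 0) :
    TT p a b ^ 2 = ((a : AlgebraicClosure (ZMod p)) ^ 2 + (b : AlgebraicClosure (ZMod p)) ^ 2) ^ (p / 2) := by
  have hα := alpha_ne_qt p h
  rcases mod_qt p hp2 with h4 | h4
  · rw [TT, if_pos h4, ← pow_mul, show (p - 1) / 4 * 2 = p / 2 by omega, mul_pow, ← pow_mul,
      show 2 * (p / 2) = p - 1 by omega, pred_qt p hα (afrob1_qt p h4 a b), one_mul]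
  · rw [TT, if_neg (by omega), div_pow, ← pow_mul, show (p + 1) / 4 * 2 = p / 2 + 1 by omega,
      mul_pow, ← pow_mul, show 2 * (p / 2 + 1) = p + 1 by omega, pow_succ _ p,
      afrob3_qt p h4, mul_comm _ ((a : AlgebraicClosure (ZMod p)) + b * I0 p), norm_qt, pow_succ _ (p / 2)]
    field_simp

theorem TT_pow (hp2 : p ≠ 2) {a b : ℤ}
    (h : (a : AlgebraicClosure (ZMod p)) ^ 2 + (b : AlgebraicClosure (ZMod p)) ^ 2 ≠ 0) :
    TT p a b ^ 4 = 1 := by
  have h4 := mod_qt p hp2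
  rw [show (4 : ℕ) = 2 * 2 by norm_num, pow_mul, TT_sq_qt p hp2 h, ← pow_mul,
    show p / 2 * 2 = p - 1 by omega]
  exact pred_qt p h (nfrob_qt p a b)

theorem psi_zero_qt {a b : ℤ}
    (h : (a : AlgebraicClosure (ZMod p)) ^ 2 + (b : AlgebraicClosure (ZMod p)) ^ 2 = 0) :
    psi p a b = 0 := by
  rw [psi, if_pos h]

theorem psi_kap_qt {a b : ℤ}
    (h : (a : AlgebraicClosure (ZMod p)) ^ 2 + (b : AlgebraicClosure (ZMod p)) ^ 2 ≠ 0) :
    psi p a b = kap_qt p (TT p a b) := by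
  rw [psi, if_neg h, kap_qt]

theorem psi_root_qt (hp2 : p ≠ 2) {a b : ℤ}
    (h : (a : AlgebraicClosure (ZMod p)) ^ 2 + (b : AlgebraicClosure (ZMod p)) ^ 2 ≠ 0) :
    ∃ r : ℕ, TT p a b = I0 p ^ r ∧ psi p a b = Complex.I ^ r := by
  obtain ⟨r, hr⟩ := root_qt p hp2 _ (TT_pow p hp2 h)
  exact ⟨r, hr, by rw [psi_kap_qt p h, hr, kap_pow_qt p hp2]⟩

theorem TT_mul_qt (a b c d : ℤ) :
    TT p (a * c - b * d) (a * d + b * c) = TT p a b * TT p c d := by
  have e1 : (((a * c - b * d : ℤ) : AlgebraicClosure (ZMod p)) + ((a * d + b * c : ℤ) : AlgebraicClosure (ZMod p)) * I0 p)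
      = ((a : AlgebraicClosure (ZMod p)) + b * I0 p) * ((c : AlgebraicClosure (ZMod p)) + d * I0 p) := by
    push_cast
    linear_combination (-(b : AlgebraicClosure (ZMod p)) * d) * I0_sq p
  have e2 : (((a * c - b * d : ℤ) : AlgebraicClosure (ZMod p)) ^ 2 + ((a * d + b * c : ℤ) : AlgebraicClosure (ZMod p)) ^ 2)
      = ((a : AlgebraicClosure (ZMod p)) ^ 2 + (b : AlgebraicClosure (ZMod p)) ^ 2) *
        ((c : AlgebraicClosure (ZMod p)) ^ 2 + (d : AlgebraicClosure (ZMod p)) ^ 2) := by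
    push_cast
    ring
  unfold TT
  rw [e1, e2]
  split_ifs
  · rw [← mul_pow]
    congr 1
    ring
  · rw [div_mul_div_comm, ← mul_pow]
    congr 2
    ring

theorem psi_mul (hp2 : p ≠ 2) (a b c d : ℤ) :
    psi p (a * c - b * d) (a * d + b * c) = psi p a b * psi p c d := by
  have e2 : (((a * c - b * d : ℤ) : AlgebraicClosure (ZMod p)) ^ 2 + ((a * d + b * c : ℤ) : AlgebraicClosure (ZMod p)) ^ 2)
      = ((a : AlgebraicClosure (ZMod p)) ^ 2 + (b : AlgebraicClosure (ZMod p)) ^ 2) *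
        ((c : AlgebraicClosure (ZMod p)) ^ 2 + (d : AlgebraicClosure (ZMod p)) ^ 2) := by
    push_cast
    ring
  by_cases h1 : (a : AlgebraicClosure (ZMod p)) ^ 2 + (b : AlgebraicClosure (ZMod p)) ^ 2 = 0
  · rw [psi_zero_qt p h1, zero_mul, psi_zero_qt]
    rw [e2, h1, zero_mul]
  by_cases h2 : (c : AlgebraicClosure (ZMod p)) ^ 2 + (d : AlgebraicClosure (ZMod p)) ^ 2 = 0
  · rw [psi_zero_qt p h2, mul_zero, psi_zero_qt]
    rw [e2, h2, mul_zero]
  obtain ⟨r, hr, hr'⟩ := psi_root_qt p hp2 h1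
  obtain ⟨s, hs, hs'⟩ := psi_root_qt p hp2 h2
  rw [psi_kap_qt p (by rw [e2]; exact mul_ne_zero h1 h2), TT_mul_qt, hr, hs, ← pow_add,
    kap_pow_qt p hp2, hr', hs', pow_add]

theorem psi_per (a b s t : ℤ) : psi p (a + p * s) (b + p * t) = psi p a b := by
  have := ch_qt p
  have e : ∀ x y : ℤ, ((x + p * y : ℤ) : AlgebraicClosure (ZMod p)) = x := by
    intro x y
    push_cast
    rw [CharP.cast_eq_zero]
    ring
  unfold psi TT
  rw [e, e]

theorem psi_neg (a b : ℤ) : psi p (-a) (-b) = psi p a b := by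
  have e1 : ((-a : ℤ) : AlgebraicClosure (ZMod p)) ^ 2 + ((-b : ℤ) : AlgebraicClosure (ZMod p)) ^ 2
      = (a : AlgebraicClosure (ZMod p)) ^ 2 + (b : AlgebraicClosure (ZMod p)) ^ 2 := by
    push_cast
    ring
  have e2 : (((-a : ℤ) : AlgebraicClosure (ZMod p)) + ((-b : ℤ) : AlgebraicClosure (ZMod p)) * I0 p) ^ 2
      = ((a : AlgebraicClosure (ZMod p)) + b * I0 p) ^ 2 := by
    push_cast
    ring
  unfold psi TT
  rw [e1, e2]

theorem TT_conj_qt (hp2 : p ≠ 2) {a b : ℤ}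
    (h : (a : AlgebraicClosure (ZMod p)) ^ 2 + (b : AlgebraicClosure (ZMod p)) ^ 2 ≠ 0) :
    TT p a (-b) * TT p a b = 1 := by
  have e1 : (a : AlgebraicClosure (ZMod p)) ^ 2 + ((-b : ℤ) : AlgebraicClosure (ZMod p)) ^ 2
      = (a : AlgebraicClosure (ZMod p)) ^ 2 + (b : AlgebraicClosure (ZMod p)) ^ 2 := by
    push_cast
    ring
  have e2 : ((a : AlgebraicClosure (ZMod p)) + ((-b : ℤ) : AlgebraicClosure (ZMod p)) * I0 p)
      = (a : AlgebraicClosure (ZMod p)) - b * I0 p := by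
    push_cast
    ring
  have e3 : ((a : AlgebraicClosure (ZMod p)) - b * I0 p) ^ 2 *
      ((a : AlgebraicClosure (ZMod p)) ^ 2 + (b : AlgebraicClosure (ZMod p)) ^ 2) *
      (((a : AlgebraicClosure (ZMod p)) + b * I0 p) ^ 2 *
      ((a : AlgebraicClosure (ZMod p)) ^ 2 + (b : AlgebraicClosure (ZMod p)) ^ 2))
      = ((a : AlgebraicClosure (ZMod p)) ^ 2 + (b : AlgebraicClosure (ZMod p)) ^ 2) ^ 4 := by
    have h3 := norm_qt p a b
    calc _ = (((a : AlgebraicClosure (ZMod p)) + b * I0 p) * ((a : AlgebraicClosure (ZMod p)) - b * I0 p)) ^ 2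
          * ((a : AlgebraicClosure (ZMod p)) ^ 2 + (b : AlgebraicClosure (ZMod p)) ^ 2) ^ 2 := by ring
      _ = _ := by rw [h3]; ring
  unfold TT
  rw [e1, e2]
  rcases mod_qt p hp2 with h4 | h4
  · rw [if_pos h4, if_pos h4, ← mul_pow, e3, ← pow_mul, show 4 * ((p - 1) / 4) = p - 1 by omega]
    exact pred_qt p h (nfrob_qt p a b)
  · rw [if_neg (by omega), if_neg (by omega), div_mul_div_comm, ← mul_pow, e3, ← pow_mul,
      show 4 * ((p + 1) / 4) = p + 1 by omega, pow_succ, nfrob_qt]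
    exact div_self (mul_ne_zero h h)

theorem psi_conj (hp2 : p ≠ 2) (a b : ℤ) : psi p a (-b) = (starRingEnd ℂ) (psi p a b) := by
  have e1 : (a : AlgebraicClosure (ZMod p)) ^ 2 + ((-b : ℤ) : AlgebraicClosure (ZMod p)) ^ 2
      = (a : AlgebraicClosure (ZMod p)) ^ 2 + (b : AlgebraicClosure (ZMod p)) ^ 2 := by
    push_cast
    ring
  by_cases h1 : (a : AlgebraicClosure (ZMod p)) ^ 2 + (b : AlgebraicClosure (ZMod p)) ^ 2 = 0
  · rw [psi_zero_qt p h1, psi_zero_qt p (e1.trans h1), map_zero]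
  obtain ⟨r, hr, hr'⟩ := psi_root_qt p hp2 h1
  obtain ⟨s, hs, hs'⟩ := psi_root_qt p hp2 (a := a) (b := -b) (by rw [e1]; exact h1)
  have h2 := TT_conj_qt p hp2 h1
  rw [hr, hs, ← pow_add] at h2
  have h3 : Complex.I ^ (s + r) = 1 := by
    rw [← kap_pow_qt p hp2, h2]
    simp [kap_qt]
  have h4 : (starRingEnd ℂ) (Complex.I ^ r) * Complex.I ^ r = 1 := by
    rw [map_pow, Complex.conj_I, ← mul_pow]
    simp
  rw [hr', hs']
  have h5 : (Complex.I ^ r) ≠ 0 := pow_ne_zero _ Complex.I_ne_zero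
  apply mul_right_cancel₀ h5
  rw [h4, ← pow_add, h3]

theorem psi_one : psi p 1 0 = 1 := by
  have h : ((1 : ℤ) : AlgebraicClosure (ZMod p)) ^ 2 + ((0 : ℤ) : AlgebraicClosure (ZMod p)) ^ 2 ≠ 0 := by
    simp
  rw [psi_kap_qt p h]
  have : TT p 1 0 = 1 := by
    unfold TT
    simp
  rw [this]
  simp [kap_qt]

theorem dvd_qt (a b : ℤ) : (a : AlgebraicClosure (ZMod p)) ^ 2 + (b : AlgebraicClosure (ZMod p)) ^ 2 = 0 ↔
    (p : ℤ) ∣ a ^ 2 + b ^ 2 := by
  have := ch_qt p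
  rw [← CharP.intCast_eq_zero_iff (AlgebraicClosure (ZMod p)) p]
  push_cast
  rfl

theorem psi_norm (hp2 : p ≠ 2) (a b : ℤ) :
    psi p a b = 0 ∧ ((p : ℤ) ∣ a ^ 2 + b ^ 2) ∨ psi p a b ^ 4 = 1 ∧ ¬ ((p : ℤ) ∣ a ^ 2 + b ^ 2) := by
  by_cases h1 : (a : AlgebraicClosure (ZMod p)) ^ 2 + (b : AlgebraicClosure (ZMod p)) ^ 2 = 0
  · exact Or.inl ⟨psi_zero_qt p h1, (dvd_qt p a b).mp h1⟩
  · right
    obtain ⟨r, hr, hr'⟩ := psi_root_qt p hp2 h1
    refine ⟨?_, fun h => h1 ((dvd_qt p a b).mpr h)⟩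
    rw [hr', ← pow_mul, mul_comm, pow_mul, Complex.I_pow_four, one_pow]

theorem psi_sq (hp2 : p ≠ 2) (a b : ℤ) :
    psi p a b ^ 2 = ((jacobiSym (a ^ 2 + b ^ 2) p : ℤ) : ℂ) := by
  rw [← jacobiSym.legendreSym.to_jacobiSym]
  by_cases h1 : (a : AlgebraicClosure (ZMod p)) ^ 2 + (b : AlgebraicClosure (ZMod p)) ^ 2 = 0
  · have h2 : ((a ^ 2 + b ^ 2 : ℤ) : ZMod p) = 0 :=
      (ZMod.intCast_zmod_eq_zero_iff_dvd _ _).mpr ((dvd_qt p a b).mp h1)
    rw [psi_zero_qt p h1, (legendreSym.eq_zero_iff p _).mpr h2]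
    simp
  · obtain ⟨r, hr, hr'⟩ := psi_root_qt p hp2 h1
    have h2 := TT_sq_qt p hp2 h1
    have h0 : ((a ^ 2 + b ^ 2 : ℤ) : ZMod p) ≠ 0 := by
      intro h
      exact h1 ((dvd_qt p a b).mpr ((ZMod.intCast_zmod_eq_zero_iff_dvd _ _).mp h))
    have h3 := congrArg (algebraMap (ZMod p) (AlgebraicClosure (ZMod p)))
      (legendreSym.eq_pow p (a ^ 2 + b ^ 2))
    rw [map_intCast, map_pow, map_intCast] at h3
    push_cast at h3
    rw [← h2, hr, ← pow_mul, mul_comm r 2, pow_mul, I0_sq] at h3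
    have h4 : psi p a b ^ 2 = (-1) ^ r := by
      rw [hr', ← pow_mul, mul_comm r 2, pow_mul, Complex.I_sq]
    rw [h4]
    rcases legendreSym.eq_one_or_neg_one p h0 with h5 | h5 <;>
      rcases neg_one_pow_eq_or ℂ r with h6 | h6 <;> rw [h5, h6]
    · simp
    · exfalso
      have h7 : ¬ Even r := by
        intro he
        rw [he.neg_one_pow] at h6
        norm_num at h6
      rw [h5, (Nat.not_even_iff_odd.mp h7).neg_one_pow] at h3
      apply one_ne_qt p hp2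
      push_cast at h3
      exact h3
    · exfalso
      have h7 : ¬ Odd r := by
        intro he
        rw [he.neg_one_pow] at h6
        norm_num at h6
      rw [h5, (Nat.not_odd_iff_even.mp h7).neg_one_pow] at h3
      apply one_ne_qt p hp2
      push_cast at h3
      exact h3.symm
    · simp

theorem psi_I (hp2 : p ≠ 2) : ∃ a b : ℤ, psi p a b = Complex.I := by
  have hp : p.Prime := Fact.out
  obtain ⟨γ, hγ⟩ : ∃ a : ZMod p, ¬ IsSquare a := by
    apply FiniteField.exists_nonsquare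
    rw [ZMod.ringChar_zmod_n]
    exact hp2
  obtain ⟨a0, b0, hab⟩ := ZMod.sq_add_sq p γ
  obtain ⟨a, rfl⟩ := ZMod.intCast_surjective a0
  obtain ⟨b, rfl⟩ := ZMod.intCast_surjective b0
  have h1 : jacobiSym (a ^ 2 + b ^ 2) p = -1 := by
    rw [← jacobiSym.legendreSym.to_jacobiSym, legendreSym.eq_neg_one_iff]
    push_cast
    rw [hab]
    exact hγ
  have h2 := psi_sq p hp2 a b
  rw [h1] at h2
  have h3 : (psi p a b - Complex.I) * (psi p a b + Complex.I) = 0 := by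
    push_cast at h2
    linear_combination h2 - Complex.I_sq
  rcases mul_eq_zero.mp h3 with h4 | h4
  · exact ⟨a, b, by linear_combination h4⟩
  · refine ⟨a, -b, ?_⟩
    rw [psi_conj p hp2, show psi p a b = -Complex.I by linear_combination h4]
    simp

end Pool.SG
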