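import Pool.Agent.Lib.MP_a51fee_ag.SG.NScale
import Pool.Agent.Lib.MP_a51fee_ag.SG.NSym

/-!
# SG-SAd: the sum over `A`

Let `Λ = La`, `j = j0`, `Y0 = Λ^j/j!`, `P = P1`, all primes of `P` are `> uu`.
PROOF of `A_sum`.
(a) `∑_{A ∈ powersetCard j P} wt A ≥ Y0 (1 - j^2/(2 uu Λ)) ≥ 0.9 Y0` (`esymm_ge`, `j ≤ lv`, `ev_uu`).
(b) `pd A > exp (lv/20)`: `∑_A wt A log (pd A) = ∑_{q ∈ P} (log q/q) ∑_{A' ∈ powersetCard (j-1) (P.erase q)} wt A' ≤
 (∑_{q ∈ P} log q/q) Λ^{j-1}/(j-1)!` (`esymm_le`), and `∑_{q ≤ ww} log q/q ≤ lv/2000 + C` (`mert_log`),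
 `Λ^{j-1}/(j-1)! = (j/Λ) Y0 ≤ Y0/2`.  Markov: `∑_{pd A > exp (lv/20)} wt A ≤ (20/lv)(lv/2000 + C) Y0/2 ≤ 0.1 Y0`.
(c) `A` meets `G`: `≤ ∑_{q ∈ G ∩ P} (1/q) Λ^{j-1}/(j-1)! ≤ (|G|/uu) Y0 ≤ (lv/uu) Y0 ≤ 0.1 Y0`.
So the sum is at least `0.7 Y0 ≥ Y0/4`.
PROOF of `Y0_ge`: `j! ≤ j^j` and `Λ ≥ 2 j`: `Y0 ≥ (Λ/j)^j ≥ 1` (`j ≥ 1`).
-/

set_option autoImplicit false

open Finset

namespace Pool.SG

namespace SAdAux

/-- the sum over the sets containing `q` -/
theorem sum_mem_le (P : Finset ℕ) (j q : ℕ) (hq : q ∈ P) (hj : 1 ≤ j) :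
    ∑ A ∈ (powersetCard j P).filter (fun A => q ∈ A), wt A ≤
      1 / (q : ℝ) * ((∑ r ∈ P, 1 / (r : ℝ)) ^ (j - 1) / (j - 1).factorial) := by
  have h := wt_contain P {q} (singleton_subset_iff.2 hq) j (by simpa using hj)
  simp only [singleton_subset_iff] at h
  rw [h, card_singleton]
  have h1 : wt {q} = 1 / (q : ℝ) := by unfold wt; rw [prod_singleton]
  rw [h1]
  refine mul_le_mul_of_nonneg_left ?_ (by positivity)
  refine (esymm_le _ _).trans ?_
  refine div_le_div_of_nonneg_right ?_ (by positivity)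
  refine pow_le_pow_left₀ (sum_nonneg fun _ _ => by positivity) ?_ _
  exact sum_le_sum_of_subset_of_nonneg sdiff_subset fun _ _ _ => by positivity

theorem P1_mem {κ ℓ : ℝ} {q : ℕ} (h : q ∈ P1 κ ℓ) : q.Prime ∧ uu κ ℓ < q := by
  unfold P1 pr at h
  rw [mem_filter] at h
  exact h.2

theorem log_pd (A : Finset ℕ) (hA : ∀ q ∈ A, q.Prime) :
    Real.log (pd A) = ∑ q ∈ A, Real.log q := by
  unfold pd
  rw [Nat.cast_prod, Real.log_prod]
  intro q hq
  have := (hA q hq).pos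
  positivity

/-- first moment of `log (pd A)` -/
theorem sum_log_le (P : Finset ℕ) (hP : ∀ q ∈ P, q.Prime) (j : ℕ) (hj : 1 ≤ j) :
    ∑ A ∈ powersetCard j P, wt A * Real.log (pd A) ≤
      (∑ q ∈ P, Real.log q / q) *
        ((∑ r ∈ P, 1 / (r : ℝ)) ^ (j - 1) / (j - 1).factorial) := by
  have h1 : ∑ A ∈ powersetCard j P, wt A * Real.log (pd A) =
      ∑ q ∈ P, Real.log q * ∑ A ∈ (powersetCard j P).filter (fun A => q ∈ A), wt A := by
    have h2 : ∀ A ∈ powersetCard j P, wt A * Real.log (pd A) =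
        ∑ q ∈ P, (if q ∈ A then wt A * Real.log q else 0) := by
      intro A hA
      rw [mem_powersetCard] at hA
      rw [log_pd A (fun q hq => hP q (hA.1 hq)), mul_sum, ← sum_filter]
      refine sum_congr ?_ fun _ _ => rfl
      ext q
      rw [mem_filter]
      exact ⟨fun h => ⟨hA.1 h, h⟩, fun h => h.2⟩
    rw [sum_congr rfl h2, sum_comm]
    refine sum_congr rfl fun q _ => ?_
    rw [mul_sum, sum_filter]
    refine sum_congr rfl fun A _ => ?_
    split_ifs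
    · ring
    · rfl
  rw [h1, sum_mul]
  refine sum_le_sum fun q hq => ?_
  have h3 : 0 ≤ Real.log (q : ℝ) := Real.log_natCast_nonneg q
  refine (mul_le_mul_of_nonneg_left (sum_mem_le P j q hq hj) h3).trans (le_of_eq ?_)
  ring

/-- `Λ^(j-1)/(j-1)! = (j/Λ) Λ^j/j!` -/
theorem shift_eq (Λ : ℝ) (hΛ : 0 < Λ) (j : ℕ) (hj : 1 ≤ j) :
    Λ ^ (j - 1) / (j - 1).factorial = j / Λ * (Λ ^ j / j.factorial) := by
  obtain ⟨k, rfl⟩ : ∃ k, j = k + 1 := ⟨j - 1, by omega⟩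
  rw [Nat.add_sub_cancel, Nat.factorial_succ]
  have h1 : (k.factorial : ℝ) ≠ 0 := by positivity
  have h2 : ((k : ℝ) + 1) ≠ 0 := by positivity
  push_cast
  rw [pow_succ]
  field_simp

end SAdAux

open SAdAux

open scoped Classical in
theorem A_sum : Ev fun κ ℓ => ∀ G : Finset ℕ, (G.card : ℝ) ≤ lv κ ℓ →
    1 / 4 * (La κ ℓ ^ j0 κ ℓ / (j0 κ ℓ).factorial) ≤
      ∑ A ∈ (AA κ ℓ).filter (fun A => Disjoint A G), wt A := by
  obtain ⟨C, hC, hlog⟩ := mert_log
  refine ((((j0_facts.and (La_large 1)).and (ev_uu 10 2 0)).and (ev_lv_const (200 * C))).and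
    (ev_lv_const 2000)).mono ?_
  rintro κ ℓ ⟨⟨⟨⟨⟨hj1, hj2, -, hj3⟩, hΛ1⟩, huu⟩, hlvC⟩, hlv⟩ G hG
  rw [pow_zero, mul_one] at huu
  set Λ := La κ ℓ with hΛ
  set j := j0 κ ℓ with hj
  set P := P1 κ ℓ with hP
  have hPprime : ∀ q ∈ P, q.Prime := fun q hq => (P1_mem hq).1
  have hPu : ∀ q ∈ P, uu κ ℓ ≤ (q : ℝ) := fun q hq => (P1_mem hq).2.le
  have hlv0 : 0 < lv κ ℓ := Real.exp_pos _
  have huu0 : 0 < uu κ ℓ := Real.exp_pos _
  have hΛ0 : 0 < Λ := by linarith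
  set Y : ℝ := Λ ^ j / j.factorial with hY
  have hY0 : 0 < Y := by positivity
  have hΛsum : ∑ q ∈ P, 1 / (q : ℝ) = Λ := rfl
  -- (a)
  have ha : 9 / 10 * Y ≤ ∑ A ∈ powersetCard j P, wt A := by
    have h1 := esymm_ge P (uu κ ℓ) huu0 hPu (by rw [hΛsum]; exact hΛ0) j
    rw [hΛsum] at h1
    refine le_trans ?_ h1
    have h2 : (j : ℝ) ^ 2 / (2 * uu κ ℓ * Λ) ≤ 1 / 10 := by
      rw [div_le_iff₀ (by positivity)]
      have h3 : (j : ℝ) ^ 2 ≤ lv κ ℓ ^ 2 := pow_le_pow_left₀ (Nat.cast_nonneg _) hj3 2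
      have h4 : uu κ ℓ ≤ uu κ ℓ * Λ := by nlinarith
      linarith
    rw [← hY]
    nlinarith
  -- the shifted sum
  have hsh : Λ ^ (j - 1) / (j - 1).factorial ≤ Y / 2 := by
    rw [shift_eq Λ hΛ0 j hj1, ← hY]
    have h1 : (j : ℝ) / Λ ≤ 1 / 2 := by
      rw [div_le_iff₀ hΛ0]; linarith
    nlinarith
  have hsh0 : 0 ≤ Λ ^ (j - 1) / (j - 1).factorial := by positivity
  -- (b)
  have hww1 : 1 ≤ ww κ ℓ := by
    unfold ww; exact Real.one_le_exp (by positivity)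
  have hlogsum : ∑ q ∈ P, Real.log q / q ≤ lv κ ℓ / 2000 + C := by
    have h1 := hlog (ww κ ℓ) hww1
    have h2 : Real.log (ww κ ℓ) = lv κ ℓ / 2000 := by unfold ww; rw [Real.log_exp]
    rw [h2] at h1
    refine le_trans ?_ h1
    refine sum_le_sum_of_subset_of_nonneg ?_ ?_
    · intro q hq
      have hw0 : 0 ≤ ww κ ℓ := by linarith
      rw [hP] at hq
      unfold P1 at hq
      rw [mem_pr hw0] at hq
      rw [mem_pr hw0]
      exact ⟨hq.1, by exact_mod_cast hq.1.one_lt, hq.2.2⟩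
    · intro q _ _
      exact div_nonneg (Real.log_natCast_nonneg q) (Nat.cast_nonneg q)
  have hb : ∑ A ∈ (powersetCard j P).filter
      (fun A => ¬ (pd A : ℝ) ≤ Real.exp (lv κ ℓ / 20)), wt A ≤ 1 / 10 * Y := by
    have h1 : lv κ ℓ / 20 * ∑ A ∈ (powersetCard j P).filter
        (fun A => ¬ (pd A : ℝ) ≤ Real.exp (lv κ ℓ / 20)), wt A ≤
        ∑ A ∈ powersetCard j P, wt A * Real.log (pd A) := by
      rw [mul_sum]
      refine le_trans (sum_le_sum (g := fun A => wt A * Real.log (pd A)) ?_) ?_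
      · intro A hA
        rw [mem_filter, not_le] at hA
        have h2 : lv κ ℓ / 20 ≤ Real.log (pd A) := by
          rw [Real.le_log_iff_exp_le (lt_trans (Real.exp_pos _) hA.2)]
          exact hA.2.le
        rw [mul_comm]
        exact mul_le_mul_of_nonneg_left h2 (wt_nonneg A)
      · refine sum_le_sum_of_subset_of_nonneg (filter_subset _ _) ?_
        intro A _ _
        exact mul_nonneg (wt_nonneg A) (Real.log_natCast_nonneg _)
    have h2 := h1.trans (sum_log_le P hPprime j hj1)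
    rw [hΛsum] at h2
    have h3 : (∑ q ∈ P, Real.log q / q) * (Λ ^ (j - 1) / (j - 1).factorial) ≤
        (lv κ ℓ / 2000 + C) * (Y / 2) :=
      mul_le_mul hlogsum hsh hsh0 (by positivity)
    have h4 := h2.trans h3
    have h5 : (lv κ ℓ / 2000 + C) * (Y / 2) ≤ lv κ ℓ / 20 * (1 / 10 * Y) := by
      have h6 : (lv κ ℓ / 2000 + C) ≤ lv κ ℓ / 100 := by linarith
      nlinarith
    exact le_of_mul_le_mul_left (h4.trans h5) (by positivity)
  -- (c)
  have hc : ∑ A ∈ (powersetCard j P).filter (fun A => ¬ Disjoint A G), wt A ≤ 1 / 10 * Y := by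
    have h1 : ∑ A ∈ (powersetCard j P).filter (fun A => ¬ Disjoint A G), wt A ≤
        ∑ q ∈ G.filter (fun q => q ∈ P),
          ∑ A ∈ (powersetCard j P).filter (fun A => q ∈ A), wt A := by
      have h2 : ∑ q ∈ G.filter (fun q => q ∈ P),
          ∑ A ∈ (powersetCard j P).filter (fun A => q ∈ A), wt A =
          ∑ A ∈ powersetCard j P, ∑ q ∈ G.filter (fun q => q ∈ P),
            (if q ∈ A then wt A else 0) := by
        rw [sum_comm]
        refine sum_congr rfl fun q _ => ?_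
        rw [sum_filter]
      rw [h2, sum_filter]
      refine sum_le_sum fun A hA => ?_
      rw [mem_powersetCard] at hA
      by_cases hd : Disjoint A G
      · rw [if_neg (not_not.2 hd)]
        refine sum_nonneg fun q _ => ?_
        split_ifs
        · exact wt_nonneg A
        · exact le_rfl
      · rw [if_pos hd]
        rw [not_disjoint_iff] at hd
        obtain ⟨q, hqA, hqG⟩ := hd
        have h3 : q ∈ G.filter (fun q => q ∈ P) := mem_filter.2 ⟨hqG, hA.1 hqA⟩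
        have h4 := single_le_sum (f := fun q => if q ∈ A then wt A else 0) (s :=
          G.filter (fun q => q ∈ P)) (fun q _ => by
            split_ifs
            · exact wt_nonneg A
            · exact le_rfl) h3
        simpa only [if_pos hqA] using h4
    refine h1.trans ?_
    have h2 : ∀ q ∈ G.filter (fun q => q ∈ P),
        ∑ A ∈ (powersetCard j P).filter (fun A => q ∈ A), wt A ≤ 1 / uu κ ℓ * (Y / 2) := by
      intro q hq
      rw [mem_filter] at hq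
      have h3 := sum_mem_le P j q hq.2 hj1
      rw [hΛsum] at h3
      refine h3.trans ?_
      exact mul_le_mul (one_div_le_one_div_of_le huu0 (hPu q hq.2)) hsh hsh0 (by positivity)
    refine (sum_le_card_nsmul _ _ _ h2).trans ?_
    rw [nsmul_eq_mul]
    have h3 : (((G.filter (fun q => q ∈ P)).card : ℕ) : ℝ) ≤ lv κ ℓ := by
      refine le_trans ?_ hG
      exact_mod_cast card_filter_le _ _
    have h4 : (((G.filter (fun q => q ∈ P)).card : ℕ) : ℝ) * (1 / uu κ ℓ * (Y / 2)) ≤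
        lv κ ℓ * (1 / uu κ ℓ * (Y / 2)) :=
      mul_le_mul_of_nonneg_right h3 (by positivity)
    refine h4.trans ?_
    have h5 : lv κ ℓ * (1 / uu κ ℓ) ≤ 1 / 10 := by
      rw [mul_one_div, div_le_iff₀ huu0]
      have h6 : lv κ ℓ ≤ lv κ ℓ ^ 2 := by nlinarith
      linarith
    have h7 : lv κ ℓ * (1 / uu κ ℓ * (Y / 2)) = lv κ ℓ * (1 / uu κ ℓ) * (Y / 2) := by ring
    rw [h7]
    nlinarith
  -- conclusion
  have hsplit : ∑ A ∈ powersetCard j P, wt A ≤
      ∑ A ∈ (AA κ ℓ).filter (fun A => Disjoint A G), wt A +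
      ∑ A ∈ (powersetCard j P).filter
        (fun A => ¬ (pd A : ℝ) ≤ Real.exp (lv κ ℓ / 20)), wt A +
      ∑ A ∈ (powersetCard j P).filter (fun A => ¬ Disjoint A G), wt A := by
    have h1 : (AA κ ℓ).filter (fun A => Disjoint A G) =
        (powersetCard j P).filter
          (fun A => (pd A : ℝ) ≤ Real.exp (lv κ ℓ / 20) ∧ Disjoint A G) := by
      unfold AA
      rw [filter_filter]
    rw [h1, sum_filter, sum_filter, sum_filter, ← sum_add_distrib, ← sum_add_distrib]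
    refine sum_le_sum fun A _ => ?_
    have h2 := wt_nonneg A
    by_cases h3 : (pd A : ℝ) ≤ Real.exp (lv κ ℓ / 20)
    · by_cases h4 : Disjoint A G
      · simp [h3, h4]
      · simp [h3, h4]
    · by_cases h4 : Disjoint A G
      · simp [h3, h4]
      · simp [h3, h4]
        exact h2
  linarith

theorem A_up : Ev fun κ ℓ => ∑ A ∈ AA κ ℓ, wt A ≤ La κ ℓ ^ j0 κ ℓ / (j0 κ ℓ).factorial := by
  refine (ev_ell 0).mono fun κ ℓ _ => ?_
  refine le_trans ?_ (esymm_le (P1 κ ℓ) (j0 κ ℓ))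
  unfold AA
  exact sum_le_sum_of_subset_of_nonneg (filter_subset _ _) fun A _ _ => wt_nonneg A

theorem Y0_ge : Ev fun κ ℓ => 1 ≤ La κ ℓ ^ j0 κ ℓ / (j0 κ ℓ).factorial := by
  refine (j0_facts.and (La_large 1)).mono ?_
  rintro κ ℓ ⟨⟨hj1, hj2, -, -⟩, hΛ1⟩
  rw [le_div_iff₀ (by positivity), one_mul]
  have h1 : ((j0 κ ℓ).factorial : ℝ) ≤ (j0 κ ℓ : ℝ) ^ (j0 κ ℓ) := by
    exact_mod_cast Nat.factorial_le_pow (j0 κ ℓ)
  refine h1.trans ?_
  refine pow_le_pow_left₀ (Nat.cast_nonneg _) ?_ _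
  have : (0 : ℝ) ≤ (j0 κ ℓ : ℝ) := Nat.cast_nonneg _
  linarith

end Pool.SG
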