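import Pool.Agent.Lib.MP_a51fee_ag.SG.SD
import Pool.Agent.Lib.MP_a51fee_ag.SG.BPQ
import Pool.Agent.Lib.MP_a51fee_ag.SG.NScale

/-!
# SG-SF: the sum over `f`

Let `v1 = exp (lv / 100)`, `P = {q ≤ v1 | PQ}`, all odd (`PP_basic`), `χ(n) = 1, -1` for `n ≡ 1, 3 mod 4`.
PROOF of `f_sum`.
(1) `∑_{G ⊆ P} wt G = ∏ (1 + 1/q) =: E`, `∑_{G ⊆ P} χ(pd G) wt G = ∏ (1 + χ(q)/q)`.  As `pd G` is odd and
 `ρ` is odd, `(pd G + ρ) % 4 = 0` iff `χ(pd G) = -χ(ρ)`, so the sum over these `G` is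
 `(1/2)(E - χ(ρ) ∏ (1 + χ(q)/q)) ≥ (1/2)(E - |∏ (1 + χ(q)/q)|)`.
 `|∏ (1 + χ(q)/q)| = E ∏_{q ≡ 3} (1 - 1/q)/(1 + 1/q) ≤ E exp (-2 ∑_{q ≡ 3, PQ, q ≤ v1} 1/q)`
 (`(1 - x)/(1 + x) ≤ exp (-2 x)`, `x ≥ 0`), and `∑_{q ≡ 3, PQ, q ≤ v1} 1/q ≥ (1/4) κ ℓ - 3 log ℓ - C`
 (`PQ3_low` minus `∑_{q ∈ (v1, v]} 1/q ≤ log 100 + C`, `mert_inv`), which tends to infinity.  So the sum is
 `≥ 0.49 E` for large `ℓ`.
(2) Tail (Rankin): `δ = 100 / lv`.  `∑_{G ⊆ P, pd G > exp (lv/10)} wt G ≤ exp(-δ lv/10) ∏_{q ∈ P} (1 + q^{δ-1})`,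
 `exp (-δ lv/10) = e^{-10}`; `q^δ = exp (δ log q)`, `δ log q ≤ 1`, `exp t ≤ 1 + 2 t`: `1 + q^{δ-1} ≤ 1 + 1/q + 2 δ log q/q ≤
 (1 + 1/q) exp (2 δ log q/q)`; `∑_{q ≤ v1} log q/q ≤ lv/100 + C` (`mert_log`), so the tail is
 `≤ E exp (-10 + 2 + 200 C/lv) ≤ 0.01 E` for large `ℓ`.
(3) `E = ∏ (1 - 1/q^2) ∏ (1 - 1/q)^{-1} ≥ c ∏_{q ≤ v1, PQ} (1 - 1/q)^{-1} ≥ c' ∏_{q ≤ v, PQ} (1 - 1/q)^{-1}`:
 `∏ (1 - 1/q^2) ≥ 1/4` (e.g. `1 - x ≥ exp (-2x)`, `∑_q 1/q^2 ≤ 0.5`; any constant is fine), and the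
 primes in `(v1, v]` contribute at most `exp (∑ 1/q + 1)` (`prod_ge`).
-/

set_option autoImplicit false

open Finset

namespace Pool.SG

private theorem sf_two {q : ℕ} (h : q.Prime) : (2 : ℝ) ≤ q := by exact_mod_cast h.two_le

private theorem sf_E_low (P : Finset ℕ) (hP : ∀ q ∈ P, q.Prime) :
    Real.exp (∑ q ∈ P, 1 / (q : ℝ) - 1) ≤ ∏ q ∈ P, (1 + 1 / (q : ℝ)) := by
  have hpos : ∀ q ∈ P, (0 : ℝ) < 1 + 1 / (q : ℝ) := fun q _ => by positivity
  have hprod : 0 < ∏ q ∈ P, (1 + 1 / (q : ℝ)) := prod_pos hpos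
  rw [← Real.le_log_iff_exp_le hprod, Real.log_prod (fun q hq => (hpos q hq).ne')]
  have h1 : ∀ q ∈ P, 1 / (q : ℝ) - 1 / ((q : ℝ) * (q - 1)) ≤ Real.log (1 + 1 / (q : ℝ)) := by
    intro q hq
    have h2 := sf_two (hP q hq)
    have h3 := Real.one_sub_inv_le_log_of_pos (hpos q hq)
    refine le_trans ?_ h3
    have hq0 : (q : ℝ) ≠ 0 := by positivity
    have hq1 : (q : ℝ) + 1 ≠ 0 := by positivity
    have h4 : 1 - (1 + 1 / (q : ℝ))⁻¹ = 1 / ((q : ℝ) + 1) := by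
      field_simp
      ring
    rw [h4]
    have h5 : 1 / (q : ℝ) - 1 / ((q : ℝ) + 1) = 1 / ((q : ℝ) * (q + 1)) := by
      field_simp
      ring
    have h6 : 1 / ((q : ℝ) * (q + 1)) ≤ 1 / ((q : ℝ) * (q - 1)) := by
      refine one_div_le_one_div_of_le ?_ ?_
      · exact mul_pos (by linarith) (by linarith)
      · exact mul_le_mul_of_nonneg_left (by linarith) (by linarith)
    linarith
  refine le_trans ?_ (sum_le_sum h1)
  rw [sum_sub_distrib]
  have h6 : ∑ q ∈ P, 1 / ((q : ℝ) * (q - 1)) ≤ 1 := by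
    set N := P.sup id with hN
    have h7 : P ⊆ Ico 2 (N + 2) := by
      intro q hq
      rw [mem_Ico]
      have h8 : q ≤ N := le_sup (f := id) hq
      exact ⟨(hP q hq).two_le, by omega⟩
    have h8 := Pool.Agent.Lib.MP_c77da8_nt.Mert.sum_tail N
    have h9 : 0 ≤ 1 / ((N : ℝ) + 1) := by positivity
    refine (sum_le_sum_of_subset_of_nonneg h7 ?_).trans (h8.trans (by linarith))
    intro q hq _
    rw [mem_Ico] at hq
    have : (2 : ℝ) ≤ q := by exact_mod_cast hq.1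
    have : (0 : ℝ) < (q : ℝ) - 1 := by linarith
    positivity
  linarith

private noncomputable def ch (n : ℕ) : ℝ := ((ZMod.χ₄ (n : ZMod 4) : ℤ) : ℝ)

private theorem ch_pd (G : Finset ℕ) : ch (pd G) = ∏ q ∈ G, ch q := by
  unfold ch pd
  rw [Nat.cast_prod, map_prod, Int.cast_prod]

private theorem ch_one {n : ℕ} (h : n % 4 = 1) : ch n = 1 := by
  unfold ch
  rw [ZMod.χ₄_nat_one_mod_four h]
  norm_num

private theorem ch_three {n : ℕ} (h : n % 4 = 3) : ch n = -1 := by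
  unfold ch
  rw [ZMod.χ₄_nat_three_mod_four h]
  norm_num

private theorem odd_mod {n : ℕ} (h : Odd n) : n % 4 = 1 ∨ n % 4 = 3 := by
  have := Nat.odd_iff.1 h
  omega

private theorem ch_ind {n ρ : ℕ} (hn : Odd n) (hρ : Odd ρ) :
    (if (n + ρ) % 4 = 0 then (1 : ℝ) else 0) = (1 - ch n * ch ρ) / 2 := by
  rcases odd_mod hn with h1 | h1 <;> rcases odd_mod hρ with h2 | h2
  · rw [ch_one h1, ch_one h2, if_neg (by omega)]
    norm_num
  · rw [ch_one h1, ch_three h2, if_pos (by omega)]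
    norm_num
  · rw [ch_three h1, ch_one h2, if_pos (by omega)]
    norm_num
  · rw [ch_three h1, ch_three h2, if_neg (by omega)]
    norm_num

private theorem odd_pd {G : Finset ℕ} (h : ∀ q ∈ G, Odd q) : Odd (pd G) := by
  unfold pd
  exact Finset.prod_induction _ _ (fun a b ha hb => ha.mul hb) odd_one h

private theorem sum_wt (P : Finset ℕ) (f : ℕ → ℝ) :
    ∑ G ∈ P.powerset, ∏ q ∈ G, f q = ∏ q ∈ P, (1 + f q) := by
  rw [Finset.prod_one_add]

/-- the parity condition -/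
private theorem sf_par (P : Finset ℕ) (hP : ∀ q ∈ P, q.Prime) (ho : ∀ q ∈ P, Odd q) {ρ : ℕ}
    (hρ : Odd ρ) (h3 : 4 ≤ ∑ q ∈ P.filter (fun q => q % 4 = 3), 1 / (q : ℝ)) :
    49 / 100 * ∏ q ∈ P, (1 + 1 / (q : ℝ)) ≤
      ∑ G ∈ P.powerset.filter (fun G => (pd G + ρ) % 4 = 0), wt G := by
  set E : ℝ := ∏ q ∈ P, (1 + 1 / (q : ℝ)) with hE
  have hE0 : 0 < E := prod_pos fun q _ => by positivity
  set Q : ℝ := ∏ q ∈ P, (1 + ch q * (1 / (q : ℝ))) with hQ
  have h1 : ∑ G ∈ P.powerset.filter (fun G => (pd G + ρ) % 4 = 0), wt G =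
      (E - ch ρ * Q) / 2 := by
    rw [sum_filter]
    have h2 : ∀ G ∈ P.powerset, (if (pd G + ρ) % 4 = 0 then wt G else 0) =
        (∏ q ∈ G, 1 / (q : ℝ)) / 2 - ch ρ / 2 * ∏ q ∈ G, (ch q * (1 / (q : ℝ))) := by
      intro G hG
      have hG' := mem_powerset.1 hG
      have h4 := ch_ind (odd_pd fun q hq => ho q (hG' hq)) hρ
      have h5 : (if (pd G + ρ) % 4 = 0 then wt G else 0) =
          (if (pd G + ρ) % 4 = 0 then (1 : ℝ) else 0) * wt G := by
        split_ifs <;> ring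
      rw [h5, h4, ch_pd, prod_mul_distrib]
      unfold wt
      ring
    rw [sum_congr rfl h2, sum_sub_distrib, ← sum_div, ← mul_sum, sum_wt, sum_wt]
    ring
  have h4 : |Q| ≤ E * Real.exp (-(∑ q ∈ P.filter (fun q => q % 4 = 3), 1 / (q : ℝ))) := by
    rw [sum_filter, ← sum_neg_distrib, Real.exp_sum, hE, ← prod_mul_distrib, hQ, abs_prod]
    refine prod_le_prod (fun q _ => abs_nonneg _) fun q hq => ?_
    have h2 := sf_two (hP q hq)
    have hx : 1 / (q : ℝ) ≤ 1 / 2 := one_div_le_one_div_of_le (by norm_num) h2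
    have hx0 : 0 < 1 / (q : ℝ) := by positivity
    rcases odd_mod (ho q hq) with h5 | h5
    · rw [ch_one h5, if_neg (by omega), one_mul, neg_zero, Real.exp_zero, mul_one,
        abs_of_pos (by linarith)]
    · rw [ch_three h5, if_pos h5, abs_of_pos (by linarith)]
      have h6 := Real.add_one_le_exp (-(1 / (q : ℝ)))
      have h7 := Real.exp_pos (-(1 / (q : ℝ)))
      nlinarith
  have h5 : |ch ρ| = 1 := by
    rcases odd_mod hρ with h | h
    · rw [ch_one h, abs_one]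
    · rw [ch_three h, abs_neg, abs_one]
  have h6 : ch ρ * Q ≤ E * (1 / 50) := by
    calc ch ρ * Q ≤ |ch ρ * Q| := le_abs_self _
      _ = |Q| := by rw [abs_mul, h5, one_mul]
      _ ≤ E * Real.exp (-(∑ q ∈ P.filter (fun q => q % 4 = 3), 1 / (q : ℝ))) := h4
      _ ≤ E * (1 / 50) := by
        refine mul_le_mul_of_nonneg_left ?_ hE0.le
        refine (Real.exp_le_exp.2 (neg_le_neg h3)).trans ?_
        rw [Real.exp_neg, one_div]
        refine inv_anti₀ (by norm_num) ?_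
        have h8 : Real.exp 4 = Real.exp 1 ^ 4 := by
          rw [← Real.exp_nat_mul]
          norm_num
        rw [h8]
        have h9 := Real.exp_one_gt_d9
        have h10 : (2.7 : ℝ) ^ 4 ≤ Real.exp 1 ^ 4 :=
          pow_le_pow_left₀ (by norm_num) (by linarith) 4
        norm_num at h10 ⊢
        linarith
  rw [h1]
  linarith

/-- the tail -/
private theorem sf_tail (P : Finset ℕ) (hP : ∀ q ∈ P, q.Prime) {L C : ℝ} (hL : 0 < L)
    (hlog : ∀ q ∈ P, Real.log q ≤ L / 100) (hsum : ∑ q ∈ P, Real.log q / q ≤ L / 100 + C)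
    (hC : 200 * C ≤ L) :
    ∑ G ∈ P.powerset.filter (fun G => ¬ (pd G : ℝ) ≤ Real.exp (L / 10)), wt G ≤
      1 / 100 * ∏ q ∈ P, (1 + 1 / (q : ℝ)) := by
  set δ : ℝ := 100 / L with hδ
  have hδ0 : 0 < δ := by positivity
  set r : ℕ → ℝ := fun q => Real.exp (δ * Real.log q) * (1 / (q : ℝ)) with hr
  have hr0 : ∀ q, 0 ≤ r q := fun q => by positivity
  have h1 : ∑ G ∈ P.powerset.filter (fun G => ¬ (pd G : ℝ) ≤ Real.exp (L / 10)), wt G ≤
      Real.exp (-10) * ∏ q ∈ P, (1 + r q) := by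
    rw [← sum_wt, mul_sum]
    refine (sum_le_sum (g := fun G => Real.exp (-10) * ∏ q ∈ G, r q) ?_).trans
      (sum_le_sum_of_subset_of_nonneg (filter_subset _ _) fun G _ _ =>
        mul_nonneg (Real.exp_pos _).le (prod_nonneg fun q _ => hr0 q))
    intro G hG
    obtain ⟨hG1, hG2⟩ := mem_filter.1 hG
    have hG' := mem_powerset.1 hG1
    rw [not_le] at hG2
    have h2 : ∏ q ∈ G, r q = Real.exp (δ * Real.log (pd G : ℝ)) * wt G := by
      rw [hr, prod_mul_distrib]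
      congr 1
      rw [← Real.exp_sum, ← mul_sum]
      congr 2
      unfold pd
      rw [Nat.cast_prod, Real.log_prod]
      intro q hq
      have := (hP q (hG' hq)).pos
      positivity
    have h3 : 10 ≤ δ * Real.log (pd G : ℝ) := by
      have h4 : L / 10 ≤ Real.log (pd G : ℝ) :=
        (Real.le_log_iff_exp_le ((Real.exp_pos _).trans hG2)).2 hG2.le
      calc (10 : ℝ) = δ * (L / 10) := by
            rw [hδ]
            field_simp
            norm_num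
        _ ≤ _ := mul_le_mul_of_nonneg_left h4 hδ0.le
    rw [h2, ← mul_assoc, ← Real.exp_add]
    have h5 : 1 ≤ Real.exp (-10 + δ * Real.log (pd G : ℝ)) := Real.one_le_exp (by linarith)
    have h6 := wt_nonneg G
    nlinarith
  have h2 : ∏ q ∈ P, (1 + r q) ≤ (∏ q ∈ P, (1 + 1 / (q : ℝ))) * Real.exp 3 := by
    have h3 : ∏ q ∈ P, (1 + r q) ≤
        ∏ q ∈ P, (1 + 1 / (q : ℝ)) * Real.exp (2 * δ * (Real.log q / q)) := by
      refine prod_le_prod (fun q _ => by have := hr0 q; linarith) fun q hq => ?_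
      have hq2 := sf_two (hP q hq)
      have hq0 : (0 : ℝ) < q := by linarith
      have hl0 : 0 ≤ Real.log (q : ℝ) := Real.log_nonneg (by linarith)
      have ht0 : 0 ≤ δ * Real.log (q : ℝ) := by positivity
      have ht1 : δ * Real.log (q : ℝ) ≤ 1 := by
        calc δ * Real.log (q : ℝ) ≤ δ * (L / 100) := mul_le_mul_of_nonneg_left (hlog q hq) hδ0.le
          _ = 1 := by
            rw [hδ]
            field_simp
      have h4 := Real.abs_exp_sub_one_le (x := δ * Real.log (q : ℝ)) (by rwa [abs_of_nonneg ht0])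
      rw [abs_of_nonneg ht0] at h4
      have h5 := (le_abs_self _).trans h4
      have h6 : r q ≤ 1 / (q : ℝ) + 2 * δ * (Real.log q / q) := by
        have h7 : r q ≤ (1 + 2 * (δ * Real.log (q : ℝ))) * (1 / (q : ℝ)) :=
          mul_le_mul_of_nonneg_right (by linarith) (by positivity)
        refine h7.trans (le_of_eq ?_)
        field_simp
      have hy : 0 ≤ 2 * δ * (Real.log q / q) := by positivity
      have h8 := Real.add_one_le_exp (2 * δ * (Real.log q / q))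
      have h9 : 0 < 1 / (q : ℝ) := by positivity
      calc 1 + r q ≤ 1 + 1 / (q : ℝ) + 2 * δ * (Real.log q / q) := by linarith
        _ ≤ (1 + 1 / (q : ℝ)) * (2 * δ * (Real.log q / q) + 1) := by nlinarith
        _ ≤ _ := mul_le_mul_of_nonneg_left h8 (by positivity)
    refine h3.trans ?_
    rw [prod_mul_distrib, ← Real.exp_sum, ← mul_sum]
    refine mul_le_mul_of_nonneg_left (Real.exp_le_exp.2 ?_) (prod_nonneg fun q _ => by positivity)
    calc 2 * δ * ∑ q ∈ P, Real.log (q : ℝ) / q ≤ 2 * δ * (L / 100 + C) :=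
          mul_le_mul_of_nonneg_left hsum (by positivity)
      _ ≤ 2 * δ * (L / 100 + L / 200) := by
          refine mul_le_mul_of_nonneg_left ?_ (by positivity)
          linarith
      _ = 3 := by
          rw [hδ]
          field_simp
          norm_num
  have hE0 : 0 ≤ ∏ q ∈ P, (1 + 1 / (q : ℝ)) := prod_nonneg fun q _ => by positivity
  have h7 : Real.exp (-10) * Real.exp 3 ≤ 1 / 100 := by
    rw [← Real.exp_add, show (-10 : ℝ) + 3 = -7 by norm_num, Real.exp_neg, one_div]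
    refine inv_anti₀ (by norm_num) ?_
    have h8 : Real.exp 7 = Real.exp 1 ^ 7 := by
      rw [← Real.exp_nat_mul]
      norm_num
    rw [h8]
    have h9 := Real.exp_one_gt_d9
    have h10 : (2 : ℝ) ^ 7 ≤ Real.exp 1 ^ 7 :=
      pow_le_pow_left₀ (by norm_num) (by linarith) 7
    norm_num at h10 ⊢
    linarith
  calc _ ≤ Real.exp (-10) * ∏ q ∈ P, (1 + r q) := h1
    _ ≤ Real.exp (-10) * ((∏ q ∈ P, (1 + 1 / (q : ℝ))) * Real.exp 3) :=
        mul_le_mul_of_nonneg_left h2 (Real.exp_pos _).le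
    _ = (Real.exp (-10) * Real.exp 3) * ∏ q ∈ P, (1 + 1 / (q : ℝ)) := by ring
    _ ≤ _ := mul_le_mul_of_nonneg_right h7 hE0

open scoped Classical in
theorem f_sum {p : ℕ} (hp : p.Prime) (hp2 : p ≠ 2) {ρ : ℕ} (hρ : Odd ρ) :
    ∃ c : ℝ, 0 < c ∧ Ev fun κ ℓ =>
      c * (∏ q ∈ (pr 1 (vv κ ℓ)).filter (PQ p (zz ℓ) (YY ℓ)), (1 - 1 / (q : ℝ)))⁻¹ ≤
        ∑ G ∈ FF p ρ κ ℓ, wt G := by
  obtain ⟨C1, hC1, -, hm⟩ := mert_inv
  obtain ⟨C2, hC2, hml⟩ := mert_log
  obtain ⟨C3, hC3, hPQ3⟩ := PQ3_low (p := p) hp hp2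
  have hl100 : 0 ≤ Real.log 100 := Real.log_nonneg (by norm_num)
  refine ⟨48 / 100 * Real.exp (-(2 + Real.log 100 + C1)), by positivity, ?_⟩
  refine ((((hPQ3.and (ev_lv_const (200 * C2 + 200))).and
    (ev_lv (Real.exp (4 + Real.log 100 + C1 + C3)) 3 (a := 1 / 4) (by norm_num))).and
    (ev_ell 1))).mono ?_
  rintro κ ℓ ⟨⟨⟨h3, hlv⟩, hev⟩, hell⟩
  have hlv200 : 200 ≤ lv κ ℓ := by linarith
  have hlv0 : 0 < lv κ ℓ := by linarith
  set L : ℝ := lv κ ℓ with hL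
  set v1 : ℝ := Real.exp (L / 100) with hv1
  have hv1' : (2 : ℝ) ≤ v1 := by
    have h1 := Real.add_one_le_exp (L / 100)
    linarith
  have hv10 : (0 : ℝ) ≤ v1 := by linarith
  have hvv : v1 ≤ vv κ ℓ := by
    unfold vv
    rw [hv1]
    exact Real.exp_le_exp.2 (by linarith)
  have hvv0 : 0 ≤ vv κ ℓ := hv10.trans hvv
  -- the primes in `(v1, v]`
  have hmid : ∑ q ∈ pr v1 (vv κ ℓ), 1 / (q : ℝ) ≤ Real.log 100 + C1 := by
    have h1 := (abs_le.1 (hm v1 (vv κ ℓ) hv1' hvv)).2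
    have h2 : Real.log (Real.log v1) = Real.log L - Real.log 100 := by
      rw [hv1, Real.log_exp, Real.log_div hlv0.ne' (by norm_num)]
    have h4 : Real.log (Real.log (vv κ ℓ)) = Real.log L := by
      unfold vv
      rw [Real.log_exp]
    rw [h2, h4] at h1
    linarith
  set P : Finset ℕ := (pr 1 v1).filter (PQ p (zz ℓ) (YY ℓ)) with hPdef
  set Pv : Finset ℕ := (pr 1 (vv κ ℓ)).filter (PQ p (zz ℓ) (YY ℓ)) with hPv
  have hPprime : ∀ q ∈ P, q.Prime := fun q hq => ((mem_pr hv10).1 (mem_filter.1 hq).1).1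
  have hPodd : ∀ q ∈ P, Odd q := fun q hq =>
    (hPprime q hq).odd_of_ne_two (PP_basic hp hp2 (mem_filter.1 hq).2.1).1
  have hPvprime : ∀ q ∈ Pv, q.Prime := fun q hq => ((mem_pr hvv0).1 (mem_filter.1 hq).1).1
  -- splitting
  have hsplit : ∀ R : ℕ → Prop, ∀ [DecidablePred R],
      ∑ q ∈ Pv.filter R, 1 / (q : ℝ) ≤ ∑ q ∈ P.filter R, 1 / (q : ℝ) + (Real.log 100 + C1) := by
    intro R _
    refine le_trans ?_ (add_le_add_right hmid _)
    have hsub : Pv.filter R ⊆ P.filter R ∪ pr v1 (vv κ ℓ) := by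
      intro q hq
      obtain ⟨h1, h2⟩ := mem_filter.1 hq
      obtain ⟨h4, h5⟩ := mem_filter.1 h1
      obtain ⟨h6, h7, h8⟩ := (mem_pr hvv0).1 h4
      rw [mem_union]
      rcases le_or_gt (q : ℝ) v1 with h9 | h9
      · exact Or.inl (mem_filter.2 ⟨mem_filter.2 ⟨(mem_pr hv10).2 ⟨h6, h7, h9⟩, h5⟩, h2⟩)
      · exact Or.inr ((mem_pr hvv0).2 ⟨h6, h9, h8⟩)
    refine (sum_le_sum_of_subset_of_nonneg hsub fun q _ _ => by positivity).trans ?_
    rw [← sum_union_inter]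
    have : 0 ≤ ∑ q ∈ P.filter R ∩ pr v1 (vv κ ℓ), 1 / (q : ℝ) :=
      sum_nonneg fun q _ => by positivity
    linarith
  -- primes 3 mod 4
  have hS3 : 4 ≤ ∑ q ∈ P.filter (fun q => q % 4 = 3), 1 / (q : ℝ) := by
    have h1 := hsplit (fun q => q % 4 = 3)
    have h2 : Pv.filter (fun q => q % 4 = 3) =
        (pr 1 (vv κ ℓ)).filter (fun q => PQ p (zz ℓ) (YY ℓ) q ∧ q % 4 = 3) := by
      rw [hPv, filter_filter]
    rw [h2] at h1
    have h4 : 4 + Real.log 100 + C1 + C3 + 3 * Real.log ℓ ≤ 1 / 4 * (κ * ℓ) := by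
      have h5 := Real.log_le_log (by positivity) hev
      rw [Real.log_exp, Real.log_mul (Real.exp_pos _).ne' (by positivity), Real.log_exp,
        Real.log_pow] at h5
      push_cast at h5
      exact h5
    linarith
  have hpar := sf_par P hPprime hPodd hρ hS3
  have hPlog : ∀ q ∈ P, Real.log q ≤ L / 100 := by
    intro q hq
    obtain ⟨h1, _, h2⟩ := (mem_pr hv10).1 (mem_filter.1 hq).1
    have h4 := Real.log_le_log (by exact_mod_cast h1.pos) h2
    rwa [hv1, Real.log_exp] at h4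
  have hPsum : ∑ q ∈ P, Real.log q / q ≤ L / 100 + C2 := by
    have h1 := hml v1 (by linarith)
    rw [hv1, Real.log_exp] at h1
    refine le_trans ?_ h1
    refine sum_le_sum_of_subset_of_nonneg (filter_subset _ _) fun q hq _ => ?_
    exact div_nonneg (Real.log_natCast_nonneg q) (Nat.cast_nonneg q)
  have htail := sf_tail P hPprime hlv0 hPlog hPsum (by linarith)
  set E : ℝ := ∏ q ∈ P, (1 + 1 / (q : ℝ)) with hE
  -- the sum over `FF`
  have hFF : 48 / 100 * E ≤ ∑ G ∈ FF p ρ κ ℓ, wt G := by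
    have h1 := Finset.sum_filter_add_sum_filter_not
      (P.powerset.filter (fun G => (pd G + ρ) % 4 = 0))
      (fun G => (pd G : ℝ) ≤ Real.exp (L / 10)) (fun G => wt G)
    have h2 : ∑ G ∈ (P.powerset.filter (fun G => (pd G + ρ) % 4 = 0)).filter
        (fun G => ¬ (pd G : ℝ) ≤ Real.exp (L / 10)), wt G ≤
        ∑ G ∈ P.powerset.filter (fun G => ¬ (pd G : ℝ) ≤ Real.exp (L / 10)), wt G := by
      refine sum_le_sum_of_subset_of_nonneg ?_ fun G _ _ => wt_nonneg G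
      intro G hG
      obtain ⟨h4, h5⟩ := mem_filter.1 hG
      exact mem_filter.2 ⟨(mem_filter.1 h4).1, h5⟩
    have h4 : ∑ G ∈ (P.powerset.filter (fun G => (pd G + ρ) % 4 = 0)).filter
        (fun G => (pd G : ℝ) ≤ Real.exp (L / 10)), wt G = ∑ G ∈ FF p ρ κ ℓ, wt G := by
      refine sum_congr ?_ fun _ _ => rfl
      unfold FF
      ext G
      simp only [mem_filter]
      constructor
      · rintro ⟨⟨a, b⟩, c⟩
        exact ⟨a, c, b⟩
      · rintro ⟨a, c, b⟩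
        exact ⟨⟨a, b⟩, c⟩
    linarith
  refine le_trans ?_ hFF
  -- comparison of the products
  have hElow := sf_E_low P hPprime
  have hPvlow := prod_ge Pv hPvprime
  have hPvpos : 0 < ∏ q ∈ Pv, (1 - 1 / (q : ℝ)) := by
    refine prod_pos fun q hq => ?_
    have h1 : 1 / (q : ℝ) ≤ 1 / 2 := one_div_le_one_div_of_le (by norm_num)
      (sf_two (hPvprime q hq))
    linarith
  have hsp := hsplit (fun _ => True)
  rw [filter_true_of_mem (fun _ _ => trivial), filter_true_of_mem (fun _ _ => trivial)] at hsp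
  rw [← div_eq_mul_inv, div_le_iff₀ hPvpos]
  have h1 : Real.exp (-(2 + Real.log 100 + C1)) ≤ E * ∏ q ∈ Pv, (1 - 1 / (q : ℝ)) := by
    calc Real.exp (-(2 + Real.log 100 + C1))
        ≤ Real.exp (∑ q ∈ P, 1 / (q : ℝ) - 1) * Real.exp (-(∑ q ∈ Pv, 1 / (q : ℝ)) - 1) := by
          rw [← Real.exp_add]
          refine Real.exp_le_exp.2 ?_
          linarith
      _ ≤ _ := mul_le_mul hElow hPvlow (Real.exp_pos _).le (prod_nonneg fun q _ => by positivity)
  calc 48 / 100 * Real.exp (-(2 + Real.log 100 + C1))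
      ≤ 48 / 100 * (E * ∏ q ∈ Pv, (1 - 1 / (q : ℝ))) := mul_le_mul_of_nonneg_left h1 (by norm_num)
    _ = 48 / 100 * E * ∏ q ∈ Pv, (1 - 1 / (q : ℝ)) := by ring

end Pool.SG
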