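import Pool.Agent.Lib.MP_a51fee_ag.SG.SD
import Pool.Agent.Lib.MP_a51fee_ag.SG.NScale
import Pool.Agent.Lib.MP_a51fee_ag.SG.PJac

/-!
# SG-SMap: from `(A, G, L)` to `(A, B)`

`a = pd A`, `f = pd G`, `ρ = 1 + D τ`.
PROOF of `map_good`.
* `f L ≡ ρ mod 4 p D`, so `D ∣ f L - 1` (`ρ ≡ 1 mod D`); `a ∣ f L - 1`; `a` is prime to `D` (primes of `a` are `> uu`, larger
 than `2` and `p`).  `b := (f L - 1)/(D a)`, `f L = 1 + D a b`.
* `b` has no prime factor `q ≤ ww` (`D a q ∣ f L - 1`), and `q^2 ∤ b` for `q > ww`: `b` is squarefree with all prime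
 factors `> ww`.  `b ≤ f L ≤ exp (lv/10 + 4/5 lv) ≤ exp lv = vv`.  `b > 1`: `f L - 1 ≥ exp (lv/2) - 1 > D exp (lv/20) ≥ D a`
 (large `ℓ`).  `B := b.primeFactors`, `pd B = b` (`Nat.prod_primeFactors_of_squarefree`), `B ⊆ P2`, nonempty: `B ∈ BB`.
* `jacobiSym (-p) (f L) = jacobiSym (-p) ρ = 1` (period `4 p`, `f L ≡ ρ mod 4 p`, both odd: `jacobiSym.mod_right`) and
 `jacobiSym (-p) f = 1` (`sqf_jac`), so `jacobiSym (-p) L = 1` (`jacobiSym.mul_right`).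
 `L ≡ 3 mod 4`: `f L ≡ ρ`, `f ≡ -ρ mod 4`, `ρ` odd: `f L ≡ -ρ L ≡ ρ`, so `L ≡ -1 mod 4`.  `L ≠ p` (`L ≥ exp (lv/2) > p`).
 `PP_of_class1`: `PP p L`.  `L > zz ℓ` (`exp (lv/2) > exp (ℓ^3)`), so with the hypothesis on `r`: `PQ p (zz ℓ) (YY ℓ) L`.
* `L ∉ G`: the elements of `G` are `≤ exp (lv/100) < L`.  So `f L` is squarefree with all prime factors in `PQ`:
 `EE p (zz ℓ) (YY ℓ) (1 + D a b)`, i.e. `SS p D ℓ A B`.
PROOF of `map_inj`: all elements of `G, G'` are smaller than `L` resp. `L'`, so `L`, `L'` are the largest prime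
factors of `f L = f' L'`: `L = L'`, `f = f'`, and `G` is the set of prime factors of `f`.
-/

set_option autoImplicit false

open Finset

namespace Pool.SG

private theorem sm_dvd {S : Finset ℕ} (hS : ∀ q ∈ S, q.Prime) {l : ℕ} (hl : l.Prime) :
    l ∣ pd S ↔ l ∈ S := by
  constructor
  · intro h
    unfold pd at h
    obtain ⟨q, hq, hd⟩ := (Prime.dvd_finsetProd_iff hl.prime _).1 h
    rwa [(Nat.prime_dvd_prime_iff_eq hl (hS q hq)).1 hd]
  · intro h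
    exact Finset.dvd_prod_of_mem (fun q => q) h

private theorem sm_sqf (S : Finset ℕ) (hS : ∀ q ∈ S, q.Prime) : Squarefree (pd S) := by
  induction S using Finset.induction_on with
  | empty => unfold pd; rw [prod_empty]; exact squarefree_one
  | insert q S hq ih =>
    have hS' : ∀ r ∈ S, r.Prime := fun r hr => hS r (mem_insert_of_mem hr)
    have hqp : q.Prime := hS q (mem_insert_self q S)
    have h1 : pd (insert q S) = q * pd S := by
      unfold pd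
      rw [prod_insert hq]
    have h2 : Nat.Coprime q (pd S) := by
      rw [hqp.coprime_iff_not_dvd, sm_dvd hS' hqp]
      exact hq
    rw [h1, Nat.squarefree_mul h2]
    exact ⟨hqp.squarefree, ih hS'⟩

private theorem sm_pos {S : Finset ℕ} (hS : ∀ q ∈ S, q.Prime) : 0 < pd S :=
  Finset.prod_pos fun q hq => (hS q hq).pos

private theorem sm_lv_pos (κ ℓ : ℝ) : 0 < lv κ ℓ := Real.exp_pos _

private theorem sm_FF {p ρ : ℕ} {κ ℓ : ℝ} {G : Finset ℕ} (h : G ∈ FF p ρ κ ℓ) :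
    (∀ q ∈ G, q.Prime ∧ (q : ℝ) ≤ Real.exp (lv κ ℓ / 100) ∧ PQ p (zz ℓ) (YY ℓ) q) ∧
    (pd G : ℝ) ≤ Real.exp (lv κ ℓ / 10) ∧ (pd G + ρ) % 4 = 0 := by
  classical
  unfold FF at h
  rw [mem_filter, mem_powerset] at h
  refine ⟨fun q hq => ?_, h.2.1, h.2.2⟩
  have h1 := h.1 hq
  rw [mem_filter, mem_pr (Real.exp_pos _).le] at h1
  exact ⟨h1.1.1, h1.1.2.2, h1.2⟩

private theorem sm_mod4 {f L ρ : ℕ} (h1 : f * L % 4 = ρ % 4) (h2 : (f + ρ) % 4 = 0)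
    (h3 : ρ % 2 = 1) : L % 4 = 3 := by
  have e1 : f * L % 4 = (f % 4) * (L % 4) % 4 := Nat.mul_mod f L 4
  rw [e1] at h1
  have hf : f % 4 < 4 := Nat.mod_lt _ (by norm_num)
  have hL : L % 4 < 4 := Nat.mod_lt _ (by norm_num)
  have hf2 : f % 4 = 1 ∨ f % 4 = 3 := by omega
  have hL2 : L % 4 = 0 ∨ L % 4 = 1 ∨ L % 4 = 2 ∨ L % 4 = 3 := by omega
  rcases hf2 with hf2 | hf2 <;> rcases hL2 with hL2 | hL2 | hL2 | hL2 <;> rw [hf2, hL2] at h1 <;>
    omega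

private theorem sm_jac {p f L ρ D : ℕ} (hfL : f * L ≡ ρ [MOD 4 * p * D])
    (hρ : ρ % 2 = 1) (hj : jacobiSym (-(p : ℤ)) ρ = 1) (hjf : jacobiSym (-(p : ℤ)) f = 1)
    (hf : f ≠ 0) (hL : L ≠ 0) : jacobiSym (-(p : ℤ)) L = 1 := by
  have h4p : f * L ≡ ρ [MOD 4 * p] := hfL.of_dvd (Dvd.intro _ rfl)
  have h2 : f * L ≡ ρ [MOD 2] := h4p.of_dvd ⟨2 * p, by ring⟩
  have hodd : Odd (f * L) := by
    rw [Nat.odd_iff]
    have : f * L % 2 = ρ % 2 := h2
    omega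
  have hoddρ : Odd ρ := Nat.odd_iff.2 hρ
  have e1 := jacobiSym.mod_right (-(p : ℤ)) hodd
  have e2 := jacobiSym.mod_right (-(p : ℤ)) hoddρ
  have e3 : (-(p : ℤ)).natAbs = p := by simp
  rw [e3] at e1 e2
  have e4 : f * L % (4 * p) = ρ % (4 * p) := h4p
  rw [e4, ← e2, hj, jacobiSym.mul_right' _ hf hL, hjf, one_mul] at e1
  exact e1

theorem map_good {p D τ : ℕ} (hp : p.Prime) (hp2 : p ≠ 2) (h : HT p D τ) : Ev fun κ ℓ =>
    ∀ G ∈ FF p (1 + D * τ) κ ℓ, ∀ A ∈ AA κ ℓ, Disjoint A G → ∀ L : ℕ,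
      Real.exp (lv κ ℓ / 2) ≤ (L : ℝ) → (L : ℝ) ≤ Real.exp (4 / 5 * lv κ ℓ) →
      LL p D (1 + D * τ) κ ℓ A G L →
      (¬ ∃ q : ℕ, q.Prime ∧ ww κ ℓ < (q : ℝ) ∧ D * pd A * q ^ 2 ∣ pd G * L - 1) →
      (∃ r : ℕ, r.Prime ∧ YY ℓ ≤ (r : ℝ) ∧ r ∣ od p L) →
      ∃ B ∈ BB κ ℓ, SS p D ℓ A B ∧ pd G * L = 1 + D * pd A * pd B := by
  refine ((((ev_uu (p + 3) 0 0).and (ev_lv_const (2 * p + 2))).and
    (ev_lv 4 3 (a := 1) one_pos)).and (ev_lv_const (20 / 9 * (D + 1)))).mono ?_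
  rintro κ ℓ ⟨⟨⟨huu, hlvp⟩, hlv3⟩, hlvD⟩
  intro G hG A hA _ L hL1 hL2 hLL hsq hr
  rw [pow_zero, pow_zero, mul_one, mul_one] at huu
  have hlv3' : 4 * ℓ ^ 3 ≤ lv κ ℓ := by
    unfold lv
    rw [one_mul] at hlv3
    exact hlv3
  have hlv0 := sm_lv_pos κ ℓ
  obtain ⟨hG1, hG2, hG3⟩ := sm_FF hG
  obtain ⟨hLp, hLρ, hLa, hLq⟩ := hLL
  have hGp : ∀ q ∈ G, q.Prime := fun q hq => (hG1 q hq).1
  have hA' : A ⊆ P1 κ ℓ ∧ (pd A : ℝ) ≤ Real.exp (lv κ ℓ / 20) := by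
    unfold AA at hA
    rw [mem_filter, mem_powersetCard] at hA
    exact ⟨hA.1.1, hA.2⟩
  have hww0 : 0 ≤ ww κ ℓ := (Real.exp_pos _).le
  have hA1 : ∀ q ∈ A, q.Prime ∧ uu κ ℓ < q := by
    intro q hq
    have h1 := hA'.1 hq
    unfold P1 at h1
    rw [mem_pr hww0] at h1
    exact ⟨h1.1, h1.2.1⟩
  have hAp : ∀ q ∈ A, q.Prime := fun q hq => (hA1 q hq).1
  have hf0 : 0 < pd G := sm_pos hGp
  have ha0 : 0 < pd A := sm_pos hAp
  have hL0 : 0 < L := hLp.pos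
  have hfL1 : 1 ≤ pd G * L := Nat.mul_pos hf0 hL0
  have hDpos := h.pos
  -- divisibility by `D`
  have hD : D ∣ pd G * L - 1 := by
    have h1 : pd G * L ≡ 1 + D * τ [MOD D] := hLρ.of_dvd (Dvd.intro_left _ rfl)
    have h2 : 1 + D * τ ≡ 1 [MOD D] := by
      exact Nat.ModEq.add_left 1 ((Nat.modEq_zero_iff_dvd).2 (Dvd.intro _ rfl))
    exact (Nat.modEq_iff_dvd' hfL1).1 (h1.trans h2).symm
  have ha : pd A ∣ pd G * L - 1 := (Nat.modEq_iff_dvd' hfL1).1 hLa.symm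
  have hcop : Nat.Coprime D (pd A) := by
    rw [Nat.coprime_iff_gcd_eq_one]
    by_contra hne
    obtain ⟨q, hq, hqd⟩ := Nat.exists_prime_and_dvd hne
    have hqD : q ∣ D := hqd.trans (Nat.gcd_dvd_left _ _)
    have hqA : q ∣ pd A := hqd.trans (Nat.gcd_dvd_right _ _)
    have hqA' := (sm_dvd hAp hq).1 hqA
    have h1 := (hA1 q hqA').2
    have h2 : (p : ℝ) + 3 < q := lt_of_le_of_lt huu h1
    rcases h.primes q hq hqD with rfl | rfl
    · have : (0 : ℝ) ≤ p := Nat.cast_nonneg p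
      push_cast at h2
      linarith
    · linarith
  have hDa : D * pd A ∣ pd G * L - 1 := hcop.mul_dvd_of_dvd_of_dvd hD ha
  obtain ⟨b, hb⟩ := hDa
  have hfLb : pd G * L = 1 + D * pd A * b := by omega
  -- the prime factors of `b`
  have hbq : ∀ q : ℕ, q.Prime → q ∣ b → ww κ ℓ < (q : ℝ) := by
    intro q hq hqb
    by_contra hcon
    push Not at hcon
    apply hLq q hq hcon
    rw [hb]
    exact Nat.mul_dvd_mul_left _ hqb
  have hbsq : Squarefree b := by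
    rw [Nat.squarefree_iff_prime_squarefree]
    intro q hq hqq
    apply hsq
    refine ⟨q, hq, hbq q hq (dvd_trans (Dvd.intro _ rfl) hqq), ?_⟩
    rw [hb, pow_two]
    exact Nat.mul_dvd_mul_left _ hqq
  have hb0 : b ≠ 0 := fun h0 => by
    rw [h0] at hbsq
    exact not_squarefree_zero hbsq
  -- size
  have hbv : (b : ℝ) ≤ vv κ ℓ := by
    have h1 : b ≤ pd G * L := by
      rw [hfLb]
      have : 1 * b ≤ D * pd A * b := Nat.mul_le_mul_right b (Nat.mul_pos hDpos ha0)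
      omega
    have h2 : (b : ℝ) ≤ (pd G : ℝ) * L := by exact_mod_cast h1
    calc (b : ℝ) ≤ (pd G : ℝ) * L := h2
      _ ≤ Real.exp (lv κ ℓ / 10) * Real.exp (4 / 5 * lv κ ℓ) :=
          mul_le_mul hG2 hL2 (Nat.cast_nonneg L) (Real.exp_pos _).le
      _ = Real.exp (9 / 10 * lv κ ℓ) := by
          rw [← Real.exp_add]
          congr 1
          ring
      _ ≤ vv κ ℓ := by
          unfold vv
          apply Real.exp_le_exp.2
          linarith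
  have hb1 : 1 < b := by
    by_contra hcon
    have hb1' : b ≤ 1 := Nat.le_of_not_lt hcon
    have h1 : pd G * L ≤ 1 + D * pd A := by
      rw [hfLb]
      have : D * pd A * b ≤ D * pd A * 1 := Nat.mul_le_mul_left _ hb1'
      omega
    have h2 : L ≤ 1 + D * pd A := by
      have : 1 * L ≤ pd G * L := Nat.mul_le_mul_right L hf0
      omega
    have h3 : (L : ℝ) ≤ 1 + D * pd A := by exact_mod_cast h2
    have h4 : (D : ℝ) * pd A ≤ D * Real.exp (lv κ ℓ / 20) :=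
      mul_le_mul_of_nonneg_left hA'.2 (Nat.cast_nonneg D)
    have h5 : Real.exp (lv κ ℓ / 2) = Real.exp (lv κ ℓ / 20) * Real.exp (9 / 20 * lv κ ℓ) := by
      rw [← Real.exp_add]
      congr 1
      ring
    have h6 : (D : ℝ) + 1 < Real.exp (9 / 20 * lv κ ℓ) := by
      have h7 := Real.add_one_le_exp (9 / 20 * lv κ ℓ)
      have h8 : (0 : ℝ) ≤ D := Nat.cast_nonneg D
      have h9 : (D : ℝ) + 1 ≤ 9 / 20 * lv κ ℓ := by linarith
      linarith
    have h7 : (1 : ℝ) < Real.exp (lv κ ℓ / 20) := Real.one_lt_exp_iff.2 (by positivity)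
    have h8 : Real.exp (lv κ ℓ / 20) * (D + 1) <
        Real.exp (lv κ ℓ / 20) * Real.exp (9 / 20 * lv κ ℓ) :=
      mul_lt_mul_of_pos_left h6 (Real.exp_pos _)
    nlinarith
  -- `L` is a good prime
  have hρ2 : (1 + D * τ) % 2 = 1 := by
    obtain ⟨k, hk⟩ := h.even
    rw [hk]
    have : 2 * k * τ = 2 * (k * τ) := by ring
    omega
  have hL4 : L % 4 = 3 := by
    have h1 : pd G * L ≡ 1 + D * τ [MOD 4] := hLρ.of_dvd ⟨p * D, by ring⟩
    exact sm_mod4 h1 hG3 hρ2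
  have hexp2 : lv κ ℓ / 2 + 1 ≤ Real.exp (lv κ ℓ / 2) := Real.add_one_le_exp _
  have hLnp : L ≠ p := by
    rintro rfl
    linarith
  have hjf : jacobiSym (-(p : ℤ)) (pd G) = 1 := by
    apply sqf_jac hp hp2 (sm_sqf G hGp)
    intro l hl hld
    exact (hG1 l ((sm_dvd hGp hl).1 hld)).2.2.1
  have hjL : jacobiSym (-(p : ℤ)) L = 1 :=
    sm_jac hLρ hρ2 h.jac hjf hf0.ne' hL0.ne'
  have hPP : PP p L := PP_of_class1 hp hp2 hLp hL4 hLnp hjL
  have hzz : zz ℓ < (L : ℝ) := by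
    refine lt_of_lt_of_le ?_ hL1
    unfold zz
    apply Real.exp_lt_exp.2
    linarith
  have hPQ : PQ p (zz ℓ) (YY ℓ) L := ⟨hPP, hzz, hr⟩
  have hLG : L ∉ G := by
    intro hcon
    have h1 := (hG1 L hcon).2.1
    have h2 : Real.exp (lv κ ℓ / 100) < Real.exp (lv κ ℓ / 2) := Real.exp_lt_exp.2 (by linarith)
    linarith
  have hins : pd G * L = pd (insert L G) := by
    unfold pd
    rw [prod_insert hLG, mul_comm]
  have hinsp : ∀ q ∈ insert L G, q.Prime := by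
    intro q hq
    rw [mem_insert] at hq
    rcases hq with rfl | hq
    · exact hLp
    · exact hGp q hq
  have hpdB : pd b.primeFactors = b := by
    unfold pd
    exact Nat.prod_primeFactors_of_squarefree hbsq
  refine ⟨b.primeFactors, ?_, ?_, ?_⟩
  · unfold BB
    rw [mem_filter, mem_powerset, hpdB]
    refine ⟨?_, Nat.nonempty_primeFactors.2 hb1, hbv⟩
    intro q hq
    have hqp := Nat.prime_of_mem_primeFactors hq
    have hqb := Nat.dvd_of_mem_primeFactors hq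
    have hvv0 : 0 ≤ vv κ ℓ := (Real.exp_pos _).le
    unfold P2
    rw [mem_pr hvv0]
    refine ⟨hqp, hbq q hqp hqb, ?_⟩
    have h1 : q ≤ b := Nat.le_of_dvd (Nat.pos_of_ne_zero hb0) hqb
    have h2 : (q : ℝ) ≤ b := by exact_mod_cast h1
    exact h2.trans hbv
  · unfold SS EE
    rw [hpdB, ← hfLb, hins]
    refine ⟨sm_sqf _ hinsp, ?_⟩
    intro l hl hld
    have h1 := (sm_dvd hinsp hl).1 hld
    rw [mem_insert] at h1
    rcases h1 with rfl | h1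
    · exact hPQ
    · exact (hG1 l h1).2.2
  · rw [hpdB]
    exact hfLb

theorem map_inj (p ρ : ℕ) : Ev fun κ ℓ =>
    ∀ G ∈ FF p ρ κ ℓ, ∀ G' ∈ FF p ρ κ ℓ, ∀ L L' : ℕ, L.Prime → L'.Prime →
      Real.exp (lv κ ℓ / 2) ≤ (L : ℝ) → Real.exp (lv κ ℓ / 2) ≤ (L' : ℝ) →
      pd G * L = pd G' * L' → G = G' ∧ L = L' := by
  refine (ev_ell 0).mono ?_
  intro κ ℓ _ G hG G' hG' L L' hL hL' h1 h2 heq
  obtain ⟨hG1, -, -⟩ := sm_FF hG
  obtain ⟨hG1', -, -⟩ := sm_FF hG'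
  have hGp : ∀ q ∈ G, q.Prime := fun q hq => (hG1 q hq).1
  have hGp' : ∀ q ∈ G', q.Prime := fun q hq => (hG1' q hq).1
  have hlv0 := sm_lv_pos κ ℓ
  have hlt : Real.exp (lv κ ℓ / 100) < Real.exp (lv κ ℓ / 2) := Real.exp_lt_exp.2 (by linarith)
  have hLL : L = L' := by
    have h3 : L ∣ pd G' * L' := by
      rw [← heq]
      exact Dvd.intro_left _ rfl
    rcases (Nat.Prime.dvd_mul hL).1 h3 with h4 | h4
    · exfalso
      have h5 := (hG1' L ((sm_dvd hGp' hL).1 h4)).2.1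
      linarith
    · exact (Nat.prime_dvd_prime_iff_eq hL hL').1 h4
  subst hLL
  refine ⟨?_, rfl⟩
  have h3 : pd G = pd G' := Nat.eq_of_mul_eq_mul_right hL.pos heq
  ext q
  constructor
  · intro hq
    have := (sm_dvd hGp (hGp q hq)).2 hq
    rw [h3] at this
    exact (sm_dvd hGp' (hGp q hq)).1 this
  · intro hq
    have := (sm_dvd hGp' (hGp' q hq)).2 hq
    rw [← h3] at this
    exact (sm_dvd hGp (hGp' q hq)).1 this

end Pool.SG
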