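import Pool.Agent.Lib.MP_a51fee_ag.SG.SD
import Pool.Agent.Lib.MP_a51fee_ag.SG.NScale
import Pool.Agent.Lib.MP_a51fee_ag.SG.BAp

/-!
# SG-SSm: the excluded `L`

`a = pd A ≤ exp (lv/20)`, `f = pd G ≤ exp (lv/10)`, `y ≥ exp (lv/2)`.
PROOF of `ns_small`.  Let `q > ww` be a prime, `D a q^2 ∣ f L - 1`, `L ∈ (y, 2y]`.  `q ∤ f` (else `q ∣ 1`), `q ∤ a` (the primes
of `a` are `≤ ww`), `a` is prime to `f`.  So `L` lies in one class mod `a q^2`: at most `y/(a q^2) + 1` values.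
`a q^2 ≤ f L ≤ 2 y exp (lv/10)`, so `q ≤ exp (lv/20) √(2y/a)` is the number of terms `+1`.  Total
`≤ (y/a) ∑_{q > ww} 1/q^2 + exp (lv/20) √(2y/a) ≤ (y/a)(2/ww + exp (lv/20) 2 (y/a)^{-1/2})`, `y/a ≥ exp (9/20 lv)`,
and `2/ww + 2 exp (lv/20 - 9/40 lv) ≤ lv^{-3}` for large `ℓ`.
PROOF of `bad_small`.  `bad_ap` with `Y = YY ℓ`, `log Y = 4 ℓ`: `Y^6 = exp (24 ℓ) ≤ y`, `a^6 ≤ exp (6/20 lv) ≤ y`, the primes of
`a` are `> uu ≥ YY` (`ev_uu`).  `C (y/a)(1 + 4 ℓ)^4 exp (-lv/(24 ℓ)) ≤ (1/2)(y/a) lv^{-3}` (`lv/(24 ℓ) ≥ 3 κ ℓ + 5 log (1 + 4 ℓ) + C`) and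
`C y^{2/3} = C (y/a) a y^{-1/3} ≤ C (y/a) exp (lv/20 - lv/6) ≤ (1/2)(y/a) lv^{-3}`.
-/

set_option autoImplicit false

open Finset

namespace Pool.SG

private theorem sm_cnt (y m : ℕ) (hm : 0 < m) (S : Finset ℕ) (hS : S ⊆ Ioc y (2 * y))
    (h : ∀ L ∈ S, ∀ L' ∈ S, L ≡ L' [MOD m]) : (S.card : ℝ) ≤ (y : ℝ) / m + 1 := by
  have h1 : S.card ≤ (range (y / m + 1)).card := by
    refine card_le_card_of_injOn (fun L => (L - y - 1) / m) ?_ ?_
    · intro L hL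
      have h2 := mem_Ioc.1 (hS hL)
      have h3 : (L - y - 1) / m ≤ y / m := Nat.div_le_div_right (by omega)
      exact mem_coe.2 (mem_range.2 (Nat.lt_succ_of_le h3))
    · intro L hL L' hL' he
      have h2 := mem_Ioc.1 (hS hL)
      have h3 := mem_Ioc.1 (hS hL')
      have h4 : L - y - 1 + (y + 1) ≡ L' - y - 1 + (y + 1) [MOD m] := by
        have e1 : L - y - 1 + (y + 1) = L := by omega
        have e2 : L' - y - 1 + (y + 1) = L' := by omega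
        rw [e1, e2]
        exact h L hL L' hL'
      have h5 : (L - y - 1) % m = (L' - y - 1) % m := Nat.ModEq.add_right_cancel' _ h4
      have he' : (L - y - 1) / m = (L' - y - 1) / m := he
      have h6 : L - y - 1 = L' - y - 1 := by
        rw [← Nat.div_add_mod (L - y - 1) m, ← Nat.div_add_mod (L' - y - 1) m, h5, he']
      omega
  rw [card_range] at h1
  have h2 : ((y / m : ℕ) : ℝ) ≤ (y : ℝ) / m := Nat.cast_div_le
  have h3 : (S.card : ℝ) ≤ ((y / m + 1 : ℕ) : ℝ) := by exact_mod_cast h1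
  push_cast at h3
  linarith

private theorem sm_cube (C b : ℝ) (hb : 0 < b) : ∃ t0 : ℝ, ∀ t : ℝ, t0 ≤ t →
    C * t ^ 3 ≤ Real.exp (b * t) := by
  have h1 := (isLittleO_pow_exp_pos_mul_atTop (k := 3) hb).bound
    (c := 1 / (|C| + 1)) (by positivity)
  obtain ⟨t0, h2⟩ := Filter.eventually_atTop.1 h1
  refine ⟨max t0 0, fun t ht => ?_⟩
  have h3 := h2 t ((le_max_left _ _).trans ht)
  have h4 : 0 ≤ t := (le_max_right _ _).trans ht
  rw [Real.norm_eq_abs, Real.norm_eq_abs, abs_of_nonneg (pow_nonneg h4 3),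
    abs_of_pos (Real.exp_pos _)] at h3
  have h5 : C * t ^ 3 ≤ (|C| + 1) * t ^ 3 :=
    mul_le_mul_of_nonneg_right (by linarith [le_abs_self C]) (pow_nonneg h4 3)
  refine h5.trans ?_
  have h6 : (|C| + 1) * t ^ 3 ≤ (|C| + 1) * (1 / (|C| + 1) * Real.exp (b * t)) :=
    mul_le_mul_of_nonneg_left h3 (by positivity)
  refine h6.trans (le_of_eq ?_)
  have : (|C| + 1) ≠ 0 := by positivity
  field_simp

private theorem sm_AA {κ ℓ : ℝ} {A : Finset ℕ} (hA : A ∈ AA κ ℓ) :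
    (∀ q ∈ A, q.Prime ∧ uu κ ℓ < q) ∧ (pd A : ℝ) ≤ Real.exp (lv κ ℓ / 20) := by
  unfold AA at hA
  rw [mem_filter, mem_powersetCard] at hA
  refine ⟨fun q hq => ?_, hA.2⟩
  have h1 := hA.1.1 hq
  unfold P1 pr at h1
  rw [mem_filter] at h1
  exact h1.2

private theorem sm_pos {A : Finset ℕ} (h : ∀ q ∈ A, q.Prime) : 0 < pd A :=
  Finset.prod_pos fun q hq => (h q hq).pos

private theorem sm_tail (W Q : ℕ) (hW : 0 < W) : ∑ q ∈ Ioc W Q, 1 / (q : ℝ) ^ 2 ≤ 1 / (W : ℝ) := by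
  rcases le_or_gt W Q with h | h
  · have h1 := sum_Ioc_inv_sq_le_sub (α := ℝ) hW.ne' h
    have h2 : ∑ q ∈ Ioc W Q, 1 / (q : ℝ) ^ 2 = ∑ i ∈ Ioc W Q, ((i : ℝ) ^ 2)⁻¹ :=
      sum_congr rfl fun q _ => one_div _
    rw [h2, one_div]
    have h3 : (0 : ℝ) ≤ (Q : ℝ)⁻¹ := by positivity
    linarith
  · rw [Finset.Ioc_eq_empty (by omega), sum_empty]
    positivity

open scoped Classical in
private theorem sm_ns (D a f y : ℕ) (w B t : ℝ) (hD : 0 < D) (ha : 0 < a) (hf : 0 < f)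
    (ht : 0 ≤ t) (hw : 2 ≤ w) (hy2 : 2 ≤ y) (hfB : (f : ℝ) ≤ Real.exp (t / 10))
    (haB : (a : ℝ) ≤ Real.exp (t / 20)) (hyB : Real.exp (t / 2) ≤ (y : ℝ))
    (hwB : w = Real.exp (t / 2000)) (hB : 0 < B) (h4 : 4 * B ≤ Real.exp (t / 2000)) :
    (((Ioc y (2 * y)).filter (fun L => ∃ q : ℕ, q.Prime ∧ w < (q : ℝ) ∧
        D * a * q ^ 2 ∣ f * L - 1)).card : ℝ) ≤ y / B * (1 / a) := by
  set R : ℝ := Real.exp (t / 20) * Real.sqrt (2 * y / a) with hR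
  have haR : (0 : ℝ) < a := by exact_mod_cast ha
  have hyR : (2 : ℝ) ≤ y := by exact_mod_cast hy2
  have hR0 : 0 ≤ R := by positivity
  have hR2 : R ^ 2 = Real.exp (t / 10) * (2 * y / a) := by
    rw [hR, mul_pow, Real.sq_sqrt (by positivity), ← Real.exp_nat_mul]
    congr 2
    push_cast
    ring
  set W := ⌊w⌋₊ with hW
  set Q := ⌊R⌋₊ with hQ
  have hW2 : 2 ≤ W := Nat.le_floor (by exact_mod_cast hw)
  have hWw : w / 2 ≤ (W : ℝ) := by
    have h1 : w < (W : ℝ) + 1 := Nat.lt_floor_add_one w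
    linarith
  have hsub : (Ioc y (2 * y)).filter (fun L => ∃ q : ℕ, q.Prime ∧ w < (q : ℝ) ∧
        D * a * q ^ 2 ∣ f * L - 1) ⊆
      (Ioc W Q).biUnion (fun q => (Ioc y (2 * y)).filter (fun L => q.Prime ∧
        D * a * q ^ 2 ∣ f * L - 1)) := by
    intro L hL
    rw [mem_filter] at hL
    obtain ⟨hL1, q, hq, hqw, hdvd⟩ := hL
    have hL2 := mem_Ioc.1 hL1
    rw [mem_biUnion]
    refine ⟨q, ?_, mem_filter.2 ⟨hL1, hq, hdvd⟩⟩
    rw [mem_Ioc]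
    constructor
    · rw [hW, Nat.floor_lt (by linarith)]
      exact hqw
    · refine Nat.le_floor ?_
      have h1 : 0 < f * L - 1 := by
        have : 1 * 2 < f * L := by
          calc 1 * 2 < 1 * L := by omega
            _ ≤ f * L := Nat.mul_le_mul_right _ hf
        omega
      have h2 : D * a * q ^ 2 ≤ f * L - 1 := Nat.le_of_dvd h1 hdvd
      have h3 : a * q ^ 2 ≤ f * L := by
        calc a * q ^ 2 = 1 * a * q ^ 2 := by ring
          _ ≤ D * a * q ^ 2 := by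
            exact Nat.mul_le_mul_right _ (Nat.mul_le_mul_right _ hD)
          _ ≤ f * L := by omega
      have h4 : (a : ℝ) * (q : ℝ) ^ 2 ≤ f * L := by exact_mod_cast h3
      have h5 : (L : ℝ) ≤ 2 * y := by exact_mod_cast hL2.2
      have h6 : (a : ℝ) * (q : ℝ) ^ 2 ≤ Real.exp (t / 10) * (2 * y) :=
        h4.trans (mul_le_mul hfB h5 (Nat.cast_nonneg _) (Real.exp_pos _).le)
      have h7 : (q : ℝ) ^ 2 ≤ R ^ 2 := by
        rw [hR2, mul_div_assoc', le_div_iff₀ haR]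
        linarith
      exact le_of_sq_le_sq h7 hR0
  have hcard : ∀ q ∈ Ioc W Q, ((((Ioc y (2 * y)).filter (fun L => q.Prime ∧
        D * a * q ^ 2 ∣ f * L - 1)).card : ℕ) : ℝ) ≤ (y : ℝ) / a * (1 / (q : ℝ) ^ 2) + 1 := by
    intro q hq
    have hq0 : 0 < q := by
      have := (mem_Ioc.1 hq).1
      omega
    have h1 := sm_cnt y (a * q ^ 2) (by positivity) ((Ioc y (2 * y)).filter (fun L => q.Prime ∧
        D * a * q ^ 2 ∣ f * L - 1)) (filter_subset _ _) (by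
      intro L hL L' hL'
      rw [mem_filter] at hL hL'
      have g0 := mem_Ioc.1 hL.1
      have g0' := mem_Ioc.1 hL'.1
      have g1 : ∀ M : ℕ, 0 < M → D * a * q ^ 2 ∣ f * M - 1 → f * M ≡ 1 [MOD a * q ^ 2] := by
        intro M hM hd
        have hfM : 1 ≤ f * M := Nat.mul_pos hf hM
        refine Nat.ModEq.symm ((Nat.modEq_iff_dvd' hfM).2 (Dvd.dvd.trans ⟨D, by ring⟩ hd))
      have g2 := g1 L (by omega) hL.2.2
      have g3 := g1 L' (by omega) hL'.2.2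
      have g4 : Nat.gcd (a * q ^ 2) f = 1 := by
        have e1 : Nat.Coprime (f * L) (a * q ^ 2) := by
          have := g2.gcd_eq
          rw [Nat.gcd_one_left] at this
          exact this
        exact (Nat.Coprime.coprime_mul_right e1).symm
      exact Nat.ModEq.cancel_left_of_coprime g4 (g2.trans g3.symm))
    refine h1.trans (le_of_eq ?_)
    push_cast
    have hqR : (q : ℝ) ≠ 0 := by positivity
    field_simp
  have h5 : (((Ioc y (2 * y)).filter (fun L => ∃ q : ℕ, q.Prime ∧ w < (q : ℝ) ∧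
        D * a * q ^ 2 ∣ f * L - 1)).card : ℝ) ≤
      ∑ q ∈ Ioc W Q, ((y : ℝ) / a * (1 / (q : ℝ) ^ 2) + 1) := by
    have g1 := (card_le_card hsub).trans card_biUnion_le
    calc (((Ioc y (2 * y)).filter (fun L => ∃ q : ℕ, q.Prime ∧ w < (q : ℝ) ∧
          D * a * q ^ 2 ∣ f * L - 1)).card : ℝ)
        ≤ ((∑ q ∈ Ioc W Q, ((Ioc y (2 * y)).filter (fun L => q.Prime ∧
          D * a * q ^ 2 ∣ f * L - 1)).card : ℕ) : ℝ) := by exact_mod_cast g1
      _ = ∑ q ∈ Ioc W Q, ((((Ioc y (2 * y)).filter (fun L => q.Prime ∧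
          D * a * q ^ 2 ∣ f * L - 1)).card : ℕ) : ℝ) := by push_cast; rfl
      _ ≤ _ := sum_le_sum hcard
  have h6 : ∑ q ∈ Ioc W Q, ((y : ℝ) / a * (1 / (q : ℝ) ^ 2) + 1) ≤
      (y : ℝ) / a * (1 / (W : ℝ)) + R := by
    rw [sum_add_distrib, ← mul_sum]
    refine add_le_add (mul_le_mul_of_nonneg_left (sm_tail W Q (by omega)) (by positivity)) ?_
    rw [sum_const, Nat.card_Ioc, nsmul_eq_mul, mul_one]
    have g1 : ((Q - W : ℕ) : ℝ) ≤ (Q : ℝ) := by exact_mod_cast Nat.sub_le Q W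
    exact g1.trans (Nat.floor_le hR0)
  refine h5.trans (h6.trans ?_)
  -- `1 / W ≤ 2 / w`, `R ≤ 2 exp (- 7/40 t) (y / a)`
  have hE : 0 < Real.exp (t / 2000) := Real.exp_pos _
  have h7 : 1 / (W : ℝ) ≤ 2 / Real.exp (t / 2000) := by
    rw [hwB] at hWw
    have hW0 : (0 : ℝ) < W := by
      have : (2 : ℝ) ≤ W := by exact_mod_cast hW2
      linarith
    rw [div_le_div_iff₀ hW0 hE]
    linarith
  have hya : Real.exp (9 / 20 * t) ≤ (y : ℝ) / a := by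
    rw [le_div_iff₀ haR]
    calc Real.exp (9 / 20 * t) * a ≤ Real.exp (9 / 20 * t) * Real.exp (t / 20) :=
          mul_le_mul_of_nonneg_left haB (Real.exp_pos _).le
      _ = Real.exp (t / 2) := by
        rw [← Real.exp_add]
        congr 1
        ring
      _ ≤ y := hyB
  have hya0 : 0 < (y : ℝ) / a := (Real.exp_pos _).trans_le hya
  have h8 : R ≤ 2 / Real.exp (t / 2000) * ((y : ℝ) / a) := by
    refine le_of_sq_le_sq ?_ (by positivity)
    rw [hR2]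
    have e1 : (2 / Real.exp (t / 2000) * ((y : ℝ) / a)) ^ 2 =
        4 / Real.exp (t / 1000) * ((y : ℝ) / a) ^ 2 := by
      rw [mul_pow, div_pow, ← Real.exp_nat_mul]
      congr 2
      · norm_num
      · congr 1
        push_cast
        ring
    rw [e1]
    have e2 : Real.exp (t / 10) * (2 * (y : ℝ) / a) = (2 * Real.exp (t / 10)) * ((y : ℝ) / a) := by
      ring
    have e3 : 4 / Real.exp (t / 1000) * ((y : ℝ) / a) ^ 2 =
        (4 / Real.exp (t / 1000) * ((y : ℝ) / a)) * ((y : ℝ) / a) := by ring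
    rw [e2, e3]
    refine mul_le_mul_of_nonneg_right ?_ hya0.le
    rw [div_mul_eq_mul_div, le_div_iff₀ (Real.exp_pos _)]
    have e4 : Real.exp (t / 10) * Real.exp (t / 1000) ≤ Real.exp (9 / 20 * t) := by
      rw [← Real.exp_add]
      apply Real.exp_le_exp.2
      linarith
    nlinarith [Real.exp_pos (9 / 20 * t)]
  calc (y : ℝ) / a * (1 / (W : ℝ)) + R
      ≤ (y : ℝ) / a * (2 / Real.exp (t / 2000)) + 2 / Real.exp (t / 2000) * ((y : ℝ) / a) :=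
        add_le_add (mul_le_mul_of_nonneg_left h7 hya0.le) h8
    _ = ((y : ℝ) / a) * (4 / Real.exp (t / 2000)) := by ring
    _ ≤ ((y : ℝ) / a) * (1 / B) := by
      refine mul_le_mul_of_nonneg_left ?_ hya0.le
      rw [div_le_div_iff₀ hE hB]
      linarith
    _ = _ := by ring

open scoped Classical in
theorem ns_small (p D ρ : ℕ) (hD : 0 < D) : Ev fun κ ℓ =>
    ∀ G ∈ FF p ρ κ ℓ, ∀ A ∈ AA κ ℓ, Disjoint A G → ∀ y : ℕ, YR κ ℓ y →
      (((Ioc y (2 * y)).filter (fun L => ∃ q : ℕ, q.Prime ∧ ww κ ℓ < (q : ℝ) ∧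
        D * pd A * q ^ 2 ∣ pd G * L - 1)).card : ℝ) ≤ y / lv κ ℓ ^ 3 * wt A := by
  obtain ⟨t0, ht0⟩ := sm_cube 4 (1 / 2000) (by norm_num)
  refine (ev_lv_const (max t0 2000)).mono ?_
  intro κ ℓ hlv G hG A hA _ y hy
  have h1 : t0 ≤ lv κ ℓ := (le_max_left _ _).trans hlv
  have h2 : 2000 ≤ lv κ ℓ := (le_max_right _ _).trans hlv
  have hG1 : (∀ q ∈ G, q.Prime) ∧ (pd G : ℝ) ≤ Real.exp (lv κ ℓ / 10) := by
    unfold FF at hG
    rw [mem_filter, mem_powerset] at hG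
    refine ⟨fun q hq => ?_, hG.2.1⟩
    have g1 := (mem_filter.1 (hG.1 hq)).1
    unfold pr at g1
    exact (mem_filter.1 g1).2.1
  obtain ⟨hA1, hA2⟩ := sm_AA hA
  have hw : 2 ≤ ww κ ℓ := by
    unfold ww
    have g1 := Real.add_one_le_exp (lv κ ℓ / 2000)
    linarith
  have hy1 : 2 ≤ y := by
    have g1 := Real.add_one_le_exp (lv κ ℓ / 2)
    have g2 : (2 : ℝ) ≤ y := by
      have := hy.1
      linarith
    exact_mod_cast g2
  rw [wt_eq]
  refine sm_ns D (pd A) (pd G) y (ww κ ℓ) (lv κ ℓ ^ 3) (lv κ ℓ) hD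
    (sm_pos fun q hq => (hA1 q hq).1) (sm_pos hG1.1) (by linarith) hw hy1 hG1.2 hA2 hy.1 rfl
    (by positivity) ?_
  have g1 := ht0 _ h1
  have e1 : 1 / 2000 * lv κ ℓ = lv κ ℓ / 2000 := by ring
  rwa [e1] at g1

open scoped Classical in
theorem bad_small {p : ℕ} (hp : p.Prime) : Ev fun κ ℓ =>
    ∀ A ∈ AA κ ℓ, ∀ c y : ℕ, YR κ ℓ y →
      (((Ioc y (2 * y)).filter (fun L => L.Prime ∧ L ≠ p ∧ L ≡ c [MOD pd A] ∧
        ∀ r : ℕ, r.Prime → r ∣ od p L → (r : ℝ) < YY ℓ)).card : ℝ) ≤ y / lv κ ℓ ^ 3 * wt A := by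
  obtain ⟨C, hC, hbad⟩ := bad_ap hp
  obtain ⟨t0, ht0⟩ := sm_cube (2 * C) (7 / 60) (by norm_num)
  have hev : Ev fun κ ℓ => κ ≤ 1 / 2 := fun κ0 _ => ⟨0, fun ℓ _ κ _ h => h⟩
  refine (((((((ev_lv_const (max t0 1)).and (ev_ell (max 1 (2 * C)))).and
    (ev_lv 48 1 one_pos)).and (ev_lv 444 2 one_pos)).and (ev_uu 1 0 1))).and hev).mono ?_
  rintro κ ℓ ⟨⟨⟨⟨⟨k1, k2⟩, k3⟩, k4⟩, k5⟩, k6⟩ A hA c y hy
  have l1 : t0 ≤ lv κ ℓ := (le_max_left _ _).trans k1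
  have l2 : 1 ≤ lv κ ℓ := (le_max_right _ _).trans k1
  have l3 : 1 ≤ ℓ := (le_max_left _ _).trans k2
  have l4 : 2 * C ≤ ℓ := (le_max_right _ _).trans k2
  have hlve : Real.exp (1 * (κ * ℓ)) = lv κ ℓ := by
    unfold lv
    rw [one_mul]
  rw [hlve] at k3 k4
  rw [pow_one] at k3
  rw [pow_zero, pow_one, one_mul, one_mul] at k5
  have hlv0 : 0 < lv κ ℓ := by linarith
  have hℓ0 : 0 < ℓ := by linarith
  obtain ⟨hA1, hA2⟩ := sm_AA hA
  have ha := sm_pos fun q hq => (hA1 q hq).1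
  set a := pd A with haa
  have haR : (0 : ℝ) < a := by exact_mod_cast ha
  have hyE : Real.exp (lv κ ℓ / 2) ≤ (y : ℝ) := hy.1
  have hy0 : (0 : ℝ) < y := (Real.exp_pos _).trans_le hyE
  have hlogY : Real.log (YY ℓ) = 4 * ℓ := by
    unfold YY
    rw [Real.log_exp]
  have hY8 : 8 ≤ YY ℓ := by
    unfold YY
    have g1 := Real.add_one_le_exp ℓ
    have g2 : Real.exp (4 * ℓ) = Real.exp ℓ ^ 4 := by
      rw [← Real.exp_nat_mul]
      congr 1
    rw [g2]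
    calc (8 : ℝ) ≤ 2 ^ 4 := by norm_num
      _ ≤ Real.exp ℓ ^ 4 := pow_le_pow_left₀ (by norm_num) (by linarith) 4
  have hY6 : YY ℓ ^ 6 ≤ (y : ℝ) := by
    refine le_trans ?_ hyE
    unfold YY
    rw [← Real.exp_nat_mul]
    apply Real.exp_le_exp.2
    push_cast
    linarith
  have ha6 : a ^ 6 ≤ y := by
    have g1 : (a : ℝ) ^ 6 ≤ y := by
      calc (a : ℝ) ^ 6 ≤ Real.exp (lv κ ℓ / 20) ^ 6 := pow_le_pow_left₀ haR.le hA2 6
        _ = Real.exp (3 / 10 * lv κ ℓ) := by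
          rw [← Real.exp_nat_mul]
          congr 1
          push_cast
          ring
        _ ≤ Real.exp (lv κ ℓ / 2) := Real.exp_le_exp.2 (by linarith)
        _ ≤ y := hyE
    exact_mod_cast g1
  have hprim : ∀ q : ℕ, q.Prime → q ∣ a → YY ℓ ≤ (q : ℝ) := by
    intro q hq hqa
    rw [haa, pd, Prime.dvd_finset_prod_iff hq.prime] at hqa
    obtain ⟨r, hr, hqr⟩ := hqa
    have g1 := hA1 r hr
    have g2 : q = r := (Nat.prime_dvd_prime_iff_eq hq g1.1).1 hqr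
    rw [g2]
    exact k5.trans g1.2.le
  have h1 := hbad (YY ℓ) hY8 y a c hY6 ha ha6 hprim
  refine h1.trans ?_
  rw [hlogY, wt_eq, ← haa]
  -- first term
  have hya0 : 0 < (y : ℝ) / a := div_pos hy0 haR
  have hlogy : lv κ ℓ / 2 ≤ Real.log y := by
    rw [Real.le_log_iff_exp_le hy0]
    exact hyE
  have hfirst : C * ((y : ℝ) / a) * (1 + 4 * ℓ) ^ 4 * Real.exp (-(Real.log y / (3 * (4 * ℓ)))) ≤
      1 / 2 * ((y : ℝ) / a / lv κ ℓ ^ 3) := by
    have g1 : Real.exp (-(Real.log y / (3 * (4 * ℓ)))) ≤ Real.exp (-(37 / 2 * ℓ)) := by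
      apply Real.exp_le_exp.2
      apply neg_le_neg
      rw [le_div_iff₀ (by positivity)]
      nlinarith
    have g2 : 2 * C ≤ Real.exp ℓ := by
      have := Real.add_one_le_exp ℓ
      linarith
    have g3 : (1 + 4 * ℓ) ^ 4 ≤ Real.exp (16 * ℓ) := by
      have e1 : Real.exp (16 * ℓ) = Real.exp (4 * ℓ) ^ 4 := by
        rw [← Real.exp_nat_mul]
        congr 1
        push_cast
        ring
      rw [e1]
      refine pow_le_pow_left₀ (by positivity) ?_ 4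
      have := Real.add_one_le_exp (4 * ℓ)
      linarith
    have g4 : lv κ ℓ ^ 3 ≤ Real.exp (3 / 2 * ℓ) := by
      unfold lv
      rw [← Real.exp_nat_mul]
      apply Real.exp_le_exp.2
      push_cast
      have : κ * ℓ ≤ 1 / 2 * ℓ := mul_le_mul_of_nonneg_right k6 hℓ0.le
      linarith
    have g5 : 2 * C * (1 + 4 * ℓ) ^ 4 * lv κ ℓ ^ 3 ≤ Real.exp (37 / 2 * ℓ) := by
      calc 2 * C * (1 + 4 * ℓ) ^ 4 * lv κ ℓ ^ 3
          ≤ Real.exp ℓ * Real.exp (16 * ℓ) * Real.exp (3 / 2 * ℓ) := by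
            refine mul_le_mul (mul_le_mul g2 g3 (by positivity) (Real.exp_pos _).le) g4
              (by positivity) (by positivity)
        _ = Real.exp (37 / 2 * ℓ) := by
          rw [← Real.exp_add, ← Real.exp_add]
          congr 1
          ring
    have hl3 : 0 < lv κ ℓ ^ 3 := by positivity
    have g6 : C * (1 + 4 * ℓ) ^ 4 * Real.exp (-(37 / 2 * ℓ)) ≤ 1 / 2 * (1 / lv κ ℓ ^ 3) := by
      rw [Real.exp_neg, ← div_eq_mul_inv, mul_one_div, div_le_div_iff₀ (Real.exp_pos _) hl3]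
      linarith
    calc C * ((y : ℝ) / a) * (1 + 4 * ℓ) ^ 4 * Real.exp (-(Real.log y / (3 * (4 * ℓ))))
        ≤ C * ((y : ℝ) / a) * (1 + 4 * ℓ) ^ 4 * Real.exp (-(37 / 2 * ℓ)) :=
          mul_le_mul_of_nonneg_left g1 (by positivity)
      _ = ((y : ℝ) / a) * (C * (1 + 4 * ℓ) ^ 4 * Real.exp (-(37 / 2 * ℓ))) := by ring
      _ ≤ ((y : ℝ) / a) * (1 / 2 * (1 / lv κ ℓ ^ 3)) := mul_le_mul_of_nonneg_left g6 hya0.le
      _ = _ := by ring
  have hsecond : C * (y : ℝ) ^ (2 / 3 : ℝ) ≤ 1 / 2 * ((y : ℝ) / a / lv κ ℓ ^ 3) := by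
    have g1 : (y : ℝ) ^ (2 / 3 : ℝ) = y * (y : ℝ) ^ (-(1 / 3) : ℝ) := by
      have e1 : (2 / 3 : ℝ) = 1 + (-(1 / 3)) := by norm_num
      rw [e1, Real.rpow_add hy0, Real.rpow_one]
    have g2 : (y : ℝ) ^ (-(1 / 3) : ℝ) ≤ Real.exp (-(lv κ ℓ / 6)) := by
      rw [Real.rpow_def_of_pos hy0]
      apply Real.exp_le_exp.2
      linarith
    have g3 : (a : ℝ) * (y : ℝ) ^ (-(1 / 3) : ℝ) ≤ Real.exp (-(7 / 60 * lv κ ℓ)) := by
      calc (a : ℝ) * (y : ℝ) ^ (-(1 / 3) : ℝ) ≤ Real.exp (lv κ ℓ / 20) * Real.exp (-(lv κ ℓ / 6)) :=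
            mul_le_mul hA2 g2 (Real.rpow_nonneg hy0.le _) (Real.exp_pos _).le
        _ = Real.exp (-(7 / 60 * lv κ ℓ)) := by
          rw [← Real.exp_add]
          congr 1
          ring
    have g4 := ht0 _ l1
    have hl3 : 0 < lv κ ℓ ^ 3 := by positivity
    have g5 : C * Real.exp (-(7 / 60 * lv κ ℓ)) ≤ 1 / 2 * (1 / lv κ ℓ ^ 3) := by
      rw [Real.exp_neg, ← div_eq_mul_inv, mul_one_div, div_le_div_iff₀ (Real.exp_pos _) hl3]
      linarith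
    calc C * (y : ℝ) ^ (2 / 3 : ℝ) = ((y : ℝ) / a) * (C * (a * (y : ℝ) ^ (-(1 / 3) : ℝ))) := by
          rw [g1]
          field_simp
      _ ≤ ((y : ℝ) / a) * (C * Real.exp (-(7 / 60 * lv κ ℓ))) :=
          mul_le_mul_of_nonneg_left (mul_le_mul_of_nonneg_left g3 hC.le) hya0.le
      _ ≤ ((y : ℝ) / a) * (1 / 2 * (1 / lv κ ℓ ^ 3)) := mul_le_mul_of_nonneg_left g5 hya0.le
      _ = _ := by ring
  calc C * ((y : ℝ) / a) * (1 + 4 * ℓ) ^ 4 * Real.exp (-(Real.log y / (3 * (4 * ℓ)))) +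
        C * (y : ℝ) ^ (2 / 3 : ℝ)
      ≤ 1 / 2 * ((y : ℝ) / a / lv κ ℓ ^ 3) + 1 / 2 * ((y : ℝ) / a / lv κ ℓ ^ 3) :=
        add_le_add hfirst hsecond
    _ = _ := by ring

end Pool.SG
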