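import Pool.Agent.Lib.MP_a51fee_ag.SG.SL2
import Pool.Agent.Lib.MP_a51fee_ag.SG.SSm
import Pool.Agent.Lib.MP_a51fee_ag.SG.SAd
import Pool.Agent.Lib.MP_a51fee_ag.SG.SMap
import Pool.Agent.Lib.MP_a51fee_ag.SG.SF
import Pool.Agent.Lib.MP_a51fee_ag.SG.NTheta

/-!
# SG-SAs: the lower bound (S)

PROOF.  Let `Y0 = La^j0/j0!`.  Dyadic lengths: `y = 2^i` with `YR κ ℓ y`; there are at least `lv/4` of them
(`i log 2 ∈ [lv/2, 4/5 lv - log 2]`) and at most `lv`.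
For `G ∈ FF`, `A ∈ AA` disjoint, `y` as above let `Λ(A, G, y)` be the set of the `L ∈ Ioc y (2y)` with `LL`, not in the set of
`ns_small` and not in the set of `bad_small` (with `c` such that `f L ≡ 1 mod a` iff `L ≡ c`, `f` prime to `a`; `L ≠ p` since
`L > exp (lv/2) > p`).  `map_good` gives `B ∈ BB` with `SS p D ℓ A B` and `f L = 1 + D a b`; for fixed `A` the map
`(G, y, L) ↦ B` is injective (`map_inj`; `L` determines `y`), and
`wt A wt B = 1/(a b) = D/(f L - 1) ≥ 1/(f L) ≥ wt G/(2 y)`.  So the left hand sum is at least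
`∑_y ∑_G (wt G/(2y)) ∑_{A disjoint from G} |Λ(A, G, y)|
 ≥ ∑_y ∑_G (wt G/(2y)) (c y/lv^2 ∑_A wt A - y/lv^5 - 2 y/lv^3 ∑_A wt A)` (`L_count`, `ns_small`, `bad_small`)
 `≥ ∑_y ∑_G (wt G/2) ((c/2)/lv^2 * Y0/4 - 1/lv^5)` (`A_sum`; `|G| ≤ lv` because `2^|G| ≤ pd G ≤ exp (lv/10)`)
 `≥ (lv/4) (c/32) (Y0/lv^2) ∑_G wt G` (`Y0_ge` absorbs `1/lv^5`)
 `≥ c' (1/lv) Y0 ∏_{PQ} (1 - 1/q)^{-1} ≥ c'' sg Y0` (`f_sum`, `sg_le`).
-/

set_option autoImplicit false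

open Finset

namespace Pool.SG

private theorem sas_pd_pos {A : Finset ℕ} (h : ∀ q ∈ A, q.Prime) : 0 < pd A :=
  prod_pos fun q hq => (h q hq).pos

private theorem sas_T {l : ℝ} (hl : 100 ≤ l) : ∃ T : Finset ℕ, l / 4 ≤ (T.card : ℝ) ∧
    ∀ i ∈ T, Real.exp (l / 2) ≤ ((2 ^ i : ℕ) : ℝ) ∧
      2 * ((2 ^ i : ℕ) : ℝ) ≤ Real.exp (4 / 5 * l) := by
  have h2 : 0.6931471803 < Real.log 2 := Real.log_two_gt_d9
  have h2' : Real.log 2 < 0.6931471808 := Real.log_two_lt_d9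
  have hl2 : 0 < Real.log 2 := by linarith
  set a : ℕ := ⌈l / (2 * Real.log 2)⌉₊ with ha
  set m : ℕ := ⌈l / 4⌉₊ with hm
  have a1 : l / (2 * Real.log 2) ≤ a := Nat.le_ceil _
  have a2 : (a : ℝ) < l / (2 * Real.log 2) + 1 := Nat.ceil_lt_add_one (by positivity)
  have m1 : l / 4 ≤ m := Nat.le_ceil _
  have m2 : (m : ℝ) < l / 4 + 1 := Nat.ceil_lt_add_one (by positivity)
  refine ⟨Ico a (a + m), ?_, ?_⟩
  · rw [Nat.card_Ico, Nat.add_sub_cancel_left]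
    exact m1
  · intro i hi
    obtain ⟨h3, h4⟩ := mem_Ico.1 hi
    have h5 : (a : ℝ) ≤ i := by exact_mod_cast h3
    have h6 : (i : ℝ) + 1 ≤ a + m := by exact_mod_cast h4
    have e1 : ((2 ^ i : ℕ) : ℝ) = Real.exp (i * Real.log 2) := by
      rw [Real.exp_nat_mul, Real.exp_log (by norm_num)]
      push_cast
      rfl
    have e2 : l / (2 * Real.log 2) * Real.log 2 = l / 2 := by
      field_simp
    constructor
    · rw [e1]
      apply Real.exp_le_exp.2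
      rw [← e2]
      exact mul_le_mul_of_nonneg_right (a1.trans h5) hl2.le
    · have e3 : 2 * ((2 ^ i : ℕ) : ℝ) = Real.exp ((i + 1) * Real.log 2) := by
        rw [add_mul, Real.exp_add, one_mul, Real.exp_log (by norm_num), e1]
        ring
      rw [e3]
      apply Real.exp_le_exp.2
      have h7 : ((i : ℝ) + 1) * Real.log 2 ≤ (l / (2 * Real.log 2) + 1 + (l / 4 + 1)) * Real.log 2 :=
        mul_le_mul_of_nonneg_right (by linarith) hl2.le
      refine h7.trans ?_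
      rw [add_mul, add_mul, e2]
      nlinarith

open scoped Classical in
private theorem sas_inner {p D τ : ℕ} (hp : p.Prime) (hp2 : p ≠ 2) (h : HT p D τ) :
    ∃ c : ℝ, 0 < c ∧ Ev fun κ ℓ => ∀ G ∈ FF p (1 + D * τ) κ ℓ, ∀ y : ℕ, YR κ ℓ y →
      c * y / lv κ ℓ ^ 2 * (La κ ℓ ^ j0 κ ℓ / (j0 κ ℓ).factorial) ≤
        ∑ A ∈ (AA κ ℓ).filter (fun A => Disjoint A G),
          (((Ioc y (2 * y)).filter (fun L => LL p D (1 + D * τ) κ ℓ A G L ∧
            (¬ ∃ q : ℕ, q.Prime ∧ ww κ ℓ < (q : ℝ) ∧ D * pd A * q ^ 2 ∣ pd G * L - 1) ∧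
            (∃ r : ℕ, r.Prime ∧ YY ℓ ≤ (r : ℝ) ∧ r ∣ od p L))).card : ℝ) := by
  obtain ⟨c, hc, hL⟩ := L_count hp hp2 h
  refine ⟨c / 16, by positivity, ?_⟩
  refine ((((((hL.and (ns_small p D (1 + D * τ) h.pos)).and (bad_small hp)).and A_sum).and
    Y0_ge).and (ev_lv_const (16 / c + 2 * p + 1)))).mono ?_
  rintro κ ℓ ⟨⟨⟨⟨⟨hL, hns⟩, hbad⟩, hA⟩, hY0⟩, hlv⟩ G hG y hy
  set l : ℝ := lv κ ℓ with hl
  have hc16 : 0 < 16 / c := by positivity
  have hp0 : (0 : ℝ) ≤ p := Nat.cast_nonneg p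
  have hl1 : 1 ≤ l := by linarith
  have hlc : 16 / c ≤ l := by linarith
  have hl0 : 0 < l := by linarith
  set Y0 : ℝ := La κ ℓ ^ j0 κ ℓ / (j0 κ ℓ).factorial with hY
  -- the primes of `G`
  have hGp : ∀ q ∈ G, q.Prime := by
    intro q hq
    have h1 := mem_powerset.1 (mem_filter.1 hG).1 hq
    have h2 := (mem_filter.1 h1).1
    unfold pr at h2
    exact (mem_filter.1 h2).2.1
  have hGcard : (G.card : ℝ) ≤ l := by
    have h1 : (pd G : ℝ) ≤ Real.exp (l / 10) := (mem_filter.1 hG).2.1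
    have h2 : 2 ^ G.card ≤ pd G := by
      unfold pd
      exact Finset.pow_card_le_prod _ _ _ fun q hq => (hGp q hq).two_le
    have h3 : ((2 : ℝ)) ^ G.card ≤ Real.exp (l / 10) := by
      refine le_trans ?_ h1
      exact_mod_cast h2
    have h4 := Real.log_le_log (by positivity) h3
    rw [Real.log_exp, Real.log_pow] at h4
    have h5 : 0.6931471803 < Real.log 2 := Real.log_two_gt_d9
    have h6 : (0 : ℝ) ≤ G.card := Nat.cast_nonneg _
    nlinarith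
  have hS := hA G hGcard
  set S : ℝ := ∑ A ∈ (AA κ ℓ).filter (fun A => Disjoint A G), wt A with hSdef
  have hmain := hL G hG y hy
  -- termwise
  have hterm : ∀ A ∈ (AA κ ℓ).filter (fun A => Disjoint A G),
      (((Ioc y (2 * y)).filter (LL p D (1 + D * τ) κ ℓ A G)).card : ℝ) -
        2 * (y / l ^ 3 * wt A) ≤
      (((Ioc y (2 * y)).filter (fun L => LL p D (1 + D * τ) κ ℓ A G L ∧
            (¬ ∃ q : ℕ, q.Prime ∧ ww κ ℓ < (q : ℝ) ∧ D * pd A * q ^ 2 ∣ pd G * L - 1) ∧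
            (∃ r : ℕ, r.Prime ∧ YY ℓ ≤ (r : ℝ) ∧ r ∣ od p L))).card : ℝ) := by
    intro A hA1
    obtain ⟨hA2, hA3⟩ := mem_filter.1 hA1
    have h1 := hns G hG A hA2 hA3 y hy
    have h2 : (((Ioc y (2 * y)).filter (fun L => LL p D (1 + D * τ) κ ℓ A G L ∧
        ∀ r : ℕ, r.Prime → r ∣ od p L → (r : ℝ) < YY ℓ)).card : ℝ) ≤ y / l ^ 3 * wt A := by
      rcases ((Ioc y (2 * y)).filter (fun L => LL p D (1 + D * τ) κ ℓ A G L ∧
        ∀ r : ℕ, r.Prime → r ∣ od p L → (r : ℝ) < YY ℓ)).eq_empty_or_nonempty with h0 | ⟨L0, h0⟩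
      · rw [h0, card_empty, Nat.cast_zero]
        have := wt_nonneg A
        positivity
      · refine le_trans ?_ (hbad A hA2 L0 y hy)
        rw [Nat.cast_le]
        refine card_le_card ?_
        intro L hL1
        obtain ⟨h3, h4, h5⟩ := mem_filter.1 hL1
        obtain ⟨h6, h7, h8⟩ := mem_filter.1 h0
        refine mem_filter.2 ⟨h3, h4.1, ?_, ?_, h5⟩
        · rintro rfl
          have h9 : (y : ℝ) < L := by exact_mod_cast (mem_Ioc.1 h3).1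
          have h10 := hy.1
          have h11 := Real.add_one_le_exp (lv κ ℓ / 2)
          rw [← hl] at h10 h11
          linarith
        · have h9 : pd G * L ≡ pd G * L0 [MOD pd A] := h4.2.2.1.trans h7.2.2.1.symm
          have h10 : Nat.Coprime (pd G * L) (pd A) := by
            have h11 := h4.2.2.1.gcd_eq
            rw [Nat.gcd_one_left] at h11
            exact h11
          exact Nat.ModEq.cancel_left_of_coprime
            (Nat.Coprime.coprime_mul_right h10).symm h9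
    have h3 : ((Ioc y (2 * y)).filter (LL p D (1 + D * τ) κ ℓ A G)) ⊆
        (Ioc y (2 * y)).filter (fun L => LL p D (1 + D * τ) κ ℓ A G L ∧
            (¬ ∃ q : ℕ, q.Prime ∧ ww κ ℓ < (q : ℝ) ∧ D * pd A * q ^ 2 ∣ pd G * L - 1) ∧
            (∃ r : ℕ, r.Prime ∧ YY ℓ ≤ (r : ℝ) ∧ r ∣ od p L)) ∪
        ((Ioc y (2 * y)).filter (fun L => ∃ q : ℕ, q.Prime ∧ ww κ ℓ < (q : ℝ) ∧
        D * pd A * q ^ 2 ∣ pd G * L - 1) ∪
        (Ioc y (2 * y)).filter (fun L => LL p D (1 + D * τ) κ ℓ A G L ∧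
        ∀ r : ℕ, r.Prime → r ∣ od p L → (r : ℝ) < YY ℓ)) := by
      intro L hL1
      obtain ⟨h3, h4⟩ := mem_filter.1 hL1
      rw [mem_union, mem_union, mem_filter, mem_filter, mem_filter]
      by_cases h5 : ∃ q : ℕ, q.Prime ∧ ww κ ℓ < (q : ℝ) ∧ D * pd A * q ^ 2 ∣ pd G * L - 1
      · exact Or.inr (Or.inl ⟨h3, h5⟩)
      · by_cases h6 : ∀ r : ℕ, r.Prime → r ∣ od p L → (r : ℝ) < YY ℓ
        · exact Or.inr (Or.inr ⟨h3, h4, h6⟩)
        · push Not at h6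
          obtain ⟨r, h7, h8, h9⟩ := h6
          exact Or.inl ⟨h3, h4, h5, r, h7, h9, h8⟩
    have h4 := (card_le_card h3).trans ((card_union_le _ _).trans
      (Nat.add_le_add_left (card_union_le _ _) _))
    have h5 : (((Ioc y (2 * y)).filter (LL p D (1 + D * τ) κ ℓ A G)).card : ℝ) ≤ _ :=
      Nat.cast_le.2 h4
    rw [Nat.cast_add, Nat.cast_add] at h5
    linarith
  have hsum := sum_le_sum hterm
  rw [sum_sub_distrib, ← mul_sum, ← mul_sum, ← hSdef] at hsum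
  refine le_trans ?_ hsum
  have hy0 : (0 : ℝ) ≤ y := Nat.cast_nonneg y
  have hSY : 1 / 4 * Y0 ≤ S := hS
  have hS0 : 0 ≤ S := by linarith
  -- `c y/l^2 S - y/l^5 - 2 y/l^3 S ≥ c/16 y/l^2 Y0`
  have k1 : 2 * (y / l ^ 3 * S) ≤ c / 2 * (y / l ^ 2 * S) := by
    have e1 : 2 * (y / l ^ 3 * S) = (2 / l) * (y / l ^ 2 * S) := by
      field_simp
    rw [e1]
    refine mul_le_mul_of_nonneg_right ?_ (by positivity)
    rw [div_le_iff₀ hl0]
    rw [div_le_iff₀ hc] at hlc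
    linarith
  have k2 : (y : ℝ) / l ^ 5 ≤ c / 16 * (y / l ^ 2 * Y0) := by
    have e1 : (y : ℝ) / l ^ 5 = (y / l ^ 2) * (1 / l ^ 3) := by
      field_simp
    have e2 : c / 16 * (y / l ^ 2 * Y0) = (y / l ^ 2) * (c / 16 * Y0) := by ring
    rw [e1, e2]
    refine mul_le_mul_of_nonneg_left ?_ (by positivity)
    rw [div_le_iff₀ (by positivity)]
    have e3 : 1 ≤ c / 16 * l := by
      rw [div_le_iff₀ hc] at hlc
      linarith
    have e4 : l ≤ l ^ 3 := by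
      have : 1 ≤ l ^ 2 := one_le_pow₀ hl1
      calc l = l * 1 := (mul_one l).symm
        _ ≤ l * l ^ 2 := mul_le_mul_of_nonneg_left this hl0.le
        _ = l ^ 3 := by ring
    calc (1 : ℝ) ≤ c / 16 * l := e3
      _ ≤ c / 16 * l ^ 3 := mul_le_mul_of_nonneg_left e4 (by positivity)
      _ = c / 16 * 1 * l ^ 3 := by ring
      _ ≤ c / 16 * Y0 * l ^ 3 := by
        have : c / 16 * 1 ≤ c / 16 * Y0 := mul_le_mul_of_nonneg_left hY0 (by positivity)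
        exact mul_le_mul_of_nonneg_right this (by positivity)
  have k3 : c / 8 * (y / l ^ 2 * Y0) ≤ c / 2 * (y / l ^ 2 * S) := by
    have e1 : y / l ^ 2 * (1 / 4 * Y0) ≤ y / l ^ 2 * S :=
      mul_le_mul_of_nonneg_left hSY (by positivity)
    have e2 := mul_le_mul_of_nonneg_left e1 (show (0 : ℝ) ≤ c / 2 by positivity)
    linarith
  have k4 : c / 16 * y / l ^ 2 * Y0 = c / 16 * (y / l ^ 2 * Y0) := by ring
  have k5 : c * y / l ^ 2 * S = c * (y / l ^ 2 * S) := by ring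
  rw [k4]
  rw [k5] at hmain
  linarith

open scoped Classical in
private theorem sas_map {p D τ : ℕ} (hp : p.Prime) (hp2 : p ≠ 2) (h : HT p D τ) :
    Ev fun κ ℓ => ∀ T : Finset ℕ, (∀ i ∈ T, YR κ ℓ (2 ^ i)) → ∀ A ∈ AA κ ℓ,
      ∑ i ∈ T, ∑ G ∈ (FF p (1 + D * τ) κ ℓ).filter (fun G => Disjoint A G),
        wt G / (2 * (2 ^ i : ℕ)) *
          (((Ioc (2 ^ i) (2 * 2 ^ i)).filter (fun L => LL p D (1 + D * τ) κ ℓ A G L ∧
            (¬ ∃ q : ℕ, q.Prime ∧ ww κ ℓ < (q : ℝ) ∧ D * pd A * q ^ 2 ∣ pd G * L - 1) ∧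
            (∃ r : ℕ, r.Prime ∧ YY ℓ ≤ (r : ℝ) ∧ r ∣ od p L))).card : ℝ) ≤
      ∑ B ∈ (BB κ ℓ).filter (SS p D ℓ A), wt A * wt B := by
  refine (((map_good hp hp2 h).and (map_inj p (1 + D * τ)))).mono ?_
  rintro κ ℓ ⟨hg, hinj⟩ T hT A hA
  set 𝓕 := (FF p (1 + D * τ) κ ℓ).filter (fun G => Disjoint A G) with h𝓕
  set Λ : ℕ → Finset ℕ → Finset ℕ := fun i G =>
    (Ioc (2 ^ i) (2 * 2 ^ i)).filter (fun L => LL p D (1 + D * τ) κ ℓ A G L ∧
            (¬ ∃ q : ℕ, q.Prime ∧ ww κ ℓ < (q : ℝ) ∧ D * pd A * q ^ 2 ∣ pd G * L - 1) ∧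
            (∃ r : ℕ, r.Prime ∧ YY ℓ ≤ (r : ℝ) ∧ r ∣ od p L)) with hΛ
  set I : Finset (Σ _ : ℕ, Σ _ : Finset ℕ, ℕ) :=
    T.sigma (fun i => 𝓕.sigma (fun G => Λ i G)) with hI
  have hsum : ∑ i ∈ T, ∑ G ∈ 𝓕, wt G / (2 * (2 ^ i : ℕ)) * ((Λ i G).card : ℝ) =
      ∑ x ∈ I, wt x.2.1 / (2 * (2 ^ x.1 : ℕ)) := by
    rw [hI, sum_sigma]
    refine sum_congr rfl fun i _ => ?_
    rw [sum_sigma]
    refine sum_congr rfl fun G _ => ?_
    simp only
    rw [sum_const, nsmul_eq_mul, mul_comm]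
  have hex : ∀ x : (Σ _ : ℕ, Σ _ : Finset ℕ, ℕ), ∃ B : Finset ℕ, x ∈ I →
      B ∈ BB κ ℓ ∧ SS p D ℓ A B ∧ pd x.2.1 * x.2.2 = 1 + D * pd A * pd B ∧
        Real.exp (lv κ ℓ / 2) ≤ (x.2.2 : ℝ) := by
    rintro ⟨i, G, L⟩
    by_cases hx : (⟨i, G, L⟩ : (Σ _ : ℕ, Σ _ : Finset ℕ, ℕ)) ∈ I
    · obtain ⟨h1, h2⟩ := mem_sigma.1 hx
      obtain ⟨h3, h4⟩ := mem_sigma.1 h2
      obtain ⟨h5, h6, h7, h8⟩ := mem_filter.1 h4
      obtain ⟨h9, h10⟩ := mem_filter.1 h3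
      obtain ⟨h11, h12⟩ := mem_Ioc.1 h5
      have h13 : (((2 ^ i : ℕ)) : ℝ) < L := by exact_mod_cast h11
      have h14 : (L : ℝ) ≤ 2 * ((2 ^ i : ℕ) : ℝ) := by exact_mod_cast h12
      obtain ⟨h15, h16⟩ := hT i h1
      obtain ⟨B, hB1, hB2, hB3⟩ := hg G h9 A hA h10 L (h15.trans h13.le) (h14.trans h16) h6 h7 h8
      exact ⟨B, fun _ => ⟨hB1, hB2, hB3, h15.trans h13.le⟩⟩
    · exact ⟨∅, fun h => absurd h hx⟩
  choose Bf hBf using hex
  have hAp : ∀ q ∈ A, q.Prime := by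
    intro q hq
    have h1 := (mem_filter.1 hA).1
    have h2 := (mem_powersetCard.1 h1).1 hq
    unfold P1 pr at h2
    exact (mem_filter.1 h2).2.1
  have hA0 : 0 < pd A := sas_pd_pos hAp
  have hD0 := h.pos
  rw [hsum]
  have hinjOn : Set.InjOn Bf (I : Set (Σ _ : ℕ, Σ _ : Finset ℕ, ℕ)) := by
    rintro ⟨i, G, L⟩ hx ⟨i', G', L'⟩ hx' he
    obtain ⟨-, -, e1, e2⟩ := hBf _ hx
    obtain ⟨-, -, e1', e2'⟩ := hBf _ hx'
    obtain ⟨h1, h2⟩ := mem_sigma.1 (mem_coe.1 hx)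
    obtain ⟨h3, h4⟩ := mem_sigma.1 h2
    obtain ⟨h5, h6, -⟩ := mem_filter.1 h4
    obtain ⟨h9, -⟩ := mem_filter.1 h3
    obtain ⟨h1', h2'⟩ := mem_sigma.1 (mem_coe.1 hx')
    obtain ⟨h3', h4'⟩ := mem_sigma.1 h2'
    obtain ⟨h5', h6', -⟩ := mem_filter.1 h4'
    obtain ⟨h9', -⟩ := mem_filter.1 h3'
    simp only at *
    rw [he] at e1
    obtain ⟨rfl, rfl⟩ := hinj G h9 G' h9' L L' h6.1 h6'.1 e2 e2' (e1.trans e1'.symm)
    have h7 := mem_Ioc.1 h5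
    have h7' := mem_Ioc.1 h5'
    have h8 : i = i' := by
      rw [← pow_succ'] at h7 h7'
      have a1 : 2 ^ i < 2 ^ (i' + 1) := h7.1.trans_le h7'.2
      have a2 : 2 ^ i' < 2 ^ (i + 1) := h7'.1.trans_le h7.2
      have a3 := (Nat.pow_lt_pow_iff_right (by norm_num : 1 < 2)).1 a1
      have a4 := (Nat.pow_lt_pow_iff_right (by norm_num : 1 < 2)).1 a2
      omega
    subst h8
    rfl
  calc ∑ x ∈ I, wt x.2.1 / (2 * (2 ^ x.1 : ℕ)) ≤ ∑ x ∈ I, wt A * wt (Bf x) := by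
        refine sum_le_sum ?_
        rintro ⟨i, G, L⟩ hx
        obtain ⟨e0, -, e1, e2⟩ := hBf _ hx
        obtain ⟨h1, h2⟩ := mem_sigma.1 hx
        obtain ⟨h3, h4⟩ := mem_sigma.1 h2
        obtain ⟨h5, h6, -⟩ := mem_filter.1 h4
        obtain ⟨h9, -⟩ := mem_filter.1 h3
        obtain ⟨h11, h12⟩ := mem_Ioc.1 h5
        simp only at *
        set B := Bf ⟨i, G, L⟩ with hB
        have hGp : ∀ q ∈ G, q.Prime := by
          intro q hq
          have h1 := mem_powerset.1 (mem_filter.1 h9).1 hq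
          have h2 := (mem_filter.1 h1).1
          unfold pr at h2
          exact (mem_filter.1 h2).2.1
        have hG0 : 0 < pd G := sas_pd_pos hGp
        have hBp : ∀ q ∈ B, q.Prime := by
          intro q hq
          have h1 := mem_powerset.1 (mem_filter.1 e0).1 hq
          unfold P2 pr at h1
          exact (mem_filter.1 h1).2.1
        have hB0 : 0 < pd B := sas_pd_pos hBp
        have hL0 : 0 < L := h6.1.pos
        rw [wt_eq, wt_eq, wt_eq]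
        have g1 : (0 : ℝ) < pd G := by exact_mod_cast hG0
        have g2 : (0 : ℝ) < pd A := by exact_mod_cast hA0
        have g3 : (0 : ℝ) < pd B := by exact_mod_cast hB0
        have g4 : (0 : ℝ) < L := by exact_mod_cast hL0
        have g5 : (1 : ℝ) ≤ D := by exact_mod_cast hD0
        have g6 : (pd G : ℝ) * L = 1 + D * pd A * pd B := by exact_mod_cast e1
        have g7 : (L : ℝ) ≤ 2 * ((2 ^ i : ℕ) : ℝ) := by exact_mod_cast h12
        have g8 : (0 : ℝ) < ((2 ^ i : ℕ) : ℝ) := by positivity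
        calc 1 / (pd G : ℝ) / (2 * ((2 ^ i : ℕ) : ℝ)) ≤ 1 / (pd G : ℝ) / L :=
              div_le_div_of_nonneg_left (by positivity) g4 g7
          _ = 1 / ((pd G : ℝ) * L) := by rw [div_div]
          _ ≤ 1 / ((pd A : ℝ) * pd B) := by
            refine one_div_le_one_div_of_le (by positivity) ?_
            rw [g6]
            have : (1 : ℝ) * (pd A * pd B) ≤ D * (pd A * pd B) :=
              mul_le_mul_of_nonneg_right g5 (by positivity)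
            nlinarith
          _ = 1 / (pd A : ℝ) * (1 / (pd B : ℝ)) := by
            rw [one_div_mul_one_div]
    _ = ∑ B ∈ I.image Bf, wt A * wt B := (sum_image (f := fun B => wt A * wt B) hinjOn).symm
    _ ≤ _ := by
        refine sum_le_sum_of_subset_of_nonneg ?_ fun B _ _ =>
          mul_nonneg (wt_nonneg A) (wt_nonneg B)
        intro B hB
        obtain ⟨x, hx, rfl⟩ := mem_image.1 hB
        obtain ⟨e0, e3, -, -⟩ := hBf _ hx
        exact mem_filter.2 ⟨e0, e3⟩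

open scoped Classical in
theorem S_low {p D τ : ℕ} (hp : p.Prime) (hp2 : p ≠ 2) (h : HT p D τ) : ∃ c : ℝ, 0 < c ∧
    Ev fun κ ℓ => c * sg p κ ℓ * (La κ ℓ ^ j0 κ ℓ / (j0 κ ℓ).factorial) ≤
      ∑ A ∈ AA κ ℓ, ∑ B ∈ (BB κ ℓ).filter (SS p D ℓ A), wt A * wt B := by
  obtain ⟨c1, hc1, hin⟩ := sas_inner hp hp2 h
  have hodd : Odd (1 + D * τ) := by
    obtain ⟨k, hk⟩ := h.even
    exact ⟨k * τ, by rw [hk]; ring⟩
  obtain ⟨c2, hc2, hf⟩ := f_sum hp hp2 hodd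
  obtain ⟨C3, hC3, hsg⟩ := sg_le p
  refine ⟨c1 * c2 / (8 * C3), by positivity, ?_⟩
  refine (((((hin.and hf).and hsg).and (sas_map hp hp2 h)).and Y0_ge).and
    (ev_lv_const 100)).mono ?_
  rintro κ ℓ ⟨⟨⟨⟨⟨hin, hf⟩, hsg⟩, hmap⟩, hY0⟩, hlv⟩
  set l : ℝ := lv κ ℓ with hl
  have hl0 : 0 < l := by linarith
  obtain ⟨T, hT1, hT2⟩ := sas_T hlv
  have hYR : ∀ i ∈ T, YR κ ℓ (2 ^ i) := fun i hi => hT2 i hi
  set Y0 : ℝ := La κ ℓ ^ j0 κ ℓ / (j0 κ ℓ).factorial with hY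
  set Pr : ℝ := (∏ q ∈ (pr 1 (vv κ ℓ)).filter (PQ p (zz ℓ) (YY ℓ)), (1 - 1 / (q : ℝ)))⁻¹ with hPr
  set W : ℝ := ∑ G ∈ FF p (1 + D * τ) κ ℓ, wt G with hW
  have hW0 : 0 ≤ W := sum_nonneg fun G _ => wt_nonneg G
  have hY00 : 0 ≤ Y0 := by linarith
  have key : l / 4 * (c1 / 2 / l ^ 2 * Y0 * W) ≤
      ∑ A ∈ AA κ ℓ, ∑ B ∈ (BB κ ℓ).filter (SS p D ℓ A), wt A * wt B := by
    refine le_trans ?_ (sum_le_sum fun A hA => hmap T hYR A hA)
    rw [sum_comm]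
    have h1 : ∀ i ∈ T, c1 / 2 / l ^ 2 * Y0 * W ≤
        ∑ A ∈ AA κ ℓ, ∑ G ∈ (FF p (1 + D * τ) κ ℓ).filter (fun G => Disjoint A G),
        wt G / (2 * (2 ^ i : ℕ)) *
          (((Ioc (2 ^ i) (2 * 2 ^ i)).filter (fun L => LL p D (1 + D * τ) κ ℓ A G L ∧
            (¬ ∃ q : ℕ, q.Prime ∧ ww κ ℓ < (q : ℝ) ∧ D * pd A * q ^ 2 ∣ pd G * L - 1) ∧
            (∃ r : ℕ, r.Prime ∧ YY ℓ ≤ (r : ℝ) ∧ r ∣ od p L))).card : ℝ) := by
      intro i hi
      simp_rw [sum_filter (p := fun G => Disjoint _ G)]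
      rw [sum_comm, hW, mul_sum]
      refine sum_le_sum fun G hG => ?_
      rw [← sum_filter, ← mul_sum]
      have h2 := hin G hG (2 ^ i) (hYR i hi)
      have h3 : 0 ≤ wt G / (2 * ((2 ^ i : ℕ) : ℝ)) := by
        have := wt_nonneg G
        positivity
      have h4 := mul_le_mul_of_nonneg_left h2 h3
      refine le_trans (le_of_eq ?_) h4
      have h5 : ((2 ^ i : ℕ) : ℝ) ≠ 0 := by positivity
      field_simp
    have h2 := sum_le_sum h1
    rw [sum_const, nsmul_eq_mul] at h2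
    refine le_trans ?_ h2
    exact mul_le_mul_of_nonneg_right hT1 (by positivity)
  refine le_trans ?_ key
  have h1 : c1 * c2 / (8 * C3) * sg p κ ℓ * Y0 ≤ c1 * c2 / (8 * C3) * (C3 / l * Pr) * Y0 := by
    refine mul_le_mul_of_nonneg_right ?_ hY00
    exact mul_le_mul_of_nonneg_left hsg (by positivity)
  refine h1.trans ?_
  have h2 : c1 * c2 / (8 * C3) * (C3 / l * Pr) * Y0 = c1 / (8 * l) * Y0 * (c2 * Pr) := by
    field_simp
  have h3 : l / 4 * (c1 / 2 / l ^ 2 * Y0 * W) = c1 / (8 * l) * Y0 * W := by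
    field_simp
    ring
  rw [h2, h3]
  exact mul_le_mul_of_nonneg_left hf (by positivity)

end Pool.SG
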