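import Pool.Agent.Lib.MP_a51fee_ag.SG.ND
import Pool.Agent.Lib.MP_c77da8_nt.Sv4

/-!
# SG-SBH: the Brun-Hooley lower bound with general remainders

Adapt `MP_c77da8_nt/Sv1.lean` (`expand`), `Sv3.lean` (`sieve`, lower bound part), `Sv4.lean` (`blk`); the auxiliary
lemmas of `Sv2.lean` (`ptw`, `prod_ineq`, `alt_le`, `top_le`, `V_ge`, `geom_bound`, with the general `g`) can be used as
they are (namespace `Pool.Agent.Lib.MP_c77da8_nt.Sv`).
PROOF.  `g q = 1/(q-1) ≤ 1/2` for `q ≥ 3`.  Blocks `P j = blk 1 t j ∩ 𝒬`, `j : Fin t` (primes in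
`(2^(2^(t-j-1)), 2^(2^(t-j))]`); they cover `𝒬` (`exists_blk` with `u = 1`).  `s j = 2 j + 71` (odd).
`∑_{q ∈ P j} g q ≤ (3/2) ∑_{blk} 1/q ≤ 13.5` (`blk_inv_le`), so `5 * 13.5 + 3 + j ≤ s j`.
Expansion: for coefficients `|c i r| ≤ 1`,
`∑_{L ∈ T} ∏_i ∑_{r ≤ s i} c i r C(e_i(L), r) = ∑_φ (∏_i c i |φ i|) #{L ∈ T | ∀ q ∈ ⋃ φ i, P L q}`, `e_i(L)` = the number of
`q ∈ P i` with `P L q`, `φ i ⊆ P i`, `|φ i| ≤ s i`.  It differs from `N ∏_i ∑_{D ∈ sub (P i) (s i)} c i |D| ∏_{q∈D} g q` by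
at most `∑_φ r (⋃ φ i) ≤ R := ∑_{S ⊆ 𝒬, pd S ≤ 2^(146 * 2^t)} r S`: `φ ↦ ⋃ φ i` is injective (`φ i = S ∩ P i`) and
`pd S ≤ ∏_j (2^(2^(t-j)))^(s j)`, `∑_j 2^(t-j) (2 j + 71) ≤ 146 * 2^t` (`∑ 2 j/2^j ≤ 4`, `∑ 71/2^j ≤ 142`; induction as
in `sum_sf`).  (`r S ≥ 0` because it bounds an absolute value.)
The lower bound then follows as in `sieve`: main term `(4/5 - 1/10 * 6/5) ≥ 1/2`, `t + 1` remainders `R`.
-/

set_option autoImplicit false

open Finset

namespace Pool.SG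

open Pool.Agent.Lib.MP_c77da8_nt.Sv

open scoped Classical in
theorem sbh_sum_choose (R : ℕ → Prop) (P : Finset ℕ) (s : ℕ) (c : ℕ → ℝ) :
    ∑ k ∈ range (s + 1), c k * (((P.filter R).card.choose k : ℕ) : ℝ) =
      ∑ D ∈ sub P s, c D.card * if (∀ q ∈ D, R q) then (1 : ℝ) else 0 := by
  have h1 : ∑ D ∈ sub P s, c D.card * (if (∀ q ∈ D, R q) then (1 : ℝ) else 0) =
      ∑ D ∈ (P.filter R).powerset.filter (fun D => D.card ≤ s), c D.card := by
    simp_rw [mul_ite, mul_one, mul_zero]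
    rw [← Finset.sum_filter]
    refine sum_congr ?_ fun _ _ => rfl
    ext D
    simp only [sub, mem_filter, mem_powerset]
    constructor
    · rintro ⟨⟨h1, h2⟩, h3⟩
      exact ⟨fun q hq => mem_filter.2 ⟨h1 hq, h3 q hq⟩, h2⟩
    · rintro ⟨h1, h2⟩
      exact ⟨⟨fun q hq => (mem_filter.1 (h1 hq)).1, h2⟩, fun q hq => (mem_filter.1 (h1 hq)).2⟩
  rw [h1, ← sum_fiberwise_of_maps_to (s := (P.filter R).powerset.filter (fun D => D.card ≤ s))
    (t := range (s + 1)) (g := fun D => D.card)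
    (fun D hD => mem_range.2 (Nat.lt_succ_of_le (mem_filter.1 hD).2))]
  refine sum_congr rfl fun r hr => ?_
  have h2 : ((P.filter R).powerset.filter (fun D => D.card ≤ s)).filter (fun D => D.card = r) =
      (P.filter R).powersetCard r := by
    ext D
    simp only [mem_filter, mem_powerset, mem_powersetCard]
    have : r ≤ s := Nat.lt_succ_iff.1 (mem_range.1 hr)
    constructor
    · rintro ⟨⟨h3, _⟩, h4⟩
      exact ⟨h3, h4⟩
    · rintro ⟨h3, h4⟩
      exact ⟨⟨h3, h4 ▸ this⟩, h4⟩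
  rw [h2, Finset.sum_congr rfl (g := fun _ => c r)
    (fun D hD => by rw [(mem_powersetCard.1 hD).2]), sum_const, card_powersetCard, nsmul_eq_mul]
  ring

open scoped Classical in
theorem sbh_expand (t : ℕ) (T : Finset ℕ) (Pr : ℕ → ℕ → Prop) (P : Fin t → Finset ℕ)
    (hdis : ∀ i j, i ≠ j → Disjoint (P i) (P j)) (s : Fin t → ℕ) (c : Fin t → ℕ → ℝ)
    (hc : ∀ i r, |c i r| ≤ 1) (g : ℕ → ℝ) (N : ℝ) (F : Finset (Finset ℕ)) (r : Finset ℕ → ℝ)
    (hr : ∀ S ∈ F, |((T.filter (fun L => ∀ q ∈ S, Pr L q)).card : ℝ) - N * ∏ q ∈ S, g q| ≤ r S)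
    (hF : ∀ φ ∈ Fintype.piFinset (fun i => sub (P i) (s i)), univ.biUnion φ ∈ F) :
    |∑ L ∈ T, ∏ i, ∑ k ∈ range (s i + 1),
        c i k * ((((P i).filter (Pr L)).card.choose k : ℕ) : ℝ) -
      N * ∏ i, ∑ D ∈ sub (P i) (s i), c i D.card * ∏ q ∈ D, g q| ≤ ∑ S ∈ F, r S := by
  have h1 : ∀ L, ∏ i, ∑ k ∈ range (s i + 1),
        c i k * ((((P i).filter (Pr L)).card.choose k : ℕ) : ℝ) =
      ∑ φ ∈ Fintype.piFinset (fun i => sub (P i) (s i)), (∏ i, c i (φ i).card) *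
        if (∀ q ∈ univ.biUnion φ, Pr L q) then (1 : ℝ) else 0 := by
    intro m
    simp_rw [sbh_sum_choose (Pr m)]
    rw [Finset.prod_univ_sum]
    refine sum_congr rfl fun φ _ => ?_
    rw [prod_mul_distrib]
    congr 1
    by_cases h : ∀ q ∈ univ.biUnion φ, Pr m q
    · rw [if_pos h]
      refine prod_eq_one fun i _ => ?_
      rw [if_pos]
      intro q hq
      exact h q (mem_biUnion.2 ⟨i, mem_univ i, hq⟩)
    · rw [if_neg h]
      push Not at h
      obtain ⟨q, hq, hq2⟩ := h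
      obtain ⟨i, _, hi⟩ := mem_biUnion.1 hq
      refine prod_eq_zero (mem_univ i) ?_
      rw [if_neg]
      push Not
      exact ⟨q, hi, hq2⟩
  have h2 : ∑ L ∈ T, ∏ i, ∑ k ∈ range (s i + 1),
        c i k * ((((P i).filter (Pr L)).card.choose k : ℕ) : ℝ) =
      ∑ φ ∈ Fintype.piFinset (fun i => sub (P i) (s i)), (∏ i, c i (φ i).card) *
        ((T.filter fun L => ∀ q ∈ univ.biUnion φ, Pr L q).card : ℝ) := by
    simp_rw [h1]
    rw [sum_comm]
    refine sum_congr rfl fun φ _ => ?_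
    rw [← mul_sum, card_filter]
    push_cast
    congr 1
    refine sum_congr rfl fun L _ => ?_
    congr
  have hφ : ∀ φ ∈ Fintype.piFinset (fun i => sub (P i) (s i)), ∀ i, φ i ⊆ P i := by
    intro φ hφ i
    have := Fintype.mem_piFinset.1 hφ i
    exact mem_powerset.1 (mem_filter.1 this).1
  have hpd : ∀ φ ∈ Fintype.piFinset (fun i => sub (P i) (s i)),
      ((univ : Finset (Fin t)) : Set (Fin t)).PairwiseDisjoint φ := by
    intro φ h i _ j _ hij
    exact (hdis i j hij).mono (hφ φ h i) (hφ φ h j)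
  have h3 : N * ∏ i, ∑ D ∈ sub (P i) (s i), c i D.card * ∏ q ∈ D, g q =
      ∑ φ ∈ Fintype.piFinset (fun i => sub (P i) (s i)), (∏ i, c i (φ i).card) *
        (N * ∏ q ∈ univ.biUnion φ, g q) := by
    rw [Finset.prod_univ_sum, mul_sum]
    refine sum_congr rfl fun φ h => ?_
    rw [prod_mul_distrib, prod_biUnion (hpd φ h)]
    ring
  have hr0 : ∀ S ∈ F, 0 ≤ r S := fun S hS => (abs_nonneg _).trans (hr S hS)
  have hrec : ∀ φ ∈ Fintype.piFinset (fun i => sub (P i) (s i)), ∀ i,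
      φ i = (univ.biUnion φ).filter (· ∈ P i) := by
    intro φ h i
    ext q
    rw [mem_filter, mem_biUnion]
    constructor
    · intro hq
      exact ⟨⟨i, mem_univ i, hq⟩, hφ φ h i hq⟩
    · rintro ⟨⟨j, _, hj⟩, hi⟩
      by_cases hij : i = j
      · rw [hij]; exact hj
      · exact absurd (hφ φ h j hj) (Finset.disjoint_left.1 (hdis i j hij) hi)
  have hinj : Set.InjOn (fun φ : Fin t → Finset ℕ => univ.biUnion φ)
      (Fintype.piFinset (fun i => sub (P i) (s i)) : Set (Fin t → Finset ℕ)) := by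
    intro φ h ψ h' he
    have he' : univ.biUnion φ = univ.biUnion ψ := he
    funext i
    rw [hrec φ h i, hrec ψ h' i, he']
  rw [h2, h3, ← sum_sub_distrib]
  calc _ ≤ ∑ φ ∈ Fintype.piFinset (fun i => sub (P i) (s i)), _ := abs_sum_le_sum_abs _ _
    _ ≤ ∑ φ ∈ Fintype.piFinset (fun i => sub (P i) (s i)), r (univ.biUnion φ) := by
        refine sum_le_sum fun φ h => ?_
        rw [← mul_sub, abs_mul]
        have h4 := hr _ (hF φ h)
        have h5 : |∏ i, c i (φ i).card| ≤ 1 := by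
          rw [abs_prod]
          exact prod_le_one (fun i _ => abs_nonneg _) fun i _ => hc i _
        refine le_trans (mul_le_mul_of_nonneg_right h5 (abs_nonneg _)) ?_
        rw [one_mul]
        refine le_trans (le_of_eq ?_) h4
        congr 4
        ext L
        simp only [mem_filter]
    _ = ∑ S ∈ (Fintype.piFinset (fun i => sub (P i) (s i))).image
          (fun φ : Fin t → Finset ℕ => univ.biUnion φ), r S := by
        rw [sum_image hinj]
    _ ≤ ∑ S ∈ F, r S := by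
        refine sum_le_sum_of_subset_of_nonneg ?_ fun S hS _ => hr0 S hS
        intro S hS
        obtain ⟨φ, h, rfl⟩ := mem_image.1 hS
        exact hF φ h

open scoped Classical in
theorem sbh_sieve (t : ℕ) (T : Finset ℕ) (Pr : ℕ → ℕ → Prop) (P : Fin t → Finset ℕ)
    (hdis : ∀ i j, i ≠ j → Disjoint (P i) (P j)) (g : ℕ → ℝ)
    (hg0 : ∀ i, ∀ q ∈ P i, 0 ≤ g q) (hg2 : ∀ i, ∀ q ∈ P i, g q ≤ 1 / 2)
    (s : Fin t → ℕ) (hs : ∀ i, Odd (s i))
    (hL : ∀ i, 5 * ∑ q ∈ P i, g q + 3 + ((i : ℕ) : ℝ) ≤ s i)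
    (N : ℝ) (hN : 0 ≤ N) (F : Finset (Finset ℕ)) (r : Finset ℕ → ℝ)
    (hr : ∀ S ∈ F, |((T.filter (fun L => ∀ q ∈ S, Pr L q)).card : ℝ) - N * ∏ q ∈ S, g q| ≤ r S)
    (hF : ∀ φ ∈ Fintype.piFinset (fun i => sub (P i) (s i)), univ.biUnion φ ∈ F) :
    1 / 2 * (N * ∏ i, ∏ q ∈ P i, (1 - g q)) - (t + 1) * ∑ S ∈ F, r S ≤
      ((T.filter fun L => ∀ i, ∀ q ∈ P i, ¬ Pr L q).card : ℝ) := by
  set V : Fin t → ℝ := fun i => ∏ q ∈ P i, (1 - g q) with hV
  set η : Fin t → ℝ := fun i => Real.exp (-(3 : ℝ) - (i : ℕ)) with hη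
  set Rem : ℝ := ∑ S ∈ F, r S with hRem
  set Tt : Fin t → ℝ := fun i => ∑ D ∈ sub (P i) (s i), ca (s i) D.card * ∏ q ∈ D, g q with hT
  set E : Fin t → ℝ := fun i => ∑ D ∈ sub (P i) (s i), ct (s i) D.card * ∏ q ∈ D, g q with hE
  have hη0 : ∀ i, 0 < η i := fun i => Real.exp_pos _
  have hηsum : ∑ i, η i ≤ 1 / 10 := geom_bound t
  have hη1 : ∀ i, η i ≤ 1 / 10 := fun i =>
    (single_le_sum (fun i _ => (hη0 i).le) (mem_univ i)).trans hηsum
  have hVpos : ∀ i, 0 < V i := fun i =>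
    lt_of_lt_of_le (Real.exp_pos _) (V_ge g (P i) (hg0 i) (hg2 i))
  have htail : ∀ i, Real.exp (-(s i : ℝ) + 3 * ∑ q ∈ P i, g q) ≤ η i * V i := by
    intro i
    have h1 := V_ge g (P i) (hg0 i) (hg2 i)
    have h2 := hL i
    calc Real.exp (-(s i : ℝ) + 3 * ∑ q ∈ P i, g q)
        ≤ Real.exp ((-(3 : ℝ) - (i : ℕ)) + -2 * ∑ q ∈ P i, g q) := by
          apply Real.exp_le_exp.2
          linarith
      _ = η i * Real.exp (-2 * ∑ q ∈ P i, g q) := Real.exp_add _ _
      _ ≤ η i * V i := mul_le_mul_of_nonneg_left h1 (hη0 i).le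
  have hTV : ∀ i, |Tt i - V i| ≤ η i * V i := fun i =>
    (alt_le g (P i) (hg0 i) (s i)).trans (htail i)
  have hTu : ∀ i, Tt i ≤ (1 + η i) * V i := by
    intro i
    have := (abs_le.1 (hTV i)).2
    linarith
  have hTl : ∀ i, (1 - η i) * V i ≤ Tt i := by
    intro i
    have := (abs_le.1 (hTV i)).1
    linarith
  have hT0 : ∀ i, 0 ≤ Tt i := by
    intro i
    refine le_trans (mul_nonneg ?_ (hVpos i).le) (hTl i)
    linarith [hη1 i]
  have hEu : ∀ i, E i ≤ η i * V i := fun i =>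
    (top_le g (P i) (hg0 i) (s i)).trans (htail i)
  have hE0 : ∀ i, 0 ≤ E i := fun i => top_nonneg g (P i) (hg0 i) (s i)
  have hexp : Real.exp (1 / 10 : ℝ) ≤ 6 / 5 := by
    have h1 := Real.one_sub_le_exp_neg (1 / 10 : ℝ)
    have h2 : Real.exp (1 / 10 : ℝ) * Real.exp (-(1 / 10 : ℝ)) = 1 := by
      rw [← Real.exp_add]; simp
    have h3 := Real.exp_pos (1 / 10 : ℝ)
    nlinarith
  have hprodη : ∏ i, (1 + η i) ≤ 6 / 5 := by
    calc ∏ i, (1 + η i) ≤ ∏ i, Real.exp (η i) := by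
          refine prod_le_prod (fun i _ => by linarith [hη0 i]) fun i _ => ?_
          have := Real.add_one_le_exp (η i)
          linarith
      _ = Real.exp (∑ i, η i) := (Real.exp_sum _ _).symm
      _ ≤ Real.exp (1 / 10) := Real.exp_le_exp.2 hηsum
      _ ≤ 6 / 5 := hexp
  have hprodη' : (4 : ℝ) / 5 ≤ ∏ i, (1 - η i) := by
    calc (4 : ℝ) / 5 ≤ Real.exp (-(1 / 5 : ℝ)) := by
          have := Real.one_sub_le_exp_neg (1 / 5 : ℝ)
          linarith
      _ ≤ Real.exp (∑ i, -2 * η i) := by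
          apply Real.exp_le_exp.2
          rw [← mul_sum]
          linarith
      _ = ∏ i, Real.exp (-2 * η i) := Real.exp_sum _ _
      _ ≤ ∏ i, (1 - η i) := by
          refine prod_le_prod (fun i _ => (Real.exp_pos _).le) fun i _ => ?_
          exact one_sub_ge _ (hη0 i).le (by linarith [hη1 i])
  have hVp : 0 < ∏ i, V i := prod_pos fun i _ => hVpos i
  have hTprodL : 4 / 5 * ∏ i, V i ≤ ∏ i, Tt i := by
    calc 4 / 5 * ∏ i, V i ≤ (∏ i, (1 - η i)) * ∏ i, V i :=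
          mul_le_mul_of_nonneg_right hprodη' hVp.le
      _ = ∏ i, ((1 - η i) * V i) := prod_mul_distrib.symm
      _ ≤ ∏ i, Tt i := by
          refine prod_le_prod (fun i _ => mul_nonneg ?_ (hVpos i).le) fun i _ => hTl i
          linarith [hη1 i]
  have hmix : ∀ l, E l * ∏ i ∈ univ.erase l, Tt i ≤ η l * (6 / 5 * ∏ i, V i) := by
    intro l
    have h1 : ∏ i ∈ univ.erase l, Tt i ≤ ∏ i ∈ univ.erase l, ((1 + η i) * V i) :=
      prod_le_prod (fun i _ => hT0 i) fun i _ => hTu i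
    have h2 : ∏ i ∈ univ.erase l, ((1 + η i) * V i) =
        (∏ i ∈ univ.erase l, (1 + η i)) * ∏ i ∈ univ.erase l, V i := prod_mul_distrib
    have h3 : ∏ i ∈ univ.erase l, (1 + η i) ≤ 6 / 5 := by
      refine le_trans ?_ hprodη
      rw [← mul_prod_erase univ (fun i => 1 + η i) (mem_univ l)]
      have h4 : 0 ≤ ∏ i ∈ univ.erase l, (1 + η i) :=
        prod_nonneg fun i _ => by linarith [hη0 i]
      have h5 := hη0 l
      nlinarith
    have h4 : 0 ≤ ∏ i ∈ univ.erase l, V i := prod_nonneg fun i _ => (hVpos i).le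
    have h5 : V l * ∏ i ∈ univ.erase l, V i = ∏ i, V i := mul_prod_erase univ V (mem_univ l)
    calc E l * ∏ i ∈ univ.erase l, Tt i ≤ (η l * V l) * ∏ i ∈ univ.erase l, Tt i :=
          mul_le_mul_of_nonneg_right (hEu l) (prod_nonneg fun i _ => hT0 i)
      _ ≤ (η l * V l) * (6 / 5 * ∏ i ∈ univ.erase l, V i) := by
          refine mul_le_mul_of_nonneg_left ?_ (mul_nonneg (hη0 l).le (hVpos l).le)
          rw [h2] at h1
          exact h1.trans (mul_le_mul_of_nonneg_right h3 h4)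
      _ = η l * (6 / 5 * ∏ i, V i) := by rw [← h5]; ring
  let e : Fin t → ℕ → ℕ := fun i m => ((P i).filter (Pr m)).card
  let x : ℕ → Fin t → ℝ := fun m i => if e i m = 0 then 1 else 0
  let y : ℕ → Fin t → ℝ := fun m i => ∑ k ∈ range (s i + 1), ca (s i) k * (((e i m).choose k : ℕ) : ℝ)
  let z : ℕ → Fin t → ℝ := fun m i => ∑ k ∈ range (s i + 1), ct (s i) k * (((e i m).choose k : ℕ) : ℝ)
  have hx0 : ∀ m i, 0 ≤ x m i := fun m i => by simp only [x]; split_ifs <;> norm_num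
  have hxy : ∀ m i, x m i ≤ y m i := fun m i => (ptw (s i) (e i m) (hs i)).1
  have hyz : ∀ m i, y m i ≤ x m i + z m i := fun m i => (ptw (s i) (e i m) (hs i)).2
  have hz0 : ∀ m i, 0 ≤ z m i := fun m i => by
    simp only [z]; rw [top_eq]; exact Nat.cast_nonneg _
  have hS : ((T.filter fun L => ∀ i, ∀ q ∈ P i, ¬ Pr L q).card : ℝ) =
      ∑ m ∈ T, ∏ i, x m i := by
    have h1 : ∀ m, ∏ i, x m i = if (∀ i, ∀ q ∈ P i, ¬ Pr m q) then (1 : ℝ) else 0 := by
      intro m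
      by_cases h : ∀ i, ∀ q ∈ P i, ¬ Pr m q
      · rw [if_pos h]
        refine prod_eq_one fun i _ => ?_
        simp only [x, e]
        rw [if_pos]
        rw [card_eq_zero, filter_eq_empty_iff]
        exact fun q hq => h i q hq
      · rw [if_neg h]
        push Not at h
        obtain ⟨i, q, hq, hq2⟩ := h
        refine prod_eq_zero (mem_univ i) ?_
        simp only [x, e]
        rw [if_neg]
        rw [card_eq_zero, filter_eq_empty_iff]
        push Not
        exact ⟨q, hq, hq2⟩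
    simp_rw [h1]
    rw [card_filter]
    push_cast
    rfl
  have hY : |∑ m ∈ T, ∏ i, y m i - N * ∏ i, Tt i| ≤ Rem :=
    sbh_expand t T Pr P hdis s (fun i => ca (s i)) (fun i r => abs_ca _ _) g N F r hr hF
  have hZ : ∀ l, |∑ m ∈ T, z m l * ∏ i ∈ univ.erase l, y m i -
      N * (E l * ∏ i ∈ univ.erase l, Tt i)| ≤ Rem := by
    intro l
    have h1 := sbh_expand t T Pr P hdis s
      (fun i => if i = l then ct (s i) else ca (s i)) (fun i r => by
        split_ifs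
        · exact abs_ct _ _
        · exact abs_ca _ _) g N F r hr hF
    have h2 : ∀ m, ∏ i, ∑ k ∈ range (s i + 1), (if i = l then ct (s i) else ca (s i)) k *
        ((((P i).filter (Pr m)).card.choose k : ℕ) : ℝ) = z m l * ∏ i ∈ univ.erase l, y m i := by
      intro m
      rw [← mul_prod_erase univ _ (mem_univ l)]
      congr 1
      · simp only [if_true, z, e]
      · refine prod_congr rfl fun i hi => ?_
        have : i ≠ l := ne_of_mem_erase hi
        simp only [if_neg this, y, e]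
    have h3 : ∏ i, ∑ D ∈ sub (P i) (s i), (if i = l then ct (s i) else ca (s i)) D.card *
        ∏ q ∈ D, g q = E l * ∏ i ∈ univ.erase l, Tt i := by
      rw [← mul_prod_erase univ _ (mem_univ l)]
      congr 1
      · simp only [if_true, E]
      · refine prod_congr rfl fun i hi => ?_
        have : i ≠ l := ne_of_mem_erase hi
        simp only [if_neg this, Tt]
    simp_rw [h2, h3] at h1
    exact h1
  rw [hS]
  have h1 : ∑ m ∈ T, ∏ i, y m i ≤ ∑ m ∈ T, ∏ i, x m i +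
      ∑ l, ∑ m ∈ T, z m l * ∏ i ∈ univ.erase l, y m i := by
    rw [sum_comm, ← sum_add_distrib]
    exact sum_le_sum fun m _ => prod_ineq univ (x m) (y m) (z m) (hx0 m) (hxy m) (hyz m) (hz0 m)
  have h2 : ∑ l, ∑ m ∈ T, z m l * ∏ i ∈ univ.erase l, y m i ≤
      ∑ l : Fin t, (N * (η l * (6 / 5 * ∏ i, V i)) + Rem) := by
    refine sum_le_sum fun l _ => ?_
    have h3 := (abs_le.1 (hZ l)).2
    have h4 := mul_le_mul_of_nonneg_left (hmix l) hN
    linarith
  rw [sum_add_distrib, sum_const, card_univ, Fintype.card_fin, nsmul_eq_mul, ← mul_sum,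
    ← sum_mul] at h2
  have h3 := (abs_le.1 hY).1
  have h4 := mul_le_mul_of_nonneg_left hTprodL hN
  have h5 : N * ((∑ i, η i) * (6 / 5 * ∏ i, V i)) ≤
      N * ((1 / 10) * (6 / 5 * ∏ i, V i)) := by
    gcongr
  have h6 : 0 ≤ N * ∏ i, V i := mul_nonneg hN hVp.le
  linarith

theorem sbh_sum (t : ℕ) : ∑ j ∈ range t, 2 ^ (t - j) * (2 * j + 71) ≤ 146 * 2 ^ t := by
  have h : ∀ t : ℕ, ∑ j ∈ range t, 2 ^ (t - j) * (2 * j + 71) + (4 * t + 146) = 146 * 2 ^ t := by
    intro t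
    induction t with
    | zero => simp
    | succ t ih =>
      rw [sum_range_succ]
      have h1 : ∑ j ∈ range t, 2 ^ (t + 1 - j) * (2 * j + 71) =
          2 * ∑ j ∈ range t, 2 ^ (t - j) * (2 * j + 71) := by
        rw [mul_sum]
        refine sum_congr rfl fun j hj => ?_
        have : t + 1 - j = (t - j) + 1 := by
          have := mem_range.1 hj
          omega
        rw [this, pow_succ]
        ring
      rw [h1]
      have h2 : t + 1 - t = 1 := by omega
      rw [h2, pow_one, pow_succ]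
      linear_combination 2 * ih
  have h1 := h t
  omega

open scoped Classical in
theorem bh_lower (t : ℕ) (Q : Finset ℕ) (hQ : ∀ q ∈ Q, q.Prime ∧ 2 < q ∧ q ≤ 2 ^ (2 ^ t))
    (T : Finset ℕ) (P : ℕ → ℕ → Prop) (N : ℝ) (hN : 0 ≤ N) (r : Finset ℕ → ℝ)
    (hr : ∀ S, S ⊆ Q → pd S ≤ 2 ^ (146 * 2 ^ t) →
      |((T.filter (fun L => ∀ q ∈ S, P L q)).card : ℝ) - N * ∏ q ∈ S, 1 / ((q : ℝ) - 1)| ≤ r S) :
    1 / 2 * (N * ∏ q ∈ Q, (1 - 1 / ((q : ℝ) - 1))) -
        (t + 1) * ∑ S ∈ Q.powerset.filter (fun S => pd S ≤ 2 ^ (146 * 2 ^ t)), r S ≤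
      ((T.filter (fun L => ∀ q ∈ Q, ¬ P L q)).card : ℝ) := by
  set B : Fin t → Finset ℕ := fun j => (blk 1 t j).filter (· ∈ Q) with hB
  have hdis : ∀ i j, i ≠ j → Disjoint (B i) (B j) := fun i j hij =>
    (blk_disj 1 t i j hij).mono (filter_subset _ _) (filter_subset _ _)
  have hBQ : univ.biUnion B = Q := by
    ext q
    rw [mem_biUnion]
    constructor
    · rintro ⟨i, _, hi⟩
      exact (mem_filter.1 hi).2
    · intro hq
      obtain ⟨h1, h2, h3⟩ := hQ q hq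
      obtain ⟨j, hj⟩ := exists_blk (u := 1) (t := t) h1 (by rw [pow_one]; exact h2)
        (by rw [one_mul]; exact h3)
      exact ⟨j, mem_univ j, mem_filter.2 ⟨hj, hq⟩⟩
  have hq3 : ∀ j, ∀ q ∈ B j, (3 : ℝ) ≤ q := by
    intro j q hq
    have := (hQ q (mem_filter.1 hq).2).2.1
    exact_mod_cast this
  have hprod : ∏ q ∈ Q, (1 - 1 / ((q : ℝ) - 1)) = ∏ j, ∏ q ∈ B j, (1 - 1 / ((q : ℝ) - 1)) := by
    rw [← prod_biUnion, hBQ]
    intro i _ j _ hij
    exact hdis i j hij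
  have hfil : (T.filter (fun L => ∀ q ∈ Q, ¬ P L q)) =
      T.filter (fun L => ∀ i, ∀ q ∈ B i, ¬ P L q) := by
    refine filter_congr fun L _ => ?_
    constructor
    · intro h i q hq
      exact h q (mem_filter.1 hq).2
    · intro h q hq
      rw [← hBQ, mem_biUnion] at hq
      obtain ⟨i, _, hi⟩ := hq
      exact h i q hi
  rw [hprod, hfil]
  refine sbh_sieve t T P B hdis (fun q => 1 / ((q : ℝ) - 1)) ?_ ?_ (fun j => 2 * (j : ℕ) + 71) ?_ ?_
    N hN _ r ?_ ?_
  · intro j q hq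
    have := hq3 j q hq
    have h1 : (0 : ℝ) < (q : ℝ) - 1 := by linarith
    positivity
  · intro j q hq
    have := hq3 j q hq
    have h1 : (0 : ℝ) < (q : ℝ) - 1 := by linarith
    rw [div_le_div_iff₀ h1 (by norm_num)]
    linarith
  · intro j
    exact ⟨(j : ℕ) + 35, by ring⟩
  · intro j
    have h1 : ∑ q ∈ B j, 1 / ((q : ℝ) - 1) ≤ 3 / 2 * 9 := by
      calc ∑ q ∈ B j, 1 / ((q : ℝ) - 1) ≤ ∑ q ∈ B j, 3 / 2 * (1 / (q : ℝ)) := by
            refine sum_le_sum fun q hq => ?_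
            have := hq3 j q hq
            have h1 : (0 : ℝ) < (q : ℝ) - 1 := by linarith
            have h2 : (0 : ℝ) < (q : ℝ) := by linarith
            rw [mul_one_div, div_div, div_le_div_iff₀ h1 (by positivity)]
            linarith
        _ ≤ ∑ q ∈ blk 1 t j, 3 / 2 * (1 / (q : ℝ)) :=
            sum_le_sum_of_subset_of_nonneg (filter_subset _ _) fun _ _ _ => by positivity
        _ = 3 / 2 * ∑ q ∈ blk 1 t j, 1 / (q : ℝ) := (mul_sum _ _ _).symm
        _ ≤ 3 / 2 * 9 := by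
            have := blk_inv_le 1 t le_rfl j
            gcongr
    have h2 : (0 : ℝ) ≤ ((j : ℕ) : ℝ) := Nat.cast_nonneg _
    push_cast
    linarith
  · intro S hS
    rw [mem_filter, mem_powerset] at hS
    exact hr S hS.1 hS.2
  · intro φ hφ
    have h1 : ∀ i, φ i ⊆ B i ∧ (φ i).card ≤ 2 * (i : ℕ) + 71 := by
      intro i
      have := Fintype.mem_piFinset.1 hφ i
      rw [sub, mem_filter, mem_powerset] at this
      exact this
    rw [mem_filter, mem_powerset]
    constructor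
    · intro q hq
      obtain ⟨i, _, hi⟩ := mem_biUnion.1 hq
      exact (mem_filter.1 ((h1 i).1 hi)).2
    · unfold pd
      rw [prod_biUnion]
      · calc ∏ i, ∏ q ∈ φ i, q ≤ ∏ i : Fin t, (2 ^ (2 ^ (t - (i : ℕ)))) ^ (2 * (i : ℕ) + 71) := by
              refine prod_le_prod' fun i _ => ?_
              calc ∏ q ∈ φ i, q ≤ ∏ q ∈ φ i, 2 ^ (2 ^ (t - (i : ℕ))) := by
                    refine prod_le_prod' fun q hq => ?_
                    have h2 := (mem_blk.1 (mem_filter.1 ((h1 i).1 hq)).1).2.2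
                    rwa [one_mul] at h2
                _ = (2 ^ (2 ^ (t - (i : ℕ)))) ^ (φ i).card := by rw [prod_const]
                _ ≤ _ := Nat.pow_le_pow_right (by positivity) (h1 i).2
          _ = 2 ^ ∑ j ∈ range t, 2 ^ (t - j) * (2 * j + 71) := by
              rw [Fin.prod_univ_eq_prod_range
                (fun j => (2 ^ (2 ^ (t - j))) ^ (2 * j + 71)) t, ← prod_pow_eq_pow_sum]
              refine prod_congr rfl fun j _ => ?_
              rw [← pow_mul]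
          _ ≤ 2 ^ (146 * 2 ^ t) := Nat.pow_le_pow_right (by norm_num) (sbh_sum t)
      · intro i _ j _ hij
        exact (hdis i j hij).mono (h1 i).1 (h1 j).1

end Pool.SG
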