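import Pool.Agent.Lib.MP_a51fee_ag.SG.ND
import Pool.Agent.Lib.BV.BVWeight

/-!
# SG-SBv: the Bombieri-Vinogradov theorem for a family of moduli with multiplicities

PROOF.  Library: `Pool.BV.bv_weight (A k)` (second part, `Pool.BV.Ep`).  For `n ∈ Icc 1 Q` let `a n` be a class,
prime to `n`, which maximises `|Ep y n (c i)|` among the `i ∈ I` with `m i = n` (if there is none, `a n = 1`; for
`n` outside `Icc 1 Q` put `a n = 1`).  Then `∑_{i ∈ I} |Ep y (m i) (c i)| ≤ ∑_{n ∈ Icc 1 Q} #{i | m i = n} |Ep y n (a n)|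
≤ ∑_n τ(n)^k |Ep y n (a n)| ≤ X / (log X)^A`.
-/

set_option autoImplicit false

open Finset

namespace Pool.SG

theorem bv_fam (A k : ℕ) : ∃ B X0 : ℕ, ∀ X Q : ℕ, X0 ≤ X →
    (Q : ℝ) ≤ Real.sqrt X / Real.log X ^ B → ∀ y : ℕ, y ≤ X → ∀ (ι : Type) (I : Finset ι)
    (m c : ι → ℕ), (∀ i ∈ I, 1 ≤ m i ∧ m i ≤ Q ∧ Nat.Coprime (c i) (m i)) →
    (∀ n, (I.filter (fun i => m i = n)).card ≤ n.divisors.card ^ k) →
    ∑ i ∈ I, |Pool.BV.Ep y (m i) (c i)| ≤ X / Real.log X ^ A := by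
  obtain ⟨B, X0, hB⟩ := Pool.BV.bv_weight A k
  refine ⟨B, X0, fun X Q hX hQ y hy ι I m c hI hcard => ?_⟩
  have hex : ∀ n : ℕ, ∃ a : ℕ, Nat.Coprime a n ∧ ∀ i ∈ I, m i = n →
      |Pool.BV.Ep y n (c i)| ≤ |Pool.BV.Ep y n a| := by
    intro n
    by_cases hne : (I.filter (fun i => m i = n)).Nonempty
    · obtain ⟨i0, hi0, hmax⟩ := exists_max_image _ (fun i => |Pool.BV.Ep y n (c i)|) hne
      rw [mem_filter] at hi0
      refine ⟨c i0, ?_, fun i hi hin => hmax i (mem_filter.2 ⟨hi, hin⟩)⟩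
      rw [← hi0.2]
      exact (hI i0 hi0.1).2.2
    · refine ⟨1, Nat.coprime_one_left n, fun i hi hin => ?_⟩
      exact absurd ⟨i, mem_filter.2 ⟨hi, hin⟩⟩ hne
  choose a ha1 ha2 using hex
  have h1 := (hB X Q hX hQ a (fun _ => y) ha1 (fun _ => hy)).2
  refine le_trans ?_ h1
  calc ∑ i ∈ I, |Pool.BV.Ep y (m i) (c i)| ≤ ∑ i ∈ I, |Pool.BV.Ep y (m i) (a (m i))| :=
        sum_le_sum fun i hi => ha2 (m i) i hi rfl
    _ = ∑ n ∈ Icc 1 Q, ∑ i ∈ I with m i = n, |Pool.BV.Ep y (m i) (a (m i))| := by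
        rw [sum_fiberwise_of_maps_to]
        intro i hi
        exact mem_Icc.2 ⟨(hI i hi).1, (hI i hi).2.1⟩
    _ ≤ ∑ n ∈ Icc 1 Q, (n.divisors.card : ℝ) ^ k * |Pool.BV.Ep y n (a n)| := by
        refine sum_le_sum fun n _ => ?_
        have h2 : ∑ i ∈ I with m i = n, |Pool.BV.Ep y (m i) (a (m i))| =
            ((I.filter (fun i => m i = n)).card : ℝ) * |Pool.BV.Ep y n (a n)| := by
          rw [sum_congr rfl (g := fun _ => |Pool.BV.Ep y n (a n)|), sum_const, nsmul_eq_mul]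
          intro i hi
          rw [(mem_filter.1 hi).2]
        rw [h2]
        refine mul_le_mul_of_nonneg_right ?_ (abs_nonneg _)
        exact_mod_cast hcard n

end Pool.SG
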