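import Pool.Agent.Lib.MP_a51fee_ag.SG.NMert
import Pool.Agent.Lib.MP_dd84fd_nt.SW.SWPsi

/-!
# SG-SPi: primes in dyadic intervals, the sieve product

PROOF of `pi_low`.  `sw_theta` (library `Pool.Agent.Lib.MP_dd84fd_nt.SW.SWPsi`) with `A = 1`, `B = 0`, `r = 1`,
`c = 0`: `|θ(X) - X| ≤ X / log X` for `X ≥ X0`.  So `θ(2y) - θ(y) ≥ y - 2y/log(2y) - y/log y ≥ y/2` for large `y`, and
`θ(2y) - θ(y) ≤ log(2y) #{primes in (y, 2y]}`; `log (2y) ≤ 2 log y` gives the factor `1/4`.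
PROOF of `prod_low`.  For `q ≥ 3`: `1 - 1/(q-1) = (1 - 1/q)(1 - 1/(q-1)^2)` and
`1 - 1/(q-1)^2 ≥ exp (-2/(q-1)^2)` (`1/(q-1)^2 ≤ 1/4`), `∑_q 1/(q-1)^2 ≤ 2`, so the product over `Q` is
`≥ e^{-4} ∏_{q ∈ Q} (1 - 1/q) ≥ e^{-4} ∏_{q ∈ pr 1 X} (1 - 1/q) ≥ c / log X` (`mert_prod`).
-/

set_option autoImplicit false

open Finset

namespace Pool.SG

theorem pi_low : ∃ y0 : ℕ, ∀ y : ℕ, y0 ≤ y →
    (y : ℝ) / (4 * Real.log y) ≤ (((Ioc y (2 * y)).filter Nat.Prime).card : ℝ) := by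
  obtain ⟨X0, hX0⟩ := Pool.MP_dd84fd_nt.SW.sw_theta 1 0
  have hev : ∀ᶠ X : ℕ in Filter.atTop, 6 ≤ Real.log X :=
    (Real.tendsto_log_atTop.comp tendsto_natCast_atTop_atTop).eventually_ge_atTop _
  obtain ⟨Y1, hY1⟩ := Filter.eventually_atTop.1 hev
  refine ⟨max (max X0 Y1) 2, fun y hy => ?_⟩
  have hyX : X0 ≤ y := ((le_max_left _ _).trans (le_max_left _ _)).trans hy
  have hyY : Y1 ≤ y := ((le_max_right _ _).trans (le_max_left _ _)).trans hy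
  have hy2 : 2 ≤ y := (le_max_right _ _).trans hy
  have hy0 : (0 : ℝ) < y := by
    have : 0 < y := by omega
    exact_mod_cast this
  have hL : 6 ≤ Real.log y := hY1 y hyY
  have hLL : Real.log y ≤ Real.log ((2 * y : ℕ) : ℝ) := by
    apply Real.log_le_log hy0
    push_cast
    linarith
  have hfilt : ∀ n : ℕ, (Icc 1 n).filter (fun m => m.Prime ∧ m ≡ 0 [MOD 1]) =
      (Icc 1 n).filter Nat.Prime := by
    intro n
    apply filter_congr
    intro m _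
    simp [Nat.modEq_one]
  have h1 := hX0 y hyX 1 0 le_rfl (by simp) (by simp)
  have h2 := hX0 (2 * y) (by omega) 1 0 le_rfl (by simp) (by simp)
  rw [hfilt, Nat.totient_one, Nat.cast_one, div_one, pow_one] at h1 h2
  have h1' := (abs_le.1 h1).2
  have h2' := (abs_le.1 h2).1
  have hsplit : ∑ p ∈ (Icc 1 (2 * y)).filter Nat.Prime, Real.log p =
      ∑ p ∈ (Icc 1 y).filter Nat.Prime, Real.log p +
        ∑ p ∈ (Ioc y (2 * y)).filter Nat.Prime, Real.log p := by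
    rw [← sum_union]
    · refine sum_congr ?_ fun _ _ => rfl
      ext q
      simp only [mem_filter, mem_Icc, mem_union, mem_Ioc]
      constructor
      · rintro ⟨⟨ha, hb⟩, hc⟩
        by_cases hqy : q ≤ y
        · exact Or.inl ⟨⟨ha, hqy⟩, hc⟩
        · exact Or.inr ⟨⟨by omega, hb⟩, hc⟩
      · rintro (⟨⟨ha, hb⟩, hc⟩ | ⟨⟨ha, hb⟩, hc⟩)
        · exact ⟨⟨ha, by omega⟩, hc⟩
        · exact ⟨⟨by omega, hb⟩, hc⟩
    · rw [disjoint_left]
      intro q ha hb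
      simp only [mem_filter, mem_Icc, mem_Ioc] at ha hb
      omega
  have hup : ∑ p ∈ (Ioc y (2 * y)).filter Nat.Prime, Real.log p ≤
      (((Ioc y (2 * y)).filter Nat.Prime).card : ℝ) * (2 * Real.log y) := by
    rw [← nsmul_eq_mul]
    apply sum_le_card_nsmul
    intro q hq
    simp only [mem_filter, mem_Ioc] at hq
    have hq1 : (q : ℝ) ≤ (y : ℝ) * y := by
      have : q ≤ y * y := hq.1.2.trans (Nat.mul_le_mul_right y hy2)
      exact_mod_cast this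
    have hq0 : (0 : ℝ) < q := by exact_mod_cast hq.2.pos
    calc Real.log q ≤ Real.log ((y : ℝ) * y) := Real.log_le_log hq0 hq1
      _ = 2 * Real.log y := by rw [Real.log_mul hy0.ne' hy0.ne']; ring
  have e1 : (y : ℝ) / Real.log y ≤ y / 6 := by
    apply div_le_div_of_nonneg_left hy0.le (by norm_num) hL
  have e2 : ((2 * y : ℕ) : ℝ) / Real.log ((2 * y : ℕ) : ℝ) ≤ y / 3 := by
    have h3 : (0 : ℝ) ≤ ((2 * y : ℕ) : ℝ) := by positivity
    calc ((2 * y : ℕ) : ℝ) / Real.log ((2 * y : ℕ) : ℝ) ≤ ((2 * y : ℕ) : ℝ) / 6 :=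
          div_le_div_of_nonneg_left h3 (by norm_num) (hL.trans hLL)
      _ = y / 3 := by push_cast; ring
  have e3 : (y : ℝ) / 2 ≤ ∑ p ∈ (Ioc y (2 * y)).filter Nat.Prime, Real.log p := by
    rw [hsplit] at h2'
    have e4 : ((2 * y : ℕ) : ℝ) = 2 * y := by push_cast; ring
    rw [e4] at h2' e2
    linarith
  have hLpos : 0 < 4 * Real.log y := by linarith
  rw [div_le_iff₀ hLpos]
  linarith

private theorem tele (N : ℕ) : ∏ n ∈ Icc 3 (N + 2), (1 - 1 / ((n : ℝ) - 1) ^ 2) =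
    ((N : ℝ) + 2) / (2 * ((N : ℝ) + 1)) := by
  induction N with
  | zero => norm_num
  | succ N ih =>
    have h1 : Icc 3 (N + 1 + 2) = insert (N + 1 + 2) (Icc 3 (N + 2)) := by
      ext q
      simp only [mem_Icc, mem_insert]
      omega
    rw [h1, prod_insert (by simp), ih]
    have h2 : ((N : ℝ) + 1) ≠ 0 := by positivity
    have h3 : ((N : ℝ) + 2) ≠ 0 := by positivity
    have h4 : ((N : ℝ) + 1 + 1) ≠ 0 := by positivity
    push_cast
    have h5 : ((N : ℝ) + 1 + 2 - 1) ≠ 0 := by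
      have : (N : ℝ) + 1 + 2 - 1 = N + 2 := by ring
      rw [this]; exact h3
    field_simp
    ring

private theorem prod_sub_le {Q P : Finset ℕ} (hQP : Q ⊆ P) (f : ℕ → ℝ)
    (h0 : ∀ q ∈ P, 0 ≤ f q) (h1 : ∀ q ∈ P, f q ≤ 1) : ∏ q ∈ P, f q ≤ ∏ q ∈ Q, f q := by
  classical
  rw [← prod_sdiff hQP]
  have h2 : ∏ q ∈ P \ Q, f q ≤ 1 :=
    prod_le_one (fun q hq => h0 q (sdiff_subset hq)) (fun q hq => h1 q (sdiff_subset hq))
  have h3 : 0 ≤ ∏ q ∈ Q, f q := prod_nonneg fun q hq => h0 q (hQP hq)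
  calc (∏ q ∈ P \ Q, f q) * ∏ q ∈ Q, f q ≤ 1 * ∏ q ∈ Q, f q :=
        mul_le_mul_of_nonneg_right h2 h3
    _ = ∏ q ∈ Q, f q := one_mul _

theorem prod_low : ∃ c : ℝ, 0 < c ∧ ∀ X : ℝ, 2 ≤ X → ∀ Q : Finset ℕ,
    (∀ q ∈ Q, q.Prime ∧ 2 < q ∧ (q : ℝ) ≤ X) →
    c / Real.log X ≤ ∏ q ∈ Q, (1 - 1 / ((q : ℝ) - 1)) := by
  obtain ⟨c, C, hc, hC, hm⟩ := mert_prod
  refine ⟨c / 2, by positivity, fun X hX Q hQ => ?_⟩
  have hX0 : (0 : ℝ) ≤ X := by linarith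
  have hsub : Q ⊆ pr 1 X := by
    intro q hq
    obtain ⟨h1, h2, h3⟩ := hQ q hq
    rw [mem_pr hX0]
    exact ⟨h1, by exact_mod_cast h1.one_lt, h3⟩
  have hfac : ∏ q ∈ Q, (1 - 1 / ((q : ℝ) - 1)) =
      (∏ q ∈ Q, (1 - 1 / (q : ℝ))) * ∏ q ∈ Q, (1 - 1 / ((q : ℝ) - 1) ^ 2) := by
    rw [← prod_mul_distrib]
    refine prod_congr rfl fun q hq => ?_
    obtain ⟨h1, h2, h3⟩ := hQ q hq
    have h4 : (3 : ℝ) ≤ q := by exact_mod_cast h2
    have h5 : (q : ℝ) ≠ 0 := by linarith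
    have h6 : (q : ℝ) - 1 ≠ 0 := by
      intro h; linarith
    field_simp
    ring
  have ha : c / Real.log X ≤ ∏ q ∈ Q, (1 - 1 / (q : ℝ)) := by
    refine (hm X hX).1.trans (prod_sub_le hsub _ ?_ ?_)
    · intro q hq
      rw [mem_pr hX0] at hq
      have h4 : (2 : ℝ) ≤ q := by exact_mod_cast hq.1.two_le
      have : 1 / (q : ℝ) ≤ 1 / 2 := one_div_le_one_div_of_le (by norm_num) h4
      linarith
    · intro q hq
      have : 0 ≤ 1 / (q : ℝ) := by positivity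
      linarith
  have hb : (1 : ℝ) / 2 ≤ ∏ q ∈ Q, (1 - 1 / ((q : ℝ) - 1) ^ 2) := by
    obtain ⟨N, hN⟩ : ∃ N : ℕ, ∀ q ∈ Q, q ≤ N + 2 := by
      refine ⟨Q.sup id, fun q hq => ?_⟩
      have : id q ≤ Q.sup id := le_sup hq
      simp only [id] at this
      omega
    have hsub2 : Q ⊆ Icc 3 (N + 2) := by
      intro q hq
      rw [mem_Icc]
      exact ⟨(hQ q hq).2.1, hN q hq⟩
    refine le_trans ?_ (prod_sub_le hsub2 _ ?_ ?_)
    · rw [tele, div_le_div_iff₀ (by norm_num) (by positivity)]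
      linarith
    · intro q hq
      rw [mem_Icc] at hq
      have h4 : (3 : ℝ) ≤ q := by exact_mod_cast hq.1
      have h5 : (1 : ℝ) ≤ ((q : ℝ) - 1) ^ 2 := by nlinarith
      have : 1 / ((q : ℝ) - 1) ^ 2 ≤ 1 := by
        rw [div_le_one (by linarith)]; exact h5
      linarith
    · intro q _
      have : 0 ≤ 1 / ((q : ℝ) - 1) ^ 2 := by positivity
      linarith
  rw [hfac]
  have hlog : 0 < Real.log X := Real.log_pos (by linarith)
  have hcl : 0 ≤ c / Real.log X := by positivity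
  calc c / 2 / Real.log X = c / Real.log X * (1 / 2) := by ring
    _ ≤ (∏ q ∈ Q, (1 - 1 / (q : ℝ))) * ∏ q ∈ Q, (1 - 1 / ((q : ℝ) - 1) ^ 2) :=
        mul_le_mul ha hb (by norm_num) (hcl.trans ha)

end Pool.SG
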