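import Pool.Agent.Lib.MP_a51fee_ag.SG.SD
import Pool.Agent.Lib.MP_a51fee_ag.SG.NScale
import Pool.Agent.Lib.MP_a51fee_ag.SG.PJac
import Pool.Agent.Lib.MP_a51fee_ag.SG.SPi
import Pool.Agent.Lib.MP_a51fee_ag.SG.SBH
import Pool.Agent.Lib.BV.BVWeight

/-!
# SG-SL1: the number of admissible `L` for fixed `A`, `G`

Notation: `a = pd A`, `f = pd G`, `ρ = 1 + D τ`, `m0 = 4 p D`.
* the primes of `a` are in `(uu, ww]`, larger than `2, p` (for large `ℓ`, `ev_uu`), `a` squarefree, `a ≤ exp(lv/20)`,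
 `|A| = j0 ≤ lv`;
* the primes of `f` are in `PQ`, so odd and `≠ p` (`PP_basic`); `f` squarefree; `f` is prime to `m0` and to `a`.
`T := {L ∈ Ioc y (2y) | L prime, f L ≡ ρ mod m0, f L ≡ 1 mod a}`, `P L q := q ∣ f L - 1`.
For `S ⊆ QQ`: `m0, a, pd S` are pairwise coprime and `f` is a unit mod `m := m0 a pd S`; so
`{L ∈ T | ∀ q ∈ S, q ∣ f L - 1}` is the set of the primes `L ∈ Ioc y (2y)` in one residue class `cl S` mod `m`, prime to `m`
(`ρ` is prime to `2p`, so to `m0`).  With `Π = #{primes in Ioc y (2y)}`, `N := Π / φ(m0 a)`, `φ(m) = φ(m0 a) ∏_{q∈S} (q-1)`: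
the number is `N ∏_{q ∈ S} 1/(q-1) + Ep (2y) m (cl S) - Ep y m (cl S)`.
Choose `t` with `ww ≤ 2^(2^t) ≤ exp (lv/1000)` (`ww = exp (lv/2000)`: `2^t log 2 ∈ [lv/2000, lv/1000]`), `t + 1 ≤ lv`.
`bh_lower` with `Q := {q ∈ QQ | q ≤ 2^(2^t)}`, `r S := |Ep (2y)..| + |Ep y ..|`; `2^(146 * 2^t) ≤ exp (146/1000 lv)`, so the
remainder sum is over a subset of `QS`.  Main term: `Π ≥ y/(4 log y) ≥ y/(4 lv)` (`pi_low`; `log y ≤ lv`),
`φ(m0 a) ≤ m0 a`, `prod_low` with `X = exp (lv/1000)`: `≥ 1/2 * y/(4 lv m0 a) * 1000 c/lv = 2 c1 y/(a lv^2)`.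
The sieved `L ∈ T` (no `q ∈ Q` divides `f L - 1`) satisfy `LL`, except for those with `D a q ∣ f L - 1` for some
`q ∈ A`: let `q ≤ ww` be a prime with `D a q ∣ f L - 1`.
 - `q = 2` or `q = p`: `f L - 1 ≡ D τ mod 4 p D`, so `q ∣ (f L - 1)/D ≡ τ mod 4 p` gives `q ∣ τ`, contradiction;
 - `q ∣ f`: then `q ∣ 1`, contradiction;
 - otherwise, if `q ∤ a`, `q ∈ Q`: contradiction.
The number of `L ∈ Ioc y (2y)` with `a q ∣ f L - 1` for some `q ∈ A` is at most `∑_{q ∈ A} (y/(a q) + 1) ≤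
lv (y/(a uu) + 1) ≤ c1 y/(a lv^2)` (`ev_uu`; `y/a ≥ exp (lv/2 - lv/20)`, `ev_lv_const`...).
-/

set_option autoImplicit false

open Finset

namespace Pool.SG

private theorem sl1_cop {S : Finset ℕ} {n : ℕ} (hS : ∀ q ∈ S, q.Prime ∧ ¬ q ∣ n) :
    Nat.Coprime (pd S) n := by
  unfold pd
  exact Nat.Coprime.prod_left fun q hq => (hS q hq).1.coprime_iff_not_dvd.2 (hS q hq).2

private theorem sl1_cl (m0 a s f ρ : ℕ) (hm0 : 1 < m0) (ha : 0 < a) (hs : 0 < s)
    (h1 : Nat.Coprime m0 (a * s)) (h1' : Nat.Coprime a s) (hf : Nat.Coprime f (m0 * a * s))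
    (hρ : Nat.Coprime ρ m0) :
    ∃ c : ℕ, Nat.Coprime c (m0 * a * s) ∧ ∀ L : ℕ,
      (f * L ≡ ρ [MOD m0] ∧ f * L ≡ 1 [MOD a] ∧ f * L ≡ 1 [MOD s]) ↔
        L ≡ c [MOD m0 * a * s] := by
  have has : 0 < a * s := Nat.mul_pos ha hs
  have hm : 1 < m0 * a * s := by
    rw [mul_assoc]
    nlinarith
  obtain ⟨x, hx1, hx2⟩ := Nat.chineseRemainder h1 ρ 1
  obtain ⟨g, -, hg⟩ := Nat.exists_mul_mod_eq_one_of_coprime hf hm
  have hg' : f * g ≡ 1 [MOD m0 * a * s] := by
    unfold Nat.ModEq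
    rw [hg, Nat.mod_eq_of_lt hm]
  have hx : Nat.Coprime x (m0 * (a * s)) := by
    apply Nat.Coprime.mul_right
    · have := hx1.gcd_eq
      unfold Nat.Coprime
      rw [Nat.gcd_comm x, Nat.gcd_comm m0] at *
      unfold Nat.Coprime at hρ
      rw [← hρ, Nat.gcd_comm ρ]
      simpa [Nat.gcd_comm] using this
    · have := hx2.gcd_eq
      unfold Nat.Coprime
      simpa [Nat.gcd_comm] using this
  have hgc : Nat.Coprime g (m0 * a * s) := by
    have h2 := hg'.gcd_eq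
    have h3 : Nat.Coprime (f * g) (m0 * a * s) := by
      unfold Nat.Coprime
      simpa [Nat.gcd_comm] using h2
    exact Nat.Coprime.coprime_mul_left h3
  refine ⟨g * x, ?_, ?_⟩
  · apply Nat.Coprime.mul_left hgc
    rw [mul_assoc]
    exact hx
  · intro L
    constructor
    · rintro ⟨h2, h3, h4⟩
      have h5 : f * L ≡ 1 [MOD a * s] := (Nat.modEq_and_modEq_iff_modEq_mul h1').1 ⟨h3, h4⟩
      have h6 : f * L ≡ x [MOD m0 * (a * s)] :=
        (Nat.modEq_and_modEq_iff_modEq_mul h1).1 ⟨h2.trans hx1.symm, h5.trans hx2.symm⟩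
      rw [← mul_assoc] at h6
      have h7 : g * (f * L) ≡ g * x [MOD m0 * a * s] := h6.mul_left g
      have h8 : (f * g) * L ≡ 1 * L [MOD m0 * a * s] := hg'.mul_right L
      have h9 : g * (f * L) = (f * g) * L := by ring
      rw [h9] at h7
      rw [one_mul] at h8
      exact h8.symm.trans h7
    · intro h2
      have h3 : f * L ≡ f * (g * x) [MOD m0 * a * s] := h2.mul_left f
      have h4 : f * (g * x) ≡ 1 * x [MOD m0 * a * s] := by
        rw [← mul_assoc]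
        exact hg'.mul_right x
      rw [one_mul] at h4
      have h5 := h3.trans h4
      rw [mul_assoc] at h5
      obtain ⟨h6, h7⟩ := (Nat.modEq_and_modEq_iff_modEq_mul h1).2 h5
      obtain ⟨h8, h9⟩ := (Nat.modEq_and_modEq_iff_modEq_mul h1').2 (h7.trans hx2)
      exact ⟨h6.trans hx1, h8, h9⟩

private theorem sl1_dvd {S : Finset ℕ} (hS : ∀ q ∈ S, q.Prime) (n : ℕ) :
    (∀ q ∈ S, q ∣ n) ↔ pd S ∣ n := by
  constructor
  · intro h
    exact Finset.prod_primes_dvd n (fun q hq => (hS q hq).prime) h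
  · intro h q hq
    exact (Finset.dvd_prod_of_mem (fun q => q) hq).trans h

private theorem sl1_split (y : ℕ) (P : ℕ → Prop) [DecidablePred P] :
    (((Icc 1 (2 * y)).filter P).card : ℝ) =
      (((Icc 1 y).filter P).card : ℝ) + (((Ioc y (2 * y)).filter P).card : ℝ) := by
  have h : (Icc 1 (2 * y)).filter P = (Icc 1 y).filter P ∪ (Ioc y (2 * y)).filter P := by
    rw [← filter_union]
    congr 1
    ext z
    rw [mem_union, mem_Icc, mem_Icc, mem_Ioc]
    omega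
  rw [h, card_union_of_disjoint]
  · push_cast
    ring
  · rw [disjoint_left]
    intro z hz hz'
    rw [mem_filter, mem_Icc] at hz
    rw [mem_filter, mem_Ioc] at hz'
    omega

private theorem sl1_count (y m c : ℕ) :
    (((Ioc y (2 * y)).filter (fun L => L.Prime ∧ L ≡ c [MOD m])).card : ℝ) =
      (((Ioc y (2 * y)).filter Nat.Prime).card : ℝ) / (Nat.totient m : ℝ) +
        (Pool.BV.Ep (2 * y) m c - Pool.BV.Ep y m c) := by
  have h1 := sl1_split y (fun L => L.Prime ∧ L ≡ c [MOD m])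
  have h2 := sl1_split y Nat.Prime
  unfold Pool.BV.Ep
  rw [h1]
  have h3 : (((Icc 1 (2 * y)).filter (fun n => n.Prime)).card : ℝ) =
      (((Icc 1 y).filter (fun n => n.Prime)).card : ℝ) +
        (((Ioc y (2 * y)).filter Nat.Prime).card : ℝ) := h2
  rw [h3]
  ring

private theorem sl1_exc (y f M : ℕ) (hM : 1 < M) (hf : Nat.Coprime f M) :
    (((Ioc y (2 * y)).filter (fun L => f * L ≡ 1 [MOD M])).card : ℝ) ≤ y / M + 1 := by
  obtain ⟨g, -, hg⟩ := Nat.exists_mul_mod_eq_one_of_coprime hf hM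
  have hg' : f * g ≡ 1 [MOD M] := by
    unfold Nat.ModEq
    rw [hg, Nat.mod_eq_of_lt hM]
  have hsub : (Ioc y (2 * y)).filter (fun L => f * L ≡ 1 [MOD M]) ⊆
      (Ioc y (2 * y)).filter (fun L => L ≡ g [MOD M]) := by
    intro L hL
    rw [mem_filter] at hL ⊢
    refine ⟨hL.1, ?_⟩
    have h1 : g * (f * L) ≡ g * 1 [MOD M] := hL.2.mul_left g
    have h2 : (f * g) * L ≡ 1 * L [MOD M] := hg'.mul_right L
    have h3 : g * (f * L) = (f * g) * L := by ring
    rw [h3, mul_one] at h1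
    rw [one_mul] at h2
    exact h2.symm.trans h1
  have hM0 : 0 < M := by omega
  have hMR : (0 : ℝ) < M := by exact_mod_cast hM0
  have hMQ : (0 : ℚ) < M := by exact_mod_cast hM0
  have h4 := Nat.Ioc_filter_modEq_card y (2 * y) hM0 g
  have h5 : ((((Ioc y (2 * y)).filter (fun L => L ≡ g [MOD M])).card : ℤ) : ℚ) ≤ y / M + 1 := by
    rw [h4, Int.cast_max, Int.cast_zero]
    apply max_le
    · push_cast
      have h6 := Int.floor_le ((2 * (y : ℚ) - g) / M)
      have h7 := Int.lt_floor_add_one (((y : ℚ) - g) / M)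
      have h8 : (2 * (y : ℚ) - g) / M = (y : ℚ) / M + ((y : ℚ) - g) / M := by
        field_simp
        ring
      rw [h8] at h6
      rw [h8]
      linarith
    · positivity
  have h6 : (((Ioc y (2 * y)).filter (fun L => L ≡ g [MOD M])).card : ℝ) ≤ y / M + 1 := by
    have h7 : ((((Ioc y (2 * y)).filter (fun L => L ≡ g [MOD M])).card : ℚ) : ℚ) ≤ y / M + 1 := by
      simpa using h5
    have h8 := (Rat.cast_le (K := ℝ)).2 h7
    push_cast at h8
    exact h8
  refine le_trans ?_ h6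
  exact_mod_cast card_le_card hsub

private theorem sl1_tot (S : Finset ℕ) (hS : ∀ q ∈ S, q.Prime) :
    ((Nat.totient (pd S) : ℕ) : ℝ) = ∏ q ∈ S, ((q : ℝ) - 1) := by
  induction S using Finset.induction_on with
  | empty => simp [pd]
  | insert q S hq ih =>
    have h1 : pd (insert q S) = q * pd S := by
      unfold pd
      rw [prod_insert hq]
    have hqp := hS q (mem_insert_self _ _)
    have h2 : Nat.Coprime q (pd S) := by
      refine (sl1_cop (n := q) fun r hr => ⟨hS r (mem_insert_of_mem hr), ?_⟩).symm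
      intro h
      have := (Nat.prime_dvd_prime_iff_eq (hS r (mem_insert_of_mem hr)) hqp).1 h
      exact hq (this ▸ hr)
    rw [h1, Nat.totient_mul h2, prod_insert hq, Nat.totient_prime hqp, Nat.cast_mul,
      ih fun r hr => hS r (mem_insert_of_mem hr), Nat.cast_sub hqp.one_lt.le, Nat.cast_one]

private theorem sl1_nd {p D τ : ℕ} (hp : p.Prime) (h : HT p D τ) {q : ℕ} (hq : q.Prime)
    (h2 : q ≠ 2) (hqp : q ≠ p) : ¬ q ∣ 4 * p * D := by
  intro hd
  rcases (Nat.Prime.dvd_mul hq).1 hd with h1 | h1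
  · rcases (Nat.Prime.dvd_mul hq).1 h1 with h3 | h3
    · have h4 : q ∣ 2 ^ 2 := by norm_num; exact h3
      exact h2 ((Nat.prime_dvd_prime_iff_eq hq Nat.prime_two).1 (hq.dvd_of_dvd_pow h4))
    · exact hqp ((Nat.prime_dvd_prime_iff_eq hq hp).1 h3)
  · rcases h.primes q hq h1 with h4 | h4
    · exact h2 h4
    · exact hqp h4

private theorem sl1_rho {p D τ : ℕ} (hp : p.Prime) (h : HT p D τ) :
    Nat.Coprime (1 + D * τ) (4 * p * D) := by
  refine Nat.coprime_of_dvd fun k hk h1 h2 => ?_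
  have h3 : k = 2 ∨ k = p := by
    by_contra hc
    push Not at hc
    exact sl1_nd hp h hk hc.1 hc.2 h2
  have h4 : k ∣ 2 * p := by
    rcases h3 with rfl | rfl
    · exact dvd_mul_right _ _
    · exact dvd_mul_left _ _
  exact Nat.not_coprime_of_dvd_of_dvd hk.one_lt h1 h4 h.cr

open scoped Classical in
private theorem sl1_main {p D τ : ℕ} (hp : p.Prime) (hp2 : p ≠ 2) (h : HT p D τ) (κ ℓ : ℝ)
    (huu : (p : ℝ) + 2 ≤ uu κ ℓ) (G : Finset ℕ) (hG : G ∈ FF p (1 + D * τ) κ ℓ)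
    (A : Finset ℕ) (hA : A ∈ AA κ ℓ) (hAG : Disjoint A G) (y t : ℕ)
    (ht1 : ww κ ℓ ≤ (2 : ℝ) ^ (2 ^ t)) (ht2 : (2 : ℝ) ^ (2 ^ t) ≤ Real.exp (lv κ ℓ / 1000))
    (ht3 : (2 : ℝ) ^ (146 * 2 ^ t) ≤ Real.exp (73 / 500 * lv κ ℓ)) (c0 : ℝ)
    (hc0 : ∀ Q : Finset ℕ, (∀ q ∈ Q, q.Prime ∧ 2 < q ∧ (q : ℝ) ≤ Real.exp (lv κ ℓ / 1000)) →
      c0 ≤ ∏ q ∈ Q, (1 - 1 / ((q : ℝ) - 1))) :
    ∃ cl : Finset ℕ → ℕ,
      (∀ S ∈ QS p κ ℓ A G, Nat.Coprime (cl S) (4 * p * D * pd A * pd S)) ∧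
      1 / 2 * ((((Ioc y (2 * y)).filter Nat.Prime).card : ℝ) /
          (Nat.totient (4 * p * D * pd A) : ℝ) * c0) -
        (t + 1) * ∑ S ∈ QS p κ ℓ A G,
          (|Pool.BV.Ep (2 * y) (4 * p * D * pd A * pd S) (cl S)| +
            |Pool.BV.Ep y (4 * p * D * pd A * pd S) (cl S)|) -
        ∑ q ∈ A, ((y : ℝ) / (pd A * q) + 1) ≤
        (((Ioc y (2 * y)).filter (LL p D (1 + D * τ) κ ℓ A G)).card : ℝ) := by
  obtain ⟨a, ha⟩ : ∃ a : ℕ, a = pd A := ⟨_, rfl⟩
  obtain ⟨f, hf⟩ : ∃ f : ℕ, f = pd G := ⟨_, rfl⟩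
  obtain ⟨m0, hm0⟩ : ∃ m0 : ℕ, m0 = 4 * p * D := ⟨_, rfl⟩
  have hpp := hp.two_le
  have hDp := h.pos
  have hm01 : 1 < m0 := by
    rw [hm0]
    have : 1 ≤ p * D := Nat.mul_pos (by omega) hDp
    rw [mul_assoc]
    omega
  have hww0 : (0 : ℝ) ≤ ww κ ℓ := (Real.exp_pos _).le
  -- members of `A`
  have hAm : ∀ q ∈ A, q.Prime ∧ uu κ ℓ < q ∧ (q : ℝ) ≤ ww κ ℓ := by
    intro q hq
    unfold AA at hA
    rw [mem_filter, mem_powersetCard] at hA
    have h1 := hA.1.1 hq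
    unfold P1 at h1
    exact (mem_pr hww0).1 h1
  have hAp : ∀ q ∈ A, q ≠ 2 ∧ q ≠ p := by
    intro q hq
    have h1 := (hAm q hq).2.1
    have h2 : (p : ℝ) + 2 < q := lt_of_le_of_lt huu h1
    have h3 : p + 2 < q := by exact_mod_cast h2
    omega
  have hGm : ∀ q ∈ G, q.Prime ∧ q ≠ 2 ∧ q ≠ p := by
    intro q hq
    unfold FF at hG
    rw [mem_filter, mem_powerset] at hG
    have h1 := hG.1 hq
    rw [mem_filter] at h1
    have h2 := (mem_pr (Real.exp_pos _).le).1 h1.1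
    have h3 := PP_basic hp hp2 h1.2.1
    exact ⟨h2.1, h3.1, h3.2⟩
  have hApr : ∀ q ∈ A, q.Prime := fun q hq => (hAm q hq).1
  have hGpr : ∀ q ∈ G, q.Prime := fun q hq => (hGm q hq).1
  have ha0 : 0 < a := by
    rw [ha]
    exact prod_pos fun q hq => (hApr q hq).pos
  have hf0 : 0 < f := by
    rw [hf]
    exact prod_pos fun q hq => (hGpr q hq).pos
  have hcam : Nat.Coprime a m0 := by
    rw [ha, hm0]
    exact sl1_cop fun q hq => ⟨hApr q hq, sl1_nd hp h (hApr q hq) (hAp q hq).1 (hAp q hq).2⟩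
  have hcfm : Nat.Coprime f m0 := by
    rw [hf, hm0]
    exact sl1_cop fun q hq => ⟨hGpr q hq, sl1_nd hp h (hGpr q hq) (hGm q hq).2.1 (hGm q hq).2.2⟩
  have hcfa : Nat.Coprime f a := by
    rw [hf]
    refine sl1_cop fun q hq => ⟨hGpr q hq, fun hd => ?_⟩
    rw [ha] at hd
    unfold pd at hd
    obtain ⟨r, hr, hqr⟩ := ((hGpr q hq).prime.dvd_finsetProd_iff (fun q => q)).1 hd
    have := (Nat.prime_dvd_prime_iff_eq (hGpr q hq) (hApr r hr)).1 hqr
    exact disjoint_left.1 hAG hr (this ▸ hq)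
  have hQQ : ∀ q ∈ QQ p κ ℓ A G, q.Prime ∧ 2 < q ∧ (q : ℝ) ≤ Real.exp (lv κ ℓ / 1000) ∧
      ¬ q ∣ p ∧ ¬ q ∣ a ∧ ¬ q ∣ f := by
    intro q hq
    unfold QQ at hq
    rw [mem_filter] at hq
    obtain ⟨h1, h2, h3⟩ := (mem_pr (Real.exp_pos _).le).1 hq.1
    refine ⟨h1, by exact_mod_cast h2, h3, fun hd => hq.2 ?_, fun hd => hq.2 ?_, fun hd => hq.2 ?_⟩
    · exact (hd.mul_right _).mul_right _
    · rw [ha] at hd
      exact (hd.mul_left _).mul_right _
    · rw [hf] at hd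
      exact hd.mul_left _
  have hScop : ∀ S, S ⊆ QQ p κ ℓ A G → Nat.Coprime (pd S) m0 ∧ Nat.Coprime (pd S) a ∧
      Nat.Coprime (pd S) f ∧ 0 < pd S := by
    intro S hS
    refine ⟨?_, ?_, ?_, ?_⟩
    · rw [hm0]
      refine sl1_cop fun q hq => ⟨(hQQ q (hS hq)).1, ?_⟩
      obtain ⟨h1, h2, h3, h4, h5, h6⟩ := hQQ q (hS hq)
      exact sl1_nd hp h h1 (by omega) (fun hqp => h4 (hqp ▸ dvd_refl q))
    · exact sl1_cop fun q hq => ⟨(hQQ q (hS hq)).1, (hQQ q (hS hq)).2.2.2.2.1⟩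
    · exact sl1_cop fun q hq => ⟨(hQQ q (hS hq)).1, (hQQ q (hS hq)).2.2.2.2.2⟩
    · exact prod_pos fun q hq => (hQQ q (hS hq)).1.pos
  -- the residue classes
  have hcl : ∀ S, ∃ c : ℕ, S ⊆ QQ p κ ℓ A G → Nat.Coprime c (m0 * a * pd S) ∧ ∀ L : ℕ,
      (f * L ≡ (1 + D * τ) [MOD m0] ∧ f * L ≡ 1 [MOD a] ∧ f * L ≡ 1 [MOD pd S]) ↔
        L ≡ c [MOD m0 * a * pd S] := by
    intro S
    by_cases hS : S ⊆ QQ p κ ℓ A G
    · obtain ⟨h1, h2, h3, h4⟩ := hScop S hS
      have h5 : Nat.Coprime (1 + D * τ) m0 := by rw [hm0]; exact sl1_rho hp h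
      obtain ⟨c, hc⟩ := sl1_cl m0 a (pd S) f (1 + D * τ) hm01 ha0 h4
        (Nat.Coprime.mul_right hcam.symm h1.symm) h2.symm
        (Nat.Coprime.mul_right (Nat.Coprime.mul_right hcfm hcfa) h3.symm) h5
      exact ⟨c, fun _ => hc⟩
    · exact ⟨0, fun h => absurd h hS⟩
  choose cl hcl using hcl
  refine ⟨cl, ?_, ?_⟩
  · intro S hS
    unfold QS at hS
    rw [mem_filter, mem_powerset] at hS
    rw [← hm0, ← ha]
    exact (hcl S hS.1).1
  -- the sieve
  obtain ⟨Q, hQ⟩ : ∃ Q : Finset ℕ, Q = (QQ p κ ℓ A G).filter (fun q => q ≤ 2 ^ (2 ^ t)) :=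
    ⟨_, rfl⟩
  have hQsub : Q ⊆ QQ p κ ℓ A G := by rw [hQ]; exact filter_subset _ _
  obtain ⟨T, hT⟩ : ∃ T : Finset ℕ, T = (Ioc y (2 * y)).filter (fun L => L.Prime ∧
    f * L ≡ (1 + D * τ) [MOD m0] ∧ f * L ≡ 1 [MOD a]) := ⟨_, rfl⟩
  obtain ⟨r, hr⟩ : ∃ r : Finset ℕ → ℝ, r = fun S =>
    |Pool.BV.Ep (2 * y) (m0 * a * pd S) (cl S)| + |Pool.BV.Ep y (m0 * a * pd S) (cl S)| :=
    ⟨_, rfl⟩
  have hr0 : ∀ S, 0 ≤ r S := fun S => by rw [hr]; positivity
  have hone : ∀ L : ℕ, L.Prime → 1 ≤ f * L := fun L hL => Nat.mul_pos hf0 hL.pos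
  have hbh := bh_lower t Q (fun q hq => by
      rw [hQ, mem_filter] at hq
      exact ⟨(hQQ q hq.1).1, (hQQ q hq.1).2.1, hq.2⟩) T (fun L q => q ∣ f * L - 1)
    ((((Ioc y (2 * y)).filter Nat.Prime).card : ℝ) / (Nat.totient (m0 * a) : ℝ))
    (by positivity) r (by
      intro S hS _
      have hSQ := hS.trans hQsub
      obtain ⟨h1, h2, h3, h4⟩ := hScop S hSQ
      have hSpr : ∀ q ∈ S, q.Prime := fun q hq => (hQQ q (hSQ hq)).1
      have hset : T.filter (fun L => ∀ q ∈ S, q ∣ f * L - 1) =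
          (Ioc y (2 * y)).filter (fun L => L.Prime ∧ L ≡ cl S [MOD m0 * a * pd S]) := by
        ext L
        rw [hT, @Finset.mem_filter _ _ (_) _ _, @Finset.mem_filter _ _ (_) _ _,
          @Finset.mem_filter _ _ (_) _ _]
        constructor
        · rintro ⟨⟨h10, h5, h6, h7⟩, h8⟩
          refine ⟨h10, h5, ((hcl S hSQ).2 L).1 ⟨h6, h7, ?_⟩⟩
          have h9 := (sl1_dvd hSpr _).1 h8
          exact ((Nat.modEq_iff_dvd' (hone L h5)).2 h9).symm
        · rintro ⟨h10, h5, h6⟩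
          obtain ⟨h7, h8, h9⟩ := ((hcl S hSQ).2 L).2 h6
          refine ⟨⟨h10, h5, h7, h8⟩, (sl1_dvd hSpr _).2 ?_⟩
          exact (Nat.modEq_iff_dvd' (hone L h5)).1 h9.symm
      rw [hset, sl1_count]
      have htot : (Nat.totient (m0 * a * pd S) : ℝ) =
          (Nat.totient (m0 * a) : ℝ) * ∏ q ∈ S, ((q : ℝ) - 1) := by
        rw [Nat.totient_mul (Nat.Coprime.mul_left h1.symm h2.symm), Nat.cast_mul,
          sl1_tot S hSpr]
      have hmain : (((Ioc y (2 * y)).filter Nat.Prime).card : ℝ) /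
          (Nat.totient (m0 * a * pd S) : ℝ) =
          (((Ioc y (2 * y)).filter Nat.Prime).card : ℝ) / (Nat.totient (m0 * a) : ℝ) *
            ∏ q ∈ S, 1 / ((q : ℝ) - 1) := by
        rw [htot, prod_div_distrib, prod_const_one]
        rw [div_mul_div_comm, mul_one]
      rw [hmain, add_sub_cancel_left, hr]
      exact abs_sub _ _)
  have hc0Q : c0 ≤ ∏ q ∈ Q, (1 - 1 / ((q : ℝ) - 1)) :=
    hc0 Q fun q hq => ⟨(hQQ q (hQsub hq)).1, (hQQ q (hQsub hq)).2.1, (hQQ q (hQsub hq)).2.2.1⟩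
  -- remainder sum
  have hrem : ∑ S ∈ Q.powerset.filter (fun S => pd S ≤ 2 ^ (146 * 2 ^ t)), r S ≤
      ∑ S ∈ QS p κ ℓ A G, r S := by
    apply sum_le_sum_of_subset_of_nonneg
    · intro S hS
      rw [mem_filter, mem_powerset] at hS
      unfold QS
      rw [mem_filter, mem_powerset]
      refine ⟨hS.1.trans hQsub, le_trans ?_ ht3⟩
      exact_mod_cast hS.2
    · intro S _ _
      exact hr0 S
  -- the sieved numbers
  have hsub : T.filter (fun L => ∀ q ∈ Q, ¬ q ∣ f * L - 1) ⊆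
      (Ioc y (2 * y)).filter (LL p D (1 + D * τ) κ ℓ A G) ∪
        A.biUnion (fun q => (Ioc y (2 * y)).filter (fun L => f * L ≡ 1 [MOD a * q])) := by
    intro L hL
    rw [mem_filter, hT, mem_filter] at hL
    obtain ⟨⟨hLy, hLp, hLρ, hLa⟩, hLQ⟩ := hL
    rw [mem_union]
    by_cases hLL : LL p D (1 + D * τ) κ ℓ A G L
    · left
      rw [mem_filter]
      exact ⟨hLy, hLL⟩
    · right
      unfold LL at hLL
      rw [← hm0, ← ha, ← hf] at hLL
      have hex : ∃ q : ℕ, q.Prime ∧ (q : ℝ) ≤ ww κ ℓ ∧ D * a * q ∣ f * L - 1 := by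
        by_contra hc
        push Not at hc
        exact hLL ⟨hLp, hLρ, hLa, fun q h1 h2 => hc q h1 h2⟩
      obtain ⟨q, hq, hqw, hqd⟩ := hex
      rw [mem_biUnion]
      by_cases hqA : q ∈ A
      · refine ⟨q, hqA, ?_⟩
        rw [mem_filter]
        refine ⟨hLy, ?_⟩
        have h1 : a * q ∣ f * L - 1 := by
          refine dvd_trans ?_ hqd
          rw [mul_assoc]
          exact dvd_mul_left _ _
        exact ((Nat.modEq_iff_dvd' (hone L hLp)).2 h1).symm
      · exfalso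
        have hqd1 : q ∣ f * L - 1 := (dvd_mul_left q (D * a)).trans hqd
        have hqa : ¬ q ∣ a := by
          intro hd
          rw [ha] at hd
          unfold pd at hd
          obtain ⟨r, hr, hqr⟩ := (hq.prime.dvd_finsetProd_iff (fun q => q)).1 hd
          have := (Nat.prime_dvd_prime_iff_eq hq (hApr r hr)).1 hqr
          exact hqA (this ▸ hr)
        by_cases hq2p : q = 2 ∨ q = p
        · -- `D q ∣ f L - 1 ≡ D τ`
          have h1 : D * q ∣ f * L - 1 := by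
            refine dvd_trans ?_ hqd
            rw [mul_assoc]
            exact mul_dvd_mul_left D (dvd_mul_left q a)
          have h2 : D * q ∣ m0 := by
            rw [hm0, mul_comm (4 * p) D]
            apply mul_dvd_mul_left
            rcases hq2p with rfl | rfl
            · exact (by norm_num : 2 ∣ 4).mul_right p
            · exact dvd_mul_left _ _
          have h3 : f * L ≡ 1 + D * τ [MOD D * q] := hLρ.of_dvd h2
          have h4 : f * L ≡ 1 [MOD D * q] :=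
            ((Nat.modEq_iff_dvd' (hone L hLp)).2 h1).symm
          have h5 : 1 + 0 ≡ 1 + D * τ [MOD D * q] := h4.symm.trans h3
          have h6 := Nat.ModEq.add_left_cancel' 1 h5
          have h7 : D * q ∣ D * τ := (Nat.modEq_zero_iff_dvd).1 h6.symm
          have h8 : q ∣ τ := Nat.dvd_of_mul_dvd_mul_left hDp h7
          have h9 : q ∣ 2 * p := by
            rcases hq2p with rfl | rfl
            · exact dvd_mul_right _ _
            · exact dvd_mul_left _ _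
          exact Nat.not_coprime_of_dvd_of_dvd hq.one_lt h8 h9 h.ct
        · push Not at hq2p
          by_cases hqf : q ∣ f
          · have h1 : q ∣ f * L := hqf.mul_right L
            have h2 : q ∣ f * L - (f * L - 1) := Nat.dvd_sub h1 hqd1
            have h3 : f * L - (f * L - 1) = 1 := by
              have := hone L hLp
              omega
            rw [h3] at h2
            exact hq.one_lt.ne' (Nat.dvd_one.1 h2)
          · refine hLQ q ?_ hqd1
            rw [hQ, mem_filter]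
            have hle : (q : ℝ) ≤ (2 : ℝ) ^ (2 ^ t) := hqw.trans ht1
            refine ⟨?_, by exact_mod_cast hle⟩
            unfold QQ
            rw [mem_filter]
            refine ⟨(mem_pr (Real.exp_pos _).le).2 ⟨hq, ?_, hle.trans ht2⟩, ?_⟩
            · have : 2 < q := lt_of_le_of_ne hq.two_le (Ne.symm hq2p.1)
              exact_mod_cast this
            · rw [← ha, ← hf]
              intro hd
              rcases (Nat.Prime.dvd_mul hq).1 hd with h1 | h1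
              · rcases (Nat.Prime.dvd_mul hq).1 h1 with h2 | h2
                · exact hq2p.2 ((Nat.prime_dvd_prime_iff_eq hq hp).1 h2)
                · exact hqa h2
              · exact hqf h1
  have hcard : ((T.filter (fun L => ∀ q ∈ Q, ¬ q ∣ f * L - 1)).card : ℝ) ≤
      (((Ioc y (2 * y)).filter (LL p D (1 + D * τ) κ ℓ A G)).card : ℝ) +
        ∑ q ∈ A, ((y : ℝ) / (a * q) + 1) := by
    have h1 := (card_le_card hsub).trans (card_union_le _ _)
    have h2 : ((A.biUnion (fun q => (Ioc y (2 * y)).filter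
        (fun L => f * L ≡ 1 [MOD a * q]))).card : ℝ) ≤ ∑ q ∈ A, ((y : ℝ) / (a * q) + 1) := by
      have h3 : ((A.biUnion (fun q => (Ioc y (2 * y)).filter
        (fun L => f * L ≡ 1 [MOD a * q]))).card : ℝ) ≤ ∑ q ∈ A,
          (((Ioc y (2 * y)).filter (fun L => f * L ≡ 1 [MOD a * q])).card : ℝ) := by
        exact_mod_cast card_biUnion_le
      refine h3.trans (sum_le_sum fun q hq => ?_)
      have hq1 := (hApr q hq).one_lt
      have h4 : 1 < a * q := by nlinarith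
      have h5 : Nat.Coprime f (a * q) := by
        apply Nat.Coprime.mul_right hcfa
        refine Nat.Coprime.coprime_dvd_right ?_ hcfa
        rw [ha]
        exact dvd_prod_of_mem (fun q => q) hq
      have h6 := sl1_exc y f (a * q) h4 h5
      rw [Nat.cast_mul] at h6
      exact h6
    have h3 : ((T.filter (fun L => ∀ q ∈ Q, ¬ q ∣ f * L - 1)).card : ℝ) ≤
        (((Ioc y (2 * y)).filter (LL p D (1 + D * τ) κ ℓ A G)).card : ℝ) +
        ((A.biUnion (fun q => (Ioc y (2 * y)).filter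
          (fun L => f * L ≡ 1 [MOD a * q]))).card : ℝ) := by
      exact_mod_cast h1
    linarith
  have hN0 : 0 ≤ (((Ioc y (2 * y)).filter Nat.Prime).card : ℝ) /
      (Nat.totient (m0 * a) : ℝ) := by positivity
  have hmain := mul_le_mul_of_nonneg_left hc0Q hN0
  have ht0 : (0 : ℝ) ≤ t + 1 := by positivity
  have hrem2 := mul_le_mul_of_nonneg_left hrem ht0
  rw [← hm0, ← ha]
  have hcard2 : ∀ U : Finset ℕ, (∀ L, L ∈ U ↔ L ∈ T.filter (fun L => ∀ q ∈ Q, ¬ q ∣ f * L - 1)) →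
      (U.card : ℝ) ≤ (((Ioc y (2 * y)).filter (LL p D (1 + D * τ) κ ℓ A G)).card : ℝ) +
        ∑ q ∈ A, ((y : ℝ) / (a * q) + 1) := by
    intro U hU
    rw [Finset.ext hU]
    exact hcard
  have hbh2 := hbh.trans (hcard2 _ fun L => by
    rw [@Finset.mem_filter _ _ (_) _ _, @Finset.mem_filter _ _ (_) _ _])
  rw [hr] at hrem2 hbh2
  simp only at hrem2 hbh2
  linarith

open scoped Classical in
theorem L_one {p D τ : ℕ} (hp : p.Prime) (hp2 : p ≠ 2) (h : HT p D τ) : ∃ c : ℝ, 0 < c ∧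
    Ev fun κ ℓ => ∀ G ∈ FF p (1 + D * τ) κ ℓ, ∀ A ∈ AA κ ℓ, Disjoint A G → ∀ y : ℕ, YR κ ℓ y →
      ∃ cl : Finset ℕ → ℕ,
        (∀ S ∈ QS p κ ℓ A G, Nat.Coprime (cl S) (4 * p * D * pd A * pd S)) ∧
        c * y / lv κ ℓ ^ 2 * wt A - lv κ ℓ * ∑ S ∈ QS p κ ℓ A G,
            (|Pool.BV.Ep (2 * y) (4 * p * D * pd A * pd S) (cl S)| +
              |Pool.BV.Ep y (4 * p * D * pd A * pd S) (cl S)|) ≤
          (((Ioc y (2 * y)).filter (LL p D (1 + D * τ) κ ℓ A G)).card : ℝ) := by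
  obtain ⟨y0, hy0⟩ := pi_low
  obtain ⟨c0, hc0, hprod⟩ := prod_low
  have hm0 : (0 : ℝ) < 4 * p * D := by
    have h1 : (0 : ℝ) < p := by exact_mod_cast hp.pos
    have h2 : (0 : ℝ) < D := by exact_mod_cast h.pos
    positivity
  obtain ⟨c, hc⟩ : ∃ c : ℝ, c = 125 * c0 / (2 * (4 * p * D)) := ⟨_, rfl⟩
  have hcpos : 0 < c := by rw [hc]; positivity
  obtain ⟨K, hK⟩ : ∃ K : ℝ, K = 2 / c * 24 * (20 / 9) ^ 4 := ⟨_, rfl⟩
  refine ⟨c, hcpos, ?_⟩
  refine ((((((ev_uu (p + 2) 0 0).and (ev_uu (2 / c) 3 0)).and (ev_lv_const (2 * y0))).and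
    (ev_lv_const 2000)).and (ev_lv_const K)).and j0_facts).mono ?_
  rintro κ ℓ ⟨⟨⟨⟨⟨h1, h2⟩, h3⟩, h4⟩, h5⟩, -, -, -, h6⟩ G hG A hA hAG y hy
  rw [pow_zero, pow_zero, mul_one, mul_one] at h1
  rw [pow_zero, mul_one] at h2
  obtain ⟨L, hL⟩ : ∃ L : ℝ, L = lv κ ℓ := ⟨_, rfl⟩
  rw [← hL] at h2 h3 h4 h5 h6
  have hL0 : 0 < L := by linarith
  -- `t`
  have hlog2 : 0 < Real.log 2 := Real.log_pos (by norm_num)
  have hlog2' : Real.log 2 < 1 := by
    have := Real.log_two_lt_d9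
    linarith
  have hlog2'' : 1 / 2 < Real.log 2 := by
    have := Real.log_two_gt_d9
    linarith
  obtain ⟨t, ht1, ht2⟩ := exists_nat_pow_near (x := L / (1000 * Real.log 2)) (y := 2) (by
    rw [le_div_iff₀ (by positivity)]
    linarith) (by norm_num)
  rw [le_div_iff₀ (by positivity)] at ht1
  rw [div_lt_iff₀ (by positivity), pow_succ] at ht2
  have hpow : ∀ k : ℕ, (2 : ℝ) ^ k = Real.exp (k * Real.log 2) := by
    intro k
    rw [Real.exp_nat_mul, Real.exp_log (by norm_num)]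
  have e1 : ww κ ℓ ≤ (2 : ℝ) ^ (2 ^ t) := by
    rw [hpow]
    unfold ww
    rw [← hL]
    apply Real.exp_le_exp.2
    push_cast
    linarith
  have e2 : (2 : ℝ) ^ (2 ^ t) ≤ Real.exp (lv κ ℓ / 1000) := by
    rw [hpow, ← hL]
    apply Real.exp_le_exp.2
    push_cast
    linarith
  have e3 : (2 : ℝ) ^ (146 * 2 ^ t) ≤ Real.exp (73 / 500 * lv κ ℓ) := by
    rw [hpow, ← hL]
    apply Real.exp_le_exp.2
    push_cast
    linarith
  have htL : (t : ℝ) + 1 ≤ L := by
    have h7 : t + 1 ≤ 2 ^ t := Nat.lt_two_pow_self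
    have h8 : (t : ℝ) + 1 ≤ 2 ^ t := by exact_mod_cast h7
    have h9 : (2 : ℝ) ^ t * 1 ≤ 2 ^ t * (1000 * Real.log 2) :=
      mul_le_mul_of_nonneg_left (by linarith) (by positivity)
    linarith
  have hX2 : 2 ≤ Real.exp (L / 1000) := by
    have := Real.add_one_le_exp (L / 1000)
    linarith
  have e4 : ∀ Q : Finset ℕ, (∀ q ∈ Q, q.Prime ∧ 2 < q ∧ (q : ℝ) ≤ Real.exp (lv κ ℓ / 1000)) →
      c0 / (L / 1000) ≤ ∏ q ∈ Q, (1 - 1 / ((q : ℝ) - 1)) := by
    intro Q hQ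
    rw [← hL] at hQ
    have := hprod (Real.exp (L / 1000)) hX2 Q hQ
    rwa [Real.log_exp] at this
  obtain ⟨cl, hcl1, hcl2⟩ := sl1_main hp hp2 h κ ℓ h1 G hG A hA hAG y t e1 e2 e3
    (c0 / (L / 1000)) e4
  refine ⟨cl, hcl1, ?_⟩
  rw [← hL]
  unfold YR at hy
  rw [← hL] at hy
  have hA' := hA
  unfold AA at hA'
  rw [mem_filter, mem_powersetCard] at hA'
  have hww0 : (0 : ℝ) ≤ ww κ ℓ := (Real.exp_pos _).le
  have hAm : ∀ q ∈ A, q.Prime ∧ uu κ ℓ < q := by
    intro q hq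
    have h7 := hA'.1.1 hq
    unfold P1 at h7
    exact ⟨((mem_pr hww0).1 h7).1, ((mem_pr hww0).1 h7).2.1⟩
  have ha0 : (0 : ℝ) < pd A := by
    have : 0 < pd A := prod_pos fun q hq => (hAm q hq).1.pos
    exact_mod_cast this
  have hy1 : (y0 : ℝ) ≤ y := by
    have := Real.add_one_le_exp (L / 2)
    linarith [hy.1]
  have hy2 : y0 ≤ y := by exact_mod_cast hy1
  have hypos : (0 : ℝ) < y := lt_of_lt_of_le (Real.exp_pos _) hy.1
  have hylog : Real.log y ≤ L := by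
    rw [Real.log_le_iff_le_exp hypos]
    have h7 : Real.exp (4 / 5 * L) ≤ Real.exp L := Real.exp_le_exp.2 (by linarith)
    linarith [hy.2]
  have hylog0 : 0 < Real.log y := by
    apply Real.log_pos
    have := Real.add_one_le_exp (L / 2)
    linarith [hy.1]
  have hPi : (y : ℝ) / (4 * L) ≤ (((Ioc y (2 * y)).filter Nat.Prime).card : ℝ) := by
    refine le_trans ?_ (hy0 y hy2)
    apply div_le_div_of_nonneg_left hypos.le (by positivity)
    linarith
  have hphi : (Nat.totient (4 * p * D * pd A) : ℝ) ≤ 4 * p * D * pd A := by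
    have := Nat.totient_le (4 * p * D * pd A)
    exact_mod_cast this
  have hphi0 : (0 : ℝ) < Nat.totient (4 * p * D * pd A) := by
    have h7 : (0 : ℝ) < ((4 * p * D * pd A : ℕ) : ℝ) := by push_cast; positivity
    have h8 : 0 < 4 * p * D * pd A := by exact_mod_cast h7
    exact_mod_cast Nat.totient_pos.2 h8
  -- (i)
  have hi : 2 * (c * y / L ^ 2 * (1 / pd A)) ≤ 1 / 2 *
      ((((Ioc y (2 * y)).filter Nat.Prime).card : ℝ) /
        (Nat.totient (4 * p * D * pd A) : ℝ) * (c0 / (L / 1000))) := by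
    have h7 : (y : ℝ) / (4 * L) / (4 * p * D * pd A) ≤
        (((Ioc y (2 * y)).filter Nat.Prime).card : ℝ) /
          (Nat.totient (4 * p * D * pd A) : ℝ) := by
      apply div_le_div₀ (Nat.cast_nonneg _) hPi hphi0 hphi
    have h8 : 1 / 2 * ((y : ℝ) / (4 * L) / (4 * p * D * pd A) * (c0 / (L / 1000))) ≤
        1 / 2 * ((((Ioc y (2 * y)).filter Nat.Prime).card : ℝ) /
          (Nat.totient (4 * p * D * pd A) : ℝ) * (c0 / (L / 1000))) := by
      apply mul_le_mul_of_nonneg_left _ (by norm_num)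
      exact mul_le_mul_of_nonneg_right h7 (by positivity)
    refine le_trans (le_of_eq ?_) h8
    rw [hc]
    have h9 : (p : ℝ) ≠ 0 := by
      have := hp.pos
      positivity
    have h10 : (D : ℝ) ≠ 0 := by
      have := h.pos
      positivity
    field_simp
    ring
  -- (ii)
  have huu0 : 0 < uu κ ℓ := Real.exp_pos _
  have hii : ∑ q ∈ A, ((y : ℝ) / (pd A * q) + 1) ≤ c * y / L ^ 2 * (1 / pd A) := by
    have h7 : ∑ q ∈ A, ((y : ℝ) / (pd A * q) + 1) ≤ ∑ _q ∈ A, ((y : ℝ) / (pd A * uu κ ℓ) + 1) := by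
      apply sum_le_sum
      intro q hq
      have h8 := (hAm q hq).2
      have h9 : (y : ℝ) / (pd A * q) ≤ (y : ℝ) / (pd A * uu κ ℓ) := by
        apply div_le_div_of_nonneg_left hypos.le (by positivity)
        exact mul_le_mul_of_nonneg_left h8.le ha0.le
      linarith
    rw [sum_const, nsmul_eq_mul, hA'.1.2] at h7
    have h8 : (j0 κ ℓ : ℝ) * ((y : ℝ) / (pd A * uu κ ℓ) + 1) ≤
        L * ((y : ℝ) / (pd A * uu κ ℓ) + 1) :=
      mul_le_mul_of_nonneg_right h6 (by positivity)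
    have h9 : L * ((y : ℝ) / (pd A * uu κ ℓ)) ≤ 1 / 2 * (c * y / L ^ 2 * (1 / pd A)) := by
      have h10 : 2 / c * L ^ 3 * (c / (2 * L ^ 2)) = L := by
        field_simp
      have h11 : L ≤ uu κ ℓ * (c / (2 * L ^ 2)) := by
        calc L = 2 / c * L ^ 3 * (c / (2 * L ^ 2)) := h10.symm
          _ ≤ uu κ ℓ * (c / (2 * L ^ 2)) := mul_le_mul_of_nonneg_right h2 (by positivity)
      calc L * ((y : ℝ) / (pd A * uu κ ℓ)) ≤
          (uu κ ℓ * (c / (2 * L ^ 2))) * ((y : ℝ) / (pd A * uu κ ℓ)) :=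
            mul_le_mul_of_nonneg_right h11 (by positivity)
        _ = 1 / 2 * (c * y / L ^ 2 * (1 / pd A)) := by
            field_simp
    have h12 : L ≤ 1 / 2 * (c * y / L ^ 2 * (1 / pd A)) := by
      have h13 : Real.exp (9 / 20 * L) * pd A ≤ y := by
        calc Real.exp (9 / 20 * L) * pd A ≤ Real.exp (9 / 20 * L) * Real.exp (L / 20) := by
              apply mul_le_mul_of_nonneg_left _ (Real.exp_pos _).le
              rw [hL]
              exact hA'.2
          _ = Real.exp (L / 2) := by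
              rw [← Real.exp_add]
              congr 1
              ring
          _ ≤ y := hy.1
      have h14 : (9 / 20 * L) ^ 4 / 24 ≤ Real.exp (9 / 20 * L) := by
        have := Real.pow_div_factorial_le_exp (9 / 20 * L) (by positivity) 4
        norm_num [Nat.factorial] at this ⊢
        linarith
      have h15 : 2 / c * L ^ 3 ≤ (9 / 20 * L) ^ 4 / 24 := by
        have h16 : (9 / 20 * L) ^ 4 / 24 = ((9 / 20) ^ 4 / 24 * L) * L ^ 3 := by ring
        rw [h16]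
        apply mul_le_mul_of_nonneg_right _ (by positivity)
        have h17 : (9 / 20 : ℝ) ^ 4 / 24 * K ≤ (9 / 20) ^ 4 / 24 * L :=
          mul_le_mul_of_nonneg_left h5 (by positivity)
        refine le_trans (le_of_eq ?_) h17
        rw [hK]
        field_simp
      have h18 : 2 / c * L ^ 3 * pd A ≤ y :=
        (mul_le_mul_of_nonneg_right (h15.trans h14) ha0.le).trans h13
      have h19 : 1 / 2 * (c * (2 / c * L ^ 3 * pd A) / L ^ 2 * (1 / pd A)) = L := by
        field_simp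
      calc L = 1 / 2 * (c * (2 / c * L ^ 3 * pd A) / L ^ 2 * (1 / pd A)) := h19.symm
        _ ≤ 1 / 2 * (c * y / L ^ 2 * (1 / pd A)) := by gcongr
    have h20 : L * ((y : ℝ) / (pd A * uu κ ℓ) + 1) = L * ((y : ℝ) / (pd A * uu κ ℓ)) + L := by
      ring
    linarith
  -- (iii)
  have hiii : ((t : ℝ) + 1) * ∑ S ∈ QS p κ ℓ A G,
      (|Pool.BV.Ep (2 * y) (4 * p * D * pd A * pd S) (cl S)| +
        |Pool.BV.Ep y (4 * p * D * pd A * pd S) (cl S)|) ≤
      L * ∑ S ∈ QS p κ ℓ A G,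
      (|Pool.BV.Ep (2 * y) (4 * p * D * pd A * pd S) (cl S)| +
        |Pool.BV.Ep y (4 * p * D * pd A * pd S) (cl S)|) :=
    mul_le_mul_of_nonneg_right htL (sum_nonneg fun S _ => by positivity)
  rw [wt_eq]
  linarith

end Pool.SG
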