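import Pool.Agent.Lib.MP_a51fee_ag.SG.SL1
import Pool.Agent.Lib.MP_a51fee_ag.SG.SBv

/-!
# SG-SL2: summing over `A` with Bombieri-Vinogradov

PROOF.  `L_one` for every `A ∈ AA` disjoint from `G` (`choose` the classes), sum over `A`.  The error is
`lv ∑_{(A, S)} (|Ep (2y) m c| + |Ep y m c|)`, `m = 4 p D pd A pd S`.  Apply `bv_fam` (`A = 7`, `k = 1`) with
`X = 2y`, `Q = ⌊exp (lv/5)⌋`, `ι = Finset ℕ × Finset ℕ`, `I` = the pairs (`sigma`/`product` filter), once for `2y` and once for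
`y`.  Conditions (large `ℓ`): `m ≤ 4 p D exp (lv/20 + 73/500 lv) ≤ exp (lv/5)`; `2y ≥ exp (lv/2)`, `log (2y) ≤ lv`:
`√(2y)/(log 2y)^B ≥ exp (lv/4)/lv^B ≥ exp (lv/5)`; `m ≥ 1`.
Multiplicity: for given `m = n` the pair is determined by the divisor `pd A` of `n`: `A` is the set of prime factors of
`pd A`, then `pd S = n/(4 p D pd A)` determines `S`.
Total `≤ 2 lv (2y)/(log 2y)^7 ≤ 4 * 2^7 lv y/lv^7 ≤ y/lv^5` (`log 2y ≥ lv/2`).
-/

set_option autoImplicit false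

open Finset

namespace Pool.SG

private theorem sl2_exp (B : ℕ) : Ev fun κ ℓ => lv κ ℓ ^ B ≤ Real.exp (lv κ ℓ / 20) := by
  have h1 := (isLittleO_pow_exp_pos_mul_atTop (k := B) (b := 1 / 20) (by norm_num)).bound
    (c := 1) one_pos
  obtain ⟨t0, h2⟩ := Filter.eventually_atTop.1 h1
  refine (ev_lv_const (max t0 0)).mono fun κ ℓ h => ?_
  have h3 := h2 (lv κ ℓ) ((le_max_left _ _).trans h)
  have h4 : 0 ≤ lv κ ℓ := (le_max_right _ _).trans h
  rw [Real.norm_eq_abs, Real.norm_eq_abs, abs_of_nonneg (pow_nonneg h4 B),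
    abs_of_pos (Real.exp_pos _), one_mul] at h3
  have h5 : lv κ ℓ / 20 = 1 / 20 * lv κ ℓ := by ring
  rw [h5]
  exact h3

private theorem sl2_pd_pos {A : Finset ℕ} (h : ∀ q ∈ A, q.Prime) : 0 < pd A :=
  prod_pos fun q hq => (h q hq).pos

private theorem sl2_pd_inj {A A' : Finset ℕ} (h : ∀ q ∈ A, q.Prime) (h' : ∀ q ∈ A', q.Prime)
    (he : pd A = pd A') : A = A' := by
  have h1 := Nat.primeFactors_prod h
  have h2 := Nat.primeFactors_prod h'
  unfold pd at he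
  rw [he, h2] at h1
  exact h1.symm

private theorem sl2_pr {u v : ℝ} {q : ℕ} (h : q ∈ pr u v) : q.Prime := by
  unfold pr at h
  exact (mem_filter.1 h).2.1

open scoped Classical in
theorem L_count {p D τ : ℕ} (hp : p.Prime) (hp2 : p ≠ 2) (h : HT p D τ) : ∃ c : ℝ, 0 < c ∧
    Ev fun κ ℓ => ∀ G ∈ FF p (1 + D * τ) κ ℓ, ∀ y : ℕ, YR κ ℓ y →
      c * y / lv κ ℓ ^ 2 * (∑ A ∈ (AA κ ℓ).filter (fun A => Disjoint A G), wt A) -
          y / lv κ ℓ ^ 5 ≤
        ∑ A ∈ (AA κ ℓ).filter (fun A => Disjoint A G),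
          (((Ioc y (2 * y)).filter (LL p D (1 + D * τ) κ ℓ A G)).card : ℝ) := by
  obtain ⟨c, hc, hL⟩ := L_one hp hp2 h
  obtain ⟨B, X0, hbv⟩ := bv_fam 7 1
  refine ⟨c, hc, ?_⟩
  refine ((((hL.and (sl2_exp B)).and (ev_lv_const (2 * X0))).and (ev_lv_const 512)).and
    (ev_lv_const (250 * (4 * p * D : ℝ)))).mono ?_
  rintro κ ℓ ⟨⟨⟨⟨hL, hB⟩, hX0⟩, h512⟩, hpD⟩ G hG y hy
  set l : ℝ := lv κ ℓ with hl
  have hl0 : 0 < l := by linarith
  obtain ⟨hy1, hy2⟩ := hy
  rw [← hl] at hy1 hy2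
  set 𝒜 : Finset (Finset ℕ) := (AA κ ℓ).filter (fun A => Disjoint A G) with h𝒜
  have hAp : ∀ A ∈ 𝒜, ∀ q ∈ A, q.Prime := by
    intro A hA q hq
    have h1 := (mem_filter.1 (mem_filter.1 hA).1).1
    exact sl2_pr ((mem_powersetCard.1 h1).1 hq)
  have hAe : ∀ A ∈ 𝒜, (pd A : ℝ) ≤ Real.exp (l / 20) := fun A hA =>
    (mem_filter.1 (mem_filter.1 hA).1).2
  have hSp : ∀ A, ∀ S ∈ QS p κ ℓ A G, ∀ q ∈ S, q.Prime := by
    intro A S hS q hq
    have h1 := mem_powerset.1 (mem_filter.1 hS).1 hq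
    exact sl2_pr (mem_filter.1 h1).1
  have hSe : ∀ A, ∀ S ∈ QS p κ ℓ A G, (pd S : ℝ) ≤ Real.exp (73 / 500 * l) := fun A S hS =>
    (mem_filter.1 hS).2
  -- the classes
  have hch : ∀ A : Finset ℕ, ∃ cl : Finset ℕ → ℕ, A ∈ 𝒜 →
      (∀ S ∈ QS p κ ℓ A G, Nat.Coprime (cl S) (4 * p * D * pd A * pd S)) ∧
        c * y / l ^ 2 * wt A - l * ∑ S ∈ QS p κ ℓ A G,
            (|Pool.BV.Ep (2 * y) (4 * p * D * pd A * pd S) (cl S)| +
              |Pool.BV.Ep y (4 * p * D * pd A * pd S) (cl S)|) ≤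
          (((Ioc y (2 * y)).filter (LL p D (1 + D * τ) κ ℓ A G)).card : ℝ) := by
    intro A
    by_cases hA : A ∈ 𝒜
    · obtain ⟨hA1, hA2⟩ := mem_filter.1 hA
      obtain ⟨cl, h1, h2⟩ := hL G hG A hA1 hA2 y ⟨hy1, hy2⟩
      exact ⟨cl, fun _ => ⟨h1, h2⟩⟩
    · exact ⟨fun _ => 0, fun h => absurd h hA⟩
  choose cl hcl using hch
  -- the family
  set I : Finset (Σ _ : Finset ℕ, Finset ℕ) := 𝒜.sigma (fun A => QS p κ ℓ A G) with hI
  set m : (Σ _ : Finset ℕ, Finset ℕ) → ℕ := fun i => 4 * p * D * pd i.1 * pd i.2 with hm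
  set cc : (Σ _ : Finset ℕ, Finset ℕ) → ℕ := fun i => cl i.1 i.2 with hcc
  set Q : ℕ := ⌊Real.exp (l / 5)⌋₊ with hQ
  have hpD0 : 0 < 4 * p * D := by
    have := hp.pos
    have := h.pos
    positivity
  have hexp : Real.exp (l / 2) ≤ ((2 * y : ℕ) : ℝ) := by
    push_cast
    have := Real.exp_pos (l / 2)
    linarith
  have hlog1 : l / 2 ≤ Real.log ((2 * y : ℕ) : ℝ) := by
    rw [Real.le_log_iff_exp_le ((Real.exp_pos _).trans_le hexp)]
    exact hexp
  have hlog2 : Real.log ((2 * y : ℕ) : ℝ) ≤ l := by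
    rw [Real.log_le_iff_le_exp ((Real.exp_pos _).trans_le hexp)]
    push_cast
    refine hy2.trans (Real.exp_le_exp.2 ?_)
    linarith
  have hlog0 : 0 < Real.log ((2 * y : ℕ) : ℝ) := by linarith
  have c1 : X0 ≤ 2 * y := by
    have h1 : (X0 : ℝ) ≤ ((2 * y : ℕ) : ℝ) := by
      have h2 := Real.add_one_le_exp (l / 2)
      linarith
    exact_mod_cast h1
  have c2 : (Q : ℝ) ≤ Real.sqrt ((2 * y : ℕ) : ℝ) / Real.log ((2 * y : ℕ) : ℝ) ^ B := by
    have h1 : (Q : ℝ) ≤ Real.exp (l / 5) := Nat.floor_le (Real.exp_pos _).le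
    refine h1.trans ?_
    rw [le_div_iff₀ (pow_pos hlog0 B)]
    have h2 : Real.log ((2 * y : ℕ) : ℝ) ^ B ≤ Real.exp (l / 20) :=
      (pow_le_pow_left₀ hlog0.le hlog2 B).trans hB
    have h3 : Real.exp (l / 4) ≤ Real.sqrt ((2 * y : ℕ) : ℝ) := by
      apply Real.le_sqrt_of_sq_le
      refine le_trans (le_of_eq ?_) hexp
      rw [← Real.exp_nat_mul]
      congr 1
      push_cast
      ring
    calc Real.exp (l / 5) * Real.log ((2 * y : ℕ) : ℝ) ^ B
        ≤ Real.exp (l / 5) * Real.exp (l / 20) :=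
          mul_le_mul_of_nonneg_left h2 (Real.exp_pos _).le
      _ = Real.exp (l / 4) := by
          rw [← Real.exp_add]
          congr 1
          ring
      _ ≤ _ := h3
  have c3 : ∀ i ∈ I, 1 ≤ m i ∧ m i ≤ Q ∧ Nat.Coprime (cc i) (m i) := by
    rintro ⟨A, S⟩ hi
    obtain ⟨hA, hS⟩ := mem_sigma.1 hi
    have a1 : 0 < pd A := sl2_pd_pos (hAp A hA)
    have a2 : 0 < pd S := sl2_pd_pos (hSp A S hS)
    refine ⟨?_, ?_, (hcl A hA).1 S hS⟩
    · change 0 < 4 * p * D * pd A * pd S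
      positivity
    · apply Nat.le_floor
      change ((4 * p * D * pd A * pd S : ℕ) : ℝ) ≤ Real.exp (l / 5)
      push_cast
      have b1 := hAe A hA
      have b2 := hSe A S hS
      have b3 : (4 * p * D : ℝ) ≤ Real.exp (l / 250) := by
        have := Real.add_one_le_exp (l / 250)
        linarith
      have b4 : (0 : ℝ) ≤ 4 * p * D := by positivity
      calc (4 * p * D : ℝ) * pd A * pd S
          ≤ Real.exp (l / 250) * Real.exp (l / 20) * Real.exp (73 / 500 * l) := by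
            gcongr
        _ = Real.exp (l / 5) := by
            rw [← Real.exp_add, ← Real.exp_add]
            congr 1
            ring
  have c4 : ∀ n, (I.filter (fun i => m i = n)).card ≤ n.divisors.card ^ 1 := by
    intro n
    rw [pow_one]
    rcases (I.filter (fun i => m i = n)).eq_empty_or_nonempty with h0 | ⟨i0, hi0⟩
    · rw [h0, card_empty]
      exact Nat.zero_le _
    · have hn0 : n ≠ 0 := by
        obtain ⟨h1, h2⟩ := mem_filter.1 hi0
        have := (c3 i0 h1).1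
        omega
      refine card_le_card_of_injOn (fun i => pd i.1) ?_ ?_
      · rintro ⟨A, S⟩ hi
        obtain ⟨h1, h2⟩ := mem_filter.1 hi
        rw [mem_coe, Nat.mem_divisors]
        refine ⟨?_, hn0⟩
        rw [← h2]
        change pd A ∣ 4 * p * D * pd A * pd S
        exact Dvd.intro_left _ rfl |>.mul_right _
      · rintro ⟨A, S⟩ hi ⟨A', S'⟩ hi' he
        obtain ⟨h1, h2⟩ := mem_filter.1 hi
        obtain ⟨h1', h2'⟩ := mem_filter.1 hi'
        obtain ⟨hA, hS⟩ := mem_sigma.1 h1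
        obtain ⟨hA', hS'⟩ := mem_sigma.1 h1'
        have e1 : A = A' := sl2_pd_inj (hAp A hA) (hAp A' hA') he
        subst e1
        have e2 : 4 * p * D * pd A * pd S = 4 * p * D * pd A * pd S' := by
          have : m ⟨A, S⟩ = m ⟨A, S'⟩ := h2.trans h2'.symm
          exact this
        have e3 : 0 < 4 * p * D * pd A := by
          have := sl2_pd_pos (hAp A hA)
          positivity
        have e4 : pd S = pd S' := Nat.eq_of_mul_eq_mul_left e3 e2
        have e5 : S = S' := sl2_pd_inj (hSp A S hS) (hSp A S' hS') e4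
        rw [e5]
  have key : ∀ z : ℕ, z ≤ 2 * y → ∑ A ∈ 𝒜, ∑ S ∈ QS p κ ℓ A G,
      |Pool.BV.Ep z (4 * p * D * pd A * pd S) (cl A S)| ≤ 256 * y / l ^ 7 := by
    intro z hz
    have h1 := hbv (2 * y) Q c1 c2 z hz _ I m cc c3 c4
    rw [hI, sum_sigma] at h1
    refine h1.trans ?_
    have h2 : (l / 2) ^ 7 ≤ Real.log ((2 * y : ℕ) : ℝ) ^ 7 :=
      pow_le_pow_left₀ (by positivity) hlog1 7
    calc ((2 * y : ℕ) : ℝ) / Real.log ((2 * y : ℕ) : ℝ) ^ 7 ≤ ((2 * y : ℕ) : ℝ) / (l / 2) ^ 7 :=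
          div_le_div_of_nonneg_left (Nat.cast_nonneg _) (by positivity) h2
      _ = 256 * y / l ^ 7 := by
          push_cast
          rw [div_pow]
          field_simp
          ring
  have k1 := key (2 * y) le_rfl
  have k2 := key y (by omega)
  have hsum : ∑ A ∈ 𝒜, (c * y / l ^ 2 * wt A - l * ∑ S ∈ QS p κ ℓ A G,
            (|Pool.BV.Ep (2 * y) (4 * p * D * pd A * pd S) (cl A S)| +
              |Pool.BV.Ep y (4 * p * D * pd A * pd S) (cl A S)|)) ≤
      ∑ A ∈ 𝒜, (((Ioc y (2 * y)).filter (LL p D (1 + D * τ) κ ℓ A G)).card : ℝ) :=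
    sum_le_sum fun A hA => (hcl A hA).2
  rw [sum_sub_distrib, ← mul_sum, ← mul_sum] at hsum
  simp only [sum_add_distrib] at hsum
  refine le_trans ?_ hsum
  have hfin : l * (256 * y / l ^ 7 + 256 * y / l ^ 7) ≤ y / l ^ 5 := by
    have h1 : l * (256 * y / l ^ 7 + 256 * y / l ^ 7) = 512 / l * (y / l ^ 5) := by
      field_simp
      ring
    rw [h1]
    have h2 : 512 / l ≤ 1 := by
      rw [div_le_one hl0]
      exact h512
    exact mul_le_of_le_one_left (by positivity) h2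
  have h3 := mul_le_mul_of_nonneg_left (add_le_add k1 k2) hl0.le
  linarith

end Pool.SG
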