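import Pool.Agent.Lib.MP_a51fee_ag.SG.NScale
import Pool.Agent.Lib.MP_a51fee_ag.SG.NSym
import Pool.Agent.Lib.MP_dd84fd_nt.L2G.BrunT

/-!
# SG-WCl: products in a residue class

PROOF of `prime_class`.  All primes of `P1` are in `(uu, ww]`, `q ≤ lv`, `uu ≥ lv^4` (large `ℓ`).  Cover by `(x, 2x]`, `x = 2^i`,
`uu ≤ 2 x`, `x ≤ ww`.  `brun_titchmarsh` (library `Pool.MP_dd84fd_nt.L2G`, `y = x`, modulus `q`; `4 q ≤ x`):
`#{q1 ∈ (x, 2x], q1 ≡ c mod q} ≤ C (x/q)(1 + log (1 + log q))/log (x/q)`, `log (x/q) ≥ (1/2) log x = (i/2) log 2`.  So the sum is at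
most `(C'/q)(1 + log (1 + log q)) ∑_i 1/i` over `i ∈ [log2 (uu/2), log2 ww]`, `∑ 1/i ≤ log (log ww/log uu) + C ≤ La + C' ≤ 2 La`
(`mert_inv`, `La_large`).
PROOF of `class_sum`.  `n ∑_{A, pd A ≡ c} wt A = ∑_{q1 ∈ P1} ∑_{A' ∈ powersetCard (n-1) (P1.erase q1), q1 pd A' ≡ c} (1/q1) wt A'`
(double counting of `(A, q1)`, `q1 ∈ A`) `≤ ∑_{A' ∈ powersetCard (n-1) P1} wt A' ∑_{q1 ∈ P1, q1 pd A' ≡ c mod q} 1/q1`; `pd A'` is
a unit mod `q` (its primes are `> uu > q`), so the inner sum is over one class: `prime_class`; then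
`esymm_le`: `∑_{A'} wt A' ≤ La^{n-1}/(n-1)!`, and `La * La^{n-1}/(n (n-1)!) = La^n/n!`.
-/

set_option autoImplicit false

open Finset

namespace Pool.SG

private theorem wcl_harm (m n : ℕ) (hm : 1 ≤ m) (hmn : m ≤ n) :
    ∑ i ∈ Ico (m + 1) (n + 1), 1 / (i : ℝ) ≤ Real.log n - Real.log m := by
  induction n, hmn using Nat.le_induction with
  | base => simp
  | succ n hn ih =>
    rw [Finset.sum_Ico_succ_top (by omega)]
    have hn0 : (0 : ℝ) < n := by
      have : 0 < n := by omega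
      exact_mod_cast this
    have h1 : 1 / ((n + 1 : ℕ) : ℝ) ≤ Real.log ((n + 1 : ℕ) : ℝ) - Real.log n := by
      have h2 : (0 : ℝ) < ((n + 1 : ℕ) : ℝ) / n := by positivity
      have h3 := Real.one_sub_inv_le_log_of_pos h2
      rw [Real.log_div (by positivity) hn0.ne'] at h3
      refine le_trans (le_of_eq ?_) h3
      push_cast
      field_simp
      ring
    linarith

private theorem wcl_bt (C : ℝ) (hC : 0 < C) (hBT : ∀ r c x y : ℕ, 1 ≤ r → 4 * r ≤ y →
    (((Ioc x (x + y)).filter (fun p => p.Prime ∧ p ≡ c [MOD r])).card : ℝ) ≤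
      C * ((y : ℝ) / r) * (1 + Real.log (1 + Real.log r)) / Real.log ((y : ℝ) / r))
    (q c i : ℕ) (hq : q.Prime) (hi : 1 ≤ i) (h4 : 4 * q ≤ 2 ^ i) (h2 : q ^ 2 ≤ 2 ^ i) :
    (((Ioc (2 ^ i) (2 ^ i + 2 ^ i)).filter (fun p => p.Prime ∧ p ≡ c [MOD q])).card : ℝ) / 2 ^ i ≤
      2 * C / Real.log 2 * ((1 + Real.log (1 + Real.log q)) / q) * (1 / (i : ℝ)) := by
  have hq0 : (0 : ℝ) < q := by exact_mod_cast hq.pos
  have hq1 : (1 : ℝ) ≤ q := by exact_mod_cast hq.one_lt.le
  have hl2 : 0 < Real.log 2 := Real.log_pos (by norm_num)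
  have hi0 : (0 : ℝ) < i := by exact_mod_cast hi
  have hB : 0 ≤ 1 + Real.log (1 + Real.log q) := by
    have h5 : 0 ≤ Real.log (q : ℝ) := Real.log_nonneg hq1
    have h6 : 0 ≤ Real.log (1 + Real.log (q : ℝ)) := Real.log_nonneg (by linarith)
    linarith
  have h := hBT q c (2 ^ i) (2 ^ i) hq.one_lt.le h4
  have h2i : (0 : ℝ) < (2 : ℝ) ^ i := by positivity
  push_cast at h
  have hlog : (i : ℝ) / 2 * Real.log 2 ≤ Real.log ((2 : ℝ) ^ i / q) := by
    rw [Real.log_div h2i.ne' hq0.ne', Real.log_pow]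
    have h5 : Real.log ((q : ℝ) ^ 2) ≤ Real.log ((2 : ℝ) ^ i) :=
      Real.log_le_log (by positivity) (by exact_mod_cast h2)
    rw [Real.log_pow, Real.log_pow] at h5
    push_cast at h5
    linarith
  have hlog0 : 0 < (i : ℝ) / 2 * Real.log 2 := by positivity
  calc (((Ioc (2 ^ i) (2 ^ i + 2 ^ i)).filter (fun p => p.Prime ∧ p ≡ c [MOD q])).card : ℝ) / 2 ^ i
      ≤ (C * ((2 : ℝ) ^ i / q) * (1 + Real.log (1 + Real.log q)) / Real.log ((2 : ℝ) ^ i / q)) /
          2 ^ i := div_le_div_of_nonneg_right h h2i.le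
    _ = C / q * (1 + Real.log (1 + Real.log q)) / Real.log ((2 : ℝ) ^ i / q) := by
        field_simp
    _ ≤ C / q * (1 + Real.log (1 + Real.log q)) / ((i : ℝ) / 2 * Real.log 2) :=
        div_le_div_of_nonneg_left (by positivity) hlog0 hlog
    _ = _ := by
        field_simp

open scoped Classical in
theorem prime_class : ∃ C : ℝ, 0 < C ∧ Ev fun κ ℓ => ∀ q : ℕ, q.Prime → (q : ℝ) ≤ lv κ ℓ →
    ∀ c : ℕ, ∑ r ∈ (P1 κ ℓ).filter (fun r => r ≡ c [MOD q]), 1 / (r : ℝ) ≤
      C * (1 + Real.log (1 + Real.log q)) / q * La κ ℓ := by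
  obtain ⟨C, hC, hBT⟩ := Pool.MP_dd84fd_nt.L2G.brun_titchmarsh
  obtain ⟨C1, hLa⟩ := La_low
  have hl2 : 0 < Real.log 2 := Real.log_pos (by norm_num)
  refine ⟨4 * C / Real.log 2, by positivity, ?_⟩
  refine (((hLa.and (La_large C1)).and ((ev_uu 16 4 0).and (ev_ww 1 1))).and
    ((ev_ell 0).and (ev_lv_const 1))).mono ?_
  rintro κ ℓ ⟨⟨⟨h1, h2⟩, h3, h4⟩, h5, h6⟩ q hq hqv c
  rw [pow_zero, mul_one] at h3
  rw [pow_one, one_mul] at h4
  have hlv0 : (0 : ℝ) < lv κ ℓ := Real.exp_pos _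
  have hq0 : (0 : ℝ) < q := by exact_mod_cast hq.pos
  have hq1 : (1 : ℝ) ≤ q := by exact_mod_cast hq.one_lt.le
  have hq2 : (2 : ℝ) ≤ q := by exact_mod_cast hq.two_le
  have hq4 : (q : ℝ) ^ 4 ≤ lv κ ℓ ^ 4 := pow_le_pow_left₀ hq0.le hqv 4
  have huu16 : 16 * (q : ℝ) ^ 4 ≤ uu κ ℓ := by linarith
  have huu256 : (256 : ℝ) ≤ uu κ ℓ := by
    have : (2 : ℝ) ^ 4 ≤ (q : ℝ) ^ 4 := pow_le_pow_left₀ (by norm_num) hq2 4
    linarith
  have hzz : 1 ≤ zz ℓ := by
    unfold zz
    exact Real.one_le_exp (by positivity)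
  have hww : uu κ ℓ ≤ ww κ ℓ := by
    refine le_trans ?_ h4
    have : 0 ≤ uu κ ℓ := by linarith
    nlinarith
  have hww0 : (0 : ℝ) < ww κ ℓ := by linarith
  set a : ℝ := Real.log (uu κ ℓ) / Real.log 2 - 1 with ha
  set b : ℝ := Real.log (ww κ ℓ) / Real.log 2 with hb
  have hluu : 8 * Real.log 2 ≤ Real.log (uu κ ℓ) := by
    have h7 : Real.log ((2 : ℝ) ^ 8) ≤ Real.log (uu κ ℓ) :=
      Real.log_le_log (by norm_num) (by norm_num; linarith)
    rw [Real.log_pow] at h7
    push_cast at h7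
    exact h7
  have ha2 : 2 ≤ a := by
    rw [ha, le_sub_iff_add_le, le_div_iff₀ hl2]
    linarith
  have hab : a ≤ b := by
    have h7 : Real.log (uu κ ℓ) ≤ Real.log (ww κ ℓ) := Real.log_le_log (by linarith) hww
    have h8 := div_le_div_of_nonneg_right h7 hl2.le
    rw [ha, hb]
    linarith
  set m := ⌊a⌋₊ with hm
  set n := ⌊b⌋₊ with hn
  have hm1 : 1 ≤ m := Nat.le_floor (by push_cast; linarith)
  have hmn : m ≤ n := Nat.floor_le_floor hab
  have hma : a < (m : ℝ) + 1 := Nat.lt_floor_add_one a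
  have hnb : (n : ℝ) ≤ b := Nat.floor_le (by linarith)
  have hharm : ∑ i ∈ Ico (m + 1) (n + 1), 1 / (i : ℝ) ≤ 2 * La κ ℓ := by
    refine (wcl_harm m n hm1 hmn).trans ?_
    have hm0 : (0 : ℝ) < m := by exact_mod_cast hm1
    have hn0 : (0 : ℝ) < n := by
      have : 0 < n := by omega
      exact_mod_cast this
    have e1 : Real.log n ≤ Real.log b := Real.log_le_log hn0 hnb
    have e2 : Real.log (a / 2) ≤ Real.log m := Real.log_le_log (by linarith) (by linarith)
    have hlu0 : 0 < Real.log (uu κ ℓ) := by linarith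
    have e3 : Real.log (Real.log (uu κ ℓ) / Real.log 2 / 2) ≤ Real.log a := by
      refine Real.log_le_log (by positivity) ?_
      rw [ha]
      have : 8 ≤ Real.log (uu κ ℓ) / Real.log 2 := by
        rw [le_div_iff₀ hl2]
        exact hluu
      linarith
    have hlw0 : 0 < Real.log (ww κ ℓ) := by
      have := Real.log_le_log (show (0 : ℝ) < uu κ ℓ by linarith) hww
      linarith
    have e4 : Real.log b = Real.log (Real.log (ww κ ℓ)) - Real.log (Real.log 2) := by
      rw [hb, Real.log_div hlw0.ne' hl2.ne']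
    have e5 : Real.log (Real.log (uu κ ℓ) / Real.log 2 / 2) =
        Real.log (Real.log (uu κ ℓ)) - Real.log (Real.log 2) - Real.log 2 := by
      rw [Real.log_div (by positivity) (by norm_num), Real.log_div hlu0.ne' hl2.ne']
    have e6 : Real.log (a / 2) = Real.log a - Real.log 2 := by
      rw [Real.log_div (by linarith) (by norm_num)]
    have e7 : Real.log (Real.log (uu κ ℓ)) = κ / 1000 * ℓ := by
      unfold uu
      rw [Real.log_exp, Real.log_exp]
    have e8 : Real.log (Real.log (ww κ ℓ)) = κ * ℓ - Real.log 2000 := by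
      unfold ww lv
      rw [Real.log_exp, Real.log_div (Real.exp_pos _).ne' (by norm_num), Real.log_exp]
    have e9 : 2 * Real.log 2 ≤ Real.log 2000 := by
      have h7 : Real.log ((2 : ℝ) ^ 2) ≤ Real.log 2000 :=
        Real.log_le_log (by norm_num) (by norm_num)
      rw [Real.log_pow] at h7
      push_cast at h7
      exact h7
    linarith
  have hB : 0 ≤ 1 + Real.log (1 + Real.log q) := by
    have h7 : 0 ≤ Real.log (q : ℝ) := Real.log_nonneg hq1
    have h8 : 0 ≤ Real.log (1 + Real.log (q : ℝ)) := Real.log_nonneg (by linarith)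
    linarith
  have hmaps : ∀ r ∈ (P1 κ ℓ).filter (fun r => r ≡ c [MOD q]),
      Nat.log 2 (r - 1) ∈ Ico (m + 1) (n + 1) := by
    intro r hr
    have hr1 := (mem_filter.1 hr).1
    unfold P1 at hr1
    rw [mem_pr hww0.le] at hr1
    obtain ⟨hrp, hr2, hr3⟩ := hr1
    have hr0 : r - 1 ≠ 0 := by
      have := hrp.two_le
      omega
    have k1 : 2 ^ Nat.log 2 (r - 1) ≤ r - 1 := Nat.pow_log_le_self 2 hr0
    have k2 : r - 1 < 2 ^ (Nat.log 2 (r - 1) + 1) := Nat.lt_pow_succ_log_self (by norm_num) _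
    have k3 : (2 : ℝ) ^ Nat.log 2 (r - 1) ≤ ww κ ℓ := by
      have : 2 ^ Nat.log 2 (r - 1) ≤ r := by omega
      have : ((2 : ℝ) ^ Nat.log 2 (r - 1)) ≤ (r : ℝ) := by exact_mod_cast this
      linarith
    have k4 : uu κ ℓ < (2 : ℝ) ^ (Nat.log 2 (r - 1) + 1) := by
      have : r ≤ 2 ^ (Nat.log 2 (r - 1) + 1) := by omega
      have : (r : ℝ) ≤ (2 : ℝ) ^ (Nat.log 2 (r - 1) + 1) := by exact_mod_cast this
      linarith
    have k5 : (Nat.log 2 (r - 1) : ℝ) ≤ b := by
      have := Real.log_le_log (by positivity) k3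
      rw [Real.log_pow] at this
      rw [hb, le_div_iff₀ hl2]
      exact this
    have k6 : a < (Nat.log 2 (r - 1) : ℝ) := by
      have := Real.log_lt_log (by linarith) k4
      rw [Real.log_pow] at this
      push_cast at this
      rw [ha, sub_lt_iff_lt_add, div_lt_iff₀ hl2]
      exact this
    rw [mem_Ico]
    constructor
    · have : m < Nat.log 2 (r - 1) := by
        rw [hm]
        exact (Nat.floor_lt (by linarith)).2 k6
      omega
    · have : Nat.log 2 (r - 1) ≤ n := Nat.le_floor k5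
      omega
  rw [← Finset.sum_fiberwise_of_maps_to hmaps]
  have hstep : ∀ i ∈ Ico (m + 1) (n + 1),
      ∑ r ∈ ((P1 κ ℓ).filter (fun r => r ≡ c [MOD q])).filter (fun r => Nat.log 2 (r - 1) = i),
        1 / (r : ℝ) ≤
      2 * C / Real.log 2 * ((1 + Real.log (1 + Real.log q)) / q) * (1 / (i : ℝ)) := by
    intro i hi
    rw [mem_Ico] at hi
    have hia : a < (i : ℝ) := by
      have : ((m + 1 : ℕ) : ℝ) ≤ i := by exact_mod_cast hi.1
      push_cast at this
      linarith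
    have h2i : uu κ ℓ / 2 ≤ (2 : ℝ) ^ i := by
      have k1 : Real.log (uu κ ℓ / 2) ≤ Real.log ((2 : ℝ) ^ i) := by
        rw [Real.log_div (by linarith) (by norm_num), Real.log_pow]
        rw [ha, sub_lt_iff_lt_add, div_lt_iff₀ hl2] at hia
        linarith
      exact (Real.log_le_log_iff (by linarith) (by positivity)).1 k1
    have hqi : 8 * (q : ℝ) ^ 4 ≤ (2 : ℝ) ^ i := by linarith
    have hqi' : 8 * q ^ 4 ≤ 2 ^ i := by exact_mod_cast hqi
    have hq2' := hq.two_le
    have k4 : 4 * q ≤ 2 ^ i := by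
      refine le_trans ?_ hqi'
      have : q ≤ q ^ 4 := Nat.le_self_pow (by norm_num) q
      omega
    have k2 : q ^ 2 ≤ 2 ^ i := by
      refine le_trans ?_ hqi'
      have : q ^ 2 ≤ q ^ 4 := Nat.pow_le_pow_right (by omega) (by norm_num)
      omega
    refine le_trans ?_ (wcl_bt C hC hBT q c i hq (by omega) k4 k2)
    have h2i0 : (0 : ℝ) < (2 : ℝ) ^ i := by positivity
    have hsub : ((P1 κ ℓ).filter (fun r => r ≡ c [MOD q])).filter
        (fun r => Nat.log 2 (r - 1) = i) ⊆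
        (Ioc (2 ^ i) (2 ^ i + 2 ^ i)).filter (fun p => p.Prime ∧ p ≡ c [MOD q]) := by
      intro r hr
      rw [mem_filter, mem_filter] at hr
      obtain ⟨⟨hr1, hr2⟩, hr3⟩ := hr
      unfold P1 at hr1
      rw [mem_pr hww0.le] at hr1
      have hr0 : r - 1 ≠ 0 := by
        have := hr1.1.two_le
        omega
      have l1 : 2 ^ Nat.log 2 (r - 1) ≤ r - 1 := Nat.pow_log_le_self 2 hr0
      have l2 : r - 1 < 2 ^ (Nat.log 2 (r - 1) + 1) := Nat.lt_pow_succ_log_self (by norm_num) _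
      rw [hr3] at l1 l2
      rw [pow_succ] at l2
      rw [mem_filter, mem_Ioc]
      refine ⟨⟨by omega, by omega⟩, hr1.1, hr2⟩
    calc ∑ r ∈ ((P1 κ ℓ).filter (fun r => r ≡ c [MOD q])).filter
          (fun r => Nat.log 2 (r - 1) = i), 1 / (r : ℝ)
        ≤ ∑ r ∈ ((P1 κ ℓ).filter (fun r => r ≡ c [MOD q])).filter
          (fun r => Nat.log 2 (r - 1) = i), 1 / (2 : ℝ) ^ i := by
          refine sum_le_sum fun r hr => ?_
          have hr' := (mem_filter.1 (hsub hr)).1
          rw [mem_Ioc] at hr'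
          refine one_div_le_one_div_of_le h2i0 ?_
          exact_mod_cast hr'.1.le
      _ = (((P1 κ ℓ).filter (fun r => r ≡ c [MOD q])).filter
          (fun r => Nat.log 2 (r - 1) = i)).card / (2 : ℝ) ^ i := by
          rw [sum_const, nsmul_eq_mul, mul_one_div]
      _ ≤ _ := by
          refine div_le_div_of_nonneg_right ?_ h2i0.le
          exact_mod_cast card_le_card hsub
  refine (sum_le_sum hstep).trans ?_
  rw [← mul_sum]
  have hK : 0 ≤ 2 * C / Real.log 2 * ((1 + Real.log (1 + Real.log q)) / q) := by positivity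
  calc 2 * C / Real.log 2 * ((1 + Real.log (1 + Real.log q)) / q) *
        ∑ i ∈ Ico (m + 1) (n + 1), 1 / (i : ℝ)
      ≤ 2 * C / Real.log 2 * ((1 + Real.log (1 + Real.log q)) / q) * (2 * La κ ℓ) :=
        mul_le_mul_of_nonneg_left hharm hK
    _ = _ := by ring

open scoped Classical in
private theorem wcl_erase (P : Finset ℕ) (n q c r : ℕ) :
    ∑ A ∈ ((powersetCard (n + 1) P).filter (fun A => pd A ≡ c [MOD q])).filter (fun A => r ∈ A),
      wt (A.erase r) ≤
    ∑ A ∈ (powersetCard n P).filter (fun A => r * pd A ≡ c [MOD q]), wt A := by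
  have hinj : Set.InjOn (fun A : Finset ℕ => A.erase r)
      (((powersetCard (n + 1) P).filter (fun A => pd A ≡ c [MOD q])).filter
        (fun A => r ∈ A) : Finset (Finset ℕ)) := by
    intro A hA B hB hh
    have hA' := (mem_filter.1 (mem_coe.1 hA)).2
    have hB' := (mem_filter.1 (mem_coe.1 hB)).2
    have hh' : A.erase r = B.erase r := hh
    rw [← insert_erase hA', ← insert_erase hB', hh']
  rw [← Finset.sum_image (f := wt) hinj]
  refine sum_le_sum_of_subset_of_nonneg ?_ fun A _ _ => wt_nonneg A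
  intro B hB
  obtain ⟨A, hA, rfl⟩ := mem_image.1 hB
  rw [mem_filter, mem_filter, mem_powersetCard] at hA
  obtain ⟨⟨⟨h1, h2⟩, h3⟩, h4⟩ := hA
  rw [mem_filter, mem_powersetCard]
  refine ⟨⟨(erase_subset _ _).trans h1, ?_⟩, ?_⟩
  · rw [card_erase_of_mem h4, h2]
    rfl
  · have h5 : r * pd (A.erase r) = pd A := by
      unfold pd
      exact mul_prod_erase A (fun q => q) h4
    rw [h5]
    exact h3

open scoped Classical in
theorem class_sum : ∃ C : ℝ, 0 < C ∧ Ev fun κ ℓ => ∀ n : ℕ, 1 ≤ n → ∀ q : ℕ, q.Prime →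
    (q : ℝ) ≤ lv κ ℓ → ∀ c : ℕ,
      ∑ A ∈ (powersetCard n (P1 κ ℓ)).filter (fun A => pd A ≡ c [MOD q]), wt A ≤
        C * (1 + Real.log (1 + Real.log q)) / q * (La κ ℓ ^ n / n.factorial) := by
  obtain ⟨C, hC, hcl⟩ := prime_class
  refine ⟨C, hC, ?_⟩
  refine ((hcl.and (ev_uu 1 1 0)).and (La_large 0)).mono ?_
  rintro κ ℓ ⟨⟨h1, h2⟩, h3⟩ n hn q hq hqv c
  rw [pow_zero, mul_one, pow_one, one_mul] at h2
  obtain ⟨k, rfl⟩ : ∃ k, n = k + 1 := ⟨n - 1, by omega⟩
  set P := P1 κ ℓ with hP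
  set K : ℝ := C * (1 + Real.log (1 + Real.log q)) / q with hK
  have hq1 : (1 : ℝ) ≤ q := by exact_mod_cast hq.one_lt.le
  have hK0 : 0 ≤ K := by
    have h7 : 0 ≤ Real.log (q : ℝ) := Real.log_nonneg hq1
    have h8 : 0 ≤ Real.log (1 + Real.log (q : ℝ)) := Real.log_nonneg (by linarith)
    rw [hK]
    positivity
  set S := (powersetCard (k + 1) P).filter (fun A => pd A ≡ c [MOD q]) with hS
  have hsum : ((k : ℝ) + 1) * ∑ A ∈ S, wt A =
      ∑ r ∈ P, 1 / (r : ℝ) * ∑ A ∈ S.filter (fun A => r ∈ A), wt (A.erase r) := by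
    have e1 : ∀ r ∈ P, 1 / (r : ℝ) * ∑ A ∈ S.filter (fun A => r ∈ A), wt (A.erase r) =
        ∑ A ∈ S, if r ∈ A then wt A else 0 := by
      intro r _
      rw [mul_sum, sum_filter]
      refine sum_congr rfl fun A _ => ?_
      split_ifs with hr
      · unfold wt
        exact mul_prod_erase A (fun q => 1 / (q : ℝ)) hr
      · rfl
    rw [sum_congr rfl e1, sum_comm, mul_sum]
    refine sum_congr rfl fun A hA => ?_
    rw [hS, mem_filter, mem_powersetCard] at hA
    rw [← sum_filter, sum_const, nsmul_eq_mul]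
    have h5 : P.filter (fun q => q ∈ A) = A := by
      ext r
      rw [mem_filter]
      exact ⟨fun h => h.2, fun h => ⟨hA.1.1 h, h⟩⟩
    rw [h5, hA.1.2]
    push_cast
    ring
  have hcop : ∀ r ∈ P, Nat.Coprime r q := by
    intro r hr
    rw [hP] at hr
    unfold P1 at hr
    have hww0 : (0 : ℝ) ≤ ww κ ℓ := (Real.exp_pos _).le
    rw [mem_pr hww0] at hr
    rw [Nat.coprime_primes hr.1 hq]
    rintro rfl
    linarith [hr.2.1]
  have hinner : ∀ A ∈ powersetCard k P,
      ∑ r ∈ P.filter (fun r => r * pd A ≡ c [MOD q]), 1 / (r : ℝ) ≤ K * La κ ℓ := by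
    intro A hA
    rw [mem_powersetCard] at hA
    haveI : Fact q.Prime := ⟨hq⟩
    have hcA : Nat.Coprime (pd A) q := by
      unfold pd
      exact Nat.Coprime.prod_left fun r hr => hcop r (hA.1 hr)
    have hu : ((pd A : ℕ) : ZMod q) ≠ 0 := by
      intro h0
      rw [ZMod.natCast_eq_zero_iff] at h0
      have := Nat.Coprime.eq_one_of_dvd hcA.symm h0
      exact hq.one_lt.ne' this
    refine le_trans ?_ (h1 q hq hqv (((c : ZMod q) * ((pd A : ℕ) : ZMod q)⁻¹).val))
    refine sum_le_sum_of_subset_of_nonneg ?_ fun r _ _ => by positivity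
    intro r hr
    rw [mem_filter] at hr ⊢
    refine ⟨hr.1, ?_⟩
    rw [← ZMod.natCast_eq_natCast_iff, ZMod.natCast_val, ZMod.cast_id]
    have h5 := (ZMod.natCast_eq_natCast_iff _ _ _).2 hr.2
    push_cast at h5
    rw [← h5]
    field_simp
  have hmain : ((k : ℝ) + 1) * ∑ A ∈ S, wt A ≤ K * La κ ℓ * (La κ ℓ ^ k / k.factorial) := by
    rw [hsum]
    calc ∑ r ∈ P, 1 / (r : ℝ) * ∑ A ∈ S.filter (fun A => r ∈ A), wt (A.erase r)
        ≤ ∑ r ∈ P, 1 / (r : ℝ) *
          ∑ A ∈ (powersetCard k P).filter (fun A => r * pd A ≡ c [MOD q]), wt A := by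
          refine sum_le_sum fun r _ => mul_le_mul_of_nonneg_left ?_ (by positivity)
          exact wcl_erase P k q c r
      _ = ∑ r ∈ P, ∑ A ∈ powersetCard k P,
          if r * pd A ≡ c [MOD q] then 1 / (r : ℝ) * wt A else 0 := by
          refine sum_congr rfl fun r _ => ?_
          rw [mul_sum, sum_filter]
      _ = ∑ A ∈ powersetCard k P,
          wt A * ∑ r ∈ P.filter (fun r => r * pd A ≡ c [MOD q]), 1 / (r : ℝ) := by
          rw [sum_comm]
          refine sum_congr rfl fun A _ => ?_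
          rw [mul_sum, sum_filter]
          refine sum_congr rfl fun r _ => ?_
          split_ifs
          · ring
          · rfl
      _ ≤ ∑ A ∈ powersetCard k P, wt A * (K * La κ ℓ) :=
          sum_le_sum fun A hA => mul_le_mul_of_nonneg_left (hinner A hA) (wt_nonneg A)
      _ = K * La κ ℓ * ∑ A ∈ powersetCard k P, wt A := by
          rw [← sum_mul, mul_comm]
      _ ≤ K * La κ ℓ * (La κ ℓ ^ k / k.factorial) := by
          refine mul_le_mul_of_nonneg_left ?_ (mul_nonneg hK0 h3)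
          exact esymm_le P k
  have hk0 : (0 : ℝ) < (k : ℝ) + 1 := by positivity
  refine le_of_mul_le_mul_left ?_ hk0
  refine hmain.trans (le_of_eq ?_)
  rw [Nat.factorial_succ]
  push_cast
  have hf : (k.factorial : ℝ) ≠ 0 := by positivity
  field_simp
  ring

end Pool.SG
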