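import Pool.Agent.Lib.MP_a51fee_ag.SG.ND
import Pool.Agent.Lib.MP_c77da8_nt.Sv4

/-!
# SG-WSa: a sieve for prime values with two linear forms

PROOF.  `sieve_blk` (library `MP_c77da8_nt/Sv4.lean`, upper bound) with `k = 3`, `u = 3` (`2 k = 6 ≤ 8`), the given `t`,
`N = 2y + 1`, `M = 1`, `v = 0`.  For a prime `q` put `B q = {0}` if `R q`, otherwise
`B q = {0} ∪ {r < q | q ∣ 1 + m1 r} ∪ {r < q | q ∣ 1 + m2 r}`; each of the two sets has at most one element (none if
`q ∣ m_i`), so `|B q| ≤ 3`.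
If `P ∈ Ioc y (2y)` is counted and `q ∈ blk 3 t j`, then `P % q ∉ B q`: `q ≤ 2^(3 * 2^t) ≤ √y < P`... so `q ∤ P`
(`P` prime, `q < P`), and if `¬ R q` then `q ∤ 1 + m_i P`.
Let `z1 = 2^(3 * 2^t)`.  The primes of the blocks are exactly the `q ∈ pr 8 z1` (`exists_blk`, `mem_blk`, `blk_disj`).
For such `q`, with `E = m1 m2 |m1 - m2|`:
 `R q`: `1 - |B q|/q ≤ 1 - 1/q`;
 `¬ R q`, `q ∤ E`: `|B q| = 3` (`0` and the two solutions are distinct: `m1 r ≡ m2 r ≡ -1` gives `q ∣ (m1 - m2) r`,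
  `q ∤ r`): `1 - 3/q ≤ (1 - 1/q)^3` (Bernoulli);
 `¬ R q`, `q ∣ E`: `1 - |B q|/q ≤ 1 - 1/q ≤ (1 - 1/q)^3 (1 + 6/q)` as `(1 - x)^{-2} ≤ 1 + 6 x`, `0 ≤ x ≤ 1/2`.
So the product is at most `∏_{pr 8 z1} (1-1/q) * ∏_{pr 8 z1, ¬R} (1-1/q)^2 * ∏_{q ∣ E} (1 + 6/q)`.
`2 (2y + 1) ≤ 6 y`, and the error is `2^(204 * 3 * (3 * 2^t)) = 2^(1836 * 2^t) ≤ √y`.
-/

set_option autoImplicit false

open Finset

namespace Pool.SG

open Pool.Agent.Lib.MP_c77da8_nt.Sv in
private theorem wsa_blocks (t : ℕ) (g : ℕ → ℝ) :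
    ∏ j : Fin t, ∏ q ∈ blk 3 t j, g q = ∏ q ∈ pr 8 (2 ^ (3 * 2 ^ t)), g q := by
  classical
  have h1 : pr 8 (2 ^ (3 * 2 ^ t)) = (univ : Finset (Fin t)).biUnion (blk 3 t) := by
    ext q
    rw [mem_pr (by positivity), mem_biUnion]
    constructor
    · rintro ⟨hq, h8, hz⟩
      have h8' : 2 ^ 3 < q := by
        have : (8 : ℕ) < q := by exact_mod_cast h8
        simpa using this
      have hz' : q ≤ 2 ^ (3 * 2 ^ t) := by exact_mod_cast hz
      obtain ⟨j, hj⟩ := exists_blk hq h8' hz'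
      exact ⟨j, mem_univ j, hj⟩
    · rintro ⟨j, _, hj⟩
      have h8 := blk_gt hj
      have hz := blk_le hj
      refine ⟨(mem_blk.1 hj).1, ?_, ?_⟩
      · have : (8 : ℕ) < q := by simpa using h8
        exact_mod_cast this
      · exact_mod_cast hz
  rw [h1, prod_biUnion]
  intro i _ j _ hij
  exact blk_disj 3 t i j hij

/-- the solutions of `1 + m r = 0` mod `q` -/
private def wsaS (m q : ℕ) : Finset ℕ := (range q).filter fun r => q ∣ 1 + m * r

private theorem wsaS_card {m q : ℕ} (hq : q.Prime) : (wsaS m q).card ≤ 1 := by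
  rw [card_le_one]
  intro r hr r' hr'
  unfold wsaS at hr hr'
  rw [mem_filter, mem_range] at hr hr'
  have hqm : Nat.Coprime q m := by
    rw [hq.coprime_iff_not_dvd]
    intro h
    have h1 : q ∣ 1 := (Nat.dvd_add_left (h.mul_right r)).1 hr.2
    exact hq.one_lt.ne' (Nat.dvd_one.1 h1)
  have h1 : 1 + m * r ≡ 1 + m * r' [MOD q] := by
    have e1 : 1 + m * r ≡ 0 [MOD q] := (Nat.modEq_zero_iff_dvd).2 hr.2
    have e2 : 1 + m * r' ≡ 0 [MOD q] := (Nat.modEq_zero_iff_dvd).2 hr'.2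
    exact e1.trans e2.symm
  have h2 : m * r ≡ m * r' [MOD q] := Nat.ModEq.add_left_cancel' 1 h1
  have h3 : r ≡ r' [MOD q] := Nat.ModEq.cancel_left_of_coprime hqm h2
  exact Nat.ModEq.eq_of_lt_of_lt h3 hr.1 hr'.1

private theorem wsaS_nonempty {m q : ℕ} (hq : q.Prime) (hm : ¬ q ∣ m) : ∃ r, r ∈ wsaS m q := by
  have : Fact q.Prime := ⟨hq⟩
  have hm0 : (m : ZMod q) ≠ 0 := by
    intro h
    exact hm ((ZMod.natCast_eq_zero_iff m q).1 h)
  refine ⟨(-(m : ZMod q)⁻¹).val, ?_⟩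
  unfold wsaS
  rw [mem_filter, mem_range]
  refine ⟨ZMod.val_lt _, ?_⟩
  rw [← ZMod.natCast_eq_zero_iff]
  push_cast
  rw [ZMod.natCast_zmod_val]
  field_simp
  ring

open scoped Classical in
/-- the excluded classes -/
private noncomputable def wsaB (R : ℕ → Prop) (m1 m2 q : ℕ) : Finset ℕ :=
  if R q then {0} else insert 0 (wsaS m1 q ∪ wsaS m2 q)

private theorem wsaB_card (R : ℕ → Prop) (m1 m2 : ℕ) {q : ℕ} (hq : q.Prime) :
    (wsaB R m1 m2 q).card ≤ 3 := by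
  classical
  unfold wsaB
  split_ifs with h
  · rw [card_singleton]
    norm_num
  · have h1 := card_insert_le 0 (wsaS m1 q ∪ wsaS m2 q)
    have h2 := card_union_le (wsaS m1 q) (wsaS m2 q)
    have h3 := wsaS_card (m := m1) hq
    have h4 := wsaS_card (m := m2) hq
    omega

private theorem wsaB_lt (R : ℕ → Prop) (m1 m2 : ℕ) {q : ℕ} (hq : q.Prime) :
    ∀ b ∈ wsaB R m1 m2 q, b < q := by
  classical
  intro b hb
  unfold wsaB at hb
  split_ifs at hb with h
  · rw [mem_singleton] at hb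
    rw [hb]
    exact hq.pos
  · rw [mem_insert, mem_union] at hb
    rcases hb with rfl | hb | hb
    · exact hq.pos
    · exact mem_range.1 (mem_filter.1 hb).1
    · exact mem_range.1 (mem_filter.1 hb).1

private theorem wsaB_pos (R : ℕ → Prop) (m1 m2 q : ℕ) : 1 ≤ (wsaB R m1 m2 q).card := by
  classical
  have h0 : 0 ∈ wsaB R m1 m2 q := by
    unfold wsaB
    split_ifs
    · exact mem_singleton_self 0
    · exact mem_insert_self 0 _
  exact card_pos.2 ⟨0, h0⟩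

private theorem wsaB_three (R : ℕ → Prop) {m1 m2 q : ℕ} (hq : q.Prime) (hR : ¬ R q)
    (hE : ¬ q ∣ m1 * m2 * Nat.dist m1 m2) : 3 ≤ (wsaB R m1 m2 q).card := by
  classical
  have e1 : ¬ q ∣ m1 := fun h => hE ((h.mul_right m2).mul_right _)
  have e2 : ¬ q ∣ m2 := fun h => hE ((h.mul_left m1).mul_right _)
  have e3 : ¬ q ∣ Nat.dist m1 m2 := fun h => hE (h.mul_left _)
  obtain ⟨r1, h1⟩ := wsaS_nonempty hq e1
  obtain ⟨r2, h2⟩ := wsaS_nonempty hq e2
  have d1 : q ∣ 1 + m1 * r1 := (mem_filter.1 h1).2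
  have d2 : q ∣ 1 + m2 * r2 := (mem_filter.1 h2).2
  have hz : ∀ m r : ℕ, q ∣ 1 + m * r → ¬ q ∣ r := by
    intro m r hd hr
    have h3 : q ∣ 1 := (Nat.dvd_add_left (hr.mul_left m)).1 hd
    exact hq.one_lt.ne' (Nat.dvd_one.1 h3)
  have n1 : r1 ≠ 0 := by
    rintro rfl
    exact hz m1 0 d1 (dvd_zero q)
  have n2 : r2 ≠ 0 := by
    rintro rfl
    exact hz m2 0 d2 (dvd_zero q)
  have n3 : r1 ≠ r2 := by
    rintro rfl
    have hr := hz m1 r1 d1
    apply e3
    have h3 : 1 + m1 * r1 ≡ 1 + m2 * r1 [MOD q] := by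
      have e1 : 1 + m1 * r1 ≡ 0 [MOD q] := (Nat.modEq_zero_iff_dvd).2 d1
      have e2 : 1 + m2 * r1 ≡ 0 [MOD q] := (Nat.modEq_zero_iff_dvd).2 d2
      exact e1.trans e2.symm
    have h4 : m1 * r1 ≡ m2 * r1 [MOD q] := Nat.ModEq.add_left_cancel' 1 h3
    have hqr : Nat.gcd q r1 = 1 := (hq.coprime_iff_not_dvd).2 hr
    have h5 : m1 ≡ m2 [MOD q] := Nat.ModEq.cancel_right_of_coprime hqr h4
    rcases le_total m1 m2 with h6 | h6
    · rw [Nat.dist_eq_sub_of_le h6]
      exact (Nat.modEq_iff_dvd' h6).1 h5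
    · rw [Nat.dist_eq_sub_of_le_right h6]
      exact (Nat.modEq_iff_dvd' h6).1 h5.symm
  have hsub : ({0, r1, r2} : Finset ℕ) ⊆ wsaB R m1 m2 q := by
    unfold wsaB
    rw [if_neg hR]
    intro x hx
    rw [mem_insert, mem_insert, mem_singleton] at hx
    rw [mem_insert, mem_union]
    rcases hx with rfl | rfl | rfl
    · exact Or.inl rfl
    · exact Or.inr (Or.inl h1)
    · exact Or.inr (Or.inr h2)
  have hcard : ({0, r1, r2} : Finset ℕ).card = 3 := by
    rw [card_insert_of_notMem, card_insert_of_notMem, card_singleton]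
    · rwa [mem_singleton]
    · rw [mem_insert, mem_singleton]
      rintro (h | h)
      · exact n1 h.symm
      · exact n2 h.symm
  rw [← hcard]
  exact card_le_card hsub

open scoped Classical in
private theorem wsa_local (R : ℕ → Prop) {m1 m2 q : ℕ} (hq : q.Prime) (h8 : (8 : ℝ) < q) :
    1 - ((wsaB R m1 m2 q).card : ℝ) / q ≤
      (1 - 1 / (q : ℝ)) * (if ¬ R q then (1 - 1 / (q : ℝ)) ^ 2 else 1) *
        (if q ∣ m1 * m2 * Nat.dist m1 m2 then 1 + 6 / (q : ℝ) else 1) := by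
  have hq0 : (0 : ℝ) < q := by linarith
  set x : ℝ := 1 / (q : ℝ) with hx
  have hx0 : 0 < x := by positivity
  have hx1 : x ≤ 1 / 8 := by
    rw [hx]
    exact one_div_le_one_div_of_le (by norm_num) h8.le
  have hc1 : (1 : ℝ) ≤ ((wsaB R m1 m2 q).card : ℝ) := by exact_mod_cast wsaB_pos R m1 m2 q
  have e1 : ((wsaB R m1 m2 q).card : ℝ) / q = ((wsaB R m1 m2 q).card : ℝ) * x := by
    rw [hx, mul_one_div]
  have e6 : 6 / (q : ℝ) = 6 * x := by rw [hx, mul_one_div]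
  have h1 : 1 - ((wsaB R m1 m2 q).card : ℝ) / q ≤ 1 - x := by
    rw [e1]
    nlinarith
  rw [e6]
  by_cases hR : R q
  · rw [if_neg (not_not.2 hR), mul_one]
    split_ifs with hE
    · refine h1.trans ?_
      nlinarith
    · rw [mul_one]
      exact h1
  · rw [if_pos hR]
    split_ifs with hE
    · refine h1.trans ?_
      have h2 : 1 ≤ (1 - x) ^ 2 * (1 + 6 * x) := by
        have h3 : (1 - x) ^ 2 * (1 + 6 * x) - 1 = x * ((1 - 2 * x) * (4 - 3 * x)) := by ring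
        have h4 : 0 ≤ x * ((1 - 2 * x) * (4 - 3 * x)) :=
          mul_nonneg hx0.le (mul_nonneg (by linarith) (by linarith))
        linarith
      have h3 : 0 ≤ 1 - x := by linarith
      calc 1 - x = (1 - x) * 1 := (mul_one _).symm
        _ ≤ (1 - x) * ((1 - x) ^ 2 * (1 + 6 * x)) := mul_le_mul_of_nonneg_left h2 h3
        _ = _ := by ring
    · rw [mul_one]
      have h3 : (3 : ℝ) ≤ ((wsaB R m1 m2 q).card : ℝ) := by
        exact_mod_cast wsaB_three R hq hR hE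
      rw [e1]
      have h4 : (1 - x) * (1 - x) ^ 2 - (1 - 3 * x) = x ^ 2 * (3 - x) := by ring
      have h5 : 0 ≤ x ^ 2 * (3 - x) := mul_nonneg (sq_nonneg x) (by linarith)
      have h6 : 3 * x ≤ ((wsaB R m1 m2 q).card : ℝ) * x :=
        mul_le_mul_of_nonneg_right h3 hx0.le
      linarith

open scoped Classical in
theorem pair_count (R : ℕ → Prop) (m1 m2 : ℕ) (h1 : 0 < m1) (h2 : 0 < m2) (hne : m1 ≠ m2)
    (t y : ℕ) (hy : (2 : ℝ) ^ (1836 * 2 ^ t) ≤ Real.sqrt y) :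
    (((Ioc y (2 * y)).filter (fun P => P.Prime ∧ (∀ q : ℕ, q.Prime → q ∣ 1 + m1 * P → R q) ∧
        ∀ q : ℕ, q.Prime → q ∣ 1 + m2 * P → R q)).card : ℝ) ≤
      6 * y * ((∏ q ∈ pr 8 (2 ^ (3 * 2 ^ t)), (1 - 1 / (q : ℝ))) *
        (∏ q ∈ (pr 8 (2 ^ (3 * 2 ^ t))).filter (fun q => ¬ R q), (1 - 1 / (q : ℝ)) ^ 2) *
        Fh (m1 * m2 * Nat.dist m1 m2)) + Real.sqrt y := by
  have hpow1 : (1 : ℝ) ≤ (2 : ℝ) ^ (1836 * 2 ^ t) := one_le_pow₀ (by norm_num)
  have hy0 : 0 < y := by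
    rcases Nat.eq_zero_or_pos y with rfl | h
    · rw [Nat.cast_zero, Real.sqrt_zero] at hy
      linarith
    · exact h
  have hy1 : (1 : ℝ) ≤ y := by exact_mod_cast hy0
  have hsy : Real.sqrt y ≤ y := by
    rw [Real.sqrt_le_left (by linarith)]
    nlinarith
  -- the sieve
  have hsieve := (Pool.Agent.Lib.MP_c77da8_nt.Sv.sieve_blk 3 3 t (by norm_num) (by norm_num)
    (by norm_num) (wsaB R m1 m2)
    (fun j q hq => wsaB_card R m1 m2 (Pool.Agent.Lib.MP_c77da8_nt.Sv.mem_blk.1 hq).1)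
    (fun j q hq => wsaB_lt R m1 m2 (Pool.Agent.Lib.MP_c77da8_nt.Sv.mem_blk.1 hq).1)
    (2 * y + 1) 1 0 one_pos (fun j q _ => Nat.coprime_one_left q)).2
  rw [wsa_blocks t (fun q => 1 - ((wsaB R m1 m2 q).card : ℝ) / q)] at hsieve
  refine le_trans (Nat.cast_le.2 (card_le_card ?_)) (hsieve.trans ?_)
  · intro P hP
    rw [mem_filter, mem_Ioc] at hP
    obtain ⟨⟨hP1, hP2⟩, hPp, hR1, hR2⟩ := hP
    rw [mem_filter, mem_range]
    refine ⟨by omega, Nat.modEq_one, ?_⟩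
    intro j q hq hmem
    have hqp := (Pool.Agent.Lib.MP_c77da8_nt.Sv.mem_blk.1 hq).1
    have hqle := Pool.Agent.Lib.MP_c77da8_nt.Sv.blk_le hq
    have hqP : q < P := by
      have e1 : (q : ℝ) ≤ 2 ^ (3 * 2 ^ t) := by exact_mod_cast hqle
      have e2 : (2 : ℝ) ^ (3 * 2 ^ t) ≤ 2 ^ (1836 * 2 ^ t) :=
        pow_le_pow_right₀ (by norm_num) (Nat.mul_le_mul_right _ (by norm_num))
      have e3 : (q : ℝ) ≤ y := by linarith
      have e4 : q ≤ y := by exact_mod_cast e3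
      omega
    have hndvd : ¬ q ∣ P := by
      intro h
      rcases (Nat.dvd_prime hPp).1 h with h | h
      · exact hqp.one_lt.ne' h
      · omega
    have hmod : P % q ≠ 0 := fun h => hndvd (Nat.dvd_of_mod_eq_zero h)
    have hlift : ∀ m : ℕ, q ∣ 1 + m * (P % q) → q ∣ 1 + m * P := by
      intro m h
      have e1 : 1 + m * (P % q) ≡ 1 + m * P [MOD q] :=
        Nat.ModEq.add_left 1 (Nat.ModEq.mul_left m (Nat.mod_modEq P q))
      exact (e1.dvd_iff (dvd_refl q)).1 h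
    unfold wsaB at hmem
    split_ifs at hmem with hR
    · rw [mem_singleton] at hmem
      exact hmod hmem
    · rw [mem_insert, mem_union] at hmem
      rcases hmem with hmem | hmem | hmem
      · exact hmod hmem
      · exact hR (hR1 q hqp (hlift m1 (mem_filter.1 hmem).2))
      · exact hR (hR2 q hqp (hlift m2 (mem_filter.1 hmem).2))
  · -- the product
    have hnn : ∀ q ∈ pr 8 (2 ^ (3 * 2 ^ t)), q.Prime ∧ (8 : ℝ) < q := by
      intro q hq
      rw [mem_pr (by positivity)] at hq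
      exact ⟨hq.1, hq.2.1⟩
    have hprod : ∏ q ∈ pr 8 (2 ^ (3 * 2 ^ t)), (1 - ((wsaB R m1 m2 q).card : ℝ) / q) ≤
        (∏ q ∈ pr 8 (2 ^ (3 * 2 ^ t)), (1 - 1 / (q : ℝ))) *
        (∏ q ∈ (pr 8 (2 ^ (3 * 2 ^ t))).filter (fun q => ¬ R q), (1 - 1 / (q : ℝ)) ^ 2) *
        Fh (m1 * m2 * Nat.dist m1 m2) := by
      calc ∏ q ∈ pr 8 (2 ^ (3 * 2 ^ t)), (1 - ((wsaB R m1 m2 q).card : ℝ) / q)
          ≤ ∏ q ∈ pr 8 (2 ^ (3 * 2 ^ t)), ((1 - 1 / (q : ℝ)) *
              (if ¬ R q then (1 - 1 / (q : ℝ)) ^ 2 else 1) *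
              (if q ∣ m1 * m2 * Nat.dist m1 m2 then 1 + 6 / (q : ℝ) else 1)) := by
            refine prod_le_prod (fun q hq => ?_) fun q hq => ?_
            · obtain ⟨hqp, h8⟩ := hnn q hq
              have hq0 : (0 : ℝ) < q := by linarith
              have h3 : ((wsaB R m1 m2 q).card : ℝ) ≤ 3 := by
                exact_mod_cast wsaB_card R m1 m2 hqp
              rw [sub_nonneg, div_le_one hq0]
              linarith
            · obtain ⟨hqp, h8⟩ := hnn q hq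
              exact wsa_local R hqp h8
        _ = (∏ q ∈ pr 8 (2 ^ (3 * 2 ^ t)), (1 - 1 / (q : ℝ))) *
            (∏ q ∈ (pr 8 (2 ^ (3 * 2 ^ t))).filter (fun q => ¬ R q), (1 - 1 / (q : ℝ)) ^ 2) *
            ∏ q ∈ (pr 8 (2 ^ (3 * 2 ^ t))).filter (fun q => q ∣ m1 * m2 * Nat.dist m1 m2),
              (1 + 6 / (q : ℝ)) := by
            rw [prod_mul_distrib, prod_mul_distrib, prod_filter, prod_filter]
        _ ≤ _ := by
            apply mul_le_mul_of_nonneg_left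
            · unfold Fh
              refine prod_le_prod_of_subset_of_one_le ?_ ?_ ?_
              · intro q hq
                rw [mem_filter] at hq
                rw [Nat.mem_primeFactors]
                refine ⟨(hnn q hq.1).1, hq.2, ?_⟩
                have hd : 0 < Nat.dist m1 m2 := Nat.dist_pos_of_ne hne
                positivity
              · intro q _
                positivity
              · intro q _ _
                have : (0 : ℝ) ≤ 6 / (q : ℝ) := by positivity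
                linarith
            · apply mul_nonneg
              · refine prod_nonneg fun q hq => ?_
                obtain ⟨hqp, h8⟩ := hnn q hq
                have hq0 : (0 : ℝ) < q := by linarith
                rw [sub_nonneg, div_le_one hq0]
                linarith
              · exact prod_nonneg fun q _ => by positivity
    have hprod0 : 0 ≤ ∏ q ∈ pr 8 (2 ^ (3 * 2 ^ t)), (1 - ((wsaB R m1 m2 q).card : ℝ) / q) := by
      refine prod_nonneg fun q hq => ?_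
      obtain ⟨hqp, h8⟩ := hnn q hq
      have hq0 : (0 : ℝ) < q := by linarith
      have h3 : ((wsaB R m1 m2 q).card : ℝ) ≤ 3 := by
        exact_mod_cast wsaB_card R m1 m2 hqp
      rw [sub_nonneg, div_le_one hq0]
      linarith
    have herr : (2 : ℝ) ^ (204 * 3 * (3 * 2 ^ t)) ≤ Real.sqrt y := by
      have : 204 * 3 * (3 * 2 ^ t) = 1836 * 2 ^ t := by ring
      rw [this]
      exact hy
    refine add_le_add ?_ herr
    rw [Nat.cast_one, div_one]
    push_cast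
    calc 2 * ((2 * (y : ℝ) + 1) * ∏ q ∈ pr 8 (2 ^ (3 * 2 ^ t)),
          (1 - ((wsaB R m1 m2 q).card : ℝ) / q))
        = (4 * (y : ℝ) + 2) * ∏ q ∈ pr 8 (2 ^ (3 * 2 ^ t)),
          (1 - ((wsaB R m1 m2 q).card : ℝ) / q) := by ring
      _ ≤ (6 * y) * ∏ q ∈ pr 8 (2 ^ (3 * 2 ^ t)),
          (1 - ((wsaB R m1 m2 q).card : ℝ) / q) :=
          mul_le_mul_of_nonneg_right (by linarith) hprod0
      _ ≤ _ := mul_le_mul_of_nonneg_left hprod (by positivity)

end Pool.SG
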